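import Pool.Agent.Lib.MP_7b7e48_nt.GT.Defs

/-!
# Elementary tools on exponential sums and on the sieve density `V`
-/

set_option autoImplicit false

open Finset

namespace Pool.Agent.Lib.GT.RE

/-! ### The distance of `e x` from `1` -/

theorem norm_e_sub_one (x : ℝ) : ‖e x - 1‖ = 2 * |Real.sin (Real.pi * x)| := by
  unfold e
  rw [show (2 * Real.pi * x * Complex.I : ℂ) = Complex.I * ((2 * Real.pi * x : ℝ) : ℂ) by
    push_cast; ring, Complex.norm_exp_I_mul_ofReal_sub_one]
  rw [show 2 * Real.pi * x / 2 = Real.pi * x by ring, norm_mul, Real.norm_eq_abs, Real.norm_eq_abs,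
    abs_of_pos (by norm_num : (0 : ℝ) < 2)]

theorem norm_e_sub_one_le (x : ℝ) : ‖e x - 1‖ ≤ 2 * Real.pi * |x| := by
  unfold e
  rw [show (2 * Real.pi * x * Complex.I : ℂ) = Complex.I * ((2 * Real.pi * x : ℝ) : ℂ) by
    push_cast; ring]
  refine (Real.norm_exp_I_mul_ofReal_sub_one_le).trans ?_
  rw [Real.norm_eq_abs, abs_mul, abs_of_pos (by positivity : 0 < 2 * Real.pi)]

theorem four_mul_le_norm_e_sub_one (x η : ℝ) (hη : 0 ≤ η) (h : ∀ n : ℤ, η ≤ |x - n|) :
    4 * η ≤ ‖e x - 1‖ := by
  have h1 := h (round x)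
  have h2 : |x - round x| ≤ 1 / 2 := abs_sub_round x
  set t : ℝ := x - round x with ht
  have h3 : e x = e t := by
    rw [ht, sub_eq_add_neg, show (-((round x : ℤ) : ℝ)) = (((-round x : ℤ)) : ℝ) by push_cast; ring,
      e_add_int]
  rw [h3, norm_e_sub_one]
  have h4 : |Real.sin (Real.pi * t)| = Real.sin (Real.pi * |t|) := by
    rcases abs_cases t with ⟨h5, h6⟩ | ⟨h5, h6⟩
    · rw [h5, abs_of_nonneg]
      apply Real.sin_nonneg_of_nonneg_of_le_pi (by positivity)
      nlinarith [Real.pi_pos]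
    · rw [h5, mul_neg, Real.sin_neg, abs_of_nonpos]
      have : 0 ≤ Real.sin (Real.pi * (-t)) := by
        apply Real.sin_nonneg_of_nonneg_of_le_pi
        · have : 0 < -t := by linarith
          positivity
        · nlinarith [Real.pi_pos]
      rw [mul_neg, Real.sin_neg] at this
      linarith
  rw [h4]
  have h5 := Real.mul_le_sin (x := Real.pi * |t|) (by positivity)
    (by nlinarith [Real.pi_pos])
  have h6 : 2 / Real.pi * (Real.pi * |t|) = 2 * |t| := by
    field_simp
  rw [h6] at h5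
  linarith

theorem e_mul_nat (x : ℝ) (k : ℕ) : e (x * k) = e x ^ k := by
  induction k with
  | zero => simp [e_zero]
  | succ n ih =>
    rw [pow_succ, ← ih, ← e_add]
    congr 1
    push_cast
    ring

/-- geometric sums: `|∑_{k<N} e(kx)| ≤ 1/(2‖x‖)` -/
theorem norm_geom_le (x η : ℝ) (hη : 0 < η) (h : ∀ n : ℤ, η ≤ |x - n|) (N : ℕ) :
    ‖∑ k ∈ Finset.range N, e (x * k)‖ ≤ 1 / (2 * η) := by
  have h1 := four_mul_le_norm_e_sub_one x η hη.le h
  have h2 : 0 < ‖e x - 1‖ := by linarith
  have h3 : e x ≠ 1 := by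
    intro h4
    rw [h4, sub_self, norm_zero] at h2
    exact lt_irrefl _ h2
  have h4 : ∑ k ∈ Finset.range N, e (x * k) = (e x ^ N - 1) / (e x - 1) := by
    rw [← geom_sum_eq h3]
    exact Finset.sum_congr rfl fun k _ => e_mul_nat x k
  rw [h4, norm_div]
  have h5 : ‖e x ^ N - 1‖ ≤ 2 := by
    refine (norm_sub_le _ _).trans ?_
    rw [norm_pow, norm_e, one_pow, norm_one]
    norm_num
  rw [div_le_div_iff₀ h2 (by positivity)]
  nlinarith

theorem norm_geom_Icc_le (x η : ℝ) (hη : 0 < η) (h : ∀ n : ℤ, η ≤ |x - n|) (N : ℕ) :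
    ‖∑ k ∈ Finset.Icc 1 N, e (x * k)‖ ≤ 1 / (2 * η) := by
  have h1 : ∑ k ∈ Finset.Icc 1 N, e (x * k) = e x * ∑ k ∈ Finset.range N, e (x * k) := by
    rw [Finset.mul_sum, Finset.range_eq_Ico, Finset.sum_bij (fun k _ => k - 1)]
    · intro a ha
      rw [Finset.mem_Icc] at ha
      rw [Finset.mem_Ico]
      omega
    · intro a ha b hb hab
      rw [Finset.mem_Icc] at ha hb
      omega
    · intro b hb
      rw [Finset.mem_Ico] at hb
      exact ⟨b + 1, by rw [Finset.mem_Icc]; omega, by simp⟩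
    · intro a ha
      rw [Finset.mem_Icc] at ha
      rw [← e_add]
      congr 1
      rw [Nat.cast_sub ha.1]
      push_cast
      ring
  rw [h1, norm_mul, norm_e, one_mul]
  exact norm_geom_le x η hη h N

/-! ### Ramanujan sums with coprime argument -/

theorem sum_e_div_range (q : ℕ) (hq : 0 < q) (a : ℤ) (ha : ¬ (q : ℤ) ∣ a) :
    ∑ c ∈ Finset.range q, e ((a : ℝ) / q * c) = 0 := by
  have hq' : (q : ℝ) ≠ 0 := by positivity
  have h3 : e ((a : ℝ) / q) ≠ 1 := by
    intro h
    have h1 : ∀ n : ℤ, 1 / (q : ℝ) ≤ |(a : ℝ) / q - n| := by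
      intro n
      have h2 : a - n * q ≠ 0 := by
        intro h4
        exact ha ⟨n, by linarith⟩
      have h5 : (1 : ℝ) ≤ |((a - n * q : ℤ) : ℝ)| := by
        exact_mod_cast Int.one_le_abs h2
      have h6 : (a : ℝ) / q - n = ((a - n * q : ℤ) : ℝ) / q := by
        push_cast
        field_simp
      rw [h6, abs_div, abs_of_pos (by positivity : (0 : ℝ) < q)]
      exact div_le_div_of_nonneg_right h5 (by positivity)
    have h2 := four_mul_le_norm_e_sub_one _ _ (by positivity) h1
    rw [h, sub_self, norm_zero] at h2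
    have : 0 < 4 * (1 / (q : ℝ)) := by positivity
    linarith
  have h4 : ∑ c ∈ Finset.range q, e ((a : ℝ) / q * c) = (e ((a : ℝ) / q) ^ q - 1) / (e ((a : ℝ) / q) - 1) := by
    rw [← geom_sum_eq h3]
    exact Finset.sum_congr rfl fun k _ => e_mul_nat _ k
  rw [h4, ← e_mul_nat, div_mul_cancel₀ _ hq', e_int, sub_self, zero_div]

theorem sum_moebius_divisors (n : ℕ) (hn : n ≠ 0) :
    ∑ d ∈ n.divisors, (ArithmeticFunction.moebius d : ℤ) = if n = 1 then 1 else 0 := by
  have h := ArithmeticFunction.coe_mul_zeta_apply (f := ArithmeticFunction.moebius) (x := n)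
  rw [ArithmeticFunction.moebius_mul_coe_zeta] at h
  rw [← h, ArithmeticFunction.one_apply]

/-- the Ramanujan sum `c_q(a)` with `(a,q) = 1` is `μ(q)` -/
theorem ramanujan (q : ℕ) (hq : 0 < q) (a : ℤ) (ha : IsCoprime a q) :
    ∑ c ∈ (Finset.range q).filter (fun c => Nat.Coprime c q), e ((a : ℝ) / q * c) =
      (ArithmeticFunction.moebius q : ℂ) := by
  have hq' : (q : ℝ) ≠ 0 := by positivity
  have h1 : ∀ c ∈ Finset.range q, (if Nat.Coprime c q then e ((a : ℝ) / q * c) else 0) =
      ∑ d ∈ q.divisors, (if d ∣ c then (ArithmeticFunction.moebius d : ℂ) * e ((a : ℝ) / q * c)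
        else 0) := by
    intro c hc
    have hg : Nat.gcd c q ≠ 0 := Nat.gcd_ne_zero_right hq.ne'
    have h2 := sum_moebius_divisors _ hg
    have h3 : (Nat.gcd c q).divisors = q.divisors.filter (fun d => d ∣ c) := by
      ext d
      rw [Nat.mem_divisors, Finset.mem_filter, Nat.mem_divisors, Nat.dvd_gcd_iff]
      constructor
      · rintro ⟨⟨h4, h5⟩, _⟩
        exact ⟨⟨h5, hq.ne'⟩, h4⟩
      · rintro ⟨⟨h5, _⟩, h4⟩
        exact ⟨⟨h4, h5⟩, hg⟩
    rw [h3] at h2
    rw [← Finset.sum_filter, ← Finset.sum_mul]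
    have h4 : (∑ d ∈ q.divisors.filter (fun d => d ∣ c), (ArithmeticFunction.moebius d : ℂ)) =
        ((∑ d ∈ q.divisors.filter (fun d => d ∣ c), ArithmeticFunction.moebius d : ℤ) : ℂ) := by
      push_cast
      rfl
    rw [h4, h2]
    by_cases h5 : Nat.Coprime c q
    · rw [if_pos h5, if_pos h5]
      simp
    · rw [if_neg h5, if_neg h5]
      simp
  rw [Finset.sum_filter, Finset.sum_congr rfl h1, Finset.sum_comm]
  rw [Finset.sum_eq_single_of_mem q (Nat.mem_divisors_self q hq.ne')]
  · rw [Finset.sum_eq_single_of_mem 0 (Finset.mem_range.mpr hq)]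
    · simp [e_zero]
    · intro c hc hc0
      rw [if_neg]
      intro h
      have := Nat.le_of_dvd (Nat.pos_of_ne_zero hc0) h
      rw [Finset.mem_range] at hc
      omega
  · intro d hd hdq
    have hdq' := (Nat.mem_divisors.mp hd).1
    obtain ⟨k, hk⟩ := hdq'
    have hd0 : 0 < d := Nat.pos_of_mem_divisors hd
    have hk0 : 0 < k := by
      rcases Nat.eq_zero_or_pos k with h | h
      · rw [h, mul_zero] at hk
        omega
      · exact h
    have hk1 : k ≠ 1 := by
      intro h
      rw [h, mul_one] at hk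
      exact hdq hk.symm
    have h5 : ∑ c ∈ Finset.range q, (if d ∣ c then (ArithmeticFunction.moebius d : ℂ) *
        e ((a : ℝ) / q * c) else 0) =
        (ArithmeticFunction.moebius d : ℂ) * ∑ j ∈ Finset.range k, e ((a : ℝ) / k * j) := by
      rw [← Finset.sum_filter, Finset.mul_sum]
      symm
      apply Finset.sum_bij (fun j _ => d * j)
      · intro j hj
        rw [Finset.mem_range] at hj
        rw [Finset.mem_filter, Finset.mem_range, hk]
        exact ⟨Nat.mul_lt_mul_of_pos_left hj hd0, dvd_mul_right _ _⟩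
      · intro i _ j _ hij
        exact Nat.eq_of_mul_eq_mul_left hd0 hij
      · intro c hc
        rw [Finset.mem_filter, Finset.mem_range, hk] at hc
        obtain ⟨h6, j, hj⟩ := hc
        refine ⟨j, ?_, hj.symm⟩
        rw [Finset.mem_range]
        rw [hj] at h6
        exact Nat.lt_of_mul_lt_mul_left h6
      · intro j _
        congr 2
        have hdr : (d : ℝ) ≠ 0 := by positivity
        have hkr : (k : ℝ) ≠ 0 := by positivity
        rw [hk]
        push_cast
        field_simp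
    rw [h5, sum_e_div_range k hk0 a, mul_zero]
    intro h6
    have h7 : IsCoprime a (k : ℤ) := by
      refine IsCoprime.of_isCoprime_of_dvd_right ha ?_
      rw [hk]
      push_cast
      exact dvd_mul_left _ _
    have h8 : IsUnit (k : ℤ) := h7.isUnit_of_dvd' h6 dvd_rfl
    rw [Int.isUnit_iff] at h8
    omega

theorem norm_ramanujan_le (q : ℕ) (hq : 0 < q) (a : ℤ) (ha : IsCoprime a q) :
    ‖∑ c ∈ (Finset.range q).filter (fun c => Nat.Coprime c q), e ((a : ℝ) / q * c)‖ ≤ 1 := by
  rw [ramanujan q hq a ha]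
  rw [Complex.norm_intCast]
  exact_mod_cast ArithmeticFunction.abs_moebius_le_one

end Pool.Agent.Lib.GT.RE
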