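import Pool.Agent.Lib.MP_7b7e48_nt.GT.FL3

/-!
# The Brun-Hooley fundamental lemma of the sieve
-/

open Finset

namespace Pool.Agent.Lib.GT

/-- main coefficients -/
noncomputable def cm (b : ℕ) (j : ℕ) (d : Finset ℕ) : ℝ :=
  if d.card ≤ mJ b j then (-1 : ℝ) ^ d.card else 0

/-- top coefficients -/
noncomputable def ct (b : ℕ) (j : ℕ) (d : Finset ℕ) : ℝ :=
  if d.card = mJ b j + 1 then 1 else 0

theorem abs_cm_le (b j : ℕ) (d : Finset ℕ) : |cm b j d| ≤ 1 := by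
  unfold cm; split_ifs <;> simp

theorem abs_ct_le (b j : ℕ) (d : Finset ℕ) : |ct b j d| ≤ 1 := by
  unfold ct; split_ifs <;> simp

theorem sum_cm (z b : ℕ) (P : Finset ℕ) (j : ℕ) (F : Finset ℕ → ℝ) :
    ∑ d ∈ fam z b P j, (cm b j d * F d) =
      ∑ d ∈ (PJ z P j).powerset with d.card ≤ mJ b j, ((-1 : ℝ) ^ d.card * F d) := by
  classical
  unfold fam cm
  simp_rw [ite_mul, zero_mul]
  rw [← Finset.sum_filter, Finset.filter_filter]
  refine Finset.sum_congr ?_ fun _ _ => rfl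
  ext d
  simp only [mem_filter]
  constructor
  · rintro ⟨h1, h2, h3⟩; exact ⟨h1, h3⟩
  · rintro ⟨h1, h2⟩; exact ⟨h1, by omega, h2⟩

theorem sum_ct (z b : ℕ) (P : Finset ℕ) (j : ℕ) (F : Finset ℕ → ℝ) :
    ∑ d ∈ fam z b P j, (ct b j d * F d) =
      ∑ d ∈ (PJ z P j).powerset with d.card = mJ b j + 1, F d := by
  classical
  unfold fam ct
  simp_rw [ite_mul, one_mul, zero_mul]
  rw [← Finset.sum_filter, Finset.filter_filter]
  refine Finset.sum_congr ?_ fun _ _ => rfl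
  ext d
  simp only [mem_filter]
  constructor
  · rintro ⟨h1, h2, h3⟩; exact ⟨h1, h3⟩
  · rintro ⟨h1, h2⟩; exact ⟨h1, by omega, h2⟩

/-- the upper bound function of level `j` -/
noncomputable def Uf (z b : ℕ) (P : Finset ℕ) (Ω : ℕ → Finset ℕ) (j n : ℕ) : ℝ :=
  ∑ d ∈ fam z b P j, (cm b j d * if ∀ r ∈ d, n % r ∈ Ω r then 1 else 0)

/-- the error function of level `j` -/
noncomputable def Ef (z b : ℕ) (P : Finset ℕ) (Ω : ℕ → Finset ℕ) (j n : ℕ) : ℝ :=
  ∑ d ∈ fam z b P j, (ct b j d * if ∀ r ∈ d, n % r ∈ Ω r then 1 else 0)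

/-- indicator that no prime of level `j` is hit -/
noncomputable def Xf (z : ℕ) (P : Finset ℕ) (Ω : ℕ → Finset ℕ) (j n : ℕ) : ℝ :=
  if (PJ z P j).filter (fun r => n % r ∈ Ω r) = ∅ then 1 else 0

theorem even_mJ (b j : ℕ) : Even (mJ b j) := by unfold mJ; exact even_two_mul _

theorem Xf_le_Uf (z b : ℕ) (P : Finset ℕ) (Ω : ℕ → Finset ℕ) (j n : ℕ) :
    Xf z P Ω j n ≤ Uf z b P Ω j n := by
  unfold Xf Uf
  rw [sum_cm, trunc_eq]
  exact bonf_lower _ _ (even_mJ b j)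

theorem Uf_sub_le (z b : ℕ) (P : Finset ℕ) (Ω : ℕ → Finset ℕ) (j n : ℕ) :
    Uf z b P Ω j n - Xf z P Ω j n ≤ Ef z b P Ω j n := by
  unfold Xf Uf Ef
  rw [sum_cm, sum_ct, trunc_eq, top_eq]
  exact bonf_upper _ _ (even_mJ b j)

theorem Xf_nonneg (z : ℕ) (P : Finset ℕ) (Ω : ℕ → Finset ℕ) (j n : ℕ) : 0 ≤ Xf z P Ω j n := by
  unfold Xf; split_ifs <;> norm_num

theorem Uf_nonneg (z b : ℕ) (P : Finset ℕ) (Ω : ℕ → Finset ℕ) (j n : ℕ) : 0 ≤ Uf z b P Ω j n :=
  (Xf_nonneg z P Ω j n).trans (Xf_le_Uf z b P Ω j n)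

theorem biUnion_PJ {z : ℕ} {P : Finset ℕ} (hP : ∀ r ∈ P, r.Prime ∧ r ≤ z) :
    (Finset.univ : Finset (Fin (NJ z))).biUnion (fun j => PJ z P j) = P := by
  classical
  ext r
  rw [mem_biUnion]
  constructor
  · rintro ⟨j, -, h⟩; exact (mem_filter.mp h).1
  · intro h
    exact ⟨⟨lev z r, lev_lt_NJ (hP r h).1.two_le⟩, mem_univ _, mem_filter.mpr ⟨h, rfl⟩⟩

theorem prod_PJ {z : ℕ} {P : Finset ℕ} (hP : ∀ r ∈ P, r.Prime ∧ r ≤ z) (f : ℕ → ℝ) :
    ∏ r ∈ P, f r = ∏ j : Fin (NJ z), ∏ r ∈ PJ z P j, f r := by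
  classical
  conv_lhs => rw [← biUnion_PJ hP]
  rw [Finset.prod_biUnion]
  intro i _ j _ hij
  exact PJ_disjoint z P (fun h => hij (Fin.ext h))

theorem prod_Xf {z : ℕ} {P : Finset ℕ} (hP : ∀ r ∈ P, r.Prime ∧ r ≤ z) (Ω : ℕ → Finset ℕ) (n : ℕ) :
    ∏ j : Fin (NJ z), Xf z P Ω j n = if ∀ r ∈ P, n % r ∉ Ω r then 1 else 0 := by
  classical
  by_cases h : ∀ r ∈ P, n % r ∉ Ω r
  · rw [if_pos h]
    refine Finset.prod_eq_one fun j _ => ?_
    unfold Xf
    rw [if_pos]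
    rw [Finset.filter_eq_empty_iff]
    intro r hr
    exact h r (mem_filter.mp hr).1
  · rw [if_neg h]
    push Not at h
    obtain ⟨r, hr, hr2⟩ := h
    refine Finset.prod_eq_zero (mem_univ (⟨lev z r, lev_lt_NJ (hP r hr).1.two_le⟩ : Fin (NJ z))) ?_
    unfold Xf
    rw [if_neg]
    intro h3
    rw [Finset.filter_eq_empty_iff] at h3
    exact h3 (mem_filter.mpr ⟨hr, rfl⟩) hr2

theorem NJ_le (z : ℕ) (hz : 2 ≤ z) : ((NJ z : ℝ) + 1) ≤ (z : ℝ) ^ 2 := by
  have h1 : Nat.log 2 (Nat.log 2 z) ≤ Nat.log 2 z := Nat.log_le_self _ _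
  have h2 : Nat.log 2 z ≤ z := Nat.log_le_self _ _
  have h4 : NJ z + 1 ≤ z ^ 2 := by
    unfold NJ
    nlinarith
  exact_mod_cast h4

/-- the constant controlling one level -/
noncomputable def κ₀ : ℝ := Real.exp 72

theorem κ₀_pos : 0 < κ₀ := Real.exp_pos _

section main
variable {z b : ℕ} {P : Finset ℕ} (hP : ∀ r ∈ P, r.Prime ∧ r ≤ z) (hz : 2 ≤ z) (hb : 1 ≤ b)
  (Ω : ℕ → Finset ℕ) (hΩ : ∀ r ∈ P, (Ω r).card ≤ 2 ∧ (Ω r).card < r ∧ ∀ x ∈ Ω r, x < r)

/-- level density -/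
noncomputable def Vj (z : ℕ) (P : Finset ℕ) (Ω : ℕ → Finset ℕ) (j : ℕ) : ℝ :=
  ∏ r ∈ PJ z P j, (1 - ((Ω r).card : ℝ) / r)

/-- level main sum -/
noncomputable def Tj (z b : ℕ) (P : Finset ℕ) (Ω : ℕ → Finset ℕ) (j : ℕ) : ℝ :=
  ∑ d ∈ fam z b P j, (cm b j d * ∏ r ∈ d, ((Ω r).card : ℝ) / r)

/-- level top sum -/
noncomputable def ej (z b : ℕ) (P : Finset ℕ) (Ω : ℕ → Finset ℕ) (j : ℕ) : ℝ :=
  ∑ d ∈ fam z b P j, (ct b j d * ∏ r ∈ d, ((Ω r).card : ℝ) / r)

/-- relative error of level `j` -/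
noncomputable def ηj (b j : ℕ) : ℝ := κ₀ * (1 / 2) ^ b * ((1 / 2) ^ (j + 1))

theorem ηj_nonneg (b j : ℕ) : 0 ≤ ηj b j := by
  unfold ηj
  have := κ₀_pos
  positivity

include hP hz hΩ in
theorem level_all (j : ℕ) : 0 < Vj z P Ω j ∧ Vj z P Ω j ≤ Tj z b P Ω j ∧
    Tj z b P Ω j ≤ Vj z P Ω j * (1 + ηj b j) ∧ ej z b P Ω j ≤ Vj z P Ω j * ηj b j ∧
    0 ≤ ej z b P Ω j := by
  have hQ : ∀ r ∈ PJ z P j, r.Prime := fun r hr => (hP r (mem_filter.mp hr).1).1
  have hΩ' : ∀ r ∈ PJ z P j, (Ω r).card ≤ 2 ∧ (Ω r).card < r ∧ ∀ x ∈ Ω r, x < r :=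
    fun r hr => hΩ r (mem_filter.mp hr).1
  have hG : ∑ r ∈ PJ z P j, ((Ω r).card : ℝ) / r ≤ 12 := by
    have h1 : ∀ r ∈ PJ z P j, ((Ω r).card : ℝ) / r ≤ 2 * (1 / r) := by
      intro r hr
      have := (card_div_le hQ Ω hΩ' r hr).2
      rw [show (2 : ℝ) * (1 / r) = 2 / r by ring]
      exact this
    refine (Finset.sum_le_sum h1).trans ?_
    rw [← Finset.mul_sum]
    have := sum_level_le hP hz j
    linarith
  have hV := exp_le_density hQ Ω hΩ'
  have hVpos : 0 < Vj z P Ω j := lt_of_lt_of_le (Real.exp_pos _) hV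
  have hVge : Real.exp (-24) ≤ Vj z P Ω j :=
    le_trans (Real.exp_le_exp.mpr (by linarith)) hV
  obtain ⟨hb1, hb2⟩ := level_bounds hQ Ω hΩ' (mJ b j) (even_mJ b j)
  have htop := top_le Ω (mJ b j + 1) 12 hG
  have hT : Tj z b P Ω j = ∑ d ∈ (PJ z P j).powerset with d.card ≤ mJ b j,
      ((-1 : ℝ) ^ d.card * ∏ r ∈ d, ((Ω r).card : ℝ) / r) := sum_cm z b P j _
  have hE : ej z b P Ω j = ∑ d ∈ (PJ z P j).powerset with d.card = mJ b j + 1,
      ∏ r ∈ d, ((Ω r).card : ℝ) / r := sum_ct z b P j _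
  have he : ej z b P Ω j ≤ Vj z P Ω j * ηj b j := by
    rw [hE]
    refine htop.trans ?_
    have h1 : Real.exp (4 * 12) / 4 ^ (mJ b j + 1) ≤ Real.exp (-24) * ηj b j := by
      unfold ηj κ₀ mJ
      have h2 : Real.exp (-24) * (Real.exp 72 * (1 / 2) ^ b * (1 / 2) ^ (j + 1)) =
          Real.exp 48 * ((1 / 2) ^ b * (1 / 2) ^ (j + 1)) := by
        rw [← mul_assoc, ← mul_assoc, ← Real.exp_add]
        norm_num
        ring
      rw [h2, show (4 : ℝ) * 12 = 48 by norm_num, div_eq_mul_inv]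
      refine mul_le_mul_of_nonneg_left ?_ (Real.exp_pos _).le
      have h3 : ((4 : ℝ) ^ (2 * (b + j) + 1))⁻¹ = (1 / 2) ^ (2 * (2 * (b + j) + 1)) := by
        rw [pow_mul (1 / 2 : ℝ) 2, one_div, inv_pow, inv_pow]
        norm_num
      rw [h3, ← pow_add]
      exact pow_le_pow_of_le_one (by norm_num) (by norm_num) (by omega)
    refine h1.trans ?_
    exact mul_le_mul_of_nonneg_right hVge (ηj_nonneg b j)
  refine ⟨hVpos, ?_, ?_, he, ?_⟩
  · rw [hT]; exact hb1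
  · rw [hT]
    refine hb2.trans ?_
    rw [← hE]
    change Vj z P Ω j + ej z b P Ω j ≤ _
    linarith
  · rw [hE]
    exact Finset.sum_nonneg fun d _ => Finset.prod_nonneg fun r _ => by positivity

theorem sum_ηj_le (b J : ℕ) : ∑ j : Fin J, ηj b j ≤ κ₀ * (1 / 2) ^ b := by
  have h : ∀ J : ℕ, ∑ j ∈ range J, ηj b j = κ₀ * (1 / 2) ^ b * (1 - (1 / 2) ^ J) := by
    intro J
    induction J with
    | zero => simp
    | succ n ih =>
      rw [Finset.sum_range_succ, ih]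
      unfold ηj
      ring
  rw [← Finset.sum_range (fun j => ηj b j), h]
  have h1 : (0 : ℝ) ≤ (1 / 2) ^ J := by positivity
  have h2 : 0 ≤ κ₀ * (1 / 2 : ℝ) ^ b := by have := κ₀_pos; positivity
  nlinarith

/-- total constant -/
noncomputable def K₀ : ℝ := κ₀ * Real.exp κ₀

include hP hz hb hΩ

theorem upper_all (A L : ℕ) :
    ∑ n ∈ Ico A (A + L), ∏ j : Fin (NJ z), Uf z b P Ω j n ≤
      (1 + K₀ * (1 / 2) ^ b) * (L * ∏ r ∈ P, (1 - ((Ω r).card : ℝ) / r)) + (z : ℝ) ^ (24 * b) ∧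
    L * ∏ r ∈ P, (1 - ((Ω r).card : ℝ) / r) - (z : ℝ) ^ (24 * b) ≤
      ∑ n ∈ Ico A (A + L), ∏ j : Fin (NJ z), Uf z b P Ω j n := by
  have hex := expand hP hz hb Ω (fun r hr => ⟨(hΩ r hr).1, (hΩ r hr).2.2⟩)
    (fun j d => cm b j d) (fun j d => abs_cm_le b j d) A L
  have h1 : ∑ n ∈ Ico A (A + L), ∏ j : Fin (NJ z), Uf z b P Ω j n =
      ∑ n ∈ Ico A (A + L), ∏ j : Fin (NJ z), ∑ d ∈ fam z b P j,
        (cm b j d * if ∀ r ∈ d, n % r ∈ Ω r then 1 else 0) := rfl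
  rw [← h1] at hex
  have h2 : ∏ j : Fin (NJ z), ∑ d ∈ fam z b P j, (cm b j d * ∏ r ∈ d, ((Ω r).card : ℝ) / r) =
      ∏ j : Fin (NJ z), Tj z b P Ω j := rfl
  rw [h2] at hex
  rw [prod_PJ hP (fun r => 1 - ((Ω r).card : ℝ) / r)]
  change _ ≤ (1 + K₀ * (1 / 2) ^ b) * (L * ∏ j : Fin (NJ z), Vj z P Ω j) + _ ∧
    L * ∏ j : Fin (NJ z), Vj z P Ω j - _ ≤ _
  have hlev := fun j : Fin (NJ z) => level_all (b := b) hP hz Ω hΩ j
  have h3 : ∏ j : Fin (NJ z), Tj z b P Ω j ≤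
      (1 + K₀ * (1 / 2) ^ b) * ∏ j : Fin (NJ z), Vj z P Ω j := by
    calc ∏ j : Fin (NJ z), Tj z b P Ω j ≤ ∏ j : Fin (NJ z), (Vj z P Ω j * (1 + ηj b j)) :=
          Finset.prod_le_prod (fun j _ => (hlev j).1.le.trans (hlev j).2.1) fun j _ => (hlev j).2.2.1
      _ = (∏ j : Fin (NJ z), Vj z P Ω j) * ∏ j : Fin (NJ z), (1 + ηj b j) := Finset.prod_mul_distrib
      _ ≤ (∏ j : Fin (NJ z), Vj z P Ω j) * (1 + K₀ * (1 / 2) ^ b) := by
          refine mul_le_mul_of_nonneg_left ?_ (Finset.prod_nonneg fun j _ => (hlev j).1.le)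
          have h4 : ∏ j : Fin (NJ z), (1 + ηj b j) ≤ Real.exp (κ₀ * (1 / 2) ^ b) := by
            calc ∏ j : Fin (NJ z), (1 + ηj b j) ≤ ∏ j : Fin (NJ z), Real.exp (ηj b j) := by
                  refine Finset.prod_le_prod (fun j _ => by have := ηj_nonneg b j; linarith)
                    fun j _ => ?_
                  have := Real.add_one_le_exp (ηj b j)
                  linarith
              _ = Real.exp (∑ j : Fin (NJ z), ηj b j) := (Real.exp_sum _ _).symm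
              _ ≤ _ := Real.exp_le_exp.mpr (sum_ηj_le b (NJ z))
          refine h4.trans ?_
          set x := κ₀ * (1 / 2 : ℝ) ^ b with hx
          have hx0 : 0 ≤ x := by have := κ₀_pos; positivity
          have hxk : x ≤ κ₀ := by
            have : (1 / 2 : ℝ) ^ b ≤ 1 := pow_le_one₀ (by norm_num) (by norm_num)
            have h5 := κ₀_pos
            nlinarith
          -- exp x ≤ 1 + x exp x
          have h6 : Real.exp x ≤ 1 + x * Real.exp x := by
            have h7 := Real.add_one_le_exp (-x)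
            have h8 : Real.exp x * (1 - x) ≤ Real.exp x * Real.exp (-x) :=
              mul_le_mul_of_nonneg_left (by linarith) (Real.exp_pos _).le
            rw [← Real.exp_add, add_neg_cancel, Real.exp_zero] at h8
            linarith
          have h9 : x * Real.exp x ≤ x * Real.exp κ₀ :=
            mul_le_mul_of_nonneg_left (Real.exp_le_exp.mpr hxk) hx0
          have h10 : x * Real.exp κ₀ = K₀ * (1 / 2) ^ b := by
            rw [hx]; unfold K₀; ring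
          linarith
      _ = _ := mul_comm _ _
  have h5 : ∏ j : Fin (NJ z), Vj z P Ω j ≤ ∏ j : Fin (NJ z), Tj z b P Ω j :=
    Finset.prod_le_prod (fun j _ => (hlev j).1.le) fun j _ => (hlev j).2.1
  have hL : (0 : ℝ) ≤ L := Nat.cast_nonneg L
  have h6 := mul_le_mul_of_nonneg_left h3 hL
  have h7 := mul_le_mul_of_nonneg_left h5 hL
  rw [abs_le] at hex
  constructor
  · nlinarith [hex.2]
  · linarith [hex.1]

/-- error sum -/
theorem err_all (A L : ℕ) (l : Fin (NJ z)) :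
    ∑ n ∈ Ico A (A + L), Ef z b P Ω l n * ∏ j ∈ Finset.univ.erase l, Uf z b P Ω j n ≤
      ηj b l * Real.exp κ₀ * (L * ∏ r ∈ P, (1 - ((Ω r).card : ℝ) / r)) + (z : ℝ) ^ (24 * b) := by
  classical
  have hex := expand hP hz hb Ω (fun r hr => ⟨(hΩ r hr).1, (hΩ r hr).2.2⟩)
    (fun j d => if j = l then ct b j d else cm b j d) (fun j d => by
      by_cases h : j = l
      · rw [if_pos h]; exact abs_ct_le b j d
      · rw [if_neg h]; exact abs_cm_le b j d) A L
  have h1 : ∀ n, ∏ j : Fin (NJ z), ∑ d ∈ fam z b P j,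
      ((if j = l then ct b j d else cm b j d) * if ∀ r ∈ d, n % r ∈ Ω r then (1 : ℝ) else 0) =
      Ef z b P Ω l n * ∏ j ∈ Finset.univ.erase l, Uf z b P Ω j n := by
    intro n
    rw [← Finset.mul_prod_erase Finset.univ _ (Finset.mem_univ l)]
    congr 1
    · simp only [if_true]
      rfl
    · refine Finset.prod_congr rfl fun j hj => ?_
      have : j ≠ l := Finset.ne_of_mem_erase hj
      simp only [if_neg this]
      rfl
  have h2 : ∏ j : Fin (NJ z), ∑ d ∈ fam z b P j,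
      ((if j = l then ct b j d else cm b j d) * ∏ r ∈ d, ((Ω r).card : ℝ) / r) =
      ej z b P Ω l * ∏ j ∈ Finset.univ.erase l, Tj z b P Ω j := by
    rw [← Finset.mul_prod_erase Finset.univ _ (Finset.mem_univ l)]
    congr 1
    · simp only [if_true]
      rfl
    · refine Finset.prod_congr rfl fun j hj => ?_
      have : j ≠ l := Finset.ne_of_mem_erase hj
      simp only [if_neg this]
      rfl
  simp_rw [h1] at hex
  rw [h2] at hex
  rw [prod_PJ hP (fun r => 1 - ((Ω r).card : ℝ) / r)]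
  change _ ≤ ηj b l * Real.exp κ₀ * (L * ∏ j : Fin (NJ z), Vj z P Ω j) + _
  have hlev := fun j : Fin (NJ z) => level_all (b := b) hP hz Ω hΩ j
  have h3 : ej z b P Ω l * ∏ j ∈ Finset.univ.erase l, Tj z b P Ω j ≤
      ηj b l * Real.exp κ₀ * ∏ j : Fin (NJ z), Vj z P Ω j := by
    calc ej z b P Ω l * ∏ j ∈ Finset.univ.erase l, Tj z b P Ω j
        ≤ (Vj z P Ω l * ηj b l) * ∏ j ∈ Finset.univ.erase l, (Vj z P Ω j * (1 + ηj b j)) := by
          refine mul_le_mul (hlev l).2.2.2.1 ?_ ?_ ?_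
          · exact Finset.prod_le_prod (fun j _ => (hlev j).1.le.trans (hlev j).2.1)
              fun j _ => (hlev j).2.2.1
          · exact Finset.prod_nonneg fun j _ => (hlev j).1.le.trans (hlev j).2.1
          · exact mul_nonneg (hlev l).1.le (ηj_nonneg b l)
      _ = (Vj z P Ω l * ηj b l) * ((∏ j ∈ Finset.univ.erase l, Vj z P Ω j) *
            ∏ j ∈ Finset.univ.erase l, (1 + ηj b j)) := by rw [Finset.prod_mul_distrib]
      _ ≤ (Vj z P Ω l * ηj b l) * ((∏ j ∈ Finset.univ.erase l, Vj z P Ω j) * Real.exp κ₀) := by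
          refine mul_le_mul_of_nonneg_left ?_ (mul_nonneg (hlev l).1.le (ηj_nonneg b l))
          refine mul_le_mul_of_nonneg_left ?_ (Finset.prod_nonneg fun j _ => (hlev j).1.le)
          calc ∏ j ∈ Finset.univ.erase l, (1 + ηj b j) ≤ ∏ j ∈ Finset.univ.erase l, Real.exp (ηj b j) := by
                refine Finset.prod_le_prod (fun j _ => by have := ηj_nonneg b j; linarith)
                  fun j _ => ?_
                have := Real.add_one_le_exp (ηj b j)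
                linarith
            _ = Real.exp (∑ j ∈ Finset.univ.erase l, ηj b j) := (Real.exp_sum _ _).symm
            _ ≤ Real.exp κ₀ := by
                refine Real.exp_le_exp.mpr ?_
                refine (Finset.sum_le_sum_of_subset_of_nonneg (Finset.erase_subset l Finset.univ)
                  (fun j _ _ => ηj_nonneg b j)).trans ?_
                refine (sum_ηj_le b (NJ z)).trans ?_
                have : (1 / 2 : ℝ) ^ b ≤ 1 := pow_le_one₀ (by norm_num) (by norm_num)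
                have h5 := κ₀_pos
                nlinarith
      _ = ηj b l * Real.exp κ₀ * (Vj z P Ω l * ∏ j ∈ Finset.univ.erase l, Vj z P Ω j) := by ring
      _ = _ := by rw [Finset.mul_prod_erase Finset.univ (fun j : Fin (NJ z) => Vj z P Ω j) (Finset.mem_univ l)]
  have hL : (0 : ℝ) ≤ L := Nat.cast_nonneg L
  have h6 := mul_le_mul_of_nonneg_left h3 hL
  rw [abs_le] at hex
  nlinarith [hex.2]

/-- total distance between the upper bound function and the indicator -/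
theorem diff_all (A L : ℕ) :
    ∑ n ∈ Ico A (A + L), (∏ j : Fin (NJ z), Uf z b P Ω j n - if ∀ r ∈ P, n % r ∉ Ω r then 1 else 0) ≤
      K₀ * (1 / 2) ^ b * (L * ∏ r ∈ P, (1 - ((Ω r).card : ℝ) / r)) + (z : ℝ) ^ (26 * b) := by
  classical
  have h1 : ∀ n ∈ Ico A (A + L), (∏ j : Fin (NJ z), Uf z b P Ω j n - if ∀ r ∈ P, n % r ∉ Ω r then 1 else 0) ≤
      ∑ l : Fin (NJ z), Ef z b P Ω l n * ∏ j ∈ Finset.univ.erase l, Uf z b P Ω j n := by
    intro n _
    rw [← prod_Xf hP Ω n]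
    refine (prod_sub_le Finset.univ (fun j : Fin (NJ z) => Xf z P Ω j n)
      (fun j : Fin (NJ z) => Uf z b P Ω j n) (fun j _ => Xf_nonneg z P Ω j n)
      (fun j _ => Xf_le_Uf z b P Ω j n)).trans ?_
    refine Finset.sum_le_sum fun l _ => ?_
    exact mul_le_mul_of_nonneg_right (Uf_sub_le z b P Ω l n)
      (Finset.prod_nonneg fun j _ => Uf_nonneg z b P Ω j n)
  refine (Finset.sum_le_sum h1).trans ?_
  rw [Finset.sum_comm]
  refine (Finset.sum_le_sum fun l _ => err_all hP hz hb Ω hΩ A L l).trans ?_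
  rw [Finset.sum_add_distrib, ← Finset.sum_mul, ← Finset.sum_mul, Finset.sum_const, Finset.card_univ,
    Fintype.card_fin, nsmul_eq_mul]
  have hV0 : 0 ≤ ∏ r ∈ P, (1 - ((Ω r).card : ℝ) / r) := by
    refine Finset.prod_nonneg fun r hr => ?_
    have hr0 : (0 : ℝ) < r := by exact_mod_cast (hP r hr).1.pos
    rw [sub_nonneg, div_le_one hr0]
    exact_mod_cast (hΩ r hr).2.1.le
  have h2 : (∑ l : Fin (NJ z), ηj b l) * Real.exp κ₀ * (L * ∏ r ∈ P, (1 - ((Ω r).card : ℝ) / r)) ≤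
      K₀ * (1 / 2) ^ b * (L * ∏ r ∈ P, (1 - ((Ω r).card : ℝ) / r)) := by
    refine mul_le_mul_of_nonneg_right ?_ (mul_nonneg (Nat.cast_nonneg L) hV0)
    have := mul_le_mul_of_nonneg_right (sum_ηj_le b (NJ z)) (Real.exp_pos κ₀).le
    unfold K₀
    linarith
  have hz1 : (1 : ℝ) ≤ z := by exact_mod_cast (by omega : 1 ≤ z)
  have h3 : (NJ z : ℝ) * (z : ℝ) ^ (24 * b) ≤ (z : ℝ) ^ (26 * b) := by
    calc (NJ z : ℝ) * (z : ℝ) ^ (24 * b) ≤ (z : ℝ) ^ 2 * (z : ℝ) ^ (24 * b) := by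
          refine mul_le_mul_of_nonneg_right ?_ (by positivity)
          have := NJ_le z hz
          linarith
      _ = (z : ℝ) ^ (2 + 24 * b) := by rw [← pow_add]
      _ ≤ (z : ℝ) ^ (26 * b) := pow_le_pow_right₀ hz1 (by omega)
  linarith

end main

/-- **Brun-Hooley fundamental lemma.** -/
theorem fund_lemma : ∃ K : ℕ, 1 ≤ K ∧ ∀ b : ℕ, 1 ≤ b → ∀ z : ℕ, 2 ≤ z → ∀ P : Finset ℕ,
    (∀ r ∈ P, r.Prime ∧ r ≤ z) → ∀ Ω : ℕ → Finset ℕ,
    (∀ r ∈ P, (Ω r).card ≤ 2 ∧ (Ω r).card < r ∧ ∀ x ∈ Ω r, x < r) → ∀ A L : ℕ,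
    |(((Finset.range L).filter (fun k => ∀ r ∈ P, (A + k) % r ∉ Ω r)).card : ℝ) -
        L * ∏ r ∈ P, (1 - ((Ω r).card : ℝ) / r)| ≤
      K * (1 / 2) ^ b * (L * ∏ r ∈ P, (1 - ((Ω r).card : ℝ) / r)) + (z : ℝ) ^ (K * b) := by
  classical
  refine ⟨⌈K₀⌉₊ + 27, by omega, ?_⟩
  intro b hb z hz P hP Ω hΩ A L
  have hV0 : 0 ≤ ∏ r ∈ P, (1 - ((Ω r).card : ℝ) / r) := by
    refine Finset.prod_nonneg fun r hr => ?_
    have hr0 : (0 : ℝ) < r := by exact_mod_cast (hP r hr).1.pos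
    rw [sub_nonneg, div_le_one hr0]
    exact_mod_cast (hΩ r hr).2.1.le
  have hLV : 0 ≤ (L : ℝ) * ∏ r ∈ P, (1 - ((Ω r).card : ℝ) / r) := mul_nonneg (Nat.cast_nonneg L) hV0
  have hz1 : (1 : ℝ) ≤ z := by exact_mod_cast (by omega : 1 ≤ z)
  have hcount : (((Finset.range L).filter (fun k => ∀ r ∈ P, (A + k) % r ∉ Ω r)).card : ℝ) =
      ∑ n ∈ Ico A (A + L), (if ∀ r ∈ P, n % r ∉ Ω r then (1 : ℝ) else 0) := by
    rw [Finset.card_filter, Finset.sum_Ico_eq_sum_range, Nat.add_sub_cancel_left]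
    push_cast
    rfl
  obtain ⟨hu, hl⟩ := upper_all hP hz hb Ω hΩ A L
  have hd := diff_all hP hz hb Ω hΩ A L
  rw [Finset.sum_sub_distrib] at hd
  have hK : K₀ ≤ ((⌈K₀⌉₊ + 27 : ℕ) : ℝ) := by
    push_cast
    have := Nat.le_ceil K₀
    linarith
  have hpow1 : (z : ℝ) ^ (24 * b) ≤ (z : ℝ) ^ (26 * b) := pow_le_pow_right₀ hz1 (by omega)
  have hpow2 : (z : ℝ) ^ (26 * b) + (z : ℝ) ^ (26 * b) ≤ (z : ℝ) ^ ((⌈K₀⌉₊ + 27) * b) := by
    have h2 : (2 : ℝ) ≤ z := by exact_mod_cast hz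
    calc (z : ℝ) ^ (26 * b) + (z : ℝ) ^ (26 * b) = 2 * (z : ℝ) ^ (26 * b) := by ring
      _ ≤ z * (z : ℝ) ^ (26 * b) := mul_le_mul_of_nonneg_right h2 (by positivity)
      _ = (z : ℝ) ^ (26 * b + 1) := by rw [pow_succ]; ring
      _ ≤ _ := pow_le_pow_right₀ hz1 (by nlinarith)
  have hKb : K₀ * (1 / 2) ^ b * (L * ∏ r ∈ P, (1 - ((Ω r).card : ℝ) / r)) ≤
      ((⌈K₀⌉₊ + 27 : ℕ) : ℝ) * (1 / 2) ^ b * (L * ∏ r ∈ P, (1 - ((Ω r).card : ℝ) / r)) := by
    refine mul_le_mul_of_nonneg_right ?_ hLV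
    exact mul_le_mul_of_nonneg_right hK (by positivity)
  have hsumle : ∑ n ∈ Ico A (A + L), (if ∀ r ∈ P, n % r ∉ Ω r then (1 : ℝ) else 0) ≤
      ∑ n ∈ Ico A (A + L), ∏ j : Fin (NJ z), Uf z b P Ω j n := by
    refine Finset.sum_le_sum fun n _ => ?_
    rw [← prod_Xf hP Ω n]
    exact Finset.prod_le_prod (fun j _ => Xf_nonneg z P Ω j n) (fun j _ => Xf_le_Uf z b P Ω j n)
  rw [hcount, abs_le]
  have hz0 : 0 ≤ (z : ℝ) ^ (26 * b) := by positivity
  constructor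
  · linarith
  · linarith

theorem moebius_prod (S : Finset ℕ) (hS : ∀ r ∈ S, r.Prime) :
    ArithmeticFunction.moebius (∏ r ∈ S, r) = (-1) ^ S.card := by
  classical
  induction S using Finset.induction_on with
  | empty => simp
  | insert p S hp ih =>
    have hS' : ∀ r ∈ S, r.Prime := fun r hr => hS r (mem_insert_of_mem hr)
    have hcop : p.Coprime (∏ r ∈ S, r) := by
      refine Nat.Coprime.prod_right fun r hr => ?_
      rw [Nat.coprime_primes (hS p (mem_insert_self p S)) (hS' r hr)]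
      rintro rfl
      exact hp hr
    rw [prod_insert hp, ArithmeticFunction.isMultiplicative_moebius.map_mul_of_coprime hcop, ih hS',
      ArithmeticFunction.moebius_apply_prime (hS p (mem_insert_self p S)), card_insert_of_notMem hp,
      pow_succ, mul_comm]

/-- **Upper bound sieve weights** `μ(d)`, `d ∈ D`, with small total error. -/
theorem brun_weights : ∃ K : ℕ, 1 ≤ K ∧ ∀ b : ℕ, 1 ≤ b → ∀ z : ℕ, 2 ≤ z → ∃ D : Finset ℕ,
    (∀ d ∈ D, 1 ≤ d ∧ (d : ℝ) ≤ (z : ℝ) ^ (K * b)) ∧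
    (∀ n : ℕ, 1 ≤ n → (if Rough z n then (1 : ℝ) else 0) ≤
      ∑ d ∈ D with d ∣ n, (ArithmeticFunction.moebius d : ℝ)) ∧
    ∀ M : ℕ, ∑ n ∈ Finset.Icc 1 M, (∑ d ∈ D with d ∣ n, (ArithmeticFunction.moebius d : ℝ) -
      (if Rough z n then (1 : ℝ) else 0)) ≤ K * (1 / 2) ^ b * (M * V z) + (z : ℝ) ^ (K * b) := by
  classical
  refine ⟨⌈K₀⌉₊ + 27, by omega, ?_⟩
  intro b hb z hz
  have hP : ∀ r ∈ pr z, r.Prime ∧ r ≤ z := by
    intro r hr
    have := mem_filter.mp hr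
    rw [mem_range] at this
    exact ⟨this.2, by omega⟩
  set Ω : ℕ → Finset ℕ := fun _ => {0} with hΩdef
  have hΩ : ∀ r ∈ pr z, (Ω r).card ≤ 2 ∧ (Ω r).card < r ∧ ∀ x ∈ Ω r, x < r := by
    intro r hr
    have h2 := (hP r hr).1.two_le
    refine ⟨by simp [hΩdef], by simp only [hΩdef, card_singleton]; omega, ?_⟩
    intro x hx
    rw [hΩdef, mem_singleton] at hx
    omega
  -- admissible families with the sharper truncation
  set Fam := (Fintype.piFinset (fun j : Fin (NJ z) => fam z b (pr z) j)).filter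
    (fun E => ∀ j : Fin (NJ z), (E j).card ≤ mJ b j) with hFam
  have hFam_mem : ∀ E ∈ Fam, E ∈ Fintype.piFinset (fun j : Fin (NJ z) => fam z b (pr z) j) :=
    fun E hE => (mem_filter.mp hE).1
  set D := Fam.image (fun E => ∏ r ∈ un E, r) with hD
  have hprimef : ∀ E ∈ Fintype.piFinset (fun j : Fin (NJ z) => fam z b (pr z) j), (∏ r ∈ un E, r).primeFactors = un E :=
    fun E hE => Nat.primeFactors_prod fun r hr => (hP r (un_sub E hE hr)).1
  have hinj : Set.InjOn (fun E : Fin (NJ z) → Finset ℕ => ∏ r ∈ un E, r) (Fam : Set (Fin (NJ z) → Finset ℕ)) := by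
    intro E hE E' hE' h
    rw [mem_coe] at hE hE'
    have h' : ∏ r ∈ un E, r = ∏ r ∈ un E', r := h
    have h2 : un E = un E' := by
      rw [← hprimef E (hFam_mem E hE), ← hprimef E' (hFam_mem E' hE'), h']
    funext j
    have key : ∀ F : Fin (NJ z) → Finset ℕ, F ∈ Fintype.piFinset (fun j : Fin (NJ z) => fam z b (pr z) j) →
        F j = (un F).filter (fun r => lev z r = (j : ℕ)) := by
      intro F hF
      ext r
      rw [mem_filter, un, mem_biUnion]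
      constructor
      · intro hr
        exact ⟨⟨j, mem_univ _, hr⟩, (mem_filter.mp (mem_fam_sub (Fintype.mem_piFinset.mp hF j) hr)).2⟩
      · rintro ⟨⟨i, -, hi⟩, hr⟩
        have h3 := (mem_filter.mp (mem_fam_sub (Fintype.mem_piFinset.mp hF i) hi)).2
        have h4 : i = j := Fin.ext (h3.symm.trans hr)
        rwa [h4] at hi
    rw [key E (hFam_mem E hE), key E' (hFam_mem E' hE'), h2]
  -- the product of the `Uf` is the sum of `μ`
  have hU : ∀ n : ℕ, ∏ j : Fin (NJ z), Uf z b (pr z) Ω j n =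
      ∑ d ∈ D with d ∣ n, (ArithmeticFunction.moebius d : ℝ) := by
    intro n
    have h1 : ∏ j : Fin (NJ z), Uf z b (pr z) Ω j n =
        ∑ E ∈ Fintype.piFinset (fun j : Fin (NJ z) => fam z b (pr z) j),
          ∏ j : Fin (NJ z), (cm b j (E j) * if ∀ r ∈ E j, n % r ∈ Ω r then (1 : ℝ) else 0) := by
      unfold Uf
      rw [Finset.prod_univ_sum]
    rw [h1, Finset.sum_filter, hD, Finset.sum_image hinj, hFam, Finset.sum_filter]
    refine Finset.sum_congr rfl fun E hE => ?_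
    rw [Finset.prod_mul_distrib]
    have h2 : ∏ j : Fin (NJ z), (if ∀ r ∈ E j, n % r ∈ Ω r then (1 : ℝ) else 0) =
        if (∏ r ∈ un E, r) ∣ n then 1 else 0 := by
      have h3 : ((∏ r ∈ un E, r) ∣ n) ↔ ∀ j : Fin (NJ z), ∀ r ∈ E j, n % r ∈ Ω r := by
        constructor
        · intro h j r hr
          rw [hΩdef, mem_singleton]
          refine Nat.mod_eq_zero_of_dvd (dvd_trans (Finset.dvd_prod_of_mem _ ?_) h)
          exact mem_biUnion.mpr ⟨j, mem_univ _, hr⟩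
        · intro h
          refine Finset.prod_primes_dvd n (fun r hr => (hP r (un_sub E hE hr)).1.prime) fun r hr => ?_
          obtain ⟨j, -, hj⟩ := mem_biUnion.mp hr
          have := h j r hj
          rw [hΩdef, mem_singleton] at this
          exact Nat.dvd_of_mod_eq_zero this
      by_cases h : (∏ r ∈ un E, r) ∣ n
      · rw [if_pos h]
        refine Finset.prod_eq_one fun j _ => ?_
        rw [if_pos (h3.mp h j)]
      · rw [if_neg h]
        rw [h3] at h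
        push Not at h
        obtain ⟨j, r, hr, hr2⟩ := h
        refine Finset.prod_eq_zero (mem_univ j) ?_
        rw [if_neg]
        intro h4
        exact hr2 (h4 r hr)
    rw [h2]
    by_cases hcard : ∀ j : Fin (NJ z), (E j).card ≤ mJ b j
    · rw [if_pos hcard]
      have h4 : ∏ j : Fin (NJ z), cm b j (E j) = (ArithmeticFunction.moebius (∏ r ∈ un E, r) : ℝ) := by
        have h5 : ∏ j : Fin (NJ z), cm b j (E j) = ∏ j : Fin (NJ z), ∏ r ∈ E j, (-1 : ℝ) := by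
          refine Finset.prod_congr rfl fun j _ => ?_
          unfold cm
          rw [if_pos (hcard j), Finset.prod_const]
        rw [h5, ← prod_un E hE (fun _ => (-1 : ℝ)), Finset.prod_const,
          moebius_prod (un E) (fun r hr => (hP r (un_sub E hE hr)).1)]
        push_cast
        rfl
      rw [h4]
      split_ifs <;> simp
    · rw [if_neg hcard]
      push Not at hcard
      obtain ⟨j, hj⟩ := hcard
      rw [Finset.prod_eq_zero (mem_univ j) (by unfold cm; rw [if_neg (by omega)]), zero_mul]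
  have hrough : ∀ n : ℕ, (if Rough z n then (1 : ℝ) else 0) =
      if ∀ r ∈ pr z, n % r ∉ Ω r then 1 else 0 := by
    intro n
    have : Rough z n ↔ ∀ r ∈ pr z, n % r ∉ Ω r := by
      rw [rough_iff]
      refine forall₂_congr fun r _ => ?_
      rw [hΩdef, mem_singleton, Nat.dvd_iff_mod_eq_zero]
    simp only [this]
  have hVz : ∏ r ∈ pr z, (1 - ((Ω r).card : ℝ) / r) = V z := by
    unfold V
    refine Finset.prod_congr rfl fun r _ => ?_
    simp [hΩdef]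
  have hz1 : (1 : ℝ) ≤ z := by exact_mod_cast (by omega : 1 ≤ z)
  refine ⟨D, ?_, ?_, ?_⟩
  · intro d hd
    rw [hD, mem_image] at hd
    obtain ⟨E, hE, rfl⟩ := hd
    refine ⟨Finset.prod_pos fun r hr => (hP r (un_sub E (hFam_mem E hE) hr)).1.pos, ?_⟩
    refine (prod_un_le hP hz hb E (hFam_mem E hE)).trans ?_
    exact pow_le_pow_right₀ hz1 (by nlinarith)
  · intro n _
    rw [← hU n, hrough n, ← prod_Xf hP Ω n]
    exact Finset.prod_le_prod (fun j _ => Xf_nonneg z (pr z) Ω j n) (fun j _ => Xf_le_Uf z b (pr z) Ω j n)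
  · intro M
    have hd := diff_all hP hz hb Ω hΩ 1 M
    rw [hVz] at hd
    have h1 : Finset.Icc 1 M = Ico 1 (1 + M) := by
      ext n; rw [mem_Icc, mem_Ico]; omega
    have h2 : ∑ n ∈ Finset.Icc 1 M, (∑ d ∈ D with d ∣ n, (ArithmeticFunction.moebius d : ℝ) -
        (if Rough z n then (1 : ℝ) else 0)) =
        ∑ n ∈ Ico 1 (1 + M), (∏ j : Fin (NJ z), Uf z b (pr z) Ω j n -
          if ∀ r ∈ pr z, n % r ∉ Ω r then 1 else 0) := by
      rw [h1]
      refine Finset.sum_congr rfl fun n _ => ?_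
      rw [hU n, hrough n]
    rw [h2]
    refine hd.trans ?_
    have hK : K₀ ≤ ((⌈K₀⌉₊ + 27 : ℕ) : ℝ) := by
      push_cast
      have := Nat.le_ceil K₀
      linarith
    have hMV : 0 ≤ (M : ℝ) * V z := mul_nonneg (Nat.cast_nonneg M) (V_pos z).le
    have h3 : K₀ * (1 / 2) ^ b * (M * V z) ≤ ((⌈K₀⌉₊ + 27 : ℕ) : ℝ) * (1 / 2) ^ b * (M * V z) := by
      refine mul_le_mul_of_nonneg_right ?_ hMV
      exact mul_le_mul_of_nonneg_right hK (by positivity)
    have h4 : (z : ℝ) ^ (26 * b) ≤ (z : ℝ) ^ ((⌈K₀⌉₊ + 27) * b) :=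
      pow_le_pow_right₀ hz1 (by nlinarith)
    linarith

end Pool.Agent.Lib.GT
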