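import Pool.Agent.Lib.MP_7b7e48_nt.GT.FundLemma
import Pool.Agent.Lib.Sieve.Smooth

/-!
# Bounds for `V z` and upper bounds for rough numbers in intervals
-/

open Finset

namespace Pool.Agent.Lib.GT

theorem V_inv_eq (z : ℕ) : (V z)⁻¹ = ∏ p ∈ (Finset.Icc 1 z).filter Nat.Prime, (1 - (1 : ℝ) / p)⁻¹ := by
  unfold V
  rw [Finset.prod_inv_distrib]
  congr 1
  refine Finset.prod_congr ?_ fun _ _ => rfl
  ext p
  rw [pr, mem_filter, mem_filter, mem_range, mem_Icc]
  constructor
  · rintro ⟨h1, h2⟩; exact ⟨⟨h2.one_le, by omega⟩, h2⟩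
  · rintro ⟨⟨h1, h2⟩, h3⟩; exact ⟨by omega, h3⟩

theorem V_le_one (z : ℕ) : V z ≤ 1 := by
  unfold V
  refine Finset.prod_le_one (fun p hp => ?_) (fun p hp => ?_)
  · have h2 : (2 : ℝ) ≤ p := by exact_mod_cast (Finset.mem_filter.mp hp).2.two_le
    have : 1 / (p : ℝ) ≤ 1 / 2 := one_div_le_one_div_of_le (by norm_num) h2
    linarith
  · have : 0 ≤ 1 / (p : ℝ) := by positivity
    linarith

/-- `V z ≤ 1 / log z` -/
theorem V_le (z : ℕ) (hz : 2 ≤ z) : V z ≤ 1 / Real.log z := by
  have hzr : (2 : ℝ) ≤ z := by exact_mod_cast hz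
  have hlz : 0 < Real.log z := Real.log_pos (by linarith)
  have h := Pool.Agent.Lib.Sieve.log_le_prod z
  rw [← V_inv_eq] at h
  have h1 : Real.log z ≤ (V z)⁻¹ := (Real.log_le_log (by linarith) (by linarith)).trans h
  rw [le_div_iff₀ hlz]
  have h2 := mul_le_mul_of_nonneg_left h1 (V_pos z).le
  rwa [mul_inv_cancel₀ (V_pos z).ne'] at h2

/-- `1 / V z ≤ C log z` -/
theorem V_inv_le : ∃ C : ℝ, 0 < C ∧ ∀ z : ℕ, 2 ≤ z → (V z)⁻¹ ≤ C * Real.log z := by
  obtain ⟨C, hC, h⟩ := Pool.Agent.Lib.Sieve.mertens_product_upper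
  refine ⟨C, hC, fun z hz => ?_⟩
  rw [V_inv_eq]
  exact h z hz

theorem Rough.mono_le {y z n : ℕ} (h : Rough z n) (hyz : y ≤ z) : Rough y n := fun p hp hd =>
  lt_of_le_of_lt hyz (h p hp hd)

theorem log_le_two_sqrt (x : ℝ) (hx : 1 ≤ x) : Real.log x ≤ 2 * Real.sqrt x := by
  have h1 : Real.log (Real.sqrt x) ≤ Real.sqrt x :=
    (Real.log_le_sub_one_of_pos (Real.sqrt_pos.mpr (by linarith))).trans (by linarith)
  rw [Real.log_sqrt (by linarith)] at h1
  linarith

/-- **Rough numbers in intervals**, upper bound of the right order. -/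
theorem rough_count : ∃ C : ℝ, 0 < C ∧ ∀ z : ℕ, 2 ≤ z → ∀ A L : ℕ, z ≤ L →
    (((Finset.Ioc A (A + L)).filter (Rough z)).card : ℝ) ≤ C * L / Real.log z := by
  classical
  obtain ⟨K, hK, hfl⟩ := fund_lemma
  refine ⟨(1 + K / 2) * (4 * K) + 2 + 2 * K, by positivity, ?_⟩
  intro z hz A L hzL
  have hzr : (2 : ℝ) ≤ z := by exact_mod_cast hz
  have hz0 : (0 : ℝ) < z := by linarith
  have hlz : 0 < Real.log z := Real.log_pos (by linarith)
  have hLr : (z : ℝ) ≤ L := by exact_mod_cast hzL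
  have hL0 : (0 : ℝ) ≤ L := Nat.cast_nonneg L
  have hKr : (1 : ℝ) ≤ K := by exact_mod_cast hK
  rw [le_div_iff₀ hlz]
  set z1 : ℕ := ⌊(z : ℝ) ^ (1 / (2 * K) : ℝ)⌋₊ with hz1
  have hexp : (0 : ℝ) < 1 / (2 * K) := by positivity
  have hz1le : (z1 : ℝ) ≤ (z : ℝ) ^ (1 / (2 * K) : ℝ) := Nat.floor_le (by positivity)
  have hz1lt : (z : ℝ) ^ (1 / (2 * K) : ℝ) < z1 + 1 := Nat.lt_floor_add_one _
  have hlogz1 : Real.log z / (2 * K) ≤ Real.log ((z1 : ℝ) + 1) := by
    have : Real.log ((z : ℝ) ^ (1 / (2 * K) : ℝ)) ≤ Real.log ((z1 : ℝ) + 1) :=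
      Real.log_le_log (by positivity) hz1lt.le
    rw [Real.log_rpow hz0] at this
    calc Real.log z / (2 * K) = 1 / (2 * K) * Real.log z := by ring
      _ ≤ _ := this
  have hz1z : z1 ≤ z := by
    have h1 : (z : ℝ) ^ (1 / (2 * K) : ℝ) ≤ (z : ℝ) ^ (1 : ℝ) := by
      refine Real.rpow_le_rpow_of_exponent_le (by linarith) ?_
      rw [div_le_one (by positivity)]
      linarith
    rw [Real.rpow_one] at h1
    exact_mod_cast hz1le.trans h1
  rcases Nat.lt_or_ge z1 2 with hsmall | hbig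
  · -- trivial bound
    have h1 : (((Finset.Ioc A (A + L)).filter (Rough z)).card : ℝ) ≤ L := by
      have : ((Finset.Ioc A (A + L)).filter (Rough z)).card ≤ (Finset.Ioc A (A + L)).card :=
        Finset.card_filter_le _ _
      rw [Nat.card_Ioc, Nat.add_sub_cancel_left] at this
      exact_mod_cast this
    have h2 : Real.log ((z1 : ℝ) + 1) ≤ 1 := by
      have h3 : (z1 : ℝ) ≤ 1 := by exact_mod_cast (by omega : z1 ≤ 1)
      have h4 : Real.log ((z1 : ℝ) + 1) ≤ Real.log 2 := Real.log_le_log (by positivity) (by linarith)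
      have h5 := Real.log_two_lt_d9
      linarith
    have h3 : Real.log z ≤ 2 * K := by
      have := hlogz1.trans h2
      rwa [div_le_one (by positivity)] at this
    have h6 : (((Finset.Ioc A (A + L)).filter (Rough z)).card : ℝ) * Real.log z ≤ L * (2 * K) :=
      mul_le_mul h1 h3 hlz.le hL0
    have h7 : 0 ≤ (1 + (K : ℝ) / 2) * (4 * K) + 2 := by positivity
    nlinarith
  · have hP : ∀ r ∈ pr z1, r.Prime ∧ r ≤ z1 := by
      intro r hr
      have := mem_filter.mp hr
      rw [mem_range] at this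
      exact ⟨this.2, by omega⟩
    have h1 := hfl 1 le_rfl z1 hbig (pr z1) hP (fun _ => {0}) (by
      intro r hr
      have h2 := (hP r hr).1.two_le
      refine ⟨by simp, by simp only [card_singleton]; omega, ?_⟩
      intro x hx
      rw [mem_singleton] at hx
      omega) (A + 1) L
    have hVz : ∏ r ∈ pr z1, (1 - ((({0} : Finset ℕ)).card : ℝ) / r) = V z1 := by
      unfold V
      refine Finset.prod_congr rfl fun r _ => ?_
      simp
    rw [hVz] at h1
    have hcard : ((Finset.Ioc A (A + L)).filter (Rough z)).card ≤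
        ((Finset.range L).filter (fun k => ∀ r ∈ pr z1, (A + 1 + k) % r ∉ ({0} : Finset ℕ))).card := by
      refine Finset.card_le_card_of_injOn (fun n => n - (A + 1)) ?_ ?_
      · intro n hn
        rw [mem_coe, mem_filter, mem_Ioc] at hn
        rw [mem_coe, mem_filter, mem_range]
        refine ⟨by change n - (A + 1) < L; omega, fun r hr => ?_⟩
        have e : A + 1 + (n - (A + 1)) = n := by omega
        change (A + 1 + (n - (A + 1))) % r ∉ ({0} : Finset ℕ)
        rw [e, mem_singleton]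
        intro h0
        have h3 := hn.2 r (hP r hr).1 (Nat.dvd_of_mod_eq_zero h0)
        have h4 := (hP r hr).2
        omega
      · intro a ha b hb hab
        rw [mem_coe, mem_filter, mem_Ioc] at ha hb
        have hab' : a - (A + 1) = b - (A + 1) := hab
        omega
    have hcard' : (((Finset.Ioc A (A + L)).filter (Rough z)).card : ℝ) ≤
        (((Finset.range L).filter (fun k => ∀ r ∈ pr z1, (A + 1 + k) % r ∉ ({0} : Finset ℕ))).card : ℝ) := by
      exact_mod_cast hcard
    have h2 := (abs_le.mp h1).2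
    have hz1r : (2 : ℝ) ≤ z1 := by exact_mod_cast hbig
    have hlz1 : 0 < Real.log z1 := Real.log_pos (by linarith)
    have hV := V_le z1 hbig
    -- log z ≤ 4 K log z1
    have hlog4 : Real.log z ≤ 4 * K * Real.log z1 := by
      have h3 : Real.log ((z1 : ℝ) + 1) ≤ 2 * Real.log z1 := by
        have h4 : (z1 : ℝ) + 1 ≤ (z1 : ℝ) ^ 2 := by nlinarith
        calc Real.log ((z1 : ℝ) + 1) ≤ Real.log ((z1 : ℝ) ^ 2) := Real.log_le_log (by positivity) h4
          _ = 2 * Real.log z1 := by rw [Real.log_pow]; push_cast; ring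
      have h4 := hlogz1.trans h3
      rw [div_le_iff₀ (by positivity)] at h4
      nlinarith
    have hVlog : V z1 * Real.log z ≤ 4 * K := by
      calc V z1 * Real.log z ≤ (1 / Real.log z1) * (4 * K * Real.log z1) :=
            mul_le_mul hV hlog4 hlz.le (by positivity)
        _ = 4 * K := by field_simp
    -- z1^K ≤ √z
    have hpow : (z1 : ℝ) ^ (K * 1) ≤ Real.sqrt z := by
      rw [mul_one]
      calc (z1 : ℝ) ^ K ≤ ((z : ℝ) ^ (1 / (2 * K) : ℝ)) ^ K := by gcongr
        _ = Real.sqrt z := by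
          rw [← Real.rpow_natCast, ← Real.rpow_mul hz0.le, Real.sqrt_eq_rpow]
          congr 1
          field_simp
    have hsqrt : Real.sqrt z * Real.log z ≤ 2 * L := by
      have h5 := log_le_two_sqrt z (by linarith)
      have h6 := Real.mul_self_sqrt hz0.le
      calc Real.sqrt z * Real.log z ≤ Real.sqrt z * (2 * Real.sqrt z) :=
            mul_le_mul_of_nonneg_left h5 (Real.sqrt_nonneg _)
        _ = 2 * (Real.sqrt z * Real.sqrt z) := by ring
        _ = 2 * z := by rw [h6]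
        _ ≤ 2 * L := by linarith
    have h7 : (((Finset.Ioc A (A + L)).filter (Rough z)).card : ℝ) ≤
        (1 + K / 2) * (L * V z1) + Real.sqrt z := by
      have h8 : (K : ℝ) * (1 / 2) ^ 1 * (L * V z1) = (K / 2) * (L * V z1) := by ring
      rw [h8] at h2
      linarith
    have h9 : (((Finset.Ioc A (A + L)).filter (Rough z)).card : ℝ) * Real.log z ≤
        ((1 + K / 2) * (L * V z1) + Real.sqrt z) * Real.log z :=
      mul_le_mul_of_nonneg_right h7 hlz.le
    have h10 : ((1 + (K : ℝ) / 2) * (L * V z1) + Real.sqrt z) * Real.log z =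
        (1 + K / 2) * L * (V z1 * Real.log z) + Real.sqrt z * Real.log z := by ring
    have h11 : (1 + (K : ℝ) / 2) * L * (V z1 * Real.log z) ≤ (1 + K / 2) * L * (4 * K) :=
      mul_le_mul_of_nonneg_left hVlog (by positivity)
    have h12 : 0 ≤ 2 * (K : ℝ) * L := by positivity
    nlinarith

end Pool.Agent.Lib.GT
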