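import Pool.Agent.Lib.MP_7b7e48_nt.GT.Defs

/-!
# Fundamental lemma, part 1: counting with congruence conditions, Bonferroni inequalities
-/

open Finset

namespace Pool.Agent.Lib.GT

/-- Chinese remainder theorem for counting. -/
theorem card_crt (d : Finset ℕ) (hd : ∀ r ∈ d, r.Prime) (S : ℕ → Finset ℕ)
    (hS : ∀ r ∈ d, ∀ x ∈ S r, x < r) :
    ((range (∏ r ∈ d, r)).filter (fun n => ∀ r ∈ d, n % r ∈ S r)).card = ∏ r ∈ d, (S r).card := by
  classical
  induction d using Finset.induction_on with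
  | empty => simp
  | insert p d hp ih =>
    have hpp : p.Prime := hd p (mem_insert_self p d)
    have hd' : ∀ r ∈ d, r.Prime := fun r hr => hd r (mem_insert_of_mem hr)
    have hS' : ∀ r ∈ d, ∀ x ∈ S r, x < r := fun r hr => hS r (mem_insert_of_mem hr)
    have ih := ih hd' hS'
    rw [prod_insert hp, prod_insert hp, ← ih, ← Finset.card_product]
    set m := ∏ r ∈ d, r with hm
    have hm0 : m ≠ 0 := Finset.prod_ne_zero_iff.mpr fun r hr => (hd' r hr).ne_zero
    have hcop : p.Coprime m := by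
      rw [hm]
      refine Nat.Coprime.prod_right fun r hr => ?_
      rw [Nat.coprime_primes hpp (hd' r hr)]
      rintro rfl
      exact hp hr
    have hdvd : ∀ r ∈ d, r ∣ m := fun r hr => Finset.dvd_prod_of_mem _ hr
    refine Finset.card_nbij' (fun x => (x % p, x % m))
      (fun y => (Nat.chineseRemainder hcop y.1 y.2 : ℕ)) ?_ ?_ ?_ ?_
    · intro x hx
      rw [mem_coe, mem_filter, mem_range] at hx
      rw [mem_coe, mem_product, mem_filter, mem_range]
      refine ⟨hx.2 p (mem_insert_self p d), Nat.mod_lt _ (Nat.pos_of_ne_zero hm0), fun r hr => ?_⟩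
      change x % m % r ∈ S r
      rw [Nat.mod_mod_of_dvd x (hdvd r hr)]
      exact hx.2 r (mem_insert_of_mem hr)
    · intro y hy
      rw [mem_coe, mem_product, mem_filter, mem_range] at hy
      obtain ⟨h1, h2, h3⟩ := hy
      rw [mem_coe, mem_filter, mem_range]
      have hc := (Nat.chineseRemainder hcop y.1 y.2).2
      have hy1 : y.1 < p := hS p (mem_insert_self p d) _ h1
      refine ⟨Nat.chineseRemainder_lt_mul hcop _ _ hpp.ne_zero hm0, ?_⟩
      intro r hr
      rcases mem_insert.mp hr with rfl | hr'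
      · have e : (Nat.chineseRemainder hcop y.1 y.2 : ℕ) % r = y.1 := by
          have := hc.1
          unfold Nat.ModEq at this
          rw [this, Nat.mod_eq_of_lt hy1]
        rw [e]
        exact h1
      · have e : (Nat.chineseRemainder hcop y.1 y.2 : ℕ) % m = y.2 := by
          have := hc.2
          unfold Nat.ModEq at this
          rw [this, Nat.mod_eq_of_lt h2]
        rw [← Nat.mod_mod_of_dvd _ (hdvd r hr'), e]
        exact h3 r hr'
    · intro x hx
      rw [mem_coe, mem_filter, mem_range] at hx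
      have hc := (Nat.chineseRemainder hcop (x % p) (x % m)).2
      have h1 : (Nat.chineseRemainder hcop (x % p) (x % m) : ℕ) ≡ x [MOD p * m] := by
        refine (Nat.modEq_and_modEq_iff_modEq_mul hcop).mp ⟨?_, ?_⟩
        · exact hc.1.trans (Nat.mod_modEq x p)
        · exact hc.2.trans (Nat.mod_modEq x m)
      have h2 := Nat.chineseRemainder_lt_mul hcop (x % p) (x % m) hpp.ne_zero hm0
      unfold Nat.ModEq at h1
      rw [Nat.mod_eq_of_lt h2, Nat.mod_eq_of_lt hx.1] at h1
      exact h1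
    · intro y hy
      rw [mem_coe, mem_product, mem_filter, mem_range] at hy
      obtain ⟨h1, h2, h3⟩ := hy
      have hy1 : y.1 < p := hS p (mem_insert_self p d) _ h1
      have hc := (Nat.chineseRemainder hcop y.1 y.2).2
      refine Prod.ext ?_ ?_
      · change (Nat.chineseRemainder hcop y.1 y.2 : ℕ) % p = y.1
        have := hc.1
        unfold Nat.ModEq at this
        rw [this, Nat.mod_eq_of_lt hy1]
      · change (Nat.chineseRemainder hcop y.1 y.2 : ℕ) % m = y.2
        have := hc.2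
        unfold Nat.ModEq at this
        rw [this, Nat.mod_eq_of_lt h2]

/-- one residue class in an interval -/
theorem abs_card_class (m : ℕ) (hm : 0 < m) (c : ℕ) (hc : c < m) (A L : ℕ) :
    |((((Ico A (A + L)).filter (fun n => n % m = c)).card : ℝ)) - L / m| ≤ 1 := by
  have h1 : (Ico A (A + L)).filter (fun n => n % m = c) =
      (Ico A (A + L)).filter (fun n => n ≡ c [MOD m]) := by
    ext n
    simp only [mem_filter, Nat.ModEq, Nat.mod_eq_of_lt hc]
  have h2 := Nat.Ico_filter_modEq_card A (A + L) hm c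
  rw [h1]
  have h3 : ((((Ico A (A + L)).filter (fun n => n ≡ c [MOD m])).card : ℤ) : ℝ) =
      ((max (⌈(((A + L : ℕ) : ℚ) - c) / (m : ℚ)⌉ - ⌈((A : ℚ) - c) / (m : ℚ)⌉) 0 : ℤ) : ℝ) := by
    exact_mod_cast h2
  rw [Int.cast_natCast] at h3
  rw [h3]
  have hmq : (0 : ℚ) < m := by exact_mod_cast hm
  set u : ℚ := (((A + L : ℕ) : ℚ) - c) / (m : ℚ) with hu
  set v : ℚ := ((A : ℚ) - c) / (m : ℚ) with hv
  have huv : u - v = (L : ℚ) / m := by
    rw [hu, hv]; push_cast; field_simp; ring
  have hnn : v ≤ u := by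
    have : (0 : ℚ) ≤ (L : ℚ) / m := by positivity
    linarith
  rw [max_eq_left (sub_nonneg.mpr (Int.ceil_le_ceil hnn))]
  have e1 := Int.le_ceil u
  have e2 := Int.ceil_lt_add_one u
  have e3 := Int.le_ceil v
  have e4 := Int.ceil_lt_add_one v
  have h5 : |(((⌈u⌉ - ⌈v⌉ : ℤ) : ℚ)) - (L : ℚ) / m| ≤ 1 := by
    rw [abs_le, Int.cast_sub]
    constructor <;> linarith
  have h6 : ((|(((⌈u⌉ - ⌈v⌉ : ℤ) : ℚ)) - (L : ℚ) / m| : ℚ) : ℝ) ≤ ((1 : ℚ) : ℝ) := by
    exact_mod_cast h5
  push_cast at h6 ⊢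
  exact h6

/-- counting an interval with congruence conditions modulo the primes in `d` -/
theorem abs_card_sub_le (d : Finset ℕ) (hd : ∀ r ∈ d, r.Prime) (S : ℕ → Finset ℕ)
    (hS : ∀ r ∈ d, ∀ x ∈ S r, x < r) (A L : ℕ) :
    |((((Ico A (A + L)).filter (fun n => ∀ r ∈ d, n % r ∈ S r)).card : ℝ)) -
      L * ∏ r ∈ d, ((S r).card : ℝ) / r| ≤ ∏ r ∈ d, ((S r).card : ℝ) := by
  classical
  set m := ∏ r ∈ d, r with hm
  have hm0 : 0 < m := Finset.prod_pos fun r hr => (hd r hr).pos
  have hdvd : ∀ r ∈ d, r ∣ m := fun r hr => Finset.dvd_prod_of_mem _ hr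
  set T := (range m).filter (fun n => ∀ r ∈ d, n % r ∈ S r) with hT
  have hTc : T.card = ∏ r ∈ d, (S r).card := card_crt d hd S hS
  have h1 : ((Ico A (A + L)).filter (fun n => ∀ r ∈ d, n % r ∈ S r)).card =
      ∑ c ∈ T, ((Ico A (A + L)).filter (fun n => n % m = c)).card := by
    rw [Finset.card_eq_sum_card_fiberwise (f := fun n => n % m) (t := T)]
    · refine Finset.sum_congr rfl fun c hc => ?_
      congr 1
      ext n
      simp only [mem_filter]
      constructor
      · rintro ⟨⟨h1, -⟩, h3⟩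
        exact ⟨h1, h3⟩
      · rintro ⟨h1, h3⟩
        refine ⟨⟨h1, fun r hr => ?_⟩, h3⟩
        have := (mem_filter.mp hc).2 r hr
        rw [← h3, Nat.mod_mod_of_dvd n (hdvd r hr)] at this
        exact this
    · intro n hn
      rw [mem_coe, mem_filter] at hn
      rw [hT, mem_coe, mem_filter, mem_range]
      refine ⟨Nat.mod_lt _ hm0, fun r hr => ?_⟩
      change n % m % r ∈ S r
      rw [Nat.mod_mod_of_dvd n (hdvd r hr)]
      exact hn.2 r hr
  have h2 : (L : ℝ) * ∏ r ∈ d, ((S r).card : ℝ) / r = ∑ c ∈ T, (L : ℝ) / m := by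
    rw [Finset.sum_const, nsmul_eq_mul, hTc, Finset.prod_div_distrib, hm]
    push_cast
    ring
  rw [h1, h2]
  push_cast
  rw [← Finset.sum_sub_distrib]
  refine (Finset.abs_sum_le_sum_abs _ _).trans ?_
  have h3 : ∑ c ∈ T, |((((Ico A (A + L)).filter (fun n => n % m = c)).card : ℝ)) - (L : ℝ) / m| ≤
      ∑ c ∈ T, (1 : ℝ) := by
    refine Finset.sum_le_sum fun c hc => ?_
    exact abs_card_class m hm0 c (mem_range.mp (mem_filter.mp hc).1) A L
  refine h3.trans ?_
  rw [Finset.sum_const, nsmul_eq_mul, mul_one, hTc]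
  push_cast
  exact le_rfl

/-! ### Bonferroni -/

theorem bonf_sum (B : Finset ℕ) (m : ℕ) :
    ∑ d ∈ B.powerset with d.card ≤ m, (-1 : ℝ) ^ d.card =
      if B.card = 0 then 1 else (-1 : ℝ) ^ m * ((B.card - 1).choose m : ℝ) := by
  classical
  have h1 : ∑ d ∈ B.powerset with d.card ≤ m, (-1 : ℝ) ^ d.card =
      ∑ i ∈ range (m + 1), (-1 : ℝ) ^ i * (B.card.choose i : ℝ) := by
    rw [← Finset.sum_fiberwise_of_maps_to (s := B.powerset.filter (fun d => d.card ≤ m))
      (t := range (m + 1)) (g := fun d => d.card)]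
    · refine Finset.sum_congr rfl fun i hi => ?_
      have h2 : (B.powerset.filter (fun d => d.card ≤ m)).filter (fun d => d.card = i) =
          B.powersetCard i := by
        ext d
        rw [mem_filter, mem_filter, mem_powerset, mem_powersetCard]
        rw [mem_range] at hi
        constructor
        · rintro ⟨⟨a, -⟩, c⟩; exact ⟨a, c⟩
        · rintro ⟨a, c⟩; exact ⟨⟨a, by omega⟩, c⟩
      rw [h2]
      rw [Finset.sum_congr rfl (g := fun _ => (-1 : ℝ) ^ i)
        (fun d hd => by rw [(mem_powersetCard.mp hd).2])]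
      rw [Finset.sum_const, card_powersetCard, nsmul_eq_mul, mul_comm]
    · intro d hd
      rw [mem_filter] at hd
      rw [mem_range]
      have := hd.2
      omega
  rw [h1]
  by_cases h0 : B.card = 0
  · rw [if_pos h0, h0, Finset.sum_range_succ']
    simp
  · rw [if_neg h0]
    obtain ⟨n, hn⟩ := Nat.exists_eq_succ_of_ne_zero h0
    rw [hn, Nat.succ_sub_one, Nat.succ_eq_add_one]
    have := @Int.alternating_sum_range_choose_eq_choose n m
    have h2 : (((∑ k ∈ range (m + 1), ((-1) ^ k * (n + 1).choose k : ℤ)) : ℤ) : ℝ) =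
        (((-1) ^ m * n.choose m : ℤ) : ℝ) := by rw [this]
    push_cast at h2
    exact h2

theorem bonf_lower (B : Finset ℕ) (m : ℕ) (hm : Even m) :
    (if B = ∅ then (1 : ℝ) else 0) ≤ ∑ d ∈ B.powerset with d.card ≤ m, (-1 : ℝ) ^ d.card := by
  rw [bonf_sum, hm.neg_one_pow, one_mul]
  by_cases h : B = ∅
  · simp [h]
  · rw [if_neg h, if_neg (by rwa [Finset.card_eq_zero])]
    positivity

theorem bonf_upper (B : Finset ℕ) (m : ℕ) (hm : Even m) :
    ∑ d ∈ B.powerset with d.card ≤ m, (-1 : ℝ) ^ d.card - (if B = ∅ then (1 : ℝ) else 0) ≤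
      ∑ d ∈ B.powerset with d.card = m + 1, (1 : ℝ) := by
  classical
  have h2 : ∑ d ∈ B.powerset with d.card = m + 1, (1 : ℝ) = (B.card.choose (m + 1) : ℝ) := by
    rw [← card_powersetCard, Finset.sum_const, nsmul_eq_mul, mul_one]
    congr 2
    exact powersetCard_eq_filter.symm
  rw [bonf_sum, hm.neg_one_pow, one_mul, h2]
  by_cases h : B = ∅
  · simp [h]
  · rw [if_neg h, if_neg (by rwa [Finset.card_eq_zero]), sub_zero]
    have h3 : 0 < B.card := Finset.card_pos.mpr (Finset.nonempty_of_ne_empty h)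
    obtain ⟨n, hn⟩ := Nat.exists_eq_succ_of_ne_zero h3.ne'
    rw [hn, Nat.succ_sub_one, Nat.succ_eq_add_one, Nat.choose_succ_succ]
    push_cast
    have : (0 : ℝ) ≤ (n.choose (m + 1) : ℝ) := by positivity
    linarith

/-! ### A telescoping product inequality -/

theorem prod_sub_le {ι : Type*} [DecidableEq ι] (s : Finset ι) (x u : ι → ℝ)
    (hx : ∀ i ∈ s, 0 ≤ x i) (hxu : ∀ i ∈ s, x i ≤ u i) :
    ∏ i ∈ s, u i - ∏ i ∈ s, x i ≤ ∑ l ∈ s, (u l - x l) * ∏ i ∈ s.erase l, u i := by
  induction s using Finset.induction_on with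
  | empty => simp
  | insert a s ha ih =>
    have ih := ih (fun i hi => hx i (mem_insert_of_mem hi)) (fun i hi => hxu i (mem_insert_of_mem hi))
    have ha0 := hx a (mem_insert_self a s)
    have hau := hxu a (mem_insert_self a s)
    have hu0 : 0 ≤ u a := ha0.trans hau
    have hux : ∏ i ∈ s, x i ≤ ∏ i ∈ s, u i :=
      Finset.prod_le_prod (fun i hi => hx i (mem_insert_of_mem hi))
        (fun i hi => hxu i (mem_insert_of_mem hi))
    rw [prod_insert ha, prod_insert ha, sum_insert ha, erase_insert ha]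
    have h1 : ∑ l ∈ s, (u l - x l) * ∏ i ∈ (insert a s).erase l, u i =
        u a * ∑ l ∈ s, (u l - x l) * ∏ i ∈ s.erase l, u i := by
      rw [Finset.mul_sum]
      refine Finset.sum_congr rfl fun l hl => ?_
      have hla : l ≠ a := by rintro rfl; exact ha hl
      rw [erase_insert_of_ne hla.symm, prod_insert (fun h => ha (mem_of_mem_erase h))]
      ring
    rw [h1]
    have h2 : u a * ∏ i ∈ s, u i - x a * ∏ i ∈ s, x i =
        (u a - x a) * ∏ i ∈ s, x i + u a * (∏ i ∈ s, u i - ∏ i ∈ s, x i) := by ring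
    rw [h2]
    have h3 : (u a - x a) * ∏ i ∈ s, x i ≤ (u a - x a) * ∏ i ∈ s, u i :=
      mul_le_mul_of_nonneg_left hux (by linarith)
    have h4 := mul_le_mul_of_nonneg_left ih hu0
    linarith

end Pool.Agent.Lib.GT
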