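import Pool.Agent.Lib.MP_7b7e48_nt.GT.FL2
import Pool.Agent.Lib.Sieve.Mertens

/-!
# Fundamental lemma, part 3: bounds for one level
-/

open Finset

namespace Pool.Agent.Lib.GT

/-- counting over a full period with conditions at a subset of the primes -/
theorem avg_crt (Q : Finset ℕ) (hQ : ∀ r ∈ Q, r.Prime) (S : ℕ → Finset ℕ)
    (hS : ∀ r ∈ Q, ∀ x ∈ S r, x < r) (d : Finset ℕ) (hd : d ⊆ Q) :
    ((((range (∏ r ∈ Q, r)).filter (fun n => ∀ r ∈ d, n % r ∈ S r)).card : ℝ)) =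
      ((∏ r ∈ Q, r : ℕ) : ℝ) * ∏ r ∈ d, ((S r).card : ℝ) / r := by
  classical
  have h := card_crt Q hQ (fun r => if r ∈ d then S r else range r) (by
    intro r hr x hx
    by_cases h : r ∈ d
    · rw [if_pos h] at hx; exact hS r hr x hx
    · rw [if_neg h] at hx; exact mem_range.mp hx)
  have h1 : (range (∏ r ∈ Q, r)).filter (fun n => ∀ r ∈ d, n % r ∈ S r) =
      (range (∏ r ∈ Q, r)).filter (fun n => ∀ r ∈ Q, n % r ∈ (if r ∈ d then S r else range r)) := by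
    ext n
    rw [mem_filter, mem_filter]
    refine and_congr_right fun _ => ?_
    constructor
    · intro h r hr
      by_cases h2 : r ∈ d
      · rw [if_pos h2]; exact h r h2
      · rw [if_neg h2, mem_range]; exact Nat.mod_lt _ (hQ r hr).pos
    · intro h r hr
      have := h r (hd hr)
      rwa [if_pos hr] at this
  rw [h1, h]
  have h2 : ∏ r ∈ Q, ((if r ∈ d then S r else range r).card : ℝ) =
      (∏ r ∈ Q, (r : ℝ)) * ∏ r ∈ Q, (if r ∈ d then ((S r).card : ℝ) / r else 1) := by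
    rw [← Finset.prod_mul_distrib]
    refine Finset.prod_congr rfl fun r hr => ?_
    have hr0 : (r : ℝ) ≠ 0 := by exact_mod_cast (hQ r hr).ne_zero
    by_cases h2 : r ∈ d
    · rw [if_pos h2, if_pos h2]; field_simp
    · rw [if_neg h2, if_neg h2, card_range, mul_one]
  push_cast
  rw [h2]
  congr 1
  rw [← Finset.prod_filter, Finset.filter_mem_eq_inter, Finset.inter_eq_right.mpr hd]

section level
variable {Q : Finset ℕ} (hQ : ∀ r ∈ Q, r.Prime) (Ω : ℕ → Finset ℕ)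
  (hΩ : ∀ r ∈ Q, (Ω r).card ≤ 2 ∧ (Ω r).card < r ∧ ∀ x ∈ Ω r, x < r)

/-- sum over truncated subsets as a function of `n` -/
theorem trunc_eq (m : ℕ) (n : ℕ) :
    ∑ d ∈ Q.powerset with d.card ≤ m, ((-1 : ℝ) ^ d.card * if ∀ r ∈ d, n % r ∈ Ω r then 1 else 0) =
      ∑ d ∈ (Q.filter (fun r => n % r ∈ Ω r)).powerset with d.card ≤ m, (-1 : ℝ) ^ d.card := by
  classical
  simp_rw [mul_ite, mul_one, mul_zero]
  rw [← Finset.sum_filter, Finset.filter_filter]
  refine Finset.sum_congr ?_ fun _ _ => rfl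
  ext d
  simp only [mem_filter, mem_powerset]
  constructor
  · rintro ⟨h1, h2, h3⟩
    exact ⟨fun r hr => mem_filter.mpr ⟨h1 hr, h3 r hr⟩, h2⟩
  · rintro ⟨h1, h2⟩
    exact ⟨fun r hr => (mem_filter.mp (h1 hr)).1, h2, fun r hr => (mem_filter.mp (h1 hr)).2⟩

theorem top_eq (m : ℕ) (n : ℕ) :
    ∑ d ∈ Q.powerset with d.card = m, (if ∀ r ∈ d, n % r ∈ Ω r then (1 : ℝ) else 0) =
      ∑ d ∈ (Q.filter (fun r => n % r ∈ Ω r)).powerset with d.card = m, (1 : ℝ) := by
  classical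
  rw [← Finset.sum_filter, Finset.filter_filter]
  refine Finset.sum_congr ?_ fun _ _ => rfl
  ext d
  simp only [mem_filter, mem_powerset]
  constructor
  · rintro ⟨h1, h2, h3⟩
    exact ⟨fun r hr => mem_filter.mpr ⟨h1 hr, h3 r hr⟩, h2⟩
  · rintro ⟨h1, h2⟩
    exact ⟨fun r hr => (mem_filter.mp (h1 hr)).1, h2, fun r hr => (mem_filter.mp (h1 hr)).2⟩

include hQ hΩ

theorem level_bounds (m : ℕ) (hm : Even m) :
    ∏ r ∈ Q, (1 - ((Ω r).card : ℝ) / r) ≤
      ∑ d ∈ Q.powerset with d.card ≤ m, ((-1 : ℝ) ^ d.card * ∏ r ∈ d, ((Ω r).card : ℝ) / r) ∧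
    ∑ d ∈ Q.powerset with d.card ≤ m, ((-1 : ℝ) ^ d.card * ∏ r ∈ d, ((Ω r).card : ℝ) / r) ≤
      ∏ r ∈ Q, (1 - ((Ω r).card : ℝ) / r) +
      ∑ d ∈ Q.powerset with d.card = m + 1, ∏ r ∈ d, ((Ω r).card : ℝ) / r := by
  classical
  set M : ℕ := ∏ r ∈ Q, r with hM
  have hM0 : (0 : ℝ) < (M : ℝ) := by
    have : 0 < M := Finset.prod_pos fun r hr => (hQ r hr).pos
    exact_mod_cast this
  have hlt : ∀ r ∈ Q, ∀ x ∈ Ω r, x < r := fun r hr => (hΩ r hr).2.2
  -- full-period sums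
  have h1 : ∑ n ∈ range M, ∑ d ∈ Q.powerset with d.card ≤ m,
      ((-1 : ℝ) ^ d.card * if ∀ r ∈ d, n % r ∈ Ω r then 1 else 0) =
      M * ∑ d ∈ Q.powerset with d.card ≤ m, ((-1 : ℝ) ^ d.card * ∏ r ∈ d, ((Ω r).card : ℝ) / r) := by
    rw [Finset.sum_comm, Finset.mul_sum]
    refine Finset.sum_congr rfl fun d hd => ?_
    rw [← Finset.mul_sum]
    have h2 : ∑ n ∈ range M, (if ∀ r ∈ d, n % r ∈ Ω r then (1 : ℝ) else 0) =
        (((range M).filter (fun n => ∀ r ∈ d, n % r ∈ Ω r)).card : ℝ) := by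
      rw [Finset.card_filter]; push_cast; rfl
    rw [h2, avg_crt Q hQ Ω hlt d (mem_powerset.mp (mem_filter.mp hd).1)]
    ring
  have h3 : ∑ n ∈ range M, ∑ d ∈ Q.powerset with d.card = m + 1,
      (if ∀ r ∈ d, n % r ∈ Ω r then (1 : ℝ) else 0) =
      M * ∑ d ∈ Q.powerset with d.card = m + 1, ∏ r ∈ d, ((Ω r).card : ℝ) / r := by
    rw [Finset.sum_comm, Finset.mul_sum]
    refine Finset.sum_congr rfl fun d hd => ?_
    have h2 : ∑ n ∈ range M, (if ∀ r ∈ d, n % r ∈ Ω r then (1 : ℝ) else 0) =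
        (((range M).filter (fun n => ∀ r ∈ d, n % r ∈ Ω r)).card : ℝ) := by
      rw [Finset.card_filter]; push_cast; rfl
    rw [h2, avg_crt Q hQ Ω hlt d (mem_powerset.mp (mem_filter.mp hd).1)]
  have h4 : ∑ n ∈ range M, (if Q.filter (fun r => n % r ∈ Ω r) = ∅ then (1 : ℝ) else 0) =
      M * ∏ r ∈ Q, (1 - ((Ω r).card : ℝ) / r) := by
    have h5 : ∀ n, (Q.filter (fun r => n % r ∈ Ω r) = ∅) ↔
        ∀ r ∈ Q, n % r ∈ range r \ Ω r := by
      intro n
      rw [Finset.filter_eq_empty_iff]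
      refine forall₂_congr fun r hr => ?_
      rw [mem_sdiff, mem_range]
      have := Nat.mod_lt n (hQ r hr).pos
      tauto
    have h6 : ∑ n ∈ range M, (if Q.filter (fun r => n % r ∈ Ω r) = ∅ then (1 : ℝ) else 0) =
        (((range M).filter (fun n => ∀ r ∈ Q, n % r ∈ range r \ Ω r)).card : ℝ) := by
      rw [Finset.card_filter]; push_cast
      refine Finset.sum_congr rfl fun n _ => ?_
      simp only [h5]
    rw [h6, avg_crt Q hQ (fun r => range r \ Ω r)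
      (fun r hr x hx => mem_range.mp (mem_sdiff.mp hx).1) Q (Finset.Subset.refl Q)]
    congr 1
    refine Finset.prod_congr rfl fun r hr => ?_
    have hr0 : (r : ℝ) ≠ 0 := by exact_mod_cast (hQ r hr).ne_zero
    have hsub : Ω r ⊆ range r := fun x hx => mem_range.mpr (hlt r hr x hx)
    rw [Finset.card_sdiff_of_subset hsub, card_range, Nat.cast_sub (hΩ r hr).2.1.le]
    field_simp
  have h7 : (M : ℝ) * ∏ r ∈ Q, (1 - ((Ω r).card : ℝ) / r) ≤
      M * ∑ d ∈ Q.powerset with d.card ≤ m, ((-1 : ℝ) ^ d.card * ∏ r ∈ d, ((Ω r).card : ℝ) / r) := by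
    rw [← h1, ← h4]
    refine Finset.sum_le_sum fun n _ => ?_
    rw [trunc_eq]
    exact bonf_lower _ m hm
  have h8 : M * ∑ d ∈ Q.powerset with d.card ≤ m, ((-1 : ℝ) ^ d.card * ∏ r ∈ d, ((Ω r).card : ℝ) / r) ≤
      M * ∏ r ∈ Q, (1 - ((Ω r).card : ℝ) / r) +
      M * ∑ d ∈ Q.powerset with d.card = m + 1, ∏ r ∈ d, ((Ω r).card : ℝ) / r := by
    rw [← h1, ← h4, ← h3, ← Finset.sum_add_distrib]
    refine Finset.sum_le_sum fun n _ => ?_
    rw [trunc_eq, top_eq]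
    have := bonf_upper (Q.filter (fun r => n % r ∈ Ω r)) m hm
    linarith
  refine ⟨le_of_mul_le_mul_left h7 hM0, ?_⟩
  rw [← mul_add] at h8
  exact le_of_mul_le_mul_left h8 hM0

theorem card_div_le (r : ℕ) (hr : r ∈ Q) : ((Ω r).card : ℝ) / r ≤ 2 / 3 ∧ ((Ω r).card : ℝ) / r ≤ 2 / r := by
  have h := hΩ r hr
  have hp := (hQ r hr).two_le
  have hr0 : (0 : ℝ) < r := by exact_mod_cast (hQ r hr).pos
  constructor
  · rw [div_le_iff₀ hr0]
    rcases Nat.lt_or_ge 2 r with h2 | h2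
    · have h3 : (3 : ℝ) ≤ r := by exact_mod_cast h2
      have h4 : ((Ω r).card : ℝ) ≤ 2 := by exact_mod_cast h.1
      linarith
    · have h3 : r = 2 := le_antisymm h2 hp
      have h4 : (Ω r).card ≤ 1 := by omega
      have h5 : ((Ω r).card : ℝ) ≤ 1 := by exact_mod_cast h4
      have h6 : (r : ℝ) = 2 := by exact_mod_cast h3
      linarith
  · have h4 : ((Ω r).card : ℝ) ≤ 2 := by exact_mod_cast h.1
    gcongr

/-- lower bound for the density of one level -/
theorem exp_le_density :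
    Real.exp (-(2 * ∑ r ∈ Q, ((Ω r).card : ℝ) / r)) ≤ ∏ r ∈ Q, (1 - ((Ω r).card : ℝ) / r) := by
  rw [Finset.mul_sum, ← Finset.sum_neg_distrib, Real.exp_sum]
  refine Finset.prod_le_prod (fun _ _ => (Real.exp_pos _).le) fun r hr => ?_
  have h1 := (card_div_le hQ Ω hΩ r hr).1
  have h0 : (0 : ℝ) ≤ ((Ω r).card : ℝ) / r := by positivity
  set g := ((Ω r).card : ℝ) / r
  -- exp(-2g) ≤ 1 - g on [0, 2/3]
  have hconv : ConvexOn ℝ Set.univ Real.exp := convexOn_exp
  -- chord between 0 and -4/3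
  have h2 : Real.exp (-(2 * g)) ≤ (1 - g * (3 / 2)) * Real.exp 0 + (g * (3 / 2)) * Real.exp (-(4 / 3)) := by
    have := hconv.2 (Set.mem_univ (0 : ℝ)) (Set.mem_univ (-(4 / 3) : ℝ))
      (show (0 : ℝ) ≤ 1 - g * (3 / 2) by linarith) (show (0 : ℝ) ≤ g * (3 / 2) by linarith) (by ring)
    simp only [smul_eq_mul] at this
    have e : (1 - g * (3 / 2)) * 0 + g * (3 / 2) * -(4 / 3) = -(2 * g) := by ring
    rwa [e] at this
  have h3 : Real.exp (-(4 / 3)) ≤ 1 / 3 := by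
    rw [Real.exp_neg, inv_le_comm₀ (Real.exp_pos _) (by norm_num)]
    have h4 := Real.quadratic_le_exp_of_nonneg (show (0 : ℝ) ≤ 4 / 3 by norm_num)
    have : (1 / 3 : ℝ)⁻¹ = 3 := by norm_num
    rw [this]
    linarith
  rw [Real.exp_zero] at h2
  nlinarith [mul_le_mul_of_nonneg_left h3 (show (0 : ℝ) ≤ g * (3 / 2) by linarith)]

omit hQ hΩ in
/-- bound for the top coefficient sum -/
theorem top_le (k : ℕ) (G : ℝ) (hG : ∑ r ∈ Q, ((Ω r).card : ℝ) / r ≤ G) :
    ∑ d ∈ Q.powerset with d.card = k, ∏ r ∈ d, ((Ω r).card : ℝ) / r ≤ Real.exp (4 * G) / 4 ^ k := by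
  classical
  rw [le_div_iff₀ (by positivity), Finset.sum_mul]
  have h1 : ∏ r ∈ Q, (1 + 4 * (((Ω r).card : ℝ) / r)) ≤ Real.exp (4 * G) := by
    calc ∏ r ∈ Q, (1 + 4 * (((Ω r).card : ℝ) / r)) ≤ ∏ r ∈ Q, Real.exp (4 * (((Ω r).card : ℝ) / r)) := by
          refine Finset.prod_le_prod (fun r _ => by positivity) fun r _ => ?_
          have := Real.add_one_le_exp (4 * (((Ω r).card : ℝ) / r))
          linarith
      _ = Real.exp (4 * ∑ r ∈ Q, ((Ω r).card : ℝ) / r) := by rw [← Real.exp_sum, ← Finset.mul_sum]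
      _ ≤ Real.exp (4 * G) := Real.exp_le_exp.mpr (by linarith)
  refine le_trans ?_ h1
  rw [Finset.prod_one_add]
  calc ∑ d ∈ Q.powerset with d.card = k, (∏ r ∈ d, ((Ω r).card : ℝ) / r) * 4 ^ k
      = ∑ d ∈ Q.powerset with d.card = k, ∏ r ∈ d, (4 * (((Ω r).card : ℝ) / r)) := by
        refine Finset.sum_congr rfl fun d hd => ?_
        rw [Finset.prod_mul_distrib, Finset.prod_const, (mem_filter.mp hd).2, mul_comm]
    _ ≤ ∑ d ∈ Q.powerset, ∏ r ∈ d, (4 * (((Ω r).card : ℝ) / r)) :=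
        Finset.sum_le_sum_of_subset_of_nonneg (Finset.filter_subset _ _)
          (fun d _ _ => Finset.prod_nonneg fun r _ => by positivity)

end level

/-- primes of one level: bounded sum of reciprocals -/
theorem sum_level_le {z : ℕ} {P : Finset ℕ} (hP : ∀ r ∈ P, r.Prime ∧ r ≤ z) (hz : 2 ≤ z) (j : ℕ) :
    ∑ r ∈ PJ z P j, (1 : ℝ) / r ≤ 6 := by
  classical
  rcases (PJ z P j).eq_empty_or_nonempty with h | h
  · rw [h]; simp
  set N := (PJ z P j).max' h with hN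
  have hNm : N ∈ PJ z P j := Finset.max'_mem _ h
  have hzr : (2 : ℝ) ≤ z := by exact_mod_cast hz
  have hlz : 0 < Real.log z := Real.log_pos (by linarith)
  have hle : ∀ r ∈ PJ z P j, r ≤ N := fun r hr => Finset.le_max' _ r hr
  have hmem : ∀ r ∈ PJ z P j, r.Prime ∧ r ≤ z ∧ lev z r = j := by
    intro r hr
    have := mem_filter.mp hr
    exact ⟨(hP r this.1).1, (hP r this.1).2, this.2⟩
  obtain ⟨hNp, hNz, hNj⟩ := hmem N hNm
  have hN2 : (2 : ℝ) ≤ N := by exact_mod_cast hNp.two_le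
  have hlN : Real.log N ≤ Real.log z / 2 ^ j := by
    have h4 := lev_pow_le hNp.two_le hNz
    rw [hNj] at h4
    rw [le_div_iff₀ (by positivity)]
    have h5 : Real.log (((N ^ (2 ^ j) : ℕ)) : ℝ) ≤ Real.log z :=
      Real.log_le_log (by have := hNp.pos; positivity) (by exact_mod_cast h4)
    push_cast at h5
    rw [Real.log_pow] at h5
    push_cast at h5
    linarith
  have h1 : ∀ r ∈ PJ z P j, (1 : ℝ) / r ≤ (2 ^ (j + 1) / Real.log z) * (Real.log r / r) := by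
    intro r hr
    obtain ⟨hp, hrz, hj⟩ := hmem r hr
    have h4 := lt_lev_pow (z := z) hp.two_le
    rw [hj] at h4
    have hr0 : (0 : ℝ) < r := by exact_mod_cast hp.pos
    have h5 : Real.log z ≤ Real.log (((r ^ (2 ^ (j + 1)) : ℕ)) : ℝ) :=
      Real.log_le_log (by linarith) (by exact_mod_cast h4.le)
    push_cast at h5
    rw [Real.log_pow] at h5
    push_cast at h5
    rw [div_mul_div_comm, div_le_div_iff₀ hr0 (by positivity)]
    nlinarith
  refine (Finset.sum_le_sum h1).trans ?_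
  rw [← Finset.mul_sum]
  have h2 : ∑ r ∈ PJ z P j, Real.log r / r ≤ Real.log N + Real.log 4 := by
    refine le_trans (Finset.sum_le_sum_of_subset_of_nonneg ?_ ?_)
      (Pool.Agent.Lib.Sieve.sum_log_div_le N hNp.one_le)
    · intro r hr
      rw [mem_filter, mem_Icc]
      exact ⟨⟨(hmem r hr).1.one_le, hle r hr⟩, (hmem r hr).1⟩
    · intro r _ _
      exact div_nonneg (Real.log_natCast_nonneg r) (Nat.cast_nonneg r)
  have h3 : Real.log 4 ≤ 2 * Real.log N := by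
    rw [show (4 : ℝ) = 2 ^ 2 by norm_num, Real.log_pow]
    push_cast
    have := Real.log_le_log (by norm_num : (0 : ℝ) < 2) hN2
    linarith
  calc (2 ^ (j + 1) / Real.log z) * ∑ r ∈ PJ z P j, Real.log r / r
      ≤ (2 ^ (j + 1) / Real.log z) * (3 * (Real.log z / 2 ^ j)) := by
        refine mul_le_mul_of_nonneg_left ?_ (by positivity)
        linarith
    _ = 6 := by
        rw [pow_succ]
        field_simp
        norm_num

end Pool.Agent.Lib.GT
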