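import Mathlib

/-!
# Common definitions for the Goldbach-Turan project
-/

open Finset

namespace Pool.Agent.Lib.GT

/-- `e x = exp (2 π i x)` -/
noncomputable def e (x : ℝ) : ℂ := Complex.exp (2 * Real.pi * x * Complex.I)

/-- the primes, weighted by the logarithm -/
noncomputable def lam (n : ℕ) : ℝ := if n.Prime then Real.log n else 0

/-- all prime factors of `n` are `> z` (false for `n = 0`) -/
def Rough (z n : ℕ) : Prop := ∀ p, p.Prime → p ∣ n → z < p

/-- the primes up to `z` -/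
def pr (z : ℕ) : Finset ℕ := (Finset.range (z + 1)).filter Nat.Prime

/-- density of the `z`-rough numbers -/
noncomputable def V (z : ℕ) : ℝ := ∏ p ∈ pr z, (1 - 1 / (p : ℝ))

theorem rough_iff {z n : ℕ} : Rough z n ↔ ∀ p ∈ pr z, ¬ p ∣ n := by
  unfold Rough pr
  constructor
  · intro h p hp hd
    rw [Finset.mem_filter, Finset.mem_range] at hp
    have := h p hp.2 hd
    omega
  · intro h p hp hd
    by_contra hc
    exact h p (by rw [Finset.mem_filter, Finset.mem_range]; exact ⟨by omega, hp⟩) hd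

instance (z : ℕ) : DecidablePred (Rough z) := fun n =>
  decidable_of_iff (∀ p ∈ pr z, ¬ p ∣ n) rough_iff.symm

/-- normalised indicator of the `w`-rough numbers (mean value `1`) -/
noncomputable def Lw (w n : ℕ) : ℝ := if Rough w n then (V w)⁻¹ else 0

/-- `θ` lies on a major arc: within `Q / X` of a rational of denominator `≤ Q` -/
def Major (Q : ℕ) (X θ : ℝ) : Prop :=
  ∃ q : ℕ, 1 ≤ q ∧ q ≤ Q ∧ ∃ a : ℤ, |θ - (a : ℝ) / (q : ℝ)| ≤ (Q : ℝ) / X

/-- `∏ (1 - 1/p)⁻¹` over the primes `p > w` dividing `d` -/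
noncomputable def Tw (w d : ℕ) : ℝ := ∏ p ∈ d.primeFactors with w < p, (1 - 1 / (p : ℝ))⁻¹

theorem norm_e (x : ℝ) : ‖e x‖ = 1 := by
  unfold e
  rw [show (2 * Real.pi * x * Complex.I : ℂ) = ((2 * Real.pi * x : ℝ) : ℂ) * Complex.I by
    push_cast; ring]
  exact Complex.norm_exp_ofReal_mul_I _

theorem e_add (x y : ℝ) : e (x + y) = e x * e y := by
  unfold e
  rw [← Complex.exp_add]
  congr 1
  push_cast
  ring

theorem e_zero : e 0 = 1 := by simp [e]

theorem e_int (n : ℤ) : e n = 1 := by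
  unfold e
  rw [show (2 * Real.pi * ((n : ℝ) : ℂ) * Complex.I : ℂ) = n * (2 * Real.pi * Complex.I) by
    push_cast; ring]
  exact Complex.exp_int_mul_two_pi_mul_I n

theorem e_nat (n : ℕ) : e n = 1 := by
  have := e_int n
  simpa using this

theorem e_add_int (x : ℝ) (n : ℤ) : e (x + n) = e x := by
  rw [e_add, e_int, mul_one]

theorem lam_nonneg (n : ℕ) : 0 ≤ lam n := by
  unfold lam
  split_ifs
  · exact Real.log_natCast_nonneg n
  · exact le_rfl

theorem lam_le_log (n : ℕ) : lam n ≤ Real.log n := by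
  unfold lam
  split_ifs
  · exact le_rfl
  · exact Real.log_natCast_nonneg n

theorem V_pos (z : ℕ) : 0 < V z := by
  unfold V
  refine Finset.prod_pos fun p hp => ?_
  have h2 : (2 : ℝ) ≤ p := by exact_mod_cast (Finset.mem_filter.mp hp).2.two_le
  have : 1 / (p : ℝ) ≤ 1 / 2 := one_div_le_one_div_of_le (by norm_num) h2
  linarith

theorem Lw_nonneg (w n : ℕ) : 0 ≤ Lw w n := by
  unfold Lw
  split_ifs
  · exact inv_nonneg.mpr (V_pos w).le
  · exact le_rfl

end Pool.Agent.Lib.GT
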