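import Mathlib
import Pool.Agent.Lib.MP_7b7e48_nt.GT.Defs

/-!
# Uniformity in residue classes, and the overlap of windows
-/

open Finset

namespace Pool.Agent.Lib.GT

/-- orthogonality of the additive characters mod `W` -/
theorem sum_e_mod {W : ℕ} (hW : 0 < W) (z : ℤ) :
    ∑ k ∈ Finset.range W, e ((k : ℝ) * z / W) = if (W : ℤ) ∣ z then (W : ℂ) else 0 := by
  have hW0 : (W : ℝ) ≠ 0 := by exact_mod_cast hW.ne'
  have hpow : ∀ k : ℕ, e ((k : ℝ) * z / W) = (e ((z : ℝ) / W)) ^ k := by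
    intro k
    induction k with
    | zero => simp [e_zero]
    | succ k ih =>
      rw [pow_succ, ← ih, ← e_add]
      congr 1
      push_cast
      ring
  simp_rw [hpow]
  split_ifs with h
  · obtain ⟨d, hd⟩ := h
    have h1 : e ((z : ℝ) / W) = 1 := by
      rw [hd]
      push_cast
      rw [mul_div_cancel_left₀ _ hW0]
      exact e_int d
    simp [h1]
  · have h1 : e ((z : ℝ) / W) ≠ 1 := by
      intro h2
      apply h
      unfold e at h2
      rw [Complex.exp_eq_one_iff] at h2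
      obtain ⟨d, hd⟩ := h2
      have h3 : ((z : ℝ) / W : ℝ) = d := by
        have h4 : (2 * Real.pi * Complex.I : ℂ) ≠ 0 := Complex.two_pi_I_ne_zero
        have h5 : (((z : ℝ) / W : ℝ) : ℂ) = (d : ℂ) := by
          apply mul_left_cancel₀ h4
          linear_combination hd
        exact_mod_cast h5
      rw [div_eq_iff hW0] at h3
      refine ⟨d, ?_⟩
      have : (z : ℝ) = ((W * d : ℤ) : ℝ) := by
        push_cast
        linarith
      exact_mod_cast this
    have h2 : (e ((z : ℝ) / W)) ^ W = 1 := by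
      rw [← hpow W, mul_comm, mul_div_assoc, div_self hW0, mul_one]
      exact e_int z
    have h3 := mul_geom_sum (e ((z : ℝ) / W)) W
    rw [h2, sub_self] at h3
    rcases mul_eq_zero.mp h3 with h4 | h4
    · exact absurd (sub_eq_zero.mp h4) h1
    · exact h4

/-- a function of period `W` as a combination of additive characters -/
theorem periodic_expand {W : ℕ} (hW : 0 < W) {om : ℕ → ℝ} (hper : ∀ n, om (n + W) = om n)
    (n : ℕ) :
    (om n : ℂ) = ∑ k ∈ Finset.range W,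
      ((W : ℂ)⁻¹ * ∑ j ∈ Finset.range W, (om j : ℂ) * e (-((k : ℝ) * j / W))) *
        e ((k : ℝ) * n / W) := by
  have hW0 : (W : ℂ) ≠ 0 := by exact_mod_cast hW.ne'
  have hmod : ∀ m : ℕ, om m = om (m % W) := by
    intro m
    have h1 : ∀ q r : ℕ, om (r + q * W) = om r := by
      intro q r
      induction q with
      | zero => simp
      | succ q ih =>
        rw [Nat.succ_mul, ← add_assoc, hper, ih]
    conv_lhs => rw [← Nat.mod_add_div m W, mul_comm W]
    exact h1 _ _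
  have h1 : ∑ k ∈ Finset.range W,
      ((W : ℂ)⁻¹ * ∑ j ∈ Finset.range W, (om j : ℂ) * e (-((k : ℝ) * j / W))) *
        e ((k : ℝ) * n / W) =
      ∑ j ∈ Finset.range W, (W : ℂ)⁻¹ * (om j : ℂ) *
        ∑ k ∈ Finset.range W, e ((k : ℝ) * ((n : ℤ) - (j : ℤ) : ℤ) / W) := by
    simp_rw [Finset.mul_sum, Finset.sum_mul]
    rw [Finset.sum_comm]
    refine Finset.sum_congr rfl fun j _ => Finset.sum_congr rfl fun k _ => ?_
    have h2 : e ((k : ℝ) * ((n : ℤ) - (j : ℤ) : ℤ) / W) =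
        e (-((k : ℝ) * j / W)) * e ((k : ℝ) * n / W) := by
      rw [← e_add]
      congr 1
      push_cast
      ring
    rw [h2]
    ring
  rw [h1]
  simp_rw [sum_e_mod hW]
  rw [Finset.sum_eq_single (n % W)]
  · rw [if_pos]
    · rw [← hmod]
      field_simp
    · exact (Nat.modEq_iff_dvd.mp (Nat.mod_modEq n W))
  · intro j hj hne
    rw [if_neg, mul_zero]
    intro hd
    apply hne
    have h3 : j ≡ n [MOD W] := Nat.modEq_iff_dvd.mpr hd
    have h4 : j % W = n % W := h3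
    rwa [Nat.mod_eq_of_lt (Finset.mem_range.mp hj)] at h4
  · intro h
    exact absurd (Finset.mem_range.mpr (Nat.mod_lt n hW)) h

/-- uniformity passes to weights of a fixed period -/
theorem class_uniform {W X : ℕ} {B E : ℝ} (hW : 0 < W) {g : ℕ → ℝ}
    (hE : ∀ Y : ℕ, Y ≤ X → ∀ α : ℝ, ‖∑ n ∈ Finset.Icc 1 Y, (g n : ℂ) * e (α * n)‖ ≤ E)
    {om : ℕ → ℝ} (hper : ∀ n, om (n + W) = om n) (hB : ∀ n, |om n| ≤ B) {s t : ℕ} (hst : s ≤ t)
    (htX : t ≤ X) (α : ℝ) :
    ‖∑ n ∈ Finset.Ioc s t, ((om n * g n : ℝ) : ℂ) * e (α * n)‖ ≤ 2 * B * W * E := by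
  have hB0 : 0 ≤ B := (abs_nonneg _).trans (hB 0)
  have hE0 : 0 ≤ E := (norm_nonneg _).trans (hE 0 (Nat.zero_le _) 0)
  set c : ℕ → ℂ := fun k =>
    (W : ℂ)⁻¹ * ∑ j ∈ Finset.range W, (om j : ℂ) * e (-((k : ℝ) * j / W)) with hc
  have hcB : ∀ k, ‖c k‖ ≤ B := by
    intro k
    have hW0 : (0 : ℝ) < W := by exact_mod_cast hW
    rw [hc]
    simp only
    rw [norm_mul, norm_inv, Complex.norm_natCast, inv_mul_le_iff₀ hW0]
    calc ‖∑ j ∈ Finset.range W, (om j : ℂ) * e (-((k : ℝ) * j / W))‖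
        ≤ ∑ j ∈ Finset.range W, ‖(om j : ℂ) * e (-((k : ℝ) * j / W))‖ := norm_sum_le _ _
      _ ≤ ∑ _j ∈ Finset.range W, B := by
          apply Finset.sum_le_sum
          intro j _
          rw [norm_mul, norm_e, mul_one, Complex.norm_real, Real.norm_eq_abs]
          exact hB j
      _ = W * B := by simp
  have hexp : ∑ n ∈ Finset.Ioc s t, ((om n * g n : ℝ) : ℂ) * e (α * n) =
      ∑ k ∈ Finset.range W, c k * ∑ n ∈ Finset.Ioc s t, (g n : ℂ) * e ((α + k / W) * n) := by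
    simp_rw [Finset.mul_sum]
    rw [Finset.sum_comm]
    refine Finset.sum_congr rfl fun n _ => ?_
    rw [Complex.ofReal_mul, periodic_expand hW hper n, Finset.sum_mul, Finset.sum_mul]
    refine Finset.sum_congr rfl fun k _ => ?_
    have h2 : e ((α + k / W) * n) = e ((k : ℝ) * n / W) * e (α * n) := by
      rw [← e_add]
      congr 1
      ring
    rw [h2, hc]
    ring
  have hinner : ∀ β : ℝ, ‖∑ n ∈ Finset.Ioc s t, (g n : ℂ) * e (β * n)‖ ≤ 2 * E := by
    intro β
    have h3 : ∑ n ∈ Finset.Icc 1 t, (g n : ℂ) * e (β * n) =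
        ∑ n ∈ Finset.Icc 1 s, (g n : ℂ) * e (β * n) +
          ∑ n ∈ Finset.Ioc s t, (g n : ℂ) * e (β * n) := by
      rw [← Finset.sum_union]
      · congr 1
        ext n
        simp only [Finset.mem_Icc, Finset.mem_union, Finset.mem_Ioc]
        omega
      · rw [Finset.disjoint_left]
        intro n
        simp only [Finset.mem_Icc, Finset.mem_Ioc]
        omega
    have h4 : ∑ n ∈ Finset.Ioc s t, (g n : ℂ) * e (β * n) =
        ∑ n ∈ Finset.Icc 1 t, (g n : ℂ) * e (β * n) -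
          ∑ n ∈ Finset.Icc 1 s, (g n : ℂ) * e (β * n) := by
      rw [h3]
      ring
    rw [h4]
    calc _ ≤ ‖∑ n ∈ Finset.Icc 1 t, (g n : ℂ) * e (β * n)‖ +
          ‖∑ n ∈ Finset.Icc 1 s, (g n : ℂ) * e (β * n)‖ := norm_sub_le _ _
      _ ≤ 2 * E := by linarith [hE t htX β, hE s (hst.trans htX) β]
  rw [hexp]
  calc ‖∑ k ∈ Finset.range W, c k * ∑ n ∈ Finset.Ioc s t, (g n : ℂ) * e ((α + k / W) * n)‖
      ≤ ∑ k ∈ Finset.range W, ‖c k * ∑ n ∈ Finset.Ioc s t, (g n : ℂ) * e ((α + k / W) * n)‖ :=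
        norm_sum_le _ _
    _ ≤ ∑ _k ∈ Finset.range W, B * (2 * E) := by
        apply Finset.sum_le_sum
        intro k _
        rw [norm_mul]
        exact mul_le_mul (hcB k) (hinner _) (norm_nonneg _) hB0
    _ = 2 * B * W * E := by
        simp
        ring

/-- overlap of a window with a family of triangles, in integers -/
theorem overlap_int (s m J S : ℕ) (h1 : 2 * m * s + 2 ≤ S) (h2 : S ≤ 2 * (J - 1) * s) :
    (m : ℤ) * s * (m - 4) ≤
      2 * ∑ j ∈ Finset.range J, max (0 : ℤ) ((m : ℤ) * s - |(S : ℤ) - (2 * j * s + m * s + 1)|) := by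
  have hs : 0 < s := by
    rcases Nat.eq_zero_or_pos s with h | h
    · subst h
      simp at h2
      omega
    · exact h
  have hJ : 1 ≤ J := by
    by_contra hJ
    have : J - 1 = 0 := by omega
    rw [this] at h2
    simp at h2
    omega
  set F : ℕ → ℤ := fun j => max (0 : ℤ) ((m : ℤ) * s - |(S : ℤ) - (2 * j * s + m * s + 1)|) with hF
  obtain ⟨u, hu⟩ : ∃ u : ℕ, S = u + m * s + 1 := ⟨S - m * s - 1, by
    have : 2 * m * s = m * s + m * s := by ring
    omega⟩
  obtain ⟨q, ρ, hρ, hq⟩ : ∃ q ρ : ℕ, ρ < 2 * s ∧ u = 2 * q * s + ρ :=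
    ⟨u / (2 * s), u % (2 * s), Nat.mod_lt _ (by omega), by
      have := Nat.div_add_mod u (2 * s)
      have e : 2 * (u / (2 * s)) * s = 2 * s * (u / (2 * s)) := by ring
      omega⟩
  obtain ⟨k, hk⟩ : ∃ k : ℕ, k = m / 2 := ⟨_, rfl⟩
  have hk2 : 2 * k ≤ m := by omega
  have hkm : m ≤ 2 * k + 1 := by omega
  have hks : 2 * k * s ≤ m * s := Nat.mul_le_mul_right s hk2
  have hqk : k ≤ q := by
    by_contra hlt
    have h3 : q + 1 ≤ k := by omega
    have h4 : 2 * (q + 1) * s ≤ 2 * k * s := Nat.mul_le_mul_right s (by omega)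
    have h5 : 2 * (q + 1) * s = 2 * q * s + 2 * s := by ring
    have h6 : 2 * m * s = m * s + m * s := by ring
    omega
  have hqJ : q + 1 + k ≤ J := by
    by_contra hlt
    have h3 : J ≤ q + k := by omega
    have h4 : 2 * (J - 1) * s ≤ 2 * (q + k) * s := Nat.mul_le_mul_right s (by omega)
    have h5 : 2 * (q + k) * s = 2 * q * s + 2 * k * s := by ring
    have h6 : 2 * (J - 1) * s + 2 * s ≤ 2 * (q + k) * s := by
      have : 2 * (J - 1) * s + 2 * s = 2 * (J - 1 + 1) * s := by ring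
      rw [this]
      exact Nat.mul_le_mul_right s (by omega)
    omega
  have hF0 : ∀ j, 0 ≤ F j := fun j => le_max_left _ _
  have hsub : Finset.Ico (q + 1 - k) (q + 1 + k) ⊆ Finset.range J := by
    intro j hj
    rw [Finset.mem_Ico] at hj
    rw [Finset.mem_range]
    omega
  have hle : ∑ j ∈ Finset.Ico (q + 1 - k) (q + 1 + k), F j ≤ ∑ j ∈ Finset.range J, F j :=
    Finset.sum_le_sum_of_subset_of_nonneg hsub fun j _ _ => hF0 j
  have hsplit : ∑ j ∈ Finset.Ico (q + 1 - k) (q + 1 + k), F j =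
      ∑ j ∈ Finset.Ico (q + 1 - k) (q + 1), F j + ∑ j ∈ Finset.Ico (q + 1) (q + 1 + k), F j :=
    (Finset.sum_Ico_consecutive F (by omega) (by omega)).symm
  have hA : ∑ i ∈ Finset.range k, ((m : ℤ) - 2 * (i + 1)) * s ≤
      ∑ j ∈ Finset.Ico (q + 1 - k) (q + 1), F j := by
    rw [Finset.sum_Ico_eq_sum_range, show q + 1 - (q + 1 - k) = k by omega,
      ← Finset.sum_range_reflect]
    apply Finset.sum_le_sum
    intro i hi
    rw [Finset.mem_range] at hi
    refine le_trans ?_ (le_max_right _ _)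
    have e1 : (((q + 1 - k + i : ℕ) : ℤ)) = q + 1 - k + i := by
      push_cast [Nat.cast_sub (show k ≤ q + 1 by omega)]
      ring
    have e2 : (((k - 1 - i : ℕ) : ℤ)) = k - 1 - i := by
      omega
    rw [e1, e2]
    have e3 : (S : ℤ) = 2 * q * s + ρ + m * s + 1 := by
      rw [hu, hq]
      push_cast
      ring
    have hρ' : (ρ : ℤ) < 2 * s := by exact_mod_cast hρ
    have hik : (i : ℤ) + 1 ≤ k := by exact_mod_cast hi
    have hs' : (0 : ℤ) < s := by exact_mod_cast hs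
    have e4 : (S : ℤ) - (2 * ((q : ℤ) + 1 - k + i) * s + m * s + 1) =
        ρ + 2 * (k - (i + 1)) * s := by
      rw [e3]
      ring
    have h5 : 0 ≤ (ρ : ℤ) + 2 * (k - (i + 1)) * s := by
      have : 0 ≤ ((k : ℤ) - (i + 1)) * s := mul_nonneg (by linarith) hs'.le
      have h6 : (0 : ℤ) ≤ ρ := Int.natCast_nonneg ρ
      linarith
    rw [e4, abs_of_nonneg h5]
    linarith
  have hBB : ∑ i ∈ Finset.range k, ((m : ℤ) - 2 * (i + 1)) * s ≤
      ∑ j ∈ Finset.Ico (q + 1) (q + 1 + k), F j := by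
    rw [Finset.sum_Ico_eq_sum_range, show q + 1 + k - (q + 1) = k by omega]
    apply Finset.sum_le_sum
    intro i hi
    rw [Finset.mem_range] at hi
    refine le_trans ?_ (le_max_right _ _)
    have e3 : (S : ℤ) = 2 * q * s + ρ + m * s + 1 := by
      rw [hu, hq]
      push_cast
      ring
    have hρ' : (ρ : ℤ) < 2 * s := by exact_mod_cast hρ
    have hs' : (0 : ℤ) < s := by exact_mod_cast hs
    have e4 : (S : ℤ) - (2 * ((q + 1 + i : ℕ) : ℤ) * s + m * s + 1) =
        -(2 * (i + 1) * s - ρ) := by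
      rw [e3]
      push_cast
      ring
    have h5 : 0 ≤ 2 * ((i : ℤ) + 1) * s - ρ := by
      have : 0 ≤ (i : ℤ) * s := mul_nonneg (Int.natCast_nonneg i) hs'.le
      linarith
    rw [e4, abs_neg, abs_of_nonneg h5]
    have h6 : (0 : ℤ) ≤ ρ := Int.natCast_nonneg ρ
    linarith
  have hsum0 : ∀ k : ℕ, ∑ i ∈ Finset.range k, ((m : ℤ) - 2 * (i + 1)) =
      m * k - k * (k + 1) := by
    intro k
    induction k with
    | zero => simp
    | succ k ih =>
      rw [Finset.sum_range_succ, ih]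
      push_cast
      ring
  have hsum : ∑ i ∈ Finset.range k, ((m : ℤ) - 2 * (i + 1)) * s =
      (m * k - k * (k + 1)) * s := by
    rw [← Finset.sum_mul, hsum0]
  have hfin : (m : ℤ) * s * (m - 4) ≤ 4 * ((m * k - k * (k + 1)) * s) := by
    have hs' : (0 : ℤ) ≤ s := Int.natCast_nonneg s
    have hk' : (2 : ℤ) * k ≤ m := by exact_mod_cast hk2
    have hkm' : (m : ℤ) ≤ 2 * k + 1 := by exact_mod_cast hkm
    have hk0 : (0 : ℤ) ≤ k := Int.natCast_nonneg k
    have : (m : ℤ) * (m - 4) ≤ 4 * (m * k - k * (k + 1)) := by nlinarith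
    nlinarith
  have := hF0
  linarith

/-- overlap of a window with a family of triangles, in reals -/
theorem overlap_real (s m J S : ℕ) (h1 : 2 * m * s + 2 ≤ S) (h2 : S ≤ 2 * (J - 1) * s) :
    (m : ℝ) * s * (m - 4) / 2 ≤
      ∑ j ∈ Finset.range J, max (0 : ℝ) ((m : ℝ) * s - |(S : ℝ) - (2 * j * s + m * s + 1)|) := by
  have h := overlap_int s m J S h1 h2
  have h' : (((m : ℤ) * s * (m - 4) : ℤ) : ℝ) ≤
      ((2 * ∑ j ∈ Finset.range J, max (0 : ℤ)
        ((m : ℤ) * s - |(S : ℤ) - (2 * j * s + m * s + 1)|) : ℤ) : ℝ) := by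
    exact_mod_cast h
  push_cast at h'
  linarith

end Pool.Agent.Lib.GT
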