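import Pool.Agent.Lib.MP_7b7e48_nt.GT.Defs

/-!
# Module CO: autocorrelation of the majorant

`corr_of` derives the module's statement from the fundamental lemma (given as a hypothesis).
-/

open Finset

namespace Pool.Agent.Lib.GT

namespace Corr

/-- the residue of `-d` modulo `r` -/
def negd (d r : ℕ) : ℕ := (r - d % r) % r

theorem negd_lt {d r : ℕ} (hr : 0 < r) : negd d r < r := Nat.mod_lt _ hr

theorem mod_eq_negd {d r x : ℕ} (hr : 0 < r) : x % r = negd d r ↔ r ∣ x + d := by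
  unfold negd
  rw [Nat.dvd_iff_mod_eq_zero, Nat.add_mod]
  have h1 := Nat.mod_lt x hr
  have h2 := Nat.mod_lt d hr
  generalize x % r = a at *
  generalize d % r = c at *
  rcases Nat.eq_zero_or_pos c with rfl | hc
  · rw [Nat.sub_zero, Nat.mod_self, Nat.add_zero, Nat.mod_eq_of_lt h1]
  · rw [Nat.mod_eq_of_lt (by omega : r - c < r)]
    rcases Nat.lt_or_ge (a + c) r with h | h
    · rw [Nat.mod_eq_of_lt h]
      omega
    · rw [Nat.mod_eq_sub_mod h, Nat.mod_eq_of_lt (by omega : a + c - r < r)]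
      omega

theorem negd_eq_zero {d r : ℕ} (hr : 0 < r) : negd d r = 0 ↔ r ∣ d := by
  have h := mod_eq_negd (d := d) (x := 0) hr
  rw [Nat.zero_mod, Nat.zero_add] at h
  rw [← h]
  exact eq_comm

theorem mem_pr {z p : ℕ} : p ∈ pr z ↔ p.Prime ∧ p ≤ z := by
  unfold pr
  rw [Finset.mem_filter, Finset.mem_range]
  constructor
  · rintro ⟨h1, h2⟩; exact ⟨h2, by omega⟩
  · rintro ⟨h1, h2⟩; exact ⟨by omega, h1⟩

/-- the sieved classes: `0` for the primes up to `u`, `-d` for those up to `v` -/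
def Om (d u v r : ℕ) : Finset ℕ :=
  (if r ≤ u then {0} else ∅) ∪ (if r ≤ v then {negd d r} else ∅)

/-- local density of the `u`-rough numbers -/
noncomputable def fac (u r : ℕ) : ℝ := if r ≤ u then 1 - 1 / (r : ℝ) else 1

theorem V_eq {u z : ℕ} (h : u ≤ z) : V u = ∏ r ∈ pr z, fac u r := by
  unfold V fac
  rw [← Finset.prod_filter]
  apply Finset.prod_congr _ (fun _ _ => rfl)
  ext p
  rw [Finset.mem_filter, mem_pr, mem_pr]
  constructor
  · rintro ⟨h1, h2⟩; exact ⟨⟨h1, h2.trans h⟩, h2⟩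
  · rintro ⟨⟨h1, _⟩, h2⟩; exact ⟨h1, h2⟩

theorem fac_pos {u r : ℕ} (hr : 2 ≤ r) : 0 < fac u r := by
  unfold fac
  split_ifs
  · have h2 : (2 : ℝ) ≤ r := by exact_mod_cast hr
    have : 1 / (r : ℝ) ≤ 1 / 2 := one_div_le_one_div_of_le (by norm_num) h2
    linarith
  · exact one_pos

theorem V_ge {z : ℕ} (hz : 1 ≤ z) : 1 / (z : ℝ) ≤ V z := by
  induction z, hz using Nat.le_induction with
  | base =>
    have : pr 1 = ∅ := by decide
    unfold V
    rw [this]
    simp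
  | succ z hz ih =>
    have hz' : (1 : ℝ) ≤ z := by exact_mod_cast hz
    have h1 : V (z + 1) = V z * (if (z + 1).Prime then (1 - 1 / ((z : ℝ) + 1)) else 1) := by
      unfold V pr
      rw [Finset.range_add_one (n := z + 1), Finset.filter_insert]
      split_ifs with h
      · rw [Finset.prod_insert (by simp), mul_comm]
        push_cast
        ring
      · rw [mul_one]
    rw [h1]
    have h2 : 1 - 1 / ((z : ℝ) + 1) ≤ if (z + 1).Prime then (1 - 1 / ((z : ℝ) + 1)) else 1 := by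
      split_ifs
      · exact le_rfl
      · have : 0 ≤ 1 / ((z : ℝ) + 1) := by positivity
        linarith
    have h3 : 0 ≤ 1 - 1 / ((z : ℝ) + 1) := by
      rw [sub_nonneg, div_le_one (by positivity)]
      linarith
    calc 1 / ((z + 1 : ℕ) : ℝ) = 1 / (z : ℝ) * (1 - 1 / ((z : ℝ) + 1)) := by
          push_cast
          field_simp
          ring
      _ ≤ V z * (if (z + 1).Prime then (1 - 1 / ((z : ℝ) + 1)) else 1) :=
          mul_le_mul ih h2 h3 (V_pos z).le

theorem V_inv_le {z : ℕ} (hz : 1 ≤ z) : (V z)⁻¹ ≤ z := by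
  have h := V_ge hz
  have hz' : (0 : ℝ) < z := by exact_mod_cast hz
  rw [inv_le_comm₀ (V_pos z) hz', ← one_div]
  exact h

/-- local factor of the singular series of `{x, x + d}` -/
noncomputable def al (d r : ℕ) : ℝ :=
  if r ∣ d then (1 - 1 / (r : ℝ))⁻¹ else (1 - 2 / (r : ℝ)) / (1 - 1 / (r : ℝ)) ^ 2

theorem card_Om_both {d u v r : ℕ} (hr : 0 < r) (hu : r ≤ u) (hv : r ≤ v) :
    (Om d u v r).card = if r ∣ d then 1 else 2 := by
  unfold Om
  rw [if_pos hu, if_pos hv]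
  by_cases h : r ∣ d
  · rw [if_pos h, (negd_eq_zero hr).mpr h]
    rfl
  · rw [if_neg h]
    apply Finset.card_pair
    intro h'
    exact h ((negd_eq_zero hr).mp h'.symm)

theorem local_eq {d u v r : ℕ} (hr : 2 ≤ r) :
    (1 - ((Om d u v r).card : ℝ) / r) / (fac u r * fac v r) =
      if r ≤ u ∧ r ≤ v then al d r else 1 := by
  have hr0 : (2 : ℝ) ≤ r := by exact_mod_cast hr
  have h0 : (0 : ℝ) < 1 - 1 / (r : ℝ) := by
    have : 1 / (r : ℝ) ≤ 1 / 2 := one_div_le_one_div_of_le (by norm_num) hr0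
    linarith
  by_cases hu : r ≤ u <;> by_cases hv : r ≤ v
  · rw [if_pos ⟨hu, hv⟩, card_Om_both (by omega) hu hv]
    unfold fac al
    rw [if_pos hu, if_pos hv]
    by_cases h : r ∣ d
    · rw [if_pos h, if_pos h]
      push_cast
      field_simp
    · rw [if_neg h, if_neg h]
      push_cast
      rw [pow_two]
  · rw [if_neg (fun h => hv h.2)]
    unfold fac Om
    rw [if_pos hu, if_neg hv, if_pos hu, if_neg hv, Finset.union_empty, Finset.card_singleton]
    push_cast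
    rw [mul_one, div_self h0.ne']
  · rw [if_neg (fun h => hu h.1)]
    unfold fac Om
    rw [if_neg hu, if_pos hv, if_neg hu, if_pos hv, Finset.empty_union, Finset.card_singleton]
    push_cast
    rw [one_mul, div_self h0.ne']
  · rw [if_neg (fun h => hu h.1)]
    unfold fac Om
    rw [if_neg hu, if_neg hv, if_neg hu, if_neg hv, Finset.union_empty, Finset.card_empty]
    simp

theorem al_nonneg {d r : ℕ} (hr : 2 ≤ r) : 0 ≤ al d r := by
  have hr0 : (2 : ℝ) ≤ r := by exact_mod_cast hr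
  unfold al
  have h1 : 1 / (r : ℝ) ≤ 1 / 2 := one_div_le_one_div_of_le (by norm_num) hr0
  have h2 : 2 / (r : ℝ) ≤ 1 := by rw [div_le_one (by linarith)]; exact hr0
  split_ifs
  · exact inv_nonneg.mpr (by linarith)
  · exact div_nonneg (by linarith) (sq_nonneg _)

theorem al_le {d r : ℕ} (hr : 2 ≤ r) : al d r ≤ if r ∣ d then (1 - 1 / (r : ℝ))⁻¹ else 1 := by
  have hr0 : (2 : ℝ) ≤ r := by exact_mod_cast hr
  have h1 : 1 / (r : ℝ) ≤ 1 / 2 := one_div_le_one_div_of_le (by norm_num) hr0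
  unfold al
  split_ifs
  · exact le_rfl
  · rw [div_le_one (pow_pos (by linarith) 2)]
    have : (1 - 1 / (r : ℝ)) ^ 2 = 1 - 2 / r + (1 / r) ^ 2 := by ring
    rw [this]
    have : 0 ≤ (1 / (r : ℝ)) ^ 2 := sq_nonneg _
    linarith

theorem al_ge {d r : ℕ} (hr : 3 ≤ r) : 1 - 1 / ((r : ℝ) - 1) ^ 2 ≤ al d r := by
  have hr0 : (3 : ℝ) ≤ r := by exact_mod_cast hr
  have h1 : 1 / (r : ℝ) ≤ 1 / 2 := one_div_le_one_div_of_le (by norm_num) (by linarith)
  have h2 : 0 < 1 / (r : ℝ) := by positivity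
  unfold al
  split_ifs
  · have h3 : 1 ≤ (1 - 1 / (r : ℝ))⁻¹ := by
      rw [one_le_inv₀ (by linarith)]
      linarith
    have h4 : 0 ≤ 1 / ((r : ℝ) - 1) ^ 2 := by positivity
    linarith
  · apply le_of_eq
    have h5 : (r : ℝ) - 1 ≠ 0 := by linarith
    have h6 : (r : ℝ) ≠ 0 := by linarith
    have h7 : (1 : ℝ) - 1 / r ≠ 0 := by linarith
    have h8 : (1 : ℝ) - 1 / r = (r - 1) / r := by field_simp
    rw [h8]
    field_simp
    ring

theorem one_le_inv {p : ℕ} (hp : 2 ≤ p) : 1 ≤ (1 - 1 / (p : ℝ))⁻¹ := by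
  have hr0 : (2 : ℝ) ≤ p := by exact_mod_cast hp
  have h1 : 1 / (p : ℝ) ≤ 1 / 2 := one_div_le_one_div_of_le (by norm_num) hr0
  have h2 : 0 < 1 / (p : ℝ) := by positivity
  rw [one_le_inv₀ (by linarith)]
  linarith

theorem one_le_Tw (w d : ℕ) : 1 ≤ Tw w d := by
  unfold Tw
  apply Finset.one_le_prod
  intro p hp
  rw [Finset.mem_filter, Nat.mem_primeFactors] at hp
  exact one_le_inv hp.1.1.two_le

/-- the product over a set of primes `> w` dividing `d` is at most `Tw w d` -/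
theorem prod_al_le {w d : ℕ} (hd : d ≠ 0) (S : Finset ℕ) (hS : ∀ r ∈ S, r.Prime ∧ w < r) :
    ∏ r ∈ S, al d r ≤ Tw w d := by
  calc ∏ r ∈ S, al d r ≤ ∏ r ∈ S, (if r ∣ d then (1 - 1 / (r : ℝ))⁻¹ else 1) :=
        Finset.prod_le_prod (fun r hr => al_nonneg (hS r hr).1.two_le)
          (fun r hr => al_le (hS r hr).1.two_le)
    _ = ∏ r ∈ S.filter (fun r => r ∣ d), (1 - 1 / (r : ℝ))⁻¹ := by rw [Finset.prod_filter]
    _ ≤ Tw w d := by
        unfold Tw
        apply Finset.prod_le_prod_of_subset_of_one_le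
        · intro r hr
          rw [Finset.mem_filter] at hr
          rw [Finset.mem_filter, Nat.mem_primeFactors]
          exact ⟨⟨(hS r hr.1).1, hr.2, hd⟩, (hS r hr.1).2⟩
        · intro p hp
          rw [Finset.mem_filter] at hp
          exact (zero_le_one.trans (one_le_inv (hS p hp.1).1.two_le))
        · intro p hp _
          rw [Finset.mem_filter, Nat.mem_primeFactors] at hp
          exact one_le_inv hp.1.1.two_le

theorem prod_all {w : ℕ} (hw : 2 ≤ w) {z : ℕ} (hz : w ≤ z) :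
    ∏ m ∈ Finset.Ioc w z, (1 - 1 / ((m : ℝ) - 1) ^ 2) =
      (1 - 1 / (w : ℝ)) * (1 + 1 / ((z : ℝ) - 1)) := by
  have hw' : (2 : ℝ) ≤ w := by exact_mod_cast hw
  induction z, hz using Nat.le_induction with
  | base =>
    have h1 : (w : ℝ) - 1 ≠ 0 := by linarith
    have h2 : (w : ℝ) ≠ 0 := by linarith
    simp only [Finset.Ioc_self, Finset.prod_empty]
    field_simp
    ring
  | succ z hz ih =>
    have hz' : (2 : ℝ) ≤ z := by exact_mod_cast hw.trans hz
    rw [← Finset.insert_Ioc_right_eq_Ioc_add_one hz, Finset.prod_insert (by simp), ih]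
    have h1 : (z : ℝ) - 1 ≠ 0 := by linarith
    have h2 : (z : ℝ) ≠ 0 := by linarith
    push_cast
    have h3 : (z : ℝ) + 1 - 1 = z := by ring
    rw [h3]
    field_simp
    ring

theorem prod_al_ge {w z d : ℕ} (hw : 2 ≤ w) (hz : w ≤ z) (S : Finset ℕ)
    (hS : S ⊆ Finset.Ioc w z) : 1 - 1 / (w : ℝ) ≤ ∏ r ∈ S, al d r := by
  have hw' : (2 : ℝ) ≤ w := by exact_mod_cast hw
  have hz' : (2 : ℝ) ≤ z := by exact_mod_cast hw.trans hz
  have hfac : ∀ m ∈ Finset.Ioc w z, 0 ≤ 1 - 1 / ((m : ℝ) - 1) ^ 2 ∧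
      1 - 1 / ((m : ℝ) - 1) ^ 2 ≤ 1 := by
    intro m hm
    rw [Finset.mem_Ioc] at hm
    have h1 : (3 : ℝ) ≤ m := by exact_mod_cast (show 3 ≤ m by omega)
    have h2 : (1 : ℝ) ≤ ((m : ℝ) - 1) ^ 2 := by nlinarith
    have h3 : 1 / ((m : ℝ) - 1) ^ 2 ≤ 1 := by
      rw [div_le_one (by linarith)]
      exact h2
    have h4 : 0 ≤ 1 / ((m : ℝ) - 1) ^ 2 := by positivity
    constructor <;> linarith
  calc 1 - 1 / (w : ℝ) ≤ (1 - 1 / (w : ℝ)) * (1 + 1 / ((z : ℝ) - 1)) := by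
        have h1 : 0 ≤ 1 - 1 / (w : ℝ) := by
          rw [sub_nonneg, div_le_one (by linarith)]
          linarith
        have h2 : 0 ≤ 1 / ((z : ℝ) - 1) := div_nonneg zero_le_one (by linarith)
        nlinarith
    _ = ∏ m ∈ Finset.Ioc w z, (1 - 1 / ((m : ℝ) - 1) ^ 2) := (prod_all hw hz).symm
    _ ≤ ∏ m ∈ S, (1 - 1 / ((m : ℝ) - 1) ^ 2) := by
        rw [← Finset.prod_sdiff hS]
        have h1 : ∏ m ∈ Finset.Ioc w z \ S, (1 - 1 / ((m : ℝ) - 1) ^ 2) ≤ 1 := by
          apply Finset.prod_le_one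
          · intro m hm
            exact (hfac m (Finset.mem_sdiff.mp hm).1).1
          · intro m hm
            exact (hfac m (Finset.mem_sdiff.mp hm).1).2
        have h2 : 0 ≤ ∏ m ∈ S, (1 - 1 / ((m : ℝ) - 1) ^ 2) :=
          Finset.prod_nonneg fun m hm => (hfac m (hS hm)).1
        nlinarith
    _ ≤ ∏ r ∈ S, al d r := by
        apply Finset.prod_le_prod
        · intro m hm
          exact (hfac m (hS hm)).1
        · intro m hm
          have := Finset.mem_Ioc.mp (hS hm)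
          exact al_ge (by omega)

theorem count_eq {d u v z N : ℕ} (hu : u ≤ z) (hv : v ≤ z) :
    ((Finset.Icc 1 N).filter fun x => Rough u x ∧ Rough v (x + d)).card =
      ((Finset.range N).filter (fun k => ∀ r ∈ pr z, (1 + k) % r ∉ Om d u v r)).card := by
  have key : ∀ x, (∀ r ∈ pr z, x % r ∉ Om d u v r) ↔ Rough u x ∧ Rough v (x + d) := by
    intro x
    rw [rough_iff, rough_iff]
    have hmem : ∀ r ∈ pr z, (x % r ∉ Om d u v r ↔
        (r ≤ u → ¬ r ∣ x) ∧ (r ≤ v → ¬ r ∣ x + d)) := by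
      intro r hr
      have hr0 : 0 < r := (mem_pr.mp hr).1.pos
      unfold Om
      rw [← mod_eq_negd hr0, Nat.dvd_iff_mod_eq_zero]
      by_cases h1 : r ≤ u <;> by_cases h2 : r ≤ v <;> simp [h1, h2]
    constructor
    · intro h
      refine ⟨fun p hp => ?_, fun p hp => ?_⟩
      · rw [mem_pr] at hp
        have hp' : p ∈ pr z := mem_pr.mpr ⟨hp.1, hp.2.trans hu⟩
        exact ((hmem p hp').mp (h p hp')).1 hp.2
      · rw [mem_pr] at hp
        have hp' : p ∈ pr z := mem_pr.mpr ⟨hp.1, hp.2.trans hv⟩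
        exact ((hmem p hp').mp (h p hp')).2 hp.2
    · rintro ⟨h1, h2⟩ r hr
      rw [hmem r hr]
      have hr' := mem_pr.mp hr
      exact ⟨fun h => h1 r (mem_pr.mpr ⟨hr'.1, h⟩), fun h => h2 r (mem_pr.mpr ⟨hr'.1, h⟩)⟩
  symm
  apply Finset.card_bij (fun k _ => 1 + k)
  · intro k hk
    rw [Finset.mem_filter, Finset.mem_range] at hk
    rw [Finset.mem_filter, Finset.mem_Icc]
    exact ⟨by omega, (key (1 + k)).mp hk.2⟩
  · intro a _ b _ h
    omega
  · intro x hx
    rw [Finset.mem_filter, Finset.mem_Icc] at hx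
    refine ⟨x - 1, ?_, by omega⟩
    rw [Finset.mem_filter, Finset.mem_range]
    refine ⟨by omega, ?_⟩
    have : 1 + (x - 1) = x := by omega
    rw [this]
    exact (key x).mpr hx.2

/-- the product of the local factors -/
noncomputable def G (d z u v : ℕ) : ℝ :=
  ∏ r ∈ pr z, if r ≤ u ∧ r ≤ v then al d r else 1

theorem prod_Om {d z u v : ℕ} (hu : u ≤ z) (hv : v ≤ z) :
    ∏ r ∈ pr z, (1 - ((Om d u v r).card : ℝ) / r) = G d z u v * (V u * V v) := by
  unfold G
  rw [V_eq hu, V_eq hv, ← Finset.prod_mul_distrib, ← Finset.prod_mul_distrib]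
  apply Finset.prod_congr rfl
  intro r hr
  have h2 := (mem_pr.mp hr).1.two_le
  rw [← local_eq h2]
  have := fac_pos (u := u) h2
  have := fac_pos (u := v) h2
  field_simp

theorem sum_eq {d u v N : ℕ} : ∑ x ∈ Finset.Icc 1 N, Lw u x * Lw v (x + d) =
    (V u)⁻¹ * (V v)⁻¹ * ((Finset.Icc 1 N).filter fun x => Rough u x ∧ Rough v (x + d)).card := by
  have h : ∀ x, Lw u x * Lw v (x + d) =
      if Rough u x ∧ Rough v (x + d) then (V u)⁻¹ * (V v)⁻¹ else 0 := by
    intro x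
    unfold Lw
    by_cases h1 : Rough u x <;> by_cases h2 : Rough v (x + d) <;> simp [h1, h2]
  simp_rw [h]
  rw [← Finset.sum_filter, Finset.sum_const, nsmul_eq_mul]
  ring

end Corr

open Corr in
theorem corr_of (fund_lemma : ∃ K : ℕ, 1 ≤ K ∧ ∀ b : ℕ, 1 ≤ b → ∀ z : ℕ, 2 ≤ z →
    ∀ P : Finset ℕ, (∀ r ∈ P, r.Prime ∧ r ≤ z) → ∀ Ω : ℕ → Finset ℕ,
    (∀ r ∈ P, (Ω r).card ≤ 2 ∧ (Ω r).card < r ∧ ∀ x ∈ Ω r, x < r) → ∀ A L : ℕ,
    |(((Finset.range L).filter (fun k => ∀ r ∈ P, (A + k) % r ∉ Ω r)).card : ℝ) -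
        L * ∏ r ∈ P, (1 - ((Ω r).card : ℝ) / r)| ≤
      K * (1 / 2) ^ b * (L * ∏ r ∈ P, (1 - ((Ω r).card : ℝ) / r)) + (z : ℝ) ^ (K * b)) :
    ∃ K : ℕ, 1 ≤ K ∧ ∀ b : ℕ, 1 ≤ b → ∀ w z : ℕ, 2 ≤ w → w ≤ z → ∀ X d : ℕ,
    1 ≤ d → d ≤ X →
    |∑ x ∈ Finset.Icc 1 (X - d), (Lw z x - Lw w x) * (Lw z (x + d) - Lw w (x + d))| ≤
      X * Tw 0 d * (K * (1 / 2) ^ b * Tw w d + (Tw w d - 1) + 2 / w) + (z : ℝ) ^ (K * b) := by
  obtain ⟨K₀, hK₀, hFL⟩ := fund_lemma
  refine ⟨4 * K₀ + 4, by omega, ?_⟩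
  intro b hb w z hw hwz X d hd hdX
  have hw' : (2 : ℝ) ≤ w := by exact_mod_cast hw
  have hz' : (2 : ℝ) ≤ z := by exact_mod_cast hw.trans hwz
  set T := Tw w d with hT
  set T0 := Tw 0 d with hT0
  have hT1 : 1 ≤ T := one_le_Tw w d
  have hT01 : 1 ≤ T0 := one_le_Tw 0 d
  have hw2 : 0 ≤ 2 / (w : ℝ) := by positivity
  by_cases hdodd : Even d
  swap
  · have h0 : ∑ x ∈ Finset.Icc 1 (X - d), (Lw z x - Lw w x) * (Lw z (x + d) - Lw w (x + d)) = 0 := by
      apply Finset.sum_eq_zero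
      intro x _
      have hL : ∀ u y : ℕ, 2 ≤ u → Even y → Lw u y = 0 := by
        intro u y hu hy
        unfold Lw
        rw [if_neg]
        intro h
        have := h 2 Nat.prime_two hy.two_dvd
        omega
      by_cases hx : Even x
      · rw [hL z x (hw.trans hwz) hx, hL w x hw hx]
        ring
      · have hxd : Even (x + d) := by
          rw [Nat.not_even_iff_odd] at hx hdodd
          exact hx.add_odd hdodd
        rw [hL z _ (hw.trans hwz) hxd, hL w _ hw hxd]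
        ring
    rw [h0, abs_zero]
    have h1 : (0 : ℝ) ≤ (4 * K₀ + 4 : ℕ) * (1 / 2) ^ b * T := by positivity
    have h2 : (0 : ℝ) ≤ X * T0 := by positivity
    have h3 : (0 : ℝ) ≤ (z : ℝ) ^ ((4 * K₀ + 4) * b) := by positivity
    have h4 : 0 ≤ (X : ℝ) * T0 * ((4 * K₀ + 4 : ℕ) * (1 / 2) ^ b * T + (T - 1) + 2 / w) :=
      mul_nonneg h2 (by linarith)
    linarith
  set N := X - d with hN
  have hNX : (N : ℝ) ≤ X := by exact_mod_cast Nat.sub_le X d
  have hN0 : (0 : ℝ) ≤ N := Nat.cast_nonneg N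
  set A := ∏ r ∈ (pr z).filter (fun r => r ≤ w), al d r with hA
  set B := ∏ r ∈ (pr z).filter (fun r => ¬ r ≤ w), al d r with hB
  have hGA : ∀ u v, (∀ r ∈ pr z, (r ≤ u ∧ r ≤ v) ↔ r ≤ w) → G d z u v = A := by
    intro u v h
    rw [hA, Finset.prod_filter]
    unfold G
    apply Finset.prod_congr rfl
    intro r hr
    simp only [h r hr]
  have hGzz : G d z z z = A * B := by
    rw [hA, hB, Finset.prod_filter_mul_prod_filter_not]
    unfold G
    apply Finset.prod_congr rfl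
    intro r hr
    have := (mem_pr.mp hr).2
    rw [if_pos ⟨this, this⟩]
  have hGzw : G d z z w = A := hGA z w fun r hr => ⟨fun h => h.2, fun h => ⟨(mem_pr.mp hr).2, h⟩⟩
  have hGwz : G d z w z = A := hGA w z fun r hr => ⟨fun h => h.1, fun h => ⟨h, (mem_pr.mp hr).2⟩⟩
  have hGww : G d z w w = A := hGA w w fun r hr => ⟨fun h => h.2, fun h => ⟨h, h⟩⟩
  have hA0 : 0 ≤ A := Finset.prod_nonneg fun r hr =>
    al_nonneg (mem_pr.mp (Finset.mem_filter.mp hr).1).1.two_le
  have hB0 : 0 ≤ B := Finset.prod_nonneg fun r hr =>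
    al_nonneg (mem_pr.mp (Finset.mem_filter.mp hr).1).1.two_le
  have hAT : A ≤ T0 := prod_al_le (by omega) _ fun r hr => by
    have := (mem_pr.mp (Finset.mem_filter.mp hr).1).1
    exact ⟨this, this.pos⟩
  have hBT : B ≤ T := prod_al_le (by omega) _ fun r hr => by
    rw [Finset.mem_filter] at hr
    exact ⟨(mem_pr.mp hr.1).1, by omega⟩
  have hBge : 1 - 1 / (w : ℝ) ≤ B := prod_al_ge hw hwz _ fun r hr => by
    rw [Finset.mem_filter, mem_pr] at hr
    rw [Finset.mem_Ioc]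
    omega
  -- the four counts
  set E : ℝ := K₀ * (1 / 2) ^ b with hE
  have hE0 : 0 ≤ E := by positivity
  set R : ℝ := (z : ℝ) ^ (K₀ * b) * ((z : ℝ) * z) with hR
  have hS : ∀ u v, 1 ≤ u → u ≤ z → 1 ≤ v → v ≤ z →
      |∑ x ∈ Finset.Icc 1 N, Lw u x * Lw v (x + d) - N * G d z u v| ≤
        E * (N * G d z u v) + R := by
    intro u v hu1 hu hv1 hv
    have hVu := V_pos u
    have hVv := V_pos v
    have h1 := hFL b hb z (hw.trans hwz) (pr z) (fun r hr => mem_pr.mp hr) (Om d u v) (by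
      intro r hr
      have hrp := (mem_pr.mp hr).1
      have hr2 := hrp.two_le
      have hc2 : (Om d u v r).card ≤ 2 := by
        unfold Om
        refine (Finset.card_union_le _ _).trans ?_
        split_ifs <;> simp
      refine ⟨hc2, ?_, ?_⟩
      · rcases Nat.lt_or_ge 2 r with h | h
        · omega
        · have hr' : r = 2 := by omega
          subst hr'
          have h3 : negd d 2 = 0 := (negd_eq_zero (by norm_num)).mpr hdodd.two_dvd
          unfold Om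
          rw [h3]
          split_ifs <;> simp
      · intro x hx
        unfold Om at hx
        rw [Finset.mem_union] at hx
        rcases hx with hx | hx
        · split_ifs at hx
          · rw [Finset.mem_singleton] at hx
            omega
          · simp at hx
        · split_ifs at hx
          · rw [Finset.mem_singleton] at hx
            rw [hx]
            exact negd_lt (by omega)
          · simp at hx) 1 N
    rw [← count_eq hu hv, prod_Om hu hv] at h1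
    rw [sum_eq]
    set c : ℝ := (((Finset.Icc 1 N).filter fun x => Rough u x ∧ Rough v (x + d)).card : ℝ) with hc
    have h2 : (V u)⁻¹ * (V v)⁻¹ * c - N * G d z u v =
        (V u)⁻¹ * (V v)⁻¹ * (c - N * (G d z u v * (V u * V v))) := by
      field_simp
    have hinv : 0 ≤ (V u)⁻¹ * (V v)⁻¹ := by positivity
    rw [h2, abs_mul, abs_of_nonneg hinv]
    calc (V u)⁻¹ * (V v)⁻¹ * |c - N * (G d z u v * (V u * V v))|
        ≤ (V u)⁻¹ * (V v)⁻¹ * (E * (N * (G d z u v * (V u * V v))) + (z : ℝ) ^ (K₀ * b)) :=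
          mul_le_mul_of_nonneg_left h1 hinv
      _ = E * (N * G d z u v) + (z : ℝ) ^ (K₀ * b) * ((V u)⁻¹ * (V v)⁻¹) := by
          field_simp
      _ ≤ E * (N * G d z u v) + R := by
          have h3 : (V u)⁻¹ ≤ z := (V_inv_le hu1).trans (by exact_mod_cast hu)
          have h4 : (V v)⁻¹ ≤ z := (V_inv_le hv1).trans (by exact_mod_cast hv)
          have h5 : (V u)⁻¹ * (V v)⁻¹ ≤ (z : ℝ) * z :=
            mul_le_mul h3 h4 (inv_nonneg.mpr hVv.le) (by linarith)
          have h6 : (0 : ℝ) ≤ (z : ℝ) ^ (K₀ * b) := by positivity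
          rw [hR]
          nlinarith
  have hz1 : 1 ≤ z := by omega
  have hw1 : 1 ≤ w := by omega
  have s1 := hS z z hz1 le_rfl hz1 le_rfl
  have s2 := hS z w hz1 le_rfl hw1 hwz
  have s3 := hS w z hw1 hwz hz1 le_rfl
  have s4 := hS w w hw1 hwz hw1 hwz
  rw [hGzz] at s1
  rw [hGzw] at s2
  rw [hGwz] at s3
  rw [hGww] at s4
  have hsplit : ∑ x ∈ Finset.Icc 1 N, (Lw z x - Lw w x) * (Lw z (x + d) - Lw w (x + d)) =
      ∑ x ∈ Finset.Icc 1 N, Lw z x * Lw z (x + d) - ∑ x ∈ Finset.Icc 1 N, Lw z x * Lw w (x + d) -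
      ∑ x ∈ Finset.Icc 1 N, Lw w x * Lw z (x + d) + ∑ x ∈ Finset.Icc 1 N, Lw w x * Lw w (x + d) := by
    rw [← Finset.sum_sub_distrib, ← Finset.sum_sub_distrib, ← Finset.sum_add_distrib]
    apply Finset.sum_congr rfl
    intro x _
    ring
  rw [hsplit]
  generalize (∑ x ∈ Finset.Icc 1 N, Lw z x * Lw z (x + d)) = S1 at *
  generalize (∑ x ∈ Finset.Icc 1 N, Lw z x * Lw w (x + d)) = S2 at *
  generalize (∑ x ∈ Finset.Icc 1 N, Lw w x * Lw z (x + d)) = S3 at *
  generalize (∑ x ∈ Finset.Icc 1 N, Lw w x * Lw w (x + d)) = S4 at *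
  have hNA : (N : ℝ) * A ≤ X * T0 := mul_le_mul hNX hAT hA0 (Nat.cast_nonneg X)
  have hNA0 : 0 ≤ (N : ℝ) * A := mul_nonneg hN0 hA0
  have hB1 : |B - 1| ≤ (T - 1) + 2 / w := by
    have h1 : 1 / (w : ℝ) ≤ 2 / w := by gcongr; norm_num
    rw [abs_le]
    constructor
    · linarith
    · linarith
  have hmain : |(N : ℝ) * A * (B - 1)| ≤ X * T0 * ((T - 1) + 2 / w) := by
    rw [abs_mul, abs_of_nonneg hNA0]
    exact mul_le_mul hNA hB1 (abs_nonneg _) (by positivity)
  have herr : E * (N * (A * B)) + 3 * (E * (N * A)) ≤ 4 * E * (X * T0 * T) := by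
    have h1 : (N : ℝ) * (A * B) ≤ X * T0 * T := by
      rw [← mul_assoc]
      exact mul_le_mul hNA hBT hB0 (by positivity)
    have h2 : (N : ℝ) * A ≤ X * T0 * T := by
      have : (0 : ℝ) ≤ X * T0 := by positivity
      nlinarith
    nlinarith
  have hR4 : 4 * R ≤ (z : ℝ) ^ ((4 * K₀ + 4) * b) := by
    have h1 : (4 : ℝ) ≤ (z : ℝ) * z := by nlinarith
    have h2 : (0 : ℝ) ≤ R := by positivity
    calc 4 * R ≤ ((z : ℝ) * z) * R := mul_le_mul_of_nonneg_right h1 h2
      _ = (z : ℝ) ^ (K₀ * b + 4) := by rw [hR]; ring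
      _ ≤ (z : ℝ) ^ ((4 * K₀ + 4) * b) := by
          apply pow_le_pow_right₀ (by linarith)
          have : 4 * 1 ≤ 4 * b := Nat.mul_le_mul_left 4 hb
          have h3 : (4 * K₀ + 4) * b = 4 * (K₀ * b) + 4 * b := by ring
          rw [h3]
          omega
  have hEK : 4 * E * (X * T0 * T) ≤ X * T0 * ((4 * K₀ + 4 : ℕ) * (1 / 2) ^ b * T) := by
    have h1 : (0 : ℝ) ≤ (1 / 2 : ℝ) ^ b := by positivity
    have h2 : 4 * E ≤ (4 * K₀ + 4 : ℕ) * (1 / 2 : ℝ) ^ b := by
      rw [hE]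
      push_cast
      nlinarith
    have h3 : (0 : ℝ) ≤ X * T0 * T := by positivity
    nlinarith
  have q1 := abs_le.mp s1
  have q2 := abs_le.mp s2
  have q3 := abs_le.mp s3
  have q4 := abs_le.mp s4
  have q5 := abs_le.mp hmain
  have hid : (N : ℝ) * A * (B - 1) = N * (A * B) - N * A := by ring
  rw [hid] at q5
  have hgoal : (X : ℝ) * T0 * ((4 * K₀ + 4 : ℕ) * (1 / 2) ^ b * T + (T - 1) + 2 / w) =
      X * T0 * ((4 * K₀ + 4 : ℕ) * (1 / 2) ^ b * T) + X * T0 * ((T - 1) + 2 / w) := by ring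
  rw [hgoal, abs_le]
  constructor <;> linarith [q1.1, q1.2, q2.1, q2.2, q3.1, q3.2, q4.1, q4.2, q5.1, q5.2]

end Pool.Agent.Lib.GT
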