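import Pool.Agent.Lib.MP_7b7e48_nt.GT.TransferMom

/-!
# Module TR: the transference theorem
-/

open Finset

namespace Pool.Agent.Lib.GT

/-- **Autocorrelation of the majorant** (module CO, from the fundamental lemma). -/
theorem corr : ∃ K : ℕ, 1 ≤ K ∧ ∀ b : ℕ, 1 ≤ b → ∀ w z : ℕ, 2 ≤ w → w ≤ z → ∀ X d : ℕ,
    1 ≤ d → d ≤ X →
    |∑ x ∈ Finset.Icc 1 (X - d), (Lw z x - Lw w x) * (Lw z (x + d) - Lw w (x + d))| ≤
      X * Tw 0 d * (K * (1 / 2) ^ b * Tw w d + (Tw w d - 1) + 2 / w) + (z : ℝ) ^ (K * b) :=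
  corr_of fund_lemma

namespace Transfer

open Corr (one_le_Tw)

lemma ev_log_pow (k : ℕ) (η : ℝ) (hη : 0 < η) :
    ∀ᶠ X : ℕ in Filter.atTop, (Real.log X) ^ k ≤ η * X := by
  have h := (Real.isLittleO_pow_log_id_atTop (n := k)).def hη
  have h2 := (tendsto_natCast_atTop_atTop (R := ℝ)).eventually h
  filter_upwards [h2] with X hX
  have h3 : ‖(Real.log (X : ℝ)) ^ k‖ ≤ η * ‖(X : ℝ)‖ := hX
  rw [Real.norm_of_nonneg (pow_nonneg (Real.log_natCast_nonneg X) k),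
    Real.norm_of_nonneg (Nat.cast_nonneg X)] at h3
  exact h3

lemma ev_w (C : ℝ) (hC : 0 < C) (η : ℝ) (hη : 0 < η) :
    ∀ᶠ w : ℕ in Filter.atTop, C * (Real.log w) ^ 3 ≤ η * Real.sqrt (Real.sqrt w) := by
  have h := (Real.isLittleO_pow_log_id_atTop (n := 3)).def (show 0 < η / (64 * C) by positivity)
  have hs : Filter.Tendsto (fun w : ℕ => Real.sqrt (Real.sqrt (w : ℝ))) Filter.atTop
      Filter.atTop :=
    Real.tendsto_sqrt_atTop.comp (Real.tendsto_sqrt_atTop.comp tendsto_natCast_atTop_atTop)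
  have h2 := hs.eventually h
  filter_upwards [h2, Filter.eventually_ge_atTop 1] with w hw hw1
  have hw0 : (1 : ℝ) ≤ w := by exact_mod_cast hw1
  have hlog : Real.log (Real.sqrt (Real.sqrt (w : ℝ))) = Real.log w / 4 := by
    rw [Real.log_sqrt (Real.sqrt_nonneg _), Real.log_sqrt (by linarith)]
    ring
  have h3 : ‖(Real.log (Real.sqrt (Real.sqrt (w : ℝ)))) ^ 3‖ ≤
      η / (64 * C) * ‖Real.sqrt (Real.sqrt (w : ℝ))‖ := hw
  rw [hlog, Real.norm_of_nonneg (Real.sqrt_nonneg _), Real.norm_of_nonneg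
    (pow_nonneg (div_nonneg (Real.log_natCast_nonneg w) (by norm_num)) 3)] at h3
  have h4 : (Real.log w / 4) ^ 3 = (Real.log w) ^ 3 / 64 := by ring
  rw [h4, div_mul_eq_mul_div, div_le_div_iff₀ (by norm_num) (by positivity)] at h3
  nlinarith

/-- the sum over the nonzero shifts -/
lemma sum_corr_le {X w : ℕ} {h ν : ℕ → ℝ} {C₁ W A B : ℝ} (hw : 1 ≤ w)
    (hA : 0 ≤ A) (hB : 0 ≤ B)
    (h1 : ∀ D ∈ Icc 1 X, |acor X h D| ≤ C₁ * W ^ 2 * Tw 0 D * X)
    (h2 : ∀ D ∈ Icc 1 X, |acor X ν D| ≤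
      X * Tw 0 D * (A * Tw w D + (Tw w D - 1) + B) + Real.sqrt X) :
    ∑ D ∈ Icc 1 X, (acor X h D) ^ 2 * |acor X ν D| ≤
      C₁ ^ 2 * W ^ 4 * Real.exp 256 * X ^ 3 * (X * (A + B + 4 / Real.sqrt w) + Real.sqrt X) := by
  have hm := mixed_moment w X hw A B hA hB
  have hT2 := sum_T0_pow_le 2 X (by norm_num)
  generalize Real.exp 256 = E at *
  have hX : (0 : ℝ) ≤ X := Nat.cast_nonneg X
  have hs : 0 ≤ Real.sqrt X := Real.sqrt_nonneg _
  have h3 : ∀ D ∈ Icc 1 X, (acor X h D) ^ 2 * |acor X ν D| ≤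
      (C₁ ^ 2 * W ^ 4 * X ^ 2) * (X * ((Tw 0 D) ^ 3 * (A * Tw w D + (Tw w D - 1) + B)) +
        Real.sqrt X * (Tw 0 D) ^ 2) := by
    intro D hD
    have h4 := h1 D hD
    have h5 := h2 D hD
    have h6 : (acor X h D) ^ 2 ≤ (C₁ * W ^ 2 * Tw 0 D * X) ^ 2 := by
      rw [← sq_abs (acor X h D)]
      exact pow_le_pow_left₀ (abs_nonneg _) h4 2
    calc (acor X h D) ^ 2 * |acor X ν D|
        ≤ (C₁ * W ^ 2 * Tw 0 D * X) ^ 2 *
          (X * Tw 0 D * (A * Tw w D + (Tw w D - 1) + B) + Real.sqrt X) :=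
          mul_le_mul h6 h5 (abs_nonneg _) (sq_nonneg _)
      _ = _ := by ring
  refine (Finset.sum_le_sum h3).trans ?_
  rw [← Finset.mul_sum, Finset.sum_add_distrib, ← Finset.mul_sum, ← Finset.mul_sum]
  have h4 : X * ∑ D ∈ Icc 1 X, (Tw 0 D) ^ 3 * (A * Tw w D + (Tw w D - 1) + B) +
      Real.sqrt X * ∑ D ∈ Icc 1 X, (Tw 0 D) ^ 2 ≤
      X * (X * E * (A + B + 4 / Real.sqrt w)) + Real.sqrt X * (X * E) :=
    add_le_add (mul_le_mul_of_nonneg_left hm hX) (mul_le_mul_of_nonneg_left hT2 hs)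
  have h5 : 0 ≤ C₁ ^ 2 * W ^ 4 * (X : ℝ) ^ 2 := by positivity
  refine (mul_le_mul_of_nonneg_left h4 h5).trans (le_of_eq ?_)
  ring

/-- final numerical step -/
lemma final_num {S2 F c W B2 X Q RH r K b k1 q : ℝ}
    (hS : S2 ≤ F * (c * (W * (B2 * (2 * X + 1)) + (2 * X + 1) * Q) + RH))
    (hF : F ≤ 2 * X) (_hF0 : 0 ≤ F) (hc : c ≤ 4 * K * b) (hc0 : 0 ≤ c) (hW : 1 ≤ W)
    (hB2 : B2 ≤ k1 * X ^ 2 / r) (hB20 : 0 ≤ B2) (hQ : Q ≤ q * W ^ 2 * X ^ 2 / r) (hQ0 : 0 ≤ Q)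
    (hRH : RH ≤ X ^ 3 / r) (hRH0 : 0 ≤ RH) (hX : 1 ≤ X) (hr : 1 ≤ r) (hb : 1 ≤ b) (hK : 1 ≤ K)
    (hk1 : 0 ≤ k1) (_hq : 0 ≤ q) :
    S2 ≤ (24 * K * (k1 + q) + 2) * (b * W ^ 2 / r) * X ^ 4 := by
  have hX0 : 0 ≤ X := by linarith
  have hr0 : 0 < r := by linarith
  have hW0 : 0 ≤ W := by linarith
  have hW2 : 1 ≤ W ^ 2 := one_le_pow₀ hW
  have hWW : W ≤ W ^ 2 := by nlinarith
  have h1 : W * (B2 * (2 * X + 1)) ≤ 3 * k1 * W ^ 2 * X ^ 3 / r := by
    calc W * (B2 * (2 * X + 1)) ≤ W ^ 2 * ((k1 * X ^ 2 / r) * (3 * X)) := by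
          apply mul_le_mul hWW _ (by positivity) (by positivity)
          exact mul_le_mul hB2 (by linarith) (by positivity) (by positivity)
      _ = _ := by ring
  have h2 : (2 * X + 1) * Q ≤ 3 * q * W ^ 2 * X ^ 3 / r := by
    calc (2 * X + 1) * Q ≤ (3 * X) * (q * W ^ 2 * X ^ 2 / r) :=
          mul_le_mul (by linarith) hQ hQ0 (by positivity)
      _ = _ := by ring
  have h3 : c * (W * (B2 * (2 * X + 1)) + (2 * X + 1) * Q) ≤
      (4 * K * b) * (3 * k1 * W ^ 2 * X ^ 3 / r + 3 * q * W ^ 2 * X ^ 3 / r) :=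
    mul_le_mul hc (add_le_add h1 h2) (by positivity) (by positivity)
  have h4 : RH ≤ b * W ^ 2 * X ^ 3 / r := by
    refine hRH.trans (div_le_div_of_nonneg_right ?_ hr0.le)
    have : 1 ≤ b * W ^ 2 := one_le_mul_of_one_le_of_one_le hb hW2
    have h5 : 0 ≤ X ^ 3 := by positivity
    nlinarith
  have h5 : F * (c * (W * (B2 * (2 * X + 1)) + (2 * X + 1) * Q) + RH) ≤
      (2 * X) * ((4 * K * b) * (3 * k1 * W ^ 2 * X ^ 3 / r + 3 * q * W ^ 2 * X ^ 3 / r) +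
        b * W ^ 2 * X ^ 3 / r) := by
    apply mul_le_mul hF (add_le_add h3 h4) _ (by positivity)
    have : 0 ≤ W * (B2 * (2 * X + 1)) + (2 * X + 1) * Q := by positivity
    have := mul_nonneg hc0 this
    linarith
  refine (hS.trans h5).trans (le_of_eq ?_)
  ring

/-- The bound for the square root term. -/
lemma Q_bound {X w z b K : ℕ} {h : ℕ → ℝ} {C₁ CV : ℝ} (hX3 : 3 ≤ X) (hw : 2 ≤ w)
    (hwz : w ≤ z) (hwX : w ≤ X) (hK : 1 ≤ K) (hC₁ : 1 ≤ C₁) (hCV : 0 < CV)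
    (hh : ∀ n, |h n| ≤ lam n + Lw w n)
    (hcorr : ∀ d : ℕ, 1 ≤ d → d ≤ X →
      |∑ x ∈ Finset.Icc 1 (X - d), (Lw z x - Lw w x) * (Lw z (x + d) - Lw w (x + d))| ≤
      X * Tw 0 d * (K * (1 / 2) ^ b * Tw w d + (Tw w d - 1) + 2 / w) + (z : ℝ) ^ (K * b))
    (hpow : ((1 : ℝ) / 2) ^ b ≤ 1 / w) (hz1 : (z : ℝ) ^ (K * b) ≤ Real.sqrt X)
    (hVz : (V z)⁻¹ ≤ CV * Real.log X)
    (hah : ∀ D : ℕ, 1 ≤ D → D ≤ X → |acor X h D| ≤ C₁ * ((V w)⁻¹) ^ 2 * Tw 0 D * X)
    (hE1 : 8 * (2 * (V w)⁻¹) ^ 4 * (CV + (V w)⁻¹) ^ 2 * Real.sqrt w * (Real.log X) ^ 6 ≤ X) :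
    Real.sqrt ((acor X h 0) ^ 2 * |acor X (fun n => if n ≤ X then Lw z n - Lw w n else 0) 0| +
      2 * ∑ D ∈ Icc 1 X, (acor X h D) ^ 2 *
        |acor X (fun n => if n ≤ X then Lw z n - Lw w n else 0) D|) ≤
      Real.sqrt (1 + 2 * C₁ ^ 2 * Real.exp 256 * (K + 7)) * ((V w)⁻¹) ^ 2 * X ^ 2 /
        Real.sqrt (Real.sqrt w) := by
  set W := (V w)⁻¹ with hW
  have hW1 : 1 ≤ W := one_le_V_inv w
  have hW0 : 0 ≤ W := by linarith
  have hz : 2 ≤ z := hw.trans hwz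
  have hXr : (3 : ℝ) ≤ X := by exact_mod_cast hX3
  have hX0 : (0 : ℝ) < X := by linarith
  have hwr : (2 : ℝ) ≤ w := by exact_mod_cast hw
  have hKr : (1 : ℝ) ≤ K := by exact_mod_cast hK
  have hlog1 : 1 ≤ Real.log X := by
    rw [Real.le_log_iff_exp_le hX0]
    exact Real.exp_one_lt_three.le.trans hXr
  have hlog0 : 0 ≤ Real.log X := by linarith
  have hsX : Real.sqrt X * Real.sqrt X = X := Real.mul_self_sqrt hX0.le
  have hsX0 : 0 ≤ Real.sqrt X := Real.sqrt_nonneg _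
  set r := Real.sqrt (Real.sqrt w) with hr
  have hsw1 : 1 ≤ Real.sqrt w := by rw [Real.one_le_sqrt]; linarith
  have hr1 : 1 ≤ r := by rw [hr, Real.one_le_sqrt]; exact hsw1
  have hr0 : 0 < r := by linarith
  have hr2 : r ^ 2 = Real.sqrt w := Real.sq_sqrt (Real.sqrt_nonneg _)
  set ν : ℕ → ℝ := fun n => if n ≤ X then Lw z n - Lw w n else 0 with hν
  have hlamX : ∀ n, n ≤ X → lam n ≤ Real.log X := by
    intro n hn
    unfold lam
    split_ifs with hp
    · exact Real.log_le_log (by exact_mod_cast hp.pos) (by exact_mod_cast hn)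
    · exact hlog0
  have hVz0 := V_pos z
  rw [Real.sqrt_le_iff]
  refine ⟨by positivity, ?_⟩
  have hC2 : 0 ≤ 1 + 2 * C₁ ^ 2 * Real.exp 256 * (K + 7) := by
    have := Real.exp_pos 256
    positivity
  have hy : (Real.sqrt (1 + 2 * C₁ ^ 2 * Real.exp 256 * (K + 7)) * W ^ 2 * X ^ 2 / r) ^ 2 =
      (1 + 2 * C₁ ^ 2 * Real.exp 256 * (K + 7)) * W ^ 4 * X ^ 4 / Real.sqrt w := by
    rw [div_pow, hr2, mul_pow, mul_pow, Real.sq_sqrt hC2]
    ring
  rw [hy]
  have hLwn : ∀ n, |h n| ≤ lam n + W := fun n => (hh n).trans (by linarith [Lw_le w n])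
  have t1 : (acor X h 0) ^ 2 * |acor X ν 0| ≤ X ^ 4 / Real.sqrt w := by
    have a1 : |acor X h 0| ≤ (X + 1) * (2 * W * Real.log X) ^ 2 := by
      apply acor_zero_le
      intro n hn
      have h1 := hlamX n hn
      have h2 := hLwn n
      have e1 : Real.log X ≤ W * Real.log X := le_mul_of_one_le_left hlog0 hW1
      have e2 : W ≤ W * Real.log X := le_mul_of_one_le_right hW0 hlog1
      linarith
    have a2 : |acor X ν 0| ≤ (X + 1) * ((CV + W) * Real.log X) ^ 2 := by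
      apply acor_zero_le
      intro n hn
      simp only [hν]
      rw [if_pos hn]
      have h1 := Lw_nonneg z n
      have h2 := Lw_nonneg w n
      have h3 := Lw_le z n
      have h4 := Lw_le w n
      have e2 : W ≤ W * Real.log X := le_mul_of_one_le_right hW0 hlog1
      have h5 : (V z)⁻¹ + W ≤ (CV + W) * Real.log X := by linarith
      have h6 : |Lw z n - Lw w n| ≤ (V z)⁻¹ + W := by
        rw [abs_le]
        constructor <;> linarith [inv_pos.mpr hVz0]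
      exact h6.trans h5
    rw [le_div_iff₀ (by linarith)]
    calc (acor X h 0) ^ 2 * |acor X ν 0| * Real.sqrt w
        ≤ ((X + 1) * (2 * W * Real.log X) ^ 2) ^ 2 *
          ((X + 1) * ((CV + W) * Real.log X) ^ 2) * Real.sqrt w := by
          apply mul_le_mul_of_nonneg_right _ (Real.sqrt_nonneg _)
          apply mul_le_mul _ a2 (abs_nonneg _) (by positivity)
          rw [← sq_abs (acor X h 0)]
          exact pow_le_pow_left₀ (abs_nonneg _) a1 2
      _ = (X + 1) ^ 3 * ((2 * W) ^ 4 * (CV + W) ^ 2 * Real.sqrt w * (Real.log X) ^ 6) := by ring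
      _ ≤ (2 * X) ^ 3 * ((2 * W) ^ 4 * (CV + W) ^ 2 * Real.sqrt w * (Real.log X) ^ 6) := by
          apply mul_le_mul_of_nonneg_right _ (by positivity)
          apply pow_le_pow_left₀ (by positivity)
          linarith
      _ = X ^ 3 * (8 * (2 * W) ^ 4 * (CV + W) ^ 2 * Real.sqrt w * (Real.log X) ^ 6) := by ring
      _ ≤ X ^ 3 * X := mul_le_mul_of_nonneg_left hE1 (by positivity)
      _ = X ^ 4 := by ring
  have t2 : ∑ D ∈ Icc 1 X, (acor X h D) ^ 2 * |acor X ν D| ≤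
      C₁ ^ 2 * W ^ 4 * Real.exp 256 * X ^ 4 * (K + 7) / Real.sqrt w := by
    have hsum := sum_corr_le (X := X) (w := w) (h := h) (ν := ν) (C₁ := C₁) (W := W)
      (A := K / w) (B := 2 / w) (by omega) (by positivity) (by positivity)
      (fun D hD => by
        rw [Finset.mem_Icc] at hD
        exact hah D hD.1 hD.2)
      (fun D hD => by
        rw [Finset.mem_Icc] at hD
        rw [hν, acor_nu_eq hw hz hD.1 hD.2]
        refine (hcorr D hD.1 hD.2).trans (add_le_add ?_ hz1)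
        apply mul_le_mul_of_nonneg_left
        · have h1 := one_le_Tw w D
          have h2 : (K : ℝ) * (1 / 2) ^ b ≤ K / w := by
            calc (K : ℝ) * (1 / 2) ^ b ≤ K * (1 / w) :=
                  mul_le_mul_of_nonneg_left hpow (by linarith)
              _ = K / w := by ring
          have h3 : (K : ℝ) * (1 / 2) ^ b * Tw w D ≤ K / w * Tw w D :=
            mul_le_mul_of_nonneg_right h2 (by linarith)
          linarith
        · have := one_le_Tw 0 D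
          positivity)
    refine hsum.trans ?_
    have hsw0 : 0 < Real.sqrt w := by linarith
    have hww : Real.sqrt w * Real.sqrt w = w := Real.mul_self_sqrt (by linarith)
    have h1 : 1 / (w : ℝ) ≤ 1 / Real.sqrt w := by
      apply one_div_le_one_div_of_le hsw0
      nlinarith
    have h2 : (K : ℝ) / w + 2 / w + 4 / Real.sqrt w ≤ (K + 6) / Real.sqrt w := by
      calc (K : ℝ) / w + 2 / w + 4 / Real.sqrt w = (K + 2) * (1 / w) + 4 / Real.sqrt w := by ring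
        _ ≤ (K + 2) * (1 / Real.sqrt w) + 4 / Real.sqrt w :=
            add_le_add (mul_le_mul_of_nonneg_left h1 (by positivity)) le_rfl
        _ = (K + 6) / Real.sqrt w := by ring
    have h3 : Real.sqrt X ≤ X / Real.sqrt w := by
      rw [le_div_iff₀ hsw0]
      calc Real.sqrt X * Real.sqrt w ≤ Real.sqrt X * Real.sqrt X := by
            apply mul_le_mul_of_nonneg_left _ hsX0
            apply Real.sqrt_le_sqrt
            exact_mod_cast hwX
        _ = X := hsX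
    have h4 : (X : ℝ) * ((K : ℝ) / w + 2 / w + 4 / Real.sqrt w) + Real.sqrt X ≤
        X * ((K + 7) / Real.sqrt w) := by
      calc (X : ℝ) * ((K : ℝ) / w + 2 / w + 4 / Real.sqrt w) + Real.sqrt X
          ≤ X * ((K + 6) / Real.sqrt w) + X / Real.sqrt w :=
            add_le_add (mul_le_mul_of_nonneg_left h2 hX0.le) h3
        _ = _ := by ring
    have h5 : 0 ≤ C₁ ^ 2 * W ^ 4 * Real.exp 256 * (X : ℝ) ^ 3 := by
      have := Real.exp_pos 256
      positivity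
    refine (mul_le_mul_of_nonneg_left h4 h5).trans (le_of_eq ?_)
    ring
  have hW4 : 1 ≤ W ^ 4 := one_le_pow₀ hW1
  have t3 : X ^ 4 / Real.sqrt w ≤ W ^ 4 * X ^ 4 / Real.sqrt w := by
    apply div_le_div_of_nonneg_right _ (Real.sqrt_nonneg _)
    have : (0 : ℝ) ≤ X ^ 4 := by positivity
    nlinarith
  calc (acor X h 0) ^ 2 * |acor X ν 0| +
        2 * ∑ D ∈ Icc 1 X, (acor X h D) ^ 2 * |acor X ν D|
      ≤ W ^ 4 * X ^ 4 / Real.sqrt w +
        2 * (C₁ ^ 2 * W ^ 4 * Real.exp 256 * X ^ 4 * (K + 7) / Real.sqrt w) := by linarith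
    _ = _ := by ring

/-- The transference inequality for fixed parameters. -/
theorem core {X w z b K : ℕ} {f h : ℕ → ℝ} {C₁ CV K₁ : ℝ} (hX3 : 3 ≤ X) (hw : 2 ≤ w)
    (hwz : w ≤ z) (hwX : w ≤ X) (hK : 1 ≤ K) (hb : 1 ≤ b) (hC₁ : 1 ≤ C₁) (hCV : 0 < CV)
    (hf : ∀ n, |f n| ≤ lam n) (hh : ∀ n, |h n| ≤ lam n + Lw w n)
    (hsupp : ∀ n, X < n → f n = 0 ∧ h n = 0)
    (hexp : ∀ α : ℝ, ‖∑ n ∈ Finset.Icc 1 X, (h n : ℂ) * e (α * n)‖ ≤
      K₁ * (w : ℝ) ^ (-(1 / 3) : ℝ) * X)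
    (hcorr : ∀ d : ℕ, 1 ≤ d → d ≤ X →
      |∑ x ∈ Finset.Icc 1 (X - d), (Lw z x - Lw w x) * (Lw z (x + d) - Lw w (x + d))| ≤
      X * Tw 0 d * (K * (1 / 2) ^ b * Tw w d + (Tw w d - 1) + 2 / w) + (z : ℝ) ^ (K * b))
    (hpow : ((1 : ℝ) / 2) ^ b ≤ 1 / w) (hz1 : (z : ℝ) ^ (K * b) ≤ Real.sqrt X)
    (hz2 : (z : ℝ) ≤ Real.sqrt X) (hc : Real.log X * V z ≤ 4 * K * b)
    (hVz : (V z)⁻¹ ≤ CV * Real.log X)
    (hah : ∀ D : ℕ, 1 ≤ D → D ≤ X → |acor X h D| ≤ C₁ * ((V w)⁻¹) ^ 2 * Tw 0 D * X)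
    (hE1 : 8 * (2 * (V w)⁻¹) ^ 4 * (CV + (V w)⁻¹) ^ 2 * Real.sqrt w * (Real.log X) ^ 6 ≤ X)
    (hE2 : 32 * ((V w)⁻¹) ^ 2 * Real.sqrt (Real.sqrt w) * Real.log X ≤ Real.sqrt X) :
    (∑ n ∈ Finset.range (2 * X + 1), |∑ x ∈ Finset.range (n + 1), f x * h (n - x)|) ^ 2 ≤
      (24 * K * (K₁ ^ 2 + Real.sqrt (1 + 2 * C₁ ^ 2 * Real.exp 256 * (K + 7))) + 2) *
        (b * ((V w)⁻¹) ^ 2 / Real.sqrt (Real.sqrt w)) * X ^ 4 := by
  set W := (V w)⁻¹ with hW
  have hW1 : 1 ≤ W := one_le_V_inv w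
  have hW0 : 0 ≤ W := by linarith
  have hz : 2 ≤ z := hw.trans hwz
  have hXr : (3 : ℝ) ≤ X := by exact_mod_cast hX3
  have hX0 : (0 : ℝ) < X := by linarith
  have hwr : (2 : ℝ) ≤ w := by exact_mod_cast hw
  have hKr : (1 : ℝ) ≤ K := by exact_mod_cast hK
  have hbr : (1 : ℝ) ≤ b := by exact_mod_cast hb
  have hlog1 : 1 ≤ Real.log X := by
    rw [Real.le_log_iff_exp_le hX0]
    exact Real.exp_one_lt_three.le.trans hXr
  have hlog0 : 0 ≤ Real.log X := by linarith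
  have hsX : Real.sqrt X * Real.sqrt X = X := Real.mul_self_sqrt hX0.le
  have hsX0 : 0 ≤ Real.sqrt X := Real.sqrt_nonneg _
  set r := Real.sqrt (Real.sqrt w) with hr
  have hsw1 : 1 ≤ Real.sqrt w := by rw [Real.one_le_sqrt]; linarith
  have hr1 : 1 ≤ r := by rw [hr, Real.one_le_sqrt]; exact hsw1
  have hr0 : 0 < r := by linarith
  have hr2 : r ^ 2 = Real.sqrt w := Real.sq_sqrt (Real.sqrt_nonneg _)
  set c := Real.log X * V z with hcdef
  have hc0 : 0 ≤ c := mul_nonneg hlog0 (V_pos z).le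
  set ν : ℕ → ℝ := fun n => if n ≤ X then Lw z n - Lw w n else 0 with hν
  set ρ : ℕ → ℝ := fun n => if n ≤ z then Real.log X else 0 with hρ
  have hL0 : Lw w 0 = 0 := by
    unfold Lw
    rw [if_neg]
    intro h
    have := h 2 Nat.prime_two (dvd_zero 2)
    omega
  have hlam0 : lam 0 = 0 := by
    unfold lam
    rw [if_neg Nat.not_prime_zero]
  have hh0 : h 0 = 0 := by
    have := hh 0
    rw [hL0, hlam0, add_zero] at this
    exact abs_nonpos_iff.mp this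
  have hlamX : ∀ n, n ≤ X → lam n ≤ Real.log X := by
    intro n hn
    unfold lam
    split_ifs with hp
    · exact Real.log_le_log (by exact_mod_cast hp.pos) (by exact_mod_cast hn)
    · exact hlog0
  have hVz0 := V_pos z
  -- the majorant
  have hmaj : ∀ n, n ≤ X → |f n| ≤ c * (Lw w n + ν n) + ρ n := by
    intro n hn
    have h1 : Lw w n + ν n = Lw z n := by
      simp only [hν]
      rw [if_pos hn]; ring
    rw [h1]
    refine (hf n).trans ?_
    have hLz := Lw_nonneg z n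
    by_cases hnz : n ≤ z
    · have h2 : ρ n = Real.log X := by simp only [hρ]; rw [if_pos hnz]
      rw [h2]
      have := mul_nonneg hc0 hLz
      linarith [hlamX n hn]
    · have h2 : ρ n = 0 := by simp only [hρ]; rw [if_neg hnz]
      rw [h2, add_zero]
      by_cases hp : n.Prime
      · have h3 : Lw z n = (V z)⁻¹ := by
          unfold Lw
          rw [if_pos]
          intro p hp' hd
          rw [(Nat.prime_dvd_prime_iff_eq hp' hp).mp hd]
          omega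
        rw [h3, hcdef, mul_assoc, mul_inv_cancel₀ hVz0.ne', mul_one]
        exact hlamX n hn
      · have h3 : lam n = 0 := by unfold lam; rw [if_neg hp]
        rw [h3]
        exact mul_nonneg hc0 hLz
  have hmain := main_ineq (X := X) (f := f) (h := h) (ν₁ := ν) (μ := Lw w) (ρ := ρ) (c := c)
    (W := W) (B := K₁ * (w : ℝ) ^ (-(1 / 3) : ℝ) * X) hc0 (fun n hn => (hsupp n hn).1)
    (fun n hn => (hsupp n hn).2) hh0
    (fun n hn => by simp only [hν]; rw [if_neg (by omega)]) (Lw_nonneg w) (Lw_le w)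
    (fun n => by simp only [hρ]; split_ifs; exacts [hlog0, le_rfl]) hmaj hexp
  -- the pieces
  have hF : ∑ n ∈ range (X + 1), |f n| ≤ 2 * X :=
    (Finset.sum_le_sum fun n _ => hf n).trans (sum_lam_le X)
  have hF0 : 0 ≤ ∑ n ∈ range (X + 1), |f n| := Finset.sum_nonneg fun _ _ => abs_nonneg _
  have hH : ∑ n ∈ range (X + 1), |h n| ≤ 4 * W * X := by
    have h1 : ∑ n ∈ range (X + 1), |h n| ≤ ∑ n ∈ range (X + 1), (lam n + W) :=
      Finset.sum_le_sum fun n _ => (hh n).trans (by linarith [Lw_le w n])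
    rw [Finset.sum_add_distrib, Finset.sum_const, Finset.card_range, nsmul_eq_mul] at h1
    have h2 := sum_lam_le X
    push_cast at h1
    nlinarith
  have hH0 : 0 ≤ ∑ n ∈ range (X + 1), |h n| := Finset.sum_nonneg fun _ _ => abs_nonneg _
  have hR : ∑ n ∈ range (X + 1), ρ n ≤ (z + 1) * Real.log X := by
    rw [hρ, ← Finset.sum_filter, Finset.sum_const, nsmul_eq_mul]
    apply mul_le_mul_of_nonneg_right _ hlog0
    have h1 : ((range (X + 1)).filter (fun n => n ≤ z)).card ≤ z + 1 := by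
      calc ((range (X + 1)).filter (fun n => n ≤ z)).card ≤ (range (z + 1)).card := by
            apply Finset.card_le_card
            intro n hn
            rw [Finset.mem_filter] at hn
            rw [Finset.mem_range]
            omega
        _ = z + 1 := Finset.card_range _
    exact_mod_cast h1
  have hR0 : 0 ≤ ∑ n ∈ range (X + 1), ρ n :=
    Finset.sum_nonneg fun n _ => by simp only [hρ]; split_ifs; exacts [hlog0, le_rfl]
  have hRH : (∑ n ∈ range (X + 1), ρ n) * (∑ n ∈ range (X + 1), |h n|) ^ 2 ≤ X ^ 3 / r := by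
    rw [le_div_iff₀ hr0]
    have h1 : (z : ℝ) + 1 ≤ 2 * Real.sqrt X := by
      have : 1 ≤ Real.sqrt X := by rw [Real.one_le_sqrt]; linarith
      linarith
    calc (∑ n ∈ range (X + 1), ρ n) * (∑ n ∈ range (X + 1), |h n|) ^ 2 * r
        ≤ ((2 * Real.sqrt X) * Real.log X) * (4 * W * X) ^ 2 * r := by
          apply mul_le_mul_of_nonneg_right _ hr0.le
          apply mul_le_mul _ (pow_le_pow_left₀ hH0 hH 2) (by positivity) (by positivity)
          exact hR.trans (mul_le_mul_of_nonneg_right h1 hlog0)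
      _ = (Real.sqrt X * X ^ 2) * (32 * W ^ 2 * r * Real.log X) := by ring
      _ ≤ (Real.sqrt X * X ^ 2) * Real.sqrt X := by
          apply mul_le_mul_of_nonneg_left hE2 (by positivity)
      _ = X ^ 3 := by
          rw [show Real.sqrt X * (X : ℝ) ^ 2 * Real.sqrt X = (Real.sqrt X * Real.sqrt X) * X ^ 2 by
            ring, hsX]
          ring
  -- the exponential sum term
  have hB2 : (K₁ * (w : ℝ) ^ (-(1 / 3) : ℝ) * X) ^ 2 ≤ K₁ ^ 2 * X ^ 2 / r := by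
    have hw13 : ((w : ℝ) ^ (-(1 / 3) : ℝ)) ^ 2 ≤ 1 / r := by
      have h1 : r = (w : ℝ) ^ (1 / 4 : ℝ) := by
        rw [hr, Real.sqrt_eq_rpow, Real.sqrt_eq_rpow, ← Real.rpow_mul (by linarith)]
        norm_num
      have h2 : ((w : ℝ) ^ (-(1 / 3) : ℝ)) ^ 2 = (w : ℝ) ^ (-(2 / 3) : ℝ) := by
        rw [← Real.rpow_natCast, ← Real.rpow_mul (by linarith)]
        norm_num
      have h3 : 1 / (w : ℝ) ^ (1 / 4 : ℝ) = (w : ℝ) ^ (-(1 / 4) : ℝ) := by
        rw [Real.rpow_neg (by linarith), one_div]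
      rw [h1, h2, h3]
      exact Real.rpow_le_rpow_of_exponent_le (by linarith) (by norm_num)
    calc (K₁ * (w : ℝ) ^ (-(1 / 3) : ℝ) * X) ^ 2
        = (K₁ ^ 2 * X ^ 2) * ((w : ℝ) ^ (-(1 / 3) : ℝ)) ^ 2 := by ring
      _ ≤ (K₁ ^ 2 * X ^ 2) * (1 / r) := mul_le_mul_of_nonneg_left hw13 (by positivity)
      _ = _ := by ring
  -- the square root term
  set Q := Real.sqrt ((acor X h 0) ^ 2 * |acor X ν 0| +
          2 * ∑ D ∈ Icc 1 X, (acor X h D) ^ 2 * |acor X ν D|) with hQdef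
  have hQ : Q ≤ Real.sqrt (1 + 2 * C₁ ^ 2 * Real.exp 256 * (K + 7)) * W ^ 2 * X ^ 2 / r := by
    exact Q_bound hX3 hw hwz hwX hK hC₁ hCV hh hcorr hpow hz1 hVz hah hE1
  have hfin := final_num (S2 := (∑ n ∈ Finset.range (2 * X + 1),
      |∑ x ∈ Finset.range (n + 1), f x * h (n - x)|) ^ 2)
    (F := ∑ n ∈ range (X + 1), |f n|) (c := c) (W := W)
    (B2 := (K₁ * (w : ℝ) ^ (-(1 / 3) : ℝ) * X) ^ 2) (X := (X : ℝ)) (Q := Q)
    (RH := (∑ n ∈ range (X + 1), ρ n) * (∑ n ∈ range (X + 1), |h n|) ^ 2) (r := r)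
    (K := (K : ℝ)) (b := (b : ℝ)) (k1 := K₁ ^ 2)
    (q := Real.sqrt (1 + 2 * C₁ ^ 2 * Real.exp 256 * (K + 7)))
    hmain hF hF0 hc hc0 hW1 hB2 (sq_nonneg _) hQ (Real.sqrt_nonneg _) hRH (by positivity)
    (by linarith) hr1 hbr hKr (sq_nonneg _) (Real.sqrt_nonneg _)
  exact hfin

/-- choice of the sieve level -/
lemma exists_z {K b w X : ℕ} (hK : 1 ≤ K) (hb : 1 ≤ b) (hw : 2 ≤ w) (hX : w ^ (2 * K * b) ≤ X) :
    ∃ z : ℕ, w ≤ z ∧ (z : ℝ) ^ (K * b) ≤ Real.sqrt X ∧ (z : ℝ) ≤ Real.sqrt X ∧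
      Real.log X * V z ≤ 4 * K * b := by
  have hn : 2 * K * b ≠ 0 := by positivity
  have hKb : 1 ≤ K * b := Nat.mul_pos hK hb
  have hwr : (2 : ℝ) ≤ w := by exact_mod_cast hw
  have hX0 : (0 : ℝ) ≤ X := Nat.cast_nonneg X
  set y : ℝ := (X : ℝ) ^ (((2 * K * b : ℕ) : ℝ)⁻¹) with hy
  have hy0 : 0 ≤ y := Real.rpow_nonneg hX0 _
  have hyX : y ^ (2 * K * b) = X := Real.rpow_inv_natCast_pow hX0 hn
  have hwy : (w : ℝ) ≤ y := by
    have h1 : (w : ℝ) = ((w : ℝ) ^ (2 * K * b)) ^ (((2 * K * b : ℕ) : ℝ)⁻¹) :=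
      (Real.pow_rpow_inv_natCast (by linarith) hn).symm
    rw [h1, hy]
    apply Real.rpow_le_rpow (by positivity) _ (by positivity)
    exact_mod_cast hX
  have hy2 : 2 ≤ y := hwr.trans hwy
  have hysq : y ^ (K * b) = Real.sqrt X := by
    rw [← hyX, show 2 * K * b = (K * b) * 2 by ring, pow_mul y (K * b) 2,
      Real.sqrt_sq (by positivity)]
  refine ⟨⌊y⌋₊, Nat.le_floor hwy, ?_, ?_, ?_⟩
  · rw [← hysq]
    exact pow_le_pow_left₀ (Nat.cast_nonneg _) (Nat.floor_le hy0) _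
  · rw [← hysq]
    refine (Nat.floor_le hy0).trans ?_
    calc y = y ^ 1 := (pow_one y).symm
      _ ≤ y ^ (K * b) := pow_le_pow_right₀ (by linarith) hKb
  · set z := ⌊y⌋₊ with hz
    have hz2 : 2 ≤ z := Nat.le_floor (by exact_mod_cast hy2)
    have hzr : (2 : ℝ) ≤ z := by exact_mod_cast hz2
    have hlz : 0 < Real.log z := Real.log_pos (by linarith)
    have hVz := V_le z hz2
    have h1 : Real.log X = (2 * K * b : ℕ) * Real.log y := by
      rw [← hyX, Real.log_pow]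
    have h2 : Real.log y ≤ 2 * Real.log z := by
      have h3 : y < z + 1 := Nat.lt_floor_add_one y
      have h4 : y ≤ (z : ℝ) ^ 2 := by nlinarith
      calc Real.log y ≤ Real.log ((z : ℝ) ^ 2) := Real.log_le_log (by linarith) h4
        _ = 2 * Real.log z := by rw [Real.log_pow]; norm_num
    calc Real.log X * V z ≤ ((2 * K * b : ℕ) * (2 * Real.log z)) * (1 / Real.log z) := by
          apply mul_le_mul _ hVz (V_pos z).le (by positivity)
          rw [h1]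
          exact mul_le_mul_of_nonneg_left h2 (Nat.cast_nonneg _)
      _ = 4 * K * b := by
          push_cast
          field_simp
          ring

end Transfer

open Transfer in
/-- **The transference theorem** (module TR). -/
theorem transfer (K₁ : ℝ) : ∀ ε : ℝ, 0 < ε → ∃ w₀ : ℕ, ∀ w : ℕ, w₀ ≤ w → ∃ X₀ : ℕ, ∀ X : ℕ,
    X₀ ≤ X → ∀ f h : ℕ → ℝ, (∀ n, |f n| ≤ lam n) → (∀ n, |h n| ≤ lam n + Lw w n) →
    (∀ n, X < n → f n = 0 ∧ h n = 0) →
    (∀ α : ℝ, ‖∑ n ∈ Finset.Icc 1 X, (h n : ℂ) * e (α * n)‖ ≤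
      K₁ * (w : ℝ) ^ (-(1 / 3) : ℝ) * X) →
    ∑ n ∈ Finset.range (2 * X + 1), |∑ x ∈ Finset.range (n + 1), f x * h (n - x)| ≤
      ε * X ^ 2 := by
  intro ε hε
  obtain ⟨K, hK, hcorr⟩ := corr
  obtain ⟨C₁, hC₁, hah⟩ := acor_h_le
  obtain ⟨CV, hCV, hV⟩ := V_inv_le
  have hE := Real.exp_pos 256
  set C₃ : ℝ := 24 * K * (K₁ ^ 2 + Real.sqrt (1 + 2 * C₁ ^ 2 * Real.exp 256 * (K + 7))) + 2
    with hC₃
  have hC₃0 : 0 < C₃ := by positivity
  obtain ⟨w₁, hw₁⟩ := Filter.eventually_atTop.mp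
    (ev_w (C₃ * 3 * CV ^ 2) (by positivity) (ε ^ 2) (by positivity))
  refine ⟨max w₁ 3, fun w hw => ?_⟩
  have hw3 : 3 ≤ w := le_trans (le_max_right _ _) hw
  have hw2 : 2 ≤ w := by omega
  have hwmain := hw₁ w (le_trans (le_max_left _ _) hw)
  have hwr : (3 : ℝ) ≤ w := by exact_mod_cast hw3
  have hlw0 : 0 < Real.log w := Real.log_pos (by linarith)
  set W := (V w)⁻¹ with hW
  have hW1 : 1 ≤ W := one_le_V_inv w
  have hWle : W ≤ CV * Real.log w := hV w hw2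
  set r := Real.sqrt (Real.sqrt w) with hr
  have hsw1 : 1 ≤ Real.sqrt w := by rw [Real.one_le_sqrt]; linarith
  have hr1 : 1 ≤ r := by rw [hr, Real.one_le_sqrt]; exact hsw1
  have hr0 : 0 < r := by linarith
  set b := Nat.log 2 w + 1 with hb
  have hb1 : 1 ≤ b := by omega
  have hpow : ((1 : ℝ) / 2) ^ b ≤ 1 / w := by
    have h1 : w < 2 ^ b := Nat.lt_pow_succ_log_self (by norm_num) w
    have h2 : (w : ℝ) ≤ 2 ^ b := by exact_mod_cast h1.le
    rw [div_pow, one_pow]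
    exact one_div_le_one_div_of_le (by linarith) h2
  have hb3 : (b : ℝ) ≤ 3 * Real.log w := by
    have h1 : 2 ^ (Nat.log 2 w) ≤ w := Nat.pow_log_le_self 2 (by omega)
    have h2 : (Nat.log 2 w : ℝ) * Real.log 2 ≤ Real.log w := by
      rw [← Real.log_pow]
      apply Real.log_le_log (by positivity)
      exact_mod_cast h1
    have h3 := Real.log_two_gt_d9
    have h4 : (1 : ℝ) ≤ Real.log w := by
      rw [Real.le_log_iff_exp_le (by linarith)]
      exact Real.exp_one_lt_three.le.trans hwr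
    rw [hb]
    push_cast
    nlinarith [Nat.cast_nonneg (α := ℝ) (Nat.log 2 w)]
  -- the conditions on `X`
  have hη₁ : 0 < 1 / (8 * (2 * W) ^ 4 * (CV + W) ^ 2 * Real.sqrt w) := by
    have : 0 < Real.sqrt w := by linarith
    positivity
  have hη₂ : 0 < 1 / (32 * W ^ 2 * r) ^ 2 := by positivity
  obtain ⟨X₁, hX₁⟩ := Filter.eventually_atTop.mp
    ((ev_log_pow 6 _ hη₁).and (ev_log_pow 2 _ hη₂))
  refine ⟨max X₁ (max 3 (w ^ (2 * K * b))), fun X hX f h hf hh hsupp hexp => ?_⟩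
  have hX3 : 3 ≤ X := le_trans (le_trans (le_max_left _ _) (le_max_right _ _)) hX
  have hXw : w ^ (2 * K * b) ≤ X := le_trans (le_trans (le_max_right _ _) (le_max_right _ _)) hX
  obtain ⟨hXa, hXb⟩ := hX₁ X (le_trans (le_max_left _ _) hX)
  have hwX : w ≤ X := by
    refine le_trans ?_ hXw
    calc w = w ^ 1 := (pow_one w).symm
      _ ≤ w ^ (2 * K * b) := Nat.pow_le_pow_right (by omega) (by
          have : 1 ≤ K * b := Nat.mul_pos hK hb1
          nlinarith)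
  have hXr : (3 : ℝ) ≤ X := by exact_mod_cast hX3
  have hX0 : (0 : ℝ) < X := by linarith
  obtain ⟨z, hwz, hz1, hz2, hzc⟩ := exists_z hK hb1 hw2 hXw
  have hz2' : 2 ≤ z := hw2.trans hwz
  have hzr : (2 : ℝ) ≤ z := by exact_mod_cast hz2'
  have hzX : (z : ℝ) ≤ X := by
    refine hz2.trans ?_
    rw [Real.sqrt_le_left hX0.le]
    nlinarith
  have hVz : (V z)⁻¹ ≤ CV * Real.log X :=
    (hV z hz2').trans (mul_le_mul_of_nonneg_left (Real.log_le_log (by linarith) hzX) hCV.le)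
  have hE1 : 8 * (2 * (V w)⁻¹) ^ 4 * (CV + (V w)⁻¹) ^ 2 * Real.sqrt w * (Real.log X) ^ 6 ≤ X := by
    rw [← hW]
    have hM : 0 < 8 * (2 * W) ^ 4 * (CV + W) ^ 2 * Real.sqrt w := by
      have : 0 < Real.sqrt w := by linarith
      positivity
    have h1 := mul_le_mul_of_nonneg_left hXa hM.le
    rw [← mul_assoc, mul_one_div_cancel hM.ne', one_mul] at h1
    exact h1
  have hlX0 : 0 ≤ Real.log X := Real.log_natCast_nonneg X
  have hE2 : 32 * ((V w)⁻¹) ^ 2 * Real.sqrt (Real.sqrt w) * Real.log X ≤ Real.sqrt X := by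
    rw [← hW, ← hr]
    apply Real.le_sqrt_of_sq_le
    rw [mul_pow]
    have hM : 0 < (32 * W ^ 2 * r) ^ 2 := by positivity
    have h1 := mul_le_mul_of_nonneg_left hXb hM.le
    rw [← mul_assoc, mul_one_div_cancel hM.ne', one_mul] at h1
    exact h1
  have hcore := core (X := X) (w := w) (z := z) (b := b) (K := K) (f := f) (h := h) (C₁ := C₁)
    (CV := CV) (K₁ := K₁) hX3 hw2 hwz hwX hK hb1 hC₁ hCV hf hh hsupp hexp
    (fun d hd hdX => hcorr b hb1 w z hw2 hwz X d hd hdX) hpow hz1 hz2 hzc hVz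
    (fun D hD hDX => hah X D w h (by omega) hD hDX hh) hE1 hE2
  rw [← hC₃, ← hW, ← hr] at hcore
  have hfin : C₃ * (b * W ^ 2 / r) * X ^ 4 ≤ (ε * X ^ 2) ^ 2 := by
    have h1 : (b : ℝ) * W ^ 2 ≤ (3 * Real.log w) * (CV * Real.log w) ^ 2 :=
      mul_le_mul hb3 (pow_le_pow_left₀ (by linarith) hWle 2) (by positivity) (by positivity)
    have h2 : C₃ * (b * W ^ 2) ≤ ε ^ 2 * r := by
      refine le_trans (mul_le_mul_of_nonneg_left h1 hC₃0.le) ?_
      refine le_trans (le_of_eq ?_) hwmain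
      ring
    have h3 : C₃ * (b * W ^ 2 / r) ≤ ε ^ 2 := by
      rw [← mul_div_assoc, div_le_iff₀ hr0]
      exact h2
    calc C₃ * (b * W ^ 2 / r) * X ^ 4 ≤ ε ^ 2 * X ^ 4 :=
          mul_le_mul_of_nonneg_right h3 (by positivity)
      _ = (ε * X ^ 2) ^ 2 := by ring
  exact (abs_le_of_sq_le_sq' (hcore.trans hfin) (by positivity)).2

end Pool.Agent.Lib.GT
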