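import Pool.Agent.Lib.MP_7b7e48_nt.GT.Defs

/-!
# Module BM: multiples of a minor arc point

Elementary proof: if `𝓑` is the set of the bad `h` for one denominator `q` and two elements of `𝓑`
are close (distance `m`), then `b α` (`b = q m`) is close to an integer, and along each residue
class modulo `b` the points `q α h` move slowly and evenly round the circle.
-/

open Finset

namespace Pool.Agent.Lib.GT

theorem card_le_of_diam_int (A : Finset ℤ) (L : ℝ) (hL : 0 ≤ L)
    (h : ∀ a ∈ A, ∀ b ∈ A, (a : ℝ) - b ≤ L) : (A.card : ℝ) ≤ L + 1 := by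
  rcases A.eq_empty_or_nonempty with rfl | hA
  · simp only [Finset.card_empty, Nat.cast_zero]
    linarith
  · set m := A.min' hA with hm
    have hsub : A ⊆ Finset.Icc m (m + ⌊L⌋) := by
      intro a ha
      rw [Finset.mem_Icc]
      refine ⟨A.min'_le a ha, ?_⟩
      have h1 := h a ha m (A.min'_mem hA)
      have h2 : ((a - m : ℤ) : ℝ) ≤ L := by
        push_cast
        exact h1
      have h3 := Int.le_floor.mpr h2
      omega
    have h1 := Finset.card_le_card hsub
    rw [Int.card_Icc] at h1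
    have h2 : (0 : ℤ) ≤ ⌊L⌋ := Int.floor_nonneg.mpr hL
    have h4 : (A.card : ℤ) ≤ ⌊L⌋ + 1 := by omega
    have h5 : (A.card : ℝ) ≤ (⌊L⌋ : ℝ) + 1 := by exact_mod_cast h4
    linarith [Int.floor_le L]

theorem card_le_of_diam_nat (A : Finset ℕ) (L : ℝ) (hL : 0 ≤ L)
    (h : ∀ a ∈ A, ∀ b ∈ A, (a : ℝ) - b ≤ L) : (A.card : ℝ) ≤ L + 1 := by
  have h1 := card_le_of_diam_int (A.map ⟨fun n : ℕ => (n : ℤ), Nat.cast_injective⟩) L hL (by
    intro a ha b hb
    rw [Finset.mem_map] at ha hb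
    obtain ⟨a', ha', rfl⟩ := ha
    obtain ⟨b', hb', rfl⟩ := hb
    simpa using h a' ha' b' hb')
  rwa [Finset.card_map] at h1

theorem count_ap (A : Finset ℕ) (c s κ K : ℝ) (hs : s ≠ 0) (hκ : 0 ≤ κ) (hK : 0 ≤ K)
    (hA : ∀ k ∈ A, (k : ℝ) ≤ K) (g : ℕ → ℤ) (hg : ∀ k ∈ A, |c + s * k - g k| ≤ κ) :
    (A.card : ℝ) ≤ (|s| * K + 2 * κ + 1) * (2 * κ / |s| + 1) := by
  have hs' : 0 < |s| := abs_pos.mpr hs
  have h1 : ((A.image g).card : ℝ) ≤ |s| * K + 2 * κ + 1 := by
    apply card_le_of_diam_int _ _ (by positivity)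
    intro a ha b hb
    rw [Finset.mem_image] at ha hb
    obtain ⟨k, hk, rfl⟩ := ha
    obtain ⟨l, hl, rfl⟩ := hb
    have h2 := abs_le.mp (hg k hk)
    have h3 := abs_le.mp (hg l hl)
    have h4 : s * (k : ℝ) - s * l ≤ |s| * K := by
      rw [← mul_sub]
      have h5 : |(k : ℝ) - l| ≤ K := by
        rw [abs_le]
        have h6 := hA k hk
        have h7 := hA l hl
        have h8 : (0 : ℝ) ≤ k := Nat.cast_nonneg k
        have h9 : (0 : ℝ) ≤ l := Nat.cast_nonneg l
        constructor <;> linarith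
      calc s * ((k : ℝ) - l) ≤ |s * ((k : ℝ) - l)| := le_abs_self _
        _ = |s| * |(k : ℝ) - l| := abs_mul _ _
        _ ≤ |s| * K := mul_le_mul_of_nonneg_left h5 hs'.le
    linarith
  have h2 : ∀ n ∈ A.image g, ((A.filter fun k => g k = n).card : ℝ) ≤ 2 * κ / |s| + 1 := by
    intro n _
    apply card_le_of_diam_nat _ _ (by positivity)
    intro a ha b hb
    rw [Finset.mem_filter] at ha hb
    have h3 := abs_le.mp (hg a ha.1)
    have h4 := abs_le.mp (hg b hb.1)
    rw [ha.2] at h3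
    rw [hb.2] at h4
    rw [le_div_iff₀ hs']
    have h5 : |s * ((a : ℝ) - b)| ≤ 2 * κ := by
      rw [abs_le]
      constructor <;> linarith
    rw [abs_mul] at h5
    calc ((a : ℝ) - b) * |s| ≤ |(a : ℝ) - b| * |s| :=
          mul_le_mul_of_nonneg_right (le_abs_self _) hs'.le
      _ = |s| * |(a : ℝ) - b| := mul_comm _ _
      _ ≤ 2 * κ := h5
  have h3 : (A.card : ℝ) = ∑ n ∈ A.image g, ((A.filter fun k => g k = n).card : ℝ) := by
    exact_mod_cast Finset.card_eq_sum_card_image g A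
  rw [h3]
  calc ∑ n ∈ A.image g, ((A.filter fun k => g k = n).card : ℝ)
      ≤ ∑ _n ∈ A.image g, (2 * κ / |s| + 1) := Finset.sum_le_sum h2
    _ = (A.image g).card * (2 * κ / |s| + 1) := by rw [Finset.sum_const, nsmul_eq_mul]
    _ ≤ _ := mul_le_mul_of_nonneg_right h1 (by positivity)

/-- Sparse sets are small. -/
theorem card_le_of_gap (A : Finset ℕ) (H B : ℕ) (hB : 0 < B) (hA : ∀ h ∈ A, h ≤ H)
    (hgap : ∀ h ∈ A, ∀ h' ∈ A, h < h' → B ≤ h' - h) : (A.card : ℝ) ≤ H / B + 1 := by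
  have hinj : Set.InjOn (fun h => h / B) (A : Set ℕ) := by
    intro h hh h' hh' heq
    simp only at heq
    by_contra hne
    have key : ∀ x ∈ A, ∀ y ∈ A, x / B = y / B → x < y → False := by
      intro x hx y hy hxy hlt
      have h1 := hgap x hx y hy hlt
      have h2 := Nat.div_add_mod x B
      have h3 := Nat.div_add_mod y B
      have h4 := Nat.mod_lt x hB
      have h5 := Nat.mod_lt y hB
      rw [hxy] at h2
      omega
    rcases Nat.lt_or_gt_of_ne hne with hlt | hlt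
    · exact key h hh h' hh' heq hlt
    · exact key h' hh' h hh heq.symm hlt
  have h1 : A.card ≤ (Finset.range (H / B + 1)).card := by
    apply Finset.card_le_card_of_injOn (fun h => h / B) _ hinj
    intro h hh
    rw [Finset.mem_coe, Finset.mem_range]
    exact Nat.lt_succ_of_le (Nat.div_le_div_right (c := B) (hA h hh))
  rw [Finset.card_range] at h1
  have h2 : (A.card : ℝ) ≤ ((H / B : ℕ) : ℝ) + 1 := by exact_mod_cast h1
  have h3 : ((H / B : ℕ) : ℝ) ≤ (H : ℝ) / B := Nat.cast_div_le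
  linarith

/-- The bad `h` for a fixed denominator `q`. -/
theorem bad_fixed (q Q B : ℕ) (η : ℝ) (hq : 1 ≤ q) (hqQ : q ≤ Q) (hη : 0 < η) (hη1 : η ≤ 1) (hB : 2 / η ≤ B)
    (Q₁ H : ℕ) (M α : ℝ) (hQ₁ : 16 * B * Q ^ 2 / η ≤ Q₁) (hQ₁' : Q * B ≤ Q₁)
    (hM : 16 * Q ^ 3 / η ≤ M) (hH : 8 * Q * B / η ≤ H) (hmaj : ¬ Major Q₁ (H * M) α)
    (A : Finset ℕ) (hA : ∀ h ∈ A, h ≤ H)
    (hbad : ∀ h ∈ A, ∃ a : ℤ, |α * h - a / q| ≤ Q / M) : (A.card : ℝ) ≤ η * H := by
  have hq0 : (1 : ℝ) ≤ q := by exact_mod_cast hq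
  have hQ0 : (1 : ℝ) ≤ Q := by exact_mod_cast (hq.trans hqQ)
  have hqQ' : (q : ℝ) ≤ Q := by exact_mod_cast hqQ
  have hBpos : (0 : ℝ) < B := lt_of_lt_of_le (by positivity) hB
  have hBnat : 0 < B := by exact_mod_cast hBpos
  have hM0 : 0 < M := lt_of_lt_of_le (by positivity) hM
  have hH0 : (0 : ℝ) < H := lt_of_lt_of_le (by positivity) hH
  set κ : ℝ := Q ^ 2 / M with hκ
  have hκ0 : 0 < κ := by positivity
  have hbad' : ∀ h ∈ A, ∃ a : ℤ, |q * α * h - a| ≤ κ := by
    intro h hh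
    obtain ⟨a, ha⟩ := hbad h hh
    refine ⟨a, ?_⟩
    have h1 : (q : ℝ) * α * h - a = q * (α * h - a / q) := by
      field_simp
    rw [h1, abs_mul, abs_of_pos (by linarith : (0 : ℝ) < q)]
    calc (q : ℝ) * |α * h - a / q| ≤ Q * (Q / M) :=
          mul_le_mul hqQ' ha (abs_nonneg _) (by linarith)
      _ = κ := by rw [hκ]; ring
  by_cases hgap : ∀ h ∈ A, ∀ h' ∈ A, h < h' → B ≤ h' - h
  · -- sparse
    have h1 := card_le_of_gap A H B hBnat hA hgap
    have h2 : (H : ℝ) / B ≤ η * H / 2 := by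
      rw [div_le_iff₀ hBpos]
      rw [div_le_iff₀ hη] at hB
      nlinarith
    have h3 : 1 ≤ η * H / 2 := by
      rw [div_le_iff₀ hη] at hH hB
      have : (1 : ℝ) ≤ B := by exact_mod_cast hBnat
      nlinarith
    linarith
  · push Not at hgap
    obtain ⟨h₁, hh₁, h₂, hh₂, hlt, hm⟩ := hgap
    obtain ⟨a₁, ha₁⟩ := hbad' h₁ hh₁
    obtain ⟨a₂, ha₂⟩ := hbad' h₂ hh₂
    set m := h₂ - h₁ with hmdef
    have hm1 : 1 ≤ m := by omega
    have hmB : (m : ℝ) ≤ B := by exact_mod_cast hm.le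
    have hmr : (m : ℝ) = h₂ - h₁ := by
      rw [hmdef, Nat.cast_sub hlt.le]
    have hm1' : (1 : ℝ) ≤ m := by exact_mod_cast hm1
    set b := q * m with hb
    have hb1 : 1 ≤ b := Nat.mul_pos hq hm1
    have hbr : (b : ℝ) = q * m := by rw [hb]; push_cast; ring
    have hb1' : (1 : ℝ) ≤ b := by exact_mod_cast hb1
    have hbQB : b ≤ Q * B := Nat.mul_le_mul hqQ hm.le
    set β : ℝ := b * α - ((a₂ - a₁ : ℤ) : ℝ) with hβ
    have hβ2 : |β| ≤ 2 * κ := by
      have h1 := abs_le.mp ha₁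
      have h2 := abs_le.mp ha₂
      rw [hβ, hbr, hmr]
      push_cast
      rw [abs_le]
      constructor <;> linarith
    -- `β` is not too small
    have hβbig : 16 * B / η * κ / H < |β| := by
      by_contra hcon
      push Not at hcon
      apply hmaj
      refine ⟨b, hb1, hbQB.trans hQ₁', a₂ - a₁, ?_⟩
      have h1 : α - ((a₂ - a₁ : ℤ) : ℝ) / (b : ℝ) = β / b := by
        rw [hβ]
        field_simp
      rw [h1, abs_div, abs_of_pos (by linarith : (0 : ℝ) < b)]
      calc |β| / b ≤ |β| := div_le_self (abs_nonneg _) hb1'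
        _ ≤ 16 * B / η * κ / H := hcon
        _ = (16 * B * Q ^ 2 / η) / (H * M) := by rw [hκ]; field_simp
        _ ≤ Q₁ / (H * M) := div_le_div_of_nonneg_right hQ₁ (by positivity)
    have hβ0 : 0 < |β| := lt_trans (by positivity) hβbig
    set s : ℝ := q * β with hs
    have hs0 : s ≠ 0 := by
      rw [hs]
      exact mul_ne_zero (by linarith) (abs_pos.mp hβ0)
    have hsabs : |s| = q * |β| := by rw [hs, abs_mul, abs_of_pos (by linarith : (0 : ℝ) < q)]
    have hclass : ∀ r ∈ Finset.range b, ((A.filter fun h => h % b = r).card : ℝ) ≤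
        (|s| * (H / b) + 2 * κ + 1) * (2 * κ / |s| + 1) := by
      intro r _
      have hinj : Set.InjOn (fun h => h / b) ((A.filter fun h => h % b = r) : Set ℕ) := by
        intro x hx y hy hxy
        rw [Finset.mem_coe, Finset.mem_filter] at hx hy
        have h1 := Nat.div_add_mod x b
        have h2 := Nat.div_add_mod y b
        simp only at hxy
        rw [← h1, ← h2, hxy, hx.2, hy.2]
      rw [← Finset.card_image_of_injOn hinj]
      have hch : ∀ k, ∃ a : ℤ, k ∈ (A.filter fun h => h % b = r).image (fun h => h / b) →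
          |q * α * (r + b * k : ℕ) - a| ≤ κ := by
        intro k
        by_cases hk : k ∈ (A.filter fun h => h % b = r).image (fun h => h / b)
        · rw [Finset.mem_image] at hk
          obtain ⟨h, hh, hk2⟩ := hk
          rw [Finset.mem_filter] at hh
          have h1 := Nat.div_add_mod h b
          rw [hk2, hh.2] at h1
          obtain ⟨a, ha⟩ := hbad' h hh.1
          refine ⟨a, fun _ => ?_⟩
          rw [add_comm r, h1]
          exact ha
        · exact ⟨0, fun h => absurd h hk⟩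
      choose a ha using hch
      apply count_ap _ (q * α * r) s κ (H / b) hs0 hκ0.le (by positivity) _
        (fun k => a k - q * k * (a₂ - a₁))
      · intro k hk
        have h1 := ha k hk
        have h2 : (q : ℝ) * α * r + s * k - ((a k - q * k * (a₂ - a₁) : ℤ) : ℝ) =
            q * α * (r + b * k : ℕ) - a k := by
          rw [hs, hβ]
          push_cast
          ring
        rw [h2]
        exact h1
      · intro k hk
        rw [Finset.mem_image] at hk
        obtain ⟨h, hh, rfl⟩ := hk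
        rw [Finset.mem_filter] at hh
        calc ((h / b : ℕ) : ℝ) ≤ (h : ℝ) / b := Nat.cast_div_le
          _ ≤ H / b := div_le_div_of_nonneg_right (by exact_mod_cast hA h hh.1) (by linarith)
    have hsum : (A.card : ℝ) = ∑ r ∈ Finset.range b, ((A.filter fun h => h % b = r).card : ℝ) := by
      have := Finset.card_eq_sum_card_fiberwise (s := A) (t := Finset.range b)
        (f := fun h => h % b) (fun h _ => Finset.mem_coe.mpr
          (Finset.mem_range.mpr (Nat.mod_lt h hb1)))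
      exact_mod_cast this
    have htot : (A.card : ℝ) ≤ b * ((|s| * (H / b) + 2 * κ + 1) * (2 * κ / |s| + 1)) := by
      rw [hsum]
      calc _ ≤ ∑ _r ∈ Finset.range b, ((|s| * (H / b) + 2 * κ + 1) * (2 * κ / |s| + 1)) :=
            Finset.sum_le_sum hclass
        _ = _ := by rw [Finset.sum_const, Finset.card_range, nsmul_eq_mul]
    have hκη : κ ≤ η / (16 * Q) := by
      rw [hκ, div_le_div_iff₀ hM0 (by positivity)]
      rw [div_le_iff₀ hη] at hM
      have : (Q : ℝ) ^ 2 * (16 * Q) = 16 * Q ^ 3 := by ring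
      rw [this]
      linarith
    have hκQ : κ * Q ≤ η / 16 := by
      rw [le_div_iff₀ (by positivity)] at hκη
      linarith
    have hκ16 : κ ≤ η / 16 := by nlinarith
    have e1 : 2 * κ * H ≤ η * H / 8 := by nlinarith
    have e2 : |s| * H ≤ η * H / 8 := by
      have h1 : |s| ≤ η / 8 := by
        rw [hsabs]
        calc (q : ℝ) * |β| ≤ Q * (2 * κ) := mul_le_mul hqQ' hβ2 (abs_nonneg _) (by linarith)
          _ ≤ η / 8 := by linarith
      nlinarith
    have hs1 : 0 < |s| := abs_pos.mpr hs0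
    have e3 : (b : ℝ) * (2 * κ / |s|) ≤ η * H / 8 := by
      have h1 : q * (16 * B * κ) < |s| * (η * H) := by
        rw [hsabs]
        have h2 : 16 * B / η * κ / H * (η * H) < |β| * (η * H) :=
          mul_lt_mul_of_pos_right hβbig (by positivity)
        have h3 : 16 * B / η * κ / H * (η * H) = 16 * B * κ := by field_simp
        rw [h3] at h2
        nlinarith
      rw [mul_div_assoc', div_le_iff₀ hs1, hbr]
      have h2 : (m : ℝ) * κ ≤ B * κ := mul_le_mul_of_nonneg_right hmB hκ0.le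
      nlinarith
    have e4 : (b : ℝ) ≤ η * H / 8 := by
      have h1 : (b : ℝ) ≤ Q * B := by exact_mod_cast hbQB
      rw [div_le_iff₀ hη] at hH
      linarith
    have hκ1 : 2 * κ + 1 ≤ 2 := by linarith
    have hexp : (b : ℝ) * ((|s| * (H / b) + 2 * κ + 1) * (2 * κ / |s| + 1)) =
        2 * κ * H + |s| * H + (2 * κ + 1) * (b * (2 * κ / |s|)) + (2 * κ + 1) * b := by
      field_simp
      ring
    rw [hexp] at htot
    have e5 : (2 * κ + 1) * (b * (2 * κ / |s|)) ≤ 2 * (b * (2 * κ / |s|)) :=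
      mul_le_mul_of_nonneg_right hκ1 (by positivity)
    have e6 : (2 * κ + 1) * (b : ℝ) ≤ 2 * b := mul_le_mul_of_nonneg_right hκ1 (by positivity)
    have e7 : 0 ≤ η * H := by positivity
    linarith

open Classical in
theorem bad_multiples : ∀ (Q : ℕ) (ε : ℝ), 1 ≤ Q → 0 < ε → ∃ Q₁ H₀ : ℕ, ∀ (H : ℕ) (M α : ℝ),
    H₀ ≤ H → (H₀ : ℝ) ≤ M → ¬ Major Q₁ (H * M) α →
      (((Finset.Icc 1 H).filter (fun h : ℕ => Major Q M (α * h))).card : ℝ) ≤ ε * H := by
  intro Q ε hQ hε
  have hQ0 : (1 : ℝ) ≤ Q := by exact_mod_cast hQ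
  set η : ℝ := min (ε / Q) 1 with hη
  have hη0 : 0 < η := lt_min (by positivity) one_pos
  have hη1 : η ≤ 1 := min_le_right _ _
  have hηε : η ≤ ε / Q := min_le_left _ _
  obtain ⟨B, hB⟩ := exists_nat_ge (2 / η)
  obtain ⟨Q₁, hQ₁⟩ := exists_nat_ge (16 * B * (Q : ℝ) ^ 2 / η + Q * B)
  obtain ⟨H₀, hH₀⟩ := exists_nat_ge (16 * (Q : ℝ) ^ 3 / η + 8 * Q * B / η)
  refine ⟨Q₁, H₀, ?_⟩
  intro H M α hH hM hmaj
  have p1 : 0 ≤ 16 * B * (Q : ℝ) ^ 2 / η := by positivity
  have p2 : 0 ≤ (Q : ℝ) * B := by positivity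
  have p3 : 0 ≤ 16 * (Q : ℝ) ^ 3 / η := by positivity
  have p4 : 0 ≤ 8 * (Q : ℝ) * B / η := by positivity
  have hH' : (H₀ : ℝ) ≤ H := by exact_mod_cast hH
  have key : ∀ q ∈ Finset.Icc 1 Q, (((Finset.Icc 1 H).filter
      (fun h : ℕ => ∃ a : ℤ, |α * h - a / q| ≤ Q / M)).card : ℝ) ≤ η * H := by
    intro q hq
    rw [Finset.mem_Icc] at hq
    apply bad_fixed q Q B η hq.1 hq.2 hη0 hη1 hB Q₁ H M α (by linarith)
      (by
        have : ((Q * B : ℕ) : ℝ) ≤ Q₁ := by push_cast; linarith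
        exact_mod_cast this)
      (by linarith) (by linarith) hmaj
    · intro h hh
      exact (Finset.mem_Icc.mp (Finset.mem_filter.mp hh).1).2
    · intro h hh
      exact (Finset.mem_filter.mp hh).2
  have hsub : (Finset.Icc 1 H).filter (fun h : ℕ => Major Q M (α * h)) ⊆
      (Finset.Icc 1 Q).biUnion fun q => (Finset.Icc 1 H).filter
        (fun h : ℕ => ∃ a : ℤ, |α * h - a / q| ≤ Q / M) := by
    intro h hh
    rw [Finset.mem_filter] at hh
    obtain ⟨hh1, q, hq1, hq2, a, ha⟩ := hh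
    rw [Finset.mem_biUnion]
    exact ⟨q, Finset.mem_Icc.mpr ⟨hq1, hq2⟩, Finset.mem_filter.mpr ⟨hh1, a, ha⟩⟩
  have h1 : (((Finset.Icc 1 H).filter (fun h : ℕ => Major Q M (α * h))).card : ℝ) ≤
      ∑ q ∈ Finset.Icc 1 Q, (((Finset.Icc 1 H).filter
      (fun h : ℕ => ∃ a : ℤ, |α * h - a / q| ≤ Q / M)).card : ℝ) := by
    exact_mod_cast (Finset.card_le_card hsub).trans Finset.card_biUnion_le
  calc _ ≤ _ := h1
    _ ≤ ∑ _q ∈ Finset.Icc 1 Q, η * H := Finset.sum_le_sum key
    _ = Q * (η * H) := by rw [Finset.sum_const, Nat.card_Icc, nsmul_eq_mul]; simp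
    _ ≤ ε * H := by
      have h2 : (Q : ℝ) * η ≤ ε := by
        rw [le_div_iff₀ (by linarith)] at hηε
        linarith
      have h3 : (0 : ℝ) ≤ H := Nat.cast_nonneg H
      nlinarith

end Pool.Agent.Lib.GT
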