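import Pool.Agent.Lib.MP_7b7e48_nt.GT.MinorDiff

/-!
# Goldbach-Turan, module MA: sum over blocks, partial summation, assembly
-/

open Finset

namespace Pool.Agent.Lib.GT.MA

/-- the end points of the blocks -/
noncomputable def bseq (η : ℝ) (z : ℕ) : ℕ → ℕ
  | 0 => z
  | i + 1 => bseq η z i + ⌊η * bseq η z i⌋₊

theorem bseq_succ (η : ℝ) (z i : ℕ) : bseq η z (i + 1) = bseq η z i + ⌊η * bseq η z i⌋₊ := rfl

theorem le_bseq (η : ℝ) (z i : ℕ) : z ≤ bseq η z i := by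
  induction i with
  | zero => exact le_rfl
  | succ i ih => rw [bseq_succ]; omega

theorem half_le_floor {x : ℝ} (hx : 2 ≤ x) : x / 2 ≤ ⌊x⌋₊ := by
  have := Nat.lt_floor_add_one x
  linarith

theorem bseq_H (η : ℝ) (z i : ℕ) (hη : 0 < η) (hz : 2 ≤ η * z) :
    η * bseq η z i / 2 ≤ ⌊η * bseq η z i⌋₊ := by
  apply half_le_floor
  have : (z : ℝ) ≤ bseq η z i := by exact_mod_cast le_bseq η z i
  exact hz.trans (mul_le_mul_of_nonneg_left this hη.le)

theorem bseq_ge (η : ℝ) (z i : ℕ) (hη : 0 < η) (hz : 2 ≤ η * z) :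
    (1 + η / 2) ^ i * z ≤ bseq η z i := by
  induction i with
  | zero => simp [bseq]
  | succ i ih =>
    rw [bseq_succ]
    push_cast
    have h := bseq_H η z i hη hz
    calc (1 + η / 2) ^ (i + 1) * z = (1 + η / 2) * ((1 + η / 2) ^ i * z) := by ring
      _ ≤ (1 + η / 2) * bseq η z i := mul_le_mul_of_nonneg_left ih (by positivity)
      _ = bseq η z i + η * bseq η z i / 2 := by ring
      _ ≤ _ := by linarith

theorem sum_blocks (η : ℝ) (z I : ℕ) (F : ℕ → ℂ) :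
    ∑ p ∈ (Finset.Ioc z (bseq η z I)).filter Nat.Prime, F p =
      ∑ i ∈ Finset.range I, ∑ p ∈ (Finset.Ioc (bseq η z i)
        (bseq η z i + ⌊η * bseq η z i⌋₊)).filter Nat.Prime, F p := by
  induction I with
  | zero => simp [bseq]
  | succ I ih =>
    rw [Finset.sum_range_succ, ← ih]
    rw [Finset.sum_filter, Finset.sum_filter, Finset.sum_filter, ← bseq_succ]
    exact (Finset.sum_Ioc_consecutive _ (le_bseq η z I) (by rw [bseq_succ]; omega)).symm

/-- number of blocks -/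
theorem exists_blocks (η : ℝ) (hη : 0 < η) (hη1 : η ≤ 1) (z X : ℕ) (hz : 2 ≤ η * z)
    (hX : Real.exp 1 ≤ X) :
    ∃ I : ℕ, X < (bseq η z I + 1) ^ 2 ∧ (∀ i < I, (bseq η z i) ^ 2 ≤ X) ∧
      (I : ℝ) ≤ 3 * Real.log X / η := by
  classical
  have hX0 : (0 : ℝ) < X := (Real.exp_pos 1).trans_le hX
  have hL1 : 1 ≤ Real.log X := by
    rw [← Real.log_exp 1]
    exact Real.log_le_log (Real.exp_pos 1) hX
  have hz0 : (0 : ℝ) < z := by
    have : 0 < η * z := by linarith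
    exact (mul_pos_iff_of_pos_left hη).mp this
  have hz1 : (1 : ℝ) ≤ z := by exact_mod_cast (by exact_mod_cast hz0 : 0 < z)
  have hbound : ∀ i : ℕ, (bseq η z i) ^ 2 ≤ X → (i : ℝ) ≤ 2 * Real.log X / η := by
    intro i hi
    have h1 := bseq_ge η z i hη hz
    have h2 : ((1 + η / 2) ^ i) ^ 2 ≤ (X : ℝ) := by
      have h3 : (1 + η / 2) ^ i ≤ bseq η z i := by
        refine le_trans ?_ h1
        have : 0 ≤ (1 + η / 2) ^ i := by positivity
        nlinarith
      calc ((1 + η / 2) ^ i) ^ 2 ≤ (bseq η z i : ℝ) ^ 2 := pow_le_pow_left₀ (by positivity) h3 2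
        _ ≤ X := by exact_mod_cast hi
    have h4 := Real.log_le_log (by positivity) h2
    rw [Real.log_pow, Real.log_pow] at h4
    have h5 : η / 4 ≤ Real.log (1 + η / 2) := by
      have h6 := Real.one_sub_inv_le_log_of_pos (show 0 < 1 + η / 2 by positivity)
      refine le_trans ?_ h6
      have h7 : 1 - (1 + η / 2)⁻¹ = η / (2 + η) := by field_simp; ring
      rw [h7, div_le_div_iff₀ (by norm_num) (by positivity)]
      nlinarith
    rw [le_div_iff₀ hη]
    have hi0 : (0 : ℝ) ≤ i := Nat.cast_nonneg i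
    have h8 : (i : ℝ) * (η / 4) ≤ i * Real.log (1 + η / 2) := mul_le_mul_of_nonneg_left h5 hi0
    push_cast at h4
    nlinarith
  have hex : ∃ i, X < (bseq η z i + 1) ^ 2 := by
    by_contra hc
    push Not at hc
    obtain ⟨i, hi⟩ := exists_nat_gt (2 * Real.log X / η)
    have : (bseq η z i) ^ 2 ≤ X :=
      (Nat.pow_le_pow_left (Nat.le_succ _) 2).trans (hc i)
    exact absurd (hbound i this) (not_le.mpr hi)
  refine ⟨Nat.find hex, Nat.find_spec hex, ?_, ?_⟩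
  · intro i hi
    have := Nat.find_min hex hi
    push Not at this
    exact (Nat.pow_le_pow_left (Nat.le_succ _) 2).trans this
  · rcases Nat.eq_zero_or_pos (Nat.find hex) with h0 | hpos
    · rw [h0]
      push_cast
      positivity
    · have hlt : Nat.find hex - 1 < Nat.find hex := by omega
      have h1 := Nat.find_min hex hlt
      push Not at h1
      have h2 := hbound _ ((Nat.pow_le_pow_left (Nat.le_succ _) 2).trans h1)
      have h3 : ((Nat.find hex : ℕ) : ℝ) = ((Nat.find hex - 1 : ℕ) : ℝ) + 1 := by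
        rw [Nat.cast_sub hpos]
        simp
      rw [h3]
      have h4 : 1 ≤ Real.log X / η := by
        rw [le_div_iff₀ hη]
        linarith
      calc _ ≤ 2 * Real.log X / η + Real.log X / η := add_le_add h2 h4
        _ = _ := by ring

/-- the bilinear part is small on the minor arcs -/
theorem type_two_of (hRC : RoughCount) (hRE : RoughExp) (hBM : BadMultiples) (δ ε : ℝ) (hδ : 0 < δ)
    (hδ4 : δ ≤ 1 / 4) (hε : 0 < ε) : ∃ Q X₀ : ℕ, ∀ X : ℕ, X₀ ≤ X → ∀ α : ℝ, ¬ Major Q X α →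
      ∃ N : ℕ, X < (N + 1) ^ 2 ∧
      ‖∑ p ∈ (Finset.Ioc ⌊(X : ℝ) ^ δ⌋₊ N).filter Nat.Prime,
        ∑ m ∈ (Finset.Icc 2 (X / p)).filter (Rough (p - 1)), e (α * ((p : ℝ) * (m : ℝ)))‖ ≤
        ε * X / Real.log X := by
  obtain ⟨C₅, hC₅, hdiff⟩ := block_diff hRC
  set η := min 1 (ε * δ ^ 2 / (6 * C₅)) with hη
  have hη0 : 0 < η := lt_min one_pos (by positivity)
  have hη1 : η ≤ 1 := min_le_left _ _
  have hηε : η ≤ ε * δ ^ 2 / (6 * C₅) := min_le_right _ _
  obtain ⟨Q, Xa, hblock⟩ := block_bound_of hRC hRE hBM δ η (ε * η / 6) hδ hη0 hη1 (by positivity)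
  obtain ⟨Xb, hdiff⟩ := hdiff δ η hδ hδ4 hη0 hη1
  obtain ⟨Xc, hXc⟩ := ev_ge δ (2 / η + 1) hδ
  refine ⟨Q, max Xa (max Xb (max Xc 3)), ?_⟩
  intro X hX α hα
  have hXc' := hXc X (by omega)
  have hX3 : 3 ≤ X := by omega
  have hXr : (3 : ℝ) ≤ X := by exact_mod_cast hX3
  have hexp : Real.exp 1 ≤ X := by
    have := Real.exp_one_lt_d9
    linarith
  have hL0 : 0 < Real.log X := Real.log_pos (by linarith)
  set z := ⌊(X : ℝ) ^ δ⌋₊ with hz
  have hz2 : 2 ≤ η * z := by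
    have h1 : (X : ℝ) ^ δ < z + 1 := Nat.lt_floor_add_one _
    have h2 : 2 / η ≤ z := by linarith
    rwa [div_le_iff₀' hη0] at h2
  obtain ⟨I, hI1, hI2, hI3⟩ := exists_blocks η hη0 hη1 z X hz2 hexp
  refine ⟨bseq η z I, hI1, ?_⟩
  rw [sum_blocks]
  refine (norm_sum_le _ _).trans ?_
  have hpt : ∀ i ∈ Finset.range I, ‖∑ p ∈ (Finset.Ioc (bseq η z i)
        (bseq η z i + ⌊η * bseq η z i⌋₊)).filter Nat.Prime,
        ∑ m ∈ (Finset.Icc 2 (X / p)).filter (Rough (p - 1)), e (α * ((p : ℝ) * (m : ℝ)))‖ ≤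
      η * ε / 3 * X / (Real.log X) ^ 2 := by
    intro i hi
    rw [Finset.mem_range] at hi
    have hP2 := hI2 i hi
    have hP1 : ⌊(X : ℝ) ^ δ⌋₊ ≤ bseq η z i := le_bseq η z i
    have hH1 := bseq_H η z i hη0 hz2
    have hH2 : ((⌊η * bseq η z i⌋₊ : ℕ) : ℝ) ≤ η * bseq η z i := Nat.floor_le (by positivity)
    have b1 := hblock X (by omega) α hα (bseq η z i) ⌊η * bseq η z i⌋₊ hP1 hP2 hH1 hH2
    have b2 := hdiff X (by omega) α (bseq η z i) ⌊η * bseq η z i⌋₊ hP1 hP2 hH1 hH2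
    have b3 := norm_le_norm_add_norm_sub' (∑ p ∈ (Finset.Ioc (bseq η z i)
        (bseq η z i + ⌊η * bseq η z i⌋₊)).filter Nat.Prime,
        ∑ m ∈ (Finset.Icc 2 (X / p)).filter (Rough (p - 1)), e (α * ((p : ℝ) * (m : ℝ))))
        (∑ p ∈ (Finset.Ioc (bseq η z i)
        (bseq η z i + ⌊η * bseq η z i⌋₊)).filter Nat.Prime,
        ∑ m ∈ (Finset.Icc 1 (X / (bseq η z i + ⌊η * bseq η z i⌋₊))).filter
          (Rough (bseq η z i + ⌊η * bseq η z i⌋₊)), e (α * ((p : ℝ) * (m : ℝ))))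
    have b4 : C₅ * η ^ 2 * X / (δ ^ 2 * (Real.log X) ^ 2) ≤ ε * η / 6 * X / (Real.log X) ^ 2 := by
      have e1 : C₅ * η ^ 2 * X / (δ ^ 2 * (Real.log X) ^ 2) =
          (C₅ * η / δ ^ 2) * (η * X / (Real.log X) ^ 2) := by field_simp
      have e2 : C₅ * η / δ ^ 2 ≤ ε / 6 := by
        calc C₅ * η / δ ^ 2 ≤ C₅ * (ε * δ ^ 2 / (6 * C₅)) / δ ^ 2 := by gcongr
          _ = ε / 6 := by field_simp
      rw [e1]
      calc _ ≤ ε / 6 * (η * X / (Real.log X) ^ 2) :=
            mul_le_mul_of_nonneg_right e2 (by positivity)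
        _ = _ := by ring
    calc _ ≤ _ := b3
      _ ≤ ε * η / 6 * X / (Real.log X) ^ 2 + ε * η / 6 * X / (Real.log X) ^ 2 :=
          add_le_add b1 (b2.trans b4)
      _ = _ := by ring
  refine (Finset.sum_le_sum hpt).trans ?_
  rw [Finset.sum_const, nsmul_eq_mul, Finset.card_range]
  calc (I : ℝ) * (η * ε / 3 * X / (Real.log X) ^ 2)
      ≤ (3 * Real.log X / η) * (η * ε / 3 * X / (Real.log X) ^ 2) :=
        mul_le_mul_of_nonneg_right hI3 (by positivity)
    _ = _ := by field_simp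

/-- exponential sums over primes, without weights -/
theorem prime_exp_of (hRC : RoughCount) (hRE : RoughExp) (hBM : BadMultiples) (ε : ℝ)
    (hε : 0 < ε) : ∃ Q X₀ : ℕ, ∀ X : ℕ, X₀ ≤ X → ∀ α : ℝ, ¬ Major Q X α →
      ‖∑ p ∈ (Finset.Icc 1 X).filter Nat.Prime, e (α * p)‖ ≤ ε * X / Real.log X := by
  obtain ⟨δ₀, hδ₀, hRE'⟩ := hRE (ε / 4) (by positivity)
  set δ := min δ₀ (1 / 4) with hδ
  have hδ0 : 0 < δ := lt_min hδ₀ (by norm_num)
  have hδ4 : δ ≤ 1 / 4 := min_le_right _ _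
  obtain ⟨Q₁, M₀, hRE'⟩ := hRE' δ hδ0 (min_le_left _ _)
  obtain ⟨Q₂, Xa, hII⟩ := type_two_of hRC hRE hBM δ (ε / 4) hδ0 hδ4 (by positivity)
  obtain ⟨Xb, hXb⟩ := ev_ge (1 / 2) (16 / ε) (by norm_num)
  refine ⟨max Q₁ Q₂, max M₀ (max Xa (max Xb 3)), ?_⟩
  intro X hX α hα
  have hX3 : 3 ≤ X := by omega
  have hXr : (3 : ℝ) ≤ X := by exact_mod_cast hX3
  have hX0 : (0 : ℝ) < X := by linarith
  have hX1 : (1 : ℝ) ≤ X := by linarith
  have hL0 : 0 < Real.log X := Real.log_pos (by linarith)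
  have hXb' := hXb X (by omega)
  have hα1 : ¬ Major Q₁ X α := fun h => hα (Major.mono (le_max_left _ _) (by
    gcongr
    exact le_max_left _ _) h)
  have hα2 : ¬ Major Q₂ X α := fun h => hα (Major.mono (le_max_right _ _) (by
    gcongr
    exact le_max_right _ _) h)
  have h1 := hRE' X (by omega) α hα1
  obtain ⟨N, hN, h2⟩ := hII X (by omega) α hα2
  set z := ⌊(X : ℝ) ^ δ⌋₊ with hz
  have hzr : (z : ℝ) ≤ (X : ℝ) ^ (1 / 4 : ℝ) := by
    refine (Nat.floor_le (by positivity)).trans ?_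
    exact Real.rpow_le_rpow_of_exponent_le hX1 hδ4
  have hzX : z ≤ X := by
    have : (z : ℝ) ≤ X := by
      refine hzr.trans ?_
      calc (X : ℝ) ^ (1 / 4 : ℝ) ≤ (X : ℝ) ^ (1 : ℝ) :=
            Real.rpow_le_rpow_of_exponent_le hX1 (by norm_num)
        _ = X := Real.rpow_one _
    exact_mod_cast this
  have hB := buchstab (fun n => e (α * n)) z N X (by omega) hN
  simp only [Nat.cast_mul, Nat.cast_one, mul_one] at hB
  have hsplit : ∑ p ∈ (Finset.Icc 1 X).filter Nat.Prime, e (α * p) =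
      ∑ p ∈ (Finset.Icc 1 z).filter Nat.Prime, e (α * p) +
      ∑ p ∈ (Finset.Ioc z X).filter Nat.Prime, e (α * p) := by
    rw [Finset.sum_filter, Finset.sum_filter, Finset.sum_filter]
    have e1 : Finset.Icc 1 X = Finset.Ioc 0 X := by ext x; simp [Finset.mem_Icc, Finset.mem_Ioc]; omega
    have e2 : Finset.Icc 1 z = Finset.Ioc 0 z := by ext x; simp [Finset.mem_Icc, Finset.mem_Ioc]; omega
    rw [e1, e2]
    exact (Finset.sum_Ioc_consecutive _ (Nat.zero_le z) hzX).symm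
  have hsmall : ‖∑ p ∈ (Finset.Icc 1 z).filter Nat.Prime, e (α * p)‖ ≤ z := by
    refine (norm_sum_le _ _).trans ?_
    rw [Finset.sum_congr rfl fun m _ => norm_e _]
    simp only [Finset.sum_const, nsmul_eq_mul, mul_one]
    have : ((Finset.Icc 1 z).filter Nat.Prime).card ≤ z :=
      (Finset.card_filter_le _ _).trans (by simp)
    exact_mod_cast this
  have hmid : ∑ p ∈ (Finset.Ioc z X).filter Nat.Prime, e (α * p) =
      ∑ n ∈ (Finset.Icc 1 X).filter (Rough z), e (α * n) - e α -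
      ∑ p ∈ (Finset.Ioc z N).filter Nat.Prime,
        ∑ m ∈ (Finset.Icc 2 (X / p)).filter (Rough (p - 1)), e (α * ((p : ℝ) * (m : ℝ))) := by
    rw [hB]
    ring
  have hmidn : ‖∑ p ∈ (Finset.Ioc z X).filter Nat.Prime, e (α * p)‖ ≤
      ε / 4 * X / Real.log X + 1 + ε / 4 * X / Real.log X := by
    rw [hmid]
    refine (norm_sub_le _ _).trans (add_le_add ((norm_sub_le _ _).trans (add_le_add h1 ?_)) h2)
    exact (norm_e _).le
  have hlog : Real.log X ≤ 4 * (X : ℝ) ^ (1 / 4 : ℝ) := by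
    have h3 := Real.log_le_sub_one_of_pos (show 0 < (X : ℝ) ^ (1 / 4 : ℝ) by positivity)
    rw [Real.log_rpow hX0] at h3
    linarith
  have hY1 : 1 ≤ (X : ℝ) ^ (1 / 4 : ℝ) := Real.one_le_rpow hX1 (by norm_num)
  have hfin : (z : ℝ) + 1 ≤ ε / 2 * X / Real.log X := by
    rw [le_div_iff₀ hL0]
    have hsq : (X : ℝ) ^ (1 / 4 : ℝ) * (X : ℝ) ^ (1 / 4 : ℝ) = (X : ℝ) ^ (1 / 2 : ℝ) := by
      rw [← Real.rpow_add hX0]; norm_num
    have hsq2 : (X : ℝ) ^ (1 / 2 : ℝ) * (X : ℝ) ^ (1 / 2 : ℝ) = X := by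
      rw [← Real.rpow_add hX0]; norm_num
    have h4 : 16 ≤ ε * (X : ℝ) ^ (1 / 2 : ℝ) := by
      rwa [div_le_iff₀' hε] at hXb'
    calc ((z : ℝ) + 1) * Real.log X
        ≤ (2 * (X : ℝ) ^ (1 / 4 : ℝ)) * (4 * (X : ℝ) ^ (1 / 4 : ℝ)) := by
          refine mul_le_mul (by linarith) hlog hL0.le (by positivity)
      _ = 16 * (X : ℝ) ^ (1 / 2 : ℝ) / 2 := by rw [← hsq]; ring
      _ ≤ (ε * (X : ℝ) ^ (1 / 2 : ℝ)) * (X : ℝ) ^ (1 / 2 : ℝ) / 2 := by gcongr
      _ = ε / 2 * X := by rw [mul_assoc, hsq2]; ring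
  rw [hsplit]
  calc _ ≤ _ := norm_add_le _ _
    _ ≤ z + (ε / 4 * X / Real.log X + 1 + ε / 4 * X / Real.log X) := add_le_add hsmall hmidn
    _ = ((z : ℝ) + 1) + ε / 2 * X / Real.log X := by ring
    _ ≤ ε / 2 * X / Real.log X + ε / 2 * X / Real.log X := by linarith
    _ = _ := by ring

/-- the primes have on average logarithm `log X` -/
theorem log_defect (ε : ℝ) (hε : 0 < ε) : ∃ X₀ : ℕ, ∀ X : ℕ, X₀ ≤ X →
    ∑ p ∈ (Finset.Icc 1 X).filter Nat.Prime, (Real.log X - Real.log p) ≤ ε * X := by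
  obtain ⟨C₁, hC₁, hpc⟩ := prime_count
  set K := ⌈4 * C₁ / ε⌉₊ + 1 with hK
  have hK1 : 1 ≤ K := by omega
  have hKr : 4 * C₁ / ε ≤ K := by
    rw [hK]
    push_cast
    have := Nat.le_ceil (4 * C₁ / ε)
    linarith
  have hK0 : (0 : ℝ) < K := by exact_mod_cast hK1
  have hlogK : 0 ≤ Real.log K := Real.log_natCast_nonneg K
  obtain ⟨Xa, hXa⟩ := ev_ge (1 / 2) (2 * K) (by norm_num)
  obtain ⟨Xb, hXb⟩ := Filter.eventually_atTop.mp ((Real.tendsto_log_atTop.comp
    tendsto_natCast_atTop_atTop).eventually_ge_atTop (2 * C₁ * Real.log K / ε))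
  refine ⟨max Xa (max Xb 2), fun X hX => ?_⟩
  have hXa' := hXa X (by omega)
  have hXb' := hXb X (by omega)
  have hX2 : 2 ≤ X := by omega
  have hXr : (2 : ℝ) ≤ X := by exact_mod_cast hX2
  have hX0 : (0 : ℝ) < X := by linarith
  have hL0 : 0 < Real.log X := Real.log_pos (by linarith)
  set Y := X / K with hY
  have hsq2 : (X : ℝ) ^ (1 / 2 : ℝ) * (X : ℝ) ^ (1 / 2 : ℝ) = X := by
    rw [← Real.rpow_add hX0]; norm_num
  have hYlt : (X : ℝ) < K * (Y + 1) := by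
    have : X < K * (X / K + 1) := by
      have h1 := Nat.div_add_mod X K
      have h2 := Nat.mod_lt X (show K > 0 by omega)
      rw [mul_add, mul_one]
      omega
    exact_mod_cast this
  have hYle : (Y : ℝ) ≤ X / K := Nat.cast_div_le
  have hroot : (X : ℝ) ^ (1 / 2 : ℝ) ≤ Y := by
    have hr0 : 0 < (X : ℝ) ^ (1 / 2 : ℝ) := by positivity
    have hK1r : (1 : ℝ) ≤ K := by exact_mod_cast hK1
    have h1 : 2 * K * (X : ℝ) ^ (1 / 2 : ℝ) ≤ X := by
      calc 2 * K * (X : ℝ) ^ (1 / 2 : ℝ) ≤ (X : ℝ) ^ (1 / 2 : ℝ) * (X : ℝ) ^ (1 / 2 : ℝ) :=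
            mul_le_mul_of_nonneg_right hXa' hr0.le
        _ = X := hsq2
    have h2 : K * (2 * (X : ℝ) ^ (1 / 2 : ℝ)) < K * (Y + 1) := by nlinarith
    have h3 := lt_of_mul_lt_mul_left h2 hK0.le
    linarith
  have hlogY : Real.log X / 2 ≤ Real.log Y := by
    have : Real.log ((X : ℝ) ^ (1 / 2 : ℝ)) = Real.log X / 2 := by
      rw [Real.log_rpow hX0]; ring
    rw [← this]
    exact Real.log_le_log (by positivity) hroot
  have hY2 : 2 ≤ Y := by
    have h1 : (2 : ℝ) ≤ Y := by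
      have : (1 : ℝ) ≤ K := by exact_mod_cast hK1
      linarith
    exact_mod_cast h1
  have hpt : ∀ p ∈ (Finset.Icc 1 X).filter Nat.Prime, Real.log X - Real.log p ≤
      (if p ∈ (Finset.Icc 1 Y).filter Nat.Prime then Real.log X else 0) + Real.log K := by
    intro p hp
    rw [Finset.mem_filter, Finset.mem_Icc] at hp
    have hp0 : (0 : ℝ) < p := by exact_mod_cast hp.2.pos
    have hlp : 0 ≤ Real.log p := Real.log_natCast_nonneg p
    by_cases h : p ≤ Y
    · rw [if_pos (by rw [Finset.mem_filter, Finset.mem_Icc]; exact ⟨⟨hp.1.1, h⟩, hp.2⟩)]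
      linarith
    · rw [if_neg (by rw [Finset.mem_filter, Finset.mem_Icc]; exact fun hh => h hh.1.2), zero_add]
      push Not at h
      have h1 : (X : ℝ) ≤ K * p := by
        have : (Y : ℝ) + 1 ≤ p := by exact_mod_cast h
        exact hYlt.le.trans (mul_le_mul_of_nonneg_left this hK0.le)
      have h2 := Real.log_le_log hX0 h1
      rw [Real.log_mul hK0.ne' hp0.ne'] at h2
      linarith
  refine (Finset.sum_le_sum hpt).trans ?_
  rw [Finset.sum_add_distrib, ← Finset.sum_filter, Finset.sum_const, Finset.sum_const,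
    nsmul_eq_mul, nsmul_eq_mul]
  have hIoc : ∀ N : ℕ, Finset.Icc 1 N = Finset.Ioc 0 (0 + N) := by
    intro N
    ext x
    rw [Finset.mem_Icc, Finset.mem_Ioc]
    omega
  have c1 : ((((Finset.Icc 1 X).filter Nat.Prime).filter
      (fun p => p ∈ (Finset.Icc 1 Y).filter Nat.Prime)).card : ℝ) ≤ C₁ * Y / Real.log Y := by
    have h1 : ((Finset.Icc 1 X).filter Nat.Prime).filter
      (fun p => p ∈ (Finset.Icc 1 Y).filter Nat.Prime) ⊆ (Finset.Ioc 0 (0 + Y)).filter Nat.Prime := by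
      intro p hp
      rw [Finset.mem_filter] at hp
      rw [← hIoc]
      exact hp.2
    exact (by exact_mod_cast Finset.card_le_card h1 : _ ≤ _).trans (hpc 0 Y hY2)
  have c2 : (((Finset.Icc 1 X).filter Nat.Prime).card : ℝ) ≤ C₁ * X / Real.log X := by
    rw [hIoc X]
    exact hpc 0 X hX2
  have d1 : C₁ * Y / Real.log Y * Real.log X ≤ ε / 2 * X := by
    have hlY0 : 0 < Real.log Y := by linarith
    calc C₁ * Y / Real.log Y * Real.log X ≤ C₁ * (X / K) / (Real.log X / 2) * Real.log X := by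
          gcongr
      _ = 2 * C₁ / K * X := by field_simp
      _ ≤ ε / 2 * X := by
          refine mul_le_mul_of_nonneg_right ?_ hX0.le
          rw [div_le_iff₀ hK0]
          rw [div_le_iff₀ hε] at hKr
          linarith
  have d2 : C₁ * X / Real.log X * Real.log K ≤ ε / 2 * X := by
    have h1 : 2 * C₁ * Real.log K / ε ≤ Real.log X := hXb'
    rw [div_le_iff₀ hε] at h1
    rw [div_mul_eq_mul_div, div_le_iff₀ hL0]
    nlinarith
  calc _ ≤ C₁ * Y / Real.log Y * Real.log X + C₁ * X / Real.log X * Real.log K :=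
        add_le_add (mul_le_mul_of_nonneg_right c1 hL0.le) (mul_le_mul_of_nonneg_right c2 hlogK)
    _ ≤ ε / 2 * X + ε / 2 * X := add_le_add d1 d2
    _ = _ := by ring

/-- **Minor arcs** for the primes, from the three inputs -/
theorem minor_arcs_of (hRC : RoughCount) (hRE : RoughExp) (hBM : BadMultiples) :
    ∀ ε : ℝ, 0 < ε → ∃ Q X₀ : ℕ, ∀ X : ℕ, X₀ ≤ X → ∀ α : ℝ, ¬ Major Q X α →
    ‖∑ n ∈ Finset.Icc 1 X, (lam n : ℂ) * e (α * n)‖ ≤ ε * X := by
  intro ε hε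
  obtain ⟨Q, Xa, h1⟩ := prime_exp_of hRC hRE hBM (ε / 2) (by positivity)
  obtain ⟨Xb, h2⟩ := log_defect (ε / 2) (by positivity)
  refine ⟨Q, max Xa (max Xb 2), fun X hX α hα => ?_⟩
  have h1' := h1 X (by omega) α hα
  have h2' := h2 X (by omega)
  have hX2 : 2 ≤ X := by omega
  have hXr : (2 : ℝ) ≤ X := by exact_mod_cast hX2
  have hX0 : (0 : ℝ) < X := by linarith
  have hL0 : 0 < Real.log X := Real.log_pos (by linarith)
  have hid : ∑ n ∈ Finset.Icc 1 X, (lam n : ℂ) * e (α * n) =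
      (Real.log X : ℂ) * ∑ p ∈ (Finset.Icc 1 X).filter Nat.Prime, e (α * p) -
      ∑ p ∈ (Finset.Icc 1 X).filter Nat.Prime, ((Real.log X - Real.log p : ℝ) : ℂ) * e (α * p) := by
    rw [Finset.mul_sum, ← Finset.sum_sub_distrib, Finset.sum_filter]
    refine Finset.sum_congr rfl fun n _ => ?_
    unfold lam
    split_ifs
    · push_cast
      ring
    · simp
  rw [hid]
  have n1 : ‖(Real.log X : ℂ) * ∑ p ∈ (Finset.Icc 1 X).filter Nat.Prime, e (α * p)‖ ≤
      ε / 2 * X := by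
    rw [norm_mul, Complex.norm_real, Real.norm_of_nonneg hL0.le]
    calc Real.log X * _ ≤ Real.log X * (ε / 2 * X / Real.log X) :=
          mul_le_mul_of_nonneg_left h1' hL0.le
      _ = _ := by field_simp
  have n2 : ‖∑ p ∈ (Finset.Icc 1 X).filter Nat.Prime,
      ((Real.log X - Real.log p : ℝ) : ℂ) * e (α * p)‖ ≤ ε / 2 * X := by
    refine (norm_sum_le _ _).trans (le_trans (le_of_eq ?_) h2')
    refine Finset.sum_congr rfl fun p hp => ?_
    rw [Finset.mem_filter, Finset.mem_Icc] at hp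
    rw [norm_mul, norm_e, mul_one, Complex.norm_real, Real.norm_of_nonneg]
    have : Real.log p ≤ Real.log X :=
      Real.log_le_log (by exact_mod_cast hp.2.pos) (by exact_mod_cast hp.1.2)
    linarith
  calc _ ≤ _ := norm_sub_le _ _
    _ ≤ ε / 2 * X + ε / 2 * X := add_le_add n1 n2
    _ = _ := by ring

end Pool.Agent.Lib.GT.MA
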