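import Mathlib

/-!
# The Fejér kernel on the line
-/

open MeasureTheory Filter Set Topology

namespace Pool.Agent.Lib.GT

/-- the Fejér kernel, the Fourier transform of the triangle function -/
noncomputable def fej (v : ℝ) : ℝ := 2 * ∫ s in (0 : ℝ)..1, (1 - s) * Real.cos (s * v)

theorem continuous_fej : Continuous fej := by
  unfold fej
  refine continuous_const.mul ?_
  exact intervalIntegral.continuous_parametric_intervalIntegral_of_continuous'
    (by fun_prop) 0 1

theorem fej_eq {v : ℝ} (hv : v ≠ 0) : fej v = 2 * (1 - Real.cos v) / v ^ 2 := by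
  have h : ∫ s in (0 : ℝ)..1, (1 - s) * Real.cos (s * v) =
      (fun s => (1 - s) * (Real.sin (s * v) / v) - Real.cos (s * v) / v ^ 2) 1 -
      (fun s => (1 - s) * (Real.sin (s * v) / v) - Real.cos (s * v) / v ^ 2) 0 := by
    refine intervalIntegral.integral_eq_sub_of_hasDerivAt
      (f := fun s => (1 - s) * (Real.sin (s * v) / v) - Real.cos (s * v) / v ^ 2) ?_ ?_
    · intro s _
      have h1 : HasDerivAt (fun s : ℝ => s * v) v s := by
        simpa using (hasDerivAt_id s).mul_const v
      have h2 : HasDerivAt (fun s : ℝ => Real.sin (s * v) / v) (Real.cos (s * v)) s := by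
        exact ((h1.sin).div_const v).congr_deriv (mul_div_cancel_right₀ _ hv)
      have h3 : HasDerivAt (fun s : ℝ => Real.cos (s * v) / v ^ 2) (-(Real.sin (s * v) / v)) s := by
        refine ((h1.cos).div_const (v ^ 2)).congr_deriv ?_
        rw [pow_two, neg_mul, neg_div, mul_div_mul_right _ _ hv]
      have h4 : HasDerivAt (fun s : ℝ => 1 - s) (-1) s := by
        simpa using (hasDerivAt_id s).const_sub 1
      exact ((h4.mul h2).sub h3).congr_deriv (by ring)
    · exact (Continuous.intervalIntegrable (by fun_prop) _ _)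
  rw [fej, h]
  simp only [sub_self, zero_mul, one_mul, Real.sin_zero, zero_div, mul_zero, Real.cos_zero,
    zero_sub, sub_zero]
  field_simp
  ring

theorem fej_zero : fej 0 = 1 := by
  unfold fej
  simp only [mul_zero, Real.cos_zero, mul_one]
  rw [intervalIntegral.integral_sub (by simp) (by simp)]
  simp
  norm_num

theorem fej_nonneg (v : ℝ) : 0 ≤ fej v := by
  by_cases hv : v = 0
  · rw [hv, fej_zero]; norm_num
  · rw [fej_eq hv]
    have := Real.cos_le_one v
    have h2 : 0 < v ^ 2 := by positivity
    apply div_nonneg (by linarith) h2.le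

theorem fej_le_one (v : ℝ) : fej v ≤ 1 := by
  by_cases hv : v = 0
  · rw [hv, fej_zero]
  · rw [fej_eq hv, div_le_one (by positivity)]
    have := Real.one_sub_sq_div_two_le_cos (x := v)
    linarith

theorem fej_le (v : ℝ) : fej v ≤ 5 * (1 + v ^ 2)⁻¹ := by
  have h1 : fej v * (1 + v ^ 2) ≤ 5 := by
    have h2 : fej v * v ^ 2 ≤ 4 := by
      by_cases hv : v = 0
      · rw [hv]; norm_num
      · rw [fej_eq hv, div_mul_cancel₀ _ (by positivity)]
        have := Real.neg_one_le_cos v
        linarith
    have := fej_le_one v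
    nlinarith
  have h3 : (0 : ℝ) < 1 + v ^ 2 := by positivity
  rw [← div_eq_mul_inv, le_div_iff₀ h3]
  exact h1

theorem integrable_fej : Integrable fej := by
  apply (integrable_inv_one_add_sq.const_mul 5).mono' continuous_fej.aestronglyMeasurable
  filter_upwards with v
  rw [Real.norm_eq_abs, abs_of_nonneg (fej_nonneg v)]
  exact fej_le v

theorem integral_fej_pos : 0 < ∫ v, fej v := by
  have : 0 < ∫ v, fej v := by
    refine integral_pos_of_integrable_nonneg_nonzero (x := 0) continuous_fej integrable_fej
      fej_nonneg ?_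
    rw [fej_zero]
    norm_num
  exact this

/-- the tail of the kernel is small -/
theorem exists_tail {ε : ℝ} (hε : 0 < ε) :
    ∃ R : ℝ, 0 < R ∧ ∫ v, ({v : ℝ | R < |v|}).indicator fej v < ε := by
  have h : Tendsto (fun n : ℕ => ∫ v, ({v : ℝ | (n : ℝ) < |v|}).indicator fej v) atTop
      (𝓝 (∫ _ : ℝ, (0 : ℝ))) := by
    refine tendsto_integral_of_dominated_convergence fej ?_ integrable_fej ?_ ?_
    · intro n
      exact (continuous_fej.measurable.indicator
        (measurableSet_lt measurable_const measurable_norm)).aestronglyMeasurable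
    · intro n
      filter_upwards with v
      rw [Real.norm_eq_abs, abs_of_nonneg (Set.indicator_nonneg (fun v _ => fej_nonneg v) v)]
      exact Set.indicator_le_self' (fun v _ => fej_nonneg v) v
    · filter_upwards with v
      apply tendsto_const_nhds.congr'
      obtain ⟨N, hN⟩ := exists_nat_gt |v|
      filter_upwards [eventually_ge_atTop N] with n hn
      rw [Set.indicator_of_notMem]
      simp only [Set.mem_ofPred_eq, not_lt]
      have : (N : ℝ) ≤ n := by exact_mod_cast hn
      linarith
  rw [integral_zero] at h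
  obtain ⟨n, hn, hn1⟩ := ((h.eventually (gt_mem_nhds hε)).and (eventually_ge_atTop 1)).exists
  exact ⟨n, by exact_mod_cast hn1, hn⟩

end Pool.Agent.Lib.GT
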