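import Mathlib
import Pool.Agent.Lib.MP_7b7e48_nt.GT.Fejer

/-!
# The Tauberian step
-/

open MeasureTheory Filter Set Topology

namespace Pool.Agent.Lib.GT

/-- a lower bound for the smoothed integral of a function which is `≥ α` near `y` and
`≥ -β` elsewhere -/
theorem kernel_lower {g : ℝ → ℝ} {D α β η l y : ℝ} (hm : Measurable g) (hD : ∀ u, |g u| ≤ D)
    (hl : 0 < l) (hη : 0 < η) (hy : η < y) (hβ : 0 ≤ β)
    (h1 : ∀ u, |u - y| ≤ η → α ≤ g u) (h2 : ∀ u, 0 < u → -β ≤ g u) :
    l⁻¹ * (α * (∫ v, fej v) - (α + β) * ∫ v, ({v : ℝ | l * η < |v|}).indicator fej v) ≤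
      ∫ u in Ioi (0 : ℝ), g u * fej (l * (u - y)) := by
  set S : Set ℝ := {v : ℝ | l * η < |v|} with hS
  have hSm : MeasurableSet S := measurableSet_lt measurable_const measurable_norm
  set F : ℝ → ℝ := fun v => α * fej v - (α + β) * S.indicator fej v with hF
  have hFi : Integrable F :=
    (integrable_fej.const_mul α).sub ((integrable_fej.indicator hSm).const_mul (α + β))
  have hFint : ∫ v, F v = α * (∫ v, fej v) - (α + β) * ∫ v, S.indicator fej v := by
    rw [hF, integral_sub (integrable_fej.const_mul α)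
      ((integrable_fej.indicator hSm).const_mul (α + β)), integral_const_mul, integral_const_mul]
  have hPi : Integrable (fun u : ℝ => F (l * (u - y))) :=
    (hFi.comp_mul_left' hl.ne').comp_sub_right y
  have hPint : ∫ u, F (l * (u - y)) = l⁻¹ * ∫ v, F v := by
    rw [integral_sub_right_eq_self (fun u => F (l * u)) y, Measure.integral_comp_mul_left,
      abs_of_pos (inv_pos.mpr hl), smul_eq_mul]
  rw [← hFint, ← hPint]
  have hki : Integrable (fun u : ℝ => fej (l * (u - y))) :=
    (integrable_fej.comp_mul_left' hl.ne').comp_sub_right y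
  have hgi : IntegrableOn (fun u : ℝ => g u * fej (l * (u - y))) (Ioi 0) := by
    apply Integrable.integrableOn
    refine (hki.const_mul D).mono' (hm.mul ?_).aestronglyMeasurable ?_
    · exact continuous_fej.measurable.comp (by fun_prop)
    · filter_upwards with u
      rw [Real.norm_eq_abs, abs_mul, abs_of_nonneg (fej_nonneg _)]
      exact mul_le_mul_of_nonneg_right (hD u) (fej_nonneg _)
  have hmem : ∀ u, l * (u - y) ∈ S ↔ η < |u - y| := by
    intro u
    rw [hS]
    simp only [Set.mem_ofPred_eq]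
    rw [abs_mul, abs_of_pos hl, mul_lt_mul_iff_right₀ hl]
  have hle : ∀ u, 0 < u → F (l * (u - y)) ≤ g u * fej (l * (u - y)) := by
    intro u hu
    have hf := fej_nonneg (l * (u - y))
    by_cases hc : η < |u - y|
    · simp only [hF]
      rw [Set.indicator_of_mem ((hmem u).mpr hc)]
      have := mul_le_mul_of_nonneg_right (h2 u hu) hf
      linarith
    · simp only [hF]
      rw [Set.indicator_of_notMem (fun h => hc ((hmem u).mp h)), mul_zero, sub_zero]
      exact mul_le_mul_of_nonneg_right (h1 u (not_lt.mp hc)) hf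
  have hneg : ∀ u, u ≤ 0 → F (l * (u - y)) ≤ 0 := by
    intro u hu
    have hc : η < |u - y| := by
      rw [abs_of_nonpos (by linarith)]
      linarith
    simp only [hF]
    rw [Set.indicator_of_mem ((hmem u).mpr hc)]
    have := mul_nonneg hβ (fej_nonneg (l * (u - y)))
    linarith
  calc ∫ u, F (l * (u - y)) = (∫ u in Iic (0 : ℝ), F (l * (u - y))) +
        ∫ u in Ioi (0 : ℝ), F (l * (u - y)) :=
        (intervalIntegral.integral_Iic_add_Ioi hPi.integrableOn hPi.integrableOn).symm
    _ ≤ 0 + ∫ u in Ioi (0 : ℝ), F (l * (u - y)) := by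
        apply add_le_add_left
        apply setIntegral_nonpos measurableSet_Iic
        intro u hu
        exact hneg u hu
    _ = ∫ u in Ioi (0 : ℝ), F (l * (u - y)) := zero_add _
    _ ≤ ∫ u in Ioi (0 : ℝ), g u * fej (l * (u - y)) :=
        setIntegral_mono_on hPi.integrableOn hgi measurableSet_Ioi (fun u hu => hle u hu)

/-- The Tauberian theorem. -/
theorem tauber {H : ℝ → ℝ} {B c : ℝ} (hm : Measurable H) (h0 : ∀ u, 0 ≤ H u)
    (hB : ∀ u, H u ≤ B) (hc : 0 ≤ c)
    (hmono : ∀ u v, 0 ≤ u → u ≤ v → H u * Real.exp u ≤ H v * Real.exp v)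
    (hk : ∀ l : ℝ, 0 < l →
      Tendsto (fun y => ∫ u in Ioi (0 : ℝ), (H u - c) * fej (l * (u - y))) atTop (𝓝 0)) :
    Tendsto H atTop (𝓝 c) := by
  have hB0 : 0 ≤ B := (h0 0).trans (hB 0)
  have hD : ∀ u, |H u - c| ≤ B + c := by
    intro u
    rw [abs_le]
    constructor
    · linarith [h0 u]
    · linarith [hB u]
  rw [Metric.tendsto_atTop]
  intro ε hε
  -- the window
  obtain ⟨η, hη⟩ : ∃ η, η = ε / (4 * (c + ε)) := ⟨_, rfl⟩
  have hcε : 0 < c + ε := by linarith
  have hη0 : 0 < η := by rw [hη]; positivity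
  have hη2 : 2 * η * (c + ε) = ε / 2 := by
    rw [hη]
    field_simp
    ring
  have hexp1 : c + ε / 2 ≤ (c + ε) * Real.exp (-(2 * η)) := by
    have h1 := Real.add_one_le_exp (-(2 * η))
    have h2 := mul_le_mul_of_nonneg_left h1 hcε.le
    nlinarith
  have hexp2 : ε ≤ c → (c - ε) * Real.exp (2 * η) ≤ c - ε / 2 := by
    intro hle
    have h1 : Real.exp (2 * η) * Real.exp (-(2 * η)) = 1 := by
      rw [← Real.exp_add]; simp
    have h2 := Real.exp_pos (2 * η)
    have h3 : (c + ε / 2) * Real.exp (2 * η) ≤ c + ε := by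
      have := mul_le_mul_of_nonneg_right hexp1 h2.le
      calc (c + ε / 2) * Real.exp (2 * η) ≤ (c + ε) * Real.exp (-(2 * η)) * Real.exp (2 * η) := this
        _ = (c + ε) * (Real.exp (2 * η) * Real.exp (-(2 * η))) := by ring
        _ = c + ε := by rw [h1, mul_one]
    have h4 : (c - ε) * ((c + ε / 2) * Real.exp (2 * η)) ≤ (c - ε) * (c + ε) :=
      mul_le_mul_of_nonneg_left h3 (by linarith)
    have h5 : (c - ε) * (c + ε) ≤ (c - ε / 2) * (c + ε / 2) := by nlinarith
    have h6 : 0 < c + ε / 2 := by linarith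
    have h7 : (c - ε) * Real.exp (2 * η) * (c + ε / 2) ≤ (c - ε / 2) * (c + ε / 2) := by
      calc (c - ε) * Real.exp (2 * η) * (c + ε / 2) = (c - ε) * ((c + ε / 2) * Real.exp (2 * η)) := by
            ring
        _ ≤ _ := h4
        _ ≤ _ := h5
    exact le_of_mul_le_mul_right h7 h6
  -- the constants
  set I : ℝ := ∫ v, fej v with hI
  have hI0 : 0 < I := integral_fej_pos
  set β : ℝ := B + c with hβ
  have hβ0 : 0 ≤ β := by linarith
  obtain ⟨R, hR0, hR⟩ := exists_tail (ε := (ε / 4 * I) / (ε / 2 + β)) (by positivity)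
  obtain ⟨l, hl⟩ : ∃ l, l = R / η := ⟨_, rfl⟩
  have hl0 : 0 < l := by rw [hl]; positivity
  have hlη : l * η = R := by rw [hl]; field_simp
  have hT : ε / 4 * I ≤ ε / 2 * I - (ε / 2 + β) *
      ∫ v, ({v : ℝ | l * η < |v|}).indicator fej v := by
    rw [hlη]
    have h1 : 0 < ε / 2 + β := by linarith
    have h2 : (ε / 2 + β) * ∫ v, ({v : ℝ | R < |v|}).indicator fej v ≤
        (ε / 2 + β) * ((ε / 4 * I) / (ε / 2 + β)) := mul_le_mul_of_nonneg_left hR.le h1.le
    rw [mul_div_cancel₀ _ h1.ne'] at h2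
    linarith
  have hκ : 0 < l⁻¹ * (ε / 4 * I) := by positivity
  have hk' := (Metric.tendsto_atTop.mp (hk l hl0)) _ hκ
  obtain ⟨Y, hY⟩ := hk'
  refine ⟨max Y 0 + 3 * η, fun y0 hy0 => ?_⟩
  have hYle : Y ≤ max Y 0 := le_max_left _ _
  have h0le : (0 : ℝ) ≤ max Y 0 := le_max_right _ _
  rw [Real.dist_eq, abs_lt]
  constructor
  · -- lower bound
    by_contra hcon
    push Not at hcon
    have hcon' : H y0 ≤ c - ε := by linarith
    have hεc : ε ≤ c := by linarith [h0 y0]
    have hlow := kernel_lower (g := fun u => c - H u) (D := B + c) (α := ε / 2) (β := β) (η := η)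
      (l := l) (y := y0 - η) (by fun_prop) (fun u => by rw [abs_sub_comm]; exact hD u) hl0 hη0
      (by linarith) hβ0 ?_ ?_
    · have h1 := hY (y0 - η) (by linarith)
      rw [Real.dist_eq, sub_zero, abs_lt] at h1
      have h2 : ∫ u in Ioi (0 : ℝ), (c - H u) * fej (l * (u - (y0 - η))) =
          -∫ u in Ioi (0 : ℝ), (H u - c) * fej (l * (u - (y0 - η))) := by
        rw [← integral_neg]
        apply integral_congr_ae
        filter_upwards with u
        ring
      rw [h2] at hlow
      have h3 : l⁻¹ * (ε / 4 * I) ≤ l⁻¹ * (ε / 2 * I - (ε / 2 + β) *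
        ∫ v, ({v : ℝ | l * η < |v|}).indicator fej v) :=
        mul_le_mul_of_nonneg_left hT (inv_pos.mpr hl0).le
      linarith [h1.1]
    · intro u hu
      rw [abs_le] at hu
      have hu0 : 0 ≤ u := by linarith
      have huy : u ≤ y0 := by linarith
      have h1 := hmono u y0 hu0 huy
      have h2 : H u ≤ H y0 * Real.exp (y0 - u) := by
        rw [Real.exp_sub, ← mul_div_assoc, le_div_iff₀ (Real.exp_pos u)]
        exact h1
      have h3 : Real.exp (y0 - u) ≤ Real.exp (2 * η) := Real.exp_le_exp.mpr (by linarith)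
      have h4 : H y0 * Real.exp (y0 - u) ≤ (c - ε) * Real.exp (2 * η) := by
        apply mul_le_mul hcon' h3 (Real.exp_pos _).le (by linarith)
      have h5 := hexp2 hεc
      linarith
    · intro u _
      linarith [hB u]
  · -- upper bound
    by_contra hcon
    push Not at hcon
    have hcon' : c + ε ≤ H y0 := by linarith
    have hlow := kernel_lower (g := fun u => H u - c) (D := B + c) (α := ε / 2) (β := β) (η := η)
      (l := l) (y := y0 + η) (by fun_prop) hD hl0 hη0
      (by linarith) hβ0 ?_ ?_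
    · have h1 := hY (y0 + η) (by linarith)
      rw [Real.dist_eq, sub_zero, abs_lt] at h1
      have h3 : l⁻¹ * (ε / 4 * I) ≤ l⁻¹ * (ε / 2 * I - (ε / 2 + β) *
        ∫ v, ({v : ℝ | l * η < |v|}).indicator fej v) :=
        mul_le_mul_of_nonneg_left hT (inv_pos.mpr hl0).le
      linarith [h1.2]
    · intro u hu
      rw [abs_le] at hu
      have huy : y0 ≤ u := by linarith
      have h1 := hmono y0 u (by linarith) huy
      have h2 : H y0 * Real.exp (y0 - u) ≤ H u := by
        rw [Real.exp_sub, ← mul_div_assoc, div_le_iff₀ (Real.exp_pos u)]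
        exact h1
      have h3 : Real.exp (-(2 * η)) ≤ Real.exp (y0 - u) := Real.exp_le_exp.mpr (by linarith)
      have h4 : (c + ε) * Real.exp (-(2 * η)) ≤ H y0 * Real.exp (y0 - u) := by
        apply mul_le_mul hcon' h3 (Real.exp_pos _).le (by linarith)
      linarith
    · intro u _
      linarith [h0 u]

end Pool.Agent.Lib.GT
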