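import Mathlib
import Pool.Agent.Lib.MP_7b7e48_nt.GT.Fejer

/-!
# A Tauberian theorem of Wiener-Ikehara type for bounded functions
-/

open MeasureTheory Filter Set Topology

namespace Pool.Agent.Lib.GT

section kernel

variable {h : ℝ → ℝ} {B : ℝ} {G : ℂ → ℂ} {l : ℝ}

/-- the double integrand -/
noncomputable def FF (h : ℝ → ℝ) (d l y : ℝ) (u s : ℝ) : ℂ :=
  (h u * Real.exp (-(d * u)) : ℝ) * ((1 - s : ℝ) * Complex.exp (-(l * s * (u - y) : ℝ) * Complex.I))

theorem FF_integrable (hm : Measurable h) (hB : ∀ u, |h u| ≤ B) {d : ℝ} (hd : 0 < d) (l y : ℝ) :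
    Integrable (Function.uncurry (FF h d l y))
      ((volume.restrict (Ioi (0 : ℝ))).prod (volume.restrict (Ioc (0 : ℝ) 1))) := by
  have h1 : IntegrableOn (fun u : ℝ => B * Real.exp (-(d * u))) (Ioi 0) := by
    have := (integrableOn_exp_mul_Ioi (a := -d) (by linarith) 0).const_mul B
    simpa [IntegrableOn, neg_mul] using this
  have h2 : IntegrableOn (fun _ : ℝ => (1 : ℝ)) (Ioc (0 : ℝ) 1) := by
    simp
  refine (h1.mul_prod h2).mono' ?_ ?_
  · apply Measurable.aestronglyMeasurable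
    unfold FF Function.uncurry
    fun_prop
  · have : ∀ᵐ p : ℝ × ℝ ∂((volume.restrict (Ioi (0 : ℝ))).prod (volume.restrict (Ioc (0 : ℝ) 1))),
        p.2 ∈ Ioc (0 : ℝ) 1 := by
      rw [Measure.prod_restrict]
      filter_upwards [ae_restrict_mem (measurableSet_Ioi.prod measurableSet_Ioc)] with p hp
      exact hp.2
    filter_upwards [this] with p hp
    have e1 : ‖Complex.exp (-(l * p.2 * (p.1 - y) : ℝ) * Complex.I)‖ = 1 := by
      rw [← Complex.ofReal_neg]
      exact Complex.norm_exp_ofReal_mul_I _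
    simp only [Function.uncurry, FF, norm_mul, e1, Complex.norm_real, mul_one]
    rw [Real.norm_eq_abs, Real.norm_eq_abs, Real.norm_eq_abs, abs_of_pos (Real.exp_pos _),
      abs_of_nonneg (by linarith [hp.2] : (0 : ℝ) ≤ 1 - p.2)]
    have h3 := hB p.1
    have h4 := (Real.exp_pos (-(d * p.1))).le
    have h5 : |h p.1| * Real.exp (-(d * p.1)) ≤ B * Real.exp (-(d * p.1)) :=
      mul_le_mul_of_nonneg_right h3 h4
    have h6 : (1 - p.2) ≤ 1 := by linarith [hp.1]
    calc |h p.1| * Real.exp (-(d * p.1)) * (1 - p.2)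
        ≤ |h p.1| * Real.exp (-(d * p.1)) * 1 := by
          apply mul_le_mul_of_nonneg_left h6 (by positivity)
      _ ≤ B * Real.exp (-(d * p.1)) := by rw [mul_one]; exact h5

/-- the inner integral over `s` gives the kernel -/
theorem re_inner (d y u : ℝ) :
    h u * Real.exp (-(d * u)) * fej (l * (u - y)) =
      2 * (∫ s in Ioc (0 : ℝ) 1, FF h d l y u s).re := by
  have h1 : (∫ s in Ioc (0 : ℝ) 1, FF h d l y u s) =
      (h u * Real.exp (-(d * u)) : ℝ) *
        ∫ s in Ioc (0 : ℝ) 1, ((1 - s : ℝ) : ℂ) *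
          Complex.exp (-(l * s * (u - y) : ℝ) * Complex.I) := by
    unfold FF
    rw [integral_const_mul]
  have h2 : (∫ s in Ioc (0 : ℝ) 1, ((1 - s : ℝ) : ℂ) *
          Complex.exp (-(l * s * (u - y) : ℝ) * Complex.I)).re =
      ∫ s in Ioc (0 : ℝ) 1, (1 - s) * Real.cos (s * (l * (u - y))) := by
    have h3 : IntegrableOn (fun s : ℝ => ((1 - s : ℝ) : ℂ) *
          Complex.exp (-(l * s * (u - y) : ℝ) * Complex.I)) (Ioc (0 : ℝ) 1) :=
      (Continuous.integrableOn_Icc (by fun_prop)).mono_set Ioc_subset_Icc_self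
    have h4 := integral_re (𝕜 := ℂ) h3
    simp only [RCLike.re_to_complex] at h4
    rw [← h4]
    apply integral_congr_ae
    filter_upwards with s
    rw [Complex.re_ofReal_mul, ← Complex.ofReal_neg, Complex.exp_ofReal_mul_I_re, Real.cos_neg]
    ring_nf
  rw [h1, Complex.re_ofReal_mul, h2, fej, intervalIntegral.integral_of_le (by norm_num)]
  ring

/-- the inner integral over `u` -/
theorem inner_u (hGs : ∀ s : ℂ, 0 < s.re →
      ∫ u in Ioi (0 : ℝ), (h u : ℂ) * Complex.exp (-s * u) = G s) {d : ℝ} (hd : 0 < d) (y s : ℝ) :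
    ∫ u in Ioi (0 : ℝ), FF h d l y u s =
      ((1 - s : ℝ) : ℂ) * (Complex.exp ((l * s * y : ℝ) * Complex.I) *
        G (d + (l * s : ℝ) * Complex.I)) := by
  rw [← hGs _ (by simp [hd])]
  rw [← integral_const_mul, ← integral_const_mul]
  apply integral_congr_ae
  filter_upwards with u
  unfold FF
  have h1 : Complex.exp (-(d + (l * s : ℝ) * Complex.I) * u) =
      (Real.exp (-(d * u)) : ℝ) * Complex.exp (-(l * s * u : ℝ) * Complex.I) := by
    rw [Complex.ofReal_exp, ← Complex.exp_add]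
    congr 1
    push_cast
    ring
  have h2 : Complex.exp (-(l * s * (u - y) : ℝ) * Complex.I) =
      Complex.exp ((l * s * y : ℝ) * Complex.I) * Complex.exp (-(l * s * u : ℝ) * Complex.I) := by
    rw [← Complex.exp_add]
    congr 1
    push_cast
    ring
  rw [h1, h2]
  push_cast
  ring

theorem identity_pos (hm : Measurable h) (hB : ∀ u, |h u| ≤ B)
    (hGs : ∀ s : ℂ, 0 < s.re →
      ∫ u in Ioi (0 : ℝ), (h u : ℂ) * Complex.exp (-s * u) = G s) {d : ℝ} (hd : 0 < d) (y : ℝ) :
    ∫ u in Ioi (0 : ℝ), h u * Real.exp (-(d * u)) * fej (l * (u - y)) =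
      2 * (∫ s in Ioc (0 : ℝ) 1, ((1 - s : ℝ) : ℂ) * (Complex.exp ((l * s * y : ℝ) * Complex.I) *
        G (d + (l * s : ℝ) * Complex.I))).re := by
  have hint := FF_integrable hm hB hd l y
  have h1 : ∫ u in Ioi (0 : ℝ), h u * Real.exp (-(d * u)) * fej (l * (u - y)) =
      ∫ u in Ioi (0 : ℝ), 2 * (∫ s in Ioc (0 : ℝ) 1, FF h d l y u s).re := by
    apply integral_congr_ae
    filter_upwards with u
    exact re_inner d y u
  rw [h1, integral_const_mul]
  congr 1
  have h2 := integral_re (𝕜 := ℂ) hint.integral_prod_left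
  simp only [RCLike.re_to_complex, Function.uncurry] at h2
  rw [h2, integral_integral_swap hint]
  congr 1
  apply integral_congr_ae
  filter_upwards with s
  exact inner_u hGs hd y s

theorem bound_G (hG : ContinuousOn G {s | 0 ≤ s.re}) (l : ℝ) :
    ∃ M : ℝ, ∀ d ∈ Icc (0 : ℝ) 1, ∀ s ∈ Icc (0 : ℝ) 1, ‖G (d + (l * s : ℝ) * Complex.I)‖ ≤ M := by
  have h1 : IsCompact ((fun p : ℝ × ℝ => (p.1 + (l * p.2 : ℝ) * Complex.I : ℂ)) ''
      (Icc (0 : ℝ) 1 ×ˢ Icc (0 : ℝ) 1)) :=
    (isCompact_Icc.prod isCompact_Icc).image (by fun_prop)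
  have h2 : (fun p : ℝ × ℝ => (p.1 + (l * p.2 : ℝ) * Complex.I : ℂ)) ''
      (Icc (0 : ℝ) 1 ×ˢ Icc (0 : ℝ) 1) ⊆ {s | 0 ≤ s.re} := by
    rintro _ ⟨⟨d, s⟩, ⟨hd, hs⟩, rfl⟩
    simpa using hd.1
  obtain ⟨M, hM⟩ := h1.exists_bound_of_continuousOn (f := G) (hG.mono h2)
  exact ⟨M, fun d hd s hs => hM _ ⟨(d, s), ⟨hd, hs⟩, rfl⟩⟩

theorem identity_zero (hm : Measurable h) (hB : ∀ u, |h u| ≤ B)
    (hG : ContinuousOn G {s | 0 ≤ s.re})
    (hGs : ∀ s : ℂ, 0 < s.re →
      ∫ u in Ioi (0 : ℝ), (h u : ℂ) * Complex.exp (-s * u) = G s) (hl : 0 < l) (y : ℝ) :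
    ∫ u in Ioi (0 : ℝ), h u * fej (l * (u - y)) =
      2 * (∫ s in Ioc (0 : ℝ) 1, ((1 - s : ℝ) : ℂ) * (Complex.exp ((l * s * y : ℝ) * Complex.I) *
        G ((l * s : ℝ) * Complex.I))).re := by
  have hint : Integrable (fun u : ℝ => fej (l * (u - y))) :=
    (integrable_fej.comp_mul_left' hl.ne').comp_sub_right y
  -- left side
  have hL : Tendsto (fun n : ℕ => ∫ u in Ioi (0 : ℝ), h u * Real.exp (-((1 / ((n : ℝ) + 1)) * u)) *
      fej (l * (u - y))) atTop (𝓝 (∫ u in Ioi (0 : ℝ), h u * fej (l * (u - y)))) := by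
    refine tendsto_integral_of_dominated_convergence (fun u => B * fej (l * (u - y))) ?_
      (hint.const_mul B).integrableOn ?_ ?_
    · intro n
      apply Measurable.aestronglyMeasurable
      have := continuous_fej.measurable
      fun_prop
    · intro n
      filter_upwards [ae_restrict_mem measurableSet_Ioi] with u hu
      rw [Real.norm_eq_abs, abs_mul, abs_mul, abs_of_nonneg (fej_nonneg _),
        abs_of_pos (Real.exp_pos _)]
      apply mul_le_mul_of_nonneg_right _ (fej_nonneg _)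
      have h1 : Real.exp (-((1 / ((n : ℝ) + 1)) * u)) ≤ 1 := by
        rw [Real.exp_le_one_iff]
        have : (0 : ℝ) ≤ (1 / ((n : ℝ) + 1)) * u := by
          have := mem_Ioi.mp hu
          positivity
        linarith
      calc |h u| * Real.exp (-((1 / ((n : ℝ) + 1)) * u)) ≤ |h u| * 1 :=
            mul_le_mul_of_nonneg_left h1 (abs_nonneg _)
        _ ≤ B := by rw [mul_one]; exact hB u
    · filter_upwards with u
      have h1 : Tendsto (fun n : ℕ => Real.exp (-((1 / ((n : ℝ) + 1)) * u))) atTop (𝓝 1) := by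
        have h2 := ((tendsto_one_div_add_atTop_nhds_zero_nat (𝕜 := ℝ)).mul_const u).neg
        rw [zero_mul, neg_zero] at h2
        have := (Real.continuous_exp.tendsto 0).comp h2
        rwa [Real.exp_zero] at this
      have := (h1.const_mul (h u)).mul_const (fej (l * (u - y)))
      simpa using this
  -- right side
  obtain ⟨M, hM⟩ := bound_G hG l
  have hR : Tendsto (fun n : ℕ => ∫ s in Ioc (0 : ℝ) 1, ((1 - s : ℝ) : ℂ) *
        (Complex.exp ((l * s * y : ℝ) * Complex.I) *
        G ((1 / ((n : ℝ) + 1) : ℝ) + (l * s : ℝ) * Complex.I))) atTop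
      (𝓝 (∫ s in Ioc (0 : ℝ) 1, ((1 - s : ℝ) : ℂ) * (Complex.exp ((l * s * y : ℝ) * Complex.I) *
        G ((l * s : ℝ) * Complex.I)))) := by
    refine tendsto_integral_of_dominated_convergence (fun _ => M) ?_ (by simp) ?_ ?_
    · intro n
      apply ContinuousOn.aestronglyMeasurable _ measurableSet_Ioc
      apply ContinuousOn.mul (by fun_prop)
      apply ContinuousOn.mul (by fun_prop)
      apply hG.comp (by fun_prop)
      intro s _
      have : (0 : ℝ) ≤ 1 / ((n : ℝ) + 1) := by positivity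
      change 0 ≤ (((1 / ((n : ℝ) + 1) : ℝ) : ℂ) + ((l * s : ℝ) : ℂ) * Complex.I).re
      rwa [Complex.add_re, Complex.ofReal_re, Complex.re_ofReal_mul, Complex.I_re, mul_zero,
        add_zero]
    · intro n
      filter_upwards [ae_restrict_mem measurableSet_Ioc] with s hs
      rw [norm_mul, norm_mul, Complex.norm_exp_ofReal_mul_I, one_mul, Complex.norm_real,
        Real.norm_eq_abs, abs_of_nonneg (by linarith [hs.2] : (0 : ℝ) ≤ 1 - s)]
      have h1 : (1 / ((n : ℝ) + 1) : ℝ) ∈ Icc (0 : ℝ) 1 := by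
        constructor
        · positivity
        · rw [div_le_one (by positivity)]
          have : (0 : ℝ) ≤ n := Nat.cast_nonneg n
          linarith
      have h2 := hM _ h1 s ⟨hs.1.le, hs.2⟩
      have h3 : 0 ≤ ‖G ((1 / ((n : ℝ) + 1) : ℝ) + (l * s : ℝ) * Complex.I)‖ := norm_nonneg _
      calc (1 - s) * ‖G ((1 / ((n : ℝ) + 1) : ℝ) + (l * s : ℝ) * Complex.I)‖
          ≤ 1 * ‖G ((1 / ((n : ℝ) + 1) : ℝ) + (l * s : ℝ) * Complex.I)‖ :=
            mul_le_mul_of_nonneg_right (by linarith [hs.1]) h3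
        _ ≤ M := by rw [one_mul]; exact h2
    · filter_upwards with s
      apply Tendsto.const_mul
      apply Tendsto.const_mul
      have h1 : ContinuousWithinAt G {s | 0 ≤ s.re} ((l * s : ℝ) * Complex.I) :=
        hG _ (by simp)
      apply h1.tendsto.comp
      apply tendsto_nhdsWithin_iff.mpr
      refine ⟨?_, ?_⟩
      · have h2 : Tendsto (fun n : ℕ => ((1 / ((n : ℝ) + 1) : ℝ) : ℂ)) atTop (𝓝 ((0 : ℝ) : ℂ)) :=
          (Complex.continuous_ofReal.tendsto 0).comp
            (tendsto_one_div_add_atTop_nhds_zero_nat (𝕜 := ℝ))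
        have := h2.add_const ((l * s : ℝ) * Complex.I)
        simpa using this
      · filter_upwards with n
        have : (0 : ℝ) ≤ 1 / ((n : ℝ) + 1) := by positivity
        change 0 ≤ (((1 / ((n : ℝ) + 1) : ℝ) : ℂ) + ((l * s : ℝ) : ℂ) * Complex.I).re
        rwa [Complex.add_re, Complex.ofReal_re, Complex.re_ofReal_mul, Complex.I_re, mul_zero,
          add_zero]
  have hR2 := ((Complex.continuous_re.tendsto _).comp hR).const_mul 2
  refine tendsto_nhds_unique hL (hR2.congr ?_)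
  intro n
  rw [Function.comp_apply, identity_pos hm hB hGs (by positivity) y]

theorem kernel_tendsto (hm : Measurable h) (hB : ∀ u, |h u| ≤ B)
    (hG : ContinuousOn G {s | 0 ≤ s.re})
    (hGs : ∀ s : ℂ, 0 < s.re →
      ∫ u in Ioi (0 : ℝ), (h u : ℂ) * Complex.exp (-s * u) = G s) (hl : 0 < l) :
    Tendsto (fun y => ∫ u in Ioi (0 : ℝ), h u * fej (l * (u - y))) atTop (𝓝 0) := by
  simp_rw [identity_zero hm hB hG hGs hl]
  set φ : ℝ → ℂ := (Ioc (0 : ℝ) 1).indicator
    (fun s => ((1 - s : ℝ) : ℂ) * G ((l * s : ℝ) * Complex.I)) with hφ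
  have h1 := Real.tendsto_integral_exp_smul_cocompact φ
  have h2 : Tendsto (fun y : ℝ => -(l / (2 * Real.pi)) * y) atTop (cocompact ℝ) := by
    apply Tendsto.mono_right _ atBot_le_cocompact
    apply Tendsto.const_mul_atTop_of_neg _ tendsto_id
    have : 0 < l / (2 * Real.pi) := by positivity
    linarith
  have h3 := h1.comp h2
  have h4 : ∀ y : ℝ, (∫ v : ℝ, Real.fourierChar (-(v * (-(l / (2 * Real.pi)) * y))) • φ v) =
      ∫ s in Ioc (0 : ℝ) 1, ((1 - s : ℝ) : ℂ) * (Complex.exp ((l * s * y : ℝ) * Complex.I) *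
        G ((l * s : ℝ) * Complex.I)) := by
    intro y
    rw [← integral_indicator measurableSet_Ioc]
    apply integral_congr_ae
    filter_upwards with v
    rw [hφ]
    by_cases hv : v ∈ Ioc (0 : ℝ) 1
    · rw [Set.indicator_of_mem hv, Set.indicator_of_mem hv, Circle.smul_def,
        Real.fourierChar_apply, smul_eq_mul]
      have : (2 * Real.pi * -(v * (-(l / (2 * Real.pi)) * y)) : ℝ) = l * v * y := by
        field_simp
      rw [show ((2 * Real.pi * -(v * (-(l / (2 * Real.pi)) * y)) : ℝ) : ℂ) =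
        ((l * v * y : ℝ) : ℂ) from by rw [this]]
      ring
    · rw [Set.indicator_of_notMem hv, Set.indicator_of_notMem hv, smul_zero]
  have h5 := ((Complex.continuous_re.tendsto _).comp h3).const_mul 2
  simp only [Complex.zero_re, mul_zero] at h5
  refine h5.congr ?_
  intro y
  simp only [Function.comp_apply]
  rw [h4]

end kernel

end Pool.Agent.Lib.GT
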