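import Mathlib
import Pool.Agent.Lib.MP_7b7e48_nt.GT.Defs
import Pool.Agent.Lib.MP_7b7e48_nt.GT.WienerIkehara
import Pool.Agent.Lib.MP_7b7e48_nt.GT.Tauber

/-!
# The prime number theorem in arithmetic progressions
-/

open MeasureTheory Filter Set Topology

namespace Pool.Agent.Lib.GT

section ikehara

variable (f : ℕ → ℝ)

/-- the summatory function in the exponential variable, normalised -/
noncomputable def HH (u : ℝ) : ℝ :=
  (∑ k ∈ Finset.Icc 1 ⌊Real.exp u⌋₊, f k) * Real.exp (-u)

theorem measurable_HH : Measurable (HH f) := by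
  unfold HH
  apply Measurable.mul
  · have h1 : Measurable (fun n : ℕ => ∑ k ∈ Finset.Icc 1 n, f k) := measurable_from_nat
    exact h1.comp (Nat.measurable_floor.comp Real.measurable_exp)
  · fun_prop

theorem laplace_HH (hf : ∀ n, 0 ≤ f n) {C : ℝ}
    (hC : ∀ x : ℝ, 0 ≤ x → ∑ k ∈ Finset.Icc 1 ⌊x⌋₊, f k ≤ C * x) {s : ℂ} (hs : 0 < s.re) :
    LSeries (fun n => (f n : ℂ)) (1 + s) =
      (1 + s) * ∫ u in Ioi (0 : ℝ), (HH f u : ℂ) * Complex.exp (-s * u) := by
  rw [LSeries_eq_mul_integral_of_nonneg f zero_le_one (s := 1 + s) (by simpa using hs) ?_ hf]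
  · congr 1
    have himg : Real.exp '' Ioi (0 : ℝ) = Ioi (1 : ℝ) := by
      ext x
      constructor
      · rintro ⟨u, hu, rfl⟩
        exact Real.one_lt_exp_iff.mpr hu
      · intro hx
        have hx' : (1 : ℝ) < x := hx
        exact ⟨Real.log x, Real.log_pos hx', Real.exp_log (by linarith)⟩
    rw [← himg, integral_image_eq_integral_abs_deriv_smul measurableSet_Ioi
      (fun x _ => (Real.hasDerivAt_exp x).hasDerivWithinAt) Real.exp_injective.injOn]
    apply integral_congr_ae
    filter_upwards with u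
    have h0 : (Real.exp u : ℂ) ≠ 0 := by
      exact_mod_cast (Real.exp_pos u).ne'
    rw [abs_of_pos (Real.exp_pos u), Complex.real_smul, Complex.cpow_def_of_ne_zero h0,
      ← Complex.ofReal_log (Real.exp_pos u).le, Real.log_exp]
    unfold HH
    push_cast
    have h1 : Complex.exp (u : ℂ) * Complex.exp (u * -(1 + s + 1)) =
        Complex.exp (-u : ℂ) * Complex.exp (-s * u) := by
      rw [← Complex.exp_add, ← Complex.exp_add]
      congr 1
      ring
    linear_combination (∑ k ∈ Finset.Icc 1 ⌊Real.exp u⌋₊, (f k : ℂ)) * h1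
  · rw [Asymptotics.isBigO_iff]
    refine ⟨C, ?_⟩
    filter_upwards with n
    have h1 := hC n (Nat.cast_nonneg n)
    rw [Nat.floor_natCast] at h1
    rw [Real.rpow_one, Real.norm_eq_abs, Real.norm_eq_abs,
      abs_of_nonneg (Finset.sum_nonneg fun k _ => hf k), abs_of_nonneg (Nat.cast_nonneg n)]
    exact h1

/-- A theorem of Wiener-Ikehara type. -/
theorem wiener_ikehara (hf : ∀ n, 0 ≤ f n) {C c : ℝ} (hc : 0 ≤ c)
    (hC : ∀ x : ℝ, 0 ≤ x → ∑ k ∈ Finset.Icc 1 ⌊x⌋₊, f k ≤ C * x)
    (g : ℂ → ℂ) (hg : ContinuousOn g {s | 1 ≤ s.re})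
    (hfg : ∀ s : ℂ, 1 < s.re → LSeries (fun n => (f n : ℂ)) s - c / (s - 1) = g s) :
    Tendsto (fun N : ℕ => (∑ k ∈ Finset.Icc 1 N, f k) / N) atTop (𝓝 c) := by
  have hC0 : 0 ≤ C := by
    have := hC 1 zero_le_one
    rw [mul_one] at this
    exact (Finset.sum_nonneg fun k _ => hf k).trans this
  have hm := measurable_HH f
  have h0 : ∀ u, 0 ≤ HH f u := fun u =>
    mul_nonneg (Finset.sum_nonneg fun k _ => hf k) (Real.exp_pos _).le
  have hB : ∀ u, HH f u ≤ C := by
    intro u
    have h1 := hC (Real.exp u) (Real.exp_pos u).le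
    have h2 := mul_le_mul_of_nonneg_right h1 (Real.exp_pos (-u)).le
    rwa [mul_assoc, ← Real.exp_add, add_neg_cancel, Real.exp_zero, mul_one] at h2
  have hmono : ∀ u v, 0 ≤ u → u ≤ v → HH f u * Real.exp u ≤ HH f v * Real.exp v := by
    intro u v _ huv
    have e1 : ∀ w, HH f w * Real.exp w = ∑ k ∈ Finset.Icc 1 ⌊Real.exp w⌋₊, f k := by
      intro w
      unfold HH
      rw [mul_assoc, ← Real.exp_add, neg_add_cancel, Real.exp_zero, mul_one]
    rw [e1, e1]
    apply Finset.sum_le_sum_of_subset_of_nonneg
    · apply Finset.Icc_subset_Icc_right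
      exact Nat.floor_le_floor (Real.exp_le_exp.mpr huv)
    · intro k _ _
      exact hf k
  have hD : ∀ u, |HH f u - c| ≤ C + c := by
    intro u
    rw [abs_le]
    constructor
    · linarith [h0 u]
    · linarith [hB u]
  have hG : ContinuousOn (fun s : ℂ => (g (1 + s) - c) / (1 + s)) {s | 0 ≤ s.re} := by
    apply ContinuousOn.div
    · apply ContinuousOn.sub _ continuousOn_const
      apply hg.comp (by fun_prop)
      intro s hs
      have : 0 ≤ s.re := hs
      simpa using this
    · fun_prop
    · intro s hs h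
      have h1 : 0 ≤ s.re := hs
      have h2 := congrArg Complex.re h
      simp only [Complex.add_re, Complex.one_re, Complex.zero_re] at h2
      linarith
  have hGs : ∀ s : ℂ, 0 < s.re →
      ∫ u in Ioi (0 : ℝ), ((HH f u - c : ℝ) : ℂ) * Complex.exp (-s * u) =
        (g (1 + s) - c) / (1 + s) := by
    intro s hs
    have hs0 : s ≠ 0 := by
      intro h
      rw [h] at hs
      simp at hs
    have hs1 : 1 + s ≠ 0 := by
      intro h
      have h2 := congrArg Complex.re h
      simp only [Complex.add_re, Complex.one_re, Complex.zero_re] at h2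
      linarith
    have hexp : IntegrableOn (fun u : ℝ => Complex.exp (-s * u)) (Ioi 0) :=
      integrableOn_exp_mul_complex_Ioi (by simpa using hs) 0
    have hint1 : IntegrableOn (fun u : ℝ => (HH f u : ℂ) * Complex.exp (-s * u)) (Ioi 0) := by
      apply Integrable.bdd_mul (c := C) hexp
      · exact (Complex.measurable_ofReal.comp hm).aestronglyMeasurable
      · filter_upwards with u
        rw [Complex.norm_real, Real.norm_eq_abs, abs_of_nonneg (h0 u)]
        exact hB u
    have e1 : ∫ u in Ioi (0 : ℝ), ((HH f u - c : ℝ) : ℂ) * Complex.exp (-s * u) =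
        (∫ u in Ioi (0 : ℝ), (HH f u : ℂ) * Complex.exp (-s * u)) -
          ∫ u in Ioi (0 : ℝ), (c : ℂ) * Complex.exp (-s * u) := by
      rw [← integral_sub hint1 (hexp.const_mul (c : ℂ))]
      apply integral_congr_ae
      filter_upwards with u
      push_cast
      ring
    have e2 : ∫ u in Ioi (0 : ℝ), (c : ℂ) * Complex.exp (-s * u) = c / s := by
      rw [integral_const_mul, integral_exp_mul_complex_Ioi (by simpa using hs) 0]
      simp only [Complex.ofReal_zero, mul_zero, Complex.exp_zero]
      field_simp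
    have e3 := laplace_HH f hf hC hs
    have e4 := hfg (1 + s) (by simpa using hs)
    rw [e3] at e4
    have e5 : (1 + s - 1 : ℂ) = s := by ring
    rw [e5] at e4
    rw [e1, e2, ← e4]
    field_simp
    ring
  have hk : ∀ l : ℝ, 0 < l → Tendsto (fun y => ∫ u in Ioi (0 : ℝ),
      (HH f u - c) * fej (l * (u - y))) atTop (𝓝 0) := by
    intro l hl
    exact kernel_tendsto (h := fun u => HH f u - c) (by fun_prop) hD hG hGs hl
  have hT := tauber hm h0 hB hc hmono hk
  have hlog : Tendsto (fun N : ℕ => Real.log N) atTop atTop :=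
    Real.tendsto_log_atTop.comp tendsto_natCast_atTop_atTop
  refine (hT.comp hlog).congr' ?_
  filter_upwards [eventually_ge_atTop 1] with N hN
  have hN0 : (0 : ℝ) < N := by exact_mod_cast hN
  simp only [Function.comp_apply, HH]
  rw [Real.exp_log hN0, Nat.floor_natCast, Real.exp_neg, Real.exp_log hN0]
  rfl

end ikehara

open ArithmeticFunction in
/-- the prime number theorem for progressions, with the von Mangoldt function -/
theorem pnt_vonMangoldt {q : ℕ} [NeZero q] {a : ZMod q} (ha : IsUnit a) :
    Tendsto (fun N : ℕ => (∑ n ∈ Finset.Icc 1 N, vonMangoldt.residueClass a n) / N) atTop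
      (𝓝 (1 / (q.totient : ℝ))) := by
  refine wiener_ikehara (vonMangoldt.residueClass a) (vonMangoldt.residueClass_nonneg a)
    (C := Real.log 4 + 4) (c := 1 / (q.totient : ℝ)) (by positivity) ?_
    (vonMangoldt.LFunctionResidueClassAux a) (vonMangoldt.continuousOn_LFunctionResidueClassAux a)
    ?_
  · intro x hx
    refine le_trans ?_ (Chebyshev.psi_le_const_mul_self hx)
    rw [Chebyshev.psi]
    exact Finset.sum_le_sum fun k _ => vonMangoldt.residueClass_le a k
  · intro s hs
    rw [vonMangoldt.eqOn_LFunctionResidueClassAux ha hs]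
    simp only [one_div, Complex.ofReal_inv, Complex.ofReal_natCast]

/-- The prime number theorem for arithmetic progressions. -/
theorem pnt_ap (q a : ℕ) (hq : 0 < q) (h : a.Coprime q) :
    Filter.Tendsto (fun N : ℕ => (∑ n ∈ Finset.Icc 1 N with n % q = a % q, lam n) / N)
      Filter.atTop (nhds (1 / (q.totient : ℝ))) := by
  have : NeZero q := ⟨hq.ne'⟩
  have ha : IsUnit (a : ZMod q) := (ZMod.isUnit_iff_coprime a q).mpr h
  have h1 := pnt_vonMangoldt ha
  -- the error term
  have h2 : Tendsto (fun N : ℕ => 2 * (Real.log N / Real.sqrt N)) atTop (𝓝 0) := by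
    have h3 : Tendsto (fun x : ℝ => Real.log x / x ^ ((1 : ℝ) / 2)) atTop (𝓝 0) :=
      (isLittleO_log_rpow_atTop (by norm_num : (0 : ℝ) < 1 / 2)).tendsto_div_nhds_zero
    have h4 := (h3.comp tendsto_natCast_atTop_atTop).const_mul 2
    rw [mul_zero] at h4
    refine h4.congr fun N => ?_
    simp only [Function.comp_apply, Real.sqrt_eq_rpow]
  have hpt : ∀ n : ℕ, 0 ≤ ArithmeticFunction.vonMangoldt.residueClass (a : ZMod q) n -
      (if n % q = a % q then lam n else 0) ∧
      ArithmeticFunction.vonMangoldt.residueClass (a : ZMod q) n -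
      (if n % q = a % q then lam n else 0) ≤
        (if n.Prime then 0 else ArithmeticFunction.vonMangoldt n) := by
    intro n
    have hv : 0 ≤ ArithmeticFunction.vonMangoldt n := ArithmeticFunction.vonMangoldt_nonneg
    by_cases hn : n % q = a % q
    · have hn' : (n : ZMod q) = a := (ZMod.natCast_eq_natCast_iff' n a q).mpr hn
      rw [if_pos hn, ArithmeticFunction.vonMangoldt.residueClass,
        Set.indicator_of_mem (by exact hn')]
      unfold lam
      by_cases hp : n.Prime
      · rw [if_pos hp, if_pos hp, ArithmeticFunction.vonMangoldt_apply_prime hp, sub_self]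
        exact ⟨le_rfl, le_rfl⟩
      · rw [if_neg hp, if_neg hp, sub_zero]
        exact ⟨hv, le_rfl⟩
    · have hn' : ¬ (n : ZMod q) = a := fun h =>
        hn ((ZMod.natCast_eq_natCast_iff' n a q).mp h)
      rw [if_neg hn, ArithmeticFunction.vonMangoldt.residueClass,
        Set.indicator_of_notMem (by exact hn'), sub_zero]
      refine ⟨le_rfl, ?_⟩
      split_ifs
      · exact le_rfl
      · exact hv
  have hdiff : Tendsto (fun N : ℕ =>
      (∑ n ∈ Finset.Icc 1 N, ArithmeticFunction.vonMangoldt.residueClass (a : ZMod q) n) / N -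
        (∑ n ∈ Finset.Icc 1 N with n % q = a % q, lam n) / N) atTop (𝓝 0) := by
    refine squeeze_zero' ?_ ?_ h2
    · filter_upwards with N
      rw [← sub_div, Finset.sum_filter, ← Finset.sum_sub_distrib]
      exact div_nonneg (Finset.sum_nonneg fun n _ => (hpt n).1) (Nat.cast_nonneg N)
    · filter_upwards [eventually_ge_atTop 1] with N hN
      have hN1 : (1 : ℝ) ≤ N := by exact_mod_cast hN
      have hN0 : (0 : ℝ) < N := by linarith
      rw [← sub_div, Finset.sum_filter, ← Finset.sum_sub_distrib, div_le_iff₀ hN0]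
      have h5 := Chebyshev.psi_sub_theta_le hN1
      rw [Chebyshev.psi_sub_theta_eq_sum_not_prime, Nat.floor_natCast, Finset.sum_filter] at h5
      have h6 : ∑ n ∈ Finset.Icc 1 N, (ArithmeticFunction.vonMangoldt.residueClass (a : ZMod q) n -
          (if n % q = a % q then lam n else 0)) ≤
          ∑ n ∈ Finset.Ioc 0 N, (if ¬ n.Prime then ArithmeticFunction.vonMangoldt n else 0) := by
        have e1 : Finset.Icc 1 N = Finset.Ioc 0 N := by
          ext n
          simp only [Finset.mem_Icc, Finset.mem_Ioc]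
          omega
        rw [e1]
        apply Finset.sum_le_sum
        intro n _
        refine (hpt n).2.trans ?_
        split_ifs <;> simp_all
      have h7 : 2 * Real.sqrt N * Real.log N = 2 * (Real.log N / Real.sqrt N) * N := by
        have hs : Real.sqrt N ≠ 0 := (Real.sqrt_pos.mpr hN0).ne'
        have hs2 : Real.sqrt N * Real.sqrt N = N := Real.mul_self_sqrt hN0.le
        field_simp
        rw [pow_two, hs2, mul_comm]
      linarith
  have := h1.sub hdiff
  simpa using this

end Pool.Agent.Lib.GT
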