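import Pool.Agent.Lib.MP_7b7e48_nt.GT.RoughExpAux
import Pool.Agent.Lib.MP_7b7e48_nt.GT.FundLemma

/-!
# Exponential sums over rough numbers off the major arcs
-/

namespace Pool.Agent.Lib.GT

theorem rough_exp : ∀ ε : ℝ, 0 < ε → ∃ δ₀ : ℝ, 0 < δ₀ ∧ ∀ δ : ℝ, 0 < δ → δ ≤ δ₀ →
    ∃ Q M₀ : ℕ, ∀ M : ℕ, M₀ ≤ M → ∀ θ : ℝ, ¬ Major Q M θ →
      ‖∑ m ∈ (Finset.Icc 1 M).filter (Rough ⌊(M : ℝ) ^ δ⌋₊), e (θ * m)‖ ≤ ε * M / Real.log M :=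
  RE.rough_exp_of fund_lemma brun_weights

end Pool.Agent.Lib.GT
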