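import Pool.Agent.Lib.MP_7b7e48_nt.GT.UniformArith

/-!
# Goldbach-Turan project: module UN, Fourier uniformity of the primes

`uniform_of` derives the statement `uniform` of the skeleton from the statements of
`minor_arcs` and `pnt_ap`.
-/

open Finset Filter Topology

namespace Pool.Agent.Lib.GT

/-- the statement of `pnt_ap` -/
def PntAp : Prop := ∀ q a : ℕ, 0 < q → a.Coprime q →
    Filter.Tendsto (fun N : ℕ => (∑ n ∈ Finset.Icc 1 N with n % q = a % q, lam n) / N)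
      Filter.atTop (nhds (1 / (q.totient : ℝ)))

/-- the statement of `minor_arcs` -/
def MinorArcs : Prop := ∀ ε : ℝ, 0 < ε → ∃ Q X₀ : ℕ, ∀ X : ℕ, X₀ ≤ X → ∀ α : ℝ, ¬ Major Q X α →
    ‖∑ n ∈ Finset.Icc 1 X, (lam n : ℂ) * e (α * n)‖ ≤ ε * X

theorem lam_zero : lam 0 = 0 := by
  unfold lam
  rw [if_neg Nat.not_prime_zero]

theorem Lw_zero {w : ℕ} (hw : 2 ≤ w) : Lw w 0 = 0 := by
  unfold Lw
  rw [if_neg]
  intro h
  have := h 2 Nat.prime_two (dvd_zero 2)
  omega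

theorem sum_Icc_eq_range {F : ℕ → ℂ} (h0 : F 0 = 0) (N : ℕ) :
    ∑ n ∈ Icc 1 N, F n = ∑ n ∈ range (N + 1), F n := by
  rw [Finset.sum_range_succ', h0, add_zero]
  rw [Finset.range_eq_Ico, Finset.sum_Ico_add' F 0 N 1]
  rfl

theorem classSum_bdd {q c : ℕ} (hq : 0 < q) (hc : ¬ c.Coprime q) (N : ℕ) :
    ∑ n ∈ Icc 1 N with n % q = c, lam n ≤ ∑ n ∈ range (q + 1), lam n := by
  have h1 : ∑ n ∈ Icc 1 N with n % q = c, lam n =
      ∑ n ∈ (Icc 1 N).filter (fun n => n % q = c ∧ n.Prime), lam n := by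
    rw [← Finset.filter_filter, Finset.sum_filter (fun n : ℕ => n.Prime)]
    refine Finset.sum_congr rfl fun n _ => ?_
    by_cases hp : n.Prime
    · rw [if_pos hp]
    · rw [if_neg hp]
      unfold lam
      rw [if_neg hp]
  rw [h1]
  refine Finset.sum_le_sum_of_subset_of_nonneg ?_ fun n _ _ => lam_nonneg n
  intro n hn
  rw [Finset.mem_filter] at hn
  obtain ⟨_, h2, h3⟩ := hn
  rw [Finset.mem_range]
  have h4 : ¬ n.Coprime q := by
    intro h5
    apply hc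
    rw [← h2]
    unfold Nat.Coprime at h5 ⊢
    rw [← Nat.gcd_rec, Nat.gcd_comm]
    exact h5
  have h5 : n ∣ q := (Nat.Prime.dvd_iff_not_coprime h3).mpr h4
  have := Nat.le_of_dvd hq h5
  omega

theorem tendsto_lam_e (hpnt : PntAp) {q : ℕ} (hq : 0 < q) (a : ℕ) :
    Tendsto (fun N : ℕ => (∑ n ∈ range (N + 1), (lam n : ℂ) * e ((a : ℝ) / q * n)) / (N : ℂ))
      atTop (nhds (cU q a)) := by
  set A : ℕ → ℕ → ℝ := fun c N => ∑ n ∈ Icc 1 N with n % q = c, lam n with hA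
  have hlim : ∀ c ∈ range q, Tendsto (fun N : ℕ => A c N / N) atTop
      (nhds (if c.Coprime q then 1 / (q.totient : ℝ) else 0)) := by
    intro c hc
    rw [Finset.mem_range] at hc
    split_ifs with hcop
    · have := hpnt q c hq hcop
      rwa [Nat.mod_eq_of_lt hc] at this
    · refine squeeze_zero (g := fun N : ℕ => (∑ n ∈ range (q + 1), lam n) / N) ?_ ?_ ?_
      · intro N
        exact div_nonneg (Finset.sum_nonneg fun n _ => lam_nonneg n) (Nat.cast_nonneg N)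
      · intro N
        exact div_le_div_of_nonneg_right (classSum_bdd hq hcop N) (Nat.cast_nonneg N)
      · exact tendsto_const_div_atTop_nhds_zero_nat _
  have heq : ∀ N : ℕ, (∑ n ∈ range (N + 1), (lam n : ℂ) * e ((a : ℝ) / q * n)) / (N : ℂ) =
      ∑ c ∈ range q, ((A c N / N : ℝ) : ℂ) * e ((a : ℝ) / q * c) := by
    intro N
    rw [← sum_Icc_eq_range (by rw [lam_zero]; simp)]
    rw [← Finset.sum_fiberwise_of_maps_to (s := Icc 1 N) (t := range q) (g := fun n => n % q)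
      (fun n _ => Finset.mem_range.mpr (Nat.mod_lt _ hq))]
    rw [Finset.sum_div]
    refine Finset.sum_congr rfl fun c hc => ?_
    rw [Finset.sum_congr rfl (g := fun n => (lam n : ℂ) * e ((a : ℝ) / q * c))]
    · rw [← Finset.sum_mul]
      simp only [hA]
      push_cast
      ring
    · intro n hn
      rw [Finset.mem_filter] at hn
      have := mod_of_periodic (g := fun n => e ((a : ℝ) / q * n)) (fun n => e_periodic hq a n) n
      rw [← this, hn.2]
  simp_rw [heq]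
  have hsum := tendsto_finsetSum (range q) (fun c hc =>
    ((Complex.continuous_ofReal.tendsto _).comp (hlim c hc)).mul_const (e ((a : ℝ) / q * c)))
  have hcU : cU q a = ∑ c ∈ range q,
      ((if c.Coprime q then 1 / (q.totient : ℝ) else 0 : ℝ) : ℂ) * e ((a : ℝ) / q * c) := by
    unfold cU
    rw [Finset.sum_filter, Finset.sum_div]
    refine Finset.sum_congr rfl fun c _ => ?_
    split_ifs
    · push_cast
      ring
    · simp
  rw [hcU]
  exact hsum

theorem tendsto_Lw_e (w : ℕ) {q : ℕ} (hq : 0 < q) (a : ℕ) :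
    Tendsto (fun N : ℕ => (∑ n ∈ range (N + 1), (Lw w n : ℂ) * e ((a : ℝ) / q * n)) / (N : ℂ))
      atTop (nhds (cL w q a)) := by
  have hT : 0 < WpU w * q := Nat.mul_pos (WpU_pos w) hq
  set G : ℕ → ℂ := fun n => (Lw w n : ℂ) * e ((a : ℝ) / q * n) with hG
  have hper : ∀ n, G (n + WpU w * q) = G n := by
    intro n
    simp only [hG]
    rw [Lw_add_mul (Dvd.intro _ rfl)]
    congr 1
    have h1 := periodic_mul (G := fun n => e ((a : ℝ) / q * n)) (fun n => e_periodic hq a n) (WpU w) n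
    rw [← h1]
    congr 3
    ring
  set B : ℝ := 2 * ∑ c ∈ range (WpU w * q), ‖G c‖ with hB
  have hbd := norm_sum_periodic_sub_le hT hper
  rw [tendsto_iff_norm_sub_tendsto_zero]
  refine squeeze_zero' (Eventually.of_forall fun _ => norm_nonneg _)
    (g := fun N : ℕ => (B + ‖cL w q a‖) / N) ?_ (tendsto_const_div_atTop_nhds_zero_nat _)
  filter_upwards [eventually_gt_atTop 0] with N hN
  have hN0 : (N : ℂ) ≠ 0 := by exact_mod_cast hN.ne'
  have hN1 : (0 : ℝ) < N := by exact_mod_cast hN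
  have h1 : (∑ n ∈ range (N + 1), G n) / (N : ℂ) - cL w q a =
      ((∑ n ∈ range (N + 1), G n - ((N + 1 : ℕ) : ℂ) * cL w q a) + cL w q a) / N := by
    push_cast
    field_simp
    ring
  rw [h1, norm_div, Complex.norm_natCast]
  refine div_le_div_of_nonneg_right ?_ hN1.le
  refine (norm_add_le _ _).trans ?_
  have h2 := hbd (N + 1)
  have h3 : (∑ c ∈ range (WpU w * q), G c) / ((WpU w * q : ℕ) : ℂ) = cL w q a := rfl
  rw [h3] at h2
  linarith

/-- uniform remainder in the asymptotics on a rational point -/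
theorem remainder_bound (hpnt : PntAp) (w : ℕ) {q : ℕ} (hq : 0 < q) (a : ℕ) {η : ℝ} (hη : 0 < η) :
    ∃ B : ℝ, 0 ≤ B ∧ ∀ N : ℕ,
      ‖∑ n ∈ range (N + 1), ((lam n - Lw w n : ℝ) : ℂ) * e ((a : ℝ) / q * n) -
        N * (cU q a - cL w q a)‖ ≤ η * N + B := by
  have h1 := (tendsto_lam_e hpnt hq a).sub (tendsto_Lw_e w hq a)
  rw [Metric.tendsto_atTop] at h1
  obtain ⟨N₀, hN₀⟩ := h1 η hη
  set F : ℕ → ℝ := fun N => ‖∑ n ∈ range (N + 1), ((lam n - Lw w n : ℝ) : ℂ) *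
    e ((a : ℝ) / q * n) - N * (cU q a - cL w q a)‖ with hF
  refine ⟨∑ N ∈ range (N₀ + 1), F N, Finset.sum_nonneg fun _ _ => norm_nonneg _, fun N => ?_⟩
  by_cases hN : N < N₀ + 1
  · have h2 : F N ≤ ∑ N ∈ range (N₀ + 1), F N :=
      Finset.single_le_sum (f := F) (fun _ _ => norm_nonneg _) (Finset.mem_range.mpr hN)
    have h3 : 0 ≤ η * N := by positivity
    exact h2.trans (by linarith)
  · have hN' : N₀ ≤ N := by omega
    have hNpos : 0 < N := by omega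
    have h2 := hN₀ N hN'
    have hN0 : (N : ℂ) ≠ 0 := by exact_mod_cast hNpos.ne'
    have hN1 : (0 : ℝ) < N := by exact_mod_cast hNpos
    rw [dist_eq_norm] at h2
    have h3 : ∑ n ∈ range (N + 1), ((lam n - Lw w n : ℝ) : ℂ) * e ((a : ℝ) / q * n) -
        N * (cU q a - cL w q a) =
        N * ((∑ n ∈ range (N + 1), (lam n : ℂ) * e ((a : ℝ) / q * n)) / (N : ℂ) -
          (∑ n ∈ range (N + 1), (Lw w n : ℂ) * e ((a : ℝ) / q * n)) / (N : ℂ) -
          (cU q a - cL w q a)) := by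
      have h4 : ∑ n ∈ range (N + 1), ((lam n - Lw w n : ℝ) : ℂ) * e ((a : ℝ) / q * n) =
          ∑ n ∈ range (N + 1), (lam n : ℂ) * e ((a : ℝ) / q * n) -
          ∑ n ∈ range (N + 1), (Lw w n : ℂ) * e ((a : ℝ) / q * n) := by
        rw [← Finset.sum_sub_distrib]
        refine Finset.sum_congr rfl fun n _ => ?_
        push_cast
        ring
      rw [h4]
      field_simp
    rw [h3, norm_mul, Complex.norm_natCast]
    have hB0 : 0 ≤ ∑ N ∈ range (N₀ + 1), F N := Finset.sum_nonneg fun _ _ => norm_nonneg _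
    nlinarith

theorem major_mono {Q Q' : ℕ} (h : Q ≤ Q') {X α : ℝ} (hX : 0 ≤ X) (hM : Major Q X α) :
    Major Q' X α := by
  obtain ⟨q, h1, h2, a, h3⟩ := hM
  refine ⟨q, h1, h2.trans h, a, h3.trans ?_⟩
  exact div_le_div_of_nonneg_right (by exact_mod_cast h) hX

/-- reduced form of a major arc point -/
theorem major_reduced {Q : ℕ} {X α : ℝ} (h : Major Q X α) :
    ∃ q a : ℕ, 0 < q ∧ q ≤ Q ∧ a < q ∧ a.Coprime q ∧ ∃ β : ℝ, |β| ≤ Q / X ∧
      ∀ n : ℕ, e (α * n) = e ((a : ℝ) / q * n) * e (β * n) := by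
  obtain ⟨q₀, h1, h2, a₀, h3⟩ := h
  set x : ℚ := (a₀ : ℚ) / (q₀ : ℚ) with hx
  have hq₀ : (q₀ : ℚ) ≠ 0 := by exact_mod_cast (by omega : q₀ ≠ 0)
  have hxr : (x : ℝ) = (a₀ : ℝ) / (q₀ : ℝ) := by
    rw [hx]; push_cast; rfl
  have hden : x.den ≤ q₀ := by
    have h4 : (x.den : ℤ) ∣ q₀ := by
      have h5 := Rat.den_dvd a₀ (q₀ : ℤ)
      rw [Rat.divInt_eq_div] at h5
      exact h5
    exact Nat.le_of_dvd (by omega) (by exact_mod_cast h4)
  have hdpos : 0 < x.den := x.den_pos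
  have hdz : (x.den : ℤ) ≠ 0 := by exact_mod_cast hdpos.ne'
  set r : ℤ := x.num % x.den with hr
  have hr0 : 0 ≤ r := Int.emod_nonneg _ hdz
  have hr1 : r < x.den := Int.emod_lt_of_pos _ (by exact_mod_cast hdpos)
  refine ⟨x.den, r.toNat, hdpos, hden.trans h2, ?_, ?_, α - (a₀ : ℝ) / q₀, h3, ?_⟩
  · omega
  · have h5 : x.num.natAbs.Coprime x.den := x.reduced
    have h6 : IsCoprime x.num (x.den : ℤ) := by
      rw [Int.isCoprime_iff_gcd_eq_one]
      exact h5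
    have h7 : IsCoprime r (x.den : ℤ) := by
      have h8 : x.num = r + x.den * (x.num / x.den) := by
        rw [hr]
        exact (Int.emod_add_mul_ediv _ _).symm
      rw [h8] at h6
      exact (IsCoprime.add_mul_left_left_iff).mp h6
    have h9 : ((r.toNat : ℕ) : ℤ) = r := Int.toNat_of_nonneg hr0
    rw [← h9] at h7
    exact_mod_cast Nat.isCoprime_iff_coprime.mp h7
  · intro n
    rw [← e_add]
    have h8 : x.num = r + x.den * (x.num / x.den) := by
      rw [hr]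
      exact (Int.emod_add_mul_ediv _ _).symm
    have h9 : ((r.toNat : ℕ) : ℤ) = r := Int.toNat_of_nonneg hr0
    have h10 : ((r.toNat : ℕ) : ℝ) = (r : ℝ) := by exact_mod_cast congrArg (Int.cast : ℤ → ℝ) h9
    have hd0 : (x.den : ℝ) ≠ 0 := by exact_mod_cast hdpos.ne'
    have h11 : (a₀ : ℝ) / q₀ = (r : ℝ) / x.den + (x.num / x.den : ℤ) := by
      rw [← hxr]
      have h12 : (x : ℝ) = (x.num : ℝ) / x.den := by
        exact_mod_cast congrArg (Rat.cast : ℚ → ℝ) (Rat.num_div_den x).symm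
      rw [h12]
      have h13 : (x.num : ℝ) = (r : ℝ) + x.den * ((x.num / x.den : ℤ) : ℝ) := by
        exact_mod_cast congrArg (Int.cast : ℤ → ℝ) h8
      rw [h13]
      field_simp
    rw [show α * n = ((r.toNat : ℕ) : ℝ) / x.den * n + (α - (a₀ : ℝ) / q₀) * n +
      (((x.num / x.den) * n : ℤ) : ℝ) by
        rw [h10, h11]; push_cast; ring]
    rw [e_add_int]

/-- the bound on major arcs -/
theorem uniform_major (hpnt : PntAp) {w : ℕ} (hw : 2 ≤ w) (Q : ℕ) {κ : ℝ} (hκ : 0 < κ) :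
    ∃ Y₀ : ℕ, ∀ Y : ℕ, Y₀ ≤ Y → ∀ α : ℝ, Major Q Y α →
      ‖∑ n ∈ range (Y + 1), ((lam n - Lw w n : ℝ) : ℂ) * e (α * n)‖ ≤ (1 / w + κ) * Y := by
  set P : ℝ := 1 + 4 * Real.pi * Q with hP
  have hP0 : 0 < P := by positivity
  set η : ℝ := κ / (2 * P) with hη
  have hη0 : 0 < η := by positivity
  have hex : ∀ q a : ℕ, ∃ B : ℝ, 0 ≤ B ∧ (0 < q → ∀ N : ℕ,
      ‖∑ n ∈ range (N + 1), ((lam n - Lw w n : ℝ) : ℂ) * e ((a : ℝ) / q * n) -
        N * (cU q a - cL w q a)‖ ≤ η * N + B) := by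
    intro q a
    by_cases hq : 0 < q
    · obtain ⟨B, h1, h2⟩ := remainder_bound hpnt w hq a hη0
      exact ⟨B, h1, fun _ => h2⟩
    · exact ⟨0, le_rfl, fun h => absurd h hq⟩
  choose B hB0 hB using hex
  set Bt : ℝ := ∑ q ∈ range (Q + 1), ∑ a ∈ range (Q + 1), B q a with hBt
  have hBle : ∀ q a : ℕ, q ≤ Q → a ≤ Q → B q a ≤ Bt := by
    intro q a hq ha
    have h1 : B q a ≤ ∑ a ∈ range (Q + 1), B q a :=
      Finset.single_le_sum (f := fun a => B q a) (fun a _ => hB0 q a)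
        (Finset.mem_range.mpr (by omega))
    have h2 : ∑ a ∈ range (Q + 1), B q a ≤ Bt :=
      Finset.single_le_sum (f := fun q => ∑ a ∈ range (Q + 1), B q a)
        (fun q _ => Finset.sum_nonneg fun a _ => hB0 q a) (Finset.mem_range.mpr (by omega))
    exact h1.trans h2
  have hBt0 : 0 ≤ Bt := Finset.sum_nonneg fun q _ => Finset.sum_nonneg fun a _ => hB0 q a
  obtain ⟨Y₀, hY₀⟩ := exists_nat_ge (2 * ((Bt + 1) * P + 1) / κ)
  refine ⟨Y₀ + 1, fun Y hY α hα => ?_⟩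
  have hY1 : (1 : ℝ) ≤ Y := by exact_mod_cast (by omega : 1 ≤ Y)
  have hYpos : (0 : ℝ) < Y := by linarith
  have hYκ : 2 * ((Bt + 1) * P + 1) ≤ κ * Y := by
    rw [div_le_iff₀ hκ] at hY₀
    have : (Y₀ : ℝ) ≤ Y := by exact_mod_cast (by omega : Y₀ ≤ Y)
    nlinarith
  obtain ⟨q, a, hq, hqQ, haq, hcop, β, hβ, hsplit⟩ := major_reduced hα
  set D : ℂ := cU q a - cL w q a with hD
  have hDw : ‖D‖ ≤ 1 / w := norm_cU_sub_cL_le hw hq hcop
  have hw1 : (1 : ℝ) / w ≤ 1 := by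
    rw [div_le_one (by positivity)]
    exact_mod_cast (by omega : 1 ≤ w)
  set F : ℕ → ℂ := fun n => ((lam n - Lw w n : ℝ) : ℂ) * e ((a : ℝ) / q * n) with hF
  have hdec : ∑ n ∈ range (Y + 1), ((lam n - Lw w n : ℝ) : ℂ) * e (α * n) =
      ∑ n ∈ range (Y + 1), (F n - D) * e (β * n) + ∑ n ∈ range (Y + 1), D * e (β * n) := by
    rw [← Finset.sum_add_distrib]
    refine Finset.sum_congr rfl fun n _ => ?_
    rw [hsplit n]
    simp only [hF]
    ring
  have hpart : ∀ n ≤ Y + 1, ‖∑ k ∈ range n, (F k - D)‖ ≤ η * Y + Bt + 1 := by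
    intro n hn
    rcases n with _ | m
    · simp
      positivity
    · have h1 : ∑ k ∈ range (m + 1), (F k - D) =
          (∑ k ∈ range (m + 1), F k - m * D) - D := by
        rw [Finset.sum_sub_distrib, Finset.sum_const, Finset.card_range, nsmul_eq_mul]
        push_cast
        ring
      rw [h1]
      have h2 := hB q a hq m
      have h3 := hBle q a hqQ (by omega)
      have h4 : (m : ℝ) ≤ Y := by exact_mod_cast (by omega : m ≤ Y)
      calc _ ≤ _ := norm_sub_le _ _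
        _ ≤ (η * m + B q a) + 1 := add_le_add h2 (hDw.trans hw1)
        _ ≤ _ := by nlinarith
  have hg : ∀ n : ℕ, ‖e (β * n)‖ ≤ 1 := fun n => (norm_e _).le
  have hd : ∀ n : ℕ, ‖e (β * n) - e (β * ((n + 1 : ℕ) : ℝ))‖ ≤ 2 * Real.pi * (Q / Y) := by
    intro n
    have h1 : e (β * n) - e (β * ((n + 1 : ℕ) : ℝ)) = - (e (β * n) * (e β - 1)) := by
      rw [show β * ((n + 1 : ℕ) : ℝ) = β * n + β by push_cast; ring, e_add]
      ring
    rw [h1, norm_neg, norm_mul, norm_e, one_mul]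
    refine (norm_e_sub_one_le β).trans ?_
    exact mul_le_mul_of_nonneg_left hβ (by positivity)
  have hA : 0 ≤ η * Y + Bt + 1 := by positivity
  have h1 := norm_sum_mul_le hA hg hd (Y + 1) hpart
  have h2 : ‖∑ n ∈ range (Y + 1), D * e (β * n)‖ ≤ (Y + 1) * (1 / w) := by
    refine (norm_sum_le _ _).trans ?_
    calc _ ≤ ∑ _n ∈ range (Y + 1), (1 / (w : ℝ)) := by
          refine Finset.sum_le_sum fun n _ => ?_
          rw [norm_mul, norm_e, mul_one]
          exact hDw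
      _ = _ := by rw [Finset.sum_const, Finset.card_range, nsmul_eq_mul]; push_cast; ring
  have h3 : 1 + ((Y + 1 : ℕ) : ℝ) * (2 * Real.pi * (Q / Y)) ≤ P := by
    rw [hP]
    have h4 : ((Y + 1 : ℕ) : ℝ) * (2 * Real.pi * (Q / Y)) =
        2 * Real.pi * Q * (((Y + 1 : ℕ) : ℝ) / Y) := by ring
    have h5 : ((Y + 1 : ℕ) : ℝ) / Y ≤ 2 := by
      rw [div_le_iff₀ hYpos]
      push_cast
      linarith
    have h6 : (0 : ℝ) ≤ 2 * Real.pi * Q := by positivity
    rw [h4]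
    nlinarith
  rw [hdec]
  calc _ ≤ _ := norm_add_le _ _
    _ ≤ (η * Y + Bt + 1) * P + (Y + 1) * (1 / w) :=
        add_le_add (h1.trans (mul_le_mul_of_nonneg_left h3 hA)) h2
    _ = (η * P) * Y + ((Bt + 1) * P + 1 / w) + Y * (1 / w) := by ring
    _ ≤ κ / 2 * Y + κ / 2 * Y + Y * (1 / w) := by
        have h7 : η * P = κ / 2 := by
          rw [hη]
          field_simp
        rw [h7]
        linarith
    _ = _ := by ring

/-- the bound on minor arcs -/
theorem uniform_minor (hmin : MinorArcs) (w : ℕ) {κ : ℝ} (hκ : 0 < κ) :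
    ∃ Q Y₀ : ℕ, ∀ Y : ℕ, Y₀ ≤ Y → ∀ α : ℝ, ¬ Major Q Y α →
      ‖∑ n ∈ range (Y + 1), ((lam n - Lw w n : ℝ) : ℂ) * e (α * n)‖ ≤ κ * Y := by
  obtain ⟨Q₁, X₁, h1⟩ := hmin (κ / 2) (by positivity)
  set S : ℝ := ∑ c ∈ range (WpU w), ‖(Lw w c : ℂ)‖ with hS
  have hS0 : 0 ≤ S := Finset.sum_nonneg fun _ _ => norm_nonneg _
  obtain ⟨Q₂, hQ₂⟩ := exists_nat_ge (2 * S / κ)
  obtain ⟨Y₂, hY₂⟩ := exists_nat_ge (4 * S / κ)
  refine ⟨max Q₁ (max (WpU w) (Q₂ + 1)), max X₁ (max (Y₂ + 1) 1), fun Y hY α hα => ?_⟩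
  set Q := max Q₁ (max (WpU w) (Q₂ + 1)) with hQ
  have hYX : X₁ ≤ Y := (le_max_left _ _).trans hY
  have hYY : Y₂ + 1 ≤ Y := ((le_max_left _ _).trans (le_max_right _ _)).trans hY
  have hY0 : (0 : ℝ) < Y := by exact_mod_cast (by omega : 0 < Y)
  have hα₁ : ¬ Major Q₁ Y α := fun h => hα (major_mono (le_max_left _ _) hY0.le h)
  have hlam := h1 Y hYX α hα₁
  rw [sum_Icc_eq_range (by rw [lam_zero]; simp)] at hlam
  have hQ1 : (1 : ℝ) ≤ Q := by
    have : Q₂ + 1 ≤ Q := (le_max_right _ _).trans (le_max_right _ _)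
    exact_mod_cast (by omega : 1 ≤ Q)
  have hQpos : (0 : ℝ) < Q := by linarith
  have hWQ : WpU w ≤ Q := (le_max_left _ _).trans (le_max_right _ _)
  have hW1 : (1 : ℝ) ≤ WpU w := by exact_mod_cast WpU_pos w
  have hdist : ∀ m : ℤ, (Q : ℝ) / Y ≤ |α * (WpU w : ℕ) - m| := by
    intro m
    by_contra hcon
    push Not at hcon
    apply hα
    refine ⟨WpU w, WpU_pos w, hWQ, m, ?_⟩
    have h2 : α - (m : ℝ) / (WpU w : ℕ) = (α * (WpU w : ℕ) - m) / (WpU w : ℕ) := by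
      field_simp
    rw [h2, abs_div, abs_of_pos (by linarith : (0 : ℝ) < ((WpU w : ℕ) : ℝ)), div_le_iff₀ (by linarith)]
    have h3 : (0 : ℝ) < Q / Y := by positivity
    nlinarith
  have hfour := four_mul_le_norm_e_sub_one hdist
  have hpos4 : (0 : ℝ) < 4 * (Q / Y) := by positivity
  have hne : e (α * (WpU w : ℕ)) ≠ 1 := by
    intro h
    rw [h, sub_self, norm_zero] at hfour
    linarith
  have hLw := norm_sum_periodic_e (WpU_pos w) (G := fun n => (Lw w n : ℂ))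
    (fun n => by rw [Lw_add_mul dvd_rfl]) hne (Y + 1)
  have hLw2 : ‖∑ n ∈ range (Y + 1), (Lw w n : ℂ) * e (α * n)‖ ≤ κ / 2 * Y := by
    refine hLw.trans ?_
    have h2 : 2 / ‖e (α * (WpU w : ℕ)) - 1‖ ≤ Y / (2 * Q) := by
      calc 2 / ‖e (α * (WpU w : ℕ)) - 1‖ ≤ 2 / (4 * (Q / Y)) :=
            div_le_div_of_nonneg_left (by norm_num) hpos4 hfour
        _ = Y / (2 * Q) := by field_simp; ring
    have h3 : S * (2 / ‖e (α * (WpU w : ℕ)) - 1‖ + 1) ≤ S * (Y / (2 * Q) + 1) :=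
      mul_le_mul_of_nonneg_left (by linarith) hS0
    refine h3.trans ?_
    have h4 : 2 * S ≤ κ * Q := by
      rw [div_le_iff₀ hκ] at hQ₂
      have : Q₂ + 1 ≤ Q := (le_max_right _ _).trans (le_max_right _ _)
      have h5 : (Q₂ : ℝ) ≤ Q := by exact_mod_cast (by omega : Q₂ ≤ Q)
      nlinarith
    have h5 : 4 * S ≤ κ * Y := by
      rw [div_le_iff₀ hκ] at hY₂
      have h6 : (Y₂ : ℝ) ≤ Y := by exact_mod_cast (by omega : Y₂ ≤ Y)
      nlinarith
    have h6 : S * (Y / (2 * Q)) ≤ κ / 4 * Y := by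
      have h7 : S * (Y / (2 * Q)) = (S / Q) * (Y / 2) := by ring
      have h8 : S / Q ≤ κ / 2 := by
        rw [div_le_iff₀ hQpos]
        linarith
      rw [h7]
      nlinarith
    nlinarith
  have hdec : ∑ n ∈ range (Y + 1), ((lam n - Lw w n : ℝ) : ℂ) * e (α * n) =
      ∑ n ∈ range (Y + 1), (lam n : ℂ) * e (α * n) -
      ∑ n ∈ range (Y + 1), (Lw w n : ℂ) * e (α * n) := by
    rw [← Finset.sum_sub_distrib]
    refine Finset.sum_congr rfl fun n _ => ?_
    push_cast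
    ring
  rw [hdec]
  calc _ ≤ _ := norm_sub_le _ _
    _ ≤ κ / 2 * Y + κ / 2 * Y := add_le_add hlam hLw2
    _ = _ := by ring

/-- Module UN, from the statements of the modules MA and PNT. -/
theorem uniform_of (hmin : MinorArcs) (hpnt : PntAp) :
    ∃ C : ℝ, 0 < C ∧ ∀ w : ℕ, 2 ≤ w → ∀ κ : ℝ, 0 < κ → ∃ X₀ : ℕ, ∀ X : ℕ, X₀ ≤ X →
    ∀ Y : ℕ, Y ≤ X → ∀ α : ℝ,
      ‖∑ n ∈ Finset.Icc 1 Y, ((lam n - Lw w n : ℝ) : ℂ) * e (α * n)‖ ≤
        (C * (w : ℝ) ^ (-(1 / 3) : ℝ) + κ) * X := by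
  refine ⟨1, one_pos, fun w hw κ hκ => ?_⟩
  obtain ⟨Q, Y₁, h1⟩ := uniform_minor hmin w hκ
  obtain ⟨Y₂, h2⟩ := uniform_major hpnt hw Q hκ
  have hw1 : (1 : ℝ) ≤ w := by exact_mod_cast (by omega : 1 ≤ w)
  have hwp : (1 : ℝ) / w ≤ (w : ℝ) ^ (-(1 / 3) : ℝ) := by
    rw [one_div, ← Real.rpow_neg_one]
    exact Real.rpow_le_rpow_of_exponent_le hw1 (by norm_num)
  have hw0 : (0 : ℝ) ≤ 1 / w := by positivity
  set Z := max Y₁ Y₂ with hZ
  set B : ℝ := ∑ n ∈ range (Z + 1), |lam n - Lw w n| with hB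
  obtain ⟨X₀, hX₀⟩ := exists_nat_ge (B / κ)
  refine ⟨X₀, fun X hX Y hYX α => ?_⟩
  have hF0 : ((lam 0 - Lw w 0 : ℝ) : ℂ) * e (α * ((0 : ℕ) : ℝ)) = 0 := by
    rw [lam_zero, Lw_zero hw]
    simp
  rw [sum_Icc_eq_range (F := fun n => ((lam n - Lw w n : ℝ) : ℂ) * e (α * n)) hF0]
  have hXX : (X₀ : ℝ) ≤ X := by exact_mod_cast hX
  have hYX' : (Y : ℝ) ≤ X := by exact_mod_cast hYX
  have hX0 : (0 : ℝ) ≤ X := Nat.cast_nonneg X
  rw [one_mul]
  by_cases hY : Z ≤ Y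
  · have hbound : ‖∑ n ∈ range (Y + 1), ((lam n - Lw w n : ℝ) : ℂ) * e (α * n)‖ ≤
        (1 / w + κ) * Y := by
      by_cases hM : Major Q Y α
      · exact h2 Y ((le_max_right _ _).trans hY) α hM
      · refine (h1 Y ((le_max_left _ _).trans hY) α hM).trans ?_
        have : (0 : ℝ) ≤ Y := Nat.cast_nonneg Y
        nlinarith
    refine hbound.trans ?_
    calc (1 / (w : ℝ) + κ) * Y ≤ (1 / (w : ℝ) + κ) * X :=
          mul_le_mul_of_nonneg_left hYX' (by positivity)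
      _ ≤ _ := mul_le_mul_of_nonneg_right (by linarith) hX0
  · have h3 : ‖∑ n ∈ range (Y + 1), ((lam n - Lw w n : ℝ) : ℂ) * e (α * n)‖ ≤ B := by
      refine (norm_sum_le _ _).trans ?_
      have h4 : ∀ n ∈ range (Y + 1), ‖((lam n - Lw w n : ℝ) : ℂ) * e (α * n)‖ =
          |lam n - Lw w n| := by
        intro n _
        rw [norm_mul, norm_e, mul_one, Complex.norm_real, Real.norm_eq_abs]
      rw [Finset.sum_congr rfl h4]
      exact Finset.sum_le_sum_of_subset_of_nonneg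
        (Finset.range_subset_range.mpr (by omega)) fun _ _ _ => abs_nonneg _
    have h5 : B ≤ κ * X := by
      rw [div_le_iff₀ hκ] at hX₀
      nlinarith
    have h6 : (0 : ℝ) ≤ (w : ℝ) ^ (-(1 / 3) : ℝ) := by positivity
    calc _ ≤ κ * X := h3.trans h5
      _ ≤ _ := mul_le_mul_of_nonneg_right (by linarith) hX0

end Pool.Agent.Lib.GT
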