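import Pool.Agent.Lib.MP_7b7e48_nt.GT.RoughCount
import Pool.Agent.Lib.MP_7b7e48_nt.GT.RoughExp
import Pool.Agent.Lib.MP_7b7e48_nt.GT.BadMult
import Pool.Agent.Lib.MP_7b7e48_nt.GT.MinorAssembly
import Pool.Agent.Lib.MP_7b7e48_nt.GT.PNTAP
import Pool.Agent.Lib.MP_7b7e48_nt.GT.Uniform

/-!
# Goldbach-Turan: minor arcs and uniformity, without hypotheses
-/

open Finset

namespace Pool.Agent.Lib.GT

/-- minor arc estimate for the primes (qualitative Vinogradov) -/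
theorem minor_arcs : MinorArcs := MA.minor_arcs_of rough_count rough_exp (fun Q ε hQ hε => by
  obtain ⟨Q₁, H₀, h⟩ := bad_multiples Q ε hQ hε
  refine ⟨Q₁, H₀, fun H M α h1 h2 h3 => ?_⟩
  convert h H M α h1 h2 h3)

/-- the primes (weighted by the logarithm) against the normalised indicator of the rough numbers -/
theorem uniform : ∃ C : ℝ, 0 < C ∧ ∀ w : ℕ, 2 ≤ w → ∀ κ : ℝ, 0 < κ → ∃ X₀ : ℕ, ∀ X : ℕ, X₀ ≤ X →
    ∀ Y : ℕ, Y ≤ X → ∀ α : ℝ,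
      ‖∑ n ∈ Finset.Icc 1 Y, ((lam n - Lw w n : ℝ) : ℂ) * e (α * n)‖ ≤
        (C * (w : ℝ) ^ (-(1 / 3) : ℝ) + κ) * X :=
  uniform_of minor_arcs pnt_ap

end Pool.Agent.Lib.GT
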