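import Pool.Agent.Lib.MP_7b7e48_nt.GT.Defs

/-!
# Flattening the singular series: exact local computation (module FN1)

For a colour `c` (one unit residue `c r` for every prime `3 ≤ r ≤ w₀`) the weight
`om w₀ c n = ∏ r, (1 + s_r (1[n = c_r mod r] - 1[n = -c_r mod r]))` is nonnegative, has mean one
against `Lw w`, and the average over the colours of `om c x * om c (n - x)` makes the number of
representations of even `n` by rough numbers at least `2 (1 - 2 / w₀)` times its length.
-/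

open Finset

namespace Pool.Agent.Lib.GT.LA

/-- the primes `3 ≤ r ≤ w₀` -/
def opr (w₀ : ℕ) : Finset ℕ := (pr w₀).filter (fun r => 3 ≤ r)

/-- the product of the primes `≤ w` -/
def Wp (w : ℕ) : ℕ := ∏ p ∈ pr w, p

/-- the set of colours: a unit residue for every odd prime `r ≤ w₀` -/
def Cs (w₀ : ℕ) : Finset (↥(opr w₀) → ℕ) :=
  Fintype.piFinset fun r => Finset.Icc 1 (r.1 - 1)

noncomputable def sr (r : ℕ) : ℝ := Real.sqrt (((r : ℝ) - 1) / (2 * r))

/-- the local weight at `r` -/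
noncomputable def omr (r c n : ℕ) : ℝ :=
  1 + sr r * ((if n % r = c then 1 else 0) - (if n % r = r - c then 1 else 0))

/-- the weight of a colour -/
noncomputable def om (w₀ : ℕ) (c : ↥(opr w₀) → ℕ) (n : ℕ) : ℝ :=
  ∏ r : ↥(opr w₀), omr r (c r) n

/-! ### Basic facts -/

lemma mem_pr {w p : ℕ} : p ∈ pr w ↔ p ≤ w ∧ p.Prime := by
  unfold pr
  rw [Finset.mem_filter, Finset.mem_range]
  constructor
  · rintro ⟨h1, h2⟩; exact ⟨by omega, h2⟩
  · rintro ⟨h1, h2⟩; exact ⟨by omega, h2⟩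

lemma mem_opr {w p : ℕ} : p ∈ opr w ↔ p ≤ w ∧ p.Prime ∧ 3 ≤ p := by
  unfold opr
  rw [Finset.mem_filter, mem_pr]
  tauto

lemma Wp_pos (w : ℕ) : 0 < Wp w := by
  unfold Wp
  exact Finset.prod_pos fun p hp => (mem_pr.mp hp).2.pos

lemma card_Cs (w₀ : ℕ) : (Cs w₀).card = ∏ r ∈ opr w₀, (r - 1) := by
  unfold Cs
  rw [Fintype.card_piFinset]
  rw [← Finset.prod_coe_sort (opr w₀) (fun r => r - 1)]
  apply Finset.prod_congr rfl
  intro r _
  rw [Nat.card_Icc]
  omega

lemma card_Cs_pos (w₀ : ℕ) : 0 < (Cs w₀).card := by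
  rw [card_Cs]
  refine Finset.prod_pos fun r hr => ?_
  have := (mem_opr.mp hr).2.2
  omega

lemma mem_Cs {w₀ : ℕ} {c : ↥(opr w₀) → ℕ} :
    c ∈ Cs w₀ ↔ ∀ r : ↥(opr w₀), 1 ≤ c r ∧ c r ≤ r.1 - 1 := by
  unfold Cs
  rw [Fintype.mem_piFinset]
  simp only [Finset.mem_Icc]

lemma sr_nonneg (r : ℕ) : 0 ≤ sr r := Real.sqrt_nonneg _

lemma sr_sq {r : ℕ} (hr : 1 ≤ r) : sr r ^ 2 = ((r : ℝ) - 1) / (2 * r) := by
  unfold sr
  have h1 : (1 : ℝ) ≤ r := by exact_mod_cast hr
  rw [Real.sq_sqrt]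
  apply div_nonneg <;> linarith

lemma sr_le_one {r : ℕ} (hr : 1 ≤ r) : sr r ≤ 1 := by
  unfold sr
  rw [Real.sqrt_le_one]
  have h1 : (1 : ℝ) ≤ r := by exact_mod_cast hr
  rw [div_le_one (by linarith)]
  linarith

lemma omr_nonneg {r : ℕ} (hr : 1 ≤ r) (c n : ℕ) : 0 ≤ omr r c n := by
  unfold omr
  have h0 := sr_nonneg r
  have h1 := sr_le_one hr
  split_ifs <;> nlinarith

lemma omr_le_two {r : ℕ} (hr : 1 ≤ r) (c n : ℕ) : omr r c n ≤ 2 := by
  unfold omr
  have h0 := sr_nonneg r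
  have h1 := sr_le_one hr
  split_ifs <;> nlinarith

lemma om_nonneg (w₀ : ℕ) (c : ↥(opr w₀) → ℕ) (n : ℕ) : 0 ≤ om w₀ c n := by
  unfold om
  refine Finset.prod_nonneg fun r _ => omr_nonneg ?_ _ _
  have := (mem_opr.mp r.2).2.2
  omega

lemma om_le (w₀ : ℕ) (c : ↥(opr w₀) → ℕ) (n : ℕ) : om w₀ c n ≤ 2 ^ (opr w₀).card := by
  unfold om
  calc ∏ r : ↥(opr w₀), omr r (c r) n ≤ ∏ _r : ↥(opr w₀), (2 : ℝ) := by
        apply Finset.prod_le_prod
        · intro r _
          apply omr_nonneg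
          have := (mem_opr.mp r.2).2.2
          omega
        · intro r _
          apply omr_le_two
          have := (mem_opr.mp r.2).2.2
          omega
    _ = 2 ^ (opr w₀).card := by
        rw [Finset.prod_const, Finset.card_univ, Fintype.card_coe]

lemma omr_mod {r : ℕ} (c n : ℕ) : omr r c (n % r) = omr r c n := by
  unfold omr
  rw [Nat.mod_mod]

lemma om_congr {w₀ : ℕ} (c : ↥(opr w₀) → ℕ) {m n : ℕ}
    (h : ∀ r ∈ opr w₀, m % r = n % r) : om w₀ c m = om w₀ c n := by
  unfold om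
  apply Finset.prod_congr rfl
  intro r _
  rw [← omr_mod, h r.1 r.2, omr_mod]

lemma dvd_Wp {w p : ℕ} (hp : p ∈ pr w) : p ∣ Wp w := Finset.dvd_prod_of_mem _ hp

lemma opr_subset {w₀ w : ℕ} (h : w₀ ≤ w) : opr w₀ ⊆ pr w := by
  intro p hp
  rw [mem_opr] at hp
  rw [mem_pr]
  exact ⟨hp.1.trans h, hp.2.1⟩

lemma om_periodic {w₀ w : ℕ} (h : w₀ ≤ w) (c : ↥(opr w₀) → ℕ) (n : ℕ) :
    om w₀ c (n + Wp w) = om w₀ c n := by
  apply om_congr
  intro r hr
  have h1 := dvd_Wp (opr_subset h hr)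
  exact (Nat.modEq_iff_dvd' (by omega)).mpr (by simpa using h1) |>.symm

/-- the local factor of `Lw` -/
noncomputable def uf (p a : ℕ) : ℝ := if a % p = 0 then 0 else (1 - 1 / (p : ℝ))⁻¹

lemma uf_nonneg {p : ℕ} (hp : 1 ≤ p) (a : ℕ) : 0 ≤ uf p a := by
  unfold uf
  split_ifs
  · exact le_rfl
  · apply inv_nonneg.mpr
    have h1 : (1 : ℝ) ≤ p := by exact_mod_cast hp
    have h2 : 1 / (p : ℝ) ≤ 1 := by
      rw [div_le_one (by linarith)]; exact h1
    linarith

lemma uf_mod (p a : ℕ) : uf p (a % p) = uf p a := by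
  unfold uf
  rw [Nat.mod_mod]

lemma Lw_eq_prod (w n : ℕ) : Lw w n = ∏ p ∈ pr w, uf p n := by
  unfold Lw
  split_ifs with h
  · rw [rough_iff] at h
    unfold V
    rw [← Finset.prod_inv_distrib]
    apply Finset.prod_congr rfl
    intro p hp
    unfold uf
    rw [if_neg]
    intro h0
    exact h p hp (Nat.dvd_of_mod_eq_zero h0)
  · rw [rough_iff] at h
    push Not at h
    obtain ⟨p, hp, hd⟩ := h
    symm
    apply Finset.prod_eq_zero hp
    unfold uf
    rw [if_pos (Nat.mod_eq_zero_of_dvd hd)]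

lemma Lw_congr {w m n : ℕ} (h : ∀ p ∈ pr w, m % p = n % p) : Lw w m = Lw w n := by
  rw [Lw_eq_prod, Lw_eq_prod]
  apply Finset.prod_congr rfl
  intro p hp
  rw [← uf_mod, h p hp, uf_mod]

lemma Lw_periodic (w n : ℕ) : Lw w (n + Wp w) = Lw w n := by
  apply Lw_congr
  intro r hr
  have h1 := dvd_Wp hr
  exact (Nat.modEq_iff_dvd' (by omega)).mpr (by simpa using h1) |>.symm

/-! ### Sums over a full period -/

lemma sum_range_mul_coprime {m n : ℕ} (hm : m ≠ 0) (hn : n ≠ 0) (h : Nat.Coprime m n)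
    (G : ℕ → ℕ → ℝ) :
    ∑ x ∈ range (m * n), G (x % m) (x % n) = ∑ i ∈ range m, ∑ j ∈ range n, G i j := by
  rw [← Finset.sum_product']
  refine Finset.sum_nbij' (fun x => (x % m, x % n))
    (fun q => (Nat.chineseRemainder h q.1 q.2 : ℕ)) ?_ ?_ ?_ ?_ ?_
  · intro x _
    simp only [mem_product, mem_range]
    exact ⟨Nat.mod_lt _ (Nat.pos_of_ne_zero hm), Nat.mod_lt _ (Nat.pos_of_ne_zero hn)⟩
  · intro q _
    simp only [mem_range]
    exact Nat.chineseRemainder_lt_mul h q.1 q.2 hm hn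
  · intro x hx
    simp only [mem_range] at hx
    have h1 : x ≡ x % m [MOD m] := (Nat.mod_modEq x m).symm
    have h2 : x ≡ x % n [MOD n] := (Nat.mod_modEq x n).symm
    have h3 := Nat.chineseRemainder_modEq_unique h h1 h2
    have h4 := Nat.chineseRemainder_lt_mul h (x % m) (x % n) hm hn
    exact (Nat.ModEq.eq_of_lt_of_lt h3 hx h4).symm
  · intro q hq
    simp only [mem_product, mem_range] at hq
    have h1 := (Nat.chineseRemainder h q.1 q.2).2
    ext
    · simp only
      have := h1.1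
      unfold Nat.ModEq at this
      rw [this, Nat.mod_eq_of_lt hq.1]
    · simp only
      have := h1.2
      unfold Nat.ModEq at this
      rw [this, Nat.mod_eq_of_lt hq.2]
  · intro x _
    rfl

lemma sum_prod_period (P : Finset ℕ) (hP : ∀ p ∈ P, p.Prime) (F : ℕ → ℕ → ℝ) :
    ∑ x ∈ range (∏ p ∈ P, p), ∏ p ∈ P, F p (x % p) = ∏ p ∈ P, ∑ a ∈ range p, F p a := by
  induction P using Finset.induction_on with
  | empty => simp
  | insert q P hq ih =>
    have hP' : ∀ p ∈ P, p.Prime := fun p hp => hP p (mem_insert_of_mem hp)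
    have hqp : q.Prime := hP q (mem_insert_self _ _)
    have ih' := ih hP'
    have hcop : Nat.Coprime q (∏ p ∈ P, p) := by
      apply Nat.Coprime.prod_right
      intro p hp
      rw [Nat.coprime_primes hqp (hP' p hp)]
      rintro rfl
      exact hq hp
    have hne : (∏ p ∈ P, p) ≠ 0 := by
      apply Finset.prod_ne_zero_iff.mpr
      intro p hp
      exact (hP' p hp).ne_zero
    rw [Finset.prod_insert hq, Finset.prod_insert hq]
    have h1 : ∀ x, ∏ p ∈ insert q P, F p (x % p) =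
        F q (x % q) * ∏ p ∈ P, F p ((x % (∏ p ∈ P, p)) % p) := by
      intro x
      rw [Finset.prod_insert hq]
      congr 1
      apply Finset.prod_congr rfl
      intro p hp
      rw [Nat.mod_mod_of_dvd _ (Finset.dvd_prod_of_mem _ hp)]
    rw [Finset.sum_congr rfl (fun x _ => h1 x),
      sum_range_mul_coprime hqp.ne_zero hne hcop
        (fun i j => F q i * ∏ p ∈ P, F p (j % p)), ← ih', Finset.sum_mul_sum]

lemma sum_block {W : ℕ} (f : ℕ → ℝ) (hf : ∀ n, f (n + W) = f n) (A : ℕ) :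
    ∑ x ∈ Finset.Ico A (A + W), f x = ∑ x ∈ range W, f x := by
  induction A with
  | zero => simp
  | succ A ih =>
    rw [← ih]
    rcases Nat.eq_zero_or_pos W with h0 | h0
    · subst h0; simp
    · rw [Finset.sum_eq_sum_Ico_succ_bot (by omega : A < A + W),
        show A + 1 + W = (A + W) + 1 by ring, Finset.sum_Ico_succ_top (by omega), hf]
      ring

/-! ### The two local sums -/

/-- the residue of `n - x` mod `p` in terms of `a = x % p` -/
def tw (n p a : ℕ) : ℕ := (n + (p - a)) % p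

lemma sub_mod_eq {n x p : ℕ} (hp : 0 < p) (hx : x ≤ n) : (n - x) % p = tw n p (x % p) := by
  unfold tw
  have h1 : x % p < p := Nat.mod_lt _ hp
  have h2 : n - x + p * (x / p + 1) = n + (p - x % p) := by
    have := Nat.div_add_mod x p
    have h3 : p * (x / p + 1) = p * (x / p) + p := by ring
    omega
  rw [← h2, Nat.add_mul_mod_self_left]

lemma sum_omr {r : ℕ} (hr : 3 ≤ r) {c : ℕ} (hc : 1 ≤ c) (hc' : c ≤ r - 1) :
    ∑ a ∈ range r, uf r a * omr r c a = r := by
  have hr1 : (3 : ℝ) ≤ r := by exact_mod_cast hr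
  have h1 : ∀ a ∈ range r, uf r a * omr r c a = (1 - 1 / (r : ℝ))⁻¹ *
      ((1 - (if a = 0 then 1 else 0)) + sr r * ((if a = c then 1 else 0) -
        (if a = r - c then 1 else 0))) := by
    intro a ha
    rw [mem_range] at ha
    unfold uf omr
    rw [Nat.mod_eq_of_lt ha]
    by_cases h0 : a = 0
    · subst h0
      rw [if_pos rfl, if_pos rfl, if_neg (by omega : ¬ (0 = c)), if_neg (by omega)]
      ring
    · rw [if_neg h0, if_neg h0]
      ring
  rw [Finset.sum_congr rfl h1, ← Finset.mul_sum, Finset.sum_add_distrib, ← Finset.mul_sum,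
    Finset.sum_sub_distrib, Finset.sum_sub_distrib]
  rw [Finset.sum_ite_eq' (range r) 0, Finset.sum_ite_eq' (range r) c,
    Finset.sum_ite_eq' (range r) (r - c), if_pos (mem_range.mpr (by omega)),
    if_pos (mem_range.mpr (by omega)), if_pos (mem_range.mpr (by omega))]
  simp only [Finset.sum_const, card_range, nsmul_eq_mul]
  have h3 : (r : ℝ) - 1 ≠ 0 := by linarith
  have h4 : (1 - 1 / (r : ℝ))⁻¹ = r / (r - 1) := by
    rw [show (1 - 1 / (r : ℝ)) = (r - 1) / r by field_simp, inv_div]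
  rw [h4]
  field_simp
  ring

/-- the local kernel -/
lemma sum_omr_omr {r : ℕ} (hr : 3 ≤ r) {x y : ℕ} (hx : x < r) (hy : y < r) (hx0 : x ≠ 0)
    (hy0 : y ≠ 0) :
    ∑ c ∈ Finset.Icc 1 (r - 1), omr r c x * omr r c y =
      ((r : ℝ) - 1) * (1 + ((if x = y then 1 else 0) - (if x + y = r then 1 else 0)) / r) := by
  have hr1 : (3 : ℝ) ≤ r := by exact_mod_cast hr
  have hI : ∀ (z : ℕ), z < r → z ≠ 0 →
      ∑ c ∈ Finset.Icc 1 (r - 1), (if z = c then (1 : ℝ) else 0) = 1 := by
    intro z hz hz0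
    rw [Finset.sum_ite_eq, if_pos (Finset.mem_Icc.mpr (by omega))]
  have hI' : ∀ (z : ℕ), z < r → z ≠ 0 →
      ∑ c ∈ Finset.Icc 1 (r - 1), (if z = r - c then (1 : ℝ) else 0) = 1 := by
    intro z hz hz0
    have : ∀ c ∈ Finset.Icc 1 (r - 1), (if z = r - c then (1 : ℝ) else 0) =
        (if r - z = c then (1 : ℝ) else 0) := by
      intro c hc
      rw [Finset.mem_Icc] at hc
      by_cases h : z = r - c
      · rw [if_pos h, if_pos (by omega)]
      · rw [if_neg h, if_neg (by omega)]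
    rw [Finset.sum_congr rfl this, hI (r - z) (by omega) (by omega)]
  have h1 : ∀ c ∈ Finset.Icc 1 (r - 1), omr r c x * omr r c y =
      1 + sr r * ((if x = c then 1 else 0) - (if x = r - c then 1 else 0)) +
        sr r * ((if y = c then 1 else 0) - (if y = r - c then 1 else 0)) +
        sr r ^ 2 * ((if x = y then 1 else 0) * (if x = c then 1 else 0) +
          (if x = y then 1 else 0) * (if x = r - c then 1 else 0) -
          (if x + y = r then 1 else 0) * (if x = c then 1 else 0) -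
          (if x + y = r then 1 else 0) * (if x = r - c then 1 else 0)) := by
    intro c hc
    rw [Finset.mem_Icc] at hc
    unfold omr
    rw [Nat.mod_eq_of_lt hx, Nat.mod_eq_of_lt hy]
    have key : (((if x = c then (1:ℝ) else 0) - (if x = r - c then 1 else 0)) *
        ((if y = c then 1 else 0) - (if y = r - c then 1 else 0))) =
        ((if x = y then 1 else 0) * (if x = c then 1 else 0) +
          (if x = y then 1 else 0) * (if x = r - c then 1 else 0) -
          (if x + y = r then 1 else 0) * (if x = c then 1 else 0) -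
          (if x + y = r then 1 else 0) * (if x = r - c then 1 else 0)) := by
      split_ifs <;> first | (exfalso; omega) | norm_num
    linear_combination (sr r ^ 2) * key
  rw [Finset.sum_congr rfl h1]
  rw [Finset.sum_add_distrib, Finset.sum_add_distrib, Finset.sum_add_distrib, ← Finset.mul_sum,
    ← Finset.mul_sum, ← Finset.mul_sum, Finset.sum_sub_distrib, Finset.sum_sub_distrib,
    Finset.sum_sub_distrib, Finset.sum_sub_distrib, Finset.sum_add_distrib, ← Finset.mul_sum,
    ← Finset.mul_sum, ← Finset.mul_sum, ← Finset.mul_sum, hI x hx hx0, hI y hy hy0, hI' x hx hx0,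
    hI' y hy hy0, sr_sq (by omega)]
  simp only [Finset.sum_const, Nat.card_Icc, nsmul_eq_mul]
  have : ((r - 1 + 1 - 1 : ℕ) : ℝ) = (r : ℝ) - 1 := by
    rw [show r - 1 + 1 - 1 = r - 1 by omega, Nat.cast_sub (by omega)]
    simp
  rw [this]
  field_simp
  ring

lemma uf_of_pos {p a : ℕ} (hp : 2 ≤ p) (ha : a < p) (h0 : a ≠ 0) :
    uf p a = (p : ℝ) / (p - 1) := by
  have hp1 : (2 : ℝ) ≤ p := by exact_mod_cast hp
  have h3 : (p : ℝ) - 1 ≠ 0 := by linarith
  unfold uf
  rw [Nat.mod_eq_of_lt ha, if_neg h0,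
    show (1 - 1 / (p : ℝ)) = (p - 1) / p by field_simp, inv_div]

lemma uf_zero (p : ℕ) : uf p 0 = 0 := by
  unfold uf
  rw [Nat.zero_mod, if_pos rfl]

lemma tw_lt {n p a : ℕ} (hp : 0 < p) : tw n p a < p := Nat.mod_lt _ hp

/-- local sum at `2` -/
lemma local_two {n : ℕ} (hn : Even n) :
    ∑ a ∈ range 2, uf 2 a * uf 2 (tw n 2 a) = 4 := by
  rw [Finset.sum_range_succ, Finset.sum_range_one, uf_zero, zero_mul, zero_add]
  have h1 : tw n 2 1 = 1 := by
    unfold tw
    obtain ⟨k, hk⟩ := hn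
    omega
  rw [h1, uf_of_pos (le_refl 2) (by norm_num) (by norm_num)]
  norm_num

/-- local sum at `3 ≤ r ≤ w₀`: exactly flat -/
lemma local_flat {n r : ℕ} (hr : 3 ≤ r) (hodd : r % 2 = 1) :
    ∑ a ∈ range r, uf r a * uf r (tw n r a) *
      ∑ c ∈ Finset.Icc 1 (r - 1), omr r c a * omr r c (tw n r a) = ((r : ℝ) - 1) * r := by
  have hr1 : (3 : ℝ) ≤ r := by exact_mod_cast hr
  have h3 : (r : ℝ) - 1 ≠ 0 := by linarith
  have hr0 : (r : ℝ) ≠ 0 := by linarith
  have hmr : n % r < r := Nat.mod_lt _ (by omega)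
  have htw : ∀ a, a < r → tw n r a = if a ≤ n % r then n % r - a else n % r + r - a := by
    intro a ha
    unfold tw
    rw [Nat.add_mod]
    by_cases h0 : a = 0
    · subst h0
      simp
    · rw [Nat.mod_eq_of_lt (by omega : r - a < r)]
      by_cases h1 : a ≤ n % r
      · rw [if_pos h1, show n % r + (r - a) = (n % r - a) + r by omega, Nat.add_mod_right,
          Nat.mod_eq_of_lt (by omega)]
      · rw [if_neg h1, Nat.mod_eq_of_lt (by omega)]
        omega
  rcases Nat.eq_zero_or_pos (n % r) with hm | hm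
  · -- `r ∣ n`
    have h1 : ∀ a ∈ range r, uf r a * uf r (tw n r a) *
        ∑ c ∈ Finset.Icc 1 (r - 1), omr r c a * omr r c (tw n r a) =
        (1 - (if a = 0 then 1 else 0)) * (r : ℝ) := by
      intro a ha
      rw [mem_range] at ha
      by_cases h0 : a = 0
      · subst h0
        rw [uf_zero, if_pos rfl]
        ring
      · have hy : tw n r a = r - a := by
          rw [htw a ha, if_neg (by omega), hm]
          omega
        rw [hy, sum_omr_omr hr ha (by omega) h0 (by omega), uf_of_pos (by omega) ha h0,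
          uf_of_pos (by omega) (by omega) (by omega), if_neg h0,
          if_neg (by omega : ¬ (a = r - a)), if_pos (by omega : a + (r - a) = r)]
        field_simp
        ring
    rw [Finset.sum_congr rfl h1, ← Finset.sum_mul, Finset.sum_sub_distrib,
      Finset.sum_ite_eq' (range r) 0, if_pos (mem_range.mpr (by omega))]
    simp only [Finset.sum_const, card_range, nsmul_eq_mul, mul_one]
  · -- `r ∤ n`
    set m := n % r with hmdef
    obtain ⟨a₀, ha₀⟩ : ∃ a₀, a₀ = (if m % 2 = 0 then m / 2 else (m + r) / 2) := ⟨_, rfl⟩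
    have ha₀1 : a₀ < r ∧ a₀ ≠ 0 ∧ a₀ ≠ m := by
      split_ifs at ha₀ <;> omega
    have h1 : ∀ a ∈ range r, uf r a * uf r (tw n r a) *
        ∑ c ∈ Finset.Icc 1 (r - 1), omr r c a * omr r c (tw n r a) =
        ((r : ℝ) ^ 2 / (r - 1)) * (1 - (if a = 0 then 1 else 0) - (if a = m then 1 else 0) +
          (if a = a₀ then 1 else 0) / r) := by
      intro a ha
      rw [mem_range] at ha
      by_cases h0 : a = 0
      · subst h0
        rw [uf_zero, if_pos rfl, if_neg (by omega : ¬ (0 = m)), if_neg (by omega : ¬ (0 = a₀))]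
        ring
      · by_cases h2 : a = m
        · have hy : tw n r a = 0 := by
            rw [htw a ha, if_pos (by omega)]
            omega
          rw [hy, uf_zero, if_neg h0, if_pos h2, if_neg (by omega : ¬ (a = a₀))]
          ring
        · have hy : tw n r a < r := tw_lt (by omega)
          have hy0 : tw n r a ≠ 0 := by
            rw [htw a ha]
            split_ifs <;> omega
          have hne : ¬ (a + tw n r a = r) := by
            rw [htw a ha]
            split_ifs <;> omega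
          have hiff : (a = tw n r a) ↔ a = a₀ := by
            rw [htw a ha]
            split_ifs at ha₀ ⊢ <;> omega
          rw [sum_omr_omr hr ha hy h0 hy0, uf_of_pos (by omega) ha h0,
            uf_of_pos (by omega) hy hy0, if_neg h0, if_neg h2, if_neg hne]
          simp only [hiff]
          field_simp
          ring
    rw [Finset.sum_congr rfl h1, ← Finset.mul_sum, Finset.sum_add_distrib,
      Finset.sum_sub_distrib, Finset.sum_sub_distrib, ← Finset.sum_div,
      Finset.sum_ite_eq' (range r) 0, Finset.sum_ite_eq' (range r) m,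
      Finset.sum_ite_eq' (range r) a₀, if_pos (mem_range.mpr (by omega)),
      if_pos (mem_range.mpr hmr), if_pos (mem_range.mpr ha₀1.1)]
    simp only [Finset.sum_const, card_range, nsmul_eq_mul, mul_one]
    field_simp
    ring

/-- local sum at the other primes -/
lemma local_rest {n p : ℕ} (hp : 3 ≤ p) :
    (p : ℝ) * (1 - 1 / ((p : ℝ) - 1) ^ 2) ≤ ∑ a ∈ range p, uf p a * uf p (tw n p a) := by
  have hr1 : (3 : ℝ) ≤ p := by exact_mod_cast hp
  have h3 : (p : ℝ) - 1 ≠ 0 := by linarith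
  have hmr : n % p < p := Nat.mod_lt _ (by omega)
  have htw : ∀ a, a < p → a ≠ 0 → a ≠ n % p → tw n p a ≠ 0 := by
    intro a ha h0 hm
    unfold tw
    rw [Nat.add_mod, Nat.mod_eq_of_lt (by omega : p - a < p)]
    by_cases h1 : a ≤ n % p
    · rw [show n % p + (p - a) = (n % p - a) + p by omega, Nat.add_mod_right,
        Nat.mod_eq_of_lt (by omega)]
      omega
    · rw [Nat.mod_eq_of_lt (by omega)]
      omega
  have h1 : ∀ a ∈ range p, ((p : ℝ) / (p - 1)) ^ 2 *
      (1 - (if a = 0 then 1 else 0) - (if a = n % p then 1 else 0)) ≤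
        uf p a * uf p (tw n p a) := by
    intro a ha
    rw [mem_range] at ha
    have hnn : 0 ≤ uf p a * uf p (tw n p a) :=
      mul_nonneg (uf_nonneg (by omega) _) (uf_nonneg (by omega) _)
    by_cases h0 : a = 0
    · rw [if_pos h0]
      refine le_trans ?_ hnn
      apply mul_nonpos_of_nonneg_of_nonpos (sq_nonneg _)
      split_ifs <;> norm_num
    · by_cases h2 : a = n % p
      · rw [if_neg h0, if_pos h2]
        refine le_trans ?_ hnn
        norm_num
      · rw [if_neg h0, if_neg h2, uf_of_pos (by omega) ha h0,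
          uf_of_pos (by omega) (tw_lt (by omega)) (htw a ha h0 h2)]
        apply le_of_eq
        ring
  refine le_trans ?_ (Finset.sum_le_sum h1)
  rw [← Finset.mul_sum, Finset.sum_sub_distrib, Finset.sum_sub_distrib,
    Finset.sum_ite_eq' (range p) 0, Finset.sum_ite_eq' (range p) (n % p),
    if_pos (mem_range.mpr (by omega)), if_pos (mem_range.mpr hmr)]
  simp only [Finset.sum_const, card_range, nsmul_eq_mul, mul_one]
  apply le_of_eq
  field_simp
  ring

/-! ### The tail product -/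

lemma tail_prod {w₀ w : ℕ} (h2 : 2 ≤ w₀) (hw : w₀ ≤ w) :
    ∏ m ∈ Finset.Ioc w₀ w, (1 - 1 / ((m : ℝ) - 1) ^ 2) =
      (((w₀ : ℝ) - 1) / w₀) * ((w : ℝ) / (w - 1)) := by
  have h2' : (2 : ℝ) ≤ w₀ := by exact_mod_cast h2
  induction w, hw using Nat.le_induction with
  | base =>
    have h3 : (w₀ : ℝ) - 1 ≠ 0 := by linarith
    rw [Finset.Ioc_self, Finset.prod_empty]
    field_simp
  | succ w hw ih =>
    have h3 : (2 : ℝ) ≤ w := by
      have : (w₀ : ℝ) ≤ w := by exact_mod_cast hw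
      linarith
    have h4 : (w : ℝ) - 1 ≠ 0 := by linarith
    have h5 : (w : ℝ) ≠ 0 := by linarith
    rw [Finset.prod_Ioc_succ_top hw, ih]
    push_cast
    have h6 : (w : ℝ) + 1 - 1 = w := by ring
    rw [h6]
    field_simp
    ring

lemma tail_lower {w₀ w : ℕ} (h2 : 2 ≤ w₀) (hw : w₀ ≤ w) :
    1 - 1 / (w₀ : ℝ) ≤
      ∏ p ∈ pr w, (if w₀ < p then (1 - 1 / ((p : ℝ) - 1) ^ 2) else 1) := by
  have h2' : (2 : ℝ) ≤ w₀ := by exact_mod_cast h2
  have hw' : (w₀ : ℝ) ≤ w := by exact_mod_cast hw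
  have ht0 : ∀ m ∈ Finset.Ioc w₀ w, 0 ≤ (1 - 1 / ((m : ℝ) - 1) ^ 2) := by
    intro m hm
    rw [Finset.mem_Ioc] at hm
    have hm1 : (3 : ℝ) ≤ m := by
      have : 3 ≤ m := by omega
      exact_mod_cast this
    have : 1 / ((m : ℝ) - 1) ^ 2 ≤ 1 := by
      rw [div_le_one (by nlinarith)]
      nlinarith
    linarith
  have ht1 : ∀ m ∈ Finset.Ioc w₀ w, (1 - 1 / ((m : ℝ) - 1) ^ 2) ≤ 1 := by
    intro m _
    have : 0 ≤ 1 / ((m : ℝ) - 1) ^ 2 := by positivity
    linarith
  have h1 : (1 - 1 / (w₀ : ℝ)) ≤ ∏ m ∈ Finset.Ioc w₀ w, (1 - 1 / ((m : ℝ) - 1) ^ 2) := by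
    rw [tail_prod h2 hw]
    have e1 : (1 - 1 / (w₀ : ℝ)) = ((w₀ : ℝ) - 1) / w₀ := by field_simp
    rw [e1]
    have e2 : (1 : ℝ) ≤ (w : ℝ) / (w - 1) := by
      rw [le_div_iff₀ (by linarith)]
      linarith
    exact le_mul_of_one_le_right (div_nonneg (by linarith) (by linarith)) e2
  refine h1.trans ?_
  rw [← Finset.prod_filter_mul_prod_filter_not (Finset.Ioc w₀ w) Nat.Prime]
  have h3 : ∏ p ∈ pr w, (if w₀ < p then (1 - 1 / ((p : ℝ) - 1) ^ 2) else 1) =
      ∏ m ∈ (Finset.Ioc w₀ w).filter Nat.Prime, (1 - 1 / ((m : ℝ) - 1) ^ 2) := by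
    rw [← Finset.prod_filter]
    apply Finset.prod_congr
    · ext m
      rw [Finset.mem_filter, Finset.mem_filter, mem_pr, Finset.mem_Ioc]
      tauto
    · intro _ _; rfl
  rw [h3]
  apply mul_le_of_le_one_right
  · apply Finset.prod_nonneg
    intro m hm
    exact ht0 m (Finset.mem_filter.mp hm).1
  · apply Finset.prod_le_one
    · intro m hm
      exact ht0 m (Finset.mem_filter.mp hm).1
    · intro m hm
      exact ht1 m (Finset.mem_filter.mp hm).1

/-! ### Sum over the colours -/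

lemma sum_om_om (w₀ x y : ℕ) :
    ∑ c ∈ Cs w₀, om w₀ c x * om w₀ c y =
      ∏ r ∈ opr w₀, ∑ j ∈ Finset.Icc 1 (r - 1), omr r j x * omr r j y := by
  unfold Cs om
  rw [← Finset.prod_coe_sort (opr w₀)
    (fun r => ∑ j ∈ Finset.Icc 1 (r - 1), omr r j x * omr r j y), Finset.prod_univ_sum]
  apply Finset.sum_congr rfl
  intro c _
  rw [← Finset.prod_mul_distrib]

/-- the product of the local functions -/
noncomputable def LocF (w₀ n p a : ℕ) : ℝ :=
  uf p a * uf p (tw n p a) *
    (if p ∈ opr w₀ then ∑ c ∈ Finset.Icc 1 (p - 1), omr p c a * omr p c (tw n p a) else 1)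

lemma pair_eq_prod {w₀ w n x : ℕ} (hw : w₀ ≤ w) (hx : x ≤ n) :
    (∑ c ∈ Cs w₀, om w₀ c x * om w₀ c (n - x)) * (Lw w x * Lw w (n - x)) =
      ∏ p ∈ pr w, LocF w₀ n p (x % p) := by
  unfold LocF
  rw [Finset.prod_mul_distrib, Finset.prod_mul_distrib, Finset.prod_ite_mem,
    Finset.inter_eq_right.mpr (opr_subset hw), sum_om_om, Lw_eq_prod, Lw_eq_prod, mul_comm]
  congr 1
  · congr 1
    · apply Finset.prod_congr rfl
      intro p _
      rw [uf_mod]
    · apply Finset.prod_congr rfl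
      intro p hp
      rw [← uf_mod, sub_mod_eq (mem_pr.mp hp).2.pos hx]
  · apply Finset.prod_congr rfl
    intro r hr
    apply Finset.sum_congr rfl
    intro c _
    rw [omr_mod, ← omr_mod c (n - x), sub_mod_eq (mem_opr.mp hr).2.1.pos hx]

/-- FN1, main statement: over a block of `Wp w` consecutive integers inside `[0, n]`, `n` even,
the average over the colours flattens the singular series. -/
theorem local_block {w₀ w n A : ℕ} (h2 : 2 ≤ w₀) (hw : w₀ ≤ w) (hn : Even n)
    (hA : A + Wp w ≤ n + 1) :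
    2 * (1 - 1 / (w₀ : ℝ)) * (Wp w * (Cs w₀).card) ≤
      ∑ x ∈ Finset.Ico A (A + Wp w),
        (∑ c ∈ Cs w₀, om w₀ c x * om w₀ c (n - x)) * (Lw w x * Lw w (n - x)) := by
  have h1 : ∀ x ∈ Finset.Ico A (A + Wp w),
      (∑ c ∈ Cs w₀, om w₀ c x * om w₀ c (n - x)) * (Lw w x * Lw w (n - x)) =
        ∏ p ∈ pr w, LocF w₀ n p (x % p) := by
    intro x hx
    rw [Finset.mem_Ico] at hx
    exact pair_eq_prod hw (by omega)
  rw [Finset.sum_congr rfl h1, sum_block (fun x => ∏ p ∈ pr w, LocF w₀ n p (x % p)), Wp,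
    sum_prod_period (pr w) (fun p hp => (mem_pr.mp hp).2) (LocF w₀ n)]
  swap
  · intro m
    apply Finset.prod_congr rfl
    intro p hp
    obtain ⟨k, hk⟩ := dvd_Wp hp
    rw [hk, Nat.add_mul_mod_self_left]
  have h3 : ∀ p ∈ pr w, (p : ℝ) * (if p = 2 then 2 else 1) *
      (if p ∈ opr w₀ then ((p : ℝ) - 1) else 1) *
      (if w₀ < p then (1 - 1 / ((p : ℝ) - 1) ^ 2) else 1) ≤ ∑ a ∈ range p, LocF w₀ n p a := by
    intro p hp
    rw [mem_pr] at hp
    have hp2 := hp.2.two_le
    unfold LocF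
    by_cases h : p = 2
    · subst h
      rw [if_pos rfl, if_neg (by rw [mem_opr]; omega), if_neg (by omega)]
      simp only [if_neg (show ¬ (2 ∈ opr w₀) by rw [mem_opr]; omega), mul_one]
      rw [local_two hn]
      norm_num
    · rw [if_neg h]
      by_cases h' : p ≤ w₀
      · have hm : p ∈ opr w₀ := mem_opr.mpr ⟨h', hp.2, by omega⟩
        rw [if_pos hm, if_neg (by omega)]
        simp only [if_pos hm]
        rw [local_flat (by omega) (Nat.odd_iff.mp (hp.2.odd_of_ne_two h))]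
        apply le_of_eq
        ring
      · have hm : p ∉ opr w₀ := fun hh => h' (mem_opr.mp hh).1
        rw [if_neg hm, if_pos (by omega)]
        simp only [if_neg hm, mul_one]
        exact local_rest (by omega)
  refine le_trans ?_ (Finset.prod_le_prod ?_ h3)
  · rw [Finset.prod_mul_distrib, Finset.prod_mul_distrib, Finset.prod_mul_distrib,
      Finset.prod_ite_mem, Finset.inter_eq_right.mpr (opr_subset hw), Finset.prod_ite_eq',
      if_pos (mem_pr.mpr ⟨by omega, Nat.prime_two⟩), card_Cs]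
    have e1 : ((∏ r ∈ opr w₀, (r - 1) : ℕ) : ℝ) = ∏ r ∈ opr w₀, ((r : ℝ) - 1) := by
      push_cast
      apply Finset.prod_congr rfl
      intro r hr
      rw [Nat.cast_sub (by have := (mem_opr.mp hr).2.2; omega)]
      simp
    have e2 := tail_lower h2 hw
    have e3 : (0 : ℝ) ≤ (∏ p ∈ pr w, (p : ℝ)) * 2 * ∏ r ∈ opr w₀, ((r : ℝ) - 1) := by
      apply mul_nonneg
      · apply mul_nonneg
        · exact Finset.prod_nonneg fun p _ => Nat.cast_nonneg p
        · norm_num
      · apply Finset.prod_nonneg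
        intro r hr
        have : (3 : ℝ) ≤ r := by exact_mod_cast (mem_opr.mp hr).2.2
        linarith
    rw [e1]
    push_cast
    calc 2 * (1 - 1 / (w₀ : ℝ)) * ((∏ p ∈ pr w, (p : ℝ)) * ∏ r ∈ opr w₀, ((r : ℝ) - 1))
        = (∏ p ∈ pr w, (p : ℝ)) * 2 * (∏ r ∈ opr w₀, ((r : ℝ) - 1)) * (1 - 1 / (w₀ : ℝ)) := by
          ring
      _ ≤ _ := mul_le_mul_of_nonneg_left e2 e3
  · intro p hp
    rw [mem_pr] at hp
    have hp2 : (2 : ℝ) ≤ p := by exact_mod_cast hp.2.two_le
    have h5 : (0 : ℝ) ≤ if p = 2 then (2 : ℝ) else 1 := by split_ifs <;> norm_num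
    have h6 : (0 : ℝ) ≤ if p ∈ opr w₀ then ((p : ℝ) - 1) else 1 := by
      split_ifs
      · linarith
      · norm_num
    have h7 : (0 : ℝ) ≤ if w₀ < p then (1 - 1 / ((p : ℝ) - 1) ^ 2) else 1 := by
      split_ifs
      · have : 1 / ((p : ℝ) - 1) ^ 2 ≤ 1 := by
          rw [div_le_one (by nlinarith)]
          nlinarith
        linarith
      · norm_num
    positivity

/-- the weight of every colour has mean one against `Lw w` -/
theorem mean_block {w₀ w : ℕ} (hw : w₀ ≤ w) {c : ↥(opr w₀) → ℕ} (hc : c ∈ Cs w₀) (A : ℕ) :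
    ∑ x ∈ Finset.Ico A (A + Wp w), om w₀ c x * Lw w x = Wp w := by
  rw [sum_block (fun x => om w₀ c x * Lw w x)]
  swap
  · intro n
    rw [om_periodic hw, Lw_periodic]
  classical
  -- extend the colour by zero
  set c' : ℕ → ℕ := fun r => if h : r ∈ opr w₀ then c ⟨r, h⟩ else 0 with hc'
  have h1 : ∀ x, om w₀ c x * Lw w x =
      ∏ p ∈ pr w, (fun p a => uf p a * (if p ∈ opr w₀ then omr p (c' p) a else 1)) p (x % p) := by
    intro x
    rw [Finset.prod_mul_distrib, Finset.prod_ite_mem, Finset.inter_eq_right.mpr (opr_subset hw),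
      mul_comm, Lw_eq_prod]
    congr 1
    · apply Finset.prod_congr rfl
      intro p _
      rw [uf_mod]
    · unfold om
      rw [← Finset.prod_coe_sort (opr w₀) (fun r => omr r (c' r) (x % r))]
      apply Finset.prod_congr rfl
      intro r _
      rw [omr_mod]
      simp only [hc', dif_pos r.2]
  rw [Finset.sum_congr rfl (fun x _ => h1 x)]
  have h2 := sum_prod_period (pr w) (fun p hp => (mem_pr.mp hp).2)
    (fun p a => uf p a * (if p ∈ opr w₀ then omr p (c' p) a else 1))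
  unfold Wp
  rw [h2]
  push_cast
  apply Finset.prod_congr rfl
  intro p hp
  rw [mem_pr] at hp
  by_cases h : p ∈ opr w₀
  · simp only [if_pos h]
    have h3 := mem_Cs.mp hc ⟨p, h⟩
    have h4 : c' p = c ⟨p, h⟩ := by simp only [hc', dif_pos h]
    exact sum_omr (mem_opr.mp h).2.2 (by rw [h4]; exact h3.1) (by rw [h4]; exact h3.2)
  · simp only [if_neg h, mul_one]
    have hp2 := hp.2.two_le
    have hp2' : (2 : ℝ) ≤ p := by exact_mod_cast hp2
    have h3 : (p : ℝ) - 1 ≠ 0 := by linarith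
    have h4 : ∀ a ∈ range p, uf p a = ((p : ℝ) / (p - 1)) * (1 - (if a = 0 then 1 else 0)) := by
      intro a ha
      rw [mem_range] at ha
      by_cases h0 : a = 0
      · subst h0
        rw [uf_zero, if_pos rfl]
        ring
      · rw [uf_of_pos hp2 ha h0, if_neg h0]
        ring
    rw [Finset.sum_congr rfl h4, ← Finset.mul_sum, Finset.sum_sub_distrib,
      Finset.sum_ite_eq' (range p) 0, if_pos (mem_range.mpr (by omega))]
    simp only [Finset.sum_const, card_range, nsmul_eq_mul, mul_one]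
    field_simp

/-! ### Intervals -/

lemma lt_div_add_one_mul {a b : ℕ} (h : 0 < b) : a < (a / b + 1) * b := by
  have h1 := Nat.div_add_mod a b
  have h2 := Nat.mod_lt a h
  have h3 : (a / b + 1) * b = b * (a / b) + b := by ring
  omega

lemma sum_blocks_ge {W : ℕ} (f : ℕ → ℝ) (b : ℝ) (A k : ℕ)
    (hb : ∀ A', A ≤ A' → A' + W ≤ A + k * W → b ≤ ∑ x ∈ Finset.Ico A' (A' + W), f x) :
    k * b ≤ ∑ x ∈ Finset.Ico A (A + k * W), f x := by
  induction k with
  | zero => simp
  | succ k ih =>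
    have h1 := ih (fun A' h1 h2 => hb A' h1 (h2.trans (by nlinarith)))
    have h2 := hb (A + k * W) (by omega) (by rw [add_assoc]; apply le_of_eq; ring)
    have h3 : A + (k + 1) * W = A + k * W + W := by ring
    rw [h3, ← Finset.sum_Ico_consecutive f (by omega : A ≤ A + k * W)
      (by omega : A + k * W ≤ A + k * W + W)]
    push_cast
    linarith

lemma sum_blocks_eq {W : ℕ} (f : ℕ → ℝ) (b : ℝ) (A k : ℕ)
    (hb : ∀ A', ∑ x ∈ Finset.Ico A' (A' + W), f x = b) :
    ∑ x ∈ Finset.Ico A (A + k * W), f x = k * b := by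
  induction k with
  | zero => simp
  | succ k ih =>
    have h3 : A + (k + 1) * W = A + k * W + W := by ring
    rw [h3, ← Finset.sum_Ico_consecutive f (by omega : A ≤ A + k * W)
      (by omega : A + k * W ≤ A + k * W + W), ih, hb]
    push_cast
    ring

/-- FN1 for an arbitrary interval inside `[0, n]` -/
theorem local_interval {w₀ w n A B : ℕ} (h2 : 2 ≤ w₀) (hw : w₀ ≤ w) (hn : Even n)
    (hB : B ≤ n + 1) :
    2 * (1 - 1 / (w₀ : ℝ)) * (Cs w₀).card * ((B : ℝ) - A - Wp w) ≤
      ∑ x ∈ Finset.Ico A B,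
        (∑ c ∈ Cs w₀, om w₀ c x * om w₀ c (n - x)) * (Lw w x * Lw w (n - x)) := by
  have hW := Wp_pos w
  have hW' : (0 : ℝ) < Wp w := by exact_mod_cast hW
  have h2' : (2 : ℝ) ≤ w₀ := by exact_mod_cast h2
  have hnn : ∀ x, 0 ≤ (∑ c ∈ Cs w₀, om w₀ c x * om w₀ c (n - x)) * (Lw w x * Lw w (n - x)) :=
    fun x => mul_nonneg (Finset.sum_nonneg fun c _ => mul_nonneg (om_nonneg _ _ _)
      (om_nonneg _ _ _)) (mul_nonneg (Lw_nonneg _ _) (Lw_nonneg _ _))
  have hc : 0 ≤ 2 * (1 - 1 / (w₀ : ℝ)) * (Cs w₀).card := by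
    have : 1 / (w₀ : ℝ) ≤ 1 := by
      rw [div_le_one (by linarith)]; linarith
    apply mul_nonneg (mul_nonneg (by norm_num) (by linarith)) (Nat.cast_nonneg _)
  rcases lt_or_ge B A with h | h
  · have h4 : (B : ℝ) < A := by exact_mod_cast h
    refine le_trans (mul_nonpos_of_nonneg_of_nonpos hc (by linarith)) ?_
    exact Finset.sum_nonneg fun x _ => hnn x
  · obtain ⟨k, hk⟩ : ∃ k, k = (B - A) / Wp w := ⟨_, rfl⟩
    have h5 : k * Wp w ≤ B - A := by rw [hk]; exact Nat.div_mul_le_self _ _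
    have h6 : B - A < (k + 1) * Wp w := by
      rw [hk]
      exact lt_div_add_one_mul hW
    have h7 : (B : ℝ) - A < ((k : ℝ) + 1) * Wp w := by
      have : ((B - A : ℕ) : ℝ) < (((k + 1) * Wp w : ℕ) : ℝ) := by exact_mod_cast h6
      rw [Nat.cast_sub h] at this
      push_cast at this
      exact this
    have h8 := sum_blocks_ge (W := Wp w)
      (fun x => (∑ c ∈ Cs w₀, om w₀ c x * om w₀ c (n - x)) * (Lw w x * Lw w (n - x)))
      (2 * (1 - 1 / (w₀ : ℝ)) * (Wp w * (Cs w₀).card)) A k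
      (fun A' _ h9 => local_block h2 hw hn (by omega))
    have h9 : ∑ x ∈ Finset.Ico A (A + k * Wp w),
        (∑ c ∈ Cs w₀, om w₀ c x * om w₀ c (n - x)) * (Lw w x * Lw w (n - x)) ≤
        ∑ x ∈ Finset.Ico A B,
        (∑ c ∈ Cs w₀, om w₀ c x * om w₀ c (n - x)) * (Lw w x * Lw w (n - x)) := by
      apply Finset.sum_le_sum_of_subset_of_nonneg
      · apply Finset.Ico_subset_Ico_right
        omega
      · intro x _ _
        exact hnn x
    refine le_trans ?_ (h8.trans h9)
    have h10 : (B : ℝ) - A - Wp w ≤ k * Wp w := by linarith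
    calc 2 * (1 - 1 / (w₀ : ℝ)) * (Cs w₀).card * ((B : ℝ) - A - Wp w)
        ≤ 2 * (1 - 1 / (w₀ : ℝ)) * (Cs w₀).card * (k * Wp w) :=
          mul_le_mul_of_nonneg_left h10 hc
      _ = _ := by ring

/-- mean value one on arbitrary intervals, up to one period -/
theorem mean_interval {w₀ w : ℕ} (hw : w₀ ≤ w) {c : ↥(opr w₀) → ℕ} (hc : c ∈ Cs w₀) {A B : ℕ}
    (h : A ≤ B) :
    |∑ x ∈ Finset.Ico A B, om w₀ c x * Lw w x - ((B : ℝ) - A)| ≤ Wp w := by
  have hW := Wp_pos w
  have hnn : ∀ x, 0 ≤ om w₀ c x * Lw w x := fun x => mul_nonneg (om_nonneg _ _ _) (Lw_nonneg _ _)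
  obtain ⟨k, hk⟩ : ∃ k, k = (B - A) / Wp w := ⟨_, rfl⟩
  have h5 : k * Wp w ≤ B - A := by rw [hk]; exact Nat.div_mul_le_self _ _
  have h6 : B - A < (k + 1) * Wp w := by
    rw [hk]
    exact lt_div_add_one_mul hW
  have h7 : (B : ℝ) - A < ((k : ℝ) + 1) * Wp w := by
    have : ((B - A : ℕ) : ℝ) < (((k + 1) * Wp w : ℕ) : ℝ) := by exact_mod_cast h6
    rw [Nat.cast_sub h] at this
    push_cast at this
    exact this
  have h7' : (k : ℝ) * Wp w ≤ (B : ℝ) - A := by
    have : ((k * Wp w : ℕ) : ℝ) ≤ ((B - A : ℕ) : ℝ) := by exact_mod_cast h5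
    rw [Nat.cast_sub h] at this
    push_cast at this
    exact this
  have h8 := sum_blocks_eq (fun x => om w₀ c x * Lw w x) (Wp w) A k
    (fun A' => mean_block hw hc A')
  have h9 := sum_blocks_eq (fun x => om w₀ c x * Lw w x) (Wp w) A (k + 1)
    (fun A' => mean_block hw hc A')
  have h10 : ∑ x ∈ Finset.Ico A (A + k * Wp w), om w₀ c x * Lw w x ≤
      ∑ x ∈ Finset.Ico A B, om w₀ c x * Lw w x := by
    apply Finset.sum_le_sum_of_subset_of_nonneg
    · apply Finset.Ico_subset_Ico_right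
      omega
    · intro x _ _
      exact hnn x
  have h11 : ∑ x ∈ Finset.Ico A B, om w₀ c x * Lw w x ≤
      ∑ x ∈ Finset.Ico A (A + (k + 1) * Wp w), om w₀ c x * Lw w x := by
    apply Finset.sum_le_sum_of_subset_of_nonneg
    · apply Finset.Ico_subset_Ico_right
      omega
    · intro x _ _
      exact hnn x
  rw [h8] at h10
  rw [h9] at h11
  push_cast at h11
  rw [abs_le]
  constructor <;> nlinarith

end Pool.Agent.Lib.GT.LA
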