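import Pool.Agent.Lib.MP_7b7e48_nt.GT.TransferNat

/-!
# The `L²` bound for convolutions of functions on the natural numbers

`conv_l2`: if all exponential sums of `u` are at most `S` in absolute value then
`∑ (u * v)(n)² ≤ S² ∑ v(n)²`.
-/

open Finset

namespace Pool.Agent.Lib.GT.Transfer

section

variable {N : ℕ} [NeZero N]

lemma ft_lift' {X : ℕ} (hN : X < N) {u : ℕ → ℝ} (hu : ∀ n, X < n → u n = 0)
    (ξ : ZMod N) :
    ft (lift u) ξ = ∑ n ∈ range (X + 1), (u n : ℂ) * e (((ξ.val : ℝ) / N) * n) := by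
  unfold ft lift
  have h1 : ∀ x : ZMod N, ((u x.val : ℝ) : ℂ) * ZMod.stdAddChar (ξ * x) =
      (fun n : ℕ => (u n : ℂ) * e (((ξ.val : ℝ) / N) * n)) x.val := by
    intro x
    simp only
    rw [← std_eq, ZMod.natCast_zmod_val]
  rw [Finset.sum_congr rfl (fun x _ => h1 x)]
  have h2 : ∑ x : ZMod N, (fun n : ℕ => (u n : ℂ) * e (((ξ.val : ℝ) / N) * n)) x.val =
      ∑ n ∈ range N, (u n : ℂ) * e (((ξ.val : ℝ) / N) * n) := by
    apply Finset.sum_nbij (fun a : ZMod N => a.val)
    · intro a _
      exact Finset.mem_range.mpr (ZMod.val_lt a)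
    · intro a _ b _ h
      exact ZMod.val_injective N h
    · intro n hn
      simp only [Finset.coe_range, Set.mem_Iio] at hn
      exact ⟨(n : ZMod N), by simp, ZMod.val_cast_of_lt hn⟩
    · intro a _
      rfl
  rw [h2]
  symm
  apply Finset.sum_subset
  · intro n hn
    rw [Finset.mem_range] at hn ⊢
    omega
  · intro n _ hn'
    rw [Finset.mem_range] at hn'
    rw [hu n (by omega)]; simp

/-- the convolution on `ZMod N` of two functions supported on `[0, X]`, `2 X < N` -/
lemma conv_lift {X : ℕ} (hN : 2 * X < N) {u v : ℕ → ℝ} (hu : ∀ n, X < n → u n = 0)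
    (hv : ∀ n, X < n → v n = 0) (x : ZMod N) :
    ∑ t : ZMod N, lift v t * lift u (x - t) =
      ∑ m ∈ range (x.val + 1), u m * v (x.val - m) := by
  have h1 : ∀ t : ZMod N, lift v t * lift u (x - t) =
      (fun m => if m ≤ x.val then v m * u (x.val - m) else 0) t.val := by
    intro t
    unfold lift
    simp only
    split_ifs with ht
    · rw [ZMod.val_sub ht]
    · push Not at ht
      by_cases htX : X < t.val
      · rw [hv _ htX, zero_mul]
      · have hne : t - x ≠ 0 := by
          intro h0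
          rw [sub_eq_zero] at h0
          rw [h0] at ht
          exact lt_irrefl _ ht
        have h2 : (t - x).val = t.val - x.val := ZMod.val_sub ht.le
        have h3 : (x - t).val = N - (t - x).val := by
          have h4 : x - t = -(t - x) := by ring
          rw [h4]
          have : NeZero (t - x) := ⟨hne⟩
          exact ZMod.val_neg_of_ne_zero _
        rw [hu (x - t).val (by rw [h3, h2]; omega), mul_zero]
  rw [Finset.sum_congr rfl (fun t _ => h1 t),
    sum_val (fun m => if m ≤ x.val then v m * u (x.val - m) else 0), ← Finset.sum_filter]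
  have h5 : (range N).filter (fun m => m ≤ x.val) = range (x.val + 1) := by
    ext m
    have := ZMod.val_lt x
    simp only [Finset.mem_filter, Finset.mem_range]
    omega
  rw [h5, ← Finset.sum_range_reflect]
  apply Finset.sum_congr rfl
  intro m hm
  rw [Finset.mem_range] at hm
  rw [show x.val + 1 - 1 - m = x.val - m by omega, show x.val - (x.val - m) = m by omega,
    mul_comm]

end

/-- `L²` bound for a convolution, by the Fourier transform of one factor. -/
theorem conv_l2 {X : ℕ} {u v : ℕ → ℝ} {S : ℝ} (hu : ∀ n, X < n → u n = 0)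
    (hv : ∀ n, X < n → v n = 0)
    (hS : ∀ α : ℝ, ‖∑ n ∈ range (X + 1), (u n : ℂ) * e (α * n)‖ ≤ S) :
    ∑ n ∈ range (2 * X + 1), (∑ x ∈ range (n + 1), u x * v (n - x)) ^ 2 ≤
      S ^ 2 * ∑ n ∈ range (X + 1), (v n) ^ 2 := by
  let N : ℕ := 2 * X + 1
  have : NeZero N := ⟨by omega⟩
  have hN : N = 2 * X + 1 := rfl
  have h1 : ∑ n ∈ range (2 * X + 1), (∑ x ∈ range (n + 1), u x * v (n - x)) ^ 2 =
      ∑ x : ZMod N, (hh (lift v) (fun s : ZMod N => lift u (-s)) x) ^ 2 := by
    have h2 : ∀ x : ZMod N, (hh (lift v) (fun s : ZMod N => lift u (-s)) x) ^ 2 =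
        (fun n => (∑ m ∈ range (n + 1), u m * v (n - m)) ^ 2) x.val := by
      intro x
      simp only
      rw [hh_eq, ← conv_lift (X := X) (show 2 * X < N by omega) hu hv x]
      congr 1
      refine Finset.sum_congr rfl fun t _ => ?_
      rw [neg_sub]
    rw [Finset.sum_congr rfl (fun x _ => h2 x),
      sum_val (fun n => (∑ m ∈ range (n + 1), u m * v (n - m)) ^ 2)]
  rw [h1]
  have h3 : ∀ ξ : ZMod N, ‖ft (fun s : ZMod N => lift u (-s)) ξ‖ ≤ S := by
    intro ξ
    have h4 : ft (fun s : ZMod N => lift u (-s)) ξ = ft (lift u) (-ξ) := by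
      unfold ft
      refine Fintype.sum_equiv (Equiv.neg _) _ _ (fun s => ?_)
      simp only [Equiv.neg_apply]
      rw [neg_mul_neg]
    rw [h4, ft_lift' (N := N) (X := X) (show X < N by omega) hu (-ξ)]
    exact hS _
  refine (sum_hh_sq_le (lift v) (fun s : ZMod N => lift u (-s)) S h3).trans (le_of_eq ?_)
  congr 1
  have h5 : ∑ t : ZMod N, (lift v t) ^ 2 = ∑ n ∈ range N, (v n) ^ 2 := sum_val (fun n => (v n) ^ 2)
  rw [h5]
  symm
  apply Finset.sum_subset
  · intro n hn
    rw [Finset.mem_range] at hn ⊢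
    omega
  · intro n _ hn'
    rw [Finset.mem_range] at hn'
    rw [hv n (by omega)]; simp

end Pool.Agent.Lib.GT.Transfer
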