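import Pool.Agent.Lib.MP_7b7e48_nt.GT.UniformBasic

/-!
# Goldbach-Turan project: mean values of the rough numbers and of the units against `e(an/q)`
-/

open Finset

namespace Pool.Agent.Lib.GT

theorem sum_comp_surjective {G H : Type*} [Group G] [Group H] [Fintype G] [Fintype H]
    [DecidableEq H] (f : G →* H) (hf : Function.Surjective f) (F : H → ℂ) :
    (Fintype.card H : ℂ) * ∑ u, F (f u) = Fintype.card G * ∑ v, F v := by
  set κ : ℕ := (univ.filter fun g => f g = 1).card with hκ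
  have hfib : ∀ v : H, (univ.filter fun g => f g = v).card = κ := fun v =>
    MonoidHom.card_fiber_eq_of_mem_range f (hf v) (hf 1)
  have hsum : ∀ F' : H → ℂ, ∑ u, F' (f u) = κ * ∑ v, F' v := by
    intro F'
    rw [← Finset.sum_fiberwise univ f (fun u => F' (f u)), Finset.mul_sum]
    refine Finset.sum_congr rfl fun v _ => ?_
    rw [Finset.sum_congr rfl (g := fun _ => F' v)
      (fun u hu => by rw [(Finset.mem_filter.mp hu).2]), Finset.sum_const, hfib, nsmul_eq_mul]
  have hcard : (Fintype.card G : ℂ) = κ * Fintype.card H := by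
    have := hsum (fun _ => 1)
    simpa using this
  rw [hsum, hcard]
  ring

theorem sum_coprime_eq_sum_units {N : ℕ} [NeZero N] (g : ℕ → ℂ) :
    ∑ n ∈ range N with n.Coprime N, g n = ∑ u : (ZMod N)ˣ, g (u : ZMod N).val := by
  refine Finset.sum_bij' (fun n hn => ZMod.unitOfCoprime n (Finset.mem_filter.mp hn).2)
    (fun u _ => (u : ZMod N).val) ?_ ?_ ?_ ?_ ?_
  · intro n hn
    exact Finset.mem_univ _
  · intro u _
    rw [Finset.mem_filter, Finset.mem_range]
    exact ⟨ZMod.val_lt _, ZMod.val_coe_unit_coprime u⟩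
  · intro n hn
    rw [Finset.mem_filter, Finset.mem_range] at hn
    simp only [ZMod.coe_unitOfCoprime]
    exact ZMod.val_cast_of_lt hn.1
  · intro u _
    ext
    simp
  · intro n hn
    rw [Finset.mem_filter, Finset.mem_range] at hn
    simp only [ZMod.coe_unitOfCoprime]
    rw [ZMod.val_cast_of_lt hn.1]

theorem mod_of_periodic {g : ℕ → ℂ} {q : ℕ} (hg : ∀ n, g (n + q) = g n) (n : ℕ) :
    g (n % q) = g n := by
  conv_rhs => rw [← Nat.div_add_mod n q]
  rw [periodic_mul hg]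

theorem units_average {q T : ℕ} (hT : 0 < T) (h : q ∣ T) {g : ℕ → ℂ}
    (hg : ∀ n, g (n + q) = g n) :
    (q.totient : ℂ) * ∑ n ∈ range T with n.Coprime T, g n =
      T.totient * ∑ n ∈ range q with n.Coprime q, g n := by
  have hq : 0 < q := Nat.pos_of_dvd_of_pos h hT
  have : NeZero T := ⟨hT.ne'⟩
  have : NeZero q := ⟨hq.ne'⟩
  rw [sum_coprime_eq_sum_units, sum_coprime_eq_sum_units]
  have h1 := sum_comp_surjective (ZMod.unitsMap h) (ZMod.unitsMap_surjective h)
    (fun v => g (v : ZMod q).val)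
  rw [ZMod.card_units_eq_totient, ZMod.card_units_eq_totient] at h1
  rw [← h1]
  congr 1
  refine Finset.sum_congr rfl fun u _ => ?_
  rw [ZMod.unitsMap_val, ZMod.cast_eq_val, ZMod.val_natCast, mod_of_periodic hg]

/-- the product of the primes up to `w` -/
def WpU (w : ℕ) : ℕ := ∏ p ∈ pr w, p

theorem WpU_pos (w : ℕ) : 0 < WpU w :=
  Finset.prod_pos fun _ hp => (Finset.mem_filter.mp hp).2.pos

theorem mem_prU {w p : ℕ} : p ∈ pr w ↔ p ≤ w ∧ p.Prime := by
  unfold pr
  rw [Finset.mem_filter, Finset.mem_range]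
  constructor <;> rintro ⟨h1, h2⟩ <;> exact ⟨by omega, h2⟩

theorem primeFactors_WpU (w : ℕ) : (WpU w).primeFactors = pr w :=
  Nat.primeFactors_prod fun _ hp => (mem_prU.mp hp).2

theorem rough_iff_coprime {w n : ℕ} : Rough w n ↔ n.Coprime (WpU w) := by
  rw [rough_iff]
  unfold WpU
  rw [Nat.coprime_prod_right_iff]
  refine forall₂_congr fun p hp => ?_
  rw [Nat.coprime_comm, (Nat.Prime.coprime_iff_not_dvd (mem_prU.mp hp).2)]

theorem rough_add_mul {w n T : ℕ} (hT : WpU w ∣ T) : Rough w (n + T) ↔ Rough w n := by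
  rw [rough_iff_coprime, rough_iff_coprime]
  obtain ⟨k, rfl⟩ := hT
  rw [Nat.coprime_add_mul_left_left]

theorem Lw_add_mul {w n T : ℕ} (hT : WpU w ∣ T) : Lw w (n + T) = Lw w n := by
  unfold Lw
  simp only [rough_add_mul hT]

theorem totient_eq_mul_V {w T : ℕ} (h : T.primeFactors = pr w) :
    (T.totient : ℝ) = T * V w := by
  have h1 := Nat.totient_eq_mul_prod_factors T
  have h2 : ((T.totient : ℚ) : ℝ) = ((T : ℚ) * ∏ p ∈ T.primeFactors, (1 - (p : ℚ)⁻¹) : ℚ) := by
    rw [h1]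
  push_cast at h2
  rw [h2, h]
  unfold V
  simp only [one_div]

/-- `n ↦ e (a n / q)` is periodic -/
theorem e_periodic {q : ℕ} (hq : 0 < q) (a n : ℕ) :
    e ((a : ℝ) / q * ((n + q : ℕ) : ℝ)) = e ((a : ℝ) / q * n) := by
  have hq' : (q : ℝ) ≠ 0 := by exact_mod_cast hq.ne'
  rw [show (a : ℝ) / q * ((n + q : ℕ) : ℝ) = (a : ℝ) / q * n + a by push_cast; field_simp]
  rw [e_add, e_nat, mul_one]

theorem e_eq_one_iff {x : ℝ} : e x = 1 ↔ ∃ n : ℤ, x = n := by
  constructor
  · intro h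
    unfold e at h
    rw [Complex.exp_eq_one_iff] at h
    obtain ⟨n, hn⟩ := h
    refine ⟨n, ?_⟩
    have h2 : (2 * Real.pi * Complex.I : ℂ) ≠ 0 := Complex.two_pi_I_ne_zero
    have h3 : (x : ℂ) * (2 * Real.pi * Complex.I) = n * (2 * Real.pi * Complex.I) := by
      rw [← hn]; ring
    have h4 := mul_right_cancel₀ h2 h3
    exact_mod_cast h4
  · rintro ⟨n, rfl⟩
    exact e_int n

/-- mean value of `e (a n / q)` over the units modulo `q` -/
noncomputable def cU (q a : ℕ) : ℂ :=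
  (∑ c ∈ range q with c.Coprime q, e ((a : ℝ) / q * c)) / q.totient

/-- mean value of `Lw w n * e (a n / q)` -/
noncomputable def cL (w q a : ℕ) : ℂ :=
  (∑ n ∈ range (WpU w * q), (Lw w n : ℂ) * e ((a : ℝ) / q * n)) / ((WpU w * q : ℕ) : ℂ)

theorem cL_eq_cU {w q : ℕ} (hq : 0 < q) (h : ∀ p, p.Prime → p ∣ q → p ≤ w) (a : ℕ) :
    cL w q a = cU q a := by
  have hT : 0 < WpU w * q := Nat.mul_pos (WpU_pos w) hq
  have hpf : (WpU w * q).primeFactors = pr w := by
    rw [Nat.primeFactors_mul (WpU_pos w).ne' hq.ne', primeFactors_WpU]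
    refine Finset.union_eq_left.mpr fun p hp => ?_
    have := Nat.prime_of_mem_primeFactors hp
    exact mem_prU.mpr ⟨h p this (Nat.dvd_of_mem_primeFactors hp), this⟩
  have hV := totient_eq_mul_V hpf
  have h1 := units_average hT (Dvd.intro_left (WpU w) rfl) (g := fun n => e ((a : ℝ) / q * n))
    (fun n => e_periodic hq a n)
  have h2 : ∑ n ∈ range (WpU w * q), (Lw w n : ℂ) * e ((a : ℝ) / q * n) =
      ((V w)⁻¹ : ℝ) * ∑ n ∈ range (WpU w * q) with n.Coprime (WpU w * q), e ((a : ℝ) / q * n) := by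
    rw [Finset.mul_sum, Finset.sum_filter]
    refine Finset.sum_congr rfl fun n _ => ?_
    have hiff : n.Coprime (WpU w * q) ↔ Rough w n := by
      rw [rough_iff_coprime]
      constructor
      · exact fun hc => Nat.Coprime.coprime_mul_right_right hc
      · intro hc
        refine Nat.Coprime.mul_right hc ?_
        refine Nat.coprime_of_dvd fun p hp hpn hpq => ?_
        have hle := h p hp hpq
        have := rough_iff_coprime.mpr hc p hp hpn
        omega
    unfold Lw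
    by_cases hr : Rough w n
    · rw [if_pos hr, if_pos (hiff.mpr hr)]
    · rw [if_neg hr, if_neg (fun hc => hr (hiff.mp hc))]
      simp
  have hVpos := V_pos w
  have hφ : (q.totient : ℂ) ≠ 0 := by
    exact_mod_cast (Nat.totient_pos.mpr hq).ne'
  have hT' : ((WpU w * q : ℕ) : ℂ) ≠ 0 := by exact_mod_cast hT.ne'
  have hVC : ((V w : ℝ) : ℂ) ≠ 0 := by exact_mod_cast hVpos.ne'
  unfold cL cU
  rw [h2, div_eq_div_iff hT' hφ]
  have hVc : ((WpU w * q).totient : ℂ) = ((WpU w * q : ℕ) : ℂ) * (V w : ℝ) := by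
    exact_mod_cast congrArg (Complex.ofReal) hV
  rw [hVc] at h1
  rw [Complex.ofReal_inv]
  rw [show ((V w : ℝ) : ℂ)⁻¹ * (∑ n ∈ range (WpU w * q) with n.Coprime (WpU w * q),
      e ((a : ℝ) / q * n)) * (q.totient : ℂ) = ((V w : ℝ) : ℂ)⁻¹ * ((q.totient : ℂ) *
      ∑ n ∈ range (WpU w * q) with n.Coprime (WpU w * q), e ((a : ℝ) / q * n)) by ring]
  rw [h1]
  field_simp

theorem cL_eq_zero {w q r : ℕ} (hq : 0 < q) (hr : r.Prime) (hrq : r ∣ q) (hwr : w < r) {a : ℕ}
    (ha : a.Coprime q) : cL w q a = 0 := by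
  have hq' : (q : ℝ) ≠ 0 := by exact_mod_cast hq.ne'
  obtain ⟨m, rfl⟩ := hrq
  have hr0 : (r : ℝ) ≠ 0 := by exact_mod_cast hr.pos.ne'
  have hm0 : (m : ℝ) ≠ 0 := by
    intro h
    apply hq'
    push_cast
    rw [h, mul_zero]
  unfold cL
  rw [sum_eq_zero_of_shift (T := WpU w * (r * m)) (s := WpU w * m)
    (ω := e ((a : ℝ) * WpU w / r)), zero_div]
  · intro n
    rw [Lw_add_mul (Dvd.intro _ rfl)]
    congr 1
    rw [show (a : ℝ) / ((r * m : ℕ) : ℝ) * ((n + WpU w * (r * m) : ℕ) : ℝ) =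
      (a : ℝ) / ((r * m : ℕ) : ℝ) * n + ((a * WpU w : ℕ) : ℝ) by push_cast; field_simp]
    rw [e_add, e_nat, mul_one]
  · intro h
    obtain ⟨k, hk⟩ := e_eq_one_iff.mp h
    have h1 : ((a * WpU w : ℕ) : ℝ) = ((k * r : ℤ) : ℝ) := by
      push_cast
      rw [div_eq_iff hr0] at hk
      exact hk
    have h2 : ((a * WpU w : ℕ) : ℤ) = k * r := by exact_mod_cast h1
    have h3 : (r : ℤ) ∣ ((a * WpU w : ℕ) : ℤ) := ⟨k, by rw [h2]; ring⟩
    have h4 : r ∣ a * WpU w := by exact_mod_cast h3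
    rcases hr.dvd_mul.mp h4 with h5 | h5
    · have : r ∣ 1 := by
        have h6 := Nat.dvd_gcd h5 (Dvd.intro m rfl : r ∣ r * m)
        rwa [ha] at h6
      exact hr.one_lt.ne' (Nat.dvd_one.mp this)
    · have : r ∈ (WpU w).primeFactors := Nat.mem_primeFactors.mpr ⟨hr, h5, (WpU_pos w).ne'⟩
      rw [primeFactors_WpU, mem_prU] at this
      omega
  · intro n
    rw [Lw_add_mul (Dvd.intro _ rfl)]
    rw [show (a : ℝ) / ((r * m : ℕ) : ℝ) * ((n + WpU w * m : ℕ) : ℝ) =
      (a : ℝ) * WpU w / r + (a : ℝ) / ((r * m : ℕ) : ℝ) * n by push_cast; field_simp; ring]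
    rw [e_add]
    ring

/-- sums over the units modulo `m` of `e (a n / (r m))`, `r ∤ a`, vanish over `range (r m)` -/
theorem sum_units_shift {r m a : ℕ} (hr : r.Prime) (hm : 0 < m) (ha : ¬ r ∣ a) :
    ∑ c ∈ range (r * m) with c.Coprime m, e ((a : ℝ) / ((r * m : ℕ) : ℝ) * c) = 0 := by
  have hr0 : (r : ℝ) ≠ 0 := by exact_mod_cast hr.pos.ne'
  have hm0 : (m : ℝ) ≠ 0 := by exact_mod_cast hm.ne'
  rw [Finset.sum_filter]
  refine sum_eq_zero_of_shift (s := m) (ω := e ((a : ℝ) / r)) ?_ ?_ ?_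
  · intro n
    have : (n + r * m).Coprime m ↔ n.Coprime m := by
      rw [Nat.coprime_add_mul_right_left]
    simp only [this]
    rw [e_periodic (Nat.mul_pos hr.pos hm)]
  · intro h
    obtain ⟨k, hk⟩ := e_eq_one_iff.mp h
    rw [div_eq_iff hr0] at hk
    have h2 : (a : ℤ) = k * r := by exact_mod_cast hk
    have h3 : (r : ℤ) ∣ (a : ℤ) := ⟨k, by rw [h2]; ring⟩
    exact ha (by exact_mod_cast h3)
  · intro n
    have : (n + m).Coprime m ↔ n.Coprime m := by
      rw [Nat.coprime_add_self_left]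
    simp only [this]
    split_ifs
    · rw [← e_add]
      congr 1
      push_cast
      field_simp
      ring
    · simp

theorem norm_cU_le {q r : ℕ} (hq : 0 < q) (hr : r.Prime) (hrq : r ∣ q) {a : ℕ}
    (ha : a.Coprime q) : ‖cU q a‖ ≤ 1 / ((r : ℝ) - 1) := by
  obtain ⟨m, rfl⟩ := hrq
  have hm : 0 < m := Nat.pos_of_ne_zero (by rintro rfl; simp at hq)
  have hra : ¬ r ∣ a := by
    intro h5
    have h6 := Nat.dvd_gcd h5 (Dvd.intro m rfl : r ∣ r * m)
    rw [ha] at h6
    exact hr.one_lt.ne' (Nat.dvd_one.mp h6)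
  have hr1 : (0 : ℝ) < (r : ℝ) - 1 := by
    have : (2 : ℝ) ≤ r := by exact_mod_cast hr.two_le
    linarith
  have hs := sum_units_shift hr hm hra
  unfold cU
  by_cases hrm : r ∣ m
  · have : ∀ c : ℕ, c.Coprime (r * m) ↔ c.Coprime m := by
      intro c
      rw [Nat.coprime_mul_iff_right]
      refine ⟨fun h => h.2, fun h => ⟨Nat.Coprime.coprime_dvd_right hrm h, h⟩⟩
    simp only [this]
    rw [hs, zero_div, norm_zero]
    positivity
  · have hcop : Nat.Coprime r m := (Nat.Prime.coprime_iff_not_dvd hr).mpr hrm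
    have hsplit : ∑ c ∈ range (r * m) with c.Coprime (r * m), e ((a : ℝ) / ((r * m : ℕ) : ℝ) * c) =
        - ∑ c ∈ (range (r * m)).filter (fun c => c.Coprime m ∧ r ∣ c),
          e ((a : ℝ) / ((r * m : ℕ) : ℝ) * c) := by
      rw [eq_neg_iff_add_eq_zero, ← hs]
      rw [← Finset.sum_union]
      · congr 1
        ext c
        simp only [Finset.mem_union, Finset.mem_filter, Finset.mem_range]
        rw [Nat.coprime_mul_iff_right, Nat.coprime_comm (n := c) (m := r),
          Nat.Prime.coprime_iff_not_dvd hr]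
        tauto
      · rw [Finset.disjoint_filter]
        intro c _ h1 h2
        rw [Nat.coprime_mul_iff_right] at h1
        have := Nat.dvd_gcd h2.2 (dvd_refl r)
        rw [h1.1] at this
        exact hr.one_lt.ne' (Nat.dvd_one.mp this)
    have hcard : ((range (r * m)).filter (fun c => c.Coprime m ∧ r ∣ c)).card ≤ m.totient := by
      rw [Nat.totient_eq_card_coprime]
      refine Finset.card_le_card_of_injOn (fun c => c / r) ?_ ?_
      · intro c hc
        simp only [Finset.coe_filter, Finset.mem_range, Set.mem_ofPred_eq] at hc ⊢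
        obtain ⟨hc1, hc2, k, rfl⟩ := hc
        rw [Nat.mul_div_cancel_left _ hr.pos]
        refine ⟨Nat.lt_of_mul_lt_mul_left hc1, ?_⟩
        exact (Nat.Coprime.coprime_mul_left hc2).symm
      · intro c hc d hd hcd
        simp only [Finset.coe_filter, Finset.mem_range, Set.mem_ofPred_eq] at hc hd hcd
        obtain ⟨_, _, k, rfl⟩ := hc
        obtain ⟨_, _, l, rfl⟩ := hd
        rw [Nat.mul_div_cancel_left _ hr.pos, Nat.mul_div_cancel_left _ hr.pos] at hcd
        rw [hcd]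
    rw [hsplit, norm_div, norm_neg, Complex.norm_natCast, Nat.totient_mul hcop,
      Nat.totient_prime hr]
    have hφ : (0 : ℝ) < m.totient := by exact_mod_cast Nat.totient_pos.mpr hm
    have hn : ‖∑ c ∈ (range (r * m)).filter (fun c => c.Coprime m ∧ r ∣ c),
        e ((a : ℝ) / ((r * m : ℕ) : ℝ) * c)‖ ≤ m.totient := by
      refine (norm_sum_le _ _).trans ?_
      rw [Finset.sum_congr rfl fun c _ => norm_e _, Finset.sum_const, nsmul_eq_mul, mul_one]
      exact_mod_cast hcard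
    have hr1' : ((r - 1 : ℕ) : ℝ) = (r : ℝ) - 1 := by
      rw [Nat.cast_sub hr.one_lt.le, Nat.cast_one]
    have hc : (((r - 1) * m.totient : ℕ) : ℝ) = ((r : ℝ) - 1) * m.totient := by
      rw [Nat.cast_mul, hr1']
    rw [hc, div_le_div_iff₀ (by positivity) hr1]
    calc _ ≤ (m.totient : ℝ) * ((r : ℝ) - 1) := mul_le_mul_of_nonneg_right hn hr1.le
      _ = _ := by ring

/-- the mean value of `(lam - Lw w)(n) e (a n / q)` is at most `1 / w` in absolute value -/
theorem norm_cU_sub_cL_le {w q a : ℕ} (hw : 2 ≤ w) (hq : 0 < q) (ha : a.Coprime q) :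
    ‖cU q a - cL w q a‖ ≤ 1 / (w : ℝ) := by
  have hw0 : (0 : ℝ) < w := by exact_mod_cast (by omega : 0 < w)
  by_cases h : ∀ p, p.Prime → p ∣ q → p ≤ w
  · rw [cL_eq_cU hq h, sub_self, norm_zero]
    positivity
  · push Not at h
    obtain ⟨r, hr, hrq, hwr⟩ := h
    rw [cL_eq_zero hq hr hrq hwr ha, sub_zero]
    refine (norm_cU_le hq hr hrq ha).trans ?_
    have : (w : ℝ) + 1 ≤ r := by exact_mod_cast hwr
    exact one_div_le_one_div_of_le hw0 (by linarith)

end Pool.Agent.Lib.GT
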