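import Pool.Agent.Lib.MP_7b7e48_nt.GT.Defs

/-!
# The sieve density `V` and Euler's function
-/

set_option autoImplicit false

open Finset

namespace Pool.Agent.Lib.GT.RE

theorem pr_mem {z p : ℕ} : p ∈ pr z ↔ p ≤ z ∧ p.Prime := by
  unfold pr
  rw [Finset.mem_filter, Finset.mem_range, Nat.lt_succ_iff]

theorem one_sub_inv_pos {p : ℕ} (hp : 2 ≤ p) : 0 < 1 - 1 / (p : ℝ) := by
  have h2 : (2 : ℝ) ≤ p := by exact_mod_cast hp
  have : 1 / (p : ℝ) ≤ 1 / 2 := one_div_le_one_div_of_le (by norm_num) h2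
  linarith

theorem one_sub_inv_le_one (p : ℕ) : 1 - 1 / (p : ℝ) ≤ 1 := by
  have : 0 ≤ 1 / (p : ℝ) := by positivity
  linarith

theorem V_le_one (z : ℕ) : V z ≤ 1 := by
  unfold V
  apply Finset.prod_le_one
  · intro p hp
    exact (one_sub_inv_pos (pr_mem.mp hp).2.two_le).le
  · intro p _
    exact one_sub_inv_le_one p

/-- `log z ≤ ∏_{p ≤ z} (1 - 1/p)⁻¹` -/
theorem log_le_inv_V (z : ℕ) : Real.log z ≤ (V z)⁻¹ := by
  set f : ℕ →* ℝ :=
    { toFun := fun m => 1 / (m : ℝ)
      map_one' := by simp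
      map_mul' := fun a b => by
        push_cast
        rw [one_div_mul_one_div] } with hf
  have hf1 : ∀ {p : ℕ}, p.Prime → ‖f p‖ < 1 := by
    intro p hp
    change ‖1 / (p : ℝ)‖ < 1
    have h2 : (2 : ℝ) ≤ p := by exact_mod_cast hp.two_le
    rw [Real.norm_eq_abs, abs_of_pos (by positivity), div_lt_one (by linarith)]
    linarith
  obtain ⟨h1, h2⟩ := EulerProduct.summable_and_hasSum_smoothNumbers_prod_primesBelow_geometric hf1
    (z + 1)
  have hset : Nat.primesBelow (z + 1) = pr z := by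
    ext p
    rw [Nat.mem_primesBelow, pr_mem]
    constructor
    · rintro ⟨h1, h2⟩; exact ⟨by omega, h2⟩
    · rintro ⟨h1, h2⟩; exact ⟨by omega, h2⟩
  rw [hset] at h2
  have h3 : ∏ p ∈ pr z, (1 - f p)⁻¹ = (V z)⁻¹ := by
    unfold V
    rw [Finset.prod_inv_distrib]
    rfl
  rw [h3] at h2
  have hnn : ∀ m : (z + 1).smoothNumbers, 0 ≤ f m := fun m => by
    change 0 ≤ 1 / (((m : ℕ)) : ℝ)
    positivity
  have hmem : ∀ m ∈ Finset.Icc 1 z, m ∈ (z + 1).smoothNumbers := by
    intro m hm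
    rw [Finset.mem_Icc] at hm
    rw [Nat.mem_smoothNumbers']
    intro p _ hpm
    have := Nat.le_of_dvd (by omega) hpm
    omega
  let g : Finset.Icc 1 z → (z + 1).smoothNumbers := fun m => ⟨m.1, hmem _ m.2⟩
  have hg : Function.Injective g := by
    intro a b hab
    have := congrArg (fun x : (z + 1).smoothNumbers => (x : ℕ)) hab
    exact Subtype.ext this
  have h4 : ∑ m : Finset.Icc 1 z, f (g m) ≤ (V z)⁻¹ := by
    have h5 := sum_le_hasSum (Finset.univ.map ⟨g, hg⟩) (fun i _ => hnn i) h2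
    rw [Finset.sum_map] at h5
    exact h5
  have h5 : ∑ m : Finset.Icc 1 z, f (g m) = ∑ m ∈ Finset.Icc 1 z, 1 / (m : ℝ) := by
    rw [← Finset.sum_coe_sort (Finset.Icc 1 z)]
    rfl
  have h6 : (harmonic z : ℝ) = ∑ m ∈ Finset.Icc 1 z, 1 / (m : ℝ) := by
    rw [harmonic_eq_sum_Icc]
    push_cast
    exact Finset.sum_congr rfl fun m _ => (one_div _).symm
  have h7 := log_add_one_le_harmonic z
  have h8 : Real.log z ≤ Real.log ↑(z + 1) := by
    rcases Nat.eq_zero_or_pos z with h | h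
    · rw [h]; simp
    · apply Real.log_le_log (by exact_mod_cast h)
      push_cast
      linarith
  linarith

theorem V_le_inv_log (z : ℕ) (hz : 2 ≤ z) : V z ≤ 1 / Real.log z := by
  have h1 : 0 < Real.log z := Real.log_pos (by exact_mod_cast (by omega : 1 < z))
  have h2 := log_le_inv_V z
  rw [le_div_iff₀ h1]
  calc V z * Real.log z ≤ V z * (V z)⁻¹ := mul_le_mul_of_nonneg_left h2 (V_pos z).le
    _ = 1 := mul_inv_cancel₀ (V_pos z).ne'

/-- density of the `z`-rough numbers in a class coprime to `q` -/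
noncomputable def Wq (z q : ℕ) : ℝ := ∏ p ∈ pr z with ¬ p ∣ q, (1 - 1 / (p : ℝ))

theorem Wq_pos (z q : ℕ) : 0 < Wq z q := by
  unfold Wq
  refine Finset.prod_pos fun p hp => ?_
  exact one_sub_inv_pos (pr_mem.mp (Finset.mem_filter.mp hp).1).2.two_le

theorem totient_eq_prod_real (q : ℕ) :
    (q.totient : ℝ) = q * ∏ p ∈ q.primeFactors, (1 - 1 / (p : ℝ)) := by
  have h := Nat.totient_eq_mul_prod_factors q
  have h2 := congrArg (fun x : ℚ => (x : ℝ)) h
  beta_reduce at h2
  push_cast at h2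
  rw [h2]
  congr 1
  exact Finset.prod_congr rfl fun p _ => by rw [one_div]

theorem Wq_mul_totient_le (z q : ℕ) (hq : 0 < q) : Wq z q * q.totient ≤ q * V z := by
  rw [totient_eq_prod_real]
  have h1 : V z = Wq z q * ∏ p ∈ pr z with p ∣ q, (1 - 1 / (p : ℝ)) := by
    unfold V Wq
    rw [mul_comm, Finset.prod_filter_mul_prod_filter_not]
  have h2 : ∏ p ∈ q.primeFactors, (1 - 1 / (p : ℝ)) ≤
      ∏ p ∈ pr z with p ∣ q, (1 - 1 / (p : ℝ)) := by
    have h3 : (pr z).filter (fun p => p ∣ q) ⊆ q.primeFactors := by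
      intro p hp
      rw [Finset.mem_filter, pr_mem] at hp
      exact Nat.mem_primeFactors.mpr ⟨hp.1.2, hp.2, hq.ne'⟩
    rw [← Finset.prod_sdiff h3]
    have h4 : ∏ p ∈ q.primeFactors \ (pr z).filter (fun p => p ∣ q), (1 - 1 / (p : ℝ)) ≤ 1 := by
      apply Finset.prod_le_one
      · intro p hp
        exact (one_sub_inv_pos (Nat.prime_of_mem_primeFactors (Finset.mem_sdiff.mp hp).1).two_le).le
      · intro p _
        exact one_sub_inv_le_one p
    have h5 : 0 ≤ ∏ p ∈ pr z with p ∣ q, (1 - 1 / (p : ℝ)) := by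
      apply Finset.prod_nonneg
      intro p hp
      exact (one_sub_inv_pos (pr_mem.mp (Finset.mem_filter.mp hp).1).2.two_le).le
    calc _ ≤ 1 * ∏ p ∈ pr z with p ∣ q, (1 - 1 / (p : ℝ)) := mul_le_mul_of_nonneg_right h4 h5
      _ = _ := one_mul _
  rw [h1]
  have h6 := Wq_pos z q
  have h7 : (0 : ℝ) ≤ q := by positivity
  calc Wq z q * (q * ∏ p ∈ q.primeFactors, (1 - 1 / (p : ℝ)))
      ≤ Wq z q * (q * ∏ p ∈ pr z with p ∣ q, (1 - 1 / (p : ℝ))) := by
        apply mul_le_mul_of_nonneg_left _ h6.le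
        exact mul_le_mul_of_nonneg_left h2 h7
    _ = _ := by ring

theorem Wq_le (z q : ℕ) (hq : 0 < q) : Wq z q ≤ q * V z := by
  have h1 := Wq_mul_totient_le z q hq
  have h2 : (1 : ℝ) ≤ q.totient := by exact_mod_cast Nat.totient_pos.mpr hq
  nlinarith [Wq_pos z q]

theorem prod_one_sub_ge (S : Finset ℕ) (hS : ∀ p ∈ S, 2 ≤ p) :
    1 / ((S.card : ℝ) + 1) ≤ ∏ p ∈ S, (1 - 1 / (p : ℝ)) := by
  induction S using Finset.induction_on_max with
  | empty => simp
  | insert a s hmax ih =>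
    have ha : a ∉ s := fun h => lt_irrefl _ (hmax a h)
    have hs := ih (fun p hp => hS p (Finset.mem_insert_of_mem hp))
    have h2 : 2 ≤ a := hS a (Finset.mem_insert_self _ _)
    have hcard : s.card + 2 ≤ a := by
      have h3 : s ⊆ Finset.Ico 2 a := by
        intro p hp
        rw [Finset.mem_Ico]
        exact ⟨hS p (Finset.mem_insert_of_mem hp), hmax p hp⟩
      have h4 := Finset.card_le_card h3
      rw [Nat.card_Ico] at h4
      omega
    rw [Finset.prod_insert ha, Finset.card_insert_of_notMem ha]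
    have h5 : ((s.card : ℝ) + 2) ≤ a := by exact_mod_cast hcard
    have h6 : 1 / (a : ℝ) ≤ 1 / ((s.card : ℝ) + 2) :=
      one_div_le_one_div_of_le (by positivity) h5
    have h7 : ((s.card : ℝ) + 1) / ((s.card : ℝ) + 2) ≤ 1 - 1 / (a : ℝ) := by
      have : ((s.card : ℝ) + 1) / ((s.card : ℝ) + 2) = 1 - 1 / ((s.card : ℝ) + 2) := by
        field_simp
        ring
      rw [this]
      linarith
    calc 1 / (((s.card + 1 : ℕ) : ℝ) + 1)
        = ((s.card : ℝ) + 1) / ((s.card : ℝ) + 2) * (1 / ((s.card : ℝ) + 1)) := by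
          push_cast
          field_simp
          ring
      _ ≤ (1 - 1 / (a : ℝ)) * ∏ p ∈ s, (1 - 1 / (p : ℝ)) := by
          apply mul_le_mul h7 hs (by positivity)
          have := one_sub_inv_pos h2
          exact this.le

theorem two_pow_card_primeFactors_le (q : ℕ) (hq : 0 < q) : 2 ^ q.primeFactors.card ≤ q := by
  calc 2 ^ q.primeFactors.card = ∏ _p ∈ q.primeFactors, 2 := by rw [Finset.prod_const]
    _ ≤ ∏ p ∈ q.primeFactors, p := by
        apply Finset.prod_le_prod'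
        intro p hp
        exact (Nat.prime_of_mem_primeFactors hp).two_le
    _ ≤ q := Nat.le_of_dvd hq (Nat.prod_primeFactors_dvd q)

theorem sq_le_two_pow (n : ℕ) : (n + 1) ^ 2 ≤ 4 * 2 ^ n := by
  induction n with
  | zero => norm_num
  | succ n ih =>
    rcases Nat.lt_or_ge n 2 with h | h
    · interval_cases n <;> norm_num
    · rw [pow_succ 2 n]
      nlinarith

/-- `φ(q) ≥ √q / 2` -/
theorem le_four_mul_totient_sq (q : ℕ) : q ≤ 4 * q.totient ^ 2 := by
  rcases Nat.eq_zero_or_pos q with hq | hq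
  · rw [hq]; simp
  have h1 := prod_one_sub_ge q.primeFactors (fun p hp => (Nat.prime_of_mem_primeFactors hp).two_le)
  have h2 := totient_eq_prod_real q
  have h3 : ((q.primeFactors.card : ℝ) + 1) ^ 2 ≤ 4 * q := by
    have h4 := sq_le_two_pow q.primeFactors.card
    have h5 := two_pow_card_primeFactors_le q hq
    have h6 : (q.primeFactors.card + 1) ^ 2 ≤ 4 * q := h4.trans (Nat.mul_le_mul_left 4 h5)
    exact_mod_cast h6
  have hqr : (0 : ℝ) < q := by exact_mod_cast hq
  set c : ℝ := (q.primeFactors.card : ℝ) + 1 with hc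
  have hc0 : 0 < c := by positivity
  have h7 : (q : ℝ) / c ≤ q.totient := by
    rw [h2]
    calc (q : ℝ) / c = q * (1 / c) := by ring
      _ ≤ _ := mul_le_mul_of_nonneg_left h1 hqr.le
  have h8 : (q : ℝ) ≤ 4 * (q.totient : ℝ) ^ 2 := by
    have h9 : (q : ℝ) / c * ((q : ℝ) / c) ≤ q.totient * q.totient :=
      mul_le_mul h7 h7 (by positivity) (by positivity)
    have h10 : (q : ℝ) / 4 ≤ (q : ℝ) / c * ((q : ℝ) / c) := by
      rw [div_mul_div_comm, div_le_div_iff₀ (by norm_num) (by positivity)]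
      nlinarith
    nlinarith
  exact_mod_cast h8

theorem exists_totient_ge (T : ℝ) : ∃ Q : ℕ, ∀ q : ℕ, Q < q → T ≤ q.totient := by
  obtain ⟨N, hN⟩ := exists_nat_ge T
  refine ⟨4 * N ^ 2, fun q hq => ?_⟩
  have h1 := le_four_mul_totient_sq q
  have h2 : N ≤ q.totient := by
    by_contra h
    push Not at h
    have : q.totient ^ 2 ≤ N ^ 2 := Nat.pow_le_pow_left h.le 2
    omega
  have h3 : (N : ℝ) ≤ q.totient := by exact_mod_cast h2
  linarith

end Pool.Agent.Lib.GT.RE
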