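import Pool.Agent.Lib.MP_7b7e48_nt.GT.FL1

/-!
# Fundamental lemma, part 2: levels and the expansion of the Brun-Hooley product
-/

open Finset

namespace Pool.Agent.Lib.GT

/-- level of the prime `r`: the `j` with `r^(2^j) ≤ z < r^(2^(j+1))` -/
def lev (z r : ℕ) : ℕ := Nat.log 2 (Nat.log r z)

/-- number of levels -/
def NJ (z : ℕ) : ℕ := Nat.log 2 (Nat.log 2 z) + 1

/-- primes of level `j` -/
def PJ (z : ℕ) (P : Finset ℕ) (j : ℕ) : Finset ℕ := P.filter (fun r => lev z r = j)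

/-- truncation parameter of level `j` -/
def mJ (b j : ℕ) : ℕ := 2 * (b + j)

/-- admissible sets of level `j` -/
def fam (z b : ℕ) (P : Finset ℕ) (j : ℕ) : Finset (Finset ℕ) :=
  (PJ z P j).powerset.filter (fun d => d.card ≤ mJ b j + 1)

theorem lev_pow_le {z r : ℕ} (hr : 2 ≤ r) (hrz : r ≤ z) : r ^ (2 ^ lev z r) ≤ z := by
  have hz : z ≠ 0 := by omega
  have h1 : Nat.log r z ≠ 0 := by
    have := Nat.log_pos (b := r) (by omega) hrz
    omega
  have h2 : 2 ^ lev z r ≤ Nat.log r z := Nat.pow_log_le_self 2 h1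
  calc r ^ (2 ^ lev z r) ≤ r ^ Nat.log r z := Nat.pow_le_pow_right (by omega) h2
    _ ≤ z := Nat.pow_log_le_self r hz

theorem lt_lev_pow {z r : ℕ} (hr : 2 ≤ r) : z < r ^ (2 ^ (lev z r + 1)) := by
  have h1 : Nat.log r z < 2 ^ (lev z r + 1) := Nat.lt_pow_succ_log_self (by norm_num) _
  calc z < r ^ (Nat.log r z + 1) := Nat.lt_pow_succ_log_self (by omega) z
    _ ≤ r ^ (2 ^ (lev z r + 1)) := Nat.pow_le_pow_right (by omega) (by omega)

theorem lev_lt_NJ {z r : ℕ} (hr : 2 ≤ r) : lev z r < NJ z := by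
  unfold lev NJ
  have h1 : Nat.log r z ≤ Nat.log 2 z := Nat.log_anti_left (by norm_num) hr
  have h2 := Nat.log_mono_right (b := 2) h1
  omega

theorem PJ_disjoint (z : ℕ) (P : Finset ℕ) {i j : ℕ} (h : i ≠ j) :
    Disjoint (PJ z P i) (PJ z P j) := by
  rw [Finset.disjoint_left]
  intro r h1 h2
  exact h ((mem_filter.mp h1).2.symm.trans (mem_filter.mp h2).2)

theorem sum_geo_le (J : ℕ) : ∑ j ∈ range J, ((j : ℝ) + 1) / 2 ^ j ≤ 4 := by
  have h : ∀ J : ℕ, ∑ j ∈ range J, ((j : ℝ) + 1) / 2 ^ j = 4 - 2 * (J + 2) / 2 ^ J := by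
    intro J
    induction J with
    | zero => norm_num
    | succ n ih =>
      rw [Finset.sum_range_succ, ih, pow_succ]
      push_cast
      field_simp
      ring
  rw [h]
  have : 0 ≤ 2 * ((J : ℝ) + 2) / 2 ^ J := by positivity
  linarith

section
variable {z b : ℕ} {P : Finset ℕ}

theorem mem_fam_sub {j : ℕ} {d : Finset ℕ} (h : d ∈ fam z b P j) : d ⊆ PJ z P j :=
  mem_powerset.mp (mem_filter.mp h).1

theorem mem_fam_card {j : ℕ} {d : Finset ℕ} (h : d ∈ fam z b P j) : d.card ≤ mJ b j + 1 :=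
  (mem_filter.mp h).2

/-- union of a family -/
def un (D : Fin (NJ z) → Finset ℕ) : Finset ℕ := Finset.univ.biUnion D

theorem un_sub (D : Fin (NJ z) → Finset ℕ) (hD : D ∈ Fintype.piFinset (fun j : Fin (NJ z) => fam z b P j)) :
    un D ⊆ P := by
  intro r hr
  rw [un, mem_biUnion] at hr
  obtain ⟨j, -, hj⟩ := hr
  exact (mem_filter.mp (mem_fam_sub (Fintype.mem_piFinset.mp hD j) hj)).1

theorem un_disj (D : Fin (NJ z) → Finset ℕ) (hD : D ∈ Fintype.piFinset (fun j : Fin (NJ z) => fam z b P j)) :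
    Set.PairwiseDisjoint (↑(Finset.univ : Finset (Fin (NJ z)))) D := by
  intro i _ j _ hij
  have hij' : (i : ℕ) ≠ j := fun h => hij (Fin.ext h)
  exact Disjoint.mono (mem_fam_sub (Fintype.mem_piFinset.mp hD i))
    (mem_fam_sub (Fintype.mem_piFinset.mp hD j)) (PJ_disjoint z P hij')

theorem prod_un (D : Fin (NJ z) → Finset ℕ) (hD : D ∈ Fintype.piFinset (fun j : Fin (NJ z) => fam z b P j))
    {M : Type*} [CommMonoid M] (f : ℕ → M) :
    ∏ r ∈ un D, f r = ∏ j, ∏ r ∈ D j, f r := by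
  rw [un, Finset.prod_biUnion (un_disj D hD)]

theorem prod_un_le (hP : ∀ r ∈ P, r.Prime ∧ r ≤ z) (hz : 2 ≤ z) (hb : 1 ≤ b)
    (D : Fin (NJ z) → Finset ℕ) (hD : D ∈ Fintype.piFinset (fun j : Fin (NJ z) => fam z b P j)) :
    ((∏ r ∈ un D, r : ℕ) : ℝ) ≤ (z : ℝ) ^ (12 * b) := by
  have hzr : (2 : ℝ) ≤ z := by exact_mod_cast hz
  have hlz : 0 < Real.log z := Real.log_pos (by linarith)
  have hpos : (0 : ℝ) < ((∏ r ∈ un D, r : ℕ) : ℝ) := by
    have : 0 < ∏ r ∈ un D, r := Finset.prod_pos fun r hr => (hP r (un_sub D hD hr)).1.pos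
    exact_mod_cast this
  have hlog : Real.log ((∏ r ∈ un D, r : ℕ) : ℝ) ≤ (12 * b : ℕ) * Real.log z := by
    push_cast
    rw [Real.log_prod (fun r hr => by
      have := (hP r (un_sub D hD hr)).1.pos
      positivity)]
    rw [un, Finset.sum_biUnion (un_disj D hD)]
    have h1 : ∀ j : Fin (NJ z), ∑ r ∈ D j, Real.log r ≤
        (3 * b * Real.log z) * (((j : ℕ) : ℝ) + 1) / 2 ^ (j : ℕ) := by
      intro j
      have hDj := Fintype.mem_piFinset.mp hD j
      have h2 : ∀ r ∈ D j, Real.log r ≤ Real.log z / 2 ^ (j : ℕ) := by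
        intro r hr
        have hr' := mem_filter.mp (mem_fam_sub hDj hr)
        have h3 := hP r hr'.1
        have h4 := lev_pow_le h3.1.two_le h3.2
        rw [hr'.2] at h4
        rw [le_div_iff₀ (by positivity)]
        have h5 : Real.log (((r ^ (2 ^ (j : ℕ)) : ℕ)) : ℝ) ≤ Real.log z :=
          Real.log_le_log (by have := h3.1.pos; positivity) (by exact_mod_cast h4)
        push_cast at h5
        rw [Real.log_pow] at h5
        push_cast at h5
        linarith
      calc ∑ r ∈ D j, Real.log r ≤ ∑ r ∈ D j, Real.log z / 2 ^ (j : ℕ) := Finset.sum_le_sum h2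
        _ = (D j).card * (Real.log z / 2 ^ (j : ℕ)) := by rw [Finset.sum_const, nsmul_eq_mul]
        _ ≤ (3 * b * (((j : ℕ) : ℝ) + 1)) * (Real.log z / 2 ^ (j : ℕ)) := by
          refine mul_le_mul_of_nonneg_right ?_ (by positivity)
          have h6 : (D j).card ≤ 3 * b * ((j : ℕ) + 1) := by
            have h7 := mem_fam_card hDj
            unfold mJ at h7
            nlinarith [Nat.zero_le (j : ℕ), Nat.mul_le_mul hb (Nat.zero_le (j : ℕ)),
              Nat.mul_le_mul_right (j : ℕ) hb]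
          calc ((D j).card : ℝ) ≤ ((3 * b * ((j : ℕ) + 1) : ℕ) : ℝ) := by exact_mod_cast h6
            _ = _ := by push_cast; ring
        _ = _ := by ring
    refine (Finset.sum_le_sum fun j _ => h1 j).trans ?_
    have h8 : ∑ j : Fin (NJ z), (3 * b * Real.log z) * (((j : ℕ) : ℝ) + 1) / 2 ^ (j : ℕ) =
        (3 * b * Real.log z) * ∑ j ∈ range (NJ z), ((j : ℝ) + 1) / 2 ^ j := by
      rw [Finset.sum_range (fun j => ((j : ℝ) + 1) / 2 ^ j), Finset.mul_sum]
      refine Finset.sum_congr rfl fun j _ => ?_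
      ring
    rw [h8]
    have h9 := mul_le_mul_of_nonneg_left (sum_geo_le (NJ z))
      (show (0 : ℝ) ≤ 3 * b * Real.log z by positivity)
    linarith
  have h10 := Real.exp_le_exp.mpr hlog
  rw [Real.exp_log hpos] at h10
  refine h10.trans (le_of_eq ?_)
  rw [Real.exp_nat_mul, Real.exp_log (by linarith)]

theorem card_pi_le (hP : ∀ r ∈ P, r.Prime ∧ r ≤ z) (hz : 2 ≤ z) (hb : 1 ≤ b) :
    ((Fintype.piFinset (fun j : Fin (NJ z) => fam z b P j)).card : ℝ) ≤ (z : ℝ) ^ (12 * b) := by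
  classical
  have h1 : (Fintype.piFinset (fun j : Fin (NJ z) => fam z b P j)).card ≤
      (Finset.Icc 1 (z ^ (12 * b))).card := by
    refine Finset.card_le_card_of_injOn (fun D => ∏ r ∈ un D, r) ?_ ?_
    · intro D hD
      rw [mem_coe] at hD
      rw [mem_coe, mem_Icc]
      refine ⟨Finset.prod_pos fun r hr => (hP r (un_sub D hD hr)).1.pos, ?_⟩
      have := prod_un_le hP hz hb D hD
      exact_mod_cast this
    · intro D hD D' hD' h
      rw [mem_coe] at hD hD'
      have hun : ∀ E : Fin (NJ z) → Finset ℕ, E ∈ Fintype.piFinset (fun j : Fin (NJ z) => fam z b P j) →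
          (∏ r ∈ un E, r).primeFactors = un E := fun E hE =>
        Nat.primeFactors_prod fun r hr => (hP r (un_sub E hE hr)).1
      have h2 : un D = un D' := by
        have h' : ∏ r ∈ un D, r = ∏ r ∈ un D', r := h
        rw [← hun D hD, ← hun D' hD', h']
      funext j
      have key : ∀ E : Fin (NJ z) → Finset ℕ, E ∈ Fintype.piFinset (fun j : Fin (NJ z) => fam z b P j) →
          E j = (un E).filter (fun r => lev z r = (j : ℕ)) := by
        intro E hE
        ext r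
        rw [mem_filter, un, mem_biUnion]
        constructor
        · intro hr
          exact ⟨⟨j, mem_univ _, hr⟩, (mem_filter.mp (mem_fam_sub (Fintype.mem_piFinset.mp hE j) hr)).2⟩
        · rintro ⟨⟨i, -, hi⟩, hr⟩
          have h3 := (mem_filter.mp (mem_fam_sub (Fintype.mem_piFinset.mp hE i) hi)).2
          have h4 : i = j := Fin.ext (h3.symm.trans hr)
          rwa [h4] at hi
      rw [key D hD, key D' hD', h2]
  rw [Nat.card_Icc, Nat.add_sub_cancel] at h1
  exact_mod_cast h1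

end

/-- expansion of a product over levels of short sums over subsets -/
theorem expand {z b : ℕ} {P : Finset ℕ} (hP : ∀ r ∈ P, r.Prime ∧ r ≤ z) (hz : 2 ≤ z) (hb : 1 ≤ b)
    (Ω : ℕ → Finset ℕ) (hΩ : ∀ r ∈ P, (Ω r).card ≤ 2 ∧ ∀ x ∈ Ω r, x < r)
    (c : Fin (NJ z) → Finset ℕ → ℝ) (hc : ∀ j d, |c j d| ≤ 1) (A L : ℕ) :
    |∑ n ∈ Ico A (A + L), ∏ j : Fin (NJ z), ∑ d ∈ fam z b P j,
        (c j d * if ∀ r ∈ d, n % r ∈ Ω r then 1 else 0) -
      L * ∏ j : Fin (NJ z), ∑ d ∈ fam z b P j, (c j d * ∏ r ∈ d, ((Ω r).card : ℝ) / r)| ≤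
      (z : ℝ) ^ (24 * b) := by
  classical
  have hprime : ∀ r ∈ P, r.Prime := fun r hr => (hP r hr).1
  simp_rw [Finset.prod_univ_sum]
  rw [Finset.sum_comm, Finset.mul_sum, ← Finset.sum_sub_distrib]
  refine (Finset.abs_sum_le_sum_abs _ _).trans ?_
  have h1 : ∀ D ∈ Fintype.piFinset (fun j : Fin (NJ z) => fam z b P j),
      |∑ n ∈ Ico A (A + L), ∏ j : Fin (NJ z), (c j (D j) * if ∀ r ∈ D j, n % r ∈ Ω r then 1 else 0) -
        L * ∏ j : Fin (NJ z), (c j (D j) * ∏ r ∈ D j, ((Ω r).card : ℝ) / r)| ≤ (z : ℝ) ^ (12 * b) := by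
    intro D hD
    have h2 : ∀ n, ∏ j : Fin (NJ z), (c j (D j) * if ∀ r ∈ D j, n % r ∈ Ω r then (1 : ℝ) else 0) =
        (∏ j : Fin (NJ z), c j (D j)) * if ∀ r ∈ un D, n % r ∈ Ω r then (1 : ℝ) else 0 := by
      intro n
      rw [Finset.prod_mul_distrib]
      congr 1
      by_cases h : ∀ r ∈ un D, n % r ∈ Ω r
      · rw [if_pos h]
        refine Finset.prod_eq_one fun j _ => ?_
        rw [if_pos]
        intro r hr
        exact h r (mem_biUnion.mpr ⟨j, mem_univ _, hr⟩)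
      · rw [if_neg h]
        push Not at h
        obtain ⟨r, hr, hr2⟩ := h
        obtain ⟨j, -, hj⟩ := mem_biUnion.mp hr
        refine Finset.prod_eq_zero (mem_univ j) ?_
        rw [if_neg]
        intro h3
        exact hr2 (h3 r hj)
    simp_rw [h2]
    rw [← Finset.mul_sum, Finset.prod_mul_distrib, ← prod_un D hD (fun r => ((Ω r).card : ℝ) / r)]
    have h3 : ∑ n ∈ Ico A (A + L), (if ∀ r ∈ un D, n % r ∈ Ω r then (1 : ℝ) else 0) =
        (((Ico A (A + L)).filter (fun n => ∀ r ∈ un D, n % r ∈ Ω r)).card : ℝ) := by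
      rw [Finset.card_filter]
      push_cast
      rfl
    rw [h3]
    have h4 := abs_card_sub_le (un D) (fun r hr => hprime r (un_sub D hD hr)) Ω
      (fun r hr => (hΩ r (un_sub D hD hr)).2) A L
    have h5 : |∏ j : Fin (NJ z), c j (D j)| ≤ 1 := by
      rw [Finset.abs_prod]
      exact Finset.prod_le_one (fun _ _ => abs_nonneg _) (fun j _ => hc j _)
    have h6 : ∏ r ∈ un D, ((Ω r).card : ℝ) ≤ (z : ℝ) ^ (12 * b) := by
      refine le_trans ?_ (prod_un_le hP hz hb D hD)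
      push_cast
      refine Finset.prod_le_prod (fun _ _ => by positivity) fun r hr => ?_
      have := (hΩ r (un_sub D hD hr)).1
      have h7 := (hprime r (un_sub D hD hr)).two_le
      exact_mod_cast this.trans h7
    calc |(∏ j : Fin (NJ z), c j (D j)) * (((Ico A (A + L)).filter (fun n => ∀ r ∈ un D, n % r ∈ Ω r)).card : ℝ) -
          L * ((∏ j : Fin (NJ z), c j (D j)) * ∏ r ∈ un D, ((Ω r).card : ℝ) / r)|
        = |∏ j : Fin (NJ z), c j (D j)| *
          |(((Ico A (A + L)).filter (fun n => ∀ r ∈ un D, n % r ∈ Ω r)).card : ℝ) -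
            L * ∏ r ∈ un D, ((Ω r).card : ℝ) / r| := by
          rw [← abs_mul]; congr 1; ring
      _ ≤ 1 * (z : ℝ) ^ (12 * b) :=
          mul_le_mul h5 (h4.trans h6) (abs_nonneg _) (by norm_num)
      _ = _ := one_mul _
  refine (Finset.sum_le_sum h1).trans ?_
  rw [Finset.sum_const, nsmul_eq_mul]
  calc ((Fintype.piFinset (fun j : Fin (NJ z) => fam z b P j)).card : ℝ) * (z : ℝ) ^ (12 * b)
      ≤ (z : ℝ) ^ (12 * b) * (z : ℝ) ^ (12 * b) :=
        mul_le_mul_of_nonneg_right (card_pi_le hP hz hb) (by positivity)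
    _ = (z : ℝ) ^ (24 * b) := by rw [← pow_add]; congr 1; ring

end Pool.Agent.Lib.GT
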