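import Pool.Agent.Lib.MP_7b7e48_nt.GT.Sampling

/-!
# The upper bound of the assembly, with an allowance for few non-adjacent pairs
-/

open Finset

namespace Pool.Agent.Lib.GT

open SimpleGraph

/-- the ordered pairs of distinct primes with sum `2 * n` which are not joined in `G` -/
def nonEdges (G : SimpleGraph Nat.Primes) (n : ℕ) : Set (Nat.Primes × Nat.Primes) :=
  {a | a.1 ≠ a.2 ∧ (a.1 : ℕ) + a.2 = 2 * n ∧ ¬ G.Adj a.1 a.2}

theorem nonEdges_finite (G : SimpleGraph Nat.Primes) (n : ℕ) : (nonEdges G n).Finite := by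
  set S : Finset Nat.Primes := (range (2 * n + 1)).subtype Nat.Prime with hS
  have h : (nonEdges G n) ⊆ ((S ×ˢ S : Finset (Nat.Primes × Nat.Primes)) :
      Set (Nat.Primes × Nat.Primes)) := by
    rintro ⟨p, q⟩ ⟨_, h2, _⟩
    simp only at h2
    rw [Finset.mem_coe, Finset.mem_product, hS]
    constructor
    · refine Finset.mem_subtype.mpr (Finset.mem_range.mpr ?_)
      show (p : ℕ) < 2 * n + 1
      omega
    · refine Finset.mem_subtype.mpr (Finset.mem_range.mpr ?_)
      show (q : ℕ) < 2 * n + 1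
      omega
  exact (Finset.finite_toSet _).subset h

/-- adjacency of natural numbers -/
def NAdj (G : SimpleGraph Nat.Primes) (x y : ℕ) : Prop :=
  ∃ (hx : x.Prime) (hy : y.Prime), G.Adj ⟨x, hx⟩ ⟨y, hy⟩

open Classical in
/-- The pairs `(x, 2n - x)`, `n ∈ E`, which are edges of `G`. -/
lemma adj_pairs_le (G : SimpleGraph Nat.Primes) (E : Finset ℕ)
    (f : ℕ → ℝ) (Y : ℕ) (hf0 : ∀ n, ¬ n.Prime → f n = 0) (hf1 : ∀ n, 0 ≤ f n)
    (hfY : ∀ n, Y < n → f n = 0) :
    ∑ n ∈ E, ∑ x ∈ (range (2 * n + 1)).filter (fun x => NAdj G x (2 * n - x)), f x * f (2 * n - x) ≤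
      ∑ p ∈ (range (Y + 1)).subtype Nat.Prime, ∑ q ∈ (range (Y + 1)).subtype Nat.Prime,
        (if G.Adj p q then f p * f q else 0) := by
  set A : ℕ → ℕ → Prop := fun x y => NAdj G x y with hA
  set P := (range (Y + 1)).filter Nat.Prime with hP
  have h1 : ∑ p ∈ (range (Y + 1)).subtype Nat.Prime, ∑ q ∈ (range (Y + 1)).subtype Nat.Prime,
        (if G.Adj p q then f p * f q else 0) =
      ∑ z ∈ (P ×ˢ P).filter (fun z => A z.1 z.2), f z.1 * f z.2 := by
    rw [Finset.sum_filter, Finset.sum_product]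
    rw [← Finset.sum_subtype_eq_sum_filter (f := fun x => ∑ y ∈ P,
      (if A x y then f x * f y else 0))]
    refine Finset.sum_congr rfl fun p _ => ?_
    rw [← Finset.sum_subtype_eq_sum_filter (f := fun y => (if A p y then f p * f y else 0))]
    refine Finset.sum_congr rfl fun q _ => ?_
    have : A p q ↔ G.Adj p q := by
      constructor
      · rintro ⟨_, _, h⟩
        exact h
      · intro h
        exact ⟨p.2, q.2, h⟩
    by_cases hpq : G.Adj p q
    · rw [if_pos hpq, if_pos (this.mpr hpq)]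
    · rw [if_neg hpq, if_neg (fun h => hpq (this.mp h))]
  rw [h1, Finset.sum_sigma', ← Finset.sum_filter_ne_zero]
  set T := (E.sigma fun n => (range (2 * n + 1)).filter (fun x => NAdj G x (2 * n - x))).filter
    (fun x => f x.2 * f (2 * x.1 - x.2) ≠ 0) with hT
  have hinj : Set.InjOn (fun x : (_ : ℕ) × ℕ => (x.2, 2 * x.1 - x.2)) (T : Set ((_ : ℕ) × ℕ)) := by
    rintro ⟨n, x⟩ hx ⟨m, y⟩ hy hxy
    rw [Finset.mem_coe, hT, Finset.mem_filter, Finset.mem_sigma, Finset.mem_filter,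
      Finset.mem_range] at hx hy
    simp only [Prod.mk.injEq] at hxy hx hy
    obtain ⟨h2, h3⟩ := hxy
    subst h2
    have : n = m := by omega
    subst this
    rfl
  have h2 : ∑ x ∈ T, f x.2 * f (2 * x.1 - x.2) =
      ∑ z ∈ T.image (fun x : (_ : ℕ) × ℕ => (x.2, 2 * x.1 - x.2)), f z.1 * f z.2 := by
    rw [Finset.sum_image hinj]
  rw [h2]
  refine Finset.sum_le_sum_of_subset_of_nonneg ?_ fun z _ _ => mul_nonneg (hf1 _) (hf1 _)
  intro z hz
  rw [Finset.mem_image] at hz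
  obtain ⟨⟨n, x⟩, hx, rfl⟩ := hz
  rw [hT, Finset.mem_filter, Finset.mem_sigma, Finset.mem_filter, Finset.mem_range] at hx
  simp only at hx ⊢
  obtain ⟨⟨hn, hx2, hxA⟩, hne⟩ := hx
  have hx0 : f x ≠ 0 := left_ne_zero_of_mul hne
  have hy0 : f (2 * n - x) ≠ 0 := right_ne_zero_of_mul hne
  have hxp : x.Prime := by
    by_contra h
    exact hx0 (hf0 _ h)
  have hyp : (2 * n - x).Prime := by
    by_contra h
    exact hy0 (hf0 _ h)
  have hxY : x ≤ Y := by
    by_contra h
    exact hx0 (hfY _ (by omega))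
  have hyY : 2 * n - x ≤ Y := by
    by_contra h
    exact hy0 (hfY _ (by omega))
  rw [Finset.mem_filter, Finset.mem_product, hP, Finset.mem_filter, Finset.mem_filter,
    Finset.mem_range, Finset.mem_range]
  exact ⟨⟨⟨by omega, hxp⟩, by simp only; omega, hyp⟩, hxA⟩

open Classical in
/-- the non-adjacent pairs, for one `n` -/
lemma nonadj_pairs_le (G : SimpleGraph Nat.Primes) (n : ℕ)
    (f : ℕ → ℝ) {B : ℝ} (hf0 : ∀ n, ¬ n.Prime → f n = 0) (hf1 : ∀ n, 0 ≤ f n)
    (hfB : ∀ n, f n ≤ B) :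
    ∑ x ∈ range (2 * n + 1), f x * f (2 * n - x) ≤
      ∑ x ∈ (range (2 * n + 1)).filter (fun x => NAdj G x (2 * n - x)), f x * f (2 * n - x) +
        (B ^ 2 + B ^ 2 * (nonEdges G n).ncard) := by
  have hB : 0 ≤ B := (hf1 0).trans (hfB 0)
  have hle : ∀ x, f x * f (2 * n - x) ≤ B ^ 2 := by
    intro x
    rw [sq]
    exact mul_le_mul (hfB _) (hfB _) (hf1 _) hB
  rw [← Finset.sum_filter_add_sum_filter_not (range (2 * n + 1)) (fun x => NAdj G x (2 * n - x))]
  refine add_le_add le_rfl ?_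
  set U := (range (2 * n + 1)).filter (fun x => ¬ NAdj G x (2 * n - x)) with hU
  have h1 : ∑ x ∈ U, f x * f (2 * n - x) = ∑ x ∈ U.filter (fun x => f x * f (2 * n - x) ≠ 0),
      f x * f (2 * n - x) := (Finset.sum_filter_ne_zero _).symm
  rw [h1]
  set U' := U.filter (fun x => f x * f (2 * n - x) ≠ 0) with hU'
  have h2 : ∑ x ∈ U', f x * f (2 * n - x) ≤ U'.card * B ^ 2 := by
    rw [← nsmul_eq_mul, ← Finset.sum_const]
    exact Finset.sum_le_sum fun x _ => hle x
  have h3 : U'.card ≤ 1 + (nonEdges G n).ncard := by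
    have hprime : ∀ x ∈ U', x.Prime ∧ (2 * n - x).Prime ∧ x ≤ 2 * n ∧ ¬ NAdj G x (2 * n - x) := by
      intro x hx
      rw [hU', Finset.mem_filter, hU, Finset.mem_filter, Finset.mem_range] at hx
      obtain ⟨⟨hx2, hxA⟩, hne⟩ := hx
      refine ⟨?_, ?_, by omega, hxA⟩
      · by_contra h
        exact left_ne_zero_of_mul hne (hf0 _ h)
      · by_contra h
        exact right_ne_zero_of_mul hne (hf0 _ h)
    have h4 : (U'.erase n).card ≤ (nonEdges G n).ncard := by
      rw [← Set.ncard_coe_finset]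
      set φ : ℕ → Nat.Primes × Nat.Primes := fun x =>
        if h : x.Prime ∧ (2 * n - x).Prime then ((⟨x, h.1⟩ : Nat.Primes), (⟨2 * n - x, h.2⟩ : Nat.Primes))
        else ((⟨2, Nat.prime_two⟩ : Nat.Primes), (⟨2, Nat.prime_two⟩ : Nat.Primes)) with hφ
      have hφ1 : ∀ x (hp : x.Prime) (hq : (2 * n - x).Prime),
          φ x = ((⟨x, hp⟩ : Nat.Primes), (⟨2 * n - x, hq⟩ : Nat.Primes)) := by
        intro x hp hq
        rw [hφ]
        exact dif_pos ⟨hp, hq⟩
      refine Set.ncard_le_ncard_of_injOn φ ?_ ?_ (nonEdges_finite G n)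
      · intro x hx
        rw [Finset.mem_coe, Finset.mem_erase] at hx
        obtain ⟨hxn, hx⟩ := hx
        obtain ⟨hp, hq, hx2, hA⟩ := hprime x hx
        rw [hφ1 x hp hq]
        refine ⟨?_, ?_, ?_⟩
        · intro h
          have h' : x = 2 * n - x := congrArg Subtype.val h
          omega
        · show x + (2 * n - x) = 2 * n
          omega
        · intro h
          exact hA ⟨hp, hq, h⟩
      · intro x hx y hy hxy
        rw [Finset.mem_coe, Finset.mem_erase] at hx hy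
        obtain ⟨hp, hq, _, _⟩ := hprime x hx.2
        obtain ⟨hp', hq', _, _⟩ := hprime y hy.2
        rw [hφ1 x hp hq, hφ1 y hp' hq'] at hxy
        exact congrArg (fun z : Nat.Primes × Nat.Primes => (z.1 : ℕ)) hxy
    have h5 : U'.card ≤ (U'.erase n).card + 1 := by
      have := Finset.pred_card_le_card_erase (s := U') (a := n)
      omega
    omega
  have h3' : (U'.card : ℝ) ≤ 1 + (nonEdges G n).ncard := by exact_mod_cast h3
  calc ∑ x ∈ U', f x * f (2 * n - x) ≤ U'.card * B ^ 2 := h2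
    _ ≤ (1 + (nonEdges G n).ncard) * B ^ 2 := mul_le_mul_of_nonneg_right h3' (sq_nonneg _)
    _ = _ := by ring

/-- Upper bound of the assembly, robust form. -/
theorem upper_bound_robust {W : Type*} (H : SimpleGraph W) (ε : ℝ) (hε : 0 < ε) :
    ∃ C : ℝ, 0 < C ∧ ∀ G : SimpleGraph Nat.Primes, H.Free G → ∀ E : Finset ℕ,
      ∀ (f : ℕ → ℝ) (B : ℝ) (Y : ℕ), (∀ n, ¬ n.Prime → f n = 0) → (∀ n, 0 ≤ f n) →
        (∀ n, f n ≤ B) → (∀ n, Y < n → f n = 0) →
      ∑ n ∈ E, ∑ x ∈ range (2 * n + 1), f x * f (2 * n - x) ≤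
        (turanDensity H + ε) * (∑ x ∈ range (Y + 1), f x) ^ 2 +
          C * B * (∑ x ∈ range (Y + 1), f x) + ∑ n ∈ E, (B ^ 2 + B ^ 2 * (nonEdges G n).ncard) := by
  classical
  obtain ⟨C, hC, hS⟩ := sampling_const H ε hε
  refine ⟨C, hC, ?_⟩
  intro G hG E f B Y hf0 hf1 hfB hfY
  have h1 := adj_pairs_le G E f Y hf0 hf1 hfY
  set S : Finset Nat.Primes := (range (Y + 1)).subtype Nat.Prime with hSdef
  have h2 := hS G hG S (fun p : Nat.Primes => f (p : ℕ)) (fun v _ => hf1 _) B (fun v _ => hfB _)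
  have h3 : ∑ p ∈ S, f (p : ℕ) = ∑ x ∈ range (Y + 1), f x := by
    rw [hSdef]
    refine (Finset.sum_subtype_eq_sum_filter (f := f)).trans ?_
    rw [Finset.sum_filter]
    refine Finset.sum_congr rfl fun x _ => ?_
    split_ifs with h
    · rfl
    · exact (hf0 x h).symm
  rw [h3] at h2
  calc ∑ n ∈ E, ∑ x ∈ range (2 * n + 1), f x * f (2 * n - x)
      ≤ ∑ n ∈ E, (∑ x ∈ (range (2 * n + 1)).filter (fun x => NAdj G x (2 * n - x)),
          f x * f (2 * n - x) + (B ^ 2 + B ^ 2 * (nonEdges G n).ncard)) :=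
        Finset.sum_le_sum fun n _ => nonadj_pairs_le G n f hf0 hf1 hfB
    _ = _ := Finset.sum_add_distrib
    _ ≤ _ := add_le_add (h1.trans h2) le_rfl

end Pool.Agent.Lib.GT
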