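import Pool.Agent.Lib.MP_7b7e48_nt.GT.FinalUpper
import Pool.Agent.Lib.MP_7b7e48_nt.GT.Transfer
import Pool.Agent.Lib.MP_7b7e48_nt.GT.Upper2

/-!
# Goldbach-Turan: the upper bound, robust form (few non-adjacent pairs allowed)
-/

open Finset

namespace Pool.Agent.Lib.GT

/-- one window and one colour: the upper bound -/
theorem key_window_robust {W : Type*} {H : SimpleGraph W} {θ C : ℝ} (hC : 0 < C) (hπθ : 0 ≤ H.turanDensity + θ)
    {G : SimpleGraph Nat.Primes}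
    (hup : ∀ E : Finset ℕ, ∀ (f : ℕ → ℝ) (B : ℝ) (Y : ℕ),
      (∀ n, ¬ n.Prime → f n = 0) → (∀ n, 0 ≤ f n) → (∀ n, f n ≤ B) → (∀ n, Y < n → f n = 0) →
      ∑ n ∈ E, ∑ x ∈ range (2 * n + 1), f x * f (2 * n - x) ≤
        (H.turanDensity + θ) * (∑ x ∈ range (Y + 1), f x) ^ 2 +
          C * B * (∑ x ∈ range (Y + 1), f x) + ∑ n ∈ E, (B ^ 2 + B ^ 2 * (nonEdges G n).ncard))
    {w₀ w : ℕ} (hww0 : w₀ ≤ w) {c : ↥(LA.opr w₀) → ℕ} (hc : c ∈ LA.Cs w₀) {Y t h : ℕ} (hle : t + h ≤ Y)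
    {ε₂ : ℝ}
    (hw1 : ∑ n ∈ range (2 * Y + 1), |∑ x ∈ range (n + 1),
        (win t h (fun n => LA.om w₀ c n * lam n) x * win t h (fun n => LA.om w₀ c n * lam n) (n - x) -
         win t h (fun n => LA.om w₀ c n * Lw w n) x * win t h (fun n => LA.om w₀ c n * Lw w n) (n - x))|
          ≤ ε₂ * Y ^ 2)
    (hw2 : |∑ n ∈ Ioc t (t + h), LA.om w₀ c n * (lam n - Lw w n)| ≤ ε₂ * Y)
    {E' : Finset ℕ} (hE1 : ∀ n ∈ E', n ≤ Y)
    {B : ℝ} (hB : B = 2 ^ (LA.opr w₀).card * Real.log Y) {D : ℝ} (hD : D = h + LA.Wp w + ε₂ * Y)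
    {Z : ℝ} (hZ : ∑ n ∈ E', (B ^ 2 + B ^ 2 * (nonEdges G n).ncard) ≤ Z) :
    ∑ n ∈ E', ∑ x ∈ range (2 * n + 1),
      win t h (fun x => LA.om w₀ c x * Lw w x) x *
      win t h (fun x => LA.om w₀ c x * Lw w x) (2 * n - x) ≤
      (H.turanDensity + θ) * D ^ 2 + (C * B * D + Z + ε₂ * Y ^ 2) := by
  have hBpos : 0 ≤ B := by
    rw [hB]
    exact mul_nonneg (by positivity) (Real.log_natCast_nonneg _)
  set f := win t h (fun n => LA.om w₀ c n * lam n) with hf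
  set F := win t h (fun n => LA.om w₀ c n * Lw w n) with hF
  have hf0 : ∀ n, 0 ≤ f n := by
    intro n
    rw [hf]; unfold win
    split_ifs
    · exact mul_nonneg (LA.om_nonneg _ _ _) (lam_nonneg n)
    · exact le_rfl
  have hfB : ∀ n, f n ≤ B := by
    intro n
    rw [hf]; unfold win
    split_ifs with h
    · rw [hB]
      refine mul_le_mul (LA.om_le _ _ _) ((lam_le_log n).trans ?_) (lam_nonneg n) (by positivity)
      exact Real.log_le_log (by exact_mod_cast (by omega : 0 < n)) (by exact_mod_cast (by omega : n ≤ Y))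
    · exact hBpos
  have hfp : ∀ n, ¬ n.Prime → f n = 0 := by
    intro n hn
    rw [hf]; unfold win lam
    simp [hn]
  have hfY : ∀ n, Y < n → f n = 0 := by
    intro n hn
    rw [hf]; unfold win
    rw [if_neg (by omega)]
  have hup' := hup E' f B Y hfp hf0 hfB hfY
  set T := ∑ x ∈ range (Y + 1), f x with hT
  have hT0 : 0 ≤ T := Finset.sum_nonneg fun x _ => hf0 x
  have hTD : T ≤ D := by
    have h1 : T = ∑ x ∈ Ioc t (t + h), LA.om w₀ c x * lam x := by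
      have hsub : Ioc t (t + h) ⊆ range (Y + 1) := by
        intro n hn
        rw [mem_Ioc] at hn
        rw [mem_range]; omega
      rw [hT, ← Finset.sum_subset hsub]
      · refine Finset.sum_congr rfl fun n hn => ?_
        rw [mem_Ioc] at hn
        rw [hf]; unfold win
        rw [if_pos hn]
      · intro n _ hn
        rw [mem_Ioc] at hn
        rw [hf]; unfold win
        rw [if_neg hn]
    have h2 : ∑ x ∈ Ioc t (t + h), LA.om w₀ c x * lam x =
        ∑ x ∈ Ioc t (t + h), LA.om w₀ c x * Lw w x +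
        ∑ x ∈ Ioc t (t + h), LA.om w₀ c x * (lam x - Lw w x) := by
      rw [← Finset.sum_add_distrib]
      refine Finset.sum_congr rfl fun n _ => ?_
      ring
    have h3 := LA.mean_interval hww0 hc (A := t + 1) (B := t + h + 1) (by omega)
    have h4 : Finset.Ico (t + 1) (t + h + 1) = Ioc t (t + h) := by
      ext n
      rw [mem_Ico, mem_Ioc]; omega
    rw [h4] at h3
    have h5 := (abs_le.mp h3).2
    have h6 := (abs_le.mp hw2).2
    push_cast at h5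
    rw [h1, h2, hD]
    linarith
  have hconv : ∑ n ∈ E', ∑ x ∈ range (2 * n + 1), F x * F (2 * n - x) ≤
      ∑ n ∈ E', ∑ x ∈ range (2 * n + 1), f x * f (2 * n - x) + ε₂ * Y ^ 2 := by
    have h1 : ∀ n ∈ E', ∑ x ∈ range (2 * n + 1), F x * F (2 * n - x) ≤
        ∑ x ∈ range (2 * n + 1), f x * f (2 * n - x) +
        |∑ x ∈ range (2 * n + 1), (f x * f (2 * n - x) - F x * F (2 * n - x))| := by
      intro n _
      have := neg_abs_le (∑ x ∈ range (2 * n + 1), (f x * f (2 * n - x) - F x * F (2 * n - x)))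
      rw [Finset.sum_sub_distrib] at this ⊢
      linarith
    refine (Finset.sum_le_sum h1).trans ?_
    rw [Finset.sum_add_distrib]
    refine add_le_add le_rfl (le_trans ?_ hw1)
    have h2 : ∑ n ∈ E', |∑ x ∈ range (2 * n + 1), (f x * f (2 * n - x) - F x * F (2 * n - x))| =
        ∑ k ∈ E'.image (fun n => 2 * n), |∑ x ∈ range (k + 1), (f x * f (k - x) - F x * F (k - x))| := by
      rw [Finset.sum_image]
      intro a _ b _ hab
      simp only at hab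
      omega
    rw [h2]
    refine Finset.sum_le_sum_of_subset_of_nonneg ?_ (fun k _ _ => abs_nonneg _)
    intro k hk
    rw [Finset.mem_image] at hk
    obtain ⟨n, hn, rfl⟩ := hk
    rw [mem_range]
    have := hE1 n hn
    omega
  refine hconv.trans ?_
  have h1 : (H.turanDensity + θ) * T ^ 2 ≤ (H.turanDensity + θ) * D ^ 2 :=
    mul_le_mul_of_nonneg_left (pow_le_pow_left₀ hT0 hTD 2) hπθ
  have h2 : C * B * T ≤ C * B * D := mul_le_mul_of_nonneg_left hTD (mul_nonneg hC.le hBpos)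
  linarith

/-- the final arithmetic -/
theorem arith_fin_robust {X θ π m M s Wr ε₂ Y C B0 L B D δ : ℝ} (hθ0 : 0 < θ) (hθ1 : θ ≤ 1 / 10)
    (hπ0 : 0 ≤ π) (hm40 : 40 ≤ m) (hMθ : 2 * m ≤ θ * M) (hMm : m ≤ M) (hs0 : 0 < s)
    (hX1 : 1 ≤ X) (hsr1 : s * M ≤ X) (hsr4 : X ≤ 2 * M * s) (hWr : 0 ≤ Wr) (hsW : 8 * M * Wr ≤ θ * s)
    (hε₂ : ε₂ = θ / (72 * M ^ 2)) (hY : Y = 3 * X) (hC : 0 < C) (hB0 : 1 ≤ B0) (hL1 : 1 ≤ L)
    (hlog : L ^ 2 ≤ θ * m ^ 2 / (16 * M ^ 2 * (2 * C * B0 + B0 ^ 2)) * X)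
    (hδ : δ = θ * m ^ 2 / (64 * M ^ 2 * B0 ^ 2))
    (hB : B = B0 * L) (hD : D = m * s + Wr + ε₂ * Y) :
    (π + θ) * D ^ 2 + (C * B * D + (X * B ^ 2 + 4 * B0 ^ 2 * δ * X ^ 2) + ε₂ * Y ^ 2) ≤
      ((π + θ) * (1 + θ) + θ) * (m ^ 2 * s ^ 2) := by
  have hM0 : 0 < M := by linarith
  have hm0 : 0 < m := by linarith
  have hX0 : 0 < X := by linarith
  have hB0p : 0 < B0 := by linarith
  have hLp : 0 < L := by linarith
  have hBpos : 0 < B := by rw [hB]; exact mul_pos hB0p hLp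
  have hε₂0 : 0 < ε₂ := by rw [hε₂]; positivity
  have hYp : 0 < Y := by linarith
  have hDpos : 0 ≤ D := by rw [hD]; positivity
  have hms : m * s ≤ θ / 2 * X := by
    have h1 : m * s * M ≤ m * X := by
      calc m * s * M = m * (s * M) := by ring
        _ ≤ m * X := mul_le_mul_of_nonneg_left hsr1 (by linarith)
    have h2 : m * X ≤ (θ / 2 * X) * M := by
      calc m * X ≤ (θ * M / 2) * X := mul_le_mul_of_nonneg_right (by linarith) (by linarith)
        _ = _ := by ring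
    exact le_of_mul_le_mul_right (h1.trans h2) hM0
  have hD1 : D ≤ (1 + θ / 4) * (m * s) := by
    have h1 : Wr ≤ θ / 8 * (m * s) := by
      have h2 : 8 * 1 * Wr ≤ 8 * M * Wr := by
        apply mul_le_mul_of_nonneg_right _ hWr
        linarith
      have h3 : θ * s * 1 ≤ θ * s * m := mul_le_mul_of_nonneg_left (by linarith) (by positivity)
      linarith
    have h3 : ε₂ * Y ≤ θ / 8 * (m * s) := by
      rw [hε₂, hY, div_mul_eq_mul_div, div_le_iff₀ (by positivity)]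
      have h4 : θ * (3 * X) ≤ θ * (3 * (2 * M * s)) := by gcongr
      refine h4.trans ?_
      have h5 : θ / 8 * (m * s) * (72 * M ^ 2) = θ * (3 * (2 * M * s)) * (3 / 2 * (m * M)) := by ring
      rw [h5]
      refine le_mul_of_one_le_right (by positivity) ?_
      have : 40 * 40 ≤ m * M := mul_le_mul hm40 (by linarith) (by norm_num) (by linarith)
      linarith
    rw [hD]
    linarith
  have hDX : D ≤ 2 * X := by
    have h1 : (1 + θ / 4) * (m * s) ≤ 2 * (m * s) :=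
      mul_le_mul_of_nonneg_right (by linarith) (by positivity)
    have h2 : θ / 2 * X ≤ 1 * X := mul_le_mul_of_nonneg_right (by linarith) hX0.le
    linarith
  have hD2 : D ^ 2 ≤ (1 + θ) * (m ^ 2 * s ^ 2) := by
    have h1 := pow_le_pow_left₀ hDpos hD1 2
    refine h1.trans ?_
    rw [mul_pow, mul_pow]
    apply mul_le_mul_of_nonneg_right _ (by positivity)
    nlinarith
  have hrest1 : C * B * D + X * B ^ 2 ≤ θ / 4 * (m ^ 2 * s ^ 2) := by
    have h1 : C * B * D ≤ C * B * (2 * X) := mul_le_mul_of_nonneg_left hDX (by positivity)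
    have h2 : C * B * (2 * X) ≤ 2 * C * B0 * L ^ 2 * X := by
      rw [hB]
      have : L ≤ L ^ 2 := by nlinarith
      calc C * (B0 * L) * (2 * X) = 2 * C * B0 * X * L := by ring
        _ ≤ 2 * C * B0 * X * L ^ 2 := mul_le_mul_of_nonneg_left this (by positivity)
        _ = _ := by ring
    have h3 : C * B * D + X * B ^ 2 ≤ (2 * C * B0 + B0 ^ 2) * L ^ 2 * X := by
      calc C * B * D + X * B ^ 2 ≤ 2 * C * B0 * L ^ 2 * X + X * B ^ 2 := by linarith
        _ = _ := by rw [hB]; ring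
    refine h3.trans ?_
    have h4 : (2 * C * B0 + B0 ^ 2) * L ^ 2 * X ≤
        (2 * C * B0 + B0 ^ 2) * (θ * m ^ 2 / (16 * M ^ 2 * (2 * C * B0 + B0 ^ 2)) * X) * X :=
      mul_le_mul_of_nonneg_right (mul_le_mul_of_nonneg_left hlog (by positivity)) hX0.le
    refine h4.trans ?_
    have h5 : (2 * C * B0 + B0 ^ 2) * (θ * m ^ 2 / (16 * M ^ 2 * (2 * C * B0 + B0 ^ 2)) * X) * X =
        θ * m ^ 2 * X ^ 2 / (16 * M ^ 2) := by
      field_simp
    rw [h5, div_le_iff₀ (by positivity)]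
    have h6 : X ^ 2 ≤ (2 * M * s) ^ 2 := pow_le_pow_left₀ (by linarith) hsr4 2
    calc θ * m ^ 2 * X ^ 2 ≤ θ * m ^ 2 * (2 * M * s) ^ 2 :=
          mul_le_mul_of_nonneg_left h6 (by positivity)
      _ = _ := by ring
  have hrest3 : 4 * B0 ^ 2 * δ * X ^ 2 ≤ θ / 4 * (m ^ 2 * s ^ 2) := by
    have h5 : 4 * B0 ^ 2 * δ * X ^ 2 = θ * m ^ 2 * X ^ 2 / (16 * M ^ 2) := by
      rw [hδ]
      field_simp
      ring
    rw [h5, div_le_iff₀ (by positivity)]
    have h6 : X ^ 2 ≤ (2 * M * s) ^ 2 := pow_le_pow_left₀ (by linarith) hsr4 2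
    calc θ * m ^ 2 * X ^ 2 ≤ θ * m ^ 2 * (2 * M * s) ^ 2 :=
          mul_le_mul_of_nonneg_left h6 (by positivity)
      _ = _ := by ring
  have hrest2 : ε₂ * Y ^ 2 ≤ θ / 2 * (m ^ 2 * s ^ 2) := by
    rw [hε₂, hY, div_mul_eq_mul_div, div_le_iff₀ (by positivity)]
    have h6 : X ^ 2 ≤ (2 * M * s) ^ 2 := pow_le_pow_left₀ (by linarith) hsr4 2
    calc θ * (3 * X) ^ 2 = 9 * θ * X ^ 2 := by ring
      _ ≤ 9 * θ * (2 * M * s) ^ 2 := mul_le_mul_of_nonneg_left h6 (by positivity)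
      _ = (θ / 2 * s ^ 2 * (72 * M ^ 2)) * 1 := by ring
      _ ≤ (θ / 2 * s ^ 2 * (72 * M ^ 2)) * m ^ 2 :=
        mul_le_mul_of_nonneg_left (one_le_pow₀ (by linarith)) (by positivity)
      _ = _ := by ring
  have h1 : (π + θ) * D ^ 2 ≤ (π + θ) * ((1 + θ) * (m ^ 2 * s ^ 2)) :=
    mul_le_mul_of_nonneg_left hD2 (by linarith)
  calc _ ≤ (π + θ) * ((1 + θ) * (m ^ 2 * s ^ 2)) + (θ / 2 * (m ^ 2 * s ^ 2) + θ / 2 * (m ^ 2 * s ^ 2)) := by
        linarith
    _ = _ := by ring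

/-- **Goldbach-Turán, upper bound.** -/
theorem main_upper_robust {W : Type*} (H : SimpleGraph W) (ε : ℝ) (hε : 0 < ε) :
    ∃ δ : ℝ, 0 < δ ∧ ∃ X₀ : ℕ, ∀ X : ℕ, X₀ ≤ X → ∀ G : SimpleGraph Nat.Primes, H.Free G →
      ∀ E : Finset ℕ, (∀ n ∈ E, 1 ≤ n ∧ n ≤ X) →
      (∀ n ∈ E, ((nonEdges G n).ncard : ℝ) ≤ δ * X / Real.log X ^ 2) →
      (E.card : ℝ) ≤ (H.turanDensity + ε) * X := by
  -- parameters
  obtain ⟨θ, hθ⟩ : ∃ θ : ℝ, θ = min (ε / 9) (1 / 10) := ⟨_, rfl⟩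
  have hθ0 : 0 < θ := by rw [hθ]; positivity
  have hθ1 : θ ≤ 1 / 10 := by rw [hθ]; exact min_le_right _ _
  have hθε : 9 * θ ≤ ε := by
    have : θ ≤ ε / 9 := by rw [hθ]; exact min_le_left _ _
    linarith
  have hπ0 := turanDensity_nonneg H
  have hπ1 := turanDensity_le_one H
  set π := H.turanDensity with hπ
  obtain ⟨w₀, hw₀⟩ := exists_nat_ge (1 / θ)
  have hw₀10 : (10 : ℝ) ≤ w₀ := by
    refine le_trans ?_ hw₀
    rw [le_div_iff₀ hθ0]; linarith
  have hw₀2 : 2 ≤ w₀ := by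
    have : (10 : ℕ) ≤ w₀ := by exact_mod_cast hw₀10
    omega
  have hu : 1 / (w₀ : ℝ) ≤ θ := by
    rw [div_le_iff₀ (by linarith)]
    rw [div_le_iff₀ hθ0] at hw₀
    linarith
  obtain ⟨m, hm⟩ := exists_nat_ge (4 / θ)
  have hmθ : 4 ≤ θ * m := by
    rw [div_le_iff₀ hθ0] at hm
    linarith
  have hm40 : (40 : ℝ) ≤ m := by nlinarith
  have hm4 : 4 ≤ m := by
    have : (40 : ℕ) ≤ m := by exact_mod_cast hm40
    omega
  obtain ⟨M, hM⟩ := exists_nat_ge (2 * m / θ)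
  have hMθ : 2 * (m : ℝ) ≤ θ * M := by
    rw [div_le_iff₀ hθ0] at hM
    linarith
  have hMm : (m : ℝ) ≤ M := by nlinarith
  have hMmN : m ≤ M := by exact_mod_cast hMm
  have hM0 : (0 : ℝ) < M := by linarith
  obtain ⟨C, hC, hup⟩ := upper_bound_robust H θ hθ0
  -- the L¹ precision
  obtain ⟨ε₂, hε₂⟩ : ∃ ε₂ : ℝ, ε₂ = θ / (72 * M ^ 2) := ⟨_, rfl⟩
  have hε₂0 : 0 < ε₂ := by rw [hε₂]; positivity
  set B0 : ℝ := 2 ^ (LA.opr w₀).card with hB0
  have hB01 : 1 ≤ B0 := one_le_pow₀ (by norm_num)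
  have hB0p : 0 < B0 := by linarith
  have hwin := fun c : (↥(LA.opr w₀) → ℕ) => window_l1_of transfer (LA.om w₀ c) (LA.Wp w₀) (LA.Wp_pos w₀)
    (fun n => LA.om_periodic le_rfl c n) B0 hB01 (fun n => by
      rw [abs_of_nonneg (LA.om_nonneg w₀ c n)]
      exact LA.om_le w₀ c n) ε₂ hε₂0
  choose w₁ hw₁ using hwin
  obtain ⟨w, hw⟩ : ∃ w : ℕ, w = max w₀ ((LA.Cs w₀).sup w₁) := ⟨_, rfl⟩
  have hww0 : w₀ ≤ w := by rw [hw]; exact le_max_left _ _
  have hww1 : ∀ c ∈ LA.Cs w₀, w₁ c ≤ w := fun c hc => by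
    rw [hw]; exact le_trans (Finset.le_sup hc) (le_max_right _ _)
  have hY : ∀ c : (↥(LA.opr w₀) → ℕ), ∃ Y₀ : ℕ, c ∈ LA.Cs w₀ → ∀ Y : ℕ, Y₀ ≤ Y → ∀ t h : ℕ, t + h ≤ Y →
      ∑ n ∈ range (2 * Y + 1), |∑ x ∈ range (n + 1),
        (win t h (fun n => LA.om w₀ c n * lam n) x * win t h (fun n => LA.om w₀ c n * lam n) (n - x) -
         win t h (fun n => LA.om w₀ c n * Lw w n) x * win t h (fun n => LA.om w₀ c n * Lw w n) (n - x))|
          ≤ ε₂ * Y ^ 2 ∧
      |∑ n ∈ Ioc t (t + h), LA.om w₀ c n * (lam n - Lw w n)| ≤ ε₂ * Y := by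
    intro c
    by_cases hc : c ∈ LA.Cs w₀
    · obtain ⟨Y₀, h⟩ := hw₁ c w (hww1 c hc)
      exact ⟨Y₀, fun _ => h⟩
    · exact ⟨0, fun h => absurd h hc⟩
  choose Y₀ hY₀ using hY
  -- thresholds
  obtain ⟨X₁, hX₁1, hX₁⟩ := log_sq_le (c := θ * m ^ 2 / (16 * M ^ 2 * (2 * C * B0 + B0 ^ 2))) (by positivity)
  obtain ⟨X₂, hX₂⟩ := exists_nat_ge (16 * (M : ℝ) ^ 2 * LA.Wp w / θ)
  obtain ⟨δ, hδ⟩ : ∃ δ : ℝ, δ = θ * m ^ 2 / (64 * M ^ 2 * B0 ^ 2) := ⟨_, rfl⟩
  refine ⟨δ, by rw [hδ]; positivity, max (max X₁ X₂) (max ((LA.Cs w₀).sup Y₀) (M * (M + 1))), ?_⟩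
  intro X hX G hG E hE1 hE2
  have hXX1 : X₁ ≤ X := le_trans (le_trans (le_max_left _ _) (le_max_left _ _)) hX
  have hXX2 : X₂ ≤ X := le_trans (le_trans (le_max_right _ _) (le_max_left _ _)) hX
  have hXX3 : (LA.Cs w₀).sup Y₀ ≤ X := le_trans (le_trans (le_max_left _ _) (le_max_right _ _)) hX
  have hXX4 : M * (M + 1) ≤ X := le_trans (le_trans (le_max_right _ _) (le_max_right _ _)) hX
  have hlog := hX₁ X hXX1
  set L := Real.log ((3 * X : ℕ) : ℝ) with hL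
  have hMN : 1 ≤ M := by omega
  have hM1 : (1 : ℝ) ≤ M := by exact_mod_cast hMN
  obtain ⟨s, hs⟩ : ∃ s : ℕ, s = X / M := ⟨_, rfl⟩
  have hs1 : s * M ≤ X := by rw [hs]; exact Nat.div_mul_le_self _ _
  have hs2 : X < (s + 1) * M := by rw [hs]; exact LA.lt_div_add_one_mul (by omega)
  have hs3 : M + 1 ≤ s := by
    rw [hs, Nat.le_div_iff_mul_le (by omega)]
    rwa [mul_comm] at hXX4
  have hs4 : X ≤ 2 * M * s := by nlinarith
  have hX1 : 1 ≤ X := le_trans hX₁1 hXX1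
  have hX1r : (1 : ℝ) ≤ X := by exact_mod_cast hX1
  have hsr1 : (s : ℝ) * M ≤ X := by exact_mod_cast hs1
  have hsr4 : (X : ℝ) ≤ 2 * M * s := by exact_mod_cast hs4
  have hsr0 : (0 : ℝ) < s := by exact_mod_cast (by omega : 0 < s)
  have hWr : (0 : ℝ) ≤ LA.Wp w := Nat.cast_nonneg _
  have hsW : 8 * M * (LA.Wp w : ℝ) ≤ θ * s := by
    have h1 : 16 * (M : ℝ) ^ 2 * LA.Wp w / θ ≤ X := hX₂.trans (by exact_mod_cast hXX2)
    rw [div_le_iff₀ hθ0] at h1
    have h2 : 16 * (M : ℝ) ^ 2 * LA.Wp w ≤ 2 * M * (θ * s) := by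
      calc 16 * (M : ℝ) ^ 2 * LA.Wp w ≤ X * θ := h1
        _ ≤ (2 * M * s) * θ := mul_le_mul_of_nonneg_right hsr4 hθ0.le
        _ = 2 * M * (θ * s) := by ring
    have h3 : 2 * (M : ℝ) * (8 * M * (LA.Wp w : ℝ)) ≤ 2 * M * (θ * s) := by linarith
    exact le_of_mul_le_mul_left h3 (by positivity)
  -- the exceptional set without small elements
  set E' := E.filter (fun n => m * s + 1 ≤ n) with hE'
  have hcard : (E.card : ℝ) ≤ E'.card + m * s := by
    have h1 : E ⊆ E' ∪ Finset.Icc 1 (m * s) := by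
      intro n hn
      rw [Finset.mem_union, hE', Finset.mem_filter, Finset.mem_Icc]
      by_cases h : m * s + 1 ≤ n
      · exact Or.inl ⟨hn, h⟩
      · exact Or.inr ⟨(hE1 n hn).1, by omega⟩
    have h2 := (Finset.card_le_card h1).trans (Finset.card_union_le _ _)
    rw [Nat.card_Icc] at h2
    have h3 : E.card ≤ E'.card + m * s := by omega
    exact_mod_cast h3
  have hE'X : (E'.card : ℝ) ≤ X := by
    have h1 : E' ⊆ Finset.Icc 1 X := by
      intro n hn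
      rw [hE', Finset.mem_filter] at hn
      rw [Finset.mem_Icc]
      exact hE1 n hn.1
    have h2 := Finset.card_le_card h1
    rw [Nat.card_Icc] at h2
    exact_mod_cast h2
  -- notation
  obtain ⟨Y, hYdef⟩ : ∃ Y : ℕ, Y = 3 * X := ⟨_, rfl⟩
  have hYr : (Y : ℝ) = 3 * X := by rw [hYdef]; push_cast; ring
  rw [← hYdef] at hL
  have hL1 : 1 ≤ L := by
    rw [hL, Real.le_log_iff_exp_le (by rw [hYr]; linarith)]
    have := Real.exp_one_lt_d9
    rw [hYr]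
    linarith
  set K : ℝ := ((LA.Cs w₀).card : ℝ) with hK
  have hKpos : 0 < K := by
    rw [hK]; exact_mod_cast LA.card_Cs_pos w₀
  set B : ℝ := B0 * L with hB
  have hBpos : 0 < B := by positivity
  set D : ℝ := m * s + LA.Wp w + ε₂ * Y with hD
  have hDpos : 0 ≤ D := by positivity
  set R : ℝ := (π + θ) * D ^ 2 + (C * B * D + (X * B ^ 2 + 4 * B0 ^ 2 * δ * X ^ 2) + ε₂ * Y ^ 2) with hR
  have hZ : ∑ n ∈ E', (B ^ 2 + B ^ 2 * ((nonEdges G n).ncard : ℝ)) ≤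
      X * B ^ 2 + 4 * B0 ^ 2 * δ * X ^ 2 := by
    have hX3 : (3 : ℝ) ≤ X := by
      have h1 : 40 * (40 + 1) ≤ M * (M + 1) := by
        have h2 : 40 ≤ m := by exact_mod_cast hm40
        exact Nat.mul_le_mul (by omega) (by omega)
      exact_mod_cast (by omega : 3 ≤ X)
    have hlX : 0 < Real.log X := Real.log_pos (by linarith)
    have hLX : L ≤ 2 * Real.log X := by
      rw [hL, hYr, Real.log_mul (by norm_num) (by linarith)]
      have := Real.log_le_log (by norm_num) hX3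
      linarith
    have h1 : ∀ n ∈ E', B ^ 2 + B ^ 2 * ((nonEdges G n).ncard : ℝ) ≤ B ^ 2 + 4 * B0 ^ 2 * δ * X := by
      intro n hn
      have h2 := hE2 n (Finset.mem_filter.mp hn).1
      have h3 : B ^ 2 ≤ 4 * B0 ^ 2 * Real.log X ^ 2 := by
        rw [hB, mul_pow]
        have h4 : L ^ 2 ≤ (2 * Real.log X) ^ 2 := pow_le_pow_left₀ (by linarith) hLX 2
        calc B0 ^ 2 * L ^ 2 ≤ B0 ^ 2 * (2 * Real.log X) ^ 2 := mul_le_mul_of_nonneg_left h4 (sq_nonneg _)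
          _ = _ := by ring
      have h5 : B ^ 2 * ((nonEdges G n).ncard : ℝ) ≤ (4 * B0 ^ 2 * Real.log X ^ 2) * (δ * X / Real.log X ^ 2) :=
        mul_le_mul h3 h2 (Nat.cast_nonneg _) (by positivity)
      have h6 : (4 * B0 ^ 2 * Real.log X ^ 2) * (δ * X / Real.log X ^ 2) = 4 * B0 ^ 2 * δ * X := by
        field_simp
      linarith
    refine (Finset.sum_le_sum h1).trans ?_
    rw [Finset.sum_const, nsmul_eq_mul]
    have hδ0 : 0 ≤ δ := by rw [hδ]; positivity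
    calc (E'.card : ℝ) * (B ^ 2 + 4 * B0 ^ 2 * δ * X) ≤ X * (B ^ 2 + 4 * B0 ^ 2 * δ * X) :=
          mul_le_mul_of_nonneg_right hE'X (by positivity)
      _ = _ := by ring
  have hkey : ∀ j ∈ range (M + 2), ∀ c ∈ LA.Cs w₀, ∑ n ∈ E', ∑ x ∈ range (2 * n + 1),
      win (j * s) (m * s) (fun x => LA.om w₀ c x * Lw w x) x *
      win (j * s) (m * s) (fun x => LA.om w₀ c x * Lw w x) (2 * n - x) ≤ R := by
    intro j hj c hc
    have hjM : j ≤ M + 1 := by rw [mem_range] at hj; omega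
    have hle : j * s + m * s ≤ Y := by
      have h1 : j * s ≤ (M + 1) * s := Nat.mul_le_mul_right s hjM
      have h2 : m * s ≤ M * s := Nat.mul_le_mul_right s hMmN
      have h3 : s ≤ M * s := Nat.le_mul_of_pos_left s hMN
      have h4 : (M + 1) * s = M * s + s := by ring
      have h5 : s * M = M * s := mul_comm _ _
      omega
    have hYc : Y₀ c ≤ Y := by
      have : Y₀ c ≤ X := le_trans (Finset.le_sup hc) hXX3
      omega
    obtain ⟨hw1, hw2⟩ := hY₀ c hc Y hYc (j * s) (m * s) hle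
    exact key_window_robust hC (by linarith) (hup G hG) hww0 hc hle hw1 hw2
      (fun n hn => by
        have := (hE1 n (Finset.mem_filter.mp hn).1).2
        omega) (by rw [hB, hL]) (by rw [hD]; push_cast; ring) hZ
  -- double counting
  have hmain : (E'.card : ℝ) * (2 * (1 - 1 / (w₀ : ℝ)) * ((m : ℝ) * s * (m - 4) / 2 -
      ((M : ℝ) + 2) * LA.Wp w)) ≤ ((M : ℝ) + 2) * R := by
    have h1 : ∀ n ∈ E', 2 * (1 - 1 / (w₀ : ℝ)) * K * ((m : ℝ) * s * (m - 4) / 2 -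
        ((M + 2 : ℕ) : ℝ) * LA.Wp w) ≤ ∑ j ∈ range (M + 2), ∑ c ∈ LA.Cs w₀, ∑ x ∈ range (2 * n + 1),
        win (j * s) (m * s) (fun x => LA.om w₀ c x * Lw w x) x *
        win (j * s) (m * s) (fun x => LA.om w₀ c x * Lw w x) (2 * n - x) := by
      intro n hn
      rw [hE', Finset.mem_filter] at hn
      refine lower_bound w₀ w s m (M + 2) n hw₀2 hww0 (by omega) hm4 hn.2 ?_
      have := (hE1 n hn.1).2
      nlinarith
    have h2 := Finset.sum_le_sum h1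
    rw [Finset.sum_const, nsmul_eq_mul, Finset.sum_comm] at h2
    have h3 : ∑ j ∈ range (M + 2), ∑ n ∈ E', ∑ c ∈ LA.Cs w₀, ∑ x ∈ range (2 * n + 1),
        win (j * s) (m * s) (fun x => LA.om w₀ c x * Lw w x) x *
        win (j * s) (m * s) (fun x => LA.om w₀ c x * Lw w x) (2 * n - x) ≤
        ∑ j ∈ range (M + 2), ∑ c ∈ LA.Cs w₀, R := by
      refine Finset.sum_le_sum fun j hj => ?_
      rw [Finset.sum_comm]
      exact Finset.sum_le_sum fun c hc => hkey j hj c hc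
    have h4 := h2.trans h3
    rw [Finset.sum_const, Finset.sum_const, card_range, nsmul_eq_mul, nsmul_eq_mul, ← hK] at h4
    push_cast at h4
    have h5 : K * ((E'.card : ℝ) * (2 * (1 - 1 / (w₀ : ℝ)) * ((m : ℝ) * s * (m - 4) / 2 -
      ((M : ℝ) + 2) * LA.Wp w))) ≤ K * (((M : ℝ) + 2) * R) := by
      calc _ = (E'.card : ℝ) * (2 * (1 - 1 / (w₀ : ℝ)) * K * ((m : ℝ) * s * (m - 4) / 2 -
          ((M : ℝ) + 2) * LA.Wp w)) := by ring
        _ ≤ _ := h4
        _ = _ := by ring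
    exact le_of_mul_le_mul_left h5 hKpos
  -- arithmetic
  have hms : (m : ℝ) * s ≤ θ / 2 * X := by
    have h1 : (m : ℝ) * s * M ≤ m * X := by
      calc (m : ℝ) * s * M = m * (s * M) := by ring
        _ ≤ m * X := mul_le_mul_of_nonneg_left hsr1 (by linarith)
    have h2 : (m : ℝ) * X ≤ (θ / 2 * X) * M := by
      calc (m : ℝ) * X ≤ (θ * M / 2) * X := mul_le_mul_of_nonneg_right (by linarith) (by linarith)
        _ = _ := by ring
    exact le_of_mul_le_mul_right (h1.trans h2) hM0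
  have hRle : R ≤ ((π + θ) * (1 + θ) + θ) * (m ^ 2 * s ^ 2) :=
    arith_fin_robust hθ0 hθ1 hπ0 hm40 hMθ hMm hsr0 hX1r hsr1 hsr4 hWr hsW hε₂ hYr hC hB01 hL1 hlog hδ hB hD
  have hfin := combine_arith (E := E'.card) (X := X) (θ := θ) (π := π) (u := 1 / (w₀ : ℝ)) (m := m)
    (s := s) (J := (M : ℝ) + 2) (W := LA.Wp w) (R := R) (Nat.cast_nonneg _) hE'X hθ0 hθ1 hπ0 hπ1 hu hmθ
    hsr0 (by positivity) (by
      have h1 : ((M : ℝ) + 2) * LA.Wp w ≤ 3 * M * LA.Wp w :=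
        mul_le_mul_of_nonneg_right (by linarith) hWr
      have h2 : 3 * (M : ℝ) * LA.Wp w ≤ θ * s / 2 := by
        have := mul_nonneg hM0.le hWr
        linarith
      have h3 : θ * s / 2 ≤ θ * m ^ 2 * s / 2 := by
        have : θ * (s : ℝ) * 1 ≤ θ * s * m ^ 2 :=
          mul_le_mul_of_nonneg_left (one_le_pow₀ (by linarith)) (by positivity)
        linarith
      linarith) (by
      have h1 : 2 * (s : ℝ) ≤ θ * X := by
        have h2 : 2 * (m : ℝ) * s ≤ θ * M * s := mul_le_mul_of_nonneg_right hMθ hsr0.le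
        have h3 : θ * ((s : ℝ) * M) ≤ θ * X := mul_le_mul_of_nonneg_left hsr1 hθ0.le
        have h4 : 2 * (s : ℝ) * 1 ≤ 2 * s * m := mul_le_mul_of_nonneg_left (by linarith) (by positivity)
        linarith
      have h5 : ((M : ℝ) + 2) * s = s * M + 2 * s := by ring
      rw [h5]
      linarith) hRle hmain
  calc (E.card : ℝ) ≤ E'.card + m * s := hcard
    _ ≤ (π + 8 * θ) * X + θ / 2 * X := add_le_add hfin hms
    _ = (π + 17 / 2 * θ) * X := by ring
    _ ≤ (π + ε) * X := mul_le_mul_of_nonneg_right (by linarith) (by linarith)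

end Pool.Agent.Lib.GT
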