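import Pool.Agent.Lib.MP_7b7e48_nt.GT.Sampling

/-!
# The upper bound of the assembly: weighted Turán bound for sums over Goldbach pairs
-/

open Finset

namespace Pool.Agent.Lib.GT

open SimpleGraph

open Classical in
/-- Off-diagonal part: the pairs `(x, 2n - x)`, `n ∈ E`, are distinct edges of `G`. -/
lemma goldbach_pairs_le (G : SimpleGraph Nat.Primes) (E : Finset ℕ)
    (hE : ∀ n ∈ E, ∀ p q : Nat.Primes, p ≠ q → (p : ℕ) + q = 2 * n → G.Adj p q)
    (f : ℕ → ℝ) (Y : ℕ) (hf0 : ∀ n, ¬ n.Prime → f n = 0) (hf1 : ∀ n, 0 ≤ f n)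
    (hfY : ∀ n, Y < n → f n = 0) :
    ∑ n ∈ E, ∑ x ∈ (range (2 * n + 1)).erase n, f x * f (2 * n - x) ≤
      ∑ p ∈ (range (Y + 1)).subtype Nat.Prime, ∑ q ∈ (range (Y + 1)).subtype Nat.Prime,
        (if G.Adj p q then f p * f q else 0) := by
  set A : ℕ → ℕ → Prop := fun x y => ∃ (hx : x.Prime) (hy : y.Prime), G.Adj ⟨x, hx⟩ ⟨y, hy⟩
    with hA
  set P := (range (Y + 1)).filter Nat.Prime with hP
  have h1 : ∑ p ∈ (range (Y + 1)).subtype Nat.Prime, ∑ q ∈ (range (Y + 1)).subtype Nat.Prime,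
        (if G.Adj p q then f p * f q else 0) =
      ∑ z ∈ (P ×ˢ P).filter (fun z => A z.1 z.2), f z.1 * f z.2 := by
    rw [Finset.sum_filter, Finset.sum_product]
    rw [← Finset.sum_subtype_eq_sum_filter (f := fun x => ∑ y ∈ P,
      (if A x y then f x * f y else 0))]
    refine Finset.sum_congr rfl fun p _ => ?_
    rw [← Finset.sum_subtype_eq_sum_filter (f := fun y => (if A p y then f p * f y else 0))]
    refine Finset.sum_congr rfl fun q _ => ?_
    have : A p q ↔ G.Adj p q := by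
      constructor
      · rintro ⟨_, _, h⟩
        exact h
      · intro h
        exact ⟨p.2, q.2, h⟩
    by_cases hpq : G.Adj p q
    · rw [if_pos hpq, if_pos (this.mpr hpq)]
    · rw [if_neg hpq, if_neg (fun h => hpq (this.mp h))]
  rw [h1, Finset.sum_sigma', ← Finset.sum_filter_ne_zero]
  set T := (E.sigma fun n => (range (2 * n + 1)).erase n).filter
    (fun x => f x.2 * f (2 * x.1 - x.2) ≠ 0) with hT
  have hinj : Set.InjOn (fun x : (_ : ℕ) × ℕ => (x.2, 2 * x.1 - x.2)) (T : Set ((_ : ℕ) × ℕ)) := by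
    rintro ⟨n, x⟩ hx ⟨m, y⟩ hy hxy
    rw [Finset.mem_coe, hT, Finset.mem_filter, Finset.mem_sigma, Finset.mem_erase,
      Finset.mem_range] at hx hy
    simp only [Prod.mk.injEq] at hxy hx hy
    obtain ⟨h2, h3⟩ := hxy
    subst h2
    have : n = m := by omega
    subst this
    rfl
  have h2 : ∑ x ∈ T, f x.2 * f (2 * x.1 - x.2) =
      ∑ z ∈ T.image (fun x : (_ : ℕ) × ℕ => (x.2, 2 * x.1 - x.2)), f z.1 * f z.2 := by
    rw [Finset.sum_image hinj]
  rw [h2]
  refine Finset.sum_le_sum_of_subset_of_nonneg ?_ fun z _ _ => mul_nonneg (hf1 _) (hf1 _)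
  intro z hz
  rw [Finset.mem_image] at hz
  obtain ⟨⟨n, x⟩, hx, rfl⟩ := hz
  rw [hT, Finset.mem_filter, Finset.mem_sigma, Finset.mem_erase, Finset.mem_range] at hx
  simp only at hx ⊢
  obtain ⟨⟨hn, hxn, hx2⟩, hne⟩ := hx
  have hx0 : f x ≠ 0 := left_ne_zero_of_mul hne
  have hy0 : f (2 * n - x) ≠ 0 := right_ne_zero_of_mul hne
  have hxp : x.Prime := by
    by_contra h
    exact hx0 (hf0 _ h)
  have hyp : (2 * n - x).Prime := by
    by_contra h
    exact hy0 (hf0 _ h)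
  have hxY : x ≤ Y := by
    by_contra h
    exact hx0 (hfY _ (by omega))
  have hyY : 2 * n - x ≤ Y := by
    by_contra h
    exact hy0 (hfY _ (by omega))
  rw [Finset.mem_filter, Finset.mem_product, hP, Finset.mem_filter, Finset.mem_filter,
    Finset.mem_range, Finset.mem_range]
  refine ⟨⟨⟨by omega, hxp⟩, by simp only; omega, hyp⟩, hxp, hyp, ?_⟩
  refine hE n hn ⟨x, hxp⟩ ⟨2 * n - x, hyp⟩ ?_ ?_
  · intro h
    have h' : x = 2 * n - x := congrArg Subtype.val h
    omega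
  · show x + (2 * n - x) = 2 * n
    omega

/-- Upper bound of the assembly. -/
theorem upper_bound {W : Type*} (H : SimpleGraph W) (ε : ℝ) (hε : 0 < ε) :
    ∃ C : ℝ, 0 < C ∧ ∀ G : SimpleGraph Nat.Primes, H.Free G → ∀ E : Finset ℕ,
      (∀ n ∈ E, ∀ p q : Nat.Primes, p ≠ q → (p : ℕ) + q = 2 * n → G.Adj p q) →
      ∀ (f : ℕ → ℝ) (B : ℝ) (Y : ℕ), (∀ n, ¬ n.Prime → f n = 0) → (∀ n, 0 ≤ f n) →
        (∀ n, f n ≤ B) → (∀ n, Y < n → f n = 0) →
      ∑ n ∈ E, ∑ x ∈ range (2 * n + 1), f x * f (2 * n - x) ≤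
        (turanDensity H + ε) * (∑ x ∈ range (Y + 1), f x) ^ 2 +
          C * B * (∑ x ∈ range (Y + 1), f x) + E.card * B ^ 2 := by
  classical
  obtain ⟨C, hC, hS⟩ := sampling_const H ε hε
  refine ⟨C, hC, ?_⟩
  intro G hG E hE f B Y hf0 hf1 hfB hfY
  have h1 := goldbach_pairs_le G E hE f Y hf0 hf1 hfY
  set S : Finset Nat.Primes := (range (Y + 1)).subtype Nat.Prime with hSdef
  have h2 := hS G hG S (fun p : Nat.Primes => f (p : ℕ)) (fun v _ => hf1 _) B (fun v _ => hfB _)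
  have h3 : ∑ p ∈ S, f (p : ℕ) = ∑ x ∈ range (Y + 1), f x := by
    rw [hSdef]
    refine (Finset.sum_subtype_eq_sum_filter (f := f)).trans ?_
    rw [Finset.sum_filter]
    refine Finset.sum_congr rfl fun x _ => ?_
    split_ifs with h
    · rfl
    · exact (hf0 x h).symm
  rw [h3] at h2
  have hB : 0 ≤ B := (hf1 0).trans (hfB 0)
  have h4 : ∀ n ∈ E, ∑ x ∈ range (2 * n + 1), f x * f (2 * n - x) ≤
      ∑ x ∈ (range (2 * n + 1)).erase n, f x * f (2 * n - x) + B ^ 2 := by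
    intro n _
    rw [← Finset.sum_erase_add _ _ (show n ∈ range (2 * n + 1) from
      Finset.mem_range.mpr (by omega))]
    have h5 : f n * f (2 * n - n) ≤ B ^ 2 := by
      rw [sq]
      exact mul_le_mul (hfB _) (hfB _) (hf1 _) hB
    linarith
  calc ∑ n ∈ E, ∑ x ∈ range (2 * n + 1), f x * f (2 * n - x)
      ≤ ∑ n ∈ E, (∑ x ∈ (range (2 * n + 1)).erase n, f x * f (2 * n - x) + B ^ 2) :=
        Finset.sum_le_sum h4
    _ = ∑ n ∈ E, ∑ x ∈ (range (2 * n + 1)).erase n, f x * f (2 * n - x) + E.card * B ^ 2 := by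
        rw [Finset.sum_add_distrib, Finset.sum_const, nsmul_eq_mul]
    _ ≤ _ := by
        have h6 := h1.trans h2
        linarith

end Pool.Agent.Lib.GT
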