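import Pool.Agent.Lib.MP_7b7e48_nt.GT.LocalAvg

/-!
# Lower bound for the windowed coloured sums (module B1)
-/

open Finset

namespace Pool.Agent.Lib.GT

/-- restriction to the window `(t, t + h]` -/
noncomputable def win (t h : ℕ) (f : ℕ → ℝ) (n : ℕ) : ℝ := if t < n ∧ n ≤ t + h then f n else 0

namespace Low

open LA

lemma win_nonneg {t h : ℕ} {f : ℕ → ℝ} (hf : ∀ n, 0 ≤ f n) (n : ℕ) : 0 ≤ win t h f n := by
  unfold win
  split_ifs
  · exact hf n
  · exact le_rfl

lemma f_nonneg (w₀ w : ℕ) (c : ↥(opr w₀) → ℕ) (x : ℕ) : 0 ≤ om w₀ c x * Lw w x :=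
  mul_nonneg (om_nonneg _ _ _) (Lw_nonneg _ _)

/-- the coloured sum of one window -/
noncomputable def F (w₀ w t h n : ℕ) : ℝ :=
  ∑ c ∈ Cs w₀, ∑ x ∈ range (2 * n + 1),
    win t h (fun x => om w₀ c x * Lw w x) x * win t h (fun x => om w₀ c x * Lw w x) (2 * n - x)

lemma F_nonneg (w₀ w t h n : ℕ) : 0 ≤ F w₀ w t h n :=
  Finset.sum_nonneg fun c _ => Finset.sum_nonneg fun x _ =>
    mul_nonneg (win_nonneg (f_nonneg w₀ w c) x) (win_nonneg (f_nonneg w₀ w c) _)

lemma F_ge {w₀ w t h n A B : ℕ} (h2 : 2 ≤ w₀) (hw : w₀ ≤ w) (hB : B ≤ 2 * n + 1)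
    (hx : ∀ x, A ≤ x → x < B → (t < x ∧ x ≤ t + h) ∧ (t < 2 * n - x ∧ 2 * n - x ≤ t + h)) :
    2 * (1 - 1 / (w₀ : ℝ)) * (Cs w₀).card * ((B : ℝ) - A - Wp w) ≤ F w₀ w t h n := by
  refine (local_interval (n := 2 * n) h2 hw (even_two_mul n) hB).trans ?_
  unfold F
  rw [Finset.sum_comm]
  calc ∑ x ∈ Finset.Ico A B, (∑ c ∈ Cs w₀, om w₀ c x * om w₀ c (2 * n - x)) *
          (Lw w x * Lw w (2 * n - x))
      = ∑ x ∈ Finset.Ico A B, ∑ c ∈ Cs w₀,
          win t h (fun x => om w₀ c x * Lw w x) x *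
            win t h (fun x => om w₀ c x * Lw w x) (2 * n - x) := by
        apply Finset.sum_congr rfl
        intro x hxm
        rw [Finset.mem_Ico] at hxm
        obtain ⟨h3, h4⟩ := hx x hxm.1 hxm.2
        rw [Finset.sum_mul]
        apply Finset.sum_congr rfl
        intro c _
        unfold win
        rw [if_pos h3, if_pos h4]
        ring
    _ ≤ _ := by
        apply Finset.sum_le_sum_of_subset_of_nonneg
        · intro x hxm
          rw [Finset.mem_Ico] at hxm
          rw [Finset.mem_range]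
          omega
        · intro x _ _
          exact Finset.sum_nonneg fun c _ =>
            mul_nonneg (win_nonneg (f_nonneg w₀ w c) x) (win_nonneg (f_nonneg w₀ w c) _)

lemma sum_min (m : ℕ) :
    (m : ℝ) * (m - 2) / 4 ≤ ∑ i ∈ range m, ((min i (m - 1 - i) : ℕ) : ℝ) := by
  induction m using Nat.twoStepInduction with
  | zero => simp
  | one => norm_num
  | more m ih _ =>
    have h1 : ∑ i ∈ range (m + 2), min i (m + 2 - 1 - i) =
        (∑ i ∈ range m, min i (m - 1 - i)) + m := by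
      rw [Finset.sum_range_succ, Finset.sum_range_succ']
      have h2 : ∀ i ∈ range m, min (i + 1) (m + 2 - 1 - (i + 1)) = min i (m - 1 - i) + 1 := by
        intro i hi
        rw [mem_range] at hi
        omega
      rw [Finset.sum_congr rfl h2, Finset.sum_add_distrib]
      simp only [Finset.sum_const, card_range, smul_eq_mul, mul_one]
      omega
    have h3 : (∑ i ∈ range (m + 2), ((min i (m + 2 - 1 - i) : ℕ) : ℝ)) =
        (∑ i ∈ range m, ((min i (m - 1 - i) : ℕ) : ℝ)) + m := by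
      exact_mod_cast h1
    rw [h3]
    push_cast at ih ⊢
    nlinarith

end Low

open LA Low in
/-- B1 -/
theorem lower_bound (w₀ w s m J n : ℕ) (h2 : 2 ≤ w₀) (hw : w₀ ≤ w) (hs : 1 ≤ s) (hm : 4 ≤ m)
    (hn1 : m * s + 1 ≤ n) (hn2 : n + s ≤ J * s) :
    2 * (1 - 1 / (w₀ : ℝ)) * (Cs w₀).card * ((m : ℝ) * s * (m - 4) / 2 - J * Wp w) ≤
      ∑ j ∈ range J, ∑ c ∈ Cs w₀, ∑ x ∈ range (2 * n + 1),
        win (j * s) (m * s) (fun x => om w₀ c x * Lw w x) x *
          win (j * s) (m * s) (fun x => om w₀ c x * Lw w x) (2 * n - x) := by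
  obtain ⟨a, ha⟩ : ∃ a, a = n / s := ⟨_, rfl⟩
  obtain ⟨r, hr⟩ : ∃ r, r = n % s := ⟨_, rfl⟩
  have hn : n = a * s + r := by
    rw [ha, hr, mul_comm]
    exact (Nat.div_add_mod n s).symm
  have hrs : r < s := by rw [hr]; exact Nat.mod_lt _ (by omega)
  have ham : m ≤ a := by
    by_contra h
    push Not at h
    have : a * s + s ≤ m * s := by
      calc a * s + s = (a + 1) * s := by ring
        _ ≤ m * s := Nat.mul_le_mul_right _ h
    omega
  have haJ : a < J := by
    by_contra h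
    push Not at h
    have : J * s ≤ a * s := Nat.mul_le_mul_right _ h
    omega
  have hK : 0 ≤ 2 * (1 - 1 / (w₀ : ℝ)) * (Cs w₀).card := by
    have h2' : (2 : ℝ) ≤ w₀ := by exact_mod_cast h2
    have : 1 / (w₀ : ℝ) ≤ 1 := by
      rw [div_le_one (by linarith)]; linarith
    exact mul_nonneg (mul_nonneg (by norm_num) (by linarith)) (Nat.cast_nonneg _)
  have hs' : (1 : ℝ) ≤ s := by exact_mod_cast hs
  -- one window
  have hone : ∀ i ∈ range m, 2 * (1 - 1 / (w₀ : ℝ)) * (Cs w₀).card *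
      (2 * s * ((min i (m - 1 - i) : ℕ) : ℝ) - 1 - Wp w) ≤ F w₀ w ((a - i) * s) (m * s) n := by
    intro i hi
    rw [mem_range] at hi
    obtain ⟨t, ht⟩ : ∃ t, t = (a - i) * s := ⟨_, rfl⟩
    obtain ⟨u, hu⟩ : ∃ u, u = i * s + r := ⟨_, rfl⟩
    have htu : n = t + u := by
      have h3 : (a - i) * s + i * s = a * s := by
        rw [← Nat.add_mul, Nat.sub_add_cancel (by omega)]
      rw [hn, ht, hu]
      omega
    have hum : u + (m - 1 - i) * s < m * s := by
      have h3 : i * s + (m - 1 - i) * s + s = m * s := by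
        rw [← Nat.add_mul]
        have : (i + (m - 1 - i) + 1) * s = m * s := by
          congr 1
          omega
        rw [← this]
        ring
      rw [hu]
      omega
    have hmi : s * min i (m - 1 - i) ≤ i * s := by
      rw [mul_comm i s]
      exact Nat.mul_le_mul_left _ (min_le_left _ _)
    have hmi' : s * min i (m - 1 - i) ≤ (m - 1 - i) * s := by
      rw [mul_comm (m - 1 - i) s]
      exact Nat.mul_le_mul_left _ (min_le_right _ _)
    rw [← ht]
    by_cases h4 : 2 * u ≤ m * s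
    · rcases Nat.eq_zero_or_pos u with h0 | h0
      · -- empty
        have h5 : s * min i (m - 1 - i) = 0 := by omega
        have h6 : ((s : ℝ) * ((min i (m - 1 - i) : ℕ) : ℝ)) = 0 := by exact_mod_cast h5
        refine le_trans (mul_nonpos_of_nonneg_of_nonpos hK ?_) (F_nonneg _ _ _ _ _)
        have h7 : (0 : ℝ) ≤ Wp w := Nat.cast_nonneg _
        nlinarith
      · have h5 := F_ge (w₀ := w₀) (w := w) (t := t) (h := m * s) (n := n) (A := t + 1)
          (B := t + 2 * u) h2 hw (by omega) (fun x hx1 hx2 => by omega)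
        refine le_trans (mul_le_mul_of_nonneg_left ?_ hK) h5
        have h6 : (((2 * (s * min i (m - 1 - i)) : ℕ)) : ℝ) ≤ ((2 * u : ℕ) : ℝ) := by
          exact_mod_cast (by omega : 2 * (s * min i (m - 1 - i)) ≤ 2 * u)
        push_cast at h6 ⊢
        linarith
    · have h5 := F_ge (w₀ := w₀) (w := w) (t := t) (h := m * s) (n := n) (A := t + 2 * u - m * s)
          (B := t + m * s + 1) h2 hw (by omega) (fun x hx1 hx2 => by omega)
      refine le_trans (mul_le_mul_of_nonneg_left ?_ hK) h5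
      have h6 : (((2 * (s * min i (m - 1 - i)) + 2 * u : ℕ)) : ℝ) ≤ ((2 * (m * s) : ℕ) : ℝ) := by
        exact_mod_cast (by omega : 2 * (s * min i (m - 1 - i)) + 2 * u ≤ 2 * (m * s))
      rw [Nat.cast_sub (by omega)]
      push_cast at h6 ⊢
      linarith
  have hsum : 2 * (1 - 1 / (w₀ : ℝ)) * (Cs w₀).card *
      ((m : ℝ) * s * (m - 4) / 2 - J * Wp w) ≤
      ∑ i ∈ range m, 2 * (1 - 1 / (w₀ : ℝ)) * (Cs w₀).card *
      (2 * s * ((min i (m - 1 - i) : ℕ) : ℝ) - 1 - Wp w) := by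
    rw [← Finset.mul_sum]
    apply mul_le_mul_of_nonneg_left _ hK
    rw [Finset.sum_sub_distrib, Finset.sum_sub_distrib, ← Finset.mul_sum]
    simp only [Finset.sum_const, card_range, nsmul_eq_mul, mul_one]
    have h3 := sum_min m
    have h5 : (m : ℝ) ≤ J := by exact_mod_cast (by omega : m ≤ J)
    have h6 : (0 : ℝ) ≤ Wp w := Nat.cast_nonneg _
    have h7 : (m : ℝ) * Wp w ≤ J * Wp w := mul_le_mul_of_nonneg_right h5 h6
    have h8 : 2 * (s : ℝ) * ((m : ℝ) * (m - 2) / 4) ≤
        2 * s * ∑ i ∈ range m, ((min i (m - 1 - i) : ℕ) : ℝ) :=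
      mul_le_mul_of_nonneg_left h3 (by linarith)
    have h9 : (m : ℝ) ≤ m * s := by
      have : (0 : ℝ) ≤ m := Nat.cast_nonneg m
      nlinarith
    nlinarith
  refine hsum.trans ((Finset.sum_le_sum hone).trans ?_)
  have hinj : Set.InjOn (fun i => a - i) (range m : Set ℕ) := by
    intro i hi j hj hij
    simp only [Finset.coe_range, Set.mem_Iio] at hi hj
    simp only at hij
    omega
  have h10 : ∑ i ∈ range m, F w₀ w ((a - i) * s) (m * s) n =
      ∑ j ∈ (range m).image (fun i => a - i), F w₀ w (j * s) (m * s) n := by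
    rw [Finset.sum_image hinj]
  rw [h10]
  apply Finset.sum_le_sum_of_subset_of_nonneg
  · intro j hj
    rw [Finset.mem_image] at hj
    obtain ⟨i, _, rfl⟩ := hj
    rw [mem_range]
    omega
  · intro j _ _
    exact F_nonneg _ _ _ _ _

end Pool.Agent.Lib.GT
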