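import Pool.Agent.Lib.MP_7b7e48_nt.GT.MinorCS

/-!
# Goldbach-Turan, module MA: the block bound

For a block of primes `p` in `(P, P + H]`, `H ≈ η P`, `X ^ δ ≤ P ≤ √X`, the bilinear sum over `p` and
over the rough numbers `m ≤ X / (P + H)` is `≤ ε X / log² X` on the minor arcs.

The three inputs (`RoughCount`, `RoughExp`, `BadMultiples`) are hypotheses here; they are the statements
of the theorems `rough_count`, `rough_exp`, `bad_multiples` of the project.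
-/

open Finset

namespace Pool.Agent.Lib.GT.MA

/-- the statement of `rough_count` -/
def RoughCount : Prop := ∃ C : ℝ, 0 < C ∧ ∀ z : ℕ, 2 ≤ z → ∀ A L : ℕ, z ≤ L →
    (((Finset.Ioc A (A + L)).filter (Rough z)).card : ℝ) ≤ C * L / Real.log z

/-- the statement of `rough_exp` -/
def RoughExp : Prop := ∀ ε : ℝ, 0 < ε → ∃ δ₀ : ℝ, 0 < δ₀ ∧ ∀ δ : ℝ, 0 < δ → δ ≤ δ₀ →
    ∃ Q M₀ : ℕ, ∀ M : ℕ, M₀ ≤ M → ∀ θ : ℝ, ¬ Major Q M θ →
      ‖∑ m ∈ (Finset.Icc 1 M).filter (Rough ⌊(M : ℝ) ^ δ⌋₊), e (θ * m)‖ ≤ ε * M / Real.log M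

open Classical in
/-- the statement of `bad_multiples` -/
def BadMultiples : Prop := ∀ (Q : ℕ) (ε : ℝ), 1 ≤ Q → 0 < ε → ∃ Q₁ H₀ : ℕ, ∀ (H : ℕ) (M α : ℝ),
    H₀ ≤ H → (H₀ : ℝ) ≤ M → ¬ Major Q₁ (H * M) α →
      (((Finset.Icc 1 H).filter (fun h : ℕ => Major Q M (α * h))).card : ℝ) ≤ ε * H

theorem pairs_le : ∃ C₁ C₂ c₄ : ℝ, 0 < C₁ ∧ 0 < C₂ ∧ 0 < c₄ ∧ ∀ P H : ℕ, 2 ≤ H →
    ∀ (f : ℕ → ℝ) (u U σ : ℝ) (D : Finset ℕ), (∀ h, 0 ≤ f h) → 0 ≤ u → 0 ≤ U → 0 ≤ σ →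
    D ⊆ Finset.Icc 1 H → (D.card : ℝ) ≤ σ ^ 2 * H → f 0 ≤ U → (∀ h ∈ D, f h ≤ U) →
    (∀ h ∈ Finset.Icc 1 H, h ∉ D → f h ≤ u) →
    ∑ p ∈ (Finset.Ioc P (P + H)).filter Nat.Prime, ∑ q ∈ (Finset.Ioc P (P + H)).filter Nat.Prime,
      f (Nat.dist p q) ≤
      C₁ * H / Real.log H * U + C₂ * H / (Real.log H) ^ 2 * ((u + U * σ) * c₄ * H) := by
  obtain ⟨C₁, hC₁, h1⟩ := prime_count
  obtain ⟨C₂, hC₂, h2⟩ := pair_count
  obtain ⟨C₄, hC₄, h4⟩ := phi_moment
  refine ⟨C₁, C₂, C₄ + 1, hC₁, hC₂, by linarith, ?_⟩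
  intro P H hH f u U σ D hf hu hU hσ hD hDc hf0 hfD hfG
  set S := (Finset.Ioc P (P + H)).filter Nat.Prime with hS
  set t : ℕ → ℝ := fun h => (((2 * h : ℕ) : ℝ) / (Nat.totient (2 * h) : ℝ)) ^ 2 with ht
  have ht0 : ∀ h, 0 ≤ t h := fun h => by positivity
  have hHr : (2 : ℝ) ≤ H := by exact_mod_cast hH
  have hc : C₄ ≤ (C₄ + 1) ^ 2 := by nlinarith
  have hsum2 : ∑ h ∈ Finset.Icc 1 H, t h ^ 2 ≤ (C₄ + 1) ^ 2 * H :=
    (h4 H).trans (mul_le_mul_of_nonneg_right hc (by linarith))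
  have hsumt : ∑ h ∈ Finset.Icc 1 H, t h ≤ (C₄ + 1) * H := by
    have h := sq_sum_le_card_mul_sum_sq (s := Finset.Icc 1 H) (f := t)
    rw [Nat.card_Icc, Nat.add_sub_cancel] at h
    refine abs_le_of_sq_le_sq' (a := ∑ h ∈ Finset.Icc 1 H, t h) ?_ (by positivity) |>.2
    calc (∑ h ∈ Finset.Icc 1 H, t h) ^ 2 ≤ H * ∑ h ∈ Finset.Icc 1 H, t h ^ 2 := h
      _ ≤ H * ((C₄ + 1) ^ 2 * H) := mul_le_mul_of_nonneg_left hsum2 (by linarith)
      _ = ((C₄ + 1) * H) ^ 2 := by ring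
  have hsumD : ∑ h ∈ D, t h ≤ σ * (C₄ + 1) * H := by
    have h := sq_sum_le_card_mul_sum_sq (s := D) (f := t)
    refine abs_le_of_sq_le_sq' (a := ∑ h ∈ D, t h) ?_ (by positivity) |>.2
    have hle : ∑ h ∈ D, t h ^ 2 ≤ (C₄ + 1) ^ 2 * H :=
      (Finset.sum_le_sum_of_subset_of_nonneg hD fun _ _ _ => by positivity).trans hsum2
    calc (∑ h ∈ D, t h) ^ 2 ≤ D.card * ∑ h ∈ D, t h ^ 2 := h
      _ ≤ (σ ^ 2 * H) * ((C₄ + 1) ^ 2 * H) := by
        refine mul_le_mul hDc hle (Finset.sum_nonneg fun _ _ => by positivity) (by positivity)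
      _ = (σ * (C₄ + 1) * H) ^ 2 := by ring
  have hmain := sum_dist S P H (Finset.filter_subset _ _) f
    (fun h => C₂ * H / (Real.log H) ^ 2 * t h) hf (fun h hh => by
      rw [Finset.mem_Icc] at hh
      exact h2 P H h hH hh.1)
  refine hmain.trans (add_le_add ?_ ?_)
  · exact mul_le_mul (h1 P H hH) hf0 (hf 0) (by positivity)
  · have hft : ∑ h ∈ Finset.Icc 1 H, t h * f h ≤ (u + U * σ) * (C₄ + 1) * H := by
      have hpt : ∀ h ∈ Finset.Icc 1 H, t h * f h ≤ t h * u + (if h ∈ D then t h * U else 0) := by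
        intro h hh
        by_cases hd : h ∈ D
        · rw [if_pos hd]
          have := mul_le_mul_of_nonneg_left (hfD h hd) (ht0 h)
          have := mul_nonneg (ht0 h) hu
          linarith
        · rw [if_neg hd, add_zero]
          exact mul_le_mul_of_nonneg_left (hfG h hh hd) (ht0 h)
      refine (Finset.sum_le_sum hpt).trans ?_
      rw [Finset.sum_add_distrib, ← Finset.sum_mul, ← Finset.sum_filter]
      have hfil : (Finset.Icc 1 H).filter (fun h => h ∈ D) = D := by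
        ext x
        rw [Finset.mem_filter]
        exact ⟨fun h => h.2, fun h => ⟨hD h, h⟩⟩
      rw [hfil, ← Finset.sum_mul]
      have e1 := mul_le_mul_of_nonneg_right hsumt hu
      have e2 := mul_le_mul_of_nonneg_right hsumD hU
      calc _ ≤ (C₄ + 1) * H * u + σ * (C₄ + 1) * H * U := add_le_add e1 e2
        _ = _ := by ring
    calc ∑ h ∈ Finset.Icc 1 H, C₂ * H / (Real.log H) ^ 2 * t h * f h
        = C₂ * H / (Real.log H) ^ 2 * ∑ h ∈ Finset.Icc 1 H, t h * f h := by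
          rw [Finset.mul_sum]
          exact Finset.sum_congr rfl fun h _ => by ring
      _ ≤ _ := mul_le_mul_of_nonneg_left hft (by positivity)

theorem ev_ge (δ B : ℝ) (hδ : 0 < δ) : ∃ X₀ : ℕ, ∀ X : ℕ, X₀ ≤ X → B ≤ (X : ℝ) ^ δ := by
  have h := ((tendsto_rpow_atTop hδ).comp tendsto_natCast_atTop_atTop).eventually_ge_atTop B
  exact Filter.eventually_atTop.mp h

theorem ev_floor (δ : ℝ) (hδ : 0 < δ) : ∃ X₀ : ℕ, ∀ X : ℕ, X₀ ≤ X → 2 ≤ ⌊(X : ℝ) ^ δ⌋₊ ∧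
    δ / 2 * Real.log X ≤ Real.log (⌊(X : ℝ) ^ δ⌋₊ : ℕ) := by
  obtain ⟨X₀, h⟩ := ev_ge (δ / 2) 2 (by linarith)
  refine ⟨max X₀ 1, fun X hX => ?_⟩
  have hX1 : 1 ≤ X := (le_max_right _ _).trans hX
  have hXr : (1 : ℝ) ≤ X := by exact_mod_cast hX1
  have h2 := h X ((le_max_left _ _).trans hX)
  have hsq : (X : ℝ) ^ δ = (X : ℝ) ^ (δ / 2) * (X : ℝ) ^ (δ / 2) := by
    rw [← Real.rpow_add (by linarith)]
    congr 1
    ring
  have hlt := Nat.lt_floor_add_one ((X : ℝ) ^ δ)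
  constructor
  · refine Nat.le_floor ?_
    rw [hsq]
    push_cast
    nlinarith
  · rw [← Real.log_rpow (by linarith)]
    refine Real.log_le_log (by linarith) ?_
    have : (X : ℝ) ^ (δ / 2) + 1 ≤ (X : ℝ) ^ δ := by
      rw [hsq]
      nlinarith
    linarith

theorem ev_log (κ : ℝ) (hκ : 0 < κ) : ∃ H₀ : ℕ, ∀ H : ℕ, H₀ ≤ H → Real.log H ≤ κ * H := by
  have h := Real.isLittleO_log_id_atTop.bound hκ
  have h' := tendsto_natCast_atTop_atTop.eventually h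
  obtain ⟨H₀, hH₀⟩ := Filter.eventually_atTop.mp h'
  refine ⟨H₀, fun H hH => ?_⟩
  have := hH₀ H hH
  rw [Real.norm_eq_abs, Real.norm_eq_abs, id, abs_of_nonneg (Nat.cast_nonneg H : (0 : ℝ) ≤ H)] at this
  exact (le_abs_self _).trans this

theorem Major.mono {Q Q' : ℕ} {X X' θ : ℝ} (hQ : Q ≤ Q') (h : (Q : ℝ) / X ≤ (Q' : ℝ) / X')
    (hM : Major Q X θ) : Major Q' X' θ := by
  obtain ⟨q, h1, h2, a, h3⟩ := hM
  exact ⟨q, h1, h2.trans hQ, a, h3.trans h⟩

theorem Rough.mono {z z' n : ℕ} (h : z ≤ z') (hr : Rough z' n) : Rough z n :=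
  fun p hp hd => lt_of_le_of_lt h (hr p hp hd)

open Classical in
/-- **Block bound**: bilinear sums over a short block of primes are small on the minor arcs. -/
theorem block_bound_of (hRC : RoughCount) (hRE : RoughExp) (hBM : BadMultiples) :
    ∀ (δ η ε : ℝ), 0 < δ → 0 < η → η ≤ 1 → 0 < ε → ∃ Q X₀ : ℕ, ∀ X : ℕ, X₀ ≤ X → ∀ α : ℝ,
      ¬ Major Q X α → ∀ P H : ℕ, ⌊(X : ℝ) ^ δ⌋₊ ≤ P → P ^ 2 ≤ X → η * P / 2 ≤ H →
      (H : ℝ) ≤ η * P →
      ‖∑ p ∈ (Finset.Ioc P (P + H)).filter Nat.Prime,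
        ∑ m ∈ (Finset.Icc 1 (X / (P + H))).filter (Rough (P + H)), e (α * ((p : ℝ) * (m : ℝ)))‖ ≤
        ε * X / (Real.log X) ^ 2 := by
  intro δ η ε hδ hη hη1 hε
  obtain ⟨C, hC, hRC⟩ := hRC
  obtain ⟨C₁, C₂, c₄, hC₁, hC₂, hc₄, hpairs⟩ := pairs_le
  set δ₁ := min δ (1 / 8) with hδ₁
  have hδ₁0 : 0 < δ₁ := lt_min hδ (by norm_num)
  set τ := ε ^ 2 * δ₁ * δ ^ 2 / (96 * C) with hτ
  have hτ0 : 0 < τ := by positivity
  set ε₂ := τ / (C₂ * c₄) with hε₂
  have hε₂0 : 0 < ε₂ := by positivity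
  obtain ⟨δ₀, hδ₀, hRE⟩ := hRE ε₂ hε₂0
  set δ' := min δ₀ δ₁ with hδ'
  have hδ'0 : 0 < δ' := lt_min hδ₀ hδ₁0
  obtain ⟨Q', M₀, hRE⟩ := hRE δ' hδ'0 (min_le_left _ _)
  set σ := τ * δ' / (2 * C * C₂ * c₄) with hσ
  have hσ0 : 0 < σ := by positivity
  obtain ⟨Q₁, H₀, hBM⟩ := hBM (max Q' 1) (σ ^ 2) (le_max_right _ _) (by positivity)
  set κ := τ * δ' / (2 * C * C₁) with hκ
  have hκ0 : 0 < κ := by positivity
  obtain ⟨H₁, hH₁⟩ := ev_log κ hκ0
  obtain ⟨M₁, hM₁⟩ := ev_floor δ' hδ'0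
  obtain ⟨Xa, hXa⟩ := ev_floor δ₁ hδ₁0
  obtain ⟨Xb, hXb⟩ := ev_ge (δ / 2) (max (2 / η + 1) (max H₀ (max H₁ 2))) (by linarith)
  obtain ⟨Xc, hXc⟩ := ev_ge (1 / 4) (max 4 (max M₀ (max M₁ H₀))) (by norm_num)
  refine ⟨max Q₁ ⌈8 * Q₁ / η⌉₊, max Xa (max Xb (max Xc 2)), ?_⟩
  intro X hX α hα P H hP1 hP2 hH1 hH2
  have hXa' := hXa X (by omega)
  have hXb' := hXb X (by omega)
  have hXc' := hXc X (by omega)
  have hX2 : 2 ≤ X := by omega
  have hXr : (2 : ℝ) ≤ X := by exact_mod_cast hX2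
  have hX0 : (0 : ℝ) < X := by linarith
  have hX1 : (1 : ℝ) ≤ X := by linarith
  set L := Real.log X with hL
  have hL0 : 0 < L := Real.log_pos (by linarith)
  -- the fourth root
  set Y := (X : ℝ) ^ (1 / 4 : ℝ) with hY
  have hY4 : Y ^ 4 = X := by
    rw [hY, ← Real.rpow_natCast, ← Real.rpow_mul hX0.le]
    norm_num
  have hYge4 : 4 ≤ Y := (le_max_left _ _).trans hXc'
  have hYM₀ : (M₀ : ℝ) ≤ Y := ((le_max_left _ _).trans (le_max_right _ _)).trans hXc'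
  have hYM₁ : (M₁ : ℝ) ≤ Y :=
    (((le_max_left _ _).trans (le_max_right _ _)).trans (le_max_right _ _)).trans hXc'
  have hYH₀ : (H₀ : ℝ) ≤ Y :=
    (((le_max_right _ _).trans (le_max_right _ _)).trans (le_max_right _ _)).trans hXc'
  have hP2r : (P : ℝ) ^ 2 ≤ X := by exact_mod_cast hP2
  have hP0r : (0 : ℝ) ≤ P := Nat.cast_nonneg P
  have hPY : (P : ℝ) ≤ Y ^ 2 := by
    refine abs_le_of_sq_le_sq' (a := (P : ℝ)) ?_ (by positivity) |>.2
    calc (P : ℝ) ^ 2 ≤ X := hP2r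
      _ = (Y ^ 2) ^ 2 := by rw [← hY4]; ring
  -- size of H
  set W := (X : ℝ) ^ (δ / 2) with hW
  have hWη : 2 / η + 1 ≤ W := (le_max_left _ _).trans hXb'
  have hWH₀ : (H₀ : ℝ) ≤ W := ((le_max_left _ _).trans (le_max_right _ _)).trans hXb'
  have hWH₁ : (H₁ : ℝ) ≤ W :=
    (((le_max_left _ _).trans (le_max_right _ _)).trans (le_max_right _ _)).trans hXb'
  have hW2 : (2 : ℝ) ≤ W :=
    (((le_max_right _ _).trans (le_max_right _ _)).trans (le_max_right _ _)).trans hXb'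
  have hWsq : (X : ℝ) ^ δ = W * W := by
    rw [hW, ← Real.rpow_add hX0]
    congr 1
    ring
  have hPW : W * W < P + 1 := by
    rw [← hWsq]
    refine (Nat.lt_floor_add_one _).trans_le ?_
    exact_mod_cast Nat.succ_le_succ hP1
  have hHW : W ≤ H := by
    have e1 : η * (2 / η + 1) = 2 + η := by field_simp
    have e2 : 2 + η ≤ η * W := by rw [← e1]; exact mul_le_mul_of_nonneg_left hWη hη.le
    have e3 : η * (W * W - 1) ≤ η * P := mul_le_mul_of_nonneg_left (by linarith) hη.le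
    nlinarith
  have hH2n : 2 ≤ H := by exact_mod_cast hW2.trans hHW
  have hHH₀ : H₀ ≤ H := by exact_mod_cast hWH₀.trans hHW
  have hHH₁ : H₁ ≤ H := by exact_mod_cast hWH₁.trans hHW
  have hHr : (2 : ℝ) ≤ H := by exact_mod_cast hH2n
  have hlogH : δ / 2 * L ≤ Real.log H := by
    rw [hL, ← Real.log_rpow hX0]
    exact Real.log_le_log (by linarith) hHW
  have hlogH0 : 0 < Real.log H := Real.log_pos (by linarith)
  have hPpos : (0 : ℝ) < P := by
    have : 0 < η * P := by linarith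
    exact (mul_pos_iff_of_pos_left hη).mp this
  -- size of M
  set M := X / (P + H) with hM
  have hPH : (H : ℝ) ≤ P := hH2.trans (by nlinarith)
  have hMlt : (X : ℝ) < (P + H) * (M + 1) := by
    have : X < (P + H) * (X / (P + H) + 1) := by
      have h1 := Nat.div_add_mod X (P + H)
      have h2 := Nat.mod_lt X (show P + H > 0 by omega)
      rw [mul_add, mul_one]
      omega
    exact_mod_cast this
  have hMle : (M : ℝ) * (P + H) ≤ X := by
    have := Nat.div_mul_le_self X (P + H)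
    exact_mod_cast this
  have hY2 : (16 : ℝ) ≤ Y ^ 2 := by nlinarith
  have h4P : 4 * (P : ℝ) ≤ X := by
    rw [← hY4]
    calc 4 * (P : ℝ) ≤ 16 * Y ^ 2 := by linarith
      _ ≤ Y ^ 2 * Y ^ 2 := mul_le_mul_of_nonneg_right hY2 (by linarith)
      _ = Y ^ 4 := by ring
  have hM0r : (0 : ℝ) ≤ M := Nat.cast_nonneg M
  have hPM : (X : ℝ) ≤ 4 * P * M := by
    have : (X : ℝ) ≤ 2 * P * (M + 1) := by
      refine hMlt.le.trans ?_
      have : (P : ℝ) + H ≤ 2 * P := by linarith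
      exact mul_le_mul_of_nonneg_right this (by linarith)
    linarith
  have hMY : Y ≤ M := by
    have e1 : Y ^ 4 ≤ 4 * Y ^ 2 * M := by
      rw [hY4]
      refine hPM.trans ?_
      have := mul_le_mul_of_nonneg_right hPY hM0r
      linarith
    have e2 : Y ^ 2 ≤ 4 * M := by
      have : Y ^ 2 * Y ^ 2 ≤ Y ^ 2 * (4 * M) := by
        calc Y ^ 2 * Y ^ 2 = Y ^ 4 := by ring
          _ ≤ _ := e1
          _ = _ := by ring
      exact le_of_mul_le_mul_left this (by linarith)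
    nlinarith
  have hMM₀ : M₀ ≤ M := by exact_mod_cast hYM₀.trans hMY
  have hMM₁ : M₁ ≤ M := by exact_mod_cast hYM₁.trans hMY
  have hMH₀ : (H₀ : ℝ) ≤ M := hYH₀.trans hMY
  have hMr : (4 : ℝ) ≤ M := hYge4.trans hMY
  have hlogM : L / 4 ≤ Real.log M := by
    have : Real.log Y = L / 4 := by rw [hY, Real.log_rpow hX0]; ring
    rw [← this]
    exact Real.log_le_log (by linarith) hMY
  have hlogM0 : 0 < Real.log M := by linarith
  have hMX : (M : ℝ) ≤ X := by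
    have : X / (P + H) ≤ X := Nat.div_le_self _ _
    exact_mod_cast this
  have hHMle : (H : ℝ) * M ≤ X := by nlinarith
  have hHMge : η * X / 8 ≤ H * M := by
    have := mul_le_mul_of_nonneg_right hH1 hM0r
    nlinarith
  -- the sets
  set z := ⌊(X : ℝ) ^ δ₁⌋₊ with hz
  set z' := ⌊(M : ℝ) ^ δ'⌋₊ with hz'
  have hδ₁le : δ₁ ≤ δ := min_le_left _ _
  have hδ₁8 : δ₁ ≤ 1 / 8 := min_le_right _ _
  have hδ'le : δ' ≤ δ₁ := min_le_right _ _
  have hzP : z ≤ P := (Nat.floor_mono (Real.rpow_le_rpow_of_exponent_le hX1 hδ₁le)).trans hP1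
  have hz'P : z' ≤ P := by
    refine (Nat.floor_mono ?_).trans hP1
    calc (M : ℝ) ^ δ' ≤ (X : ℝ) ^ δ' := Real.rpow_le_rpow hM0r hMX hδ'0.le
      _ ≤ (X : ℝ) ^ δ := Real.rpow_le_rpow_of_exponent_le hX1 (hδ'le.trans hδ₁le)
  have hzM : z ≤ M := by
    have : (z : ℝ) ≤ M := by
      refine (Nat.floor_le (by positivity)).trans (le_trans ?_ hMY)
      exact Real.rpow_le_rpow_of_exponent_le hX1 (by linarith)
    exact_mod_cast this
  have hz'M : z' ≤ M := by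
    have : (z' : ℝ) ≤ M := by
      refine (Nat.floor_le (by positivity)).trans ?_
      calc (M : ℝ) ^ δ' ≤ (M : ℝ) ^ (1 : ℝ) :=
            Real.rpow_le_rpow_of_exponent_le (by linarith) (by linarith)
        _ = M := Real.rpow_one _
    exact_mod_cast this
  have hM₁' := hM₁ M hMM₁
  set B := (Finset.Icc 1 M).filter (Rough (P + H)) with hB
  set R := (Finset.Icc 1 M).filter (Rough z') with hR
  have hBR : B ⊆ R := by
    intro m hm
    rw [hB, Finset.mem_filter] at hm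
    rw [hR, Finset.mem_filter]
    exact ⟨hm.1, Rough.mono (by omega) hm.2⟩
  have hIcc : Finset.Icc 1 M = Finset.Ioc 0 (0 + M) := by
    ext x
    rw [Finset.mem_Icc, Finset.mem_Ioc]
    omega
  have hBcard : (B.card : ℝ) ≤ 2 * C * M / (δ₁ * L) := by
    have h1 : (B.card : ℝ) ≤ (((Finset.Ioc 0 (0 + M)).filter (Rough z)).card : ℝ) := by
      have : B ⊆ (Finset.Ioc 0 (0 + M)).filter (Rough z) := by
        intro m hm
        rw [hB, Finset.mem_filter, hIcc] at hm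
        rw [Finset.mem_filter]
        exact ⟨hm.1, Rough.mono (by omega) hm.2⟩
      exact_mod_cast Finset.card_le_card this
    refine h1.trans ((hRC z hXa'.1 0 M hzM).trans ?_)
    have h2 : 0 < δ₁ / 2 * L := by positivity
    calc C * M / Real.log z ≤ C * M / (δ₁ / 2 * L) := by
          gcongr
          exact hXa'.2
      _ = _ := by field_simp
  set U := 2 * C * M / (δ' * Real.log M) with hU
  have hU0 : 0 < U := by positivity
  have hRcard : (R.card : ℝ) ≤ U := by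
    have h1 : (R.card : ℝ) = (((Finset.Ioc 0 (0 + M)).filter (Rough z')).card : ℝ) := by
      rw [hR, hIcc]
    rw [h1]
    refine (hRC z' hM₁'.1 0 M hz'M).trans ?_
    have h2 : 0 < δ' / 2 * Real.log M := by positivity
    calc C * M / Real.log z' ≤ C * M / (δ' / 2 * Real.log M) := by
          gcongr
          exact hM₁'.2
      _ = _ := by rw [hU]; field_simp
  set u := ε₂ * M / Real.log M with hu
  have hu0 : 0 < u := by positivity
  set f : ℕ → ℝ := fun h => ‖∑ m ∈ R, e (α * (h : ℝ) * m)‖ with hf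
  have hfR : ∀ h, f h ≤ U := by
    intro h
    refine le_trans ?_ hRcard
    refine (norm_sum_le _ _).trans ?_
    rw [Finset.sum_congr rfl fun m _ => norm_e _]
    simp
  set D := (Finset.Icc 1 H).filter (fun h : ℕ => Major (max Q' 1) M (α * h)) with hD
  have hDcard : (D.card : ℝ) ≤ σ ^ 2 * H := by
    refine hBM H M α hHH₀ hMH₀ ?_
    intro hMaj
    apply hα
    refine Major.mono (le_max_left _ _) ?_ hMaj
    have h1 : (8 * Q₁ / η : ℝ) ≤ ((max Q₁ ⌈(8 * Q₁ / η : ℝ)⌉₊ : ℕ) : ℝ) :=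
      (Nat.le_ceil _).trans (by exact_mod_cast le_max_right _ _)
    have h2 : (0 : ℝ) < H * M := by positivity
    rw [div_le_div_iff₀ h2 hX0]
    calc (Q₁ : ℝ) * X = (8 * Q₁ / η) * (η * X / 8) := by field_simp
      _ ≤ _ := mul_le_mul h1 hHMge (by positivity) (Nat.cast_nonneg _)
  have hsum := hpairs P H hH2n f u U σ D (fun h => norm_nonneg _) hu0.le hU0.le hσ0.le
    (Finset.filter_subset _ _) hDcard (hfR 0) (fun h _ => hfR h) (by
      intro h hh hhD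
      refine hRE M hMM₀ (α * h) ?_
      intro hMaj
      apply hhD
      rw [hD, Finset.mem_filter]
      refine ⟨hh, Major.mono (le_max_left _ _) ?_ hMaj⟩
      gcongr
      exact le_max_left _ _)
  have hcs := cs_bound ((Finset.Ioc P (P + H)).filter Nat.Prime) B R hBR α
  have hH₁' := hH₁ H hHH₁
  -- final computation
  set T := ‖∑ p ∈ (Finset.Ioc P (P + H)).filter Nat.Prime, ∑ m ∈ B, e (α * ((p : ℝ) * (m : ℝ)))‖
    with hT
  have hT0 : 0 ≤ T := norm_nonneg _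
  have hfin : T ^ 2 ≤ (ε * X / L ^ 2) ^ 2 := by
    set lH := Real.log H with hlH
    set lM := Real.log M with hlM
    have hE : C₁ * H / lH * U + C₂ * H / lH ^ 2 * ((u + U * σ) * c₄ * H) ≤
        H ^ 2 * M / (lH ^ 2 * lM) * (3 * τ) := by
      have t1 : C₁ * H / lH * U ≤ H ^ 2 * M / (lH ^ 2 * lM) * τ := by
        have : C₁ * H / lH * U = H * M / (lH ^ 2 * lM) * (2 * C * C₁ / δ') * lH := by
          rw [hU]; field_simp
        rw [this]
        calc H * M / (lH ^ 2 * lM) * (2 * C * C₁ / δ') * lH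
            ≤ H * M / (lH ^ 2 * lM) * (2 * C * C₁ / δ') * (κ * H) :=
              mul_le_mul_of_nonneg_left hH₁' (by positivity)
          _ = _ := by rw [hκ]; field_simp
      have t2 : C₂ * H / lH ^ 2 * (u * c₄ * H) = H ^ 2 * M / (lH ^ 2 * lM) * τ := by
        rw [hu, hε₂]; field_simp
      have t3 : C₂ * H / lH ^ 2 * (U * σ * c₄ * H) = H ^ 2 * M / (lH ^ 2 * lM) * τ := by
        rw [hU, hσ]; field_simp
      calc _ = C₁ * H / lH * U + C₂ * H / lH ^ 2 * (u * c₄ * H) +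
            C₂ * H / lH ^ 2 * (U * σ * c₄ * H) := by ring
        _ ≤ H ^ 2 * M / (lH ^ 2 * lM) * τ + H ^ 2 * M / (lH ^ 2 * lM) * τ +
            H ^ 2 * M / (lH ^ 2 * lM) * τ := by rw [t2, t3]; linarith
        _ = _ := by ring
    have hden : (δ / 2 * L) ^ 2 * (L / 4) ≤ lH ^ 2 * lM := by gcongr
    calc T ^ 2 ≤ B.card * ∑ p ∈ (Finset.Ioc P (P + H)).filter Nat.Prime,
          ∑ q ∈ (Finset.Ioc P (P + H)).filter Nat.Prime, f (Nat.dist p q) := hcs
      _ ≤ (2 * C * M / (δ₁ * L)) * (H ^ 2 * M / (lH ^ 2 * lM) * (3 * τ)) := by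
          refine mul_le_mul hBcard (hsum.trans hE) ?_ (by positivity)
          exact Finset.sum_nonneg fun _ _ => Finset.sum_nonneg fun _ _ => norm_nonneg _
      _ = (H * M) ^ 2 * (6 * C * τ / (δ₁ * L)) / (lH ^ 2 * lM) := by ring
      _ ≤ X ^ 2 * (6 * C * τ / (δ₁ * L)) / ((δ / 2 * L) ^ 2 * (L / 4)) := by gcongr
      _ = (ε * X / L ^ 2) ^ 2 := by rw [hτ]; field_simp; ring
  exact abs_le_of_sq_le_sq' hfin (by positivity) |>.2

end Pool.Agent.Lib.GT.MA
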