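import Pool.Agent.Lib.MP_7b7e48_nt.GT.MinorBlock

/-!
# Goldbach-Turan, module MA: decomposition by the least prime factor
-/

open Finset

namespace Pool.Agent.Lib.GT.MA

theorem rough_one (z : ℕ) : Rough z 1 := by
  intro p hp hd
  exact absurd (Nat.dvd_one.mp hd) hp.one_lt.ne'

theorem minFac_mul_of_rough {p m : ℕ} (hp : p.Prime) (hm : Rough (p - 1) m) :
    (p * m).minFac = p := by
  have hp2 := hp.two_le
  have hne : p * m ≠ 1 := by
    intro h
    have := Nat.eq_one_of_mul_eq_one_right h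
    omega
  refine le_antisymm (Nat.minFac_le_of_dvd hp2 (Dvd.intro m rfl)) ?_
  have hmf := Nat.minFac_prime hne
  have hd := Nat.minFac_dvd (p * m)
  rcases (hmf.dvd_mul).mp hd with h | h
  · exact ((Nat.prime_dvd_prime_iff_eq hmf hp).mp h).ge
  · have := hm _ hmf h
    omega

/-- **Buchstab identity** (one step): `z`-rough numbers up to `X` are `1`, the primes in `(z, X]`, and the
products `p m` with `p` the least prime factor, `p ≤ N` where `(N + 1)² > X`. -/
theorem buchstab (g : ℕ → ℂ) (z N X : ℕ) (hX : 1 ≤ X) (hN : X < (N + 1) ^ 2) :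
    ∑ n ∈ (Finset.Icc 1 X).filter (Rough z), g n =
      g 1 + ∑ p ∈ (Finset.Ioc z X).filter Nat.Prime, g p +
      ∑ p ∈ (Finset.Ioc z N).filter Nat.Prime,
        ∑ m ∈ (Finset.Icc 2 (X / p)).filter (Rough (p - 1)), g (p * m) := by
  classical
  have hsplit : (Finset.Icc 1 X).filter (Rough z) =
      ({1} ∪ (Finset.Ioc z X).filter Nat.Prime) ∪
        ((Finset.Icc 2 X).filter (fun n => Rough z n ∧ ¬ n.Prime)) := by
    ext n
    simp only [Finset.mem_filter, Finset.mem_union, Finset.mem_singleton, Finset.mem_Icc,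
      Finset.mem_Ioc]
    constructor
    · rintro ⟨⟨h1, h2⟩, h3⟩
      by_cases hn1 : n = 1
      · exact Or.inl (Or.inl hn1)
      · by_cases hp : n.Prime
        · exact Or.inl (Or.inr ⟨⟨h3 n hp (dvd_refl n), h2⟩, hp⟩)
        · exact Or.inr ⟨⟨by omega, h2⟩, h3, hp⟩
    · rintro ((rfl | ⟨⟨h1, h2⟩, hp⟩) | ⟨⟨h1, h2⟩, h3, hp⟩)
      · exact ⟨⟨le_rfl, hX⟩, rough_one z⟩
      · refine ⟨⟨hp.one_lt.le, h2⟩, ?_⟩
        intro q hq hd
        rw [(Nat.prime_dvd_prime_iff_eq hq hp).mp hd]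
        exact h1
      · exact ⟨⟨by omega, h2⟩, h3⟩
  have hd1 : Disjoint ({1} : Finset ℕ) ((Finset.Ioc z X).filter Nat.Prime) := by
    rw [Finset.disjoint_left]
    intro a ha hb
    rw [Finset.mem_singleton] at ha
    rw [Finset.mem_filter, ha] at hb
    exact Nat.not_prime_one hb.2
  have hd2 : Disjoint ({1} ∪ (Finset.Ioc z X).filter Nat.Prime)
      ((Finset.Icc 2 X).filter (fun n => Rough z n ∧ ¬ n.Prime)) := by
    rw [Finset.disjoint_left]
    intro a ha hb
    rw [Finset.mem_union, Finset.mem_singleton, Finset.mem_filter] at ha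
    rw [Finset.mem_filter, Finset.mem_Icc] at hb
    rcases ha with h | h
    · omega
    · exact hb.2.2 h.2
  rw [hsplit, Finset.sum_union hd2, Finset.sum_union hd1, Finset.sum_singleton]
  congr 1
  rw [Finset.sum_sigma']
  symm
  refine Finset.sum_nbij' (fun x => x.1 * x.2) (fun n => ⟨n.minFac, n / n.minFac⟩) ?_ ?_ ?_ ?_ ?_
  · rintro ⟨p, m⟩ hx
    simp only [Finset.mem_sigma, Finset.mem_filter, Finset.mem_Ioc, Finset.mem_Icc] at hx
    obtain ⟨⟨⟨h1, h2⟩, hp⟩, ⟨h3, h4⟩, h5⟩ := hx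
    have hp2 := hp.two_le
    have hle : p * m ≤ X := by
      have := Nat.mul_le_of_le_div p m X h4
      rw [mul_comm]
      exact this
    show p * m ∈ _
    rw [Finset.mem_filter, Finset.mem_Icc]
    refine ⟨⟨by nlinarith, hle⟩, ?_, ?_⟩
    · intro q hq hd
      rcases (hq.dvd_mul).mp hd with h | h
      · rw [(Nat.prime_dvd_prime_iff_eq hq hp).mp h]
        exact h1
      · have := h5 q hq h
        omega
    · exact Nat.not_prime_mul (by omega) (by omega)
  · intro n hn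
    rw [Finset.mem_filter, Finset.mem_Icc] at hn
    obtain ⟨⟨h1, h2⟩, h3, h4⟩ := hn
    have hne : n ≠ 1 := by omega
    have hmf := Nat.minFac_prime hne
    have hmd := Nat.minFac_dvd n
    have hsq : n.minFac ^ 2 ≤ n := Nat.minFac_sq_le_self (by omega) h4
    simp only [Finset.mem_sigma, Finset.mem_filter, Finset.mem_Ioc, Finset.mem_Icc]
    have hmN : n.minFac ≤ N := by
      by_contra hc
      push Not at hc
      have : (N + 1) ^ 2 ≤ n.minFac ^ 2 := Nat.pow_le_pow_left hc 2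
      omega
    refine ⟨⟨⟨h3 _ hmf hmd, hmN⟩, hmf⟩, ⟨?_, ?_⟩, ?_⟩
    · have h5 : n.minFac ≤ n / n.minFac := by
        rw [Nat.le_div_iff_mul_le hmf.pos]
        rw [← sq]
        exact hsq
      exact hmf.two_le.trans h5
    · exact Nat.div_le_div_right h2
    · intro q hq hd
      have : q ∣ n := hd.trans (Nat.div_dvd_of_dvd hmd)
      have := Nat.minFac_le_of_dvd hq.two_le this
      have := hmf.two_le
      omega
  · rintro ⟨p, m⟩ hx
    simp only [Finset.mem_sigma, Finset.mem_filter, Finset.mem_Ioc, Finset.mem_Icc] at hx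
    obtain ⟨⟨⟨h1, h2⟩, hp⟩, ⟨h3, h4⟩, h5⟩ := hx
    have hmf := minFac_mul_of_rough hp h5
    show (⟨(p * m).minFac, p * m / (p * m).minFac⟩ : Σ _ : ℕ, ℕ) = ⟨p, m⟩
    rw [hmf, Nat.mul_div_cancel_left m hp.pos]
  · intro n hn
    show n.minFac * (n / n.minFac) = n
    exact Nat.mul_div_cancel' (Nat.minFac_dvd n)
  · rintro ⟨p, m⟩ _
    rfl

end Pool.Agent.Lib.GT.MA
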