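import Pool.Agent.Lib.MP_7b7e48_nt.GT.Defs
import Pool.Agent.Lib.Sieve.TupleSieve
import Pool.Agent.Lib.Sieve.SingularAverage
import Pool.Agent.Lib.MP_092512_nt.MultAvg

/-!
# Goldbach-Turan, module MA: the Cauchy-Schwarz step

`‖∑_{p ∈ S} ∑_{m ∈ B} e(α p m)‖² ≤ #B ∑_{p,p' ∈ S} ‖∑_{m ∈ R} e(α |p - p'| m)‖` for `B ⊆ R`, and the
counting of prime pairs with a given difference.
-/

open Finset

namespace Pool.Agent.Lib.GT.MA

theorem conj_e (x : ℝ) : (starRingEnd ℂ) (e x) = e (-x) := by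
  unfold e
  rw [← Complex.exp_conj]
  congr 1
  simp only [map_mul, Complex.conj_I, Complex.conj_ofReal, map_ofNat]
  push_cast
  ring

theorem norm_sum_e_neg (R : Finset ℕ) (θ : ℝ) :
    ‖∑ m ∈ R, e (-θ * m)‖ = ‖∑ m ∈ R, e (θ * m)‖ := by
  rw [← Complex.norm_conj (∑ m ∈ R, e (θ * m)), map_sum]
  congr 1
  refine Finset.sum_congr rfl fun m _ => ?_
  rw [conj_e]
  congr 1
  ring

/-- `‖∑_{m ∈ R} e (α (p - p') m)‖` depends only on `|p - p'|` -/
theorem norm_sum_dist (R : Finset ℕ) (α : ℝ) (p q : ℕ) :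
    ‖∑ m ∈ R, e (α * ((p : ℝ) - q) * m)‖ = ‖∑ m ∈ R, e (α * ((Nat.dist p q : ℕ) : ℝ) * m)‖ := by
  rcases le_total p q with h | h
  · rw [Nat.dist_eq_sub_of_le h, Nat.cast_sub h]
    rw [show α * ((p : ℝ) - q) = -(α * ((q : ℝ) - p)) by ring]
    exact norm_sum_e_neg R _
  · rw [Nat.dist_eq_sub_of_le_right h, Nat.cast_sub h]

theorem cs_expand (S R : Finset ℕ) (α : ℝ) :
    ∑ m ∈ R, ‖∑ p ∈ S, e (α * ((p : ℝ) * (m : ℝ)))‖ ^ 2 ≤
      ∑ p ∈ S, ∑ q ∈ S, ‖∑ m ∈ R, e (α * ((Nat.dist p q : ℕ) : ℝ) * m)‖ := by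
  have h1 : ((∑ m ∈ R, ‖∑ p ∈ S, e (α * ((p : ℝ) * (m : ℝ)))‖ ^ 2 : ℝ) : ℂ) =
      ∑ p ∈ S, ∑ q ∈ S, ∑ m ∈ R, e (α * ((p : ℝ) - q) * m) := by
    push_cast
    have h2 : ∀ m ∈ R, ((‖∑ p ∈ S, e (α * ((p : ℝ) * (m : ℝ)))‖ : ℝ) : ℂ) ^ 2 =
        ∑ p ∈ S, ∑ q ∈ S, e (α * ((p : ℝ) - q) * m) := by
      intro m _
      rw [← Complex.mul_conj']
      rw [map_sum, Finset.sum_mul_sum]
      refine Finset.sum_congr rfl fun p _ => Finset.sum_congr rfl fun q _ => ?_
      rw [conj_e, ← e_add]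
      congr 1
      ring
    rw [Finset.sum_congr rfl h2, Finset.sum_comm]
    refine Finset.sum_congr rfl fun p _ => ?_
    rw [Finset.sum_comm]
  have h3 : ‖((∑ m ∈ R, ‖∑ p ∈ S, e (α * ((p : ℝ) * (m : ℝ)))‖ ^ 2 : ℝ) : ℂ)‖ =
      ∑ m ∈ R, ‖∑ p ∈ S, e (α * ((p : ℝ) * (m : ℝ)))‖ ^ 2 := by
    rw [Complex.norm_real, Real.norm_of_nonneg]
    exact Finset.sum_nonneg fun m _ => by positivity
  rw [← h3, h1]
  refine (norm_sum_le _ _).trans (Finset.sum_le_sum fun p _ => ?_)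
  refine (norm_sum_le _ _).trans (Finset.sum_le_sum fun q _ => ?_)
  rw [norm_sum_dist]

theorem cs_bound (S B R : Finset ℕ) (hBR : B ⊆ R) (α : ℝ) :
    ‖∑ p ∈ S, ∑ m ∈ B, e (α * ((p : ℝ) * (m : ℝ)))‖ ^ 2 ≤
      B.card * ∑ p ∈ S, ∑ q ∈ S, ‖∑ m ∈ R, e (α * ((Nat.dist p q : ℕ) : ℝ) * m)‖ := by
  rw [Finset.sum_comm]
  have h1 : ‖∑ m ∈ B, ∑ p ∈ S, e (α * ((p : ℝ) * (m : ℝ)))‖ ^ 2 ≤
      (∑ m ∈ B, ‖∑ p ∈ S, e (α * ((p : ℝ) * (m : ℝ)))‖) ^ 2 :=
    pow_le_pow_left₀ (norm_nonneg _) (norm_sum_le _ _) 2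
  have h2 := sq_sum_le_card_mul_sum_sq (s := B)
    (f := fun m => ‖∑ p ∈ S, e (α * ((p : ℝ) * (m : ℝ)))‖)
  have h3 : ∑ m ∈ B, ‖∑ p ∈ S, e (α * ((p : ℝ) * (m : ℝ)))‖ ^ 2 ≤
      ∑ m ∈ R, ‖∑ p ∈ S, e (α * ((p : ℝ) * (m : ℝ)))‖ ^ 2 :=
    Finset.sum_le_sum_of_subset_of_nonneg hBR fun m _ _ => by positivity
  calc _ ≤ _ := h1
    _ ≤ _ := h2
    _ ≤ _ := mul_le_mul_of_nonneg_left (h3.trans (cs_expand S R α)) (Nat.cast_nonneg _)

/-- grouping a double sum over `S × S` by the distance -/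
theorem sum_dist (S : Finset ℕ) (P H : ℕ) (hS : S ⊆ Finset.Ioc P (P + H)) (f : ℕ → ℝ)
    (N : ℕ → ℝ) (hf : ∀ h, 0 ≤ f h)
    (hN : ∀ h ∈ Finset.Icc 1 H,
      (((S ×ˢ S).filter (fun x => Nat.dist x.1 x.2 = h)).card : ℝ) ≤ N h) :
    ∑ p ∈ S, ∑ q ∈ S, f (Nat.dist p q) ≤ S.card * f 0 + ∑ h ∈ Finset.Icc 1 H, N h * f h := by
  rw [← Finset.sum_product']
  have hmap : ∀ x ∈ S ×ˢ S, Nat.dist x.1 x.2 ∈ Finset.range (H + 1) := by
    intro x hx
    rw [Finset.mem_product] at hx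
    have h1 := Finset.mem_Ioc.mp (hS hx.1)
    have h2 := Finset.mem_Ioc.mp (hS hx.2)
    rw [Finset.mem_range]
    unfold Nat.dist
    omega
  rw [← Finset.sum_fiberwise_of_maps_to hmap]
  have hfib : ∀ h, ∑ x ∈ (S ×ˢ S) with Nat.dist x.1 x.2 = h, f (Nat.dist x.1 x.2) =
      (((S ×ˢ S).filter (fun x => Nat.dist x.1 x.2 = h)).card : ℝ) * f h := by
    intro h
    rw [Finset.sum_congr rfl (g := fun _ => f h), Finset.sum_const, nsmul_eq_mul]
    intro x hx
    rw [(Finset.mem_filter.mp hx).2]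
  rw [Finset.sum_congr rfl fun h _ => hfib h, Finset.sum_range_succ']
  rw [add_comm]
  have h0 : (((S ×ˢ S).filter (fun x => Nat.dist x.1 x.2 = 0)).card : ℝ) ≤ S.card := by
    have : ((S ×ˢ S).filter (fun x => Nat.dist x.1 x.2 = 0)) ⊆ S.image (fun x => (x, x)) := by
      intro x hx
      rw [Finset.mem_filter, Finset.mem_product] at hx
      rw [Finset.mem_image]
      refine ⟨x.1, hx.1.1, ?_⟩
      have := Nat.eq_of_dist_eq_zero hx.2
      exact Prod.ext rfl this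
    exact_mod_cast (Finset.card_le_card this).trans Finset.card_image_le
  refine add_le_add (mul_le_mul_of_nonneg_right h0 (hf 0)) ?_
  have hre : ∑ h ∈ Finset.Icc 1 H, N h * f h = ∑ k ∈ Finset.range H, N (k + 1) * f (k + 1) := by
    rw [Finset.range_eq_Ico, Finset.sum_Ico_add' (fun k => N k * f k) 0 H 1]
    rfl
  rw [hre]
  refine Finset.sum_le_sum fun k hk => mul_le_mul_of_nonneg_right ?_ (hf _)
  refine hN (k + 1) ?_
  rw [Finset.mem_range] at hk
  rw [Finset.mem_Icc]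
  omega

/-- number of primes in an interval -/
theorem prime_count : ∃ C : ℝ, 0 < C ∧ ∀ P H : ℕ, 2 ≤ H →
    (((Finset.Ioc P (P + H)).filter Nat.Prime).card : ℝ) ≤ C * H / Real.log H := by
  obtain ⟨C, hC, h⟩ := Pool.Agent.Lib.Sieve.tuple_sieve 1 le_rfl
  refine ⟨C, hC, fun P H hH => ?_⟩
  have h1 := h H (fun _ => P) 1 hH one_ne_zero ?_ ?_
  · simp only [Nat.cast_one, Nat.totient_one, div_one, mul_one, pow_one] at h1
    refine le_trans ?_ h1
    have hsub : (Finset.Ioc P (P + H)).filter Nat.Prime ⊆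
        ((Finset.Icc 1 H).filter (fun n => ∀ _i : Fin 1, (n + P).Prime)).image (fun n => n + P) := by
      intro p hp
      rw [Finset.mem_filter, Finset.mem_Ioc] at hp
      rw [Finset.mem_image]
      refine ⟨p - P, ?_, by omega⟩
      rw [Finset.mem_filter, Finset.mem_Icc]
      refine ⟨by omega, fun _ => ?_⟩
      rw [show p - P + P = p by omega]
      exact hp.2
    exact_mod_cast (Finset.card_le_card hsub).trans Finset.card_image_le
  · intro p hp hp1
    have := hp.two_le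
    omega
  · intro i j hij
    exact absurd (Subsingleton.elim i j) hij

/-- number of pairs of primes with a given difference in an interval -/
theorem pair_count : ∃ C : ℝ, 0 < C ∧ ∀ P H h : ℕ, 2 ≤ H → 1 ≤ h →
    (((((Finset.Ioc P (P + H)).filter Nat.Prime) ×ˢ ((Finset.Ioc P (P + H)).filter Nat.Prime)).filter
      (fun x => Nat.dist x.1 x.2 = h)).card : ℝ) ≤
      C * H / (Real.log H) ^ 2 * (((2 * h : ℕ) : ℝ) / (Nat.totient (2 * h) : ℝ)) ^ 2 := by
  obtain ⟨C, hC, hT⟩ := Pool.Agent.Lib.Sieve.tuple_sieve 2 (by norm_num)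
  refine ⟨2 * C, by positivity, fun P H h hH hh => ?_⟩
  have h1 := hT H ![P, P + h] (2 * h) hH (by omega) ?_ ?_
  · set A := (Finset.Icc 1 H).filter (fun n => ∀ i, (n + ![P, P + h] i).Prime) with hA
    have hsub : (((Finset.Ioc P (P + H)).filter Nat.Prime) ×ˢ
        ((Finset.Ioc P (P + H)).filter Nat.Prime)).filter (fun x => Nat.dist x.1 x.2 = h) ⊆
        A.image (fun n => (n + P, n + (P + h))) ∪ A.image (fun n => (n + (P + h), n + P)) := by
      intro x hx
      rw [Finset.mem_filter, Finset.mem_product, Finset.mem_filter, Finset.mem_filter,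
        Finset.mem_Ioc, Finset.mem_Ioc] at hx
      obtain ⟨⟨⟨h1, h1p⟩, h2, h2p⟩, hd⟩ := hx
      unfold Nat.dist at hd
      rw [Finset.mem_union, Finset.mem_image, Finset.mem_image]
      rcases le_total x.1 x.2 with hle | hle
      · left
        refine ⟨x.1 - P, ?_, ?_⟩
        · rw [hA, Finset.mem_filter, Finset.mem_Icc]
          refine ⟨by omega, ?_⟩
          intro i
          fin_cases i
          · show (x.1 - P + P).Prime
            rw [show x.1 - P + P = x.1 by omega]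
            exact h1p
          · show (x.1 - P + (P + h)).Prime
            rw [show x.1 - P + (P + h) = x.2 by omega]
            exact h2p
        · refine Prod.ext ?_ ?_
          · show x.1 - P + P = x.1
            omega
          · show x.1 - P + (P + h) = x.2
            omega
      · right
        refine ⟨x.2 - P, ?_, ?_⟩
        · rw [hA, Finset.mem_filter, Finset.mem_Icc]
          refine ⟨by omega, ?_⟩
          intro i
          fin_cases i
          · show (x.2 - P + P).Prime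
            rw [show x.2 - P + P = x.2 by omega]
            exact h2p
          · show (x.2 - P + (P + h)).Prime
            rw [show x.2 - P + (P + h) = x.1 by omega]
            exact h1p
        · refine Prod.ext ?_ ?_
          · show x.2 - P + (P + h) = x.1
            omega
          · show x.2 - P + P = x.2
            omega
    have hcard : ((((Finset.Ioc P (P + H)).filter Nat.Prime) ×ˢ
        ((Finset.Ioc P (P + H)).filter Nat.Prime)).filter
        (fun x => Nat.dist x.1 x.2 = h)).card ≤ 2 * A.card := by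
      refine (Finset.card_le_card hsub).trans ((Finset.card_union_le _ _).trans ?_)
      have e1 := Finset.card_image_le (s := A) (f := fun n => (n + P, n + (P + h)))
      have e2 := Finset.card_image_le (s := A) (f := fun n => (n + (P + h), n + P))
      omega
    have hcard' : (((((Finset.Ioc P (P + H)).filter Nat.Prime) ×ˢ
        ((Finset.Ioc P (P + H)).filter Nat.Prime)).filter
        (fun x => Nat.dist x.1 x.2 = h)).card : ℝ) ≤ 2 * A.card := by exact_mod_cast hcard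
    refine hcard'.trans ((mul_le_mul_of_nonneg_left h1 (by norm_num)).trans (le_of_eq ?_))
    ring
  · intro p hp hp2
    have h2 := hp.two_le
    have : p = 2 := by omega
    rw [this]
    exact Dvd.intro h rfl
  · intro i j hij p hp hpe
    have hkey : (h : ZMod p) = 0 := by
      fin_cases i <;> fin_cases j
      · exact absurd rfl hij
      · simp only [Fin.zero_eta, Matrix.cons_val_zero, Fin.mk_one, Matrix.cons_val_one,
          Nat.cast_add] at hpe
        have := hpe.symm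
        simpa using this
      · simp only [Fin.zero_eta, Matrix.cons_val_zero, Fin.mk_one, Matrix.cons_val_one,
          Nat.cast_add] at hpe
        simpa using hpe
      · exact absurd rfl hij
    exact ((ZMod.natCast_eq_zero_iff h p).mp hkey).mul_left 2

/-- fourth moment of `2h/φ(2h)` -/
theorem phi_moment : ∃ C : ℝ, 0 < C ∧ ∀ H : ℕ,
    ∑ h ∈ Finset.Icc 1 H, ((((2 * h : ℕ) : ℝ) / (Nat.totient (2 * h) : ℝ)) ^ 2) ^ 2 ≤ C * H := by
  refine ⟨2 * Real.exp (4 * 2 ^ 4), by positivity, fun H => ?_⟩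
  have h1 := Pool.Agent.Lib.MP_092512_nt.sum_yf_pow_le 4 0 (2 * H)
  have h2 : ∀ n ∈ Finset.Icc 1 (2 * H), ((n : ℝ) / (Nat.totient n : ℝ)) ^ 4 =
      (∏ p ∈ n.primeFactors with 0 < p, Pool.Agent.Lib.MP_092512_nt.yf p) ^ 4 := by
    intro n hn
    rw [Finset.mem_Icc] at hn
    rw [Pool.Agent.Lib.Sieve.div_totient_eq_prod_inv n (by omega)]
    congr 1
    rw [Finset.filter_true_of_mem fun p hp => (Nat.prime_of_mem_primeFactors hp).pos]
    rfl
  rw [← Finset.sum_congr rfl h2] at h1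
  have h3 : ∑ h ∈ Finset.Icc 1 H, ((((2 * h : ℕ) : ℝ) / (Nat.totient (2 * h) : ℝ)) ^ 2) ^ 2 =
      ∑ n ∈ (Finset.Icc 1 H).image (fun h : ℕ => 2 * h), ((n : ℝ) / (Nat.totient n : ℝ)) ^ 4 := by
    rw [Finset.sum_image]
    · refine Finset.sum_congr rfl fun h _ => ?_
      ring
    · intro a _ b _ hab
      have : 2 * a = 2 * b := hab
      omega
  rw [h3]
  refine (Finset.sum_le_sum_of_subset_of_nonneg ?_ fun n _ _ => by positivity).trans
    (h1.trans (le_of_eq ?_))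
  · intro n hn
    rw [Finset.mem_image] at hn
    obtain ⟨a, ha, rfl⟩ := hn
    rw [Finset.mem_Icc] at ha ⊢
    omega
  · push_cast
    rw [zero_add, div_one]
    ring

end Pool.Agent.Lib.GT.MA
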