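import Pool.Agent.Lib.MP_7b7e48_nt.GT.MinorBuchstab

/-!
# Goldbach-Turan, module MA: replacing the sets `B(p)` by a common set in a short block
-/

open Finset

namespace Pool.Agent.Lib.GT.MA

theorem norm_sum_sub_sum_le (A B : Finset ℕ) (g : ℕ → ℂ) (hg : ∀ n, ‖g n‖ ≤ 1) :
    ‖∑ m ∈ A, g m - ∑ m ∈ B, g m‖ ≤ (A \ B).card + (B \ A).card := by
  rw [← Finset.sum_sdiff_sub_sum_sdiff]
  refine (norm_sub_le _ _).trans (add_le_add ?_ ?_)
  · refine (norm_sum_le _ _).trans ((Finset.sum_le_sum fun m _ => hg m).trans ?_)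
    simp
  · refine (norm_sum_le _ _).trans ((Finset.sum_le_sum fun m _ => hg m).trans ?_)
    simp

/-- rough numbers up to `K`, also for `K < z` -/
theorem rough_card_le (C : ℝ) (hC : 0 < C) (hRC : ∀ z : ℕ, 2 ≤ z → ∀ A L : ℕ, z ≤ L →
    (((Finset.Ioc A (A + L)).filter (Rough z)).card : ℝ) ≤ C * L / Real.log z) (z K : ℕ)
    (hz : 2 ≤ z) : (((Finset.Icc 1 K).filter (Rough z)).card : ℝ) ≤ 1 + C * K / Real.log z := by
  have hlz : 0 ≤ Real.log z := Real.log_natCast_nonneg z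
  rcases le_or_gt z K with h | h
  · have h1 := hRC z hz 0 K h
    have hIcc : Finset.Icc 1 K = Finset.Ioc 0 (0 + K) := by
      ext x
      rw [Finset.mem_Icc, Finset.mem_Ioc]
      omega
    rw [hIcc]
    linarith
  · have h1 : (Finset.Icc 1 K).filter (Rough z) ⊆ {1} := by
      intro k hk
      rw [Finset.mem_filter, Finset.mem_Icc] at hk
      rw [Finset.mem_singleton]
      by_contra hne
      have hmf := Nat.minFac_prime hne
      have h2 := hk.2 _ hmf (Nat.minFac_dvd k)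
      have h3 := Nat.minFac_le (n := k) (by omega)
      omega
    have h2 : (((Finset.Icc 1 K).filter (Rough z)).card : ℝ) ≤ 1 := by
      exact_mod_cast (Finset.card_le_card h1).trans (by simp)
    have h3 : 0 ≤ C * K / Real.log z := by positivity
    linarith

theorem diff_card (X z P H p La : ℕ) (hz : z ≤ P) (hP : 1 ≤ P)
    (hp : p ∈ (Finset.Ioc P (P + H)).filter Nat.Prime) (hLa : X / p ≤ X / (P + H) + La) :
    ((Finset.Icc 2 (X / p)).filter (Rough (p - 1)) \
      (Finset.Icc 1 (X / (P + H))).filter (Rough (P + H))).card +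
    ((Finset.Icc 1 (X / (P + H))).filter (Rough (P + H)) \
      (Finset.Icc 2 (X / p)).filter (Rough (p - 1))).card ≤
    ((Finset.Ioc (X / (P + H)) (X / (P + H) + La)).filter (Rough z)).card +
      ((Finset.Ioc P (P + H)).filter Nat.Prime).card *
        ((Finset.Icc 1 (X / (P * P))).filter (Rough z)).card + 1 := by
  classical
  rw [Finset.mem_filter, Finset.mem_Ioc] at hp
  obtain ⟨⟨hp1, hp2⟩, hpp⟩ := hp
  set S := (Finset.Ioc P (P + H)).filter Nat.Prime with hS
  set R := (Finset.Icc 1 (X / (P * P))).filter (Rough z) with hR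
  have h1 : ((Finset.Icc 1 (X / (P + H))).filter (Rough (P + H)) \
      (Finset.Icc 2 (X / p)).filter (Rough (p - 1))).card ≤ 1 := by
    have : (Finset.Icc 1 (X / (P + H))).filter (Rough (P + H)) \
      (Finset.Icc 2 (X / p)).filter (Rough (p - 1)) ⊆ {1} := by
      intro m hm
      rw [Finset.mem_sdiff, Finset.mem_filter, Finset.mem_filter, Finset.mem_Icc,
        Finset.mem_Icc] at hm
      obtain ⟨⟨⟨h1, h2⟩, h3⟩, h4⟩ := hm
      rw [Finset.mem_singleton]
      by_contra hne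
      apply h4
      refine ⟨⟨by omega, h2.trans (Nat.div_le_div_left hp2 hpp.pos)⟩, Rough.mono (by omega) h3⟩
    exact (Finset.card_le_card this).trans (by simp)
  have h2 : ((Finset.Icc 2 (X / p)).filter (Rough (p - 1)) \
      (Finset.Icc 1 (X / (P + H))).filter (Rough (P + H))) ⊆
      (Finset.Ioc (X / (P + H)) (X / (P + H) + La)).filter (Rough z) ∪
        S.biUnion (fun r => R.image (fun k => r * k)) := by
    intro m hm
    rw [Finset.mem_sdiff, Finset.mem_filter, Finset.mem_filter, Finset.mem_Icc,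
      Finset.mem_Icc] at hm
    obtain ⟨⟨⟨h1, h2⟩, h3⟩, h4⟩ := hm
    rw [Finset.mem_union, Finset.mem_filter, Finset.mem_Ioc, Finset.mem_biUnion]
    by_cases hc : m ≤ X / (P + H)
    · right
      have hnr : ¬ Rough (P + H) m := fun h => h4 ⟨⟨by omega, hc⟩, h⟩
      unfold Rough at hnr
      push Not at hnr
      obtain ⟨r, hr, hrd, hrle⟩ := hnr
      have hrp := h3 r hr hrd
      refine ⟨r, ?_, ?_⟩
      · rw [hS, Finset.mem_filter, Finset.mem_Ioc]
        exact ⟨⟨by omega, hrle⟩, hr⟩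
      · rw [Finset.mem_image]
        refine ⟨m / r, ?_, Nat.mul_div_cancel' hrd⟩
        rw [hR, Finset.mem_filter, Finset.mem_Icc]
        refine ⟨⟨?_, ?_⟩, ?_⟩
        · exact Nat.div_pos (Nat.le_of_dvd (by omega) hrd) hr.pos
        · rw [← Nat.div_div_eq_div_mul]
          calc m / r ≤ m / P := Nat.div_le_div_left (by omega) hP
            _ ≤ X / P / P := by
              refine Nat.div_le_div_right (hc.trans (Nat.div_le_div_left (by omega) hP))
        · intro q hq hqd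
          have := h3 q hq (hqd.trans (Nat.div_dvd_of_dvd hrd))
          omega
    · left
      push Not at hc
      exact ⟨⟨hc, h2.trans hLa⟩, Rough.mono (by omega) h3⟩
  have h3 : (S.biUnion (fun r => R.image (fun k => r * k))).card ≤ S.card * R.card := by
    refine Finset.card_biUnion_le_card_mul _ _ _ fun r _ => Finset.card_image_le
  have h4 := (Finset.card_le_card h2).trans (Finset.card_union_le _ _)
  omega

/-- replacing `B(p)` by the common set costs `O(η² X / log² X)` per block -/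
theorem block_diff (hRC : RoughCount) : ∃ C₅ : ℝ, 0 < C₅ ∧ ∀ (δ η : ℝ), 0 < δ → δ ≤ 1 / 4 → 0 < η →
    η ≤ 1 → ∃ X₀ : ℕ, ∀ X : ℕ, X₀ ≤ X → ∀ (α : ℝ) (P H : ℕ), ⌊(X : ℝ) ^ δ⌋₊ ≤ P → P ^ 2 ≤ X →
      η * P / 2 ≤ H → (H : ℝ) ≤ η * P →
      ‖∑ p ∈ (Finset.Ioc P (P + H)).filter Nat.Prime,
        ∑ m ∈ (Finset.Icc 2 (X / p)).filter (Rough (p - 1)), e (α * ((p : ℝ) * (m : ℝ))) -
       ∑ p ∈ (Finset.Ioc P (P + H)).filter Nat.Prime,
        ∑ m ∈ (Finset.Icc 1 (X / (P + H))).filter (Rough (P + H)), e (α * ((p : ℝ) * (m : ℝ)))‖ ≤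
        C₅ * η ^ 2 * X / (δ ^ 2 * (Real.log X) ^ 2) := by
  obtain ⟨C, hC, hRC⟩ := hRC
  obtain ⟨C₁, hC₁, hpc⟩ := prime_count
  refine ⟨8 * C * C₁ + 8 * C₁ ^ 2 + 8 * C₁ ^ 2 * C, by positivity, ?_⟩
  intro δ η hδ hδ4 hη hη1
  obtain ⟨Xa, hXa⟩ := ev_floor δ hδ
  obtain ⟨Xb, hXb⟩ := ev_ge (δ / 2) (2 / η + 1) (by linarith)
  obtain ⟨Xc, hXc⟩ := ev_ge (1 / 4) (1 / η) (by norm_num)
  obtain ⟨Xd, hXd⟩ := ev_ge δ (Real.exp 1) hδ
  refine ⟨max Xa (max Xb (max Xc (max Xd 2))), ?_⟩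
  intro X hX α P H hP1 hP2 hH1 hH2
  have hXa' := hXa X (by omega)
  have hXb' := hXb X (by omega)
  have hXc' := hXc X (by omega)
  have hXd' := hXd X (by omega)
  have hX2 : 2 ≤ X := by omega
  have hXr : (2 : ℝ) ≤ X := by exact_mod_cast hX2
  have hX0 : (0 : ℝ) < X := by linarith
  have hX1 : (1 : ℝ) ≤ X := by linarith
  set L := Real.log X with hL
  have hL0 : 0 < L := Real.log_pos (by linarith)
  have hδL : 1 ≤ δ * L := by
    rw [hL, ← Real.log_rpow hX0, ← Real.log_exp 1]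
    exact Real.log_le_log (Real.exp_pos 1) hXd'
  set W := (X : ℝ) ^ (δ / 2) with hW
  have hW1 : (1 : ℝ) ≤ W := by
    have : 0 < 2 / η := by positivity
    linarith
  have hWsq : (X : ℝ) ^ δ = W * W := by
    rw [hW, ← Real.rpow_add hX0]
    congr 1
    ring
  have hPW : W * W < P + 1 := by
    rw [← hWsq]
    refine (Nat.lt_floor_add_one _).trans_le ?_
    exact_mod_cast Nat.succ_le_succ hP1
  have hHW : W ≤ H := by
    have e1 : η * (2 / η + 1) = 2 + η := by field_simp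
    have e2 : 2 + η ≤ η * W := by rw [← e1]; exact mul_le_mul_of_nonneg_left hXb' hη.le
    have e3 : η * (W * W - 1) ≤ η * P := mul_le_mul_of_nonneg_left (by linarith) hη.le
    nlinarith
  have hW3 : (3 : ℝ) ≤ W := by
    have : 2 ≤ 2 / η := by rw [le_div_iff₀ hη]; linarith
    linarith
  have hH2n : 2 ≤ H := by
    have : (2 : ℝ) ≤ H := by linarith
    exact_mod_cast this
  have hHr : (2 : ℝ) ≤ H := by exact_mod_cast hH2n
  have hlogH : δ / 2 * L ≤ Real.log H := by
    rw [hL, ← Real.log_rpow hX0]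
    exact Real.log_le_log (by linarith) hHW
  have hPpos : (0 : ℝ) < P := by
    have : 0 < η * P := by linarith
    exact (mul_pos_iff_of_pos_left hη).mp this
  have hP1n : 1 ≤ P := by exact_mod_cast hPpos
  have hP2r : (P : ℝ) ^ 2 ≤ X := by exact_mod_cast hP2
  set z := ⌊(X : ℝ) ^ δ⌋₊ with hz
  have hz2 := hXa'.1
  have hlogz : δ / 2 * L ≤ Real.log z := hXa'.2
  have hlogz0 : 0 < Real.log z := by
    have : 0 < δ / 2 * L := by positivity
    linarith
  -- the length
  set La := ⌊η * X / P⌋₊ + 1 with hLa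
  set Y := (X : ℝ) ^ (1 / 4 : ℝ) with hY
  have hY4 : Y ^ 4 = X := by
    rw [hY, ← Real.rpow_natCast, ← Real.rpow_mul hX0.le]
    norm_num
  have hY0 : 0 < Y := by positivity
  have hηY : 1 ≤ η * Y := by
    have := mul_le_mul_of_nonneg_left hXc' hη.le
    rwa [mul_one_div_cancel hη.ne'] at this
  have hPY : (P : ℝ) ≤ Y ^ 2 := by
    refine abs_le_of_sq_le_sq' (a := (P : ℝ)) ?_ (by positivity) |>.2
    calc (P : ℝ) ^ 2 ≤ X := hP2r
      _ = (Y ^ 2) ^ 2 := by rw [← hY4]; ring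
  have hYle : Y ≤ η * X / P := by
    rw [le_div_iff₀ hPpos, ← hY4]
    calc Y * P ≤ Y * Y ^ 2 := mul_le_mul_of_nonneg_left hPY hY0.le
      _ = 1 * Y ^ 3 := by ring
      _ ≤ (η * Y) * Y ^ 3 := mul_le_mul_of_nonneg_right hηY (by positivity)
      _ = η * Y ^ 4 := by ring
  have hzLa : z ≤ La := by
    have h1 : z ≤ ⌊η * X / P⌋₊ := by
      refine Nat.floor_mono ?_
      refine le_trans ?_ hYle
      exact Real.rpow_le_rpow_of_exponent_le hX1 hδ4
    omega
  have hY1 : 1 ≤ Y := by nlinarith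
  have hLale : (La : ℝ) ≤ 2 * (η * X / P) := by
    rw [hLa]
    push_cast
    have h1 : (⌊η * X / P⌋₊ : ℝ) ≤ η * X / P := Nat.floor_le (by positivity)
    linarith
  set S := (Finset.Ioc P (P + H)).filter Nat.Prime with hS
  set n := (S.card : ℝ) with hn
  have hn0 : 0 ≤ n := Nat.cast_nonneg _
  have hnsq : n ≤ n ^ 2 := by
    rw [hn]
    exact_mod_cast Nat.le_self_pow two_ne_zero _
  have hnle : n ≤ 2 * C₁ * η * P / (δ * L) := by
    refine (hpc P H hH2n).trans ?_
    have h2 : 0 < δ / 2 * L := by positivity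
    calc C₁ * H / Real.log H ≤ C₁ * (η * P) / (δ / 2 * L) := by gcongr
      _ = _ := by field_simp
  set K := X / (P * P) with hK
  have hKle : (K : ℝ) ≤ X / (P * P) := by
    have := Nat.cast_div_le (α := ℝ) (m := X) (n := P * P)
    push_cast at this
    exact this
  set a := (((Finset.Ioc (X / (P + H)) (X / (P + H) + La)).filter (Rough z)).card : ℝ) with ha
  have ha1 : a ≤ C * (2 * (η * X / P)) / (δ / 2 * L) := by
    refine (hRC z hz2 _ La hzLa).trans ?_
    have h2 : 0 < δ / 2 * L := by positivity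
    gcongr
  set b := (((Finset.Icc 1 K).filter (Rough z)).card : ℝ) with hb
  have hb1 : b ≤ 1 + C * (X / (P * P)) / (δ / 2 * L) := by
    refine (rough_card_le C hC hRC z K hz2).trans ?_
    have h2 : 0 < δ / 2 * L := by positivity
    gcongr
  -- pointwise
  have hpt : ∀ p ∈ S, ‖∑ m ∈ (Finset.Icc 2 (X / p)).filter (Rough (p - 1)),
        e (α * ((p : ℝ) * (m : ℝ))) -
      ∑ m ∈ (Finset.Icc 1 (X / (P + H))).filter (Rough (P + H)), e (α * ((p : ℝ) * (m : ℝ)))‖ ≤
      a + n * b + 1 := by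
    intro p hp
    refine (norm_sum_sub_sum_le _ _ _ fun m => (norm_e _).le).trans ?_
    have hp' := hp
    rw [hS, Finset.mem_filter, Finset.mem_Ioc] at hp'
    obtain ⟨⟨hp1, hp2⟩, hpp⟩ := hp'
    have hdiv : X / p ≤ X / (P + H) + La := by
      have h1 : ((X / p : ℕ) : ℝ) ≤ X / P := by
        refine Nat.cast_div_le.trans ?_
        have : (P : ℝ) ≤ p := by exact_mod_cast hp1.le
        gcongr
      have h2 : (X : ℝ) / (P + H) < ((X / (P + H) : ℕ) : ℝ) + 1 := by
        rw [div_lt_iff₀ (by positivity)]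
        have : X < (X / (P + H) + 1) * (P + H) := by
          have h1 := Nat.div_add_mod X (P + H)
          have h2 := Nat.mod_lt X (show P + H > 0 by omega)
          rw [add_mul, one_mul, mul_comm]
          omega
        exact_mod_cast this
      have h3 : (X : ℝ) / P - X / (P + H) ≤ η * X / P := by
        rw [div_sub_div _ _ hPpos.ne' (by positivity), div_le_div_iff₀ (by positivity) hPpos]
        have e1 : (X : ℝ) * (P + H) - P * X = X * H := by ring
        rw [e1]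
        have e2 : (H : ℝ) * P ≤ η * P * (P + H) := by
          have : 0 ≤ η * P * H := by positivity
          nlinarith
        calc (X : ℝ) * H * P = X * (H * P) := by ring
          _ ≤ X * (η * P * (P + H)) := mul_le_mul_of_nonneg_left e2 hX0.le
          _ = _ := by ring
      have h4 : (η * X / P : ℝ) < (⌊η * X / P⌋₊ : ℝ) + 1 := Nat.lt_floor_add_one _
      have h5 : ((X / p : ℕ) : ℝ) < ((X / (P + H) : ℕ) : ℝ) + (⌊η * X / P⌋₊ : ℝ) + 2 := by linarith
      have h6 : X / p < X / (P + H) + ⌊η * X / P⌋₊ + 2 := by exact_mod_cast h5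
      omega
    have := diff_card X z P H p La hP1 hP1n hp hdiv
    have h' : (((Finset.Icc 2 (X / p)).filter (Rough (p - 1)) \
      (Finset.Icc 1 (X / (P + H))).filter (Rough (P + H))).card : ℝ) +
      (((Finset.Icc 1 (X / (P + H))).filter (Rough (P + H)) \
      (Finset.Icc 2 (X / p)).filter (Rough (p - 1))).card : ℝ) ≤ a + n * b + 1 := by
      rw [ha, hn, hb]
      exact_mod_cast this
    exact h'
  rw [← Finset.sum_sub_distrib]
  refine (norm_sum_le _ _).trans ((Finset.sum_le_sum hpt).trans ?_)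
  rw [Finset.sum_const, nsmul_eq_mul, ← hn]
  have hstep : n * (a + n * b + 1) ≤ n * (C * (2 * (η * X / P)) / (δ / 2 * L)) +
      n ^ 2 * (2 + C * (X / (P * P)) / (δ / 2 * L)) := by
    have e1 := mul_le_mul_of_nonneg_left ha1 hn0
    have e2 := mul_le_mul_of_nonneg_left hb1 (sq_nonneg n)
    nlinarith
  refine hstep.trans ?_
  have hN0 : 0 ≤ 2 * C₁ * η * P / (δ * L) := by positivity
  have hn2 : n ^ 2 ≤ (2 * C₁ * η * P / (δ * L)) ^ 2 := pow_le_pow_left₀ hn0 hnle 2
  have t1 : n * (C * (2 * (η * X / P)) / (δ / 2 * L)) ≤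
      8 * C * C₁ * (η ^ 2 * X / (δ ^ 2 * L ^ 2)) := by
    refine (mul_le_mul_of_nonneg_right hnle (by positivity)).trans (le_of_eq ?_)
    field_simp
    ring
  have t2 : n ^ 2 * 2 ≤ 8 * C₁ ^ 2 * (η ^ 2 * X / (δ ^ 2 * L ^ 2)) := by
    calc n ^ 2 * 2 ≤ (2 * C₁ * η * P / (δ * L)) ^ 2 * 2 :=
          mul_le_mul_of_nonneg_right hn2 (by norm_num)
      _ = 8 * C₁ ^ 2 * (η ^ 2 * (P : ℝ) ^ 2 / (δ ^ 2 * L ^ 2)) := by field_simp; ring
      _ ≤ _ := by gcongr
  have t3 : n ^ 2 * (C * (X / (P * P)) / (δ / 2 * L)) ≤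
      8 * C₁ ^ 2 * C * (η ^ 2 * X / (δ ^ 2 * L ^ 2)) := by
    calc n ^ 2 * (C * (X / (P * P)) / (δ / 2 * L))
        ≤ (2 * C₁ * η * P / (δ * L)) ^ 2 * (C * (X / (P * P)) / (δ / 2 * L)) :=
          mul_le_mul_of_nonneg_right hn2 (by positivity)
      _ = 8 * C₁ ^ 2 * C * (η ^ 2 * X / (δ ^ 2 * L ^ 2)) / (δ * L) := by field_simp; ring
      _ ≤ 8 * C₁ ^ 2 * C * (η ^ 2 * X / (δ ^ 2 * L ^ 2)) / 1 := by gcongr
      _ = _ := div_one _
  calc n * (C * (2 * (η * X / P)) / (δ / 2 * L)) + n ^ 2 * (2 + C * (X / (P * P)) / (δ / 2 * L))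
      = n * (C * (2 * (η * X / P)) / (δ / 2 * L)) + n ^ 2 * 2 +
        n ^ 2 * (C * (X / (P * P)) / (δ / 2 * L)) := by ring
    _ ≤ 8 * C * C₁ * (η ^ 2 * X / (δ ^ 2 * L ^ 2)) + 8 * C₁ ^ 2 * (η ^ 2 * X / (δ ^ 2 * L ^ 2)) +
        8 * C₁ ^ 2 * C * (η ^ 2 * X / (δ ^ 2 * L ^ 2)) := add_le_add (add_le_add t1 t2) t3
    _ = _ := by ring

end Pool.Agent.Lib.GT.MA
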