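import Pool.Agent.Lib.MP_7b7e48_nt.GT.RobustMain
import Pool.Agent.Lib.MP_7b7e48_nt.TwinAverage
import Pool.Agent.Lib.Sieve.Mertens3

/-!
# Robust Goldbach with the exact constant: constants, local lower bound, window count
-/

open Finset Filter Topology Pool.Agent.Lib.GT Pool.Agent.Lib.GT.LA

namespace Pool.Agent.Lib.GT.Robust

open Pool.Agent.Lib.MP_7b7e48_nt (twinPartial exists_twin half_le_twinPartial twinPartial_antitone)

/-- the twin prime constant -/
noncomputable def C2 : ℝ := ⨅ z : ℕ, twinPartial z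

lemma C2_le (z : ℕ) : C2 ≤ twinPartial z :=
  ciInf_le ⟨1 / 2, by rintro _ ⟨z, rfl⟩; exact half_le_twinPartial z⟩ z

lemma half_le_C2 : 1 / 2 ≤ C2 := le_ciInf half_le_twinPartial

lemma C2_pos : 0 < C2 := lt_of_lt_of_le (by norm_num) half_le_C2

lemma C2_le_one : C2 ≤ 1 := by
  have h := C2_le 0
  unfold twinPartial at h
  simpa using h

lemma tendsto_C2 : Tendsto twinPartial atTop (𝓝 C2) :=
  tendsto_atTop_ciInf twinPartial_antitone
    ⟨1 / 2, by rintro _ ⟨z, rfl⟩; exact half_le_twinPartial z⟩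

/-- local main term with the twin prime constant -/
lemma local_twin {w N : ℕ} (hw : 2 ≤ w) (hN : Even N) :
    2 * C2 * (Wp w).totient ≤ ∑ c ∈ (range (Wp w)).filter (fun c => c.Coprime (Wp w)),
      ell (pr w) N c := by
  have hP : ∀ p ∈ pr w, p.Prime := fun p hp => (mem_pr.mp hp).2
  have hV := V_pos w
  -- product formula
  have h1 : ∑ c ∈ range (Wp w), Lw w c * ell (pr w) N c =
      ∏ p ∈ pr w, ∑ a ∈ range p, uf p a * el p N a := by
    rw [← sum_prod_period (pr w) hP (fun p a => uf p a * el p N a)]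
    refine Finset.sum_congr rfl fun c _ => ?_
    rw [Lw_eq_prod]
    unfold ell
    rw [← Finset.prod_mul_distrib]
    refine Finset.prod_congr rfl fun p _ => ?_
    rw [uf_mod]
    unfold el
    rw [Nat.mod_mod]
  have h2 : ∏ p ∈ pr w, ((p : ℝ) * (if p = 2 then 2 else 1) *
      (if 2 < p then (1 - 1 / ((p : ℝ) - 1) ^ 2) else 1)) ≤
      ∏ p ∈ pr w, ∑ a ∈ range p, uf p a * el p N a := by
    refine Finset.prod_le_prod ?_ ?_
    · intro p hp
      have h3 : (2 : ℝ) ≤ p := by exact_mod_cast (hP p hp).two_le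
      have h4 : (0 : ℝ) ≤ if p = 2 then (2 : ℝ) else 1 := by split_ifs <;> norm_num
      have h5 : (0 : ℝ) ≤ if 2 < p then (1 - 1 / ((p : ℝ) - 1) ^ 2) else 1 := by
        split_ifs
        · have : 1 / ((p : ℝ) - 1) ^ 2 ≤ 1 := by
            rw [div_le_one (by nlinarith)]; nlinarith
          linarith
        · norm_num
      positivity
    · intro p hp
      have hpp := hP p hp
      rcases eq_or_ne p 2 with rfl | h
      · rw [if_pos rfl, if_neg (by norm_num), Finset.sum_range_succ, Finset.sum_range_succ,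
          Finset.sum_range_zero]
        unfold uf el
        have hN2 : N % 2 = 0 := Nat.even_iff.mp hN
        rw [hN2]
        norm_num
      · have hp3 : 3 ≤ p := by
          have := hpp.two_le
          omega
        have hp3R : (3 : ℝ) ≤ p := by exact_mod_cast hp3
        rw [if_neg h, if_pos (by omega)]
        have hp1 : (p : ℝ) - 1 ≠ 0 := by linarith
        have hp0 : (p : ℝ) ≠ 0 := by linarith
        have h4 : ∀ a ∈ range p, ((p : ℝ) / (p - 1)) ^ 2 *
            (1 - (if a = 0 then 1 else 0) - (if a = N % p then 1 else 0)) ≤ uf p a * el p N a := by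
          intro a ha
          rw [mem_range] at ha
          unfold uf el
          rw [Nat.mod_eq_of_lt ha]
          have hinv : (1 - 1 / (p : ℝ))⁻¹ = (p : ℝ) / (p - 1) := by
            field_simp
          rw [hinv]
          have hq : (0 : ℝ) ≤ ((p : ℝ) / (p - 1)) ^ 2 := sq_nonneg _
          by_cases h5 : a = 0
          · rw [if_pos h5, if_pos h5]
            have : (0 : ℝ) ≤ if a = N % p then (1 : ℝ) else 0 := by split_ifs <;> norm_num
            nlinarith
          · rw [if_neg h5, if_neg h5]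
            by_cases h6 : a = N % p
            · rw [if_pos h6, if_pos h6.symm]
              linarith
            · rw [if_neg h6, if_neg (fun h7 => h6 h7.symm)]
              apply le_of_eq
              ring
        refine le_trans ?_ (Finset.sum_le_sum h4)
        rw [← Finset.mul_sum, Finset.sum_sub_distrib, Finset.sum_sub_distrib, Finset.sum_const,
          card_range, Finset.sum_ite_eq', Finset.sum_ite_eq', if_pos (mem_range.mpr (by omega)),
          if_pos (mem_range.mpr (Nat.mod_lt _ (by omega))), nsmul_eq_mul]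
        apply le_of_eq
        field_simp
        ring
  have h3 : ∏ p ∈ pr w, ((p : ℝ) * (if p = 2 then 2 else 1) *
      (if 2 < p then (1 - 1 / ((p : ℝ) - 1) ^ 2) else 1)) = Wp w * 2 * twinPartial (w + 1) := by
    rw [Finset.prod_mul_distrib, Finset.prod_mul_distrib, Finset.prod_ite_eq',
      if_pos (mem_pr.mpr ⟨hw, Nat.prime_two⟩)]
    congr 1
    · unfold Wp
      push_cast
      rfl
    · unfold twinPartial
      rw [Finset.prod_filter]
      rfl
  have h4 : ∑ x ∈ range (Wp w), Lw w x * ell (pr w) N x =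
      (V w)⁻¹ * ∑ c ∈ (range (Wp w)).filter (fun c => c.Coprime (Wp w)), ell (pr w) N c := by
    rw [Finset.sum_filter, Finset.mul_sum]
    refine Finset.sum_congr rfl fun x hx => ?_
    unfold Lw
    by_cases h3 : Rough w x
    · rw [if_pos h3, if_pos (rough_iff_coprime.mp h3)]
    · rw [if_neg h3, if_neg (fun h4 => h3 (rough_iff_coprime.mpr h4))]
      ring
  rw [h3, ← h1, h4] at h2
  rw [← div_eq_inv_mul, le_div_iff₀ hV] at h2
  rw [totient_Wp]
  have h5 := C2_le (w + 1)
  have h6 : (0 : ℝ) ≤ Wp w * V w := by positivity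
  calc 2 * C2 * (Wp w * V w) ≤ 2 * twinPartial (w + 1) * (Wp w * V w) :=
        mul_le_mul_of_nonneg_right (by linarith) h6
    _ = Wp w * 2 * twinPartial (w + 1) * V w := by ring
    _ ≤ _ := h2

/-- lower bound for `lam * Lw` with the twin prime constant -/
theorem main_lower_twin {w : ℕ} (hw : 2 ≤ w) {κ : ℝ} (hκ : 0 < κ) : ∃ N₀ : ℕ, ∀ N : ℕ, N₀ ≤ N →
    Even N → (1 - κ) * (2 * C2) * N ≤ ∑ x ∈ range (N + 1), lam x * Lw w (N - x) := by
  have hC2 := C2_pos
  rcases le_or_gt 1 κ with hκ1 | hκ1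
  · refine ⟨0, fun N _ _ => ?_⟩
    refine le_trans (mul_nonpos_of_nonpos_of_nonneg ?_ (Nat.cast_nonneg N)) ?_
    · exact mul_nonpos_of_nonpos_of_nonneg (by linarith) (by positivity)
    · exact Finset.sum_nonneg fun x _ => mul_nonneg (lam_nonneg x) (Lw_nonneg _ _)
  have hWp := Wp_pos w
  have htot : (0 : ℝ) < (Wp w).totient := by exact_mod_cast Nat.totient_pos.mpr hWp
  have h1 : ∀ᶠ N : ℕ in Filter.atTop, ∀ c ∈ (range (Wp w)).filter (fun c => c.Coprime (Wp w)),
      (1 - κ) * N / (Wp w).totient ≤ ∑ n ∈ Finset.Icc 1 N with n % Wp w = c, lam n := by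
    rw [Filter.eventually_all_finset]
    intro c hc
    rw [Finset.mem_filter, Finset.mem_range] at hc
    have h2 := pnt_ap (Wp w) c hWp hc.2
    have h3 : (1 - κ) / ((Wp w).totient : ℝ) < 1 / ((Wp w).totient : ℝ) :=
      div_lt_div_of_pos_right (by linarith) htot
    filter_upwards [h2.eventually_const_lt h3, Filter.eventually_gt_atTop 0] with N hN hN0
    rw [Nat.mod_eq_of_lt hc.1] at hN
    have hNR : (0 : ℝ) < N := by exact_mod_cast hN0
    rw [lt_div_iff₀ hNR] at hN
    calc (1 - κ) * N / (Wp w).totient = (1 - κ) / (Wp w).totient * N := by ring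
      _ ≤ _ := hN.le
  obtain ⟨N₀, hN₀⟩ := Filter.eventually_atTop.mp h1
  refine ⟨N₀, fun N hN hE => ?_⟩
  have hNa := hN₀ N hN
  have h2 : ∑ x ∈ Finset.Icc 1 N, lam x * Lw w (N - x) ≤
      ∑ x ∈ range (N + 1), lam x * Lw w (N - x) := by
    refine Finset.sum_le_sum_of_subset_of_nonneg ?_
      fun x _ _ => mul_nonneg (lam_nonneg x) (Lw_nonneg _ _)
    intro x hx
    rw [Finset.mem_Icc] at hx
    rw [Finset.mem_range]
    omega
  refine le_trans ?_ h2
  have h3 : ∑ x ∈ Finset.Icc 1 N, lam x * Lw w (N - x) =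
      ∑ c ∈ range (Wp w), ell (pr w) N c * ∑ n ∈ Finset.Icc 1 N with n % Wp w = c, lam n := by
    have h4 := Finset.sum_fiberwise_of_maps_to (s := Finset.Icc 1 N) (t := range (Wp w))
      (g := fun x => x % Wp w) (fun x _ => mem_range.mpr (Nat.mod_lt _ hWp))
      (fun x => lam x * Lw w (N - x))
    rw [← h4]
    refine Finset.sum_congr rfl fun c _ => ?_
    rw [Finset.mul_sum]
    refine Finset.sum_congr rfl fun x hx => ?_
    rw [Finset.mem_filter, Finset.mem_Icc] at hx
    rw [Lw_sub_eq hx.1.2, ell_congr (P := pr w) (N := N) (x := x) (y := c), mul_comm]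
    intro p hp
    rw [← hx.2, Nat.mod_mod_of_dvd _ (dvd_Wp hp)]
  rw [h3]
  have h4 : ∑ c ∈ (range (Wp w)).filter (fun c => c.Coprime (Wp w)),
      ell (pr w) N c * ((1 - κ) * N / (Wp w).totient) ≤
      ∑ c ∈ range (Wp w), ell (pr w) N c * ∑ n ∈ Finset.Icc 1 N with n % Wp w = c, lam n := by
    refine le_trans (Finset.sum_le_sum fun c hc => mul_le_mul_of_nonneg_left (hNa c hc)
      (ell_nonneg (fun p hp => (mem_pr.mp hp).2.two_le) N c)) ?_
    refine Finset.sum_le_sum_of_subset_of_nonneg (Finset.filter_subset _ _) fun c _ _ => ?_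
    exact mul_nonneg (ell_nonneg (fun p hp => (mem_pr.mp hp).2.two_le) N c)
      (Finset.sum_nonneg fun n _ => lam_nonneg n)
  refine le_trans ?_ h4
  rw [← Finset.sum_mul]
  have h5 := local_twin hw hE
  have h6 : (0 : ℝ) ≤ (1 - κ) * N / (Wp w).totient := by
    apply div_nonneg (mul_nonneg (by linarith) (Nat.cast_nonneg N)) htot.le
  calc (1 - κ) * (2 * C2) * N = (2 * C2 * ((Wp w).totient : ℝ)) *
        ((1 - κ) * N / (Wp w).totient) := by
        field_simp
    _ ≤ _ := mul_le_mul_of_nonneg_right h5 h6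

/-- the moment count in a window `[A, A + L)` below `Z` -/
theorem window_count {K k w : ℕ} (hK : 2 ≤ K) (hKw : K ≤ w) : ∃ Z₀ : ℕ, ∀ L : ℕ, Z₀ ≤ L →
    ∀ A Z : ℕ, L ≤ Z → A + L ≤ Z + 1 →
    ∀ f : ℕ → ℝ, (∀ n, 0 ≤ f n) → (∀ n, f n ≤ lam n) → (∀ n, Z < n → f n = 0) →
    ∀ τ : ℝ, 0 < τ →
    (((Finset.Ico A (A + L)).filter
      (fun N => τ ≤ ∑ x ∈ Finset.range (N + 1), f x * Lw w (N - x))).card : ℝ) ≤
      2 * L * (((V K)⁻¹ * (∑ x ∈ Finset.Icc 1 Z, f x + 2 * Z * (Real.exp (2 * k / K) - 1))) / τ)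
        ^ k := by
  have hPp : ∀ p ∈ prI K w, p.Prime := fun p hp => (mem_prI.mp hp).2.2
  obtain ⟨X₁, hX₁⟩ := class_bound (prI K w) hPp
  refine ⟨max (max X₁ (∏ p ∈ prI K w, p)) 1, fun L hL A Z hLZ hALZ f hf0 hfl hfs τ' hτ' => ?_⟩
  have hX1 : X₁ ≤ Z := ((le_max_left _ _).trans ((le_max_left _ _).trans hL)).trans hLZ
  have hX2 : (∏ p ∈ prI K w, p) ≤ L := (le_max_right _ _).trans ((le_max_left _ _).trans hL)
  have hX3 : 1 ≤ L := (le_max_right _ _).trans hL
  have hXR : (0 : ℝ) < Z := by exact_mod_cast hX3.trans hLZ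
  have hVpos : 0 < (V K)⁻¹ := inv_pos.mpr (V_pos K)
  have hV := V_pos K
  have hWpos : 0 < ∏ p ∈ prI K w, p := Finset.prod_pos fun p hp => (hPp p hp).pos
  set s : Finset ℕ := Finset.Icc 1 Z with hs
  set Y : ℝ := ∑ x ∈ s, f x + 2 * Z * (Real.exp (2 * k / K) - 1) with hYdef
  have hexp : (0 : ℝ) ≤ Real.exp (2 * k / K) - 1 := by
    have := Real.one_le_exp (show (0 : ℝ) ≤ 2 * k / K by positivity)
    linarith
  have hY0 : 0 ≤ Y := add_nonneg (Finset.sum_nonneg fun x _ => hf0 x) (by positivity)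
  -- moment bound
  have hYT : ∀ T : ℕ → Finset ℕ, (∀ p ∈ prI K w, T p ⊆ range p ∧ (T p).card ≤ k) →
      ∑ x ∈ s, f x * ∏ p ∈ prI K w, (if x % p ∈ T p then (1 - 1 / (p : ℝ))⁻¹ else 1) ≤ Y := by
    intro T hT
    have h1 := class_to_Y hPp (s := s) (f := f) (fun x _ => hf0 x) (M := 2 * Z) (by positivity)
      (k := k) (by
        intro D hD _ t
        refine le_trans (Finset.sum_le_sum fun x _ => hfl x) ?_
        exact hX₁ Z hX1 D hD t) T hT
    refine h1.trans ?_
    rw [hYdef]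
    have h2 := prod_tail_le hK w k
    have h3 : 2 * (Z : ℝ) * (∏ p ∈ prI K w, (1 + k / ((p : ℝ) - 1) ^ 2) - 1) ≤
        2 * Z * (Real.exp (2 * k / K) - 1) :=
      mul_le_mul_of_nonneg_left (by linarith) (by positivity)
    linarith
  have hmom := moment_period hPp (s := s) (f := f) (fun x _ => hf0 x) hYT
  -- Markov
  have hg0 : ∀ n, 0 ≤ ∑ x ∈ s, f x * ell (prI K w) n x := fun n =>
    Finset.sum_nonneg fun x _ => mul_nonneg (hf0 x)
      (ell_nonneg (fun p hp => (hPp p hp).two_le) n x)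
  have hper : ∀ n, ∑ x ∈ s, f x * ell (prI K w) (n + ∏ p ∈ prI K w, p) x =
      ∑ x ∈ s, f x * ell (prI K w) n x := by
    intro n
    refine Finset.sum_congr rfl fun x _ => ?_
    rw [ell_mod (fun p hp => Finset.dvd_prod_of_mem _ hp)]
  set τ : ℝ := τ' * V K with hτdef
  have hτ : 0 < τ := by positivity
  have hmk := markov_interval hWpos hg0 hper (k := k) (B := Y ^ k) hτ hmom (A := A)
    (L := L) hX2
  have hcard : (((Finset.Ico A (A + L)).filter
      (fun N => τ' ≤ ∑ x ∈ Finset.range (N + 1), f x * Lw w (N - x))).card : ℝ) ≤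
      (((Finset.Ico A (A + L)).filter
        (fun N => τ ≤ ∑ x ∈ s, f x * ell (prI K w) N x)).card : ℝ) := by
    have hsub : (Finset.Ico A (A + L)).filter
      (fun N => τ' ≤ ∑ x ∈ Finset.range (N + 1), f x * Lw w (N - x)) ⊆
      (Finset.Ico A (A + L)).filter
        (fun N => τ ≤ ∑ x ∈ s, f x * ell (prI K w) N x) := by
      intro N hN
      rw [Finset.mem_filter, Finset.mem_Ico] at hN
      rw [Finset.mem_filter, Finset.mem_Ico]
      refine ⟨hN.1, ?_⟩
      have h1 : ∑ x ∈ Finset.range (N + 1), f x * Lw w (N - x) ≤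
          (V K)⁻¹ * ∑ x ∈ s, f x * ell (prI K w) N x := by
        rw [Finset.mul_sum]
        calc ∑ x ∈ Finset.range (N + 1), f x * Lw w (N - x)
            ≤ ∑ x ∈ Finset.range (N + 1), (V K)⁻¹ * (f x * ell (prI K w) N x) := by
              refine Finset.sum_le_sum fun x hx => ?_
              rw [Finset.mem_range] at hx
              have h2 := Lw_le_ell (K := K) hKw (show x ≤ N by omega)
              calc f x * Lw w (N - x) ≤ f x * ((V K)⁻¹ * ell (prI K w) N x) :=
                    mul_le_mul_of_nonneg_left h2 (hf0 x)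
                _ = _ := by ring
          _ ≤ ∑ x ∈ s, (V K)⁻¹ * (f x * ell (prI K w) N x) := by
              have h3 : ∑ x ∈ Finset.range (N + 1), (V K)⁻¹ * (f x * ell (prI K w) N x) =
                  ∑ x ∈ (Finset.range (N + 1)).filter (fun x => x ∈ s),
                    (V K)⁻¹ * (f x * ell (prI K w) N x) := by
                symm
                refine Finset.sum_subset (Finset.filter_subset _ _) fun x hx hx' => ?_
                rw [Finset.mem_range] at hx
                rw [Finset.mem_filter, Finset.mem_range, hs, Finset.mem_Icc] at hx'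
                have hf00 : f x = 0 := by
                  rcases Nat.eq_zero_or_pos x with rfl | hx0
                  · have h4 := hfl 0
                    have h5 := hf0 0
                    rw [lam_zero] at h4
                    linarith
                  · exact hfs x (by
                      by_contra h7
                      exact hx' ⟨hx, hx0, by omega⟩)
                rw [hf00]
                ring
              rw [h3]
              refine Finset.sum_le_sum_of_subset_of_nonneg ?_ ?_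
              · intro x hx
                rw [Finset.mem_filter] at hx
                exact hx.2
              · intro x _ _
                exact mul_nonneg hVpos.le (mul_nonneg (hf0 x)
                  (ell_nonneg (fun p hp => (hPp p hp).two_le) N x))
      have h2 : τ' ≤ (V K)⁻¹ * ∑ x ∈ s, f x * ell (prI K w) N x := hN.2.trans h1
      rw [hτdef]
      rw [inv_mul_eq_div, le_div_iff₀ hV] at h2
      exact h2
    exact_mod_cast Finset.card_le_card hsub
  refine hcard.trans (hmk.trans (le_of_eq ?_))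
  rw [← div_pow]
  congr 2
  rw [hτdef, inv_mul_eq_div, div_div, mul_comm τ' (V K)]

/-- `V K * log K → exp (-γ)` -/
lemma V_log_tendsto : Tendsto (fun z : ℕ => Real.log z * V z) atTop
    (𝓝 (Real.exp (-Real.eulerMascheroniConstant))) :=
  Pool.Agent.Lib.Sieve.Mertens3.mertens_three

/-- prime number theorem, weighted -/
lemma pnt_theta : Tendsto (fun N : ℕ => (∑ n ∈ Finset.Icc 1 N, lam n) / N) atTop (𝓝 1) := by
  have h := pnt_ap 1 0 one_pos (by norm_num)
  simpa [Nat.mod_one] using h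

lemma sum_lam_eq_log (y : ℕ) : ∑ n ∈ Finset.Icc 1 y, lam n =
    ∑ n ∈ (Finset.Icc 1 y).filter Nat.Prime, Real.log n := by
  rw [Finset.sum_filter]
  rfl

lemma primeCounting_eq_card (y : ℕ) :
    Nat.primeCounting y = ((Finset.Icc 1 y).filter Nat.Prime).card := by
  rw [Nat.primeCounting, Nat.primeCounting', Nat.count_eq_card_filter_range]
  congr 1
  ext p
  rw [Finset.mem_filter, Finset.mem_filter, Finset.mem_range, Finset.mem_Icc]
  constructor
  · rintro ⟨h1, h2⟩; exact ⟨⟨h2.one_le, by omega⟩, h2⟩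
  · rintro ⟨⟨_, h1⟩, h2⟩; exact ⟨by omega, h2⟩

/-- from logarithmic weights to counting: for every set of primes -/
lemma card_mul_log_le {κ : ℝ} (hκ0 : 0 < κ) (hκ1 : κ < 1) {y : ℕ} (hy : 1 ≤ y) (S : Finset ℕ)
    (hS : ∀ p ∈ S, p.Prime ∧ p ≤ y) :
    (1 - κ) * (S.card : ℝ) * Real.log y ≤ ∑ p ∈ S, Real.log p +
      (y : ℝ) ^ (1 - κ) * Real.log y := by
  classical
  have hyR : (1 : ℝ) ≤ y := by exact_mod_cast hy
  have hlog : 0 ≤ Real.log y := Real.log_nonneg hyR
  set T : Finset ℕ := S.filter (fun p : ℕ => (p : ℝ) ≤ (y : ℝ) ^ (1 - κ)) with hT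
  have h1 : (T.card : ℝ) ≤ (y : ℝ) ^ (1 - κ) := by
    have h2 : T ⊆ Finset.Icc 1 ⌊(y : ℝ) ^ (1 - κ)⌋₊ := by
      intro p hp
      rw [hT, Finset.mem_filter] at hp
      rw [Finset.mem_Icc]
      exact ⟨(hS p hp.1).1.one_le, Nat.le_floor hp.2⟩
    have h3 := Finset.card_le_card h2
    rw [Nat.card_Icc] at h3
    have h4 : (T.card : ℝ) ≤ ⌊(y : ℝ) ^ (1 - κ)⌋₊ := by exact_mod_cast (by omega : T.card ≤ _)
    exact h4.trans (Nat.floor_le (by positivity))
  have h2 : ∀ p ∈ S \ T, (1 - κ) * Real.log y ≤ Real.log p := by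
    intro p hp
    rw [Finset.mem_sdiff, hT, Finset.mem_filter] at hp
    have h3 : (y : ℝ) ^ (1 - κ) < p := by
      by_contra h4
      exact hp.2 ⟨hp.1, not_lt.mp h4⟩
    calc (1 - κ) * Real.log y = Real.log ((y : ℝ) ^ (1 - κ)) := by
          rw [Real.log_rpow (by linarith)]
      _ ≤ Real.log p := Real.log_le_log (by positivity) h3.le
  have h3 : ((S \ T).card : ℝ) * ((1 - κ) * Real.log y) ≤ ∑ p ∈ S \ T, Real.log p := by
    rw [← nsmul_eq_mul]
    exact Finset.card_nsmul_le_sum _ _ _ h2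
  have h4 : ∑ p ∈ S \ T, Real.log p ≤ ∑ p ∈ S, Real.log (p : ℝ) :=
    Finset.sum_le_sum_of_subset_of_nonneg Finset.sdiff_subset
      fun p _ _ => Real.log_natCast_nonneg p
  have h5 : S.card ≤ T.card + (S \ T).card := by
    rw [← Finset.card_sdiff_add_card_inter S T]
    have : (S ∩ T).card ≤ T.card := Finset.card_le_card Finset.inter_subset_right
    omega
  have h5R : (S.card : ℝ) ≤ T.card + (S \ T).card := by exact_mod_cast h5
  have h6 : (1 - κ) * (T.card : ℝ) * Real.log y ≤ (y : ℝ) ^ (1 - κ) * Real.log y := by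
    apply mul_le_mul_of_nonneg_right _ hlog
    have : (1 - κ) * (T.card : ℝ) ≤ 1 * T.card :=
      mul_le_mul_of_nonneg_right (by linarith) (Nat.cast_nonneg _)
    linarith
  calc (1 - κ) * (S.card : ℝ) * Real.log y
      ≤ (1 - κ) * (T.card + (S \ T).card : ℝ) * Real.log y := by
        apply mul_le_mul_of_nonneg_right _ hlog
        exact mul_le_mul_of_nonneg_left h5R (by linarith)
    _ = (1 - κ) * (T.card : ℝ) * Real.log y + (S \ T).card * ((1 - κ) * Real.log y) := by ring
    _ ≤ _ := by linarith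

lemma rpow_log_small {κ a : ℝ} (hκ : 0 < κ) (ha : 0 < a) : ∃ y₀ : ℕ, ∀ y : ℕ, y₀ ≤ y →
    (y : ℝ) ^ (1 - κ) * Real.log y ≤ a * y := by
  have h4 := (isLittleO_log_rpow_atTop hκ).tendsto_div_nhds_zero
  have h6 := (h4.comp tendsto_natCast_atTop_atTop).eventually_lt_const ha
  obtain ⟨N₀, hN₀⟩ := Filter.eventually_atTop.mp h6
  refine ⟨max N₀ 1, fun y hy => ?_⟩
  have h7 := hN₀ y ((le_max_left _ _).trans hy)
  have hy1 : (1 : ℝ) ≤ y := by exact_mod_cast (le_max_right _ _).trans hy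
  have hy0 : (0 : ℝ) < y := by linarith
  simp only [Function.comp] at h7
  rw [div_lt_iff₀ (by positivity)] at h7
  calc (y : ℝ) ^ (1 - κ) * Real.log y ≤ (y : ℝ) ^ (1 - κ) * (a * (y : ℝ) ^ κ) :=
        mul_le_mul_of_nonneg_left h7.le (by positivity)
    _ = a * ((y : ℝ) ^ (1 - κ) * (y : ℝ) ^ κ) := by ring
    _ = a * y := by
        rw [← Real.rpow_add hy0]
        norm_num

/-- `π(y) log y ≤ (1 + κ) y` -/
lemma pi_upper {κ : ℝ} (hκ : 0 < κ) : ∃ y₀ : ℕ, ∀ y : ℕ, y₀ ≤ y →
    (Nat.primeCounting y : ℝ) * Real.log y ≤ (1 + κ) * y := by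
  -- use `δ` with `(1 + δ) + δ ≤ (1 - δ) (1 + κ)`
  set δ : ℝ := min (1 / 2) (κ / (2 * (3 + κ))) with hδ
  have hδ0 : 0 < δ := by positivity
  have hδ1 : δ < 1 := lt_of_le_of_lt (min_le_left _ _) (by norm_num)
  have hδ2 : δ * (3 + κ) ≤ κ / 2 := by
    have h1 : δ ≤ κ / (2 * (3 + κ)) := min_le_right _ _
    calc δ * (3 + κ) ≤ κ / (2 * (3 + κ)) * (3 + κ) := mul_le_mul_of_nonneg_right h1 (by linarith)
      _ = κ / 2 := by field_simp
  obtain ⟨y₁, hy₁⟩ := rpow_log_small hδ0 hδ0
  obtain ⟨y₂, hy₂⟩ := Filter.eventually_atTop.mp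
    (pnt_theta.eventually_lt_const (show (1 : ℝ) < 1 + δ by linarith))
  refine ⟨max (max y₁ y₂) 1, fun y hy => ?_⟩
  have hya := hy₁ y ((le_max_left _ _).trans ((le_max_left _ _).trans hy))
  have hyb := hy₂ y ((le_max_right _ _).trans ((le_max_left _ _).trans hy))
  have hy1 : 1 ≤ y := (le_max_right _ _).trans hy
  have hyR : (0 : ℝ) < y := by exact_mod_cast hy1
  rw [div_lt_iff₀ hyR, sum_lam_eq_log] at hyb
  have h1 := card_mul_log_le hδ0 hδ1 hy1 ((Finset.Icc 1 y).filter Nat.Prime) (fun p hp => by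
    rw [Finset.mem_filter, Finset.mem_Icc] at hp
    exact ⟨hp.2, hp.1.2⟩)
  rw [← primeCounting_eq_card] at h1
  have h2 : (1 - δ) * ((Nat.primeCounting y : ℝ) * Real.log y) ≤ (1 - δ) * ((1 + κ) * y) := by
    calc (1 - δ) * ((Nat.primeCounting y : ℝ) * Real.log y)
        = (1 - δ) * (Nat.primeCounting y : ℝ) * Real.log y := by ring
      _ ≤ (1 + δ) * y + δ * y := by linarith
      _ ≤ (1 - δ) * ((1 + κ) * y) := by nlinarith
  exact le_of_mul_le_mul_left h2 (by linarith)

/-- `(1 - κ) y ≤ π(y) log y` -/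
lemma pi_lower' {κ : ℝ} (hκ : 0 < κ) : ∃ y₀ : ℕ, ∀ y : ℕ, y₀ ≤ y →
    (1 - κ) * y ≤ (Nat.primeCounting y : ℝ) * Real.log y := by
  obtain ⟨y₂, hy₂⟩ := Filter.eventually_atTop.mp
    (pnt_theta.eventually_const_lt (show 1 - κ < 1 by linarith))
  refine ⟨max y₂ 1, fun y hy => ?_⟩
  have hyb := hy₂ y ((le_max_left _ _).trans hy)
  have hy1 : 1 ≤ y := (le_max_right _ _).trans hy
  have hyR : (0 : ℝ) < y := by exact_mod_cast hy1
  rw [lt_div_iff₀ hyR, sum_lam_eq_log] at hyb
  refine hyb.le.trans ?_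
  rw [primeCounting_eq_card, ← nsmul_eq_mul]
  refine Finset.sum_le_card_nsmul _ _ _ fun p hp => ?_
  rw [Finset.mem_filter, Finset.mem_Icc] at hp
  exact Real.log_le_log (by exact_mod_cast hp.1.1) (by exact_mod_cast hp.1.2)

/-- mass of a sparse set of primes, sharp form -/
lemma mass_sharp {κ : ℝ} (hκ : 0 < κ) : ∃ y₀ : ℕ, ∀ y : ℕ, y₀ ≤ y → ∀ (η : ℝ) (S : Finset ℕ),
    0 ≤ η → S ⊆ Finset.Icc 1 y → (S.card : ℝ) ≤ η * Nat.primeCounting y →
    ∑ x ∈ S, Real.log x ≤ η * ((1 + κ) * y) := by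
  obtain ⟨y₀, hy₀⟩ := pi_upper hκ
  refine ⟨max y₀ 1, fun y hy η S hη hS hcard => ?_⟩
  have h1 := hy₀ y ((le_max_left _ _).trans hy)
  have hy1 : (1 : ℝ) ≤ y := by exact_mod_cast (le_max_right _ _).trans hy
  have hlog : 0 ≤ Real.log y := Real.log_nonneg hy1
  have h2 : ∑ x ∈ S, Real.log x ≤ S.card * Real.log y := by
    rw [← nsmul_eq_mul]
    refine Finset.sum_le_card_nsmul _ _ _ fun x hx => ?_
    have h3 := Finset.mem_Icc.mp (hS hx)
    exact Real.log_le_log (by exact_mod_cast h3.1) (by exact_mod_cast h3.2)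
  calc ∑ x ∈ S, Real.log x ≤ S.card * Real.log y := h2
    _ ≤ (η * Nat.primeCounting y) * Real.log y := mul_le_mul_of_nonneg_right hcard hlog
    _ = η * (Nat.primeCounting y * Real.log y) := by ring
    _ ≤ η * ((1 + κ) * y) := mul_le_mul_of_nonneg_left h1 hη

end Pool.Agent.Lib.GT.Robust
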