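import Pool.Agent.Lib.MP_7b7e48_nt.GT.RobustMoment
import Pool.Agent.Lib.MP_7b7e48_nt.GT.PNTAP

/-!
# Few `N` have a large value of `∑ x, f x * Lw w (N - x)` (robust Goldbach)
-/

open Finset Pool.Agent.Lib.GT Pool.Agent.Lib.GT.LA

namespace Pool.Agent.Lib.GT.Robust

/-- the primes in `(K, w]` -/
def prI (K w : ℕ) : Finset ℕ := (pr w).filter (fun p => K < p)

lemma mem_prI {K w p : ℕ} : p ∈ prI K w ↔ K < p ∧ p ≤ w ∧ p.Prime := by
  unfold prI
  rw [Finset.mem_filter, mem_pr]
  tauto

lemma sum_inv_sq_le {K : ℕ} (hK : 2 ≤ K) (w : ℕ) :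
    ∑ p ∈ prI K w, 1 / ((p : ℝ) - 1) ^ 2 ≤ (2 : ℝ) / K := by
  have hKR : (2 : ℝ) ≤ K := by exact_mod_cast hK
  have h1 : ∀ m : ℕ, K ≤ m → ∑ n ∈ Finset.Ioc K m, 1 / ((n : ℝ) - 1) ^ 2 ≤
      1 / ((K : ℝ) - 1) - 1 / ((m : ℝ) - 1) + 0 := by
    intro m hm
    induction m, hm using Nat.le_induction with
    | base => simp
    | succ m hm ih =>
      rw [← Finset.insert_Ioc_right_eq_Ioc_add_one (by omega : K ≤ m),
        Finset.sum_insert (by simp)]
      have hmR : (2 : ℝ) ≤ m := by exact_mod_cast hK.trans hm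
      have h2 : 1 / (((m + 1 : ℕ) : ℝ) - 1) ^ 2 ≤ 1 / ((m : ℝ) - 1) - 1 / (((m + 1 : ℕ) : ℝ) - 1) := by
        push_cast
        rw [show (m : ℝ) + 1 - 1 = m by ring]
        have h3 : 1 / ((m : ℝ) - 1) - 1 / (m : ℝ) = 1 / (((m : ℝ) - 1) * m) := by
          have : (m : ℝ) - 1 ≠ 0 := by linarith
          field_simp
          ring
        rw [h3]
        apply one_div_le_one_div_of_le
        · have : 0 < (m : ℝ) - 1 := by linarith
          positivity
        · nlinarith
      linarith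
  rcases lt_or_ge w K with h | h
  · have h0 : prI K w = ∅ := by
      rw [Finset.eq_empty_iff_forall_notMem]
      intro p hp
      rw [mem_prI] at hp
      omega
    rw [h0, Finset.sum_empty]
    positivity
  · have h2 : ∑ p ∈ prI K w, 1 / ((p : ℝ) - 1) ^ 2 ≤ ∑ n ∈ Finset.Ioc K w, 1 / ((n : ℝ) - 1) ^ 2 := by
      refine Finset.sum_le_sum_of_subset_of_nonneg ?_ fun _ _ _ => by positivity
      intro p hp
      rw [mem_prI] at hp
      rw [Finset.mem_Ioc]
      omega
    refine h2.trans ((h1 w h).trans ?_)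
    have h3 : (0 : ℝ) ≤ 1 / ((w : ℝ) - 1) := by
      have : (2 : ℝ) ≤ w := by exact_mod_cast hK.trans h
      apply div_nonneg <;> linarith
    have h4 : 1 / ((K : ℝ) - 1) ≤ 2 / K := by
      rw [div_le_div_iff₀ (by linarith) (by linarith)]
      linarith
    linarith

lemma prod_tail_le {K : ℕ} (hK : 2 ≤ K) (w k : ℕ) :
    ∏ p ∈ prI K w, (1 + k / ((p : ℝ) - 1) ^ 2) ≤ Real.exp (2 * k / K) := by
  have h1 : ∀ p ∈ prI K w, 1 + k / ((p : ℝ) - 1) ^ 2 ≤ Real.exp (k * (1 / ((p : ℝ) - 1) ^ 2)) := by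
    intro p _
    have := Real.add_one_le_exp (k * (1 / ((p : ℝ) - 1) ^ 2))
    calc 1 + k / ((p : ℝ) - 1) ^ 2 = k * (1 / ((p : ℝ) - 1) ^ 2) + 1 := by ring
      _ ≤ _ := this
  refine (Finset.prod_le_prod (fun p _ => by positivity) h1).trans ?_
  rw [← Real.exp_sum, ← Finset.mul_sum]
  apply Real.exp_le_exp.mpr
  calc (k : ℝ) * ∑ p ∈ prI K w, 1 / ((p : ℝ) - 1) ^ 2 ≤ k * (2 / K) :=
        mul_le_mul_of_nonneg_left (sum_inv_sq_le hK w) (Nat.cast_nonneg k)
    _ = 2 * k / K := by ring

/-- Markov's inequality for a periodic function -/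
lemma markov_interval {W : ℕ} (hW : 0 < W) {g : ℕ → ℝ} (hg : ∀ n, 0 ≤ g n)
    (hper : ∀ n, g (n + W) = g n) {k : ℕ} {B τ : ℝ} (hτ : 0 < τ)
    (hB : ∑ N ∈ range W, g N ^ k ≤ B * W) {A L : ℕ} (hL : W ≤ L) :
    (((Finset.Ico A (A + L)).filter (fun N => τ ≤ g N)).card : ℝ) ≤ 2 * L * (B / τ ^ k) := by
  have hτk : 0 < τ ^ k := pow_pos hτ k
  have hWR : (0 : ℝ) < W := by exact_mod_cast hW
  have hB0 : 0 ≤ B := by
    have : 0 ≤ B * W := le_trans (Finset.sum_nonneg fun N _ => pow_nonneg (hg N) k) hB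
    by_contra h
    push Not at h
    nlinarith
  have h1 : τ ^ k * (((Finset.Ico A (A + L)).filter (fun N => τ ≤ g N)).card : ℝ) ≤
      ∑ N ∈ Finset.Ico A (A + L), g N ^ k := by
    rw [mul_comm, ← nsmul_eq_mul]
    calc _ ≤ ∑ N ∈ (Finset.Ico A (A + L)).filter (fun N => τ ≤ g N), g N ^ k := by
          refine Finset.card_nsmul_le_sum _ _ _ fun N hN => ?_
          rw [Finset.mem_filter] at hN
          exact pow_le_pow_left₀ hτ.le hN.2 k
      _ ≤ _ := Finset.sum_le_sum_of_subset_of_nonneg (Finset.filter_subset _ _)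
          fun N _ _ => pow_nonneg (hg N) k
  have h2 : ∑ N ∈ Finset.Ico A (A + L), g N ^ k ≤
      ∑ N ∈ Finset.Ico A (A + (L / W + 1) * W), g N ^ k := by
    refine Finset.sum_le_sum_of_subset_of_nonneg ?_ fun N _ _ => pow_nonneg (hg N) k
    apply Finset.Ico_subset_Ico_right
    have := lt_div_add_one_mul (a := L) hW
    omega
  have h3 := sum_blocks_eq (fun N => g N ^ k) (∑ N ∈ range W, g N ^ k) A (L / W + 1)
    (fun A' => sum_block (W := W) (fun N => g N ^ k) (fun n => by simp only [hper n]) A')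
  have h4 : (((L / W + 1 : ℕ) : ℝ)) * W ≤ 2 * L := by
    have h5 : L / W * W ≤ L := Nat.div_mul_le_self _ _
    have h6 : (L / W + 1) * W ≤ 2 * L := by nlinarith
    exact_mod_cast h6
  have h5 : ∑ N ∈ Finset.Ico A (A + L), g N ^ k ≤ 2 * L * B := by
    refine h2.trans (h3.le.trans ?_)
    calc (((L / W + 1 : ℕ) : ℝ)) * ∑ N ∈ range W, g N ^ k
        ≤ (((L / W + 1 : ℕ) : ℝ)) * (B * W) := mul_le_mul_of_nonneg_left hB (Nat.cast_nonneg _)
      _ = B * ((((L / W + 1 : ℕ) : ℝ)) * W) := by ring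
      _ ≤ B * (2 * L) := mul_le_mul_of_nonneg_left h4 hB0
      _ = _ := by ring
  rw [← mul_div_assoc, le_div_iff₀ hτk, mul_comm]
  exact h1.trans h5

/-- `Lw w (N - x)` against the primes in `(K, w]` -/
lemma Lw_le_ell {K w N x : ℕ} (hKw : K ≤ w) (hx : x ≤ N) :
    Lw w (N - x) ≤ (V K)⁻¹ * ell (prI K w) N x := by
  have hsplit : pr w = pr K ∪ prI K w := by
    ext p
    rw [Finset.mem_union, mem_pr, mem_pr, mem_prI]
    constructor
    · rintro ⟨h1, h2⟩
      rcases le_or_gt p K with h | h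
      · exact Or.inl ⟨h, h2⟩
      · exact Or.inr ⟨h, h1, h2⟩
    · rintro (⟨h1, h2⟩ | ⟨_, h1, h2⟩)
      · exact ⟨h1.trans hKw, h2⟩
      · exact ⟨h1, h2⟩
  have hdisj : Disjoint (pr K) (prI K w) := by
    rw [Finset.disjoint_left]
    intro p hp hp'
    rw [mem_pr] at hp
    rw [mem_prI] at hp'
    omega
  rw [Lw_eq_prod, hsplit, Finset.prod_union hdisj]
  have h1 : ∏ p ∈ prI K w, uf p (N - x) = ell (prI K w) N x := by
    unfold ell
    refine Finset.prod_congr rfl fun p hp => ?_
    have hp' := (mem_prI.mp hp).2.2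
    unfold uf el
    have h2 : (N - x) % p = 0 ↔ N % p = x % p := by
      rw [← Nat.dvd_iff_mod_eq_zero]
      constructor
      · intro h
        have := (Nat.modEq_iff_dvd' hx).mpr h
        exact this.symm
      · intro h
        exact (Nat.modEq_iff_dvd' hx).mp (Eq.symm h)
    simp only [h2]
  rw [h1]
  refine mul_le_mul_of_nonneg_right ?_ (ell_nonneg (fun p hp => (mem_prI.mp hp).2.2.two_le) N x)
  unfold V
  rw [← Finset.prod_inv_distrib]
  refine Finset.prod_le_prod (fun p hp => uf_nonneg (mem_pr.mp hp).2.one_le _) fun p hp => ?_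
  unfold uf
  split_ifs
  · exact inv_nonneg.mpr (one_sub_inv_pos (mem_pr.mp hp).2.two_le).le
  · exact le_rfl

/-- upper bound of the right order for primes in simultaneous residue classes -/
theorem class_bound (P : Finset ℕ) (hP : ∀ p ∈ P, p.Prime) : ∃ X₀ : ℕ, ∀ X : ℕ, X₀ ≤ X →
    ∀ D ⊆ P, ∀ t : ℕ → ℕ,
      ∑ x ∈ Finset.Icc 1 X with ∀ p ∈ D, x % p = t p, lam x ≤
        2 * X * ∏ p ∈ D, (1 / ((p : ℝ) - 1)) := by
  classical
  -- for one `D` and one residue modulo `∏ D`
  have key : ∀ D ∈ P.powerset, ∀ a ∈ range (∏ p ∈ D, p), ∀ᶠ X : ℕ in Filter.atTop,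
      ∑ x ∈ Finset.Icc 1 X with x % (∏ p ∈ D, p) = a, lam x ≤
        2 * X * ∏ p ∈ D, (1 / ((p : ℝ) - 1)) := by
    intro D hD a ha
    rw [Finset.mem_powerset] at hD
    rw [Finset.mem_range] at ha
    have hDP : ∀ p ∈ D, p.Prime := fun p hp => hP p (hD hp)
    have hpos : 0 < ∏ p ∈ D, p := Finset.prod_pos fun p hp => (hDP p hp).pos
    have hphi : ((∏ p ∈ D, p).totient : ℝ) = ∏ p ∈ D, ((p : ℝ) - 1) := by
      have h1 : (∏ p ∈ D, p).totient = ∏ p ∈ D, (p - 1) := by
        clear ha hpos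
        induction D using Finset.induction_on with
        | empty => simp
        | insert q D hq ih =>
          have hqp : q.Prime := hDP q (mem_insert_self _ _)
          rw [Finset.prod_insert hq, Finset.prod_insert hq, Nat.totient_mul, ih
            ((Finset.subset_insert _ _).trans hD)
            (fun p hp => hDP p (mem_insert_of_mem hp)), Nat.totient_prime hqp]
          apply Nat.Coprime.prod_right
          intro p hp
          rw [Nat.coprime_primes hqp (hDP p (mem_insert_of_mem hp))]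
          rintro rfl
          exact hq hp
      rw [h1]
      push_cast
      refine Finset.prod_congr rfl fun p hp => ?_
      rw [Nat.cast_sub (hDP p hp).one_le]
      simp
    have hprod : ∏ p ∈ D, (1 / ((p : ℝ) - 1)) = 1 / ((∏ p ∈ D, p).totient : ℝ) := by
      rw [hphi, Finset.prod_div_distrib, Finset.prod_const_one]
    have htot : (0 : ℝ) < (∏ p ∈ D, p).totient := by
      exact_mod_cast Nat.totient_pos.mpr hpos
    rw [hprod]
    by_cases hcop : a.Coprime (∏ p ∈ D, p)
    · have h1 := pnt_ap (∏ p ∈ D, p) a hpos hcop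
      have h2 : (1 : ℝ) / ((∏ p ∈ D, p).totient : ℝ) < 2 * (1 / ((∏ p ∈ D, p).totient : ℝ)) := by
        have : 0 < (1 : ℝ) / ((∏ p ∈ D, p).totient : ℝ) := by positivity
        linarith
      filter_upwards [h1.eventually_lt_const h2, Filter.eventually_gt_atTop 0] with X hX hX0
      rw [Nat.mod_eq_of_lt ha] at hX
      have hXR : (0 : ℝ) < X := by exact_mod_cast hX0
      rw [div_lt_iff₀ hXR] at hX
      calc _ ≤ 2 * (1 / ((∏ p ∈ D, p).totient : ℝ)) * X := hX.le
        _ = _ := by ring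
    · -- non coprime class: at most one prime
      obtain ⟨q, hq, hqa, hqD⟩ := Nat.Prime.not_coprime_iff_dvd.mp hcop
      have h3 : ∀ X : ℕ, ∑ x ∈ Finset.Icc 1 X with x % (∏ p ∈ D, p) = a, lam x ≤ Real.log q := by
        intro X
        have h4 : ∀ x ∈ (Finset.Icc 1 X).filter (fun x => x % (∏ p ∈ D, p) = a),
            lam x = if x = q then lam q else 0 := by
          intro x hx
          rw [Finset.mem_filter] at hx
          have h5 : q ∣ x := by
            have h6 : q ∣ x % (∏ p ∈ D, p) := hx.2 ▸ hqa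
            exact (Nat.dvd_mod_iff hqD).mp h6
          split_ifs with h7
          · rw [h7]
          · unfold lam
            rw [if_neg]
            intro hxp
            rcases (Nat.dvd_prime hxp).mp h5 with h8 | h8
            · exact hq.one_lt.ne' h8
            · exact h7 h8.symm
        rw [Finset.sum_congr rfl h4, Finset.sum_ite_eq']
        split_ifs
        · exact lam_le_log q
        · exact Real.log_natCast_nonneg q
      have h9 : Filter.Tendsto (fun X : ℕ => 2 * (X : ℝ) * (1 / ((∏ p ∈ D, p).totient : ℝ)))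
          Filter.atTop Filter.atTop := by
        apply Filter.Tendsto.atTop_mul_const (by positivity)
        exact Filter.Tendsto.const_mul_atTop (by norm_num) tendsto_natCast_atTop_atTop
      filter_upwards [h9.eventually_ge_atTop (Real.log q)] with X hX
      exact (h3 X).trans hX
  have key2 : ∀ᶠ X : ℕ in Filter.atTop, ∀ D ∈ P.powerset, ∀ a ∈ range (∏ p ∈ D, p),
      ∑ x ∈ Finset.Icc 1 X with x % (∏ p ∈ D, p) = a, lam x ≤
        2 * X * ∏ p ∈ D, (1 / ((p : ℝ) - 1)) := by
    rw [Filter.eventually_all_finset]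
    intro D hD
    rw [Filter.eventually_all_finset]
    exact key D hD
  obtain ⟨X₀, hX₀⟩ := Filter.eventually_atTop.mp key2
  refine ⟨X₀, fun X hX D hD t => ?_⟩
  have hDP : ∀ p ∈ D, p.Prime := fun p hp => hP p (hD hp)
  have hpos : 0 < ∏ p ∈ D, p := Finset.prod_pos fun p hp => (hDP p hp).pos
  have hnn : 0 ≤ 2 * (X : ℝ) * ∏ p ∈ D, (1 / ((p : ℝ) - 1)) := by
    refine mul_nonneg (by positivity) (Finset.prod_nonneg fun p hp => ?_)
    have : (2 : ℝ) ≤ p := by exact_mod_cast (hDP p hp).two_le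
    apply div_nonneg zero_le_one
    linarith
  by_cases hex : ∃ y ∈ Finset.Icc 1 X, ∀ p ∈ D, y % p = t p
  · obtain ⟨y, _, hy⟩ := hex
    have h1 := hX₀ X hX D (Finset.mem_powerset.mpr hD) (y % (∏ p ∈ D, p))
      (mem_range.mpr (Nat.mod_lt _ hpos))
    refine le_trans (Finset.sum_le_sum_of_subset_of_nonneg ?_ fun x _ _ => lam_nonneg x) h1
    intro x hx
    rw [Finset.mem_filter] at hx ⊢
    refine ⟨hx.1, ?_⟩
    have h2 : ∀ E ⊆ D, x ≡ y [MOD (∏ p ∈ E, p)] := by
      intro E hE
      induction E using Finset.induction_on with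
      | empty => simp [Nat.modEq_one]
      | insert q E hq ih =>
        rw [Finset.prod_insert hq]
        have hqD : q ∈ D := hE (mem_insert_self _ _)
        have hED : E ⊆ D := (Finset.subset_insert _ _).trans hE
        refine (Nat.modEq_and_modEq_iff_modEq_mul ?_).mp ⟨?_, ih hED⟩
        · apply Nat.Coprime.prod_right
          intro p hp
          rw [Nat.coprime_primes (hDP q hqD) (hDP p (hED hp))]
          rintro rfl
          exact hq hp
        · show x % q = y % q
          rw [hx.2 q hqD, hy q hqD]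
    exact h2 D (Finset.Subset.refl D)
  · push Not at hex
    have h1 : (Finset.Icc 1 X).filter (fun x => ∀ p ∈ D, x % p = t p) = ∅ := by
      rw [Finset.filter_eq_empty_iff]
      intro x hx h
      obtain ⟨p, hp, hne⟩ := hex x hx
      exact hne (h p hp)
    rw [h1, Finset.sum_empty]
    exact hnn

/-- Few `N ∈ (X, 2X]` have a large value of `∑ f x * Lw w (N - x)`. -/
theorem robust_count {K k w : ℕ} (hK : 2 ≤ K) (hKw : K ≤ w) : ∃ X₀ : ℕ, ∀ X : ℕ, X₀ ≤ X →
    ∀ f : ℕ → ℝ, (∀ n, 0 ≤ f n) → (∀ n, f n ≤ lam n) → (∀ n, 2 * X < n → f n = 0) →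
    ∀ θ : ℝ, 0 < θ →
    (V K)⁻¹ * (∑ x ∈ Finset.Icc 1 (2 * X), f x + 4 * X * (Real.exp (2 * k / K) - 1)) ≤
      θ * X / 2 →
    (((Finset.Ioc X (2 * X)).filter
      (fun N => θ * X ≤ ∑ x ∈ Finset.range (N + 1), f x * Lw w (N - x))).card : ℝ) ≤
      2 * X * (1 / 2) ^ k := by
  have hPp : ∀ p ∈ prI K w, p.Prime := fun p hp => (mem_prI.mp hp).2.2
  obtain ⟨X₁, hX₁⟩ := class_bound (prI K w) hPp
  refine ⟨max (max X₁ (∏ p ∈ prI K w, p)) 1, fun X hX f hf0 hfl hfs θ hθ hsmall => ?_⟩
  have hX1 : X₁ ≤ 2 * X := by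
    have := (le_max_left _ _).trans ((le_max_left _ _).trans hX); omega
  have hX2 : (∏ p ∈ prI K w, p) ≤ X := (le_max_right _ _).trans ((le_max_left _ _).trans hX)
  have hX3 : 1 ≤ X := (le_max_right _ _).trans hX
  have hXR : (0 : ℝ) < X := by exact_mod_cast hX3
  have hVpos : 0 < (V K)⁻¹ := inv_pos.mpr (V_pos K)
  have hWpos : 0 < ∏ p ∈ prI K w, p := Finset.prod_pos fun p hp => (hPp p hp).pos
  set s : Finset ℕ := Finset.Icc 1 (2 * X) with hs
  set Y : ℝ := ∑ x ∈ s, f x + 4 * X * (Real.exp (2 * k / K) - 1) with hYdef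
  have hexp : (0 : ℝ) ≤ Real.exp (2 * k / K) - 1 := by
    have := Real.one_le_exp (show (0 : ℝ) ≤ 2 * k / K by positivity)
    linarith
  have hY0 : 0 ≤ Y := add_nonneg (Finset.sum_nonneg fun x _ => hf0 x) (by positivity)
  -- moment bound
  have hYT : ∀ T : ℕ → Finset ℕ, (∀ p ∈ prI K w, T p ⊆ range p ∧ (T p).card ≤ k) →
      ∑ x ∈ s, f x * ∏ p ∈ prI K w, (if x % p ∈ T p then (1 - 1 / (p : ℝ))⁻¹ else 1) ≤ Y := by
    intro T hT
    have h1 := class_to_Y hPp (s := s) (f := f) (fun x _ => hf0 x) (M := 4 * X) (by positivity)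
      (k := k) (by
        intro D hD _ t
        refine le_trans (Finset.sum_le_sum fun x _ => hfl x) ?_
        have h2 := hX₁ (2 * X) hX1 D hD t
        calc _ ≤ _ := h2
          _ = _ := by push_cast; ring) T hT
    refine h1.trans ?_
    rw [hYdef]
    have h2 := prod_tail_le hK w k
    have h3 : 4 * (X : ℝ) * (∏ p ∈ prI K w, (1 + k / ((p : ℝ) - 1) ^ 2) - 1) ≤
        4 * X * (Real.exp (2 * k / K) - 1) :=
      mul_le_mul_of_nonneg_left (by linarith) (by positivity)
    linarith
  have hmom := moment_period hPp (s := s) (f := f) (fun x _ => hf0 x) hYT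
  -- Markov
  have hg0 : ∀ n, 0 ≤ ∑ x ∈ s, f x * ell (prI K w) n x := fun n =>
    Finset.sum_nonneg fun x _ => mul_nonneg (hf0 x)
      (ell_nonneg (fun p hp => (hPp p hp).two_le) n x)
  have hper : ∀ n, ∑ x ∈ s, f x * ell (prI K w) (n + ∏ p ∈ prI K w, p) x =
      ∑ x ∈ s, f x * ell (prI K w) n x := by
    intro n
    refine Finset.sum_congr rfl fun x _ => ?_
    rw [ell_mod (fun p hp => Finset.dvd_prod_of_mem _ hp)]
  set τ : ℝ := θ * X * V K with hτdef
  have hτ : 0 < τ := by have := V_pos K; positivity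
  have hmk := markov_interval hWpos hg0 hper (k := k) (B := Y ^ k) hτ hmom (A := X + 1)
    (L := X) hX2
  have hset : Finset.Ico (X + 1) (X + 1 + X) = Finset.Ioc X (2 * X) := by
    ext n
    rw [Finset.mem_Ico, Finset.mem_Ioc]
    omega
  rw [hset] at hmk
  have hcard : (((Finset.Ioc X (2 * X)).filter
      (fun N => θ * X ≤ ∑ x ∈ Finset.range (N + 1), f x * Lw w (N - x))).card : ℝ) ≤
      (((Finset.Ioc X (2 * X)).filter
        (fun N => τ ≤ ∑ x ∈ s, f x * ell (prI K w) N x)).card : ℝ) := by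
    have hsub : (Finset.Ioc X (2 * X)).filter
      (fun N => θ * X ≤ ∑ x ∈ Finset.range (N + 1), f x * Lw w (N - x)) ⊆
      (Finset.Ioc X (2 * X)).filter
        (fun N => τ ≤ ∑ x ∈ s, f x * ell (prI K w) N x) := by
      intro N hN
      rw [Finset.mem_filter, Finset.mem_Ioc] at hN
      rw [Finset.mem_filter, Finset.mem_Ioc]
      refine ⟨hN.1, ?_⟩
      have h1 : ∑ x ∈ Finset.range (N + 1), f x * Lw w (N - x) ≤
          (V K)⁻¹ * ∑ x ∈ s, f x * ell (prI K w) N x := by
        rw [Finset.mul_sum]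
        calc ∑ x ∈ Finset.range (N + 1), f x * Lw w (N - x)
            ≤ ∑ x ∈ Finset.range (N + 1), (V K)⁻¹ * (f x * ell (prI K w) N x) := by
              refine Finset.sum_le_sum fun x hx => ?_
              rw [Finset.mem_range] at hx
              have h2 := Lw_le_ell (K := K) hKw (show x ≤ N by omega)
              calc f x * Lw w (N - x) ≤ f x * ((V K)⁻¹ * ell (prI K w) N x) :=
                    mul_le_mul_of_nonneg_left h2 (hf0 x)
                _ = _ := by ring
          _ ≤ ∑ x ∈ s, (V K)⁻¹ * (f x * ell (prI K w) N x) := by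
              have h3 : ∑ x ∈ Finset.range (N + 1), (V K)⁻¹ * (f x * ell (prI K w) N x) =
                  ∑ x ∈ (Finset.range (N + 1)).filter (fun x => x ∈ s),
                    (V K)⁻¹ * (f x * ell (prI K w) N x) := by
                symm
                refine Finset.sum_subset (Finset.filter_subset _ _) fun x hx hx' => ?_
                rw [Finset.mem_range] at hx
                rw [Finset.mem_filter, Finset.mem_range, hs, Finset.mem_Icc] at hx'
                have hf00 : f x = 0 := by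
                  rcases Nat.eq_zero_or_pos x with rfl | hx0
                  · have h4 := hfl 0
                    have h5 := hf0 0
                    have h6 : lam 0 = 0 := by unfold lam; rw [if_neg Nat.not_prime_zero]
                    linarith
                  · have : ¬ (x ≤ 2 * X) := fun h7 => hx' ⟨hx, hx0, h7⟩
                    omega
                rw [hf00]
                ring
              rw [h3]
              refine Finset.sum_le_sum_of_subset_of_nonneg ?_ ?_
              · intro x hx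
                rw [Finset.mem_filter] at hx
                exact hx.2
              · intro x _ _
                exact mul_nonneg hVpos.le (mul_nonneg (hf0 x)
                  (ell_nonneg (fun p hp => (hPp p hp).two_le) N x))
      have h2 : θ * X ≤ (V K)⁻¹ * ∑ x ∈ s, f x * ell (prI K w) N x := hN.2.trans h1
      rw [hτdef]
      have hV := V_pos K
      rw [inv_mul_eq_div, le_div_iff₀ hV] at h2
      exact h2
    exact_mod_cast Finset.card_le_card hsub
  refine hcard.trans (hmk.trans ?_)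
  have h1 : Y ^ k / τ ^ k ≤ (1 / 2) ^ k := by
    rw [← div_pow]
    refine pow_le_pow_left₀ (div_nonneg hY0 hτ.le) ?_ k
    rw [div_le_div_iff₀ hτ (by norm_num)]
    have hV := V_pos K
    rw [inv_mul_eq_div, div_le_iff₀ hV] at hsmall
    rw [hτdef]
    linarith
  exact mul_le_mul_of_nonneg_left h1 (by positivity)

end Pool.Agent.Lib.GT.Robust
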