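import Pool.Agent.Lib.MP_7b7e48_nt.GT.RobustUpperSharp

/-!
# Robust Goldbach with the exact constant: assembly of the upper bound
-/

open Finset Filter Topology Pool.Agent.Lib.GT Pool.Agent.Lib.GT.LA

namespace Pool.Agent.Lib.GT.Robust

/-- the constant `C₂ e^{-γ}` -/
noncomputable def kap : ℝ := C2 * Real.exp (-Real.eulerMascheroniConstant)

lemma kap_pos : 0 < kap := mul_pos C2_pos (Real.exp_pos _)

/-- few `N ≤ 2 X` violate an `L¹` bound -/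
lemma card_of_l1' {X : ℕ} {g : ℕ → ℝ} (hg : ∀ n, 0 ≤ g n) {A τ : ℝ} (hτ : 0 < τ)
    (h : ∑ N ∈ range (X + 1), g N ≤ A) :
    (((range (X + 1)).filter (fun N => τ < g N)).card : ℝ) ≤ A / τ := by
  rw [le_div_iff₀ hτ, ← nsmul_eq_mul]
  refine le_trans (Finset.card_nsmul_le_sum _ g τ fun N hN => ?_) ?_
  · rw [Finset.mem_filter] at hN
    exact hN.2.le
  · refine le_trans ?_ h
    exact Finset.sum_le_sum_of_subset_of_nonneg (Finset.filter_subset _ _) fun n _ _ => hg n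

/-- the ratio in the moment bound -/
lemma ratio_le {t κ α η v m E Z : ℝ} (ht : 0 < t) (hκ0 : 0 < κ) (hκ1 : κ < 1) (hα : 0 < α)
    (hη : 0 < η) (hZ : 0 < Z) (hv : 0 < v)
    (hvinv : v⁻¹ ≤ (α / η) * (Real.exp Real.eulerMascheroniConstant / (1 - κ)))
    (hm0 : 0 ≤ m) (hm : m ≤ η * ((1 + κ) * Z)) (hE0 : 0 ≤ E) (hE : 2 * E ≤ κ * η)
    (hfin : α * (1 + 2 * κ) ≤ t * kap * (1 - κ) ^ 9) :
    (v⁻¹ * (m + 2 * Z * E)) / (t * C2 * (1 - κ) ^ 7 * Z) ≤ 1 - κ := by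
  have hC2 := C2_pos
  have h1κ : 0 < 1 - κ := by linarith
  have hden : 0 < t * C2 * (1 - κ) ^ 7 * Z := by positivity
  rw [div_le_iff₀ hden]
  have h1 : m + 2 * Z * E ≤ η * (1 + 2 * κ) * Z := by nlinarith
  have hg := Real.exp_pos Real.eulerMascheroniConstant
  calc v⁻¹ * (m + 2 * Z * E)
      ≤ ((α / η) * (Real.exp Real.eulerMascheroniConstant / (1 - κ))) *
        (η * (1 + 2 * κ) * Z) := by
        apply mul_le_mul hvinv h1 (by positivity) (by positivity)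
    _ = (α * (1 + 2 * κ)) * (Real.exp Real.eulerMascheroniConstant / (1 - κ) * Z) := by
        field_simp
    _ ≤ (t * kap * (1 - κ) ^ 9) * (Real.exp Real.eulerMascheroniConstant / (1 - κ) * Z) :=
        mul_le_mul_of_nonneg_right hfin (by positivity)
    _ = (1 - κ) * (t * C2 * (1 - κ) ^ 7 * Z) := by
        unfold kap
        rw [Real.exp_neg]
        field_simp

/-- the truncation used for block `i` -/
noncomputable def fi (B : Set ℕ) (X L i n : ℕ) : ℝ := if n ≤ (i + 1) * L then fB B X n else 0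

open Classical in
/-- the exceptional numbers of block `i` -/
noncomputable def blk (B : Set ℕ) (X L w i : ℕ) (τ : ℝ) : Finset ℕ :=
  (Finset.Ico (i * L + 1) (i * L + 1 + L)).filter
      (fun N => τ ≤ ∑ x ∈ Finset.range (N + 1), fi B X L i x * Lw w (N - x))

/-- the statement of `window_count` for fixed parameters -/
def WinCount (K k w Z₀ : ℕ) : Prop :=
  ∀ L : ℕ, Z₀ ≤ L → ∀ A Z : ℕ, L ≤ Z → A + L ≤ Z + 1 →
    ∀ f : ℕ → ℝ, (∀ n, 0 ≤ f n) → (∀ n, f n ≤ lam n) → (∀ n, Z < n → f n = 0) →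
    ∀ τ : ℝ, 0 < τ →
    (((Finset.Ico A (A + L)).filter
      (fun N => τ ≤ ∑ x ∈ Finset.range (N + 1), f x * Lw w (N - x))).card : ℝ) ≤
      2 * L * (((V K)⁻¹ * (∑ x ∈ Finset.Icc 1 Z, f x + 2 * Z * (Real.exp (2 * k / K) - 1))) / τ)
        ^ k

/-- the statement of `mass_sharp` for fixed parameters -/
def MassSharp (κ : ℝ) (y₀ : ℕ) : Prop :=
  ∀ y : ℕ, y₀ ≤ y → ∀ (η : ℝ) (S : Finset ℕ), 0 ≤ η → S ⊆ Finset.Icc 1 y →
    (S.card : ℝ) ≤ η * Nat.primeCounting y → ∑ p ∈ S, Real.log p ≤ η * ((1 + κ) * y)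

lemma fi_nonneg (B : Set ℕ) (X L i n : ℕ) : 0 ≤ fi B X L i n := by
  unfold fi
  split_ifs
  · exact fB_nonneg B X n
  · exact le_rfl

lemma fi_le (B : Set ℕ) (X L i n : ℕ) : fi B X L i n ≤ lam n := by
  unfold fi
  split_ifs
  · exact fB_le B X n
  · exact lam_nonneg n

lemma vinv_le {κ α η : ℝ} (hκ1 : κ < 1) (hη : 0 < η) {K : ℕ}
    (hVK : (1 - κ) * Real.exp (-Real.eulerMascheroniConstant) < Real.log K * V K)
    (hlogK : Real.log K ≤ α / η) :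
    (V K)⁻¹ ≤ (α / η) * (Real.exp Real.eulerMascheroniConstant / (1 - κ)) := by
  have hV := V_pos K
  have h1κ : 0 < 1 - κ := by linarith
  rw [inv_le_iff_one_le_mul₀ hV]
  have h3 : (1 - κ) * Real.exp (-Real.eulerMascheroniConstant) < (α / η) * V K :=
    hVK.trans_le (mul_le_mul_of_nonneg_right hlogK hV.le)
  rw [Real.exp_neg] at h3
  have hg := Real.exp_pos Real.eulerMascheroniConstant
  have h4 : (α / η) * (Real.exp Real.eulerMascheroniConstant / (1 - κ)) * V K =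
      ((α / η) * V K) * (Real.exp Real.eulerMascheroniConstant / (1 - κ)) := by ring
  rw [h4]
  have h5 : ((1 - κ) * (Real.exp Real.eulerMascheroniConstant)⁻¹) *
      (Real.exp Real.eulerMascheroniConstant / (1 - κ)) = 1 := by
    field_simp
  calc (1 : ℝ) = ((1 - κ) * (Real.exp Real.eulerMascheroniConstant)⁻¹) *
      (Real.exp Real.eulerMascheroniConstant / (1 - κ)) := h5.symm
    _ ≤ _ := mul_le_mul_of_nonneg_right h3.le (by positivity)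

lemma mass_fi {κ η : ℝ} (hη : 0 < η) {y₀ Y : ℕ} (hy₀ : MassSharp κ y₀)
    {L : ℕ} (hLy : y₀ ≤ L) (hLY : Y ≤ L) (B : Set ℕ) (hB : SparseFrom B η Y)
    (X i : ℕ) :
    ∑ x ∈ Finset.Icc 1 ((i + 1) * L), fi B X L i x ≤
        η * ((1 + κ) * (((i + 1) * L : ℕ) : ℝ)) := by
  classical
  have hZL : L ≤ (i + 1) * L := Nat.le_mul_of_pos_left L (by omega)
  have h2 := hy₀ ((i + 1) * L) (by omega) η
    ((Finset.Icc 1 ((i + 1) * L)).filter (fun p => p.Prime ∧ p ∈ B)) hη.le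
    (Finset.filter_subset _ _) (by convert hB ((i + 1) * L) (by omega))
  refine le_trans ?_ h2
  rw [Finset.sum_filter]
  refine Finset.sum_le_sum fun x hx => ?_
  rw [Finset.mem_Icc] at hx
  unfold fi
  rw [if_pos hx.2]
  have hlog := Real.log_natCast_nonneg x
  unfold fB lam
  split_ifs with h3 h4 h5 h6 h7
  · exact le_rfl
  · exact absurd ⟨h4, h3.1⟩ h5
  · exact hlog
  · exact le_rfl
  · exact hlog
  · exact le_rfl

/-- the number of exceptions in one block -/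
lemma block_card {t κ α η : ℝ} (ht0 : 0 < t) (hκ0 : 0 < κ) (hκ1 : κ < 1) (hα : 0 < α)
    (hη : 0 < η) {K k w : ℕ}
    (hVK : (1 - κ) * Real.exp (-Real.eulerMascheroniConstant) < Real.log K * V K)
    (hlogK : Real.log K ≤ α / η)
    (hexpK : 2 * (Real.exp (2 * k / K) - 1) ≤ κ * η)
    (hfin : α * (1 + 2 * κ) ≤ t * kap * (1 - κ) ^ 9)
    {Z₀ y₀ Y : ℕ} (hZ₀ : WinCount K k w Z₀) (hy₀ : MassSharp κ y₀)
    {L : ℕ} (hL1 : 1 ≤ L) (hLZ₀ : Z₀ ≤ L) (hLy : y₀ ≤ L) (hLY : Y ≤ L)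
    (B : Set ℕ) (hB : SparseFrom B η Y) (X i : ℕ) :
    ((blk B X L w i (t * C2 * (1 - κ) ^ 7 * (((i + 1) * L : ℕ) : ℝ))).card : ℝ) ≤
      2 * L * (1 - κ) ^ k := by
  classical
  have h1κ : 0 < 1 - κ := by linarith
  have hC2 := C2_pos
  have hZL : L ≤ (i + 1) * L := Nat.le_mul_of_pos_left L (by omega)
  have hZ1 : 1 ≤ (i + 1) * L := hL1.trans hZL
  have hZR : (0 : ℝ) < (((i + 1) * L : ℕ) : ℝ) := by exact_mod_cast hZ1
  have hτi : 0 < t * C2 * (1 - κ) ^ 7 * (((i + 1) * L : ℕ) : ℝ) :=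
    mul_pos (mul_pos (mul_pos ht0 hC2) (pow_pos h1κ 7)) hZR
  have hA : i * L + 1 + L ≤ (i + 1) * L + 1 := by
    have : (i + 1) * L = i * L + L := by ring
    omega
  have h1 := hZ₀ L hLZ₀ (i * L + 1) ((i + 1) * L) hZL hA (fi B X L i)
    (fi_nonneg B X L i) (fi_le B X L i)
    (fun n hn => by unfold fi; rw [if_neg (by omega)]) _ hτi
  have hexp0 : (0 : ℝ) ≤ Real.exp (2 * k / K) - 1 := by
    have := Real.one_le_exp (show (0 : ℝ) ≤ 2 * k / K by positivity)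
    linarith
  have hmass := mass_fi hη hy₀ hLy hLY B hB X i
  have hm0 : 0 ≤ ∑ x ∈ Finset.Icc 1 ((i + 1) * L), fi B X L i x :=
    Finset.sum_nonneg fun x _ => fi_nonneg B X L i x
  have hV := V_pos K
  have hvinv := vinv_le hκ1 hη hVK hlogK
  have hr := ratio_le ht0 hκ0 hκ1 hα hη hZR hV hvinv hm0 hmass hexp0 hexpK hfin
  have h2 : (((V K)⁻¹ * (∑ x ∈ Finset.Icc 1 ((i + 1) * L), fi B X L i x +
      2 * (((i + 1) * L : ℕ) : ℝ) * (Real.exp (2 * k / K) - 1))) /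
        (t * C2 * (1 - κ) ^ 7 * (((i + 1) * L : ℕ) : ℝ))) ^ k ≤ (1 - κ) ^ k := by
    refine pow_le_pow_left₀ ?_ hr k
    apply div_nonneg _ hτi.le
    apply mul_nonneg (inv_pos.mpr hV).le
    exact add_nonneg hm0 (by positivity)
  have h3 := h1.trans (mul_le_mul_of_nonneg_left h2 (by positivity : (0 : ℝ) ≤ 2 * L))
  unfold blk
  exact h3

/-- the conclusion of the analysis for one even number -/
lemma cover_step {t κ θ a : ℝ} (ht0 : 0 < t) (ht1 : t ≤ 1) (hκ0 : 0 < κ) (hκ1 : κ < 1)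
    (hθ : θ = t * C2 * κ * (1 - κ) ^ 6) (hθ2 : θ ≤ κ * (1 - κ) * (2 * C2))
    (ha : a = 2 * κ * (1 - κ) ^ 4 * t * C2)
    {w L J i₀ n X N₀ N₁ : ℕ} (hi₀ : 1 / κ ≤ i₀)
    (hL1 : 1 ≤ L) (hNL : N₀ ≤ L) (hN1L : 2 * N₁ ≤ L)
    (hN₀ : ∀ N : ℕ, N₀ ≤ N → Even N →
      (1 - κ) * (2 * C2) * N ≤ ∑ x ∈ range (N + 1), lam x * Lw w (N - x))
    (hN₁ : ∀ n X : ℕ, N₁ ≤ n → n ≤ X → ∀ (t : ℝ) (B : Set ℕ), 0 < t → t ≤ 1 →
      t * reps n ≤ hits B n →
      (1 - κ) ^ 2 * (t / 2) * ∑ x ∈ range (2 * n + 1), lam x * lam (2 * n - x) - a * n ≤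
        ∑ x ∈ range (2 * n + 1), fB B X x * lam (2 * n - x))
    (B : Set ℕ) (hnX : n ≤ X) (hth : t * reps n ≤ hits B n)
    (hn1 : i₀ * L < 2 * n) (hn2 : 2 * n ≤ L * J)
    (h3' : |∑ x ∈ range (2 * n + 1), fB B X x * lam (2 * n - x) -
      ∑ x ∈ range (2 * n + 1), fB B X x * Lw w (2 * n - x)| ≤ θ * L)
    (h4' : |∑ x ∈ range (2 * n + 1), lam x * lam (2 * n - x) -
      ∑ x ∈ range (2 * n + 1), lam x * Lw w (2 * n - x)| ≤ θ * L) :
    ∃ i < J, 2 * n ∈ blk B X L w i (t * C2 * (1 - κ) ^ 7 * (((i + 1) * L : ℕ) : ℝ)) := by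
  have h1κ : 0 < 1 - κ := by linarith
  have hC2 := C2_pos
  have hi₀pos : (0 : ℝ) < i₀ := lt_of_lt_of_le (by positivity) hi₀
  have hi₀pos' : 0 < i₀ := by exact_mod_cast hi₀pos
  have hLR : (0 : ℝ) < L := by exact_mod_cast hL1
  obtain ⟨i, hi⟩ : ∃ i, i = (2 * n - 1) / L := ⟨_, rfl⟩
  have hn0 : 1 ≤ 2 * n := by omega
  have hiL : i * L ≤ 2 * n - 1 := by rw [hi]; exact Nat.div_mul_le_self _ _
  have hiL' : 2 * n - 1 < (i + 1) * L := by rw [hi]; exact LA.lt_div_add_one_mul (by omega)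
  have hiJ : i < J := by
    rw [hi, Nat.div_lt_iff_lt_mul (by omega)]
    have : L * J = J * L := by ring
    omega
  have hi₀i : i₀ ≤ i := by
    rw [hi, Nat.le_div_iff_mul_le (by omega)]
    omega
  refine ⟨i, hiJ, ?_⟩
  have hi1L : (i + 1) * L = i * L + L := by ring
  -- sizes
  have hNi : (1 - κ) * (((i + 1) * L : ℕ) : ℝ) ≤ (2 * n : ℝ) := by
    have h6 : ((i * L : ℕ) : ℝ) + 1 ≤ 2 * n := by exact_mod_cast (by omega : i * L + 1 ≤ 2 * n)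
    push_cast at h6 ⊢
    have h7 : (1 : ℝ) ≤ κ * (i + 1) := by
      have h8 : (i₀ : ℝ) ≤ i := by exact_mod_cast hi₀i
      have h9 : 1 / κ ≤ (i : ℝ) + 1 := by linarith
      rw [div_le_iff₀ hκ0] at h9
      linarith
    have h8 : (1 : ℝ) * L ≤ κ * (i + 1) * L := mul_le_mul_of_nonneg_right h7 hLR.le
    nlinarith
  have hLn : L ≤ 2 * n := by
    have h6 : L ≤ i₀ * L := Nat.le_mul_of_pos_left L hi₀pos'
    omega
  have hLN : (L : ℝ) ≤ 2 * n := by exact_mod_cast hLn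
  have hLZ : (L : ℝ) ≤ (((i + 1) * L : ℕ) : ℝ) := by
    exact_mod_cast (Nat.le_mul_of_pos_left L (by omega) : L ≤ (i + 1) * L)
  have hNN₀ : N₀ ≤ 2 * n := by omega
  have hnN₁ : N₁ ≤ n := by omega
  -- total count
  have hR : (1 - κ) ^ 2 * (2 * C2) * (2 * n) ≤
      ∑ x ∈ range (2 * n + 1), lam x * lam (2 * n - x) := by
    have h6 := hN₀ (2 * n) hNN₀ (even_two_mul n)
    have h9 := (abs_le.mp h4').1
    push_cast at h6
    have h10 : θ * L ≤ κ * (1 - κ) * (2 * C2) * (2 * n) := by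
      apply mul_le_mul hθ2 hLN hLR.le (by positivity)
    have h11 : (1 - κ) ^ 2 * (2 * C2) * (2 * n) =
      (1 - κ) * (2 * C2) * (2 * n) - κ * (1 - κ) * (2 * C2) * (2 * n) := by ring
    rw [h11]
    linarith
  -- weighted count of the pairs that meet `B`
  have hFB := hN₁ n X hnN₁ hnX t B ht0 ht1 hth
  have hFB2 : (1 - κ) ^ 6 * (t * C2) * (((i + 1) * L : ℕ) : ℝ) ≤
      ∑ x ∈ range (2 * n + 1), fB B X x * lam (2 * n - x) := by
    have h6 : (1 - κ) ^ 2 * (t / 2) * ((1 - κ) ^ 2 * (2 * C2) * (2 * n)) ≤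
        (1 - κ) ^ 2 * (t / 2) * ∑ x ∈ range (2 * n + 1), lam x * lam (2 * n - x) :=
      mul_le_mul_of_nonneg_left hR (by positivity)
    have h7 : (1 - κ) ^ 2 * (t / 2) * ((1 - κ) ^ 2 * (2 * C2) * (2 * n)) - a * n =
        (1 - κ) ^ 5 * (t * C2) * (2 * n) := by
      rw [ha]; ring
    have h8 : (1 - κ) ^ 5 * (t * C2) * ((1 - κ) * (((i + 1) * L : ℕ) : ℝ)) ≤
        (1 - κ) ^ 5 * (t * C2) * (2 * n) :=
      mul_le_mul_of_nonneg_left hNi (by positivity)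
    calc (1 - κ) ^ 6 * (t * C2) * (((i + 1) * L : ℕ) : ℝ)
        = (1 - κ) ^ 5 * (t * C2) * ((1 - κ) * (((i + 1) * L : ℕ) : ℝ)) := by ring
      _ ≤ (1 - κ) ^ 5 * (t * C2) * (2 * n) := h8
      _ = (1 - κ) ^ 2 * (t / 2) * ((1 - κ) ^ 2 * (2 * C2) * (2 * n)) - a * n := h7.symm
      _ ≤ _ := by linarith
  have h6 := (abs_le.mp h3').2
  have h7 : ∑ x ∈ range (2 * n + 1), fi B X L i x * Lw w (2 * n - x) =
      ∑ x ∈ range (2 * n + 1), fB B X x * Lw w (2 * n - x) := by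
    refine Finset.sum_congr rfl fun x hx => ?_
    rw [Finset.mem_range] at hx
    unfold fi
    rw [if_pos (by omega)]
  have h8 : θ * L ≤ t * C2 * κ * (1 - κ) ^ 6 * (((i + 1) * L : ℕ) : ℝ) := by
    rw [hθ]
    exact mul_le_mul_of_nonneg_left hLZ (by positivity)
  have h9 : t * C2 * (1 - κ) ^ 7 * (((i + 1) * L : ℕ) : ℝ) =
      (1 - κ) ^ 6 * (t * C2) * (((i + 1) * L : ℕ) : ℝ) -
        t * C2 * κ * (1 - κ) ^ 6 * (((i + 1) * L : ℕ) : ℝ) := by ring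
  unfold blk
  rw [Finset.mem_filter, Finset.mem_Ico, h7, h9]
  refine ⟨⟨by omega, by omega⟩, ?_⟩
  linarith

/-- the total mass function truncated at `2 X` -/
noncomputable def lamTr (X n : ℕ) : ℝ := if n ≤ 2 * X then lam n else 0

lemma lamTr_nonneg (X n : ℕ) : 0 ≤ lamTr X n := by
  unfold lamTr; split_ifs
  · exact lam_nonneg n
  · exact le_rfl

lemma lamTr_le (X n : ℕ) : lamTr X n ≤ lam n := by
  unfold lamTr; split_ifs
  · exact le_rfl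
  · exact lam_nonneg n

/-- the `L¹` error function -/
noncomputable def gErr (f : ℕ → ℝ) (w N : ℕ) : ℝ :=
  |∑ x ∈ range (N + 1), f x * lam (N - x) - ∑ x ∈ range (N + 1), f x * Lw w (N - x)|

lemma gErr_nonneg (f : ℕ → ℝ) (w N : ℕ) : 0 ≤ gErr f w N := abs_nonneg _

open Classical in
/-- the covering of the set of exceptions -/
lemma cover_all {t κ θ a : ℝ} (ht0 : 0 < t) (ht1 : t ≤ 1) (hκ0 : 0 < κ) (hκ1 : κ < 1)
    (hθ : θ = t * C2 * κ * (1 - κ) ^ 6) (hθ2 : θ ≤ κ * (1 - κ) * (2 * C2))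
    (ha : a = 2 * κ * (1 - κ) ^ 4 * t * C2)
    {w L J i₀ X N₀ N₁ : ℕ} (hi₀ : 1 / κ ≤ i₀)
    (hL1 : 1 ≤ L) (hNL : N₀ ≤ L) (hN1L : 2 * N₁ ≤ L)
    (hN₀ : ∀ N : ℕ, N₀ ≤ N → Even N →
      (1 - κ) * (2 * C2) * N ≤ ∑ x ∈ range (N + 1), lam x * Lw w (N - x))
    (hN₁ : ∀ n X : ℕ, N₁ ≤ n → n ≤ X → ∀ (t : ℝ) (B : Set ℕ), 0 < t → t ≤ 1 →
      t * reps n ≤ hits B n →
      (1 - κ) ^ 2 * (t / 2) * ∑ x ∈ range (2 * n + 1), lam x * lam (2 * n - x) - a * n ≤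
        ∑ x ∈ range (2 * n + 1), fB B X x * lam (2 * n - x))
    (B : Set ℕ) :
    ((Finset.Icc 1 X).filter (fun n => t * reps n ≤ hits B n)).image (fun n => 2 * n) ⊆
      (((Finset.Icc 1 (i₀ * L)) ∪ (Finset.Ioc (L * J) (2 * X))) ∪
        (((range (2 * X + 1)).filter (fun N => θ * L < gErr (fB B X) w N)) ∪
         ((range (2 * X + 1)).filter (fun N => θ * L < gErr (lamTr X) w N)))) ∪
      (range J).biUnion
        (fun i => blk B X L w i (t * C2 * (1 - κ) ^ 7 * (((i + 1) * L : ℕ) : ℝ))) := by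
  intro N hN
  rw [Finset.mem_image] at hN
  obtain ⟨n, hn, rfl⟩ := hN
  rw [Finset.mem_filter, Finset.mem_Icc] at hn
  obtain ⟨⟨hn1, hnX⟩, hth⟩ := hn
  rw [Finset.mem_union, Finset.mem_union, Finset.mem_union, Finset.mem_union]
  by_contra hcon
  push Not at hcon
  obtain ⟨⟨⟨h1, h2⟩, h3, h4⟩, h5⟩ := hcon
  rw [Finset.mem_Icc] at h1
  rw [Finset.mem_Ioc] at h2
  have h1' : i₀ * L < 2 * n := by
    by_contra h
    exact h1 ⟨by omega, by omega⟩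
  have h2' : 2 * n ≤ L * J := by
    by_contra h
    exact h2 ⟨by omega, by omega⟩
  rw [Finset.mem_filter, Finset.mem_range] at h3
  rw [Finset.mem_filter, Finset.mem_range] at h4
  have h3' : gErr (fB B X) w (2 * n) ≤ θ * L := by
    by_contra h
    exact h3 ⟨by omega, not_le.mp h⟩
  have h4' : gErr (lamTr X) w (2 * n) ≤ θ * L := by
    by_contra h
    exact h4 ⟨by omega, not_le.mp h⟩
  unfold gErr at h3' h4'
  have h7 : ∑ x ∈ range (2 * n + 1), lamTr X x * lam (2 * n - x) =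
      ∑ x ∈ range (2 * n + 1), lam x * lam (2 * n - x) := by
    refine Finset.sum_congr rfl fun x hx => ?_
    rw [Finset.mem_range] at hx
    unfold lamTr
    rw [if_pos (by omega)]
  have h8 : ∑ x ∈ range (2 * n + 1), lamTr X x * Lw w (2 * n - x) =
      ∑ x ∈ range (2 * n + 1), lam x * Lw w (2 * n - x) := by
    refine Finset.sum_congr rfl fun x hx => ?_
    rw [Finset.mem_range] at hx
    unfold lamTr
    rw [if_pos (by omega)]
  rw [h7, h8] at h4'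
  obtain ⟨i, hi, hmem⟩ := cover_step ht0 ht1 hκ0 hκ1 hθ hθ2 ha hi₀ hL1 hNL hN1L hN₀ hN₁ B hnX hth
    h1' h2' h3' h4'
  apply h5
  rw [Finset.mem_biUnion]
  exact ⟨i, Finset.mem_range.mpr hi, hmem⟩

/-- the final count -/
lemma final_count {D κ : ℝ} (hD0 : 0 < D) (hκ1 : κ < 1) {k i₀ J L X : ℕ}
    (hi₀pos : 0 < i₀) (hJ1 : 1 ≤ J)
    (hJD : 16 * i₀ / D ≤ J) (hXD : 16 * J / D ≤ (X : ℝ)) (hLJ : L * J ≤ 2 * X)
    (hLJ' : 2 * X < (L + 1) * J) (hpow : 16 * (1 - κ) ^ k ≤ D)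
    (Bad E1 E2 : Finset ℕ) (Blk : ℕ → Finset ℕ)
    (hcover : Bad.image (fun n => 2 * n) ⊆ (((Finset.Icc 1 (i₀ * L)) ∪
      (Finset.Ioc (L * J) (2 * X))) ∪ (E1 ∪ E2)) ∪ (range J).biUnion Blk)
    (e1 : (E1.card : ℝ) ≤ D / 16 * X) (e2 : (E2.card : ℝ) ≤ D / 16 * X)
    (hBlkCard : ∀ i, ((Blk i).card : ℝ) ≤ 2 * L * (1 - κ) ^ k) :
    (Bad.card : ℝ) ≤ D * X := by
  have h1κ : 0 < 1 - κ := by linarith
  have hJR : (0 : ℝ) < J := by exact_mod_cast hJ1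
  have hi₀R : (0 : ℝ) < i₀ := by exact_mod_cast hi₀pos
  have hXR : (0 : ℝ) < X := lt_of_lt_of_le (by positivity) hXD
  have hLJR : (L : ℝ) * J ≤ 2 * X := by exact_mod_cast hLJ
  have hcardImg : (Bad.image (fun n => 2 * n)).card = Bad.card := by
    apply Finset.card_image_of_injective
    intro x y hxy
    have hxy' : 2 * x = 2 * y := hxy
    omega
  have hcard := Finset.card_le_card hcover
  rw [hcardImg] at hcard
  have hc1 := Finset.card_union_le (((Finset.Icc 1 (i₀ * L)) ∪ (Finset.Ioc (L * J) (2 * X)))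
      ∪ (E1 ∪ E2)) ((range J).biUnion Blk)
  have hc2 := Finset.card_union_le ((Finset.Icc 1 (i₀ * L)) ∪ (Finset.Ioc (L * J) (2 * X)))
    (E1 ∪ E2)
  have hc3 := Finset.card_union_le (Finset.Icc 1 (i₀ * L)) (Finset.Ioc (L * J) (2 * X))
  have hc4 := Finset.card_union_le E1 E2
  have hc5 := Finset.card_biUnion_le (s := range J) (t := Blk)
  rw [Nat.card_Icc, Nat.card_Ioc] at hc3
  have hc6 : 2 * X - L * J < J := by
    have : (L + 1) * J = L * J + J := by ring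
    omega
  have hcardN : Bad.card ≤ i₀ * L + J + E1.card + E2.card + ∑ i ∈ range J, (Blk i).card := by
    omega
  have hcardR : (Bad.card : ℝ) ≤ i₀ * L + J + E1.card + E2.card +
      ∑ i ∈ range J, ((Blk i).card : ℝ) := by exact_mod_cast hcardN
  have hsumBlk : ∑ i ∈ range J, ((Blk i).card : ℝ) ≤ D / 4 * X := by
    calc ∑ i ∈ range J, ((Blk i).card : ℝ) ≤ ∑ i ∈ range J, 2 * L * (1 - κ) ^ k :=
          Finset.sum_le_sum fun i _ => hBlkCard i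
      _ = 2 * (L * J) * (1 - κ) ^ k := by
          rw [Finset.sum_const, card_range, nsmul_eq_mul]; ring
      _ ≤ 2 * (2 * X) * (1 - κ) ^ k := by
          apply mul_le_mul_of_nonneg_right _ (by positivity)
          linarith
      _ = X / 4 * (16 * (1 - κ) ^ k) := by ring
      _ ≤ X / 4 * D := mul_le_mul_of_nonneg_left hpow (by positivity)
      _ = D / 4 * X := by ring
  have hi₀L : (i₀ : ℝ) * L ≤ D / 8 * X := by
    have h1 : (i₀ : ℝ) * 16 ≤ J * D := by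
      rw [div_le_iff₀ hD0] at hJD
      linarith
    have h2 : (i₀ : ℝ) * L * J ≤ D / 8 * X * J := by
      calc (i₀ : ℝ) * L * J = i₀ * (L * J) := by ring
        _ ≤ i₀ * (2 * X) := mul_le_mul_of_nonneg_left hLJR hi₀R.le
        _ = (i₀ * 16) * (X / 8) := by ring
        _ ≤ (J * D) * (X / 8) := mul_le_mul_of_nonneg_right h1 (by positivity)
        _ = D / 8 * X * J := by ring
    exact le_of_mul_le_mul_right h2 hJR
  have hJX : (J : ℝ) ≤ D / 16 * X := by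
    rw [div_le_iff₀ hD0] at hXD
    linarith
  have : 0 < D * X := by positivity
  linarith

/-- Robust Goldbach, upper bound with the exact constant. -/
theorem upper_sharp (hT : TransferP) (hU : UniformP) : ∀ t : ℝ, 0 < t → t ≤ 1 → ∀ ε : ℝ, 0 < ε →
    ∃ η₀ : ℝ, 0 < η₀ ∧ ∀ η : ℝ, 0 < η → η ≤ η₀ → ∀ Y : ℕ, ∃ X₀ : ℕ, ∀ X : ℕ, X₀ ≤ X →
      ∀ B : Set ℕ, SparseFrom B η Y →
        (((Finset.Icc 1 X).filter (fun n => t * reps n ≤ hits B n)).card : ℝ) ≤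
          Real.exp (-Real.exp ((t * kap - ε) / η)) * X := by
  classical
  intro t ht0 ht1 ε hε
  have hC2 := C2_pos
  have hkap := kap_pos
  obtain ⟨c₀, hc₀⟩ : ∃ c₀, c₀ = t * kap := ⟨_, rfl⟩
  have hc₀0 : 0 < c₀ := by rw [hc₀]; positivity
  obtain ⟨δ, hδdef⟩ : ∃ δ, δ = min (ε / 4) (c₀ / 8) := ⟨_, rfl⟩
  have hδ : 0 < δ := by rw [hδdef]; positivity
  have hδ1 : 4 * δ ≤ ε := by have := min_le_left (ε / 4) (c₀ / 8); linarith
  have hδ2 : 8 * δ ≤ c₀ := by have := min_le_right (ε / 4) (c₀ / 8); linarith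
  obtain ⟨κ, hκdef⟩ : ∃ κ, κ = min (1 / 10) (δ / (6 * c₀)) := ⟨_, rfl⟩
  have hκ0 : 0 < κ := by rw [hκdef]; positivity
  have hκ1 : κ ≤ 1 / 10 := by rw [hκdef]; exact min_le_left _ _
  have hκ2 : κ * (6 * c₀) ≤ δ := by
    have h1 : κ ≤ δ / (6 * c₀) := by rw [hκdef]; exact min_le_right _ _
    rwa [le_div_iff₀ (by positivity)] at h1
  have hκ1' : κ < 1 := by linarith
  have h1κ : 0 < 1 - κ := by linarith
  obtain ⟨α, hα⟩ : ∃ α, α = c₀ - 2 * δ := ⟨_, rfl⟩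
  have hα0 : 0 < α := by linarith
  have hfin : α * (1 + 2 * κ) ≤ t * kap * (1 - κ) ^ 9 := by
    rw [← hc₀]
    have hb' : 1 - 9 * κ ≤ (1 - κ) ^ 9 := by
      have e1 : 1 + (9 : ℕ) * (-κ) = 1 - 9 * κ := by push_cast; ring
      have e2 : (1 + (-κ)) ^ 9 = (1 - κ) ^ 9 := by ring
      have := one_add_mul_le_pow (show (-2 : ℝ) ≤ -κ by linarith) 9
      rw [e1, e2] at this
      exact this
    have h2 : α * (1 + 2 * κ) ≤ c₀ * (1 - 9 * κ) := by nlinarith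
    exact h2.trans (mul_le_mul_of_nonneg_left hb' hc₀0.le)
  -- threshold for `V`
  have hVev : ∀ᶠ z : ℕ in atTop, (1 - κ) * Real.exp (-Real.eulerMascheroniConstant) <
      Real.log z * V z := V_log_tendsto.eventually_const_lt
        (mul_lt_of_lt_one_left (Real.exp_pos _) (by linarith))
  obtain ⟨K₁, hK₁⟩ := Filter.eventually_atTop.mp hVev
  obtain ⟨η₀, hη₀, hpar⟩ := params_sharp hδ (by linarith : 4 * δ ≤ c₀) hκ0 hκ1' K₁
  refine ⟨η₀, hη₀, fun η hη hηη Y => ?_⟩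
  obtain ⟨K, k, hK2, hKK₁, hlogK, hexpK, hpow⟩ := hpar η hη hηη
  obtain ⟨D, hD⟩ : ∃ D, D = Real.exp (-Real.exp ((c₀ - 4 * δ) / η)) := ⟨_, rfl⟩
  rw [← hD] at hpow
  rw [← hα] at hlogK
  have hD0 : 0 < D := by rw [hD]; exact Real.exp_pos _
  have hDle : D ≤ Real.exp (-Real.exp ((t * kap - ε) / η)) := by
    rw [hD, ← hc₀]
    apply Real.exp_le_exp.mpr
    apply neg_le_neg
    apply Real.exp_le_exp.mpr
    apply div_le_div_of_nonneg_right _ hη.le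
    linarith
  obtain ⟨i₀, hi₀⟩ : ∃ i₀ : ℕ, i₀ = ⌈1 / κ⌉₊ := ⟨_, rfl⟩
  have hi₀κ : 1 / κ ≤ i₀ := by rw [hi₀]; exact Nat.le_ceil _
  have hi₀pos : (0 : ℝ) < i₀ := lt_of_lt_of_le (by positivity) hi₀κ
  have hi₀pos' : 0 < i₀ := by exact_mod_cast hi₀pos
  obtain ⟨J, hJ⟩ : ∃ J : ℕ, J = ⌈16 * (i₀ : ℝ) / D⌉₊ + 1 := ⟨_, rfl⟩
  have hJ1 : 1 ≤ J := by omega
  have hJR : (0 : ℝ) < J := by exact_mod_cast hJ1
  have hJD : 16 * i₀ / D ≤ J := by
    have := Nat.le_ceil (16 * (i₀ : ℝ) / D)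
    have h2 : (J : ℝ) = ⌈16 * (i₀ : ℝ) / D⌉₊ + 1 := by rw [hJ]; push_cast; ring
    linarith
  obtain ⟨θ, hθ⟩ : ∃ θ : ℝ, θ = t * C2 * κ * (1 - κ) ^ 6 := ⟨_, rfl⟩
  have hθ0 : 0 < θ := by rw [hθ]; positivity
  have hθ2 : θ ≤ κ * (1 - κ) * (2 * C2) := by
    rw [hθ]
    have h1 : (1 - κ) ^ 6 ≤ (1 - κ) ^ 1 := pow_le_pow_of_le_one h1κ.le (by linarith) (by norm_num)
    rw [pow_one] at h1
    have h2 : t * C2 * κ * (1 - κ) ^ 6 ≤ 1 * C2 * κ * (1 - κ) := by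
      apply mul_le_mul _ h1 (by positivity) (by positivity)
      apply mul_le_mul_of_nonneg_right _ hκ0.le
      exact mul_le_mul_of_nonneg_right ht1 hC2.le
    nlinarith [mul_pos (mul_pos hC2 hκ0) h1κ]
  obtain ⟨ε₁, hε₁⟩ : ∃ ε₁ : ℝ, ε₁ = D * θ / (64 * J) := ⟨_, rfl⟩
  have hε₁0 : 0 < ε₁ := by rw [hε₁]; positivity
  obtain ⟨w₀, hw₀⟩ := l1_bound hT hU ε₁ hε₁0
  obtain ⟨w, hw⟩ : ∃ w : ℕ, w = max w₀ (max K 2) := ⟨_, rfl⟩
  have hww₀ : w₀ ≤ w := by rw [hw]; exact le_max_left _ _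
  have hKw : K ≤ w := by rw [hw]; exact (le_max_left _ _).trans (le_max_right _ _)
  have hw2 : 2 ≤ w := by rw [hw]; exact (le_max_right _ _).trans (le_max_right _ _)
  obtain ⟨X₁, hX₁⟩ := hw₀ w hww₀
  obtain ⟨Z₀, hZ₀⟩ := window_count (k := k) hK2 hKw
  obtain ⟨N₀, hN₀⟩ := main_lower_twin hw2 hκ0
  obtain ⟨y₀, hy₀⟩ := mass_sharp hκ0
  obtain ⟨a, ha⟩ : ∃ a : ℝ, a = 2 * κ * (1 - κ) ^ 4 * t * C2 := ⟨_, rfl⟩
  have ha0 : 0 < a := by rw [ha]; positivity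
  obtain ⟨N₁, hN₁⟩ := conv_sharp hκ0 hκ1' ha0
  -- the threshold
  obtain ⟨M, hM⟩ : ∃ M : ℕ, M = Z₀ + N₀ + y₀ + Y + 2 * N₁ + 1 := ⟨_, rfl⟩
  refine ⟨X₁ + J * M + J + ⌈16 * (J : ℝ) / D⌉₊, fun X hX B hB => ?_⟩
  have hXX₁ : X₁ ≤ 2 * X := by omega
  have hXJ : J ≤ X := by omega
  have hXJM : J * M ≤ X := by omega
  have hXD : 16 * J / D ≤ (X : ℝ) := by
    have h1 : (⌈16 * (J : ℝ) / D⌉₊ : ℝ) ≤ X := by
      exact_mod_cast (by omega : ⌈16 * (J : ℝ) / D⌉₊ ≤ X)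
    exact (Nat.le_ceil _).trans h1
  have hXR : (0 : ℝ) < X := by exact_mod_cast (by omega : 0 < X)
  obtain ⟨L, hL⟩ : ∃ L : ℕ, L = 2 * X / J := ⟨_, rfl⟩
  have hLJ : L * J ≤ 2 * X := by rw [hL]; exact Nat.div_mul_le_self _ _
  have hLJ' : 2 * X < (L + 1) * J := by rw [hL]; exact LA.lt_div_add_one_mul (by omega)
  have hML : M ≤ L := by
    rw [hL, Nat.le_div_iff_mul_le (by omega)]
    have : M * J = J * M := by ring
    omega
  have hL1 : 1 ≤ L := by omega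
  have hLR : (0 : ℝ) < L := by exact_mod_cast hL1
  have hLX : (X : ℝ) / J ≤ L := by
    rw [div_le_iff₀ hJR]
    have h1 : (2 : ℝ) * X < (L + 1) * J := by exact_mod_cast hLJ'
    have h2 : (J : ℝ) ≤ X := by exact_mod_cast hXJ
    linarith
  have hτ0 : 0 < θ * L := by positivity
  have hE1 := card_of_l1' (X := 2 * X) (g := gErr (fB B X) w) (gErr_nonneg _ w) hτ0
    (hX₁ (2 * X) hXX₁ (fB B X) (fB_nonneg B X) (fB_le B X) (fB_supp B X))
  have hE2 := card_of_l1' (X := 2 * X) (g := gErr (lamTr X) w) (gErr_nonneg _ w) hτ0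
    (hX₁ (2 * X) hXX₁ (lamTr X) (lamTr_nonneg X) (lamTr_le X)
      (fun n hn => by unfold lamTr; rw [if_neg (by omega)]))
  have hEbound : ε₁ * ((2 * X : ℕ) : ℝ) ^ 2 / (θ * L) ≤ D / 16 * X := by
    rw [div_le_iff₀ hτ0]
    push_cast
    have h1 : ε₁ * (2 * (X : ℝ)) ^ 2 = D / 16 * X * (θ * (X / J)) := by
      rw [hε₁]
      field_simp
      ring
    rw [h1]
    apply mul_le_mul_of_nonneg_left _ (by positivity)
    exact mul_le_mul_of_nonneg_left hLX hθ0.le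
  have hBlk : ∀ i : ℕ, ((blk B X L w i
      (t * C2 * (1 - κ) ^ 7 * (((i + 1) * L : ℕ) : ℝ))).card : ℝ) ≤ 2 * L * (1 - κ) ^ k :=
    fun i => block_card ht0 hκ0 hκ1' hα0 hη (hK₁ K hKK₁) hlogK hexpK hfin hZ₀ hy₀ hL1
      (by omega) (by omega) (by omega) B hB X i
  have hcov := cover_all ht0 ht1 hκ0 hκ1' hθ hθ2 ha hi₀κ hL1 (J := J) (X := X)
    (by omega : N₀ ≤ L) (by omega : 2 * N₁ ≤ L) hN₀ hN₁ B
  have hfinal := final_count hD0 hκ1' hi₀pos' hJ1 hJD hXD hLJ hLJ' hpow _ _ _ _ hcov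
    (hE1.trans hEbound) (hE2.trans hEbound) hBlk
  exact hfinal.trans (mul_le_mul_of_nonneg_right hDle hXR.le)

end Pool.Agent.Lib.GT.Robust
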