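import Pool.Agent.Lib.MP_7b7e48_nt.GT.RobustLocal
import Pool.Agent.Lib.MP_7b7e48_nt.GT.RobustUpperMain

/-!
# Equidistribution of Goldbach pairs among the admissible classes
-/

open Finset Filter Topology Pool.Agent.Lib.GT Pool.Agent.Lib.GT.LA

namespace Pool.Agent.Lib.GT.Robust

lemma ell_le {w N c : ℕ} : ell (pr w) N c ≤ (V w)⁻¹ := by
  unfold ell V
  rw [← Finset.prod_inv_distrib]
  refine Finset.prod_le_prod (fun p hp => el_nonneg (mem_pr.mp hp).2.two_le N c) fun p hp => ?_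
  have h1 := one_sub_inv_pos (mem_pr.mp hp).2.two_le
  unfold el
  split_ifs
  · positivity
  · exact le_rfl

/-- decomposition into classes modulo `Wp w` -/
lemma sum_classes (w N : ℕ) (g : ℕ → ℝ) :
    ∑ x ∈ Finset.Icc 1 N, g x * Lw w (N - x) =
      ∑ c ∈ range (Wp w), ell (pr w) N c * ∑ n ∈ Finset.Icc 1 N with n % Wp w = c, g n := by
  have hWp := Wp_pos w
  have h4 := Finset.sum_fiberwise_of_maps_to (s := Finset.Icc 1 N) (t := range (Wp w))
    (g := fun x => x % Wp w) (fun x _ => mem_range.mpr (Nat.mod_lt _ hWp))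
    (fun x => g x * Lw w (N - x))
  rw [← h4]
  refine Finset.sum_congr rfl fun c _ => ?_
  rw [Finset.mul_sum]
  refine Finset.sum_congr rfl fun x hx => ?_
  rw [Finset.mem_filter, Finset.mem_Icc] at hx
  rw [Lw_sub_eq hx.1.2, ell_congr (P := pr w) (N := N) (x := x) (y := c), mul_comm]
  intro p hp
  rw [← hx.2, Nat.mod_mod_of_dvd _ (dvd_Wp hp)]

lemma range_to_Icc (N : ℕ) (g h : ℕ → ℝ) (h0 : g 0 = 0) :
    ∑ x ∈ range (N + 1), g x * h x = ∑ x ∈ Finset.Icc 1 N, g x * h x := by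
  rw [Finset.range_eq_Ico, ← Finset.sum_Ioo_add_eq_sum_Ico (by omega), h0, zero_mul, add_zero]
  refine Finset.sum_congr ?_ fun _ _ => rfl
  ext x
  rw [Finset.mem_Ioo, Finset.mem_Icc]
  omega

/-- the classes of `lam` modulo `Wp w`: two-sided -/
lemma lam_classes {w : ℕ} {κ : ℝ} (hκ : 0 < κ) : ∃ N₀ : ℕ, ∀ N : ℕ, N₀ ≤ N →
    ∀ c ∈ (range (Wp w)).filter (fun c => c.Coprime (Wp w)),
      (1 - κ) * (N / (Wp w).totient) ≤ ∑ n ∈ Finset.Icc 1 N with n % Wp w = c, lam n ∧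
      ∑ n ∈ Finset.Icc 1 N with n % Wp w = c, lam n ≤ (1 + κ) * (N / (Wp w).totient) := by
  have hWp := Wp_pos w
  have htot : (0 : ℝ) < (Wp w).totient := by exact_mod_cast Nat.totient_pos.mpr hWp
  have h1 : ∀ᶠ N : ℕ in Filter.atTop, ∀ c ∈ (range (Wp w)).filter (fun c => c.Coprime (Wp w)),
      (1 - κ) * (N / (Wp w).totient) ≤ ∑ n ∈ Finset.Icc 1 N with n % Wp w = c, lam n ∧
      ∑ n ∈ Finset.Icc 1 N with n % Wp w = c, lam n ≤ (1 + κ) * (N / (Wp w).totient) := by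
    rw [Filter.eventually_all_finset]
    intro c hc
    rw [Finset.mem_filter, Finset.mem_range] at hc
    have h2 := pnt_ap (Wp w) c hWp hc.2
    have h3 : (1 - κ) / ((Wp w).totient : ℝ) < 1 / ((Wp w).totient : ℝ) :=
      div_lt_div_of_pos_right (by linarith) htot
    have h3' : 1 / ((Wp w).totient : ℝ) < (1 + κ) / ((Wp w).totient : ℝ) :=
      div_lt_div_of_pos_right (by linarith) htot
    filter_upwards [h2.eventually_const_lt h3, h2.eventually_lt_const h3',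
      Filter.eventually_gt_atTop 0] with N hN hN' hN0
    rw [Nat.mod_eq_of_lt hc.1] at hN hN'
    have hNR : (0 : ℝ) < N := by exact_mod_cast hN0
    rw [lt_div_iff₀ hNR] at hN
    rw [div_lt_iff₀ hNR] at hN'
    constructor
    · calc (1 - κ) * (N / (Wp w).totient) = (1 - κ) / (Wp w).totient * N := by ring
        _ ≤ _ := hN.le
    · calc _ ≤ (1 + κ) / (Wp w).totient * N := hN'.le
        _ = _ := by ring
  exact Filter.eventually_atTop.mp h1

lemma ell_nn (w N c : ℕ) : 0 ≤ ell (pr w) N c :=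
  ell_nonneg (fun p hp => (mem_pr.mp hp).2.two_le) N c

/-- lower bound over a set of classes -/
lemma T_main_lower {z w : ℕ} (hzw : z ≤ w) {κ : ℝ} (hκ1 : κ < 1) {N : ℕ}
    (hNa : ∀ c ∈ (range (Wp w)).filter (fun c => c.Coprime (Wp w)),
      (1 - κ) * (N / (Wp w).totient) ≤ ∑ n ∈ Finset.Icc 1 N with n % Wp w = c, lam n)
    (hN : N % Wp z = 2 % Wp z) {T : Finset ℕ} (hT : T ⊆ adm z) :
    (1 - κ) * (N / (Wp w).totient) * (T.card * lamLoc z w N) ≤
      ∑ x ∈ range (N + 1), (if x % Wp z ∈ T then lam x else 0) * Lw w (N - x) := by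
  classical
  rw [range_to_Icc N (fun x => if x % Wp z ∈ T then lam x else 0) (fun x => Lw w (N - x))
    (by simp [lam_zero]), sum_classes, ← T_local hzw hN hT, Finset.mul_sum]
  have hdvd : Wp z ∣ Wp w := by
    unfold Wp
    refine Finset.prod_dvd_prod_of_subset _ _ _ fun p hp => ?_
    exact mem_pr.mpr ⟨(mem_pr.mp hp).1.trans hzw, (mem_pr.mp hp).2⟩
  refine le_trans (Finset.sum_le_sum (g := fun c => ell (pr w) N c *
      ∑ n ∈ Finset.Icc 1 N with n % Wp w = c, (if n % Wp z ∈ T then lam n else 0)) ?_) ?_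
  · intro c hc
    rw [Finset.mem_filter] at hc
    show _ ≤ ell (pr w) N c * _
    rw [mul_comm]
    refine mul_le_mul_of_nonneg_left ?_ (ell_nn w N c)
    refine (hNa c (Finset.mem_filter.mpr ⟨hc.1, hc.2.1⟩)).trans (le_of_eq ?_)
    refine Finset.sum_congr rfl fun n hn => ?_
    rw [Finset.mem_filter] at hn
    rw [if_pos]
    have : n % Wp z = c % Wp z := by
      rw [← hn.2, Nat.mod_mod_of_dvd _ hdvd]
    rw [this]
    exact hc.2.2
  · refine Finset.sum_le_sum_of_subset_of_nonneg (Finset.filter_subset _ _) fun c _ _ => ?_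
    refine mul_nonneg (ell_nn w N c) (Finset.sum_nonneg fun n _ => ?_)
    split_ifs
    · exact lam_nonneg n
    · exact le_rfl

/-- upper bound for the total -/
lemma main_upper' {z w : ℕ} (hzw : z ≤ w) {κ : ℝ} (hκ0 : 0 < κ) {N : ℕ}
    (hNa : ∀ c ∈ (range (Wp w)).filter (fun c => c.Coprime (Wp w)),
      ∑ n ∈ Finset.Icc 1 N with n % Wp w = c, lam n ≤ (1 + κ) * (N / (Wp w).totient))
    (hN : N % Wp z = 2 % Wp z) :
    ∑ x ∈ range (N + 1), lam x * Lw w (N - x) ≤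
      (1 + κ) * (N / (Wp w).totient) * ((adm z).card * lamLoc z w N) +
        (V w)⁻¹ * ∑ p ∈ pr w, lam p := by
  classical
  rw [range_to_Icc N lam (fun x => Lw w (N - x)) lam_zero, sum_classes,
    ← total_local hzw hN,
    ← Finset.sum_filter_add_sum_filter_not (range (Wp w)) (fun c => c.Coprime (Wp w))]
  refine add_le_add ?_ ?_
  · rw [Finset.mul_sum]
    refine Finset.sum_le_sum fun c hc => ?_
    rw [mul_comm _ (ell (pr w) N c)]
    exact mul_le_mul_of_nonneg_left (hNa c hc) (ell_nn w N c)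
  · calc ∑ c ∈ (range (Wp w)).filter (fun c => ¬ c.Coprime (Wp w)),
          ell (pr w) N c * ∑ n ∈ Finset.Icc 1 N with n % Wp w = c, lam n
        ≤ ∑ c ∈ (range (Wp w)).filter (fun c => ¬ c.Coprime (Wp w)),
          (V w)⁻¹ * ∑ n ∈ Finset.Icc 1 N with n % Wp w = c, lam n :=
          Finset.sum_le_sum fun c _ => mul_le_mul_of_nonneg_right ell_le
            (Finset.sum_nonneg fun n _ => lam_nonneg n)
      _ = (V w)⁻¹ * ∑ c ∈ (range (Wp w)).filter (fun c => ¬ c.Coprime (Wp w)),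
          ∑ n ∈ Finset.Icc 1 N with n % Wp w = c, lam n := by rw [Finset.mul_sum]
      _ = (V w)⁻¹ * ∑ n ∈ (Finset.Icc 1 N).filter (fun n => ¬ (n % Wp w).Coprime (Wp w)),
          lam n := by
          congr 1
          rw [← Finset.sum_fiberwise_of_maps_to
            (s := (Finset.Icc 1 N).filter (fun n => ¬ (n % Wp w).Coprime (Wp w)))
            (t := (range (Wp w)).filter (fun c => ¬ c.Coprime (Wp w)))
            (g := fun n => n % Wp w) (fun n hn => Finset.mem_filter.mpr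
              ⟨mem_range.mpr (Nat.mod_lt _ (Wp_pos w)), (Finset.mem_filter.mp hn).2⟩)]
          refine Finset.sum_congr rfl fun c hc => ?_
          rw [Finset.mem_filter] at hc
          refine Finset.sum_congr ?_ fun _ _ => rfl
          ext n
          simp only [Finset.mem_filter]
          constructor
          · rintro ⟨h1, h2⟩; exact ⟨⟨h1, by rw [h2]; exact hc.2⟩, h2⟩
          · rintro ⟨⟨h1, _⟩, h2⟩; exact ⟨h1, h2⟩
      _ ≤ (V w)⁻¹ * ∑ p ∈ pr w, lam p := by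
          refine mul_le_mul_of_nonneg_left ?_ (inv_pos.mpr (V_pos w)).le
          have h1 : ∑ n ∈ (Finset.Icc 1 N).filter (fun n => ¬ (n % Wp w).Coprime (Wp w)), lam n =
              ∑ n ∈ ((Finset.Icc 1 N).filter
                (fun n => ¬ (n % Wp w).Coprime (Wp w))).filter Nat.Prime, lam n := by
            symm
            refine Finset.sum_subset (Finset.filter_subset _ _) fun n hn hn' => ?_
            unfold lam
            rw [if_neg (fun h => hn' (Finset.mem_filter.mpr ⟨hn, h⟩))]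
          rw [h1]
          refine Finset.sum_le_sum_of_subset_of_nonneg ?_ fun p _ _ => lam_nonneg p
          intro n hn
          rw [Finset.mem_filter, Finset.mem_filter] at hn
          obtain ⟨⟨_, h2⟩, hp⟩ := hn
          rw [mem_pr]
          refine ⟨?_, hp⟩
          by_contra hwn
          apply h2
          rw [Nat.coprime_iff_gcd_eq_one, ← Nat.gcd_rec, Nat.gcd_comm]
          have h3 : Rough w n := by
            intro q hq hqn
            rw [(Nat.prime_dvd_prime_iff_eq hq hp).mp hqn]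
            omega
          exact rough_iff_coprime.mp h3

/-- Equidistribution at the level of the sieve weight. -/
theorem equi_sieve {z w : ℕ} (hz : 2 ≤ z) (hzw : z ≤ w) {κ : ℝ} (hκ : 0 < κ) (hκ1 : κ < 1) :
    ∃ N₀ : ℕ, ∀ N : ℕ, N₀ ≤ N → Even N → N % Wp z = 2 % Wp z → ∀ T ⊆ adm z,
      (1 - κ) * ((T.card : ℝ) / (adm z).card) * ∑ x ∈ range (N + 1), lam x * Lw w (N - x) ≤
        ∑ x ∈ range (N + 1), (if x % Wp z ∈ T then lam x else 0) * Lw w (N - x) := by
  have hC2 := C2_pos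
  have hWp := Wp_pos w
  have htot : (0 : ℝ) < (Wp w).totient := by exact_mod_cast Nat.totient_pos.mpr hWp
  obtain ⟨C, hC⟩ : ∃ C, C = (V w)⁻¹ * ∑ p ∈ pr w, lam p := ⟨_, rfl⟩
  obtain ⟨κ', hκ'⟩ : ∃ κ', κ' = κ / 3 := ⟨_, rfl⟩
  have hκ'0 : 0 < κ' := by rw [hκ']; positivity
  obtain ⟨N₁, hN₁⟩ := lam_classes (w := w) hκ'0
  refine ⟨max N₁ ⌈C / (κ' * (2 * C2))⌉₊, fun N hN hE hN2 T hT => ?_⟩
  have hNa := hN₁ N ((le_max_left _ _).trans hN)
  have hNC : C ≤ κ' * (2 * C2) * N := by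
    have h1 : (⌈C / (κ' * (2 * C2))⌉₊ : ℝ) ≤ N := by exact_mod_cast (le_max_right _ _).trans hN
    have h2 := (Nat.le_ceil (C / (κ' * (2 * C2)))).trans h1
    rw [div_le_iff₀ (by positivity)] at h2
    linarith
  have h1 := T_main_lower hzw (by linarith : κ' < 1) (fun c hc => (hNa c hc).1) hN2 hT
  have h2 := main_upper' hzw hκ'0 (fun c hc => (hNa c hc).2) hN2
  rw [← hC] at h2
  have h3 := local_twin (hz.trans hzw) hE
  rw [total_local hzw hN2] at h3
  obtain ⟨Q, hQ⟩ : ∃ Q, Q = (N / (Wp w).totient : ℝ) * ((adm z).card * lamLoc z w N) := ⟨_, rfl⟩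
  have hadm : 0 < (adm z).card := by
    rcases Nat.eq_zero_or_pos (adm z).card with h0 | h0
    · rw [h0, Nat.cast_zero, zero_mul] at h3
      have : 0 < 2 * C2 * ((Wp w).totient : ℝ) := by positivity
      linarith
    · exact h0
  have hadmR : (0 : ℝ) < (adm z).card := by exact_mod_cast hadm
  have hQ2 : 2 * C2 * N ≤ Q := by
    rw [hQ]
    calc 2 * C2 * (N : ℝ) = (N / (Wp w).totient : ℝ) * (2 * C2 * (Wp w).totient) := by
          field_simp
      _ ≤ _ := mul_le_mul_of_nonneg_left h3 (by positivity)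
  have hρ : (0 : ℝ) ≤ (T.card : ℝ) / (adm z).card := by positivity
  have h4 : ∑ x ∈ range (N + 1), lam x * Lw w (N - x) ≤ (1 + 2 * κ') * Q := by
    have h5 : C ≤ κ' * Q := by
      calc C ≤ κ' * (2 * C2) * N := hNC
        _ = κ' * (2 * C2 * N) := by ring
        _ ≤ κ' * Q := mul_le_mul_of_nonneg_left hQ2 hκ'0.le
    have h6 : (1 + κ') * (N / (Wp w).totient : ℝ) * ((adm z).card * lamLoc z w N) =
      (1 + κ') * Q := by rw [hQ]; ring
    rw [h6] at h2
    linarith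
  have h5 : (1 - κ') * (N / (Wp w).totient : ℝ) * (T.card * lamLoc z w N) =
      (1 - κ') * ((T.card : ℝ) / (adm z).card) * Q := by
    rw [hQ]
    field_simp
  rw [h5] at h1
  refine le_trans ?_ h1
  have hQ0 : 0 ≤ Q := le_trans (by positivity) hQ2
  calc (1 - κ) * ((T.card : ℝ) / (adm z).card) * ∑ x ∈ range (N + 1), lam x * Lw w (N - x)
      ≤ (1 - κ) * ((T.card : ℝ) / (adm z).card) * ((1 + 2 * κ') * Q) := by
        apply mul_le_mul_of_nonneg_left h4
        apply mul_nonneg (by linarith) hρ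
    _ = ((1 - κ) * (1 + 2 * κ')) * (((T.card : ℝ) / (adm z).card) * Q) := by ring
    _ ≤ (1 - κ') * (((T.card : ℝ) / (adm z).card) * Q) := by
        apply mul_le_mul_of_nonneg_right _ (mul_nonneg hρ hQ0)
        rw [hκ']
        nlinarith
    _ = _ := by ring

/-- weighted number of pairs with first member in a class of `T` -/
noncomputable def RT (z : ℕ) (T : Finset ℕ) (N : ℕ) : ℝ :=
  ∑ x ∈ range (N + 1), (if x % Wp z ∈ T then lam x else 0) * lam (N - x)

/-- weighted number of pairs -/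
noncomputable def RR (N : ℕ) : ℝ := ∑ x ∈ range (N + 1), lam x * lam (N - x)

/-- the truncated function for a set of classes -/
noncomputable def fT (z : ℕ) (T : Finset ℕ) (X n : ℕ) : ℝ :=
  if n ≤ 2 * X ∧ n % Wp z ∈ T then lam n else 0

lemma fT_nonneg (z : ℕ) (T : Finset ℕ) (X n : ℕ) : 0 ≤ fT z T X n := by
  unfold fT; split_ifs
  · exact lam_nonneg n
  · exact le_rfl

lemma fT_le (z : ℕ) (T : Finset ℕ) (X n : ℕ) : fT z T X n ≤ lam n := by
  unfold fT; split_ifs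
  · exact le_rfl
  · exact lam_nonneg n

lemma fT_sum (z : ℕ) (T : Finset ℕ) {X n : ℕ} (hn : n ≤ X) (h : ℕ → ℝ) :
    ∑ x ∈ range (2 * n + 1), fT z T X x * h (2 * n - x) =
      ∑ x ∈ range (2 * n + 1), (if x % Wp z ∈ T then lam x else 0) * h (2 * n - x) := by
  refine Finset.sum_congr rfl fun x hx => ?_
  rw [Finset.mem_range] at hx
  unfold fT
  have h1 : x ≤ 2 * X := by omega
  simp only [h1, true_and]

lemma lamTr_sum {X n : ℕ} (hn : n ≤ X) (h : ℕ → ℝ) :
    ∑ x ∈ range (2 * n + 1), lamTr X x * h (2 * n - x) =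
      ∑ x ∈ range (2 * n + 1), lam x * h (2 * n - x) := by
  refine Finset.sum_congr rfl fun x hx => ?_
  rw [Finset.mem_range] at hx
  unfold lamTr
  rw [if_pos (by omega)]

open Classical in
/-- Goldbach pairs are equidistributed among the admissible classes, for almost all `n`. -/
theorem equi (hT' : TransferP) (hU : UniformP) {z : ℕ} (hz : 2 ≤ z) {T : Finset ℕ}
    (hT : T ⊆ adm z) (hTne : T.Nonempty) {κ δ : ℝ} (hκ : 0 < κ) (hκ1 : κ < 1) (hδ : 0 < δ) :
    ∃ X₀ : ℕ, ∀ X : ℕ, X₀ ≤ X →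
      (((Finset.Icc 1 X).filter (fun n => (2 * n) % Wp z = 2 % Wp z ∧
        ¬ (C2 * n ≤ RR (2 * n) ∧
          (1 - κ) * ((T.card : ℝ) / (adm z).card) * RR (2 * n) ≤ RT z T (2 * n)))).card : ℝ) ≤
        δ * X := by
  have hC2 := C2_pos
  have hTc : 0 < T.card := hTne.card_pos
  have hTcR : (0 : ℝ) < T.card := by exact_mod_cast hTc
  have hTa : T.card ≤ (adm z).card := Finset.card_le_card hT
  have hadmR : (0 : ℝ) < (adm z).card := by exact_mod_cast hTc.trans_le hTa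
  obtain ⟨ρ, hρ⟩ : ∃ ρ, ρ = (T.card : ℝ) / (adm z).card := ⟨_, rfl⟩
  have hρ0 : 0 < ρ := by rw [hρ]; positivity
  have hρ1 : ρ ≤ 1 := by
    rw [hρ, div_le_one hadmR]
    exact_mod_cast hTa
  obtain ⟨κ', hκ'⟩ : ∃ κ', κ' = κ / 2 := ⟨_, rfl⟩
  have hκ'0 : 0 < κ' := by rw [hκ']; positivity
  have hκ'1 : κ' < 1 / 2 := by rw [hκ']; linarith
  obtain ⟨τ, hτ⟩ : ∃ τ, τ = κ' * ρ * C2 * δ / 16 := ⟨_, rfl⟩
  have hτ0 : 0 < τ := by rw [hτ]; positivity
  obtain ⟨ε₁, hε₁⟩ : ∃ ε₁, ε₁ = δ * τ / 32 := ⟨_, rfl⟩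
  have hε₁0 : 0 < ε₁ := by rw [hε₁]; positivity
  obtain ⟨w₀, hw₀⟩ := l1_bound hT' hU ε₁ hε₁0
  obtain ⟨w, hw⟩ : ∃ w : ℕ, w = max w₀ z := ⟨_, rfl⟩
  have hww₀ : w₀ ≤ w := by rw [hw]; exact le_max_left _ _
  have hzw : z ≤ w := by rw [hw]; exact le_max_right _ _
  obtain ⟨X₁, hX₁⟩ := hw₀ w hww₀
  obtain ⟨N₀, hN₀⟩ := equi_sieve hz hzw hκ'0 (by linarith : κ' < 1)
  obtain ⟨N₂, hN₂⟩ := main_lower_twin (hz.trans hzw) hκ'0
  refine ⟨X₁ + ⌈4 * (N₀ + N₂ : ℕ) / δ⌉₊ + 1, fun X hX => ?_⟩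
  have hXX₁ : X₁ ≤ 2 * X := by omega
  have hXR : (0 : ℝ) < X := by exact_mod_cast (by omega : 0 < X)
  have hXδ : ((N₀ + N₂ : ℕ) : ℝ) ≤ δ / 4 * X := by
    have h1 : (⌈4 * ((N₀ + N₂ : ℕ) : ℝ) / δ⌉₊ : ℝ) ≤ X := by
      exact_mod_cast (by omega : ⌈4 * ((N₀ + N₂ : ℕ) : ℝ) / δ⌉₊ ≤ X)
    have h2 := (Nat.le_ceil (4 * ((N₀ + N₂ : ℕ) : ℝ) / δ)).trans h1
    rw [div_le_iff₀ hδ] at h2
    linarith
  have hτX : 0 < τ * X := by positivity
  have hE1 := card_of_l1' (X := 2 * X) (g := gErr (fT z T X) w) (gErr_nonneg _ w) hτX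
    (hX₁ (2 * X) hXX₁ (fT z T X) (fT_nonneg z T X) (fT_le z T X)
      (fun n hn => by unfold fT; rw [if_neg (by omega)]))
  have hE2 := card_of_l1' (X := 2 * X) (g := gErr (lamTr X) w) (gErr_nonneg _ w) hτX
    (hX₁ (2 * X) hXX₁ (lamTr X) (lamTr_nonneg X) (lamTr_le X)
      (fun n hn => by unfold lamTr; rw [if_neg (by omega)]))
  have hEbound : ε₁ * ((2 * X : ℕ) : ℝ) ^ 2 / (τ * X) = δ / 8 * X := by
    rw [hε₁]
    push_cast
    field_simp
    ring
  rw [hEbound] at hE1 hE2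
  obtain ⟨E1, hE1d⟩ : ∃ E1, E1 = (range (2 * X + 1)).filter
    (fun N => τ * X < gErr (fT z T X) w N) := ⟨_, rfl⟩
  obtain ⟨E2, hE2d⟩ : ∃ E2, E2 = (range (2 * X + 1)).filter
    (fun N => τ * X < gErr (lamTr X) w N) := ⟨_, rfl⟩
  rw [← hE1d] at hE1
  rw [← hE2d] at hE2
  obtain ⟨S, hS⟩ : ∃ S, S = (Finset.Icc 1 X).filter (fun n => (2 * n) % Wp z = 2 % Wp z ∧
        ¬ (C2 * n ≤ RR (2 * n) ∧
          (1 - κ) * ((T.card : ℝ) / (adm z).card) * RR (2 * n) ≤ RT z T (2 * n))) := ⟨_, rfl⟩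
  rw [← hS]
  have hcover : S ⊆ (Finset.Icc 1 ⌊δ / 4 * X⌋₊) ∪
      ((Finset.Icc 1 X).filter (fun n => 2 * n ∈ E1 ∪ E2)) := by
    intro n hn
    rw [hS, Finset.mem_filter, Finset.mem_Icc] at hn
    obtain ⟨⟨hn1, hnX⟩, hmod, hbad⟩ := hn
    rw [Finset.mem_union, Finset.mem_Icc, Finset.mem_filter, Finset.mem_Icc, Finset.mem_union]
    by_contra hcon
    push Not at hcon
    obtain ⟨h1, h2⟩ := hcon
    have h1' : δ / 4 * X < n := by
      by_contra h
      push Not at h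
      exact absurd (Nat.le_floor h) (not_le.mpr (h1 hn1))
    obtain ⟨h3, h4⟩ := h2 ⟨hn1, hnX⟩
    rw [hE1d, Finset.mem_filter, Finset.mem_range] at h3
    rw [hE2d, Finset.mem_filter, Finset.mem_range] at h4
    have h3' : gErr (fT z T X) w (2 * n) ≤ τ * X := by
      by_contra h
      exact h3 ⟨by omega, not_le.mp h⟩
    have h4' : gErr (lamTr X) w (2 * n) ≤ τ * X := by
      by_contra h
      exact h4 ⟨by omega, not_le.mp h⟩
    unfold gErr at h3' h4'
    rw [fT_sum z T hnX, fT_sum z T hnX] at h3'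
    rw [lamTr_sum hnX, lamTr_sum hnX] at h4'
    apply hbad
    have hNbig : N₀ + N₂ ≤ 2 * n := by
      have : ((N₀ + N₂ : ℕ) : ℝ) ≤ n := hXδ.trans h1'.le
      have : N₀ + N₂ ≤ n := by exact_mod_cast this
      omega
    have h5 := hN₀ (2 * n) (by omega) (even_two_mul n) hmod T hT
    have h6 := hN₂ (2 * n) (by omega) (even_two_mul n)
    rw [← hρ] at h5 ⊢
    obtain ⟨SS, hSS⟩ : ∃ SS, SS = ∑ x ∈ range (2 * n + 1), lam x * Lw w (2 * n - x) := ⟨_, rfl⟩
    obtain ⟨ST, hST⟩ : ∃ ST, ST = ∑ x ∈ range (2 * n + 1),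
      (if x % Wp z ∈ T then lam x else 0) * Lw w (2 * n - x) := ⟨_, rfl⟩
    rw [← hSS] at h5 h6 h4'
    rw [← hST] at h5 h3'
    have hRR : RR (2 * n) = ∑ x ∈ range (2 * n + 1), lam x * lam (2 * n - x) := rfl
    have hRT : RT z T (2 * n) = ∑ x ∈ range (2 * n + 1),
      (if x % Wp z ∈ T then lam x else 0) * lam (2 * n - x) := rfl
    rw [← hRR] at h4'
    rw [← hRT] at h3'
    have h7 := abs_le.mp h4'
    have h8 := abs_le.mp h3'
    have hn0 : (0 : ℝ) < n := by exact_mod_cast hn1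
    have hτn : τ * X ≤ κ' * ρ * C2 * n / 4 := by
      have h9 : δ * X ≤ 4 * n := by linarith
      calc τ * X = κ' * ρ * C2 / 16 * (δ * X) := by rw [hτ]; ring
        _ ≤ κ' * ρ * C2 / 16 * (4 * n) := mul_le_mul_of_nonneg_left h9 (by positivity)
        _ = _ := by ring
    have hκρ : κ' * ρ * C2 * n ≤ C2 * n := by
      have : κ' * ρ ≤ 1 * 1 := mul_le_mul (by linarith) hρ1 hρ0.le (by norm_num)
      nlinarith [mul_pos hC2 hn0]
    push_cast at h6
    have hRRlow : C2 * n ≤ RR (2 * n) := by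
      have h9 : (1 - κ') * (2 * C2) * (2 * n) ≤ SS := h6
      have h10 : 2 * (C2 * n) ≤ (1 - κ') * (2 * C2) * (2 * n) := by nlinarith [mul_pos hC2 hn0]
      linarith [h7.1]
    refine ⟨hRRlow, ?_⟩
    have h11 : (1 - κ') * ρ * (RR (2 * n) - τ * X) ≤ (1 - κ') * ρ * SS := by
      apply mul_le_mul_of_nonneg_left _ (mul_nonneg (by linarith) hρ0.le)
      linarith [h7.2]
    have h12 : (1 - κ') * ρ * (τ * X) ≤ τ * X := by
      apply mul_le_of_le_one_left hτX.le
      nlinarith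
    have h13 : κ' * ρ * (C2 * n) ≤ κ' * ρ * RR (2 * n) :=
      mul_le_mul_of_nonneg_left hRRlow (by positivity)
    have h14 : (1 - κ) * ρ * RR (2 * n) = (1 - κ') * ρ * (RR (2 * n) - τ * X) +
      (1 - κ') * ρ * (τ * X) - κ' * ρ * RR (2 * n) := by
      rw [hκ']; ring
    rw [h14]
    linarith [h8.1]
  have hcard := Finset.card_le_card hcover
  have hc1 := Finset.card_union_le (Finset.Icc 1 ⌊δ / 4 * X⌋₊)
    ((Finset.Icc 1 X).filter (fun n => 2 * n ∈ E1 ∪ E2))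
  have hc2 : ((Finset.Icc 1 X).filter (fun n => 2 * n ∈ E1 ∪ E2)).card ≤ (E1 ∪ E2).card := by
    rw [← Finset.card_image_of_injective ((Finset.Icc 1 X).filter (fun n => 2 * n ∈ E1 ∪ E2))
      (fun a b (h : 2 * a = 2 * b) => by omega : Function.Injective (fun n : ℕ => 2 * n))]
    apply Finset.card_le_card
    intro N hN
    rw [Finset.mem_image] at hN
    obtain ⟨n, hn, rfl⟩ := hN
    exact (Finset.mem_filter.mp hn).2
  have hc3 := Finset.card_union_le E1 E2
  rw [Nat.card_Icc] at hc1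
  have hcN : S.card ≤ ⌊δ / 4 * X⌋₊ + (E1.card + E2.card) := by omega
  have hcR : (S.card : ℝ) ≤ ⌊δ / 4 * X⌋₊ + (E1.card + E2.card) := by exact_mod_cast hcN
  have hfl : (⌊δ / 4 * X⌋₊ : ℝ) ≤ δ / 4 * X := Nat.floor_le (by positivity)
  linarith

end Pool.Agent.Lib.GT.Robust
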