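import Pool.Agent.Lib.MP_7b7e48_nt.GT.RobustMain

/-!
# Robust Goldbach: from weighted to unweighted counts
-/

open Finset Pool.Agent.Lib.GT Pool.Agent.Lib.GT.LA

namespace Pool.Agent.Lib.GT.Robust

/-- number of representations `2 n = p + q`, `p < q` primes -/
def reps (n : ℕ) : ℕ := ((range n).filter (fun p => p.Prime ∧ (2 * n - p).Prime)).card

open Classical in
/-- number of representations `2 n = p + q`, `p < q` primes, `p ∉ B`, `q ∉ B` -/
noncomputable def repsAvoiding (B : Set ℕ) (n : ℕ) : ℕ :=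
  ((range n).filter (fun p => p.Prime ∧ (2 * n - p).Prime ∧ p ∉ B ∧ 2 * n - p ∉ B)).card

lemma log_sq_div_tendsto {a : ℝ} (ha : 0 < a) : ∃ N₀ : ℕ, ∀ N : ℕ, N₀ ≤ N →
    Real.sqrt N * Real.log N ^ 2 ≤ a * N := by
  have h4 := (isLittleO_log_rpow_atTop (show (0 : ℝ) < 1 / 4 by norm_num)).tendsto_div_nhds_zero
  have h5 : Filter.Tendsto (fun x : ℝ => (Real.log x / x ^ (1 / 4 : ℝ)) ^ 2) Filter.atTop (nhds 0) := by
    have := h4.pow 2
    simpa using this
  have h6 := (h5.comp tendsto_natCast_atTop_atTop).eventually_lt_const ha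
  obtain ⟨N₀, hN₀⟩ := Filter.eventually_atTop.mp h6
  refine ⟨max N₀ 1, fun N hN => ?_⟩
  have h7 := hN₀ N ((le_max_left _ _).trans hN)
  simp only [Function.comp] at h7
  have hN1 : (1 : ℝ) ≤ N := by exact_mod_cast (le_max_right _ _).trans hN
  have hNpos : (0 : ℝ) < N := by linarith
  rw [div_pow, ← Real.rpow_natCast (_ ^ (1 / 4 : ℝ)) 2, ← Real.rpow_mul hNpos.le] at h7
  have h8 : (1 / 4 : ℝ) * ((2 : ℕ) : ℝ) = 1 / 2 := by norm_num
  rw [h8, ← Real.sqrt_eq_rpow, div_lt_iff₀ (Real.sqrt_pos.mpr hNpos)] at h7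
  calc Real.sqrt N * Real.log N ^ 2 ≤ Real.sqrt N * (a * Real.sqrt N) :=
        mul_le_mul_of_nonneg_left h7.le (Real.sqrt_nonneg _)
    _ = a * (Real.sqrt N * Real.sqrt N) := by ring
    _ = a * N := by rw [Real.mul_self_sqrt hNpos.le]

/-- the total weighted count against `reps` -/
lemma total_le {n : ℕ} (hn : 1 ≤ n) :
    ∑ x ∈ range (2 * n + 1), lam x * lam (2 * n - x) ≤
      (2 * reps n + 1) * Real.log (2 * n) ^ 2 := by
  have hlog : 0 ≤ Real.log (2 * (n : ℝ)) := by
    apply Real.log_nonneg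
    have : (1 : ℝ) ≤ n := by exact_mod_cast hn
    linarith
  have hle : ∀ x, x ≤ 2 * n → lam x ≤ Real.log (2 * (n : ℝ)) := by
    intro x hx
    rcases Nat.eq_zero_or_pos x with rfl | h0
    · rw [lam_zero]; exact hlog
    · refine (lam_le_log x).trans (Real.log_le_log (by exact_mod_cast h0) ?_)
      exact_mod_cast hx
  have h1 : ∑ x ∈ range (2 * n + 1), lam x * lam (2 * n - x) =
      ∑ x ∈ (range (2 * n + 1)).filter (fun x => x.Prime ∧ (2 * n - x).Prime),
        lam x * lam (2 * n - x) := by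
    symm
    refine Finset.sum_subset (Finset.filter_subset _ _) fun x hx hx' => ?_
    rw [Finset.mem_filter] at hx'
    by_cases h : x.Prime
    · have h2 : ¬ (2 * n - x).Prime := fun h3 => hx' ⟨hx, h, h3⟩
      have : lam (2 * n - x) = 0 := by unfold lam; rw [if_neg h2]
      rw [this, mul_zero]
    · have : lam x = 0 := by unfold lam; rw [if_neg h]
      rw [this, zero_mul]
  rw [h1]
  have h2 : ∑ x ∈ (range (2 * n + 1)).filter (fun x => x.Prime ∧ (2 * n - x).Prime),
        lam x * lam (2 * n - x) ≤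
      (((range (2 * n + 1)).filter (fun x => x.Prime ∧ (2 * n - x).Prime)).card : ℝ) *
        Real.log (2 * n) ^ 2 := by
    rw [← nsmul_eq_mul]
    refine Finset.sum_le_card_nsmul _ _ _ fun x hx => ?_
    rw [Finset.mem_filter, Finset.mem_range] at hx
    rw [sq]
    exact mul_le_mul (hle x (by omega)) (hle _ (by omega)) (lam_nonneg _) hlog
  have h3 : ((range (2 * n + 1)).filter (fun x => x.Prime ∧ (2 * n - x).Prime)).card ≤
      2 * reps n + 1 := by
    set A := (range n).filter (fun p => p.Prime ∧ (2 * n - p).Prime) with hA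
    have hsub : (range (2 * n + 1)).filter (fun x => x.Prime ∧ (2 * n - x).Prime) ⊆
        (A ∪ {n}) ∪ A.image (fun p => 2 * n - p) := by
      intro x hx
      rw [Finset.mem_filter, Finset.mem_range] at hx
      obtain ⟨h4, h5, h6⟩ := hx
      rw [Finset.mem_union, Finset.mem_union, Finset.mem_singleton, Finset.mem_image]
      rcases lt_trichotomy x n with h7 | h7 | h7
      · left; left
        rw [hA, Finset.mem_filter, Finset.mem_range]
        exact ⟨h7, h5, h6⟩
      · left; right; exact h7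
      · right
        refine ⟨2 * n - x, ?_, by omega⟩
        rw [hA, Finset.mem_filter, Finset.mem_range]
        refine ⟨by omega, h6, ?_⟩
        have : 2 * n - (2 * n - x) = x := by omega
        rw [this]; exact h5
    have h4 := (Finset.card_le_card hsub).trans ((Finset.card_union_le _ _).trans
      (Nat.add_le_add (Finset.card_union_le _ _) Finset.card_image_le))
    rw [Finset.card_singleton] at h4
    unfold reps
    rw [← hA]
    omega
  refine h2.trans (mul_le_mul_of_nonneg_right ?_ (sq_nonneg _))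
  exact_mod_cast h3

open Classical in
/-- representations that meet `B` -/
lemma hit_le {n X : ℕ} (B : Set ℕ) (hn : 2 ≤ n) (hnX : n ≤ X) :
    (((range n).filter (fun p => p.Prime ∧ (2 * n - p).Prime ∧ ¬ (p ∉ B ∧ 2 * n - p ∉ B))).card : ℝ)
      * Real.log (2 * n) ^ 2 ≤
      Real.sqrt (2 * n) * Real.log (2 * n) ^ 2 +
        8 * ∑ x ∈ range (2 * n + 1), fB B X x * lam (2 * n - x) := by
  set s := Nat.sqrt (2 * n) with hs
  set H := (range n).filter (fun p => p.Prime ∧ (2 * n - p).Prime ∧ ¬ (p ∉ B ∧ 2 * n - p ∉ B))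
    with hH
  set U := (range (2 * n + 1)).filter (fun x => x ∈ B ∧ x.Prime ∧ (2 * n - x).Prime ∧ s < x ∧
    s < 2 * n - x) with hU
  have hss : s * s ≤ 2 * n := Nat.sqrt_le _
  have hsn : s ≤ n := by
    by_contra h
    push Not at h
    have : (n + 1) * (n + 1) ≤ s * s := Nat.mul_le_mul h h
    nlinarith
  have hsub : H ⊆ (Finset.Icc 1 s ∪ U) ∪ U.image (fun x => 2 * n - x) := by
    intro p hp
    rw [hH, Finset.mem_filter, Finset.mem_range] at hp
    obtain ⟨h1, h2, h3, h4⟩ := hp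
    rw [Finset.mem_union, Finset.mem_union, Finset.mem_Icc, Finset.mem_image]
    rcases le_or_gt p s with h5 | h5
    · left; left; exact ⟨h2.one_le, h5⟩
    · by_cases h6 : p ∈ B
      · left; right
        rw [hU, Finset.mem_filter, Finset.mem_range]
        exact ⟨by omega, h6, h2, h3, h5, by omega⟩
      · have h7 : 2 * n - p ∈ B := by
          by_contra h8
          exact h4 ⟨h6, h8⟩
        right
        refine ⟨2 * n - p, ?_, by omega⟩
        rw [hU, Finset.mem_filter, Finset.mem_range]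
        have h8 : 2 * n - (2 * n - p) = p := by omega
        rw [h8]
        exact ⟨by omega, h7, h3, h2, by omega, h5⟩
  have hcard := (Finset.card_le_card hsub).trans ((Finset.card_union_le _ _).trans
      (Nat.add_le_add (Finset.card_union_le _ _) Finset.card_image_le))
  rw [Nat.card_Icc] at hcard
  have hcardR : (H.card : ℝ) ≤ s + 2 * U.card := by
    have : H.card ≤ s + 2 * U.card := by omega
    exact_mod_cast this
  have hn2 : (2 : ℝ) ≤ n := by exact_mod_cast hn
  have hlog : 0 < Real.log (2 * (n : ℝ)) := Real.log_pos (by linarith)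
  have hUsum : (U.card : ℝ) * (Real.log (2 * n) ^ 2 / 4) ≤
      ∑ x ∈ range (2 * n + 1), fB B X x * lam (2 * n - x) := by
    rw [← nsmul_eq_mul]
    refine le_trans (Finset.card_nsmul_le_sum U (fun x => fB B X x * lam (2 * n - x)) _ ?_)
      (Finset.sum_le_sum_of_subset_of_nonneg (Finset.filter_subset _ _)
        fun x _ _ => mul_nonneg (fB_nonneg B X x) (lam_nonneg _))
    intro x hx
    rw [hU, Finset.mem_filter, Finset.mem_range] at hx
    obtain ⟨h1, h2, h3, h4, h5, h6⟩ := hx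
    have h7 : fB B X x = Real.log x := by
      unfold fB lam
      rw [if_pos ⟨h2, by omega⟩, if_pos h3]
    have h8 : lam (2 * n - x) = Real.log ((2 * n - x : ℕ) : ℝ) := by
      unfold lam
      rw [if_pos h4]
    have h9 : ∀ y : ℕ, s < y → Real.log (2 * n) / 2 ≤ Real.log y := by
      intro y hy
      have h10 : 2 * n < y * y := Nat.sqrt_lt.mp hy
      have h11 : (2 * (n : ℝ)) ≤ (y : ℝ) ^ 2 := by
        have : ((2 * n : ℕ) : ℝ) < ((y * y : ℕ) : ℝ) := by exact_mod_cast h10
        push_cast at this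
        nlinarith
      rw [div_le_iff₀ (by norm_num)]
      calc Real.log (2 * n) ≤ Real.log ((y : ℝ) ^ 2) := Real.log_le_log (by linarith) h11
        _ = Real.log y * 2 := by rw [Real.log_pow]; push_cast; ring
    show Real.log (2 * n) ^ 2 / 4 ≤ fB B X x * lam (2 * n - x)
    rw [h7, h8]
    calc Real.log (2 * (n : ℝ)) ^ 2 / 4 = (Real.log (2 * n) / 2) * (Real.log (2 * n) / 2) := by ring
      _ ≤ _ := mul_le_mul (h9 x h5) (h9 _ h6) (by positivity)
          (le_trans (by positivity) (h9 x h5))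
  have hsR : (s : ℝ) ≤ Real.sqrt (2 * n) := by
    have h1 : (s : ℝ) ≤ Real.sqrt ((2 * n : ℕ) : ℝ) := Real.nat_sqrt_le_real_sqrt
    push_cast at h1
    exact h1
  have hl2 : 0 ≤ Real.log (2 * (n : ℝ)) ^ 2 := sq_nonneg _
  calc (H.card : ℝ) * Real.log (2 * n) ^ 2 ≤ (s + 2 * U.card) * Real.log (2 * n) ^ 2 :=
        mul_le_mul_of_nonneg_right hcardR hl2
    _ = s * Real.log (2 * n) ^ 2 + 8 * (U.card * (Real.log (2 * n) ^ 2 / 4)) := by ring
    _ ≤ _ := by
        have h1 := mul_le_mul_of_nonneg_right hsR hl2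
        linarith

/-- from the weighted to the unweighted statement -/
theorem convert_good {ε : ℝ} (hε : 0 < ε) : ∃ N₀ : ℕ, ∀ n X : ℕ, N₀ ≤ n → n ≤ X → X < 2 * n →
    ∀ B : Set ℕ, (n : ℝ) ≤ ∑ x ∈ range (2 * n + 1), lam x * lam (2 * n - x) →
      ∑ x ∈ range (2 * n + 1), fB B X x * lam (2 * n - x) ≤ ε / 160 * X →
      0 < reps n ∧ (1 - ε) * reps n ≤ repsAvoiding B n := by
  classical
  set a : ℝ := min (ε / 20) (1 / 20) with ha
  have ha0 : 0 < a := by positivity
  obtain ⟨N₁, hN₁⟩ := log_sq_div_tendsto ha0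
  refine ⟨max N₁ 3, fun n X hn hnX hXn B hR hF => ?_⟩
  have hn3 : 3 ≤ n := (le_max_right _ _).trans hn
  have hnR : (3 : ℝ) ≤ n := by exact_mod_cast hn3
  have h1 := hN₁ (2 * n) (by have := (le_max_left _ _).trans hn; omega)
  push_cast at h1
  have hsq1 : 1 ≤ Real.sqrt (2 * (n : ℝ)) := by
    rw [Real.one_le_sqrt]; linarith
  have hlog : 0 < Real.log (2 * (n : ℝ)) := Real.log_pos (by linarith)
  have hL : 0 < Real.log (2 * (n : ℝ)) ^ 2 := by positivity
  have h2 : Real.log (2 * (n : ℝ)) ^ 2 ≤ a * (2 * n) := by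
    refine le_trans ?_ h1
    exact le_mul_of_one_le_left hL.le hsq1
  have ha1 : a ≤ 1 / 20 := min_le_right _ _
  have ha2 : a ≤ ε / 20 := min_le_left _ _
  have h3 := total_le (show 1 ≤ n by omega)
  -- `reps n * log^2 ≥ (9/20) n`
  have h4 : 9 / 20 * (n : ℝ) ≤ reps n * Real.log (2 * n) ^ 2 := by
    have h5 : (n : ℝ) ≤ (2 * reps n + 1) * Real.log (2 * n) ^ 2 := hR.trans h3
    have h6 : Real.log (2 * (n : ℝ)) ^ 2 ≤ n / 10 := by nlinarith
    linarith
  have hrpos : 0 < reps n := by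
    rcases Nat.eq_zero_or_pos (reps n) with h5 | h5
    · rw [h5] at h4
      norm_num at h4
      linarith
    · exact h5
  refine ⟨hrpos, ?_⟩
  have h5 := hit_le (n := n) (X := X) B (by omega) hnX
  set H := (range n).filter (fun p => p.Prime ∧ (2 * n - p).Prime ∧ ¬ (p ∉ B ∧ 2 * n - p ∉ B))
    with hH
  have h6 : reps n = repsAvoiding B n + H.card := by
    unfold reps repsAvoiding
    rw [hH, ← Finset.card_union_of_disjoint]
    · congr 1
      ext p
      simp only [Finset.mem_union, Finset.mem_filter]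
      tauto
    · rw [Finset.disjoint_left]
      intro p hp hp'
      rw [Finset.mem_filter] at hp hp'
      exact hp'.2.2.2 hp.2.2.2
  have hX2 : (X : ℝ) ≤ 2 * n := by exact_mod_cast hXn.le
  have h7 : (H.card : ℝ) * Real.log (2 * n) ^ 2 ≤ (ε / 5) * n := by
    have h8 : Real.sqrt (2 * (n : ℝ)) * Real.log (2 * n) ^ 2 ≤ ε / 10 * n := by
      refine h1.trans ?_
      nlinarith
    have h9 : 8 * ∑ x ∈ range (2 * n + 1), fB B X x * lam (2 * n - x) ≤ ε / 10 * n := by
      have h10 : ε / 160 * X ≤ ε / 160 * (2 * n) :=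
        mul_le_mul_of_nonneg_left hX2 (by positivity)
      linarith
    have h10 : (H.card : ℝ) * Real.log (2 * n) ^ 2 ≤ ε / 10 * n + ε / 10 * n := by linarith
    linarith
  have h8 : (H.card : ℝ) ≤ ε * reps n := by
    have h9 : (H.card : ℝ) * Real.log (2 * n) ^ 2 ≤ (ε * reps n) * Real.log (2 * n) ^ 2 := by
      have h10 : (ε * reps n) * Real.log (2 * (n : ℝ)) ^ 2 =
          ε * (reps n * Real.log (2 * n) ^ 2) := by ring
      rw [h10]
      have h11 : ε * (9 / 20 * (n : ℝ)) ≤ ε * (reps n * Real.log (2 * n) ^ 2) :=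
        mul_le_mul_of_nonneg_left h4 hε.le
      have h12 : ε / 5 * (n : ℝ) ≤ ε * (9 / 20 * (n : ℝ)) := by nlinarith
      linarith
    exact le_of_mul_le_mul_right h9 hL
  have h9 : (reps n : ℝ) = repsAvoiding B n + H.card := by exact_mod_cast h6
  rw [h9] at h8 ⊢
  nlinarith

open Classical in
/-- Robust Goldbach: the upper bound. -/
theorem upper (hT : TransferP) (hU : UniformP) : ∀ ε : ℝ, 0 < ε → ∃ c : ℝ, 0 < c ∧
    ∀ η : ℝ, 0 < η → η ≤ c → ∃ X₀ : ℕ, ∀ X : ℕ, X₀ ≤ X → ∀ B : Set ℕ,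
      (((Finset.Icc 1 (2 * X)).filter (fun p => p.Prime ∧ p ∈ B)).card : ℝ) ≤
        η * Nat.primeCounting (2 * X) →
      (((Finset.Ioc (X / 2) X).filter
        (fun n => ¬ (0 < reps n ∧ (1 - ε) * reps n ≤ repsAvoiding B n))).card : ℝ) ≤
        Real.exp (-Real.exp (c / η)) * X := by
  intro ε hε
  obtain ⟨c, hc, h⟩ := weighted hT hU (ε / 160) (by positivity)
  obtain ⟨N₀, hN₀⟩ := convert_good hε
  refine ⟨c, hc, fun η hη hηc => ?_⟩
  obtain ⟨X₀, hX₀⟩ := h η hη hηc
  refine ⟨max X₀ (2 * N₀), fun X hX B hB => ?_⟩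
  have h1 := hX₀ X ((le_max_left _ _).trans hX) B hB
  refine le_trans ?_ h1
  have h2 : ((Finset.Ioc (X / 2) X).filter
        (fun n => ¬ (0 < reps n ∧ (1 - ε) * reps n ≤ repsAvoiding B n))).card ≤
      ((Finset.Ioc X (2 * X)).filter (fun N : ℕ => Even N ∧
        ¬ ((N : ℝ) / 2 ≤ ∑ x ∈ range (N + 1), lam x * lam (N - x) ∧
          ∑ x ∈ range (N + 1), fB B X x * lam (N - x) ≤ ε / 160 * X))).card := by
    refine Finset.card_le_card_of_injOn (fun n => 2 * n) ?_ ?_
    · intro n hn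
      rw [Finset.mem_coe, Finset.mem_filter, Finset.mem_Ioc] at hn
      rw [Finset.mem_coe, Finset.mem_filter, Finset.mem_Ioc]
      obtain ⟨⟨h3, h4⟩, h5⟩ := hn
      show (X < 2 * n ∧ 2 * n ≤ 2 * X) ∧ Even (2 * n) ∧ _
      refine ⟨⟨by omega, by omega⟩, even_two_mul n, fun h6 => h5 ?_⟩
      have h7 : N₀ ≤ n := by
        have := (le_max_right _ _).trans hX
        omega
      refine hN₀ n X h7 h4 (by omega) B ?_ h6.2
      have h8 := h6.1
      push_cast at h8
      linarith
    · intro a _ b _ hab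
      have hab' : 2 * a = 2 * b := hab
      omega
  exact_mod_cast h2

end Pool.Agent.Lib.GT.Robust
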