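import Pool.Agent.Lib.MP_7b7e48_nt.GT.RobustConst

/-!
# Robust Goldbach with the exact constant: admissible classes and local sums
-/

open Finset Filter Topology Pool.Agent.Lib.GT Pool.Agent.Lib.GT.LA

namespace Pool.Agent.Lib.GT.Robust

open Pool.Agent.Lib.MP_7b7e48_nt (twinPartial exists_twin half_le_twinPartial twinPartial_antitone)

/-- the admissible classes modulo `Wp z` -/
def adm (z : ℕ) : Finset ℕ :=
  (range (Wp z)).filter (fun a => ∀ r ∈ pr z, a % r ≠ 0 ∧ a % r ≠ 2 % r)

lemma mem_adm {z a : ℕ} : a ∈ adm z ↔ a < Wp z ∧ ∀ r ∈ pr z, a % r ≠ 0 ∧ a % r ≠ 2 % r := by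
  unfold adm
  rw [Finset.mem_filter, mem_range]

/-- the common value of the local sums over the admissible classes -/
noncomputable def lamLoc (z w N : ℕ) : ℝ :=
  (V z)⁻¹ * ∏ p ∈ (pr w).filter (fun p => z < p), ∑ b ∈ range p, (if b = 0 then 0 else el p N b)

lemma eq_of_mod_pr {z a c : ℕ} (h : ∀ p ∈ pr z, c % p = a % p) : c % Wp z = a % Wp z := by
  have key : ∀ c a : ℕ, c ≤ a → (∀ p ∈ pr z, c % p = a % p) → c % Wp z = a % Wp z := by
    intro c a hca h
    have h1 : Wp z ∣ a - c := by
      unfold Wp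
      refine Finset.prod_primes_dvd _ (fun p hp => (mem_pr.mp hp).2.prime) fun p hp => ?_
      exact (Nat.modEq_iff_dvd' hca).mp (h p hp)
    exact (Nat.modEq_iff_dvd' hca).mpr h1
  rcases le_total c a with hca | hca
  · exact key c a hca h
  · exact (key a c hca (fun p hp => (h p hp).symm)).symm

/-- the local sum over one admissible class -/
lemma class_local {z w N a : ℕ} (hzw : z ≤ w) (hN : N % Wp z = 2 % Wp z) (ha : a ∈ adm z) :
    ∑ c ∈ (range (Wp w)).filter (fun c => c.Coprime (Wp w) ∧ c % Wp z = a), ell (pr w) N c =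
      lamLoc z w N := by
  classical
  have hP : ∀ p ∈ pr w, p.Prime := fun p hp => (mem_pr.mp hp).2
  rw [mem_adm] at ha
  obtain ⟨haW, har⟩ := ha
  have hprz : ∀ p ∈ pr w, p ≤ z → p ∈ pr z := fun p hp hpz => mem_pr.mpr ⟨hpz, hP p hp⟩
  have hprw : ∀ p ∈ pr z, p ∈ pr w := fun p hp =>
    mem_pr.mpr ⟨(mem_pr.mp hp).1.trans hzw, (mem_pr.mp hp).2⟩
  have hpt : ∀ c ∈ range (Wp w), ∏ p ∈ pr w, ((if c % p = 0 then 0 else el p N (c % p)) *
      (if p ≤ z then (if c % p = a % p then (1 : ℝ) else 0) else 1)) =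
      if c.Coprime (Wp w) ∧ c % Wp z = a then ell (pr w) N c else 0 := by
    intro c _
    by_cases hcop : c.Coprime (Wp w)
    · have hc0 : ∀ p ∈ pr w, c % p ≠ 0 := by
        intro p hp h0
        have h1 := (rough_iff_coprime.mpr hcop)
        rw [rough_iff] at h1
        exact h1 p hp (Nat.dvd_of_mod_eq_zero h0)
      by_cases hca : c % Wp z = a
      · rw [if_pos ⟨hcop, hca⟩]
        unfold ell
        refine Finset.prod_congr rfl fun p hp => ?_
        rw [if_neg (hc0 p hp)]
        have h2 : (if p ≤ z then (if c % p = a % p then (1 : ℝ) else 0) else 1) = 1 := by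
          split_ifs with h3 h4
          · rfl
          · exfalso
            apply h4
            rw [← hca, Nat.mod_mod_of_dvd _ (dvd_Wp (hprz p hp h3))]
          · rfl
        rw [h2, mul_one]
        unfold el
        rw [Nat.mod_mod]
      · rw [if_neg (fun h => hca h.2)]
        have h3 : ∃ p ∈ pr z, c % p ≠ a % p := by
          by_contra hcon
          push Not at hcon
          have h4 := eq_of_mod_pr hcon
          rw [Nat.mod_eq_of_lt haW] at h4
          exact hca h4
        obtain ⟨p, hp, hne⟩ := h3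
        refine Finset.prod_eq_zero (hprw p hp) ?_
        rw [if_pos (mem_pr.mp hp).1, if_neg hne, mul_zero]
    · rw [if_neg (fun h => hcop h.1)]
      have h1 : ¬ Rough w c := fun h => hcop (rough_iff_coprime.mp h)
      rw [rough_iff] at h1
      push Not at h1
      obtain ⟨p, hp, hd⟩ := h1
      refine Finset.prod_eq_zero hp ?_
      rw [if_pos (Nat.mod_eq_zero_of_dvd hd), zero_mul]
  rw [Finset.sum_filter, ← Finset.sum_congr rfl hpt]
  have h2 := sum_prod_period (pr w) hP (fun p b => (if b = 0 then 0 else el p N b) *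
      (if p ≤ z then (if b = a % p then (1 : ℝ) else 0) else 1))
  unfold Wp
  rw [h2, ← Finset.prod_filter_mul_prod_filter_not (pr w) (fun p => z < p), mul_comm]
  unfold lamLoc
  congr 1
  · have h3 : (pr w).filter (fun p => ¬ z < p) = pr z := by
      ext p
      rw [Finset.mem_filter, mem_pr, mem_pr]
      constructor
      · rintro ⟨⟨_, h4⟩, h5⟩; exact ⟨by omega, h4⟩
      · rintro ⟨h4, h5⟩; exact ⟨⟨by omega, h5⟩, by omega⟩
    rw [h3]
    unfold V
    rw [← Finset.prod_inv_distrib]
    refine Finset.prod_congr rfl fun p hp => ?_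
    have hp' := mem_pr.mp hp
    have hpa : a % p ∈ range p := mem_range.mpr (Nat.mod_lt _ hp'.2.pos)
    have h4 : ∀ b ∈ range p, (if b = 0 then 0 else el p N b) *
        (if p ≤ z then (if b = a % p then (1 : ℝ) else 0) else 1) =
        if b = a % p then (if b = 0 then 0 else el p N b) else 0 := by
      intro b _
      rw [if_pos hp'.1]
      split_ifs <;> simp
    rw [Finset.sum_congr rfl h4, Finset.sum_ite_eq', if_pos hpa, if_neg (har p hp).1]
    unfold el
    rw [if_neg]
    rw [Nat.mod_mod]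
    intro h5
    apply (har p hp).2
    rw [← h5]
    have h6 : N % p = 2 % p := by
      have h7 := congrArg (· % p) hN
      simp only [Nat.mod_mod_of_dvd _ (dvd_Wp hp)] at h7
      exact h7
    exact h6
  · refine Finset.prod_congr rfl fun p hp => ?_
    rw [Finset.mem_filter] at hp
    refine Finset.sum_congr rfl fun b _ => ?_
    rw [if_neg (show ¬ p ≤ z by omega), mul_one]

/-- the local sum over a set of admissible classes -/
lemma T_local {z w N : ℕ} (hzw : z ≤ w) (hN : N % Wp z = 2 % Wp z) {T : Finset ℕ}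
    (hT : T ⊆ adm z) :
    ∑ c ∈ (range (Wp w)).filter (fun c => c.Coprime (Wp w) ∧ c % Wp z ∈ T), ell (pr w) N c =
      T.card * lamLoc z w N := by
  classical
  have h1 := Finset.sum_fiberwise_of_maps_to
    (s := (range (Wp w)).filter (fun c => c.Coprime (Wp w) ∧ c % Wp z ∈ T)) (t := T)
    (g := fun c => c % Wp z) (fun c hc => (Finset.mem_filter.mp hc).2.2)
    (fun c => ell (pr w) N c)
  rw [← h1, ← nsmul_eq_mul, ← Finset.sum_const]
  refine Finset.sum_congr rfl fun a ha => ?_
  rw [← class_local hzw hN (hT ha)]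
  refine Finset.sum_congr ?_ fun _ _ => rfl
  ext c
  simp only [Finset.mem_filter]
  constructor
  · rintro ⟨⟨h2, h3, _⟩, h5⟩; exact ⟨h2, h3, h5⟩
  · rintro ⟨h2, h3, h4⟩; exact ⟨⟨h2, h3, by rw [h4]; exact ha⟩, h4⟩

/-- the complete local sum -/
lemma total_local {z w N : ℕ} (hzw : z ≤ w) (hN : N % Wp z = 2 % Wp z) :
    ∑ c ∈ (range (Wp w)).filter (fun c => c.Coprime (Wp w)), ell (pr w) N c =
      (adm z).card * lamLoc z w N := by
  classical
  rw [← T_local hzw hN (Finset.Subset.refl (adm z))]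
  symm
  refine Finset.sum_subset (fun c hc => ?_) fun c hc hc' => ?_
  · rw [Finset.mem_filter] at hc ⊢
    exact ⟨hc.1, hc.2.1⟩
  · rw [Finset.mem_filter] at hc hc'
    have h1 : c % Wp z ∉ adm z := fun h => hc' ⟨hc.1, hc.2, h⟩
    rw [mem_adm] at h1
    push Not at h1
    obtain ⟨r, hr, h2⟩ := h1 (Nat.mod_lt _ (Wp_pos z))
    rw [Nat.mod_mod_of_dvd _ (dvd_Wp hr)] at h2
    have hrw : r ∈ pr w := mem_pr.mpr ⟨(mem_pr.mp hr).1.trans hzw, (mem_pr.mp hr).2⟩
    have h3 : c % r ≠ 0 := by
      intro h0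
      have h4 := rough_iff_coprime.mpr hc.2
      rw [rough_iff] at h4
      exact h4 r hrw (Nat.dvd_of_mod_eq_zero h0)
    have h4 := h2 h3
    unfold ell
    refine Finset.prod_eq_zero hrw ?_
    unfold el
    rw [if_pos]
    rw [h4]
    have h7 := congrArg (· % r) hN
    simp only [Nat.mod_mod_of_dvd _ (dvd_Wp hr)] at h7
    exact h7

/-- the number of admissible classes -/
lemma adm_card_prod (z : ℕ) : ((adm z).card : ℝ) = ∏ r ∈ pr z, (if r = 2 then 1 else (r : ℝ) - 2) := by
  classical
  have hP : ∀ p ∈ pr z, p.Prime := fun p hp => (mem_pr.mp hp).2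
  have h1 := sum_prod_period (pr z) hP (fun r a => if a = 0 ∨ a = 2 % r then (0 : ℝ) else 1)
  have h2 : ((adm z).card : ℝ) = ∑ x ∈ range (∏ p ∈ pr z, p),
      ∏ p ∈ pr z, (if x % p = 0 ∨ x % p = 2 % p then (0 : ℝ) else 1) := by
    rw [Finset.card_eq_sum_ones]
    unfold adm
    rw [Finset.sum_filter]
    push_cast
    unfold Wp
    refine Finset.sum_congr rfl fun x _ => ?_
    split_ifs with h
    · symm
      refine Finset.prod_eq_one fun r hr => ?_
      rw [if_neg]
      push Not
      exact h r hr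
    · push Not at h
      obtain ⟨r, hr, h1⟩ := h
      symm
      refine Finset.prod_eq_zero hr ?_
      rw [if_pos]
      by_cases h2 : x % r = 0
      · exact Or.inl h2
      · exact Or.inr (h1 h2)
  rw [h2, h1]
  refine Finset.prod_congr rfl fun r hr => ?_
  have hr' := mem_pr.mp hr
  rcases eq_or_ne r 2 with rfl | hr2
  · norm_num [Finset.sum_range_succ]
  · have hr3 : 3 ≤ r := by
      have := hr'.2.two_le
      omega
    rw [if_neg hr2]
    have h4 : ∀ a ∈ range r, (if a = 0 ∨ a = 2 % r then (0 : ℝ) else 1) =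
        1 - (if a = 0 then 1 else 0) - (if a = 2 then 1 else 0) := by
      intro a _
      rw [Nat.mod_eq_of_lt (by omega : 2 < r)]
      rcases eq_or_ne a 0 with h5 | h5
      · subst h5; norm_num
      · rcases eq_or_ne a 2 with h6 | h6
        · subst h6; norm_num
        · simp [h5, h6]
    rw [Finset.sum_congr rfl h4, Finset.sum_sub_distrib, Finset.sum_sub_distrib, Finset.sum_const,
      card_range, Finset.sum_ite_eq', Finset.sum_ite_eq', if_pos (mem_range.mpr (by omega)),
      if_pos (mem_range.mpr (by omega)), nsmul_eq_mul]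
    ring

/-- the density of the admissible classes among the reduced ones -/
lemma adm_card_eq {z : ℕ} (hz : 2 ≤ z) :
    ((adm z).card : ℝ) = 2 * twinPartial (z + 1) * V z * (Wp z).totient := by
  have h2 : 2 ∈ pr z := mem_pr.mpr ⟨hz, Nat.prime_two⟩
  rw [adm_card_prod, totient_Wp]
  have e1 : twinPartial (z + 1) = ∏ p ∈ pr z, (if 2 < p then (1 - 1 / ((p : ℝ) - 1) ^ 2) else 1) := by
    unfold twinPartial
    rw [Finset.prod_filter]
    rfl
  have e2 : (2 : ℝ) = ∏ p ∈ pr z, (if p = 2 then (2 : ℝ) else 1) := by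
    rw [Finset.prod_ite_eq', if_pos h2]
  have e3 : (Wp z : ℝ) = ∏ p ∈ pr z, (p : ℝ) := by
    unfold Wp
    push_cast
    rfl
  have e4 : 2 * twinPartial (z + 1) * V z * (Wp z * V z) = ∏ p ∈ pr z,
      ((if p = 2 then (2 : ℝ) else 1) * (if 2 < p then (1 - 1 / ((p : ℝ) - 1) ^ 2) else 1) *
        (1 - 1 / (p : ℝ)) * ((p : ℝ) * (1 - 1 / (p : ℝ)))) := by
    rw [Finset.prod_mul_distrib, Finset.prod_mul_distrib, Finset.prod_mul_distrib,
      Finset.prod_mul_distrib, ← e1, ← e2, ← e3]
    rfl
  rw [e4]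
  refine Finset.prod_congr rfl fun p hp => ?_
  have hp2 := (mem_pr.mp hp).2
  rcases eq_or_ne p 2 with rfl | hne
  · norm_num
  · have hp3 : 3 ≤ p := by
      have := hp2.two_le
      omega
    have hp3R : (3 : ℝ) ≤ p := by exact_mod_cast hp3
    rw [if_neg hne, if_neg hne, if_pos (by omega)]
    have h5 : (p : ℝ) ≠ 0 := by linarith
    have h6 : (p : ℝ) - 1 ≠ 0 := by linarith
    field_simp
    ring

end Pool.Agent.Lib.GT.Robust
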