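import Pool.Agent.Lib.MP_7b7e48_nt.GT.RobustEqui

/-!
# Robust Goldbach with the exact constant: the extremal sets of primes
-/

open Finset Filter Topology Pool.Agent.Lib.GT Pool.Agent.Lib.GT.LA

namespace Pool.Agent.Lib.GT.Robust

/-- the reflected class `2 - a` modulo `Wp z` -/
def sig (z a : ℕ) : ℕ := (2 + (Wp z - a)) % Wp z

/-- the set of primes attached to a set of classes -/
def BT (z : ℕ) (T : Finset ℕ) : Set ℕ := {p | p ≤ z ∨ p % Wp z ∈ T}

lemma two_le_Wp {z : ℕ} (hz : 2 ≤ z) : 2 ≤ Wp z :=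
  Nat.le_of_dvd (Wp_pos z) (dvd_Wp (mem_pr.mpr ⟨hz, Nat.prime_two⟩))

lemma sig_add {z a : ℕ} (ha : a ≤ Wp z) : (sig z a + a) % Wp z = 2 % Wp z := by
  unfold sig
  rw [Nat.mod_add_mod]
  have : 2 + (Wp z - a) + a = 2 + Wp z := by omega
  rw [this, Nat.add_mod_right]

lemma reflect_mod {z n x : ℕ} (hx : x ≤ 2 * n) (hmod : (2 * n) % Wp z = 2 % Wp z) :
    (2 * n - x) % Wp z = sig z (x % Wp z) := by
  have hlt := Nat.mod_lt x (Wp_pos z)
  have h1 : sig z (x % Wp z) < Wp z := Nat.mod_lt _ (Wp_pos z)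
  have h2 : (2 * n - x) + x ≡ sig z (x % Wp z) + x [MOD Wp z] := by
    have h3 : (2 * n - x) + x = 2 * n := by omega
    rw [h3]
    have h4 : sig z (x % Wp z) + x ≡ sig z (x % Wp z) + x % Wp z [MOD Wp z] :=
      Nat.ModEq.add_left _ (Nat.mod_modEq x (Wp z)).symm
    have h5 : sig z (x % Wp z) + x % Wp z ≡ 2 [MOD Wp z] := sig_add hlt.le
    exact (show 2 * n ≡ 2 [MOD Wp z] from hmod).trans (h4.trans h5).symm
  have h3 := Nat.ModEq.add_right_cancel' x h2
  have h4 : (2 * n - x) % Wp z = sig z (x % Wp z) % Wp z := h3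
  rw [h4, Nat.mod_eq_of_lt h1]

/-- `RT` against `hits` -/
lemma RT_hits {z n : ℕ} {T : Finset ℕ} (hn : 1 ≤ n) (hT : ∀ a ∈ T, sig z a ∉ T)
    (hmod : (2 * n) % Wp z = 2 % Wp z) :
    RT z T (2 * n) ≤ (hits (BT z T) n + 1) * Real.log (2 * n) ^ 2 := by
  classical
  have hnR : (1 : ℝ) ≤ n := by exact_mod_cast hn
  have hlog : 0 ≤ Real.log (2 * (n : ℝ)) := Real.log_nonneg (by linarith)
  have hle : ∀ x, x ≤ 2 * n → lam x ≤ Real.log (2 * (n : ℝ)) := by
    intro x hx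
    rcases Nat.eq_zero_or_pos x with rfl | h0
    · rw [lam_zero]; exact hlog
    · refine (lam_le_log x).trans (Real.log_le_log (by exact_mod_cast h0) ?_)
      exact_mod_cast hx
  obtain ⟨S, hS⟩ : ∃ S : Finset ℕ, S = (range (2 * n + 1)).filter
    (fun x => x % Wp z ∈ T ∧ x.Prime ∧ (2 * n - x).Prime) := ⟨_, rfl⟩
  have hS' : ∀ x, x ∈ S ↔ x < 2 * n + 1 ∧ x % Wp z ∈ T ∧ x.Prime ∧ (2 * n - x).Prime := by
    intro x
    rw [hS, Finset.mem_filter, mem_range]
  have h1 : RT z T (2 * n) ≤ S.card * Real.log (2 * n) ^ 2 := by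
    have h2 : RT z T (2 * n) = ∑ x ∈ S,
        (if x % Wp z ∈ T then lam x else 0) * lam (2 * n - x) := by
      unfold RT
      rw [hS]
      symm
      refine Finset.sum_subset (Finset.filter_subset _ _) fun x hx hx' => ?_
      rw [Finset.mem_filter] at hx'
      by_cases h3 : x % Wp z ∈ T
      · by_cases h4 : x.Prime
        · have h5 : ¬ (2 * n - x).Prime := fun h => hx' ⟨hx, h3, h4, h⟩
          have : lam (2 * n - x) = 0 := by unfold lam; rw [if_neg h5]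
          rw [this, mul_zero]
        · have : lam x = 0 := by unfold lam; rw [if_neg h4]
          rw [this, ite_self, zero_mul]
      · rw [if_neg h3, zero_mul]
    rw [h2, ← nsmul_eq_mul]
    refine Finset.sum_le_card_nsmul _ _ _ fun x hx => ?_
    rw [hS'] at hx
    rw [if_pos hx.2.1, sq]
    exact mul_le_mul (hle x (by omega)) (hle _ (by omega)) (lam_nonneg _) hlog
  refine h1.trans (mul_le_mul_of_nonneg_right ?_ (sq_nonneg _))
  have h3 : (S.erase n).card ≤ hits (BT z T) n := by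
    unfold hits
    refine Finset.card_le_card_of_injOn (fun x => min x (2 * n - x)) ?_ ?_
    · intro x hx
      rw [Finset.mem_coe, Finset.mem_erase, hS'] at hx
      obtain ⟨hxn, hx1, hx2, hx3, hx4⟩ := hx
      rw [Finset.mem_coe, Finset.mem_filter, mem_range]
      have hB : x ∈ BT z T := Or.inr hx2
      rcases le_total x (2 * n - x) with h | h
      · simp only [min_eq_left h]
        exact ⟨by omega, hx3, hx4, Or.inl hB⟩
      · simp only [min_eq_right h]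
        have e : 2 * n - (2 * n - x) = x := by omega
        rw [e]
        exact ⟨by omega, hx4, hx3, Or.inr hB⟩
    · intro x hx y hy hxy
      rw [Finset.mem_coe, Finset.mem_erase, hS'] at hx hy
      obtain ⟨hxn, hx1, hx2, hx3, hx4⟩ := hx
      obtain ⟨hyn, hy1, hy2, hy3, hy4⟩ := hy
      by_contra hne
      have h5 : y = 2 * n - x := by
        simp only at hxy
        omega
      apply hT _ hx2
      rw [← reflect_mod (by omega) hmod, ← h5]
      exact hy2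
  have h4 : S.card ≤ (S.erase n).card + 1 := by
    have := Finset.pred_card_le_card_erase (s := S) (a := n)
    omega
  exact_mod_cast h4.trans (Nat.add_le_add_right h3 1)

/-- `reps` against `RR` -/
lemma RR_reps {κ : ℝ} (hκ0 : 0 < κ) (hκ1 : κ < 1) {n : ℕ} (hn : 1 ≤ n) :
    2 * reps n * ((1 - κ) * Real.log (2 * n)) ^ 2 ≤
      RR (2 * n) + 2 * ((2 * n : ℝ) ^ (1 - κ) * Real.log (2 * n) ^ 2) := by
  classical
  have hnR : (1 : ℝ) ≤ n := by exact_mod_cast hn
  have hlog : 0 < Real.log (2 * (n : ℝ)) := Real.log_pos (by linarith)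
  obtain ⟨y, hy⟩ : ∃ y : ℝ, y = (2 * n : ℝ) ^ (1 - κ) := ⟨_, rfl⟩
  have hy1 : 1 ≤ y := by rw [hy]; exact Real.one_le_rpow (by linarith) (by linarith)
  have hlogy : Real.log y = (1 - κ) * Real.log (2 * n) := by
    rw [hy, Real.log_rpow (by linarith)]
  obtain ⟨H, hH⟩ : ∃ H : Finset ℕ, H = (range n).filter (fun p => p.Prime ∧ (2 * n - p).Prime) :=
    ⟨_, rfl⟩
  have hreps : reps n = H.card := by rw [hH]; rfl
  obtain ⟨T, hT⟩ : ∃ T : Finset ℕ, T = H.filter (fun p : ℕ => (p : ℝ) ≤ y) := ⟨_, rfl⟩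
  have hT' : ∀ p, p ∈ T ↔ p ∈ H ∧ (p : ℝ) ≤ y := fun p => by rw [hT, Finset.mem_filter]
  have hH' : ∀ p, p ∈ H ↔ p < n ∧ p.Prime ∧ (2 * n - p).Prime :=
    fun p => by rw [hH, Finset.mem_filter, Finset.mem_range]
  have h1 : (T.card : ℝ) ≤ y := by
    have h2 : T ⊆ Finset.Icc 1 ⌊y⌋₊ := by
      intro p hp
      rw [hT', hH'] at hp
      rw [Finset.mem_Icc]
      exact ⟨hp.1.2.1.one_le, Nat.le_floor hp.2⟩
    have h3 := Finset.card_le_card h2
    rw [Nat.card_Icc] at h3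
    have h4 : (T.card : ℝ) ≤ ⌊y⌋₊ := by exact_mod_cast (by omega : T.card ≤ _)
    exact h4.trans (Nat.floor_le (by linarith))
  have h2 : ∀ p ∈ H \ T, ((1 - κ) * Real.log (2 * n)) ^ 2 ≤ lam p * lam (2 * n - p) := by
    intro p hp
    rw [Finset.mem_sdiff, hT'] at hp
    obtain ⟨hpH, hpT⟩ := hp
    have hyp : y < p := by
      by_contra h4
      exact hpT ⟨hpH, not_lt.mp h4⟩
    rw [hH'] at hpH
    obtain ⟨hpn, hpp, hqq⟩ := hpH
    have hyq : y < ((2 * n - p : ℕ) : ℝ) := by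
      refine hyp.trans ?_
      exact_mod_cast (by omega : p < 2 * n - p)
    have hlp : Real.log y ≤ Real.log p := Real.log_le_log (by linarith) hyp.le
    have hlq : Real.log y ≤ Real.log ((2 * n - p : ℕ) : ℝ) := Real.log_le_log (by linarith) hyq.le
    have hly0 : 0 ≤ Real.log y := Real.log_nonneg hy1
    rw [← hlogy, sq]
    have e1 : lam p = Real.log p := by unfold lam; rw [if_pos hpp]
    have e2 : lam (2 * n - p) = Real.log ((2 * n - p : ℕ) : ℝ) := by unfold lam; rw [if_pos hqq]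
    rw [e1, e2]
    exact mul_le_mul hlp hlq hly0 (hly0.trans hlp)
  have h3 : 2 * (((H \ T).card : ℝ) * ((1 - κ) * Real.log (2 * n)) ^ 2) ≤ RR (2 * n) := by
    have h4 : ((H \ T).card : ℝ) * ((1 - κ) * Real.log (2 * n)) ^ 2 ≤
        ∑ p ∈ H \ T, lam p * lam (2 * n - p) := by
      rw [← nsmul_eq_mul]
      exact Finset.card_nsmul_le_sum _ _ _ h2
    have hinj : Set.InjOn (fun p => 2 * n - p) (H \ T : Finset ℕ) := by
      intro p hp q hq hpq
      rw [Finset.mem_coe, Finset.mem_sdiff, hH'] at hp hq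
      simp only at hpq
      omega
    have h5 : ∑ p ∈ H \ T, lam p * lam (2 * n - p) =
        ∑ x ∈ (H \ T).image (fun p => 2 * n - p), lam x * lam (2 * n - x) := by
      rw [Finset.sum_image hinj]
      refine Finset.sum_congr rfl fun p hp => ?_
      rw [Finset.mem_sdiff, hH'] at hp
      have e : 2 * n - (2 * n - p) = p := by omega
      rw [e, mul_comm]
    have hdisj : Disjoint (H \ T) ((H \ T).image (fun p => 2 * n - p)) := by
      rw [Finset.disjoint_left]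
      intro p hp hp'
      rw [Finset.mem_image] at hp'
      obtain ⟨q, hq, hqp⟩ := hp'
      rw [Finset.mem_sdiff, hH'] at hp hq
      omega
    have h6 : ∑ x ∈ (H \ T) ∪ (H \ T).image (fun p => 2 * n - p), lam x * lam (2 * n - x) ≤
        RR (2 * n) := by
      unfold RR
      refine Finset.sum_le_sum_of_subset_of_nonneg ?_
        fun x _ _ => mul_nonneg (lam_nonneg _) (lam_nonneg _)
      intro x hx
      rw [Finset.mem_union, Finset.mem_image] at hx
      rw [mem_range]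
      rcases hx with hx | ⟨q, hq, rfl⟩
      · rw [Finset.mem_sdiff, hH'] at hx
        omega
      · omega
    rw [Finset.sum_union hdisj, ← h5] at h6
    linarith
  have h5 : H.card ≤ T.card + (H \ T).card := by
    rw [← Finset.card_sdiff_add_card_inter H T]
    have : (H ∩ T).card ≤ T.card := Finset.card_le_card Finset.inter_subset_right
    omega
  have h5R : (H.card : ℝ) ≤ T.card + (H \ T).card := by exact_mod_cast h5
  have hL0 : 0 ≤ ((1 - κ) * Real.log (2 * (n : ℝ))) ^ 2 := sq_nonneg _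
  have hL1 : ((1 - κ) * Real.log (2 * (n : ℝ))) ^ 2 ≤ Real.log (2 * n) ^ 2 := by
    apply pow_le_pow_left₀ (by have : 0 ≤ 1 - κ := by linarith
                               positivity)
    exact mul_le_of_le_one_left hlog.le (by linarith)
  rw [hreps, ← hy]
  have h6 : (T.card : ℝ) * ((1 - κ) * Real.log (2 * n)) ^ 2 ≤ y * Real.log (2 * n) ^ 2 :=
    mul_le_mul h1 hL1 hL0 (by linarith)
  have h7 : (H.card : ℝ) * ((1 - κ) * Real.log (2 * n)) ^ 2 ≤
      (T.card + (H \ T).card : ℝ) * ((1 - κ) * Real.log (2 * n)) ^ 2 :=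
    mul_le_mul_of_nonneg_right h5R hL0
  linarith

/-- log estimates -/
lemma small_terms {κ a : ℝ} (hκ0 : 0 < κ) (ha : 0 < a) : ∃ N₀ : ℕ, ∀ n : ℕ, N₀ ≤ n →
    (1 + 2 * (2 * n : ℝ) ^ (1 - κ)) * Real.log (2 * n) ^ 2 ≤ a * n := by
  -- `log² x / x^κ → 0`
  have hlim : Tendsto (fun x : ℝ => ((1 + 2 * x ^ (1 - κ)) * Real.log x ^ 2) / x) atTop (𝓝 0) := by
    have h4 := (isLittleO_log_rpow_atTop (show (0 : ℝ) < κ / 2 by linarith)).tendsto_div_nhds_zero
    have h4' := (isLittleO_log_rpow_atTop (show (0 : ℝ) < 1 / 2 by norm_num)).tendsto_div_nhds_zero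
    have h5 : Tendsto (fun x : ℝ => (Real.log x / x ^ ((1 : ℝ) / 2)) ^ 2 +
        2 * (Real.log x / x ^ (κ / 2)) ^ 2) atTop (𝓝 0) := by
      have := (h4'.pow 2).add ((h4.pow 2).const_mul 2)
      simpa using this
    refine h5.congr' ?_
    filter_upwards [eventually_gt_atTop 0] with x hx
    rw [div_pow, div_pow, ← Real.rpow_natCast (x ^ (κ / 2)) 2, ← Real.rpow_mul hx.le,
      ← Real.rpow_natCast (x ^ ((1 : ℝ) / 2)) 2, ← Real.rpow_mul hx.le]
    have h6 : κ / 2 * ((2 : ℕ) : ℝ) = κ := by push_cast; ring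
    have h6' : 1 / 2 * ((2 : ℕ) : ℝ) = 1 := by push_cast; ring
    rw [h6, h6', Real.rpow_sub hx, Real.rpow_one]
    field_simp
  obtain ⟨x₀, hx₀⟩ := Filter.eventually_atTop.mp (hlim.eventually_lt_const
    (show (0 : ℝ) < a / 2 by linarith))
  refine ⟨max ⌈x₀⌉₊ 1, fun n hn => ?_⟩
  have hn1 : 1 ≤ n := (le_max_right _ _).trans hn
  have hnR : (1 : ℝ) ≤ n := by exact_mod_cast hn1
  have hx : x₀ ≤ 2 * (n : ℝ) := by
    have h1 : (⌈x₀⌉₊ : ℝ) ≤ n := by exact_mod_cast (le_max_left _ _).trans hn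
    have h2 := Nat.le_ceil x₀
    linarith
  have h1 := hx₀ _ hx
  rw [div_lt_iff₀ (by linarith)] at h1
  linarith

/-- from the weighted to the unweighted statement -/
lemma good_n {z : ℕ} {T : Finset ℕ} (hTs : ∀ a ∈ T, sig z a ∉ T) {κ ρ t : ℝ} (hκ0 : 0 < κ)
    (hκ1 : κ < 1) (hρ0 : 0 < ρ) (hρ1 : ρ ≤ 1) (ht0 : 0 < t) (ht : t ≤ 2 * ρ * (1 - κ) ^ 4) :
    ∃ N₀ : ℕ, ∀ n : ℕ, N₀ ≤ n → (2 * n) % Wp z = 2 % Wp z → C2 * n ≤ RR (2 * n) →
      (1 - κ) * ρ * RR (2 * n) ≤ RT z T (2 * n) →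
      t * reps n ≤ hits (BT z T) n := by
  have hC2 := C2_pos
  have h1κ : 0 < 1 - κ := by linarith
  obtain ⟨a, ha⟩ : ∃ a, a = κ * (1 - κ) * ρ * C2 := ⟨_, rfl⟩
  have ha0 : 0 < a := by rw [ha]; positivity
  obtain ⟨N₀, hN₀⟩ := small_terms hκ0 ha0
  refine ⟨max N₀ 1, fun n hn hmod hRR hRT => ?_⟩
  have hn1 : 1 ≤ n := (le_max_right _ _).trans hn
  have hsm := hN₀ n ((le_max_left _ _).trans hn)
  have hnR : (1 : ℝ) ≤ n := by exact_mod_cast hn1
  have hlog : 0 < Real.log (2 * (n : ℝ)) := Real.log_pos (by linarith)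
  have h1 := RT_hits hn1 hTs hmod
  have h2 := RR_reps hκ0 hκ1 hn1
  obtain ⟨y, hy⟩ : ∃ y : ℝ, y = (2 * n : ℝ) ^ (1 - κ) := ⟨_, rfl⟩
  have hy0 : 0 ≤ y := by rw [hy]; positivity
  obtain ⟨L, hL⟩ : ∃ L : ℝ, L = Real.log (2 * (n : ℝ)) ^ 2 := ⟨_, rfl⟩
  have hL0 : 0 < L := by rw [hL]; positivity
  rw [← hy] at h2 hsm
  rw [← hL] at h1 h2 hsm
  have e1 : 2 * (reps n : ℝ) * ((1 - κ) * Real.log (2 * n)) ^ 2 =
      2 * reps n * (1 - κ) ^ 2 * L := by rw [hL]; ring
  rw [e1] at h2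
  obtain ⟨R, hR⟩ : ∃ R, R = RR (2 * n) := ⟨_, rfl⟩
  rw [← hR] at h2 hRR hRT
  have hR0 : 0 ≤ R := le_trans (by positivity) hRR
  -- `t reps L ≤ ρ (1 - κ)^2 (R + 2 y L)`
  have h3 : t * reps n * L ≤ ρ * (1 - κ) ^ 2 * (R + 2 * (y * L)) := by
    calc t * reps n * L ≤ (2 * ρ * (1 - κ) ^ 4) * reps n * L := by
          apply mul_le_mul_of_nonneg_right _ hL0.le
          exact mul_le_mul_of_nonneg_right ht (Nat.cast_nonneg _)
      _ = ρ * (1 - κ) ^ 2 * (2 * reps n * (1 - κ) ^ 2 * L) := by ring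
      _ ≤ _ := mul_le_mul_of_nonneg_left h2 (by positivity)
  have h4 : ρ * (1 - κ) ^ 2 * (2 * (y * L)) ≤ 2 * (y * L) := by
    apply mul_le_of_le_one_left (by positivity)
    have : (1 - κ) ^ 2 ≤ 1 := by
      rw [sq_le_one_iff₀ h1κ.le]; linarith
    calc ρ * (1 - κ) ^ 2 ≤ 1 * 1 := mul_le_mul hρ1 this (by positivity) (by norm_num)
      _ = 1 := one_mul 1
  have h5 : κ * (1 - κ) * ρ * (C2 * n) ≤ κ * (1 - κ) * ρ * R :=
    mul_le_mul_of_nonneg_left hRR (by positivity)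
  have h6 : (1 + 2 * y) * L ≤ κ * (1 - κ) * ρ * R := by
    refine le_trans (hsm.trans (le_of_eq ?_)) h5
    rw [ha]; ring
  have h7 : t * reps n * L ≤ hits (BT z T) n * L := by
    have h8 : (hits (BT z T) n + 1 : ℝ) * L = hits (BT z T) n * L + L := by ring
    have h9 : ρ * (1 - κ) ^ 2 * (R + 2 * (y * L)) =
      (1 - κ) * ρ * R - κ * (1 - κ) * ρ * R + ρ * (1 - κ) ^ 2 * (2 * (y * L)) := by ring
    rw [h8] at h1
    rw [h9] at h3
    linarith
  exact le_of_mul_le_mul_right h7 hL0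

/-- representations exist as soon as `RR` is large -/
lemma reps_pos_of : ∃ N₀ : ℕ, ∀ n : ℕ, N₀ ≤ n → C2 * n ≤ RR (2 * n) → 0 < reps n := by
  have hC2 := C2_pos
  obtain ⟨N₀, hN₀⟩ := small_terms (κ := 1 / 2) (a := C2 / 2) (by norm_num) (by positivity)
  refine ⟨max N₀ 1, fun n hn hRR => ?_⟩
  have hn1 : 1 ≤ n := (le_max_right _ _).trans hn
  have hsm := hN₀ n ((le_max_left _ _).trans hn)
  have hnR : (1 : ℝ) ≤ n := by exact_mod_cast hn1
  by_contra h
  have h0 : reps n = 0 := by omega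
  have h1 := total_le hn1
  rw [h0] at h1
  have h2 : RR (2 * n) = ∑ x ∈ range (2 * n + 1), lam x * lam (2 * n - x) := rfl
  rw [← h2] at h1
  have h3 : 0 ≤ (2 * (n : ℝ)) ^ (1 - (1 : ℝ) / 2) * Real.log (2 * n) ^ 2 := by positivity
  have h4 : (1 + 2 * (2 * (n : ℝ)) ^ (1 - (1 : ℝ) / 2)) * Real.log (2 * n) ^ 2 =
    Real.log (2 * n) ^ 2 + 2 * ((2 * (n : ℝ)) ^ (1 - (1 : ℝ) / 2) * Real.log (2 * n) ^ 2) := by
    ring
  rw [h4] at hsm
  push_cast at h1
  have h5 : 0 < C2 * n := by positivity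
  linarith

/-- if all classes `a ∈ adm z` satisfy `a ∈ T` or `sig z a ∈ T`, every pair meets `BT z T` -/
lemma hits_all {z n : ℕ} (hz : 2 ≤ z) {T : Finset ℕ} (hT : ∀ a ∈ adm z, a ∈ T ∨ sig z a ∈ T)
    (hmod : (2 * n) % Wp z = 2 % Wp z) : hits (BT z T) n = reps n := by
  classical
  unfold hits reps
  congr 1
  ext p
  rw [Finset.mem_filter, Finset.mem_filter]
  constructor
  · rintro ⟨h1, h2, h3, _⟩; exact ⟨h1, h2, h3⟩
  · rintro ⟨h1, hp, hq⟩
    refine ⟨h1, hp, hq, ?_⟩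
    rw [mem_range] at h1
    by_cases hpz : p ≤ z
    · exact Or.inl (Or.inl hpz)
    by_cases hqz : 2 * n - p ≤ z
    · exact Or.inr (Or.inl hqz)
    have hadm : p % Wp z ∈ adm z := by
      rw [mem_adm]
      refine ⟨Nat.mod_lt _ (Wp_pos z), fun r hr => ?_⟩
      have hr' := mem_pr.mp hr
      rw [Nat.mod_mod_of_dvd _ (dvd_Wp hr)]
      constructor
      · intro h0
        have := (Nat.prime_dvd_prime_iff_eq hr'.2 hp).mp (Nat.dvd_of_mod_eq_zero h0)
        omega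
      · intro h2
        -- then `r ∣ 2 n - p`
        have h3 : (2 * n) % r = 2 % r := by
          have h7 := congrArg (· % r) hmod
          simp only [Nat.mod_mod_of_dvd _ (dvd_Wp hr)] at h7
          exact h7
        have h4 : p ≡ 2 * n [MOD r] := h2.trans h3.symm
        have h5 : r ∣ 2 * n - p := (Nat.modEq_iff_dvd' (by omega)).mp h4
        have := (Nat.prime_dvd_prime_iff_eq hr'.2 hq).mp h5
        omega
    rcases hT _ hadm with h | h
    · exact Or.inl (Or.inr h)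
    · right; right
      rw [reflect_mod (by omega) hmod]
      exact h

end Pool.Agent.Lib.GT.Robust
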