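import Pool.Agent.Lib.MP_7b7e48_nt.GT.RobustCount
import Pool.Agent.Lib.MP_7b7e48_nt.GT.RoughCount

/-!
# Robust Goldbach: the example showing that the double exponential is sharp
-/

open Finset Pool.Agent.Lib.GT Pool.Agent.Lib.GT.LA

namespace Pool.Agent.Lib.GT.Robust

/-- indicator: `x` avoids the classes `0` and `2` modulo all primes `≤ z` -/
noncomputable def av (z x : ℕ) : ℝ := ∏ r ∈ pr z, (if x % r = 0 ∨ x % r = 2 % r then 0 else 1)

lemma av_eq (z x : ℕ) :
    av z x = if ∀ r ∈ pr z, x % r ≠ 0 ∧ x % r ≠ 2 % r then 1 else 0 := by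
  unfold av
  split_ifs with h
  · refine Finset.prod_eq_one fun r hr => ?_
    rw [if_neg]
    push Not
    exact h r hr
  · push Not at h
    obtain ⟨r, hr, h1⟩ := h
    refine Finset.prod_eq_zero hr ?_
    rw [if_pos]
    by_cases h2 : x % r = 0
    · exact Or.inl h2
    · exact Or.inr (h1 h2)

lemma av_nonneg (z x : ℕ) : 0 ≤ av z x := by
  rw [av_eq]
  split_ifs <;> norm_num

lemma sum_av (z : ℕ) (hz : 2 ≤ z) :
    ∑ a ∈ range (Wp z), av z a ≤ 2 * V z * ∏ r ∈ pr z, ((r : ℝ) - 1) := by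
  have hP : ∀ p ∈ pr z, p.Prime := fun p hp => (mem_pr.mp hp).2
  have h1 := sum_prod_period (pr z) hP (fun r a => if a = 0 ∨ a = 2 % r then (0 : ℝ) else 1)
  unfold Wp av
  rw [h1]
  have h2 : 2 ∈ pr z := mem_pr.mpr ⟨hz, Nat.prime_two⟩
  unfold V
  have h3 : (2 : ℝ) * (∏ p ∈ pr z, (1 - 1 / (p : ℝ))) * ∏ r ∈ pr z, ((r : ℝ) - 1) =
      ∏ r ∈ pr z, ((if r = 2 then 2 else 1) * (1 - 1 / (r : ℝ)) * ((r : ℝ) - 1)) := by
    rw [Finset.prod_mul_distrib, Finset.prod_mul_distrib, Finset.prod_ite_eq' (pr z) 2, if_pos h2]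
  rw [h3]
  refine Finset.prod_le_prod (fun r _ => Finset.sum_nonneg fun a _ => by split_ifs <;> norm_num)
    fun r hr => ?_
  have hr' := mem_pr.mp hr
  rcases eq_or_ne r 2 with rfl | hr2
  · norm_num [Finset.sum_range_succ]
  · have hr3 : 3 ≤ r := by
      have := hr'.2.two_le
      omega
    rw [if_neg hr2]
    have hr3R : (3 : ℝ) ≤ r := by exact_mod_cast hr3
    have h4 : ∀ a ∈ range r, (if a = 0 ∨ a = 2 % r then (0 : ℝ) else 1) =
        1 - (if a = 0 then 1 else 0) - (if a = 2 then 1 else 0) := by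
      intro a _
      rw [Nat.mod_eq_of_lt (by omega : 2 < r)]
      rcases eq_or_ne a 0 with h5 | h5
      · subst h5; norm_num
      · rcases eq_or_ne a 2 with h6 | h6
        · subst h6; norm_num
        · simp [h5, h6]
    rw [Finset.sum_congr rfl h4, Finset.sum_sub_distrib, Finset.sum_sub_distrib, Finset.sum_const,
      card_range, Finset.sum_ite_eq', Finset.sum_ite_eq', if_pos (mem_range.mpr (by omega)),
      if_pos (mem_range.mpr (by omega)), nsmul_eq_mul]
    have h5 : 1 * (1 - 1 / (r : ℝ)) * ((r : ℝ) - 1) = r - 2 + 1 / r := by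
      field_simp
      ring
    rw [h5]
    have : (0 : ℝ) ≤ 1 / r := by positivity
    linarith

/-- the weighted number of primes avoiding the classes `0, 2` -/
lemma sum_lam_av (z : ℕ) (hz : 2 ≤ z) : ∃ X₀ : ℕ, ∀ X : ℕ, X₀ ≤ X →
    ∑ x ∈ Finset.Icc 1 X, lam x * av z x ≤ 4 * X / Real.log z := by
  have hP : ∀ p ∈ pr z, p.Prime := fun p hp => (mem_pr.mp hp).2
  obtain ⟨X₀, hX₀⟩ := class_bound (pr z) hP
  refine ⟨X₀, fun X hX => ?_⟩
  have hWp := Wp_pos z
  have h1 : ∑ x ∈ Finset.Icc 1 X, lam x * av z x =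
      ∑ a ∈ range (Wp z), av z a * ∑ x ∈ Finset.Icc 1 X with x % Wp z = a, lam x := by
    have h2 := Finset.sum_fiberwise_of_maps_to (s := Finset.Icc 1 X) (t := range (Wp z))
      (g := fun x => x % Wp z) (fun x _ => mem_range.mpr (Nat.mod_lt _ hWp))
      (fun x => lam x * av z x)
    rw [← h2]
    refine Finset.sum_congr rfl fun a _ => ?_
    rw [Finset.mul_sum]
    refine Finset.sum_congr rfl fun x hx => ?_
    rw [Finset.mem_filter] at hx
    have h3 : av z x = av z a := by
      unfold av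
      refine Finset.prod_congr rfl fun r hr => ?_
      rw [← hx.2, Nat.mod_mod_of_dvd _ (dvd_Wp hr)]
    rw [h3, mul_comm]
  rw [h1]
  have h2 : ∀ a ∈ range (Wp z), ∑ x ∈ Finset.Icc 1 X with x % Wp z = a, lam x ≤
      2 * X * ∏ p ∈ pr z, (1 / ((p : ℝ) - 1)) := by
    intro a _
    refine le_trans ?_ (hX₀ X hX (pr z) (Finset.Subset.refl _) (fun r => a % r))
    refine Finset.sum_le_sum_of_subset_of_nonneg ?_ fun x _ _ => lam_nonneg x
    intro x hx
    rw [Finset.mem_filter] at hx ⊢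
    refine ⟨hx.1, fun p hp => ?_⟩
    show x % p = a % p
    rw [← hx.2, Nat.mod_mod_of_dvd _ (dvd_Wp hp)]
  have hp1 : ∀ p ∈ pr z, (0 : ℝ) < (p : ℝ) - 1 := by
    intro p hp
    have : (2 : ℝ) ≤ p := by exact_mod_cast (hP p hp).two_le
    linarith
  calc ∑ a ∈ range (Wp z), av z a * ∑ x ∈ Finset.Icc 1 X with x % Wp z = a, lam x
      ≤ ∑ a ∈ range (Wp z), av z a * (2 * X * ∏ p ∈ pr z, (1 / ((p : ℝ) - 1))) :=
        Finset.sum_le_sum fun a ha => mul_le_mul_of_nonneg_left (h2 a ha) (av_nonneg z a)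
    _ = (∑ a ∈ range (Wp z), av z a) * (2 * X * ∏ p ∈ pr z, (1 / ((p : ℝ) - 1))) := by
        rw [Finset.sum_mul]
    _ ≤ (2 * V z * ∏ r ∈ pr z, ((r : ℝ) - 1)) * (2 * X * ∏ p ∈ pr z, (1 / ((p : ℝ) - 1))) := by
        refine mul_le_mul_of_nonneg_right (sum_av z hz) ?_
        refine mul_nonneg (by positivity) (Finset.prod_nonneg fun p hp => ?_)
        have := hp1 p hp
        positivity
    _ = 4 * X * V z := by
        have h3 : (∏ r ∈ pr z, ((r : ℝ) - 1)) * ∏ p ∈ pr z, (1 / ((p : ℝ) - 1)) = 1 := by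
          rw [← Finset.prod_mul_distrib]
          refine Finset.prod_eq_one fun p hp => ?_
          have := hp1 p hp
          field_simp
        calc _ = 4 * X * V z * ((∏ r ∈ pr z, ((r : ℝ) - 1)) * ∏ p ∈ pr z, (1 / ((p : ℝ) - 1))) := by
              ring
          _ = _ := by rw [h3, mul_one]
    _ ≤ 4 * X / Real.log z := by
        have h3 := V_le z hz
        calc 4 * (X : ℝ) * V z ≤ 4 * X * (1 / Real.log z) :=
              mul_le_mul_of_nonneg_left h3 (by positivity)
          _ = _ := by ring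

/-- the set of the example -/
def badSet (z : ℕ) : Set ℕ := {p | p ≤ z ∨ ∀ r ∈ pr z, p % r ≠ 0 ∧ p % r ≠ 2 % r}

open Classical in
/-- counting from weights -/
lemma card_badSet (z : ℕ) (hz : 2 ≤ z) : ∃ X₀ : ℕ, ∀ X : ℕ, X₀ ≤ X →
    (((Finset.Icc 1 X).filter (fun p => p.Prime ∧ p ∈ badSet z)).card : ℝ) ≤
      z + Real.sqrt X + 8 * X / (Real.log z * Real.log X) := by
  obtain ⟨X₁, hX₁⟩ := sum_lam_av z hz
  refine ⟨max X₁ 3, fun X hX => ?_⟩
  have hX1 := (le_max_left _ _).trans hX
  have hX3 : 3 ≤ X := (le_max_right _ _).trans hX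
  have hXR : (3 : ℝ) ≤ X := by exact_mod_cast hX3
  have hlogX : 0 < Real.log X := Real.log_pos (by linarith)
  have hzR : (2 : ℝ) ≤ z := by exact_mod_cast hz
  have hlogz : 0 < Real.log z := Real.log_pos (by linarith)
  have h0 := hX₁ X hX1
  have hsub : (Finset.Icc 1 X).filter (fun p => p.Prime ∧ p ∈ badSet z) ⊆
      (Finset.Icc 1 z ∪ Finset.Icc 1 (Nat.sqrt X)) ∪
        (Finset.Icc 1 X).filter (fun p => p.Prime ∧ Nat.sqrt X < p ∧
          ∀ r ∈ pr z, p % r ≠ 0 ∧ p % r ≠ 2 % r) := by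
    intro p hp
    rw [Finset.mem_filter, Finset.mem_Icc] at hp
    obtain ⟨⟨h1, h2⟩, h3, h4⟩ := hp
    rw [Finset.mem_union, Finset.mem_union, Finset.mem_Icc, Finset.mem_Icc, Finset.mem_filter,
      Finset.mem_Icc]
    rcases le_or_gt p (Nat.sqrt X) with h5 | h5
    · exact Or.inl (Or.inr ⟨h1, h5⟩)
    · rcases h4 with h4 | h4
      · exact Or.inl (Or.inl ⟨h1, h4⟩)
      · exact Or.inr ⟨⟨h1, h2⟩, h3, h5, h4⟩
  have hcard := (Finset.card_le_card hsub).trans ((Finset.card_union_le _ _).trans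
    (Nat.add_le_add_right (Finset.card_union_le _ _) _))
  rw [Nat.card_Icc, Nat.card_Icc] at hcard
  have hcardR : (((Finset.Icc 1 X).filter (fun p => p.Prime ∧ p ∈ badSet z)).card : ℝ) ≤
      z + Nat.sqrt X + (((Finset.Icc 1 X).filter (fun p => p.Prime ∧ Nat.sqrt X < p ∧
          ∀ r ∈ pr z, p % r ≠ 0 ∧ p % r ≠ 2 % r)).card : ℝ) := by
    exact_mod_cast hcard
  have hsqrt : (Nat.sqrt X : ℝ) ≤ Real.sqrt X := Real.nat_sqrt_le_real_sqrt
  have hbig : (((Finset.Icc 1 X).filter (fun p => p.Prime ∧ Nat.sqrt X < p ∧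
          ∀ r ∈ pr z, p % r ≠ 0 ∧ p % r ≠ 2 % r)).card : ℝ) * (Real.log X / 2) ≤
      ∑ x ∈ Finset.Icc 1 X, lam x * av z x := by
    rw [← nsmul_eq_mul]
    refine le_trans (Finset.card_nsmul_le_sum _ (fun x => lam x * av z x) _ ?_)
      (Finset.sum_le_sum_of_subset_of_nonneg (Finset.filter_subset _ _)
        fun x _ _ => mul_nonneg (lam_nonneg x) (av_nonneg z x))
    intro p hp
    rw [Finset.mem_filter] at hp
    obtain ⟨_, hpp, h1, h2⟩ := hp
    show Real.log X / 2 ≤ lam p * av z p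
    rw [av_eq, if_pos h2, mul_one]
    unfold lam
    rw [if_pos hpp, div_le_iff₀ (by norm_num)]
    have h3 : X < p * p := Nat.sqrt_lt.mp h1
    have h4 : (X : ℝ) ≤ (p : ℝ) ^ 2 := by
      have : (X : ℝ) < ((p * p : ℕ) : ℝ) := by exact_mod_cast h3
      push_cast at this
      nlinarith
    calc Real.log X ≤ Real.log ((p : ℝ) ^ 2) := Real.log_le_log (by linarith) h4
      _ = Real.log p * 2 := by rw [Real.log_pow]; push_cast; ring
  have h5 : (((Finset.Icc 1 X).filter (fun p => p.Prime ∧ Nat.sqrt X < p ∧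
          ∀ r ∈ pr z, p % r ≠ 0 ∧ p % r ≠ 2 % r)).card : ℝ) ≤ 8 * X / (Real.log z * Real.log X) := by
    rw [le_div_iff₀ (by positivity)]
    have h6 := hbig.trans h0
    rw [le_div_iff₀ hlogz] at h6
    nlinarith
  linarith

lemma pi_lower : ∃ X₀ : ℕ, ∀ X : ℕ, X₀ ≤ X → (X : ℝ) / (2 * Real.log X) ≤ Nat.primeCounting X := by
  have h1 : Filter.Tendsto (fun n : ℕ => Real.log ((n : ℝ) + 1) / (n : ℝ)) Filter.atTop (nhds 0) := by
    have h2 : Filter.Tendsto (fun x : ℝ => Real.log (x + 1) / x) Filter.atTop (nhds 0) := by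
      have h3 : (fun x : ℝ => Real.log (x + 1)) =o[Filter.atTop] (fun x : ℝ => x + 1) :=
        (Real.isLittleO_log_id_atTop).comp_tendsto (Filter.tendsto_atTop_add_const_right _ 1
          Filter.tendsto_id)
      have h4 : (fun x : ℝ => x + 1) =O[Filter.atTop] (fun x : ℝ => x) := by
        refine Asymptotics.IsBigO.of_bound 2 ?_
        filter_upwards [Filter.eventually_ge_atTop 1] with x hx
        rw [Real.norm_of_nonneg (by linarith), Real.norm_of_nonneg (by linarith)]
        linarith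
      exact (h3.trans_isBigO h4).tendsto_div_nhds_zero
    exact h2.comp tendsto_natCast_atTop_atTop
  have h2 : (0 : ℝ) < 1 / 10 := by norm_num
  obtain ⟨X₀, hX₀⟩ := Filter.eventually_atTop.mp (h1.eventually_lt_const h2)
  refine ⟨max X₀ 3, fun X hX => ?_⟩
  have h3 := hX₀ X ((le_max_left _ _).trans hX)
  have hX3 : (3 : ℝ) ≤ X := by exact_mod_cast (le_max_right _ _).trans hX
  have hlog : 0 < Real.log X := Real.log_pos (by linarith)
  rw [div_lt_iff₀ (by linarith)] at h3
  refine le_trans ?_ (Chebyshev.pi_ge X)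
  rw [div_le_div_iff₀ (by positivity) hlog]
  have hl2 := Real.log_two_gt_d9
  have h4 : (X : ℝ) ≤ 2 * (X * Real.log 2 - Real.log (X + 1)) := by nlinarith
  calc (X : ℝ) * Real.log X ≤ (2 * (X * Real.log 2 - Real.log (X + 1))) * Real.log X :=
        mul_le_mul_of_nonneg_right h4 hlog.le
    _ = _ := by ring

lemma Wp_le (z : ℕ) : (Wp z : ℝ) ≤ 4 ^ z := by
  have h1 : Wp z = primorial z := by
    unfold Wp primorial pr
    rfl
  rw [h1]
  exact_mod_cast primorial_le_four_pow z

/-- many `n` congruent to `1` -/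
lemma card_class_one {W X : ℕ} (hW : 0 < W) (hX : 8 * W ≤ X) :
    (X : ℝ) / (4 * W) ≤ (((Finset.Ioc (X / 2) X).filter (fun n => n % W = 1 % W)).card : ℝ) := by
  -- injection `k ↦ k * W + 1`
  have hsub : (Finset.Ico (X / (2 * W) + 1) (X / W)).image (fun k => k * W + 1) ⊆
      (Finset.Ioc (X / 2) X).filter (fun n => n % W = 1 % W) := by
    intro n hn
    rw [Finset.mem_image] at hn
    obtain ⟨k, hk, rfl⟩ := hn
    rw [Finset.mem_Ico] at hk
    rw [Finset.mem_filter, Finset.mem_Ioc]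
    have h1 : k * W + W ≤ X := by
      have : k + 1 ≤ X / W := hk.2
      have h2 := (Nat.le_div_iff_mul_le hW).mp this
      nlinarith
    have h3 : X < (X / (2 * W) + 1) * (2 * W) := LA.lt_div_add_one_mul (by omega)
    have h4 : (X / (2 * W) + 1) * (2 * W) ≤ k * (2 * W) := Nat.mul_le_mul_right _ hk.1
    refine ⟨⟨?_, by omega⟩, ?_⟩
    · have h5 : k * (2 * W) = 2 * (k * W) := by ring
      omega
    · rw [Nat.add_comm, Nat.add_mul_mod_self_right]
  have hinj : ((Finset.Ico (X / (2 * W) + 1) (X / W)).image (fun k => k * W + 1)).card =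
      (Finset.Ico (X / (2 * W) + 1) (X / W)).card := by
    apply Finset.card_image_of_injective
    intro a b hab
    have hab' : a * W + 1 = b * W + 1 := hab
    have : a * W = b * W := by omega
    exact Nat.eq_of_mul_eq_mul_right hW this
  have h1 := Finset.card_le_card hsub
  rw [hinj, Nat.card_Ico] at h1
  have hWR : (0 : ℝ) < W := by exact_mod_cast hW
  have h2 : (X : ℝ) / (4 * W) ≤ ((X / W - (X / (2 * W) + 1) : ℕ) : ℝ) := by
    rw [div_le_iff₀ (by positivity)]
    have h3 : X < (X / W + 1) * W := LA.lt_div_add_one_mul hW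
    have h4 : X / (2 * W) * (2 * W) ≤ X := Nat.div_mul_le_self _ _
    have h5 : X / (2 * W) + 1 ≤ X / W := by
      rw [Nat.le_div_iff_mul_le hW]
      have : (X / (2 * W) + 1) * W = X / (2 * W) * W + W := by ring
      have h6 : X / (2 * W) * (2 * W) = 2 * (X / (2 * W) * W) := by ring
      omega
    have h7 : ((X / W - (X / (2 * W) + 1) : ℕ) : ℝ) = (X / W : ℕ) - (X / (2 * W) : ℕ) - 1 := by
      rw [Nat.cast_sub h5]
      push_cast
      ring
    rw [h7]
    have h8 : (X : ℝ) < ((X / W : ℕ) + 1) * W := by exact_mod_cast h3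
    have h9 : ((X / (2 * W) : ℕ) : ℝ) * (2 * W) ≤ X := by exact_mod_cast h4
    have h10 : (8 : ℝ) * W ≤ X := by exact_mod_cast hX
    nlinarith
  exact h2.trans (by exact_mod_cast h1)

open Classical in
/-- The double exponential is sharp. -/
theorem sharp : ∃ C : ℝ, 0 < C ∧ ∀ η : ℝ, 0 < η → η ≤ 1 → ∃ B : Set ℕ,
    (∃ X₀ : ℕ, ∀ X : ℕ, X₀ ≤ X →
      (((Finset.Icc 1 X).filter (fun p => p.Prime ∧ p ∈ B)).card : ℝ) ≤
        η * Nat.primeCounting X) ∧
    ∃ X₀ : ℕ, ∀ X : ℕ, X₀ ≤ X → Real.exp (-Real.exp (C / η)) * X ≤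
      (((Finset.Ioc (X / 2) X).filter (fun n => ∀ p q : ℕ, p.Prime → q.Prime → p + q = 2 * n →
        p ∈ B ∨ q ∈ B)).card : ℝ) := by
  refine ⟨34, by norm_num, fun η hη hη1 => ?_⟩
  set z : ℕ := ⌈Real.exp (32 / η)⌉₊ with hz
  have hη32 : 32 ≤ 32 / η := by rw [le_div_iff₀ hη]; linarith
  have hexp32 : (3 : ℝ) ≤ Real.exp (32 / η) := by
    have := Real.add_one_le_exp (32 / η)
    linarith
  have hz1 : Real.exp (32 / η) ≤ z := Nat.le_ceil _
  have hz2 : (z : ℝ) < Real.exp (32 / η) + 1 := Nat.ceil_lt_add_one (Real.exp_pos _).le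
  have hz3 : 3 ≤ z := by
    have : (3 : ℝ) ≤ z := hexp32.trans hz1
    exact_mod_cast this
  have hzR : (3 : ℝ) ≤ z := by exact_mod_cast hz3
  have hlogz : 32 / η ≤ Real.log z := by
    rw [Real.le_log_iff_exp_le (by linarith)]
    exact hz1
  refine ⟨badSet z, ?_, ?_⟩
  · obtain ⟨X₁, hX₁⟩ := card_badSet z (by omega)
    obtain ⟨X₂, hX₂⟩ := pi_lower
    -- `z + √X ≤ η X / (4 log X)` eventually
    have h1 : Filter.Tendsto (fun x : ℝ => ((z : ℝ) + Real.sqrt x) * Real.log x / x) Filter.atTop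
        (nhds 0) := by
      have h2 : Filter.Tendsto (fun x : ℝ => (z : ℝ) * (Real.log x / x)) Filter.atTop (nhds 0) := by
        have := (Real.isLittleO_log_id_atTop).tendsto_div_nhds_zero
        have h3 := this.const_mul (z : ℝ)
        rw [mul_zero] at h3
        exact h3
      have h3 : Filter.Tendsto (fun x : ℝ => Real.log x / Real.sqrt x) Filter.atTop (nhds 0) := by
        have h4 := (isLittleO_log_rpow_atTop (show (0 : ℝ) < 1 / 2 by norm_num)).tendsto_div_nhds_zero
        refine h4.congr fun x => ?_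
        rw [Real.sqrt_eq_rpow]
      have h4 := h2.add h3
      rw [add_zero] at h4
      refine h4.congr' ?_
      filter_upwards [Filter.eventually_gt_atTop 0] with x hx
      have h5 : Real.sqrt x ≠ 0 := (Real.sqrt_pos.mpr hx).ne'
      have h6 : Real.sqrt x * Real.sqrt x = x := Real.mul_self_sqrt hx.le
      have h7 : Real.log x / Real.sqrt x = Real.sqrt x * Real.log x / x := by
        rw [div_eq_div_iff h5 hx.ne']
        calc Real.log x * x = Real.log x * (Real.sqrt x * Real.sqrt x) := by rw [h6]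
          _ = _ := by ring
      rw [h7]
      ring
    have h2 : (0 : ℝ) < η / 4 := by positivity
    have h3 := (h1.comp tendsto_natCast_atTop_atTop).eventually_lt_const h2
    obtain ⟨X₃, hX₃⟩ := Filter.eventually_atTop.mp h3
    refine ⟨max (max X₁ X₂) (max X₃ 3), fun X hX => ?_⟩
    have hXa := hX₁ X (((le_max_left _ _).trans (le_max_left _ _)).trans hX)
    have hXb := hX₂ X (((le_max_right _ _).trans (le_max_left _ _)).trans hX)
    have hXc := hX₃ X (((le_max_left _ _).trans (le_max_right _ _)).trans hX)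
    have hX3 : (3 : ℝ) ≤ X := by
      exact_mod_cast ((le_max_right _ _).trans (le_max_right _ _)).trans hX
    have hlog : 0 < Real.log X := Real.log_pos (by linarith)
    simp only [Function.comp] at hXc
    rw [div_lt_iff₀ (by linarith)] at hXc
    refine hXa.trans ?_
    have h5 : (z : ℝ) + Real.sqrt X ≤ η / 4 * X / Real.log X := by
      rw [le_div_iff₀ hlog]
      exact hXc.le
    have h6 : 8 * (X : ℝ) / (Real.log z * Real.log X) ≤ η / 4 * X / Real.log X := by
      rw [← div_div, div_le_div_iff_of_pos_right hlog]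
      have h7 : 0 < Real.log z := lt_of_lt_of_le (by positivity) hlogz
      rw [div_le_iff₀ h7]
      rw [div_le_iff₀ hη] at hlogz
      nlinarith
    have h7 : η * ((X : ℝ) / (2 * Real.log X)) ≤ η * Nat.primeCounting X :=
      mul_le_mul_of_nonneg_left hXb hη.le
    have h8 : η * ((X : ℝ) / (2 * Real.log X)) = η / 4 * X / Real.log X + η / 4 * X / Real.log X := by
      field_simp
      ring
    linarith
  · refine ⟨8 * Wp z, fun X hX => ?_⟩
    have hW := Wp_pos z
    have hWR : (0 : ℝ) < Wp z := by exact_mod_cast hW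
    have h1 := card_class_one hW hX
    have h2 : (((Finset.Ioc (X / 2) X).filter (fun n => n % Wp z = 1 % Wp z)).card : ℝ) ≤
        (((Finset.Ioc (X / 2) X).filter (fun n => ∀ p q : ℕ, p.Prime → q.Prime → p + q = 2 * n →
          p ∈ badSet z ∨ q ∈ badSet z)).card : ℝ) := by
      have : (Finset.Ioc (X / 2) X).filter (fun n => n % Wp z = 1 % Wp z) ⊆
          (Finset.Ioc (X / 2) X).filter (fun n => ∀ p q : ℕ, p.Prime → q.Prime → p + q = 2 * n →
            p ∈ badSet z ∨ q ∈ badSet z) := by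
        intro n hn
        rw [Finset.mem_filter] at hn ⊢
        refine ⟨hn.1, fun p q hp hq hpq => ?_⟩
        rcases le_or_gt p z with h3 | h3
        · exact Or.inl (Or.inl h3)
        · rcases le_or_gt q z with h4 | h4
          · exact Or.inr (Or.inl h4)
          · left
            right
            intro r hr
            have hr' := mem_pr.mp hr
            have hmod : n % r = 1 % r := by
              have h5 := congrArg (fun x => x % r) hn.2
              simpa [Nat.mod_mod_of_dvd _ (dvd_Wp hr)] using h5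
            have hndvd : ∀ x : ℕ, x.Prime → z < x → ¬ r ∣ x := by
              intro x hx hzx hd
              rcases (Nat.dvd_prime hx).mp hd with h5 | h5
              · exact hr'.2.one_lt.ne' h5
              · omega
            refine ⟨fun h5 => hndvd p hp h3 (Nat.dvd_of_mod_eq_zero h5), fun h5 => ?_⟩
            apply hndvd q hq h4
            have h6 : (p + q) % r = 2 % r := by
              rw [hpq, two_mul, Nat.add_mod, hmod, ← Nat.add_mod]
            have h7 : p ≡ 2 [MOD r] := h5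
            have h8 : p + q ≡ 2 + 0 [MOD r] := h6
            have h9 : q ≡ 0 [MOD r] := Nat.ModEq.add_left_cancel h7 h8
            exact (Nat.modEq_zero_iff_dvd).mp h9
      exact_mod_cast Finset.card_le_card this
    refine le_trans ?_ (h1.trans h2)
    have hdiv : (X : ℝ) / (4 * (Wp z : ℝ)) = X * (4 * (Wp z : ℝ))⁻¹ := div_eq_mul_inv _ _
    rw [hdiv, mul_comm]
    refine mul_le_mul_of_nonneg_left ?_ (Nat.cast_nonneg X)
    rw [Real.exp_neg]
    apply inv_anti₀ (by positivity)
    -- `4 W ≤ 4 ^ (z+1) ≤ exp (exp (34/η))`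
    have h3 : (4 : ℝ) * Wp z ≤ Real.exp (((z : ℝ) + 1) * Real.log 4) := by
      have h4 : (4 : ℝ) * Wp z ≤ 4 ^ (z + 1) := by
        rw [pow_succ, mul_comm]
        exact mul_le_mul_of_nonneg_right (Wp_le z) (by norm_num)
      refine h4.trans (le_of_eq ?_)
      rw [mul_comm, ← Real.rpow_def_of_pos (by norm_num : (0 : ℝ) < 4)]
      rw [show ((z : ℝ) + 1) = ((z + 1 : ℕ) : ℝ) by push_cast; ring, Real.rpow_natCast]
    refine h3.trans (Real.exp_le_exp.mpr ?_)
    have h4 : Real.log 4 ≤ 1.4 := by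
      rw [show (4 : ℝ) = 2 ^ 2 by norm_num, Real.log_pow]
      have := Real.log_two_lt_d9
      push_cast
      linarith
    have h5 : Real.exp (34 / η) = Real.exp (32 / η) * Real.exp (2 / η) := by
      rw [← Real.exp_add]
      congr 1
      ring
    have h6 : 2 ≤ 2 / η := by rw [le_div_iff₀ hη]; linarith
    have h7 : (3 : ℝ) ≤ Real.exp (2 / η) := by
      have := Real.add_one_le_exp (2 / η)
      linarith
    rw [h5]
    have h8 : ((z : ℝ) + 1) * Real.log 4 ≤ (Real.exp (32 / η) + 2) * 1.4 := by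
      apply mul_le_mul (by linarith) h4 (Real.log_nonneg (by norm_num)) (by positivity)
    have h9 : Real.exp (32 / η) * 3 ≤ Real.exp (32 / η) * Real.exp (2 / η) :=
      mul_le_mul_of_nonneg_left h7 (Real.exp_pos _).le
    nlinarith

end Pool.Agent.Lib.GT.Robust
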