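import Pool.Agent.Lib.MP_7b7e48_nt.GT.RobustLowerA
import Pool.Agent.Lib.MP_7b7e48_nt.GT.RobustSharp

/-!
# Robust Goldbach with the exact constant: the lower bound
-/

open Finset Filter Topology Pool.Agent.Lib.GT Pool.Agent.Lib.GT.LA

namespace Pool.Agent.Lib.GT.Robust

open Pool.Agent.Lib.MP_7b7e48_nt (twinPartial exists_twin half_le_twinPartial twinPartial_antitone)

lemma adm_coprime {z a : ℕ} (ha : a ∈ adm z) : a.Coprime (Wp z) := by
  rw [mem_adm] at ha
  rw [← rough_iff_coprime, rough_iff]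
  intro p hp hd
  exact (ha.2 p hp).1 (Nat.mod_eq_zero_of_dvd hd)

/-- the density of `BT z T` among the primes -/
lemma density_BT {z : ℕ} {T : Finset ℕ} (hT : T ⊆ adm z) {η : ℝ}
    (hη : (T.card : ℝ) / (Wp z).totient < η) : ∃ Y : ℕ, SparseFrom (BT z T) η Y := by
  classical
  obtain ⟨ρ, hρ⟩ : ∃ ρ, ρ = (T.card : ℝ) / (Wp z).totient := ⟨_, rfl⟩
  rw [← hρ] at hη
  have hρ0 : 0 ≤ ρ := by rw [hρ]; positivity
  have hη0 : 0 < η := hρ0.trans_lt hη
  obtain ⟨κ, hκ⟩ : ∃ κ, κ = min (1 / 2) ((η - ρ) / (ρ + 2 + 2 * η)) := ⟨_, rfl⟩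
  have hden : 0 < ρ + 2 + 2 * η := by positivity
  have hκ0 : 0 < κ := by
    rw [hκ]
    exact lt_min (by norm_num) (div_pos (by linarith) hden)
  have hκ1 : κ ≤ 1 / 2 := by rw [hκ]; exact min_le_left _ _
  have hκ2 : κ * (ρ + 2 + 2 * η) ≤ η - ρ := by
    have h1 : κ ≤ (η - ρ) / (ρ + 2 + 2 * η) := by rw [hκ]; exact min_le_right _ _
    rwa [le_div_iff₀ hden] at h1
  obtain ⟨y₁, hy₁⟩ := rpow_log_small hκ0 hκ0
  obtain ⟨y₂, hy₂⟩ := lam_classes (w := z) hκ0
  obtain ⟨y₃, hy₃⟩ := pi_lower' hκ0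
  have hz' : 0 < κ / (z + 1) := by positivity
  obtain ⟨y₄, hy₄⟩ := rpow_log_small (κ := 1) one_pos hz'
  refine ⟨y₁ + y₂ + y₃ + y₄ + 2, fun y hy => ?_⟩
  have h1 := hy₁ y (by omega)
  have h2 := hy₂ y (by omega)
  have h3 := hy₃ y (by omega)
  have h4 := hy₄ y (by omega)
  have hyR : (2 : ℝ) ≤ y := by exact_mod_cast (by omega : 2 ≤ y)
  have hlog : 0 < Real.log y := Real.log_pos (by linarith)
  rw [sub_self, Real.rpow_zero, one_mul] at h4
  obtain ⟨S, hS⟩ : ∃ S : Finset ℕ, S = (Finset.Icc 1 y).filter (fun p => p.Prime ∧ p ∈ BT z T) :=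
    ⟨_, rfl⟩
  obtain ⟨S', hS'⟩ : ∃ S' : Finset ℕ, S' = (Finset.Icc 1 y).filter
    (fun p => p.Prime ∧ p % Wp z ∈ T) := ⟨_, rfl⟩
  have hSS : S ⊆ Finset.Icc 1 z ∪ S' := by
    intro p hp
    rw [hS, Finset.mem_filter, Finset.mem_Icc] at hp
    rw [Finset.mem_union, Finset.mem_Icc, hS', Finset.mem_filter, Finset.mem_Icc]
    rcases hp.2.2 with h | h
    · exact Or.inl ⟨hp.1.1, h⟩
    · exact Or.inr ⟨hp.1, hp.2.1, h⟩
  have hcard := (Finset.card_le_card hSS).trans (Finset.card_union_le _ _)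
  rw [Nat.card_Icc] at hcard
  have hcardR : (S.card : ℝ) ≤ z + S'.card := by
    exact_mod_cast (by omega : S.card ≤ z + S'.card)
  have h5 := card_mul_log_le hκ0 (by linarith : κ < 1) (by omega : 1 ≤ y) S' (fun p hp => by
    rw [hS', Finset.mem_filter, Finset.mem_Icc] at hp
    exact ⟨hp.2.1, hp.1.2⟩)
  have h6 : ∑ p ∈ S', Real.log p ≤ (1 + κ) * ρ * y := by
    have h7 : ∑ p ∈ S', Real.log (p : ℝ) = ∑ a ∈ T,
        ∑ p ∈ S' with p % Wp z = a, Real.log (p : ℝ) := by
      rw [Finset.sum_fiberwise_of_maps_to]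
      intro p hp
      rw [hS', Finset.mem_filter] at hp
      exact hp.2.2
    rw [h7]
    have h8 : ∀ a ∈ T, ∑ p ∈ S' with p % Wp z = a, Real.log (p : ℝ) ≤
        (1 + κ) * (y / (Wp z).totient) := by
      intro a ha
      have haA := hT ha
      refine le_trans ?_ (h2 a (Finset.mem_filter.mpr
        ⟨mem_range.mpr (mem_adm.mp haA).1, adm_coprime haA⟩)).2
      have h9 : ∑ p ∈ S' with p % Wp z = a, Real.log (p : ℝ) =
          ∑ p ∈ S' with p % Wp z = a, lam p := by
        refine Finset.sum_congr rfl fun p hp => ?_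
        rw [Finset.mem_filter, hS', Finset.mem_filter] at hp
        unfold lam
        rw [if_pos hp.1.2.1]
      rw [h9]
      refine Finset.sum_le_sum_of_subset_of_nonneg ?_ fun p _ _ => lam_nonneg p
      intro p hp
      rw [Finset.mem_filter, hS', Finset.mem_filter] at hp
      exact Finset.mem_filter.mpr ⟨hp.1.1, hp.2⟩
    refine (Finset.sum_le_card_nsmul _ _ _ h8).trans (le_of_eq ?_)
    rw [nsmul_eq_mul, hρ]
    ring
  have h7 : (z : ℝ) * Real.log y ≤ κ * y := by
    calc (z : ℝ) * Real.log y ≤ (z + 1) * (κ / (z + 1) * y) := by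
          apply mul_le_mul (by linarith) h4 hlog.le (by positivity)
      _ = κ * y := by field_simp
  have h8 : (1 - κ) * ((S.card : ℝ) * Real.log y) ≤ ((1 + κ) * ρ + 2 * κ) * y := by
    have h9 : (1 - κ) * ((S.card : ℝ) * Real.log y) ≤ (1 - κ) * ((z + S'.card) * Real.log y) := by
      apply mul_le_mul_of_nonneg_left _ (by linarith)
      exact mul_le_mul_of_nonneg_right hcardR hlog.le
    have h10 : (1 - κ) * ((z + S'.card : ℝ) * Real.log y) =
      (1 - κ) * (z * Real.log y) + (1 - κ) * S'.card * Real.log y := by ring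
    have h11 : (1 - κ) * (z * Real.log y) ≤ z * Real.log y :=
      mul_le_of_le_one_left (by positivity) (by linarith)
    rw [h10] at h9
    linarith
  have h9 : (1 + κ) * ρ + 2 * κ ≤ η * ((1 - κ) * (1 - κ)) := by nlinarith [sq_nonneg κ]
  have h10 : (1 - κ) * ((S.card : ℝ) * Real.log y) ≤
      (1 - κ) * ((η * Nat.primeCounting y) * Real.log y) := by
    calc (1 - κ) * ((S.card : ℝ) * Real.log y) ≤ ((1 + κ) * ρ + 2 * κ) * y := h8
      _ ≤ η * ((1 - κ) * (1 - κ)) * y := mul_le_mul_of_nonneg_right h9 (by linarith)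
      _ = η * (1 - κ) * ((1 - κ) * y) := by ring
      _ ≤ η * (1 - κ) * (Nat.primeCounting y * Real.log y) :=
          mul_le_mul_of_nonneg_left h3 (mul_nonneg hη0.le (by linarith))
      _ = _ := by ring
  have h11 := le_of_mul_le_mul_left h10 (by linarith : 0 < 1 - κ)
  have h12 := le_of_mul_le_mul_right h11 hlog
  rw [hS] at h12
  exact h12

lemma sig_lt (z a : ℕ) : sig z a < Wp z := Nat.mod_lt _ (Wp_pos z)

lemma sig_adm {z a : ℕ} (ha : a ∈ adm z) : sig z a ∈ adm z := by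
  rw [mem_adm] at ha ⊢
  refine ⟨sig_lt z a, fun r hr => ?_⟩
  have h1 : sig z a + a ≡ 2 [MOD r] := by
    have h2 : sig z a + a ≡ 2 [MOD Wp z] := sig_add ha.1.le
    exact h2.of_dvd (dvd_Wp hr)
  constructor
  · intro h0
    apply (ha.2 r hr).2
    have h2 : sig z a ≡ 0 [MOD r] := by
      show sig z a % r = 0 % r
      rw [h0, Nat.zero_mod]
    have h3 : 0 + a ≡ 2 [MOD r] := (Nat.ModEq.add_right a h2).symm.trans h1
    rw [Nat.zero_add] at h3
    exact h3
  · intro h2
    apply (ha.2 r hr).1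
    have h3 : sig z a ≡ 2 [MOD r] := h2
    have h4 : sig z a + a ≡ sig z a + 0 [MOD r] := by
      rw [Nat.add_zero]
      exact h1.trans h3.symm
    have h5 : a ≡ 0 [MOD r] := Nat.ModEq.add_left_cancel' _ h4
    have h6 : a % r = 0 % r := h5
    rw [h6, Nat.zero_mod]

lemma sig_sig {z a : ℕ} (ha : a < Wp z) : sig z (sig z a) = a := by
  have h1 : sig z (sig z a) + sig z a ≡ 2 [MOD Wp z] := sig_add (sig_lt z a).le
  have h2 : sig z a + a ≡ 2 [MOD Wp z] := sig_add ha.le
  rw [Nat.add_comm] at h2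
  have h3 := Nat.ModEq.add_right_cancel' _ (h1.trans h2.symm)
  have h4 : sig z (sig z a) % Wp z = a % Wp z := h3
  rwa [Nat.mod_eq_of_lt (sig_lt z _), Nat.mod_eq_of_lt ha] at h4

/-- counting the classes `a < sig a` -/
lemma card_half {z : ℕ} (hz : 2 ≤ z) :
    (adm z).card ≤ 2 * ((adm z).filter (fun a => a < sig z a)).card + 2 ∧
    2 * ((adm z).filter (fun a => a ≤ sig z a)).card ≤ (adm z).card + 2 := by
  classical
  have h2W := two_le_Wp hz
  have hlt : ((adm z).filter (fun a => a < sig z a)).card =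
      ((adm z).filter (fun a => sig z a < a)).card := by
    apply Finset.card_bij (fun a _ => sig z a)
    · intro a ha
      rw [Finset.mem_filter] at ha ⊢
      have ha' := mem_adm.mp ha.1
      exact ⟨sig_adm ha.1, by rw [sig_sig ha'.1]; exact ha.2⟩
    · intro a ha b hb hab
      rw [Finset.mem_filter] at ha hb
      have h1 := sig_sig (mem_adm.mp ha.1).1
      have h2 := sig_sig (mem_adm.mp hb.1).1
      rw [← h1, ← h2, hab]
    · intro b hb
      rw [Finset.mem_filter] at hb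
      have hb' := mem_adm.mp hb.1
      exact ⟨sig z b, by rw [Finset.mem_filter]; exact ⟨sig_adm hb.1, by
        rw [sig_sig hb'.1]; exact hb.2⟩, sig_sig hb'.1⟩
  have heq : ((adm z).filter (fun a => a = sig z a)).card ≤ 2 := by
    have hsub : (adm z).filter (fun a => a = sig z a) ⊆ {1, (Wp z + 2) / 2} := by
      intro a ha
      rw [Finset.mem_filter] at ha
      obtain ⟨ha1, ha2⟩ := ha
      have ha' := mem_adm.mp ha1
      rw [Finset.mem_insert, Finset.mem_singleton]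
      have h2pr : 2 ∈ pr z := mem_pr.mpr ⟨hz, Nat.prime_two⟩
      have hodd := (ha'.2 2 h2pr).1
      have haW := ha'.1
      unfold sig at ha2
      rcases Nat.lt_or_ge a 3 with h3 | h3
      · interval_cases a
        · omega
        · exact Or.inl rfl
        · omega
      · right
        rw [Nat.mod_eq_of_lt (by omega)] at ha2
        omega
    exact (Finset.card_le_card hsub).trans (Finset.card_le_two)
  have hsplit1 : ((adm z).filter (fun a => a ≤ sig z a)).card =
      ((adm z).filter (fun a => a < sig z a)).card +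
      ((adm z).filter (fun a => a = sig z a)).card := by
    rw [← Finset.card_union_of_disjoint]
    · congr 1
      ext a
      rw [Finset.mem_filter, Finset.mem_union, Finset.mem_filter, Finset.mem_filter]
      constructor
      · rintro ⟨h1, h2⟩
        rcases lt_or_eq_of_le h2 with h3 | h3
        · exact Or.inl ⟨h1, h3⟩
        · exact Or.inr ⟨h1, h3⟩
      · rintro (⟨h1, h2⟩ | ⟨h1, h2⟩)
        · exact ⟨h1, h2.le⟩
        · exact ⟨h1, h2.le⟩
    · rw [Finset.disjoint_left]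
      intro a ha ha'
      rw [Finset.mem_filter] at ha ha'
      omega
  have hsplit2 := Finset.card_filter_add_card_filter_not (s := adm z) (fun a => a ≤ sig z a)
  have e : (adm z).filter (fun a => ¬ a ≤ sig z a) = (adm z).filter (fun a => sig z a < a) := by
    ext a
    rw [Finset.mem_filter, Finset.mem_filter, not_le]
  rw [e] at hsplit2
  omega

/-- the classes for `t = 1` -/
lemma exists_T_one {z : ℕ} (hz : 2 ≤ z) : ∃ T ⊆ adm z,
    (∀ a ∈ adm z, a ∈ T ∨ sig z a ∈ T) ∧ (T.card : ℝ) ≤ 1 * (adm z).card / 2 + 1 := by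
  refine ⟨(adm z).filter (fun a => a ≤ sig z a), Finset.filter_subset _ _, fun a ha => ?_, ?_⟩
  · have ha' := mem_adm.mp ha
    rw [Finset.mem_filter, Finset.mem_filter, sig_sig ha'.1]
    rcases le_total a (sig z a) with h | h
    · exact Or.inl ⟨ha, h⟩
    · exact Or.inr ⟨sig_adm ha, h⟩
  · have h1 := (card_half hz).2
    have h2 : 2 * (((adm z).filter (fun a => a ≤ sig z a)).card : ℝ) ≤ (adm z).card + 2 := by
      exact_mod_cast h1
    linarith

/-- the classes for `t < 1` -/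
lemma exists_T_lt {z : ℕ} (hz : 2 ≤ z) {s : ℝ} (hs0 : 0 < s)
    (hs : 4 ≤ (1 - s) * (adm z).card) : ∃ T ⊆ adm z,
    (∀ a ∈ T, sig z a ∉ T) ∧ s * (adm z).card / 2 ≤ T.card ∧
      (T.card : ℝ) ≤ s * (adm z).card / 2 + 1 := by
  have h1 := (card_half hz).1
  have h1R : ((adm z).card : ℝ) ≤ 2 * ((adm z).filter (fun a => a < sig z a)).card + 2 := by
    exact_mod_cast h1
  have h2 : ⌈s * (adm z).card / 2⌉₊ ≤ ((adm z).filter (fun a => a < sig z a)).card := by
    have h3 := Nat.ceil_lt_add_one (show 0 ≤ s * ((adm z).card : ℝ) / 2 by positivity)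
    have h4 : (⌈s * ((adm z).card : ℝ) / 2⌉₊ : ℝ) ≤
        ((adm z).filter (fun a => a < sig z a)).card := by linarith
    exact_mod_cast h4
  obtain ⟨T, hT1, hT2⟩ := Finset.exists_subset_card_eq h2
  refine ⟨T, hT1.trans (Finset.filter_subset _ _), fun a ha ha' => ?_, ?_, ?_⟩
  · have h3 := Finset.mem_filter.mp (hT1 ha)
    have h4 := Finset.mem_filter.mp (hT1 ha')
    rw [sig_sig (mem_adm.mp h3.1).1] at h4
    omega
  · rw [hT2]
    exact Nat.le_ceil _
  · rw [hT2]
    exact (Nat.ceil_lt_add_one (by positivity)).le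

/-- there is a prime in `(z/2, z]` -/
lemma exists_big_prime {z : ℕ} (hz : 2 ≤ z) : ∃ p ∈ pr z, z / 2 < p := by
  obtain ⟨p, hp, h1, h2⟩ := Nat.exists_prime_lt_and_le_two_mul (z / 2) (by omega)
  exact ⟨p, mem_pr.mpr ⟨by omega, hp⟩, h1⟩

lemma totient_large {z : ℕ} (hz : 2 ≤ z) : ((z : ℝ) - 1) / 2 ≤ (Wp z).totient := by
  obtain ⟨p, hp, h1⟩ := exists_big_prime hz
  have h2 := Nat.totient_dvd_of_dvd (dvd_Wp hp)
  rw [Nat.totient_prime (mem_pr.mp hp).2] at h2
  have h3 := Nat.le_of_dvd (Nat.totient_pos.mpr (Wp_pos z)) h2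
  have h4 : z - 1 ≤ 2 * (Wp z).totient := by omega
  have h5 : ((z - 1 : ℕ) : ℝ) ≤ 2 * (Wp z).totient := by exact_mod_cast h4
  rw [Nat.cast_sub (by omega)] at h5
  push_cast at h5
  linarith

lemma adm_large {z : ℕ} (hz : 2 ≤ z) : (z : ℝ) / 2 - 2 ≤ (adm z).card := by
  classical
  obtain ⟨p, hp, h1⟩ := exists_big_prime hz
  have hp' := mem_pr.mp hp
  have hzp : (z : ℝ) / 2 ≤ p := by
    have : z ≤ 2 * p := by omega
    have : (z : ℝ) ≤ 2 * p := by exact_mod_cast this
    linarith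
  rw [adm_card_prod, ← Finset.mul_prod_erase _ _ hp]
  have h2 : (1 : ℝ) ≤ ∏ r ∈ (pr z).erase p, (if r = 2 then 1 else (r : ℝ) - 2) := by
    have h0 := Finset.prod_le_prod (s := (pr z).erase p) (f := fun _ => (1 : ℝ))
      (g := fun r : ℕ => if r = 2 then (1 : ℝ) else (r : ℝ) - 2) (fun _ _ => zero_le_one) ?_
    · rwa [Finset.prod_const_one] at h0
    intro r hr
    show (1 : ℝ) ≤ if r = 2 then 1 else (r : ℝ) - 2
    have hr' := mem_pr.mp (Finset.mem_of_mem_erase hr)
    split_ifs with h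
    · exact le_rfl
    · have : 3 ≤ r := by
        have := hr'.2.two_le
        omega
      have : (3 : ℝ) ≤ r := by exact_mod_cast this
      linarith
  have h3 : (p : ℝ) - 2 ≤ (if p = 2 then 1 else (p : ℝ) - 2) := by
    split_ifs with h
    · rw [h]; norm_num
    · exact le_rfl
  have h4 : (0 : ℝ) ≤ (if p = 2 then 1 else (p : ℝ) - 2) := by
    split_ifs with h
    · norm_num
    · have : (2 : ℝ) ≤ p := by exact_mod_cast hp'.2.two_le
      linarith
  have h5 := mul_le_mul_of_nonneg_left h2 h4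
  rw [mul_one] at h5
  linarith

/-- the density of the extremal sets -/
lemma dens_limit (s : ℝ) : Tendsto (fun z : ℕ => Real.log z *
    (s * twinPartial (z + 1) * V z + 1 / (Wp z).totient)) atTop (𝓝 (s * kap)) := by
  have h1 : Tendsto (fun z : ℕ => s * twinPartial (z + 1) * (Real.log z * V z)) atTop
      (𝓝 (s * C2 * Real.exp (-Real.eulerMascheroniConstant))) :=
    ((tendsto_C2.comp (tendsto_add_atTop_nat 1)).const_mul s).mul V_log_tendsto
  have h2 : Tendsto (fun z : ℕ => Real.log z * (1 / ((Wp z).totient : ℝ))) atTop (𝓝 0) := by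
    have h3 : Tendsto (fun z : ℕ => 4 * (Real.log z / z)) atTop (𝓝 0) := by
      have h4 : Tendsto (fun x : ℝ => Real.log x / x) atTop (𝓝 0) :=
        Real.isLittleO_log_id_atTop.tendsto_div_nhds_zero
      have := (h4.comp tendsto_natCast_atTop_atTop).const_mul 4
      simpa using this
    refine squeeze_zero' ?_ ?_ h3
    · filter_upwards with z
      exact mul_nonneg (Real.log_natCast_nonneg z) (by positivity)
    · filter_upwards [eventually_ge_atTop 2] with z hz
      have h4 := totient_large hz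
      have hzR : (2 : ℝ) ≤ z := by exact_mod_cast hz
      have h5 : (z : ℝ) / 4 ≤ (Wp z).totient := by linarith
      have hlog : 0 ≤ Real.log z := Real.log_natCast_nonneg z
      have h6 : 1 / ((Wp z).totient : ℝ) ≤ 4 / z := by
        rw [div_le_div_iff₀ (by linarith) (by linarith)]
        linarith
      calc Real.log z * (1 / ((Wp z).totient : ℝ)) ≤ Real.log z * (4 / z) :=
            mul_le_mul_of_nonneg_left h6 hlog
        _ = _ := by ring
  have h3 := h1.add h2
  have e : s * C2 * Real.exp (-Real.eulerMascheroniConstant) + 0 = s * kap := by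
    unfold kap
    ring
  rw [e] at h3
  refine h3.congr fun z => ?_
  ring

open Classical in
/-- the core of the lower bound -/
lemma lower_core {t s ε : ℝ} (hs0 : 0 < s) (hst : s * kap ≤ t * kap + ε / 3)
    (hε : 0 < ε) {z₀ : ℕ}
    (hT : ∀ z : ℕ, z₀ ≤ z → 2 ≤ z → ∃ T ⊆ adm z, (T.card : ℝ) ≤ s * (adm z).card / 2 + 1 ∧
      ∀ δ : ℝ, 0 < δ → ∃ X₀ : ℕ, ∀ X : ℕ, X₀ ≤ X →
        (((Finset.Icc 1 X).filter (fun n => (2 * n) % Wp z = 2 % Wp z ∧
          ¬ (0 < reps n ∧ t * reps n ≤ hits (BT z T) n))).card : ℝ) ≤ δ * X) :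
    ∃ η₀ : ℝ, 0 < η₀ ∧ ∀ η : ℝ, 0 < η → η ≤ η₀ → ∃ B : Set ℕ, (∃ Y : ℕ, SparseFrom B η Y) ∧
      ∃ X₀ : ℕ, ∀ X : ℕ, X₀ ≤ X →
        Real.exp (-Real.exp ((t * kap + ε) / η)) * X ≤
        (((Finset.Icc 1 X).filter (fun n => 0 < reps n ∧ t * reps n ≤ hits B n)).card : ℝ) := by
  have hkap := kap_pos
  obtain ⟨z₁, hz₁⟩ := Filter.eventually_atTop.mp ((dens_limit s).eventually_lt_const
    (show s * kap < s * kap + ε / 4 by linarith))
  obtain ⟨η₀, hη₀⟩ : ∃ η₀ : ℝ, η₀ = min (ε / 12) (ε / (3 * (z₀ + z₁ + 2))) := ⟨_, rfl⟩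
  have hη₀0 : 0 < η₀ := by rw [hη₀]; positivity
  refine ⟨η₀, hη₀0, fun η hη hηη => ?_⟩
  have hη1 : η ≤ ε / 12 := hηη.trans (by rw [hη₀]; exact min_le_left _ _)
  have hη2 : η ≤ ε / (3 * (z₀ + z₁ + 2)) := hηη.trans (by rw [hη₀]; exact min_le_right _ _)
  rw [le_div_iff₀ (by positivity)] at hη2
  obtain ⟨u, hu⟩ : ∃ u : ℝ, u = (s * kap + ε / 3) / η := ⟨_, rfl⟩
  obtain ⟨z, hz⟩ : ∃ z : ℕ, z = ⌈Real.exp u⌉₊ := ⟨_, rfl⟩
  have hzge : Real.exp u ≤ z := by rw [hz]; exact Nat.le_ceil _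
  have hzlt : (z : ℝ) < Real.exp u + 1 := by rw [hz]; exact Nat.ceil_lt_add_one (Real.exp_pos _).le
  have hsk : 0 < s * kap := by positivity
  have hulow : (z₀ : ℝ) + z₁ + 2 ≤ u := by
    rw [hu, le_div_iff₀ hη]
    linarith
  have hu0 : 0 ≤ u := by
    have h1 : (0 : ℝ) ≤ z₀ := Nat.cast_nonneg _
    have h2 : (0 : ℝ) ≤ z₁ := Nat.cast_nonneg _
    linarith
  have hzbig : (z₀ : ℝ) + z₁ + 2 ≤ z := by
    have := Real.add_one_le_exp u
    linarith
  have hzbig' : z₀ + z₁ + 2 ≤ z := by exact_mod_cast hzbig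
  have hz2 : 2 ≤ z := by omega
  have hzR : (2 : ℝ) ≤ z := by exact_mod_cast hz2
  obtain ⟨T, hTa, hTc, hTgood⟩ := hT z (by omega) hz2
  have hWpos := Wp_pos z
  have hWR : (0 : ℝ) < Wp z := by exact_mod_cast hWpos
  have htot : (0 : ℝ) < (Wp z).totient := by exact_mod_cast Nat.totient_pos.mpr hWpos
  -- density
  have hdens : (T.card : ℝ) / (Wp z).totient < η := by
    have h1 := hz₁ z (by omega)
    have hlogz : u ≤ Real.log z := by
      rw [← Real.log_exp u]
      exact Real.log_le_log (Real.exp_pos _) hzge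
    have h2 : (T.card : ℝ) / (Wp z).totient ≤
        s * twinPartial (z + 1) * V z + 1 / (Wp z).totient := by
      rw [div_le_iff₀ htot]
      refine hTc.trans (le_of_eq ?_)
      rw [adm_card_eq hz2]
      field_simp
    have hlog0 : 0 < Real.log z := Real.log_pos (by linarith)
    by_contra hcon
    push Not at hcon
    have h3 : u * η ≤ Real.log z * (s * twinPartial (z + 1) * V z + 1 / (Wp z).totient) := by
      apply mul_le_mul hlogz (hcon.trans h2) hη.le hlog0.le
    have h4 : u * η = s * kap + ε / 3 := by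
      rw [hu]
      field_simp
    rw [h4] at h3
    linarith
  refine ⟨BT z T, density_BT hTa hdens, ?_⟩
  have hδ : (0 : ℝ) < 1 / (8 * Wp z) := by positivity
  obtain ⟨X₁, hX₁⟩ := hTgood _ hδ
  refine ⟨max X₁ (8 * Wp z), fun X hX => ?_⟩
  have h1 := hX₁ X ((le_max_left _ _).trans hX)
  have h2 := card_class_one hWpos ((le_max_right _ _).trans hX)
  have hXR : (0 : ℝ) < X := by
    have h3 : 8 * Wp z ≤ X := (le_max_right _ _).trans hX
    exact_mod_cast (by omega : 0 < X)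
  obtain ⟨G, hG⟩ : ∃ G, G = (Finset.Icc 1 X).filter
    (fun n => 0 < reps n ∧ t * reps n ≤ hits (BT z T) n) := ⟨_, rfl⟩
  obtain ⟨N, hN⟩ : ∃ N, N = (Finset.Icc 1 X).filter (fun n => (2 * n) % Wp z = 2 % Wp z ∧
          ¬ (0 < reps n ∧ t * reps n ≤ hits (BT z T) n)) := ⟨_, rfl⟩
  obtain ⟨A, hA⟩ : ∃ A, A = (Finset.Ioc (X / 2) X).filter (fun n => n % Wp z = 1 % Wp z) :=
    ⟨_, rfl⟩
  have hsub : A ⊆ G ∪ N := by
    intro n hn
    rw [hA, Finset.mem_filter, Finset.mem_Ioc] at hn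
    rw [Finset.mem_union, hG, hN, Finset.mem_filter, Finset.mem_filter, Finset.mem_Icc]
    have hmod : (2 * n) % Wp z = 2 % Wp z := by
      have h3 : n ≡ 1 [MOD Wp z] := hn.2
      have h4 := Nat.ModEq.mul_left 2 h3
      rw [Nat.mul_one] at h4
      exact h4
    by_cases h3 : 0 < reps n ∧ t * reps n ≤ hits (BT z T) n
    · exact Or.inl ⟨⟨by omega, hn.1.2⟩, h3⟩
    · exact Or.inr ⟨⟨by omega, hn.1.2⟩, hmod, h3⟩
  have hcard := (Finset.card_le_card hsub).trans (Finset.card_union_le _ _)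
  have hcardR : (A.card : ℝ) ≤ G.card + N.card := by exact_mod_cast hcard
  rw [← hN] at h1
  rw [← hA] at h2
  rw [← hG]
  have h3 : (X : ℝ) / (8 * Wp z) ≤ G.card := by
    have h4 : (X : ℝ) / (4 * Wp z) = X / (8 * Wp z) + X / (8 * Wp z) := by
      field_simp
      norm_num
    have h5 : 1 / (8 * (Wp z : ℝ)) * X = X / (8 * Wp z) := by ring
    rw [h5] at h1
    linarith
  refine le_trans ?_ h3
  rw [le_div_iff₀ (by positivity)]
  have h4 : Real.exp (-Real.exp ((t * kap + ε) / η)) * (8 * Wp z) ≤ 1 := by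
    rw [Real.exp_neg, inv_mul_le_iff₀ (Real.exp_pos _), mul_one]
    have hW4 := Wp_le z
    have hlog2 := Real.log_two_lt_d9
    have h5 : (8 : ℝ) * Wp z ≤ Real.exp (Real.log 2 * (3 + 2 * z)) := by
      have e1 : Real.exp (Real.log 2 * (3 + 2 * z)) = 8 * 4 ^ z := by
        have e2 : Real.log 2 * (3 + 2 * z) = ((3 + 2 * z : ℕ) : ℝ) * Real.log 2 := by
          push_cast; ring
        rw [e2, Real.exp_nat_mul, Real.exp_log (by norm_num), pow_add, pow_mul]
        norm_num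
      rw [e1]
      linarith
    refine h5.trans (Real.exp_le_exp.mpr ?_)
    have hE1 : 1 ≤ Real.exp u := Real.one_le_exp hu0
    have h6 : Real.log 2 * (3 + 2 * z) ≤ 5 * Real.exp u := by
      have h7 : Real.log 2 * (3 + 2 * (z : ℝ)) ≤ 0.7 * (3 + 2 * z) := by
        apply mul_le_mul_of_nonneg_right _ (by positivity)
        linarith
      linarith
    have h8 : (5 : ℝ) ≤ Real.exp (ε / (3 * η)) := by
      have h9 := Real.add_one_le_exp (ε / (3 * η))
      have h10 : (4 : ℝ) ≤ ε / (3 * η) := by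
        rw [le_div_iff₀ (by positivity)]
        linarith
      linarith
    calc Real.log 2 * (3 + 2 * z) ≤ 5 * Real.exp u := h6
      _ ≤ Real.exp (ε / (3 * η)) * Real.exp u :=
          mul_le_mul_of_nonneg_right h8 (Real.exp_pos _).le
      _ = Real.exp (ε / (3 * η) + u) := by rw [Real.exp_add]
      _ ≤ Real.exp ((t * kap + ε) / η) := by
          apply Real.exp_le_exp.mpr
          rw [hu]
          have e3 : ε / (3 * η) + (s * kap + ε / 3) / η = (s * kap + 2 * (ε / 3)) / η := by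
            field_simp
            ring
          rw [e3]
          apply div_le_div_of_nonneg_right _ hη.le
          linarith
  calc Real.exp (-Real.exp ((t * kap + ε) / η)) * X * (8 * Wp z)
      = (Real.exp (-Real.exp ((t * kap + ε) / η)) * (8 * Wp z)) * X := by ring
    _ ≤ 1 * X := mul_le_mul_of_nonneg_right h4 hXR.le
    _ = X := one_mul _

open Classical in
/-- Robust Goldbach, lower bound with the exact constant. -/
theorem lower_sharp (hT : TransferP) (hU : UniformP) : ∀ t : ℝ, 0 < t → t ≤ 1 → ∀ ε : ℝ, 0 < ε →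
    ∃ η₀ : ℝ, 0 < η₀ ∧ ∀ η : ℝ, 0 < η → η ≤ η₀ → ∃ B : Set ℕ, (∃ Y : ℕ, SparseFrom B η Y) ∧
      ∃ X₀ : ℕ, ∀ X : ℕ, X₀ ≤ X →
        Real.exp (-Real.exp ((t * kap + ε) / η)) * X ≤
        (((Finset.Icc 1 X).filter (fun n => 0 < reps n ∧ t * reps n ≤ hits B n)).card : ℝ) := by
  intro t ht0 ht1 ε hε
  have hkap := kap_pos
  have hC2 := C2_pos
  obtain ⟨Nr, hNr⟩ := reps_pos_of
  rcases eq_or_lt_of_le ht1 with ht | ht
  · -- `t = 1`
    subst ht
    refine lower_core (s := 1) one_pos (by linarith) hε (z₀ := 2) (fun z _ hz => ?_)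
    obtain ⟨T, hTa, hTall, hTc⟩ := exists_T_one hz
    refine ⟨T, hTa, hTc, fun δ hδ => ?_⟩
    have hadm0 : (adm z).Nonempty := by
      rw [← Finset.card_pos]
      have h1 : (0 : ℝ) < (adm z).card := by
        rw [adm_card_eq hz]
        have h2 := half_le_twinPartial (z + 1)
        have h3 := V_pos z
        have h4 : (0 : ℝ) < (Wp z).totient := by
          exact_mod_cast Nat.totient_pos.mpr (Wp_pos z)
        positivity
      exact_mod_cast h1
    have hTne : (adm z).Nonempty := hadm0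
    obtain ⟨X₀, hX₀⟩ := equi hT hU hz (Finset.Subset.refl (adm z)) hTne
      (show (0 : ℝ) < 1 / 2 by norm_num) (by norm_num) (show 0 < δ / 2 by linarith)
    refine ⟨max X₀ ⌈2 * (Nr : ℝ) / δ⌉₊, fun X hX => ?_⟩
    have h1 := hX₀ X ((le_max_left _ _).trans hX)
    have h2 : (Nr : ℝ) ≤ δ / 2 * X := by
      have h3 : (⌈2 * (Nr : ℝ) / δ⌉₊ : ℝ) ≤ X := by exact_mod_cast (le_max_right _ _).trans hX
      have h4 := (Nat.le_ceil (2 * (Nr : ℝ) / δ)).trans h3
      rw [div_le_iff₀ hδ] at h4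
      linarith
    have hsub : (Finset.Icc 1 X).filter (fun n => (2 * n) % Wp z = 2 % Wp z ∧
          ¬ (0 < reps n ∧ (1 : ℝ) * reps n ≤ hits (BT z T) n)) ⊆
        (Finset.Icc 1 Nr) ∪ (Finset.Icc 1 X).filter (fun n => (2 * n) % Wp z = 2 % Wp z ∧
        ¬ (C2 * n ≤ RR (2 * n) ∧
          (1 - 1 / 2) * (((adm z).card : ℝ) / (adm z).card) * RR (2 * n) ≤
            RT z (adm z) (2 * n))) := by
      intro n hn
      rw [Finset.mem_filter, Finset.mem_Icc] at hn
      obtain ⟨hn1, hmod, hbad⟩ := hn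
      rw [Finset.mem_union, Finset.mem_Icc, Finset.mem_filter, Finset.mem_Icc]
      rcases le_or_gt n Nr with h | h
      · exact Or.inl ⟨hn1.1, h⟩
      · right
        refine ⟨hn1, hmod, fun hgood => hbad ⟨hNr n h.le hgood.1, ?_⟩⟩
        rw [hits_all hz hTall hmod, one_mul]
    have hcard := (Finset.card_le_card hsub).trans (Finset.card_union_le _ _)
    rw [Nat.card_Icc] at hcard
    have hcardR : ((((Finset.Icc 1 X).filter (fun n => (2 * n) % Wp z = 2 % Wp z ∧
          ¬ (0 < reps n ∧ (1 : ℝ) * reps n ≤ hits (BT z T) n))).card : ℕ) : ℝ) ≤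
        ((Nr + 1 - 1 : ℕ) : ℝ) + (((Finset.Icc 1 X).filter
          (fun n => (2 * n) % Wp z = 2 % Wp z ∧ ¬ (C2 * n ≤ RR (2 * n) ∧
          (1 - 1 / 2) * (((adm z).card : ℝ) / (adm z).card) * RR (2 * n) ≤
            RT z (adm z) (2 * n)))).card : ℝ) := by exact_mod_cast hcard
    rw [Nat.add_sub_cancel] at hcardR
    linarith
  · -- `t < 1`
    obtain ⟨s, hs⟩ : ∃ s : ℝ, s = min ((1 + t) / 2) (t + ε / (3 * kap)) := ⟨_, rfl⟩
    have hs1 : s < 1 := by
      rw [hs]
      exact lt_of_le_of_lt (min_le_left _ _) (by linarith)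
    have hts : t < s := by
      rw [hs]
      exact lt_min (by linarith) (by have : 0 < ε / (3 * kap) := by positivity
                                     linarith)
    have hs0 : 0 < s := ht0.trans hts
    have hsk : s * kap ≤ t * kap + ε / 3 := by
      have h1 : s ≤ t + ε / (3 * kap) := by rw [hs]; exact min_le_right _ _
      calc s * kap ≤ (t + ε / (3 * kap)) * kap := mul_le_mul_of_nonneg_right h1 hkap.le
        _ = t * kap + ε / 3 := by field_simp
    -- `κ` with `t ≤ s (1 - κ)^4`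
    obtain ⟨κ, hκ⟩ : ∃ κ : ℝ, κ = (s - t) / (4 * s) := ⟨_, rfl⟩
    have hκ0 : 0 < κ := by rw [hκ]; exact div_pos (by linarith) (by positivity)
    have hκ1 : κ < 1 := by
      rw [hκ, div_lt_one (by positivity)]
      linarith
    have htκ : t ≤ s * (1 - κ) ^ 4 := by
      have h1 := one_add_mul_le_pow (show (-2 : ℝ) ≤ -κ by linarith) 4
      have e1 : 1 + (4 : ℕ) * (-κ) = 1 - 4 * κ := by push_cast; ring
      have e2 : (1 + (-κ)) ^ 4 = (1 - κ) ^ 4 := by ring
      rw [e1, e2] at h1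
      have h2 : s * (1 - 4 * κ) = t := by
        rw [hκ]
        field_simp
        ring
      calc t = s * (1 - 4 * κ) := h2.symm
        _ ≤ _ := mul_le_mul_of_nonneg_left h1 hs0.le
    refine lower_core (s := s) hs0 hsk hε (z₀ := ⌈2 * (4 / (1 - s) + 2)⌉₊) (fun z hz₀ hz => ?_)
    have hadm : 4 ≤ (1 - s) * (adm z).card := by
      have h1 := adm_large hz
      have h2 : 2 * (4 / (1 - s) + 2) ≤ z :=
        (Nat.le_ceil _).trans (by exact_mod_cast hz₀)
      have h3 : 4 / (1 - s) ≤ (adm z).card := by linarith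
      rw [div_le_iff₀ (by linarith)] at h3
      linarith
    obtain ⟨T, hTa, hTs, hTlow, hTc⟩ := exists_T_lt hz hs0 hadm
    refine ⟨T, hTa, hTc, fun δ hδ => ?_⟩
    have hadmR : (0 : ℝ) < (adm z).card := by
      by_contra h
      have h0 : ((adm z).card : ℝ) = 0 := le_antisymm (not_lt.mp h) (Nat.cast_nonneg _)
      rw [h0] at hadm
      linarith
    have hTcR : (0 : ℝ) < T.card := lt_of_lt_of_le (by positivity) hTlow
    have hTne : T.Nonempty := by
      rw [← Finset.card_pos]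
      exact_mod_cast hTcR
    obtain ⟨ρ, hρ⟩ : ∃ ρ, ρ = (T.card : ℝ) / (adm z).card := ⟨_, rfl⟩
    have hρ0 : 0 < ρ := by rw [hρ]; positivity
    have hρ1 : ρ ≤ 1 := by
      rw [hρ, div_le_one hadmR]
      exact_mod_cast Finset.card_le_card hTa
    have hρs : s ≤ 2 * ρ := by
      rw [hρ, ← mul_div_assoc, le_div_iff₀ hadmR]
      linarith
    have htρ : t ≤ 2 * ρ * (1 - κ) ^ 4 :=
      htκ.trans (mul_le_mul_of_nonneg_right hρs (by have : 0 < 1 - κ := by linarith
                                                    positivity))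
    obtain ⟨Ng, hNg⟩ := good_n (z := z) hTs hκ0 hκ1 hρ0 hρ1 ht0 htρ
    obtain ⟨X₀, hX₀⟩ := equi hT hU hz hTa hTne hκ0 hκ1 (show 0 < δ / 2 by linarith)
    refine ⟨max X₀ ⌈2 * ((Nr + Ng : ℕ) : ℝ) / δ⌉₊, fun X hX => ?_⟩
    have h1 := hX₀ X ((le_max_left _ _).trans hX)
    have h2 : ((Nr + Ng : ℕ) : ℝ) ≤ δ / 2 * X := by
      have h3 : (⌈2 * ((Nr + Ng : ℕ) : ℝ) / δ⌉₊ : ℝ) ≤ X := by
        exact_mod_cast (le_max_right _ _).trans hX
      have h4 := (Nat.le_ceil (2 * ((Nr + Ng : ℕ) : ℝ) / δ)).trans h3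
      rw [div_le_iff₀ hδ] at h4
      linarith
    have hsub : (Finset.Icc 1 X).filter (fun n => (2 * n) % Wp z = 2 % Wp z ∧
          ¬ (0 < reps n ∧ t * reps n ≤ hits (BT z T) n)) ⊆
        (Finset.Icc 1 (Nr + Ng)) ∪ (Finset.Icc 1 X).filter
          (fun n => (2 * n) % Wp z = 2 % Wp z ∧ ¬ (C2 * n ≤ RR (2 * n) ∧
          (1 - κ) * ((T.card : ℝ) / (adm z).card) * RR (2 * n) ≤ RT z T (2 * n))) := by
      intro n hn
      rw [Finset.mem_filter, Finset.mem_Icc] at hn
      obtain ⟨hn1, hmod, hbad⟩ := hn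
      rw [Finset.mem_union, Finset.mem_Icc, Finset.mem_filter, Finset.mem_Icc]
      rcases le_or_gt n (Nr + Ng) with h | h
      · exact Or.inl ⟨hn1.1, h⟩
      · right
        refine ⟨hn1, hmod, fun hgood => hbad ⟨hNr n (by omega) hgood.1, ?_⟩⟩
        rw [← hρ] at hgood
        exact hNg n (by omega) hmod hgood.1 hgood.2
    have hcard := (Finset.card_le_card hsub).trans (Finset.card_union_le _ _)
    rw [Nat.card_Icc, Nat.add_sub_cancel] at hcard
    have hcardR : ((((Finset.Icc 1 X).filter (fun n => (2 * n) % Wp z = 2 % Wp z ∧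
          ¬ (0 < reps n ∧ t * reps n ≤ hits (BT z T) n))).card : ℕ) : ℝ) ≤
        ((Nr + Ng : ℕ) : ℝ) + (((Finset.Icc 1 X).filter
          (fun n => (2 * n) % Wp z = 2 % Wp z ∧ ¬ (C2 * n ≤ RR (2 * n) ∧
          (1 - κ) * ((T.card : ℝ) / (adm z).card) * RR (2 * n) ≤ RT z T (2 * n)))).card : ℝ) := by
      exact_mod_cast hcard
    linarith

end Pool.Agent.Lib.GT.Robust
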