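import Pool.Agent.Lib.MP_7b7e48_nt.GT.RobustCount
import Pool.Agent.Lib.MP_7b7e48_nt.GT.RoughCount

/-!
# Robust Goldbach: assembly of the upper bound (weighted form)
-/

open Finset Pool.Agent.Lib.GT Pool.Agent.Lib.GT.LA

namespace Pool.Agent.Lib.GT.Robust

/-- statement of the transference theorem (module TR) -/
def TransferP : Prop := ∀ K₁ : ℝ, ∀ ε : ℝ, 0 < ε → ∃ w₀ : ℕ, ∀ w : ℕ, w₀ ≤ w →
    ∃ X₀ : ℕ, ∀ X : ℕ, X₀ ≤ X →
    ∀ f h : ℕ → ℝ, (∀ n, |f n| ≤ lam n) → (∀ n, |h n| ≤ lam n + Lw w n) →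
    (∀ n, X < n → f n = 0 ∧ h n = 0) →
    (∀ α : ℝ, ‖∑ n ∈ Finset.Icc 1 X, (h n : ℂ) * e (α * n)‖ ≤ K₁ * (w : ℝ) ^ (-(1 / 3) : ℝ) * X) →
    ∑ n ∈ Finset.range (2 * X + 1), |∑ x ∈ Finset.range (n + 1), f x * h (n - x)| ≤ ε * X ^ 2

/-- statement of the Fourier uniformity of the primes (module UN) -/
def UniformP : Prop := ∃ C : ℝ, 0 < C ∧ ∀ w : ℕ, 2 ≤ w → ∀ κ : ℝ, 0 < κ → ∃ X₀ : ℕ,
    ∀ X : ℕ, X₀ ≤ X → ∀ Y : ℕ, Y ≤ X → ∀ α : ℝ,
      ‖∑ n ∈ Finset.Icc 1 Y, ((lam n - Lw w n : ℝ) : ℂ) * e (α * n)‖ ≤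
        (C * (w : ℝ) ^ (-(1 / 3) : ℝ) + κ) * X

lemma lam_zero : lam 0 = 0 := by
  unfold lam
  rw [if_neg Nat.not_prime_zero]

lemma Lw_zero {w : ℕ} (hw : 2 ≤ w) : Lw w 0 = 0 := by
  unfold Lw
  rw [if_neg]
  intro h
  have := h 2 Nat.prime_two (dvd_zero 2)
  omega

/-- `L¹`-comparison of `f * lam` and `f * Lw` -/
theorem l1_bound (hT : TransferP) (hU : UniformP) : ∀ ε : ℝ, 0 < ε → ∃ w₀ : ℕ, ∀ w : ℕ, w₀ ≤ w →
    ∃ X₀ : ℕ, ∀ X : ℕ, X₀ ≤ X → ∀ f : ℕ → ℝ, (∀ n, 0 ≤ f n) → (∀ n, f n ≤ lam n) →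
    (∀ n, X < n → f n = 0) →
    ∑ N ∈ range (X + 1), |∑ x ∈ range (N + 1), f x * lam (N - x) -
      ∑ x ∈ range (N + 1), f x * Lw w (N - x)| ≤ ε * X ^ 2 := by
  intro ε hε
  obtain ⟨C, hC, hU⟩ := hU
  obtain ⟨w₀, hw₀⟩ := hT (C + 1) ε hε
  refine ⟨max w₀ 2, fun w hw => ?_⟩
  have hw2 : 2 ≤ w := (le_max_right _ _).trans hw
  have hwR : (2 : ℝ) ≤ w := by exact_mod_cast hw2
  have hwpos : (0 : ℝ) < (w : ℝ) ^ (-(1 / 3) : ℝ) := Real.rpow_pos_of_pos (by linarith) _
  obtain ⟨X₁, hX₁⟩ := hw₀ w ((le_max_left _ _).trans hw)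
  obtain ⟨X₂, hX₂⟩ := hU w hw2 _ hwpos
  refine ⟨max X₁ X₂, fun X hX f hf0 hfl hfs => ?_⟩
  set h : ℕ → ℝ := fun n => if n ≤ X then lam n - Lw w n else 0 with hh
  have h1 := hX₁ X ((le_max_left _ _).trans hX) f h
    (fun n => by rw [abs_of_nonneg (hf0 n)]; exact hfl n)
    (fun n => by
      simp only [hh]
      have h2 := lam_nonneg n
      have h3 := Lw_nonneg w n
      split_ifs
      · rw [abs_le]; constructor <;> linarith
      · rw [abs_zero]; linarith)
    (fun n hn => ⟨hfs n hn, by simp only [hh]; rw [if_neg (by omega)]⟩)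
    (fun α => by
      have h2 := hX₂ X ((le_max_right _ _).trans hX) X le_rfl α
      have h3 : ∑ n ∈ Finset.Icc 1 X, (h n : ℂ) * e (α * n) =
          ∑ n ∈ Finset.Icc 1 X, ((lam n - Lw w n : ℝ) : ℂ) * e (α * n) := by
        refine Finset.sum_congr rfl fun n hn => ?_
        rw [Finset.mem_Icc] at hn
        simp only [hh, if_pos hn.2]
      rw [h3]
      refine h2.trans (le_of_eq ?_)
      ring)
  refine le_trans ?_ h1
  calc ∑ N ∈ range (X + 1), |∑ x ∈ range (N + 1), f x * lam (N - x) -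
      ∑ x ∈ range (N + 1), f x * Lw w (N - x)|
      = ∑ N ∈ range (X + 1), |∑ x ∈ range (N + 1), f x * h (N - x)| := by
        refine Finset.sum_congr rfl fun N hN => ?_
        rw [Finset.mem_range] at hN
        congr 1
        rw [← Finset.sum_sub_distrib]
        refine Finset.sum_congr rfl fun x _ => ?_
        simp only [hh]
        rw [if_pos (by omega)]
        ring
    _ ≤ _ := by
        refine Finset.sum_le_sum_of_subset_of_nonneg ?_ fun _ _ _ => abs_nonneg _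
        intro N hN
        rw [Finset.mem_range] at hN ⊢
        omega

lemma Lw_sub_eq {w N x : ℕ} (hx : x ≤ N) : Lw w (N - x) = ell (pr w) N x := by
  rw [Lw_eq_prod]
  unfold ell
  refine Finset.prod_congr rfl fun p hp => ?_
  unfold uf el
  have h2 : (N - x) % p = 0 ↔ N % p = x % p := by
    rw [← Nat.dvd_iff_mod_eq_zero]
    constructor
    · intro h
      have := (Nat.modEq_iff_dvd' hx).mpr h
      exact this.symm
    · intro h
      exact (Nat.modEq_iff_dvd' hx).mp (Eq.symm h)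
  simp only [h2]

lemma ell_congr {P : Finset ℕ} {N x y : ℕ} (h : ∀ p ∈ P, x % p = y % p) :
    ell P N x = ell P N y := by
  unfold ell el
  refine Finset.prod_congr rfl fun p hp => ?_
  rw [h p hp]

lemma rough_iff_coprime {w a : ℕ} : Rough w a ↔ a.Coprime (Wp w) := by
  rw [rough_iff]
  unfold Wp
  rw [Nat.coprime_prod_right_iff]
  constructor
  · intro h p hp
    exact ((mem_pr.mp hp).2.coprime_iff_not_dvd.mpr (h p hp)).symm
  · intro h p hp
    exact (mem_pr.mp hp).2.coprime_iff_not_dvd.mp (h p hp).symm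

lemma totient_Wp (w : ℕ) : ((Wp w).totient : ℝ) = Wp w * V w := by
  have h1 : ∀ P : Finset ℕ, (∀ p ∈ P, p.Prime) → (∏ p ∈ P, p).totient = ∏ p ∈ P, (p - 1) := by
    intro P hP
    induction P using Finset.induction_on with
    | empty => simp
    | insert q D hq ih =>
      have hqp : q.Prime := hP q (mem_insert_self _ _)
      rw [Finset.prod_insert hq, Finset.prod_insert hq, Nat.totient_mul, ih
        (fun p hp => hP p (mem_insert_of_mem hp)), Nat.totient_prime hqp]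
      apply Nat.Coprime.prod_right
      intro p hp
      rw [Nat.coprime_primes hqp (hP p (mem_insert_of_mem hp))]
      rintro rfl
      exact hq hp
  unfold Wp V
  rw [h1 (pr w) (fun p hp => (mem_pr.mp hp).2)]
  push_cast
  rw [← Finset.prod_mul_distrib]
  refine Finset.prod_congr rfl fun p hp => ?_
  have hp2 := (mem_pr.mp hp).2
  have : (p : ℝ) ≠ 0 := by exact_mod_cast hp2.ne_zero
  rw [Nat.cast_sub hp2.one_le]
  field_simp
  norm_num

/-- local main term -/
lemma local_main {w N : ℕ} (hw : 2 ≤ w) (hN : Even N) (hWN : Wp w ≤ N + 1) :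
    ((Wp w).totient : ℝ) ≤ ∑ c ∈ (range (Wp w)).filter (fun c => c.Coprime (Wp w)),
      ell (pr w) N c := by
  have h1 := local_block (w₀ := 2) (w := w) (n := N) (A := 0) le_rfl hw hN (by omega)
  have hopr : opr 2 = ∅ := by
    rw [Finset.eq_empty_iff_forall_notMem]
    intro p hp
    rw [mem_opr] at hp
    omega
  have hcard : (Cs 2).card = 1 := by
    rw [card_Cs, hopr, Finset.prod_empty]
  have hom : ∀ (c : ↥(opr 2) → ℕ) (x : ℕ), om 2 c x = 1 := by
    intro c x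
    unfold om
    refine Finset.prod_eq_one fun r _ => ?_
    exfalso
    have hr := mem_opr.mp r.2
    omega
  simp only [hom, mul_one, Finset.sum_const, hcard, nsmul_eq_mul, Nat.cast_one, one_mul] at h1
  have hV := V_pos w
  have h2 : ∑ x ∈ Finset.Ico 0 (0 + Wp w), Lw w x * Lw w (N - x) =
      (V w)⁻¹ * ∑ c ∈ (range (Wp w)).filter (fun c => c.Coprime (Wp w)), ell (pr w) N c := by
    rw [zero_add, ← Finset.range_eq_Ico, Finset.sum_filter, Finset.mul_sum]
    refine Finset.sum_congr rfl fun x hx => ?_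
    rw [Finset.mem_range] at hx
    unfold Lw
    by_cases h3 : Rough w x
    · rw [if_pos h3, if_pos (rough_iff_coprime.mp h3)]
      congr 1
      have := Lw_sub_eq (w := w) (show x ≤ N by omega)
      unfold Lw at this
      exact this
    · rw [if_neg h3, if_neg (fun h4 => h3 (rough_iff_coprime.mpr h4))]
      ring
  rw [h2] at h1
  rw [totient_Wp]
  norm_num at h1
  rw [← div_eq_inv_mul, le_div_iff₀ hV] at h1
  exact h1

/-- lower bound for `lam * Lw` at large even numbers -/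
theorem main_lower {w : ℕ} (hw : 2 ≤ w) {κ : ℝ} (hκ : 0 < κ) : ∃ N₀ : ℕ, ∀ N : ℕ, N₀ ≤ N →
    Even N → (1 - κ) * N ≤ ∑ x ∈ range (N + 1), lam x * Lw w (N - x) := by
  rcases le_or_gt 1 κ with hκ1 | hκ1
  · refine ⟨0, fun N _ _ => ?_⟩
    refine le_trans (mul_nonpos_of_nonpos_of_nonneg (by linarith) (Nat.cast_nonneg N)) ?_
    exact Finset.sum_nonneg fun x _ => mul_nonneg (lam_nonneg x) (Lw_nonneg _ _)
  have hWp := Wp_pos w
  have htot : (0 : ℝ) < (Wp w).totient := by exact_mod_cast Nat.totient_pos.mpr hWp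
  have h1 : ∀ᶠ N : ℕ in Filter.atTop, ∀ c ∈ (range (Wp w)).filter (fun c => c.Coprime (Wp w)),
      (1 - κ) * N / (Wp w).totient ≤ ∑ n ∈ Finset.Icc 1 N with n % Wp w = c, lam n := by
    rw [Filter.eventually_all_finset]
    intro c hc
    rw [Finset.mem_filter, Finset.mem_range] at hc
    have h2 := pnt_ap (Wp w) c hWp hc.2
    have h3 : (1 - κ) / ((Wp w).totient : ℝ) < 1 / ((Wp w).totient : ℝ) :=
      div_lt_div_of_pos_right (by linarith) htot
    filter_upwards [h2.eventually_const_lt h3, Filter.eventually_gt_atTop 0] with N hN hN0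
    rw [Nat.mod_eq_of_lt hc.1] at hN
    have hNR : (0 : ℝ) < N := by exact_mod_cast hN0
    rw [lt_div_iff₀ hNR] at hN
    calc (1 - κ) * N / (Wp w).totient = (1 - κ) / (Wp w).totient * N := by ring
      _ ≤ _ := hN.le
  obtain ⟨N₀, hN₀⟩ := Filter.eventually_atTop.mp h1
  refine ⟨max N₀ (Wp w), fun N hN hE => ?_⟩
  have hNa := hN₀ N ((le_max_left _ _).trans hN)
  have hNb : Wp w ≤ N := (le_max_right _ _).trans hN
  have h2 : ∑ x ∈ Finset.Icc 1 N, lam x * Lw w (N - x) ≤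
      ∑ x ∈ range (N + 1), lam x * Lw w (N - x) := by
    refine Finset.sum_le_sum_of_subset_of_nonneg ?_
      fun x _ _ => mul_nonneg (lam_nonneg x) (Lw_nonneg _ _)
    intro x hx
    rw [Finset.mem_Icc] at hx
    rw [Finset.mem_range]
    omega
  refine le_trans ?_ h2
  have h3 : ∑ x ∈ Finset.Icc 1 N, lam x * Lw w (N - x) =
      ∑ c ∈ range (Wp w), ell (pr w) N c * ∑ n ∈ Finset.Icc 1 N with n % Wp w = c, lam n := by
    have h4 := Finset.sum_fiberwise_of_maps_to (s := Finset.Icc 1 N) (t := range (Wp w))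
      (g := fun x => x % Wp w) (fun x _ => mem_range.mpr (Nat.mod_lt _ hWp))
      (fun x => lam x * Lw w (N - x))
    rw [← h4]
    refine Finset.sum_congr rfl fun c _ => ?_
    rw [Finset.mul_sum]
    refine Finset.sum_congr rfl fun x hx => ?_
    rw [Finset.mem_filter, Finset.mem_Icc] at hx
    rw [Lw_sub_eq hx.1.2, ell_congr (P := pr w) (N := N) (x := x) (y := c), mul_comm]
    intro p hp
    rw [← hx.2, Nat.mod_mod_of_dvd _ (dvd_Wp hp)]
  rw [h3]
  have h4 : ∑ c ∈ (range (Wp w)).filter (fun c => c.Coprime (Wp w)),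
      ell (pr w) N c * ((1 - κ) * N / (Wp w).totient) ≤
      ∑ c ∈ range (Wp w), ell (pr w) N c * ∑ n ∈ Finset.Icc 1 N with n % Wp w = c, lam n := by
    refine le_trans (Finset.sum_le_sum fun c hc => mul_le_mul_of_nonneg_left (hNa c hc)
      (ell_nonneg (fun p hp => (mem_pr.mp hp).2.two_le) N c)) ?_
    refine Finset.sum_le_sum_of_subset_of_nonneg (Finset.filter_subset _ _) fun c _ _ => ?_
    exact mul_nonneg (ell_nonneg (fun p hp => (mem_pr.mp hp).2.two_le) N c)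
      (Finset.sum_nonneg fun n _ => lam_nonneg n)
  refine le_trans ?_ h4
  rw [← Finset.sum_mul]
  have h5 := local_main hw hE (show Wp w ≤ N + 1 by omega)
  have h6 : (0 : ℝ) ≤ (1 - κ) * N / (Wp w).totient := by
    apply div_nonneg (mul_nonneg (by linarith) (Nat.cast_nonneg N)) htot.le
  calc (1 - κ) * N = ((Wp w).totient : ℝ) * ((1 - κ) * N / (Wp w).totient) := by
        field_simp
    _ ≤ _ := mul_le_mul_of_nonneg_right h5 h6

/-- few `N` violate an `L¹` bound -/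
lemma card_of_l1 {X : ℕ} {g : ℕ → ℝ} (hg : ∀ n, 0 ≤ g n) {A τ : ℝ} (hτ : 0 < τ)
    (h : ∑ N ∈ range (2 * X + 1), g N ≤ A) :
    (((Finset.Ioc X (2 * X)).filter (fun N => τ < g N)).card : ℝ) ≤ A / τ := by
  rw [le_div_iff₀ hτ, ← nsmul_eq_mul]
  refine le_trans (Finset.card_nsmul_le_sum _ g τ fun N hN => ?_) ?_
  · rw [Finset.mem_filter] at hN
    exact hN.2.le
  · refine le_trans ?_ h
    refine Finset.sum_le_sum_of_subset_of_nonneg ?_ fun n _ _ => hg n
    intro N hN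
    rw [Finset.mem_filter, Finset.mem_Ioc] at hN
    rw [Finset.mem_range]
    omega

/-- mass of a sparse set of primes -/
lemma mass_le : ∃ X₀ : ℕ, ∀ X : ℕ, X₀ ≤ X → ∀ (η : ℝ) (S : Finset ℕ), 0 ≤ η →
    S ⊆ Finset.Icc 1 (2 * X) → (S.card : ℝ) ≤ η * Nat.primeCounting (2 * X) →
    ∑ x ∈ S, Real.log x ≤ 5 * η * X := by
  obtain ⟨Y₀, hY₀⟩ := Filter.eventually_atTop.mp
    (Chebyshev.eventually_primeCounting_le (show (0 : ℝ) < 1 by norm_num))
  refine ⟨max ⌈Y₀⌉₊ 2, fun X hX η S hη hS hcard => ?_⟩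
  have hX2 : (2 : ℝ) ≤ X := by exact_mod_cast (le_max_right _ _).trans hX
  have hX1 : Y₀ ≤ ((2 * X : ℕ) : ℝ) := by
    have h1 : (⌈Y₀⌉₊ : ℝ) ≤ X := by exact_mod_cast (le_max_left _ _).trans hX
    have h2 := Nat.le_ceil Y₀
    push_cast
    linarith
  have h1 := hY₀ _ hX1
  rw [Nat.floor_natCast] at h1
  push_cast at h1
  have hlog : 0 < Real.log (2 * (X : ℝ)) := Real.log_pos (by linarith)
  have hlog4 : Real.log 4 ≤ 1.4 := by
    rw [show (4 : ℝ) = 2 ^ 2 by norm_num, Real.log_pow]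
    have := Real.log_two_lt_d9
    push_cast
    linarith
  have h2 : ∑ x ∈ S, Real.log x ≤ S.card * Real.log (2 * (X : ℝ)) := by
    rw [← nsmul_eq_mul]
    refine Finset.sum_le_card_nsmul _ _ _ fun x hx => ?_
    have h3 := Finset.mem_Icc.mp (hS hx)
    have h4 : (1 : ℝ) ≤ x := by exact_mod_cast h3.1
    have h5 : (x : ℝ) ≤ 2 * X := by exact_mod_cast h3.2
    exact Real.log_le_log (by linarith) h5
  have h3 : (Nat.primeCounting (2 * X) : ℝ) * Real.log (2 * (X : ℝ)) ≤ 5 * X := by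
    rw [le_div_iff₀ hlog] at h1
    nlinarith
  calc ∑ x ∈ S, Real.log x ≤ S.card * Real.log (2 * (X : ℝ)) := h2
    _ ≤ (η * Nat.primeCounting (2 * X)) * Real.log (2 * (X : ℝ)) :=
        mul_le_mul_of_nonneg_right hcard hlog.le
    _ = η * ((Nat.primeCounting (2 * X) : ℝ) * Real.log (2 * (X : ℝ))) := by ring
    _ ≤ η * (5 * X) := mul_le_mul_of_nonneg_left h3 hη
    _ = _ := by ring

/-- the weight of the primes of `B` up to `2 * X` -/
noncomputable def fB (B : Set ℕ) (X : ℕ) (n : ℕ) : ℝ :=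
  open Classical in if n ∈ B ∧ n ≤ 2 * X then lam n else 0

lemma fB_nonneg (B : Set ℕ) (X n : ℕ) : 0 ≤ fB B X n := by
  unfold fB
  split_ifs
  · exact lam_nonneg n
  · exact le_rfl

lemma fB_le (B : Set ℕ) (X n : ℕ) : fB B X n ≤ lam n := by
  unfold fB
  split_ifs
  · exact le_rfl
  · exact lam_nonneg n

lemma fB_supp (B : Set ℕ) (X n : ℕ) (h : 2 * X < n) : fB B X n = 0 := by
  unfold fB
  rw [if_neg]
  omega

open Classical in
lemma sum_fB (B : Set ℕ) (X : ℕ) : ∑ x ∈ Finset.Icc 1 (2 * X), fB B X x =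
    ∑ x ∈ (Finset.Icc 1 (2 * X)).filter (fun p => p.Prime ∧ p ∈ B), Real.log x := by
  rw [Finset.sum_filter]
  refine Finset.sum_congr rfl fun x hx => ?_
  rw [Finset.mem_Icc] at hx
  unfold fB lam
  by_cases h1 : x ∈ B
  · by_cases h2 : x.Prime
    · rw [if_pos ⟨h1, hx.2⟩, if_pos h2, if_pos ⟨h2, h1⟩]
    · rw [if_pos ⟨h1, hx.2⟩, if_neg h2, if_neg (fun h => h2 h.1)]
  · rw [if_neg (fun h => h1 h.1), if_neg (fun h => h1 h.2)]

/-- the numbers `K, k` for a given `η` -/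
lemma params {C₂ θ : ℝ} (hC₂ : 0 < C₂) (hθ : 0 < θ) : ∃ c : ℝ, 0 < c ∧ ∀ η : ℝ, 0 < η → η ≤ c →
    ∃ K k : ℕ, 2 ≤ K ∧ C₂ * Real.log K * (5 * η) ≤ θ / 8 ∧
      C₂ * Real.log K * (4 * (Real.exp (2 * k / K) - 1)) ≤ θ / 8 ∧
      3 * (1 / 2 : ℝ) ^ k ≤ Real.exp (-Real.exp (c / η)) := by
  set c₁ : ℝ := θ / (40 * C₂) with hc₁
  have hc₁0 : 0 < c₁ := by positivity
  -- smallness of `log K / √K`
  have hlim : Filter.Tendsto (fun x : ℝ => Real.log x / Real.sqrt x) Filter.atTop (nhds 0) := by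
    have h4 := (isLittleO_log_rpow_atTop (show (0 : ℝ) < 1 / 2 by norm_num)).tendsto_div_nhds_zero
    refine h4.congr fun x => ?_
    rw [Real.sqrt_eq_rpow]
  have hpos : 0 < θ / (128 * C₂) := by positivity
  obtain ⟨K₁, hK₁⟩ := Filter.eventually_atTop.mp (hlim.eventually_lt_const hpos)
  set K₂ : ℝ := max (max K₁ 4) 1 with hK₂
  have hK₂4 : 4 ≤ K₂ := (le_max_right _ _).trans (le_max_left _ _)
  have hlogK₂ : 0 < Real.log (K₂ + 1) := Real.log_pos (by linarith)
  refine ⟨min (c₁ / 8) (c₁ / Real.log (K₂ + 1)), by positivity, fun η hη hηc => ?_⟩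
  have hη1 : η ≤ c₁ / 8 := hηc.trans (min_le_left _ _)
  have hη2 : η ≤ c₁ / Real.log (K₂ + 1) := hηc.trans (min_le_right _ _)
  have hcη8 : 8 ≤ c₁ / η := by
    rw [le_div_iff₀ hη]; rw [le_div_iff₀ (by norm_num)] at hη1; linarith
  have hcηK : K₂ + 1 ≤ Real.exp (c₁ / η) := by
    rw [← Real.log_le_iff_le_exp (by linarith), le_div_iff₀ hη]
    rw [le_div_iff₀ hlogK₂] at hη2
    linarith
  set K : ℕ := ⌊Real.exp (c₁ / η)⌋₊ with hK
  have hKle : (K : ℝ) ≤ Real.exp (c₁ / η) := Nat.floor_le (Real.exp_pos _).le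
  have hKgt : Real.exp (c₁ / η) - 1 < K := by
    have := Nat.lt_floor_add_one (Real.exp (c₁ / η)); linarith
  have hKK₂ : K₂ ≤ K := by linarith
  have hK4 : (4 : ℝ) ≤ K := hK₂4.trans hKK₂
  have hKpos : (0 : ℝ) < K := by linarith
  have hlogK : Real.log K ≤ c₁ / η := by
    rw [Real.log_le_iff_le_exp hKpos]
    exact hKle
  have hlogK0 : 0 < Real.log K := Real.log_pos (by linarith)
  set k : ℕ := Nat.sqrt K with hk
  have hksq : (k : ℝ) ≤ Real.sqrt K := Real.nat_sqrt_le_real_sqrt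
  have hkgt : Real.sqrt K < k + 1 := Real.real_sqrt_lt_nat_sqrt_succ
  have hsqrt2 : 2 ≤ Real.sqrt K := by
    rw [show (2 : ℝ) = Real.sqrt 4 by
      rw [show (4 : ℝ) = 2 ^ 2 by norm_num, Real.sqrt_sq (by norm_num)]]
    exact Real.sqrt_le_sqrt hK4
  have hsq : Real.sqrt K * Real.sqrt K = K := Real.mul_self_sqrt hKpos.le
  refine ⟨K, k, by exact_mod_cast (show (2 : ℝ) ≤ K by linarith), ?_, ?_, ?_⟩
  · calc C₂ * Real.log K * (5 * η) ≤ C₂ * (c₁ / η) * (5 * η) := by
          apply mul_le_mul_of_nonneg_right (mul_le_mul_of_nonneg_left hlogK hC₂.le) (by positivity)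
      _ = 5 * C₂ * c₁ := by field_simp
      _ = θ / 8 := by rw [hc₁]; field_simp; norm_num
  · have hu : 2 * (k : ℝ) / K ≤ 2 / Real.sqrt K := by
      rw [div_le_div_iff₀ hKpos (by linarith)]
      nlinarith
    have hu1 : 2 / Real.sqrt K ≤ 1 := by rw [div_le_one (by linarith)]; exact hsqrt2
    have hu0 : 0 ≤ 2 * (k : ℝ) / K := by positivity
    have hexp : Real.exp (2 * k / K) - 1 ≤ 2 * (2 / Real.sqrt K) := by
      have h1 := Real.abs_exp_sub_one_le (x := 2 * (k : ℝ) / K)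
        (by rw [abs_of_nonneg hu0]; linarith)
      rw [abs_of_nonneg hu0] at h1
      have h2 := le_abs_self (Real.exp (2 * k / K) - 1)
      linarith
    have h3 := hK₁ K (((le_max_left _ _).trans (le_max_left _ _)).trans hKK₂)
    have h4 : Real.log K * (1 / Real.sqrt K) < θ / (128 * C₂) := by
      rw [mul_one_div]; exact h3
    calc C₂ * Real.log K * (4 * (Real.exp (2 * k / K) - 1))
        ≤ C₂ * Real.log K * (4 * (2 * (2 / Real.sqrt K))) := by
          apply mul_le_mul_of_nonneg_left _ (by positivity)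
          linarith
      _ = 16 * C₂ * (Real.log K * (1 / Real.sqrt K)) := by ring
      _ ≤ 16 * C₂ * (θ / (128 * C₂)) := mul_le_mul_of_nonneg_left h4.le (by positivity)
      _ = θ / 8 := by field_simp; norm_num
  · -- the double exponential
    set y : ℝ := Real.exp (c₁ / η / 4) with hy
    have hy4 : y ^ 4 = Real.exp (c₁ / η) := by
      rw [hy, ← Real.exp_nat_mul]
      congr 1
      push_cast
      ring
    have hy3 : 3 ≤ y := by
      have := Real.add_one_le_exp (c₁ / η / 4)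
      linarith
    have hsy : y ^ 2 - 1 ≤ Real.sqrt K := by
      apply Real.le_sqrt_of_sq_le
      nlinarith
    have hky : y ^ 2 - 2 ≤ k := by linarith
    have hl2 := Real.log_two_gt_d9
    have hl3 : Real.log 3 ≤ 1.1 := by
      have h1 : Real.log 3 ≤ Real.log (Real.exp 1.1) := by
        apply Real.log_le_log (by norm_num)
        have h2 := Real.exp_one_gt_d9
        have h3 : Real.exp 1.1 = Real.exp 1 * Real.exp 0.1 := by
          rw [← Real.exp_add]; norm_num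
        have h4 := Real.add_one_le_exp (0.1 : ℝ)
        have h5 := Real.quadratic_le_exp_of_nonneg (show (0 : ℝ) ≤ 0.1 by norm_num)
        rw [h3]
        nlinarith
      rwa [Real.log_exp] at h1
    have hyk : y ≤ k * Real.log 2 - Real.log 3 := by nlinarith
    have hcy : Real.exp (min (c₁ / 8) (c₁ / Real.log (K₂ + 1)) / η) ≤ y := by
      rw [hy]
      apply Real.exp_le_exp.mpr
      have h1 : min (c₁ / 8) (c₁ / Real.log (K₂ + 1)) / η ≤ (c₁ / 8) / η :=
        div_le_div_of_nonneg_right (min_le_left _ _) hη.le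
      have h2 : (c₁ / 8) / η = c₁ / η / 8 := by ring
      have h3 : 0 ≤ c₁ / η := by positivity
      linarith
    have h1 : 3 * (1 / 2 : ℝ) ^ k = Real.exp (-(k * Real.log 2 - Real.log 3)) := by
      rw [neg_sub, Real.exp_sub, Real.exp_log (by norm_num), Real.exp_nat_mul,
        Real.exp_log (by norm_num)]
      rw [one_div, inv_pow, div_eq_mul_inv]
    rw [h1]
    apply Real.exp_le_exp.mpr
    linarith

open Classical in
/-- Robust Goldbach, weighted form. -/
theorem weighted (hT : TransferP) (hU : UniformP) : ∀ θ : ℝ, 0 < θ → ∃ c : ℝ, 0 < c ∧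
    ∀ η : ℝ, 0 < η → η ≤ c → ∃ X₀ : ℕ, ∀ X : ℕ, X₀ ≤ X → ∀ B : Set ℕ,
      (((Finset.Icc 1 (2 * X)).filter (fun p => p.Prime ∧ p ∈ B)).card : ℝ) ≤
        η * Nat.primeCounting (2 * X) →
      (((Finset.Ioc X (2 * X)).filter (fun N : ℕ => Even N ∧
        ¬ ((N : ℝ) / 2 ≤ ∑ x ∈ range (N + 1), lam x * lam (N - x) ∧
          ∑ x ∈ range (N + 1), fB B X x * lam (N - x) ≤ θ * X))).card : ℝ) ≤
        Real.exp (-Real.exp (c / η)) * X := by
  intro θ hθ
  obtain ⟨C₂, hC₂, hV⟩ := V_inv_le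
  obtain ⟨c, hc, hpar⟩ := params hC₂ hθ
  refine ⟨c, hc, fun η hη hηc => ?_⟩
  obtain ⟨K, k, hK2, hp1, hp2, hp3⟩ := hpar η hη hηc
  have hhalf : (0 : ℝ) < (1 / 2) ^ k := by positivity
  -- the `L¹` bound with a very small constant
  set ε' : ℝ := min (θ / 16) (1 / 32) * (1 / 2) ^ k with hε'
  have hε'0 : 0 < ε' := by positivity
  obtain ⟨w₀, hw₀⟩ := l1_bound hT hU ε' hε'0
  set w : ℕ := max w₀ (max K 2) with hw
  have hww₀ : w₀ ≤ w := le_max_left _ _
  have hKw : K ≤ w := (le_max_left _ _).trans (le_max_right _ _)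
  have hw2 : 2 ≤ w := (le_max_right _ _).trans (le_max_right _ _)
  obtain ⟨X₁, hX₁⟩ := hw₀ w hww₀
  obtain ⟨X₂, hX₂⟩ := robust_count (k := k) hK2 hKw
  obtain ⟨X₃, hX₃⟩ := main_lower hw2 (show (0 : ℝ) < 1 / 4 by norm_num)
  obtain ⟨X₄, hX₄⟩ := mass_le
  refine ⟨max (max X₁ X₂) (max (max X₃ X₄) 1), fun X hX B hB => ?_⟩
  have ha : X₁ ≤ 2 * X := by
    have := ((le_max_left _ _).trans (le_max_left _ _)).trans hX; omega
  have hb : X₂ ≤ X := ((le_max_right _ _).trans (le_max_left _ _)).trans hX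
  have hc3 : X₃ ≤ X := ((le_max_left _ _).trans ((le_max_left _ _).trans (le_max_right _ _))).trans hX
  have hd : X₄ ≤ X := ((le_max_right _ _).trans ((le_max_left _ _).trans (le_max_right _ _))).trans hX
  have h1X : 1 ≤ X := ((le_max_right _ _).trans (le_max_right _ _)).trans hX
  have hXR : (0 : ℝ) < X := by exact_mod_cast h1X
  -- first exceptional set
  set f : ℕ → ℝ := fB B X with hf
  set g₁ : ℕ → ℝ := fun N => |∑ x ∈ range (N + 1), f x * lam (N - x) -
      ∑ x ∈ range (N + 1), f x * Lw w (N - x)| with hg₁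
  have hE1 := card_of_l1 (X := X) (g := g₁) (fun n => abs_nonneg _)
    (A := ε' * ((2 * X : ℕ) : ℝ) ^ 2) (τ := θ / 2 * X) (by positivity)
    (hX₁ (2 * X) ha f (fB_nonneg B X) (fB_le B X) (fB_supp B X))
  set F : ℕ → ℝ := fun n => if n ≤ 2 * X then lam n else 0 with hF
  have hF0 : ∀ n, 0 ≤ F n := fun n => by
    simp only [hF]; split_ifs
    · exact lam_nonneg n
    · exact le_rfl
  set g₂ : ℕ → ℝ := fun N => |∑ x ∈ range (N + 1), F x * lam (N - x) -
      ∑ x ∈ range (N + 1), F x * Lw w (N - x)| with hg₂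
  have hE2 := card_of_l1 (X := X) (g := g₂) (fun n => abs_nonneg _)
    (A := ε' * ((2 * X : ℕ) : ℝ) ^ 2) (τ := 1 / 4 * X) (by positivity)
    (hX₁ (2 * X) ha F hF0 (fun n => by
      simp only [hF]; split_ifs
      · exact le_rfl
      · exact lam_nonneg n) (fun n hn => by simp only [hF]; rw [if_neg (by omega)]))
  set S : Finset ℕ := (Finset.Icc 1 (2 * X)).filter (fun p => p.Prime ∧ p ∈ B) with hS
  have hm : ∑ x ∈ Finset.Icc 1 (2 * X), f x ≤ 5 * η * X := by
    rw [hf, sum_fB]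
    exact hX₄ X hd η S hη.le (Finset.filter_subset _ _) hB
  have hVK := hV K hK2
  have hexp : (0 : ℝ) ≤ Real.exp (2 * k / K) - 1 := by
    have := Real.one_le_exp (show (0 : ℝ) ≤ 2 * k / K by positivity)
    linarith
  have hsmall : (V K)⁻¹ * (∑ x ∈ Finset.Icc 1 (2 * X), f x + 4 * X * (Real.exp (2 * k / K) - 1)) ≤
      θ / 2 * X / 2 := by
    calc (V K)⁻¹ * (∑ x ∈ Finset.Icc 1 (2 * X), f x + 4 * X * (Real.exp (2 * k / K) - 1))
        ≤ (C₂ * Real.log K) * (5 * η * X + 4 * X * (Real.exp (2 * k / K) - 1)) := by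
          apply mul_le_mul hVK
          · exact add_le_add hm le_rfl
          · exact add_nonneg (Finset.sum_nonneg fun x _ => fB_nonneg B X x) (by positivity)
          · exact le_trans (inv_pos.mpr (V_pos K)).le hVK
      _ = (C₂ * Real.log K * (5 * η) + C₂ * Real.log K * (4 * (Real.exp (2 * k / K) - 1))) * X := by
          ring
      _ ≤ (θ / 8 + θ / 8) * X := mul_le_mul_of_nonneg_right (add_le_add hp1 hp2) hXR.le
      _ = θ / 2 * X / 2 := by ring
  have hE3 := hX₂ X hb f (fB_nonneg B X) (fB_le B X) (fB_supp B X) (θ / 2) (by positivity) hsmall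
  -- the exceptional set is contained in the union
  have hsub : (Finset.Ioc X (2 * X)).filter (fun N : ℕ => Even N ∧
        ¬ ((N : ℝ) / 2 ≤ ∑ x ∈ range (N + 1), lam x * lam (N - x) ∧
          ∑ x ∈ range (N + 1), fB B X x * lam (N - x) ≤ θ * X)) ⊆
      ((Finset.Ioc X (2 * X)).filter (fun N => θ / 2 * X < g₁ N) ∪
      (Finset.Ioc X (2 * X)).filter (fun N => 1 / 4 * X < g₂ N)) ∪
      (Finset.Ioc X (2 * X)).filter
        (fun N => θ / 2 * X ≤ ∑ x ∈ Finset.range (N + 1), f x * Lw w (N - x)) := by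
    intro N hN
    rw [Finset.mem_filter] at hN
    obtain ⟨hN1, hNe, hN2⟩ := hN
    have hN1' := Finset.mem_Ioc.mp hN1
    rw [Finset.mem_union, Finset.mem_union, Finset.mem_filter, Finset.mem_filter,
      Finset.mem_filter]
    by_contra hcon
    push Not at hcon
    obtain ⟨⟨h1, h2⟩, h3⟩ := hcon
    have h1 := h1 hN1
    have h2 := h2 hN1
    have h3 := h3 hN1
    apply hN2
    constructor
    · have h4 := hX₃ N (by omega) hNe
      have h5 : ∑ x ∈ range (N + 1), F x * lam (N - x) =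
          ∑ x ∈ range (N + 1), lam x * lam (N - x) := by
        refine Finset.sum_congr rfl fun x hx => ?_
        rw [Finset.mem_range] at hx
        simp only [hF]
        rw [if_pos (by omega)]
      have h6 : ∑ x ∈ range (N + 1), F x * Lw w (N - x) =
          ∑ x ∈ range (N + 1), lam x * Lw w (N - x) := by
        refine Finset.sum_congr rfl fun x hx => ?_
        rw [Finset.mem_range] at hx
        simp only [hF]
        rw [if_pos (by omega)]
      have h7 := (abs_le.mp h2).1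
      rw [h5, h6] at h7
      have h8 : (X : ℝ) ≤ N := by exact_mod_cast hN1'.1.le
      linarith
    · have h7 := (abs_le.mp h1).2
      have h8 : ∑ x ∈ range (N + 1), fB B X x * lam (N - x) ≤ θ / 2 * X +
          ∑ x ∈ range (N + 1), fB B X x * Lw w (N - x) := by
        have h9 : ∑ x ∈ range (N + 1), f x * lam (N - x) -
          ∑ x ∈ range (N + 1), f x * Lw w (N - x) ≤ θ / 2 * X := h7
        linarith
      have h9 : ∑ x ∈ range (N + 1), fB B X x * Lw w (N - x) < θ / 2 * X := h3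
      linarith
  have hcard := (Finset.card_le_card hsub).trans ((Finset.card_union_le _ _).trans
    (Nat.add_le_add_right (Finset.card_union_le _ _) _))
  have hcardR : (((Finset.Ioc X (2 * X)).filter (fun N : ℕ => Even N ∧
        ¬ ((N : ℝ) / 2 ≤ ∑ x ∈ range (N + 1), lam x * lam (N - x) ∧
          ∑ x ∈ range (N + 1), fB B X x * lam (N - x) ≤ θ * X))).card : ℝ) ≤
      (((Finset.Ioc X (2 * X)).filter (fun N => θ / 2 * X < g₁ N)).card : ℝ) +
      (((Finset.Ioc X (2 * X)).filter (fun N => 1 / 4 * X < g₂ N)).card : ℝ) +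
      (((Finset.Ioc X (2 * X)).filter
        (fun N => θ / 2 * X ≤ ∑ x ∈ Finset.range (N + 1), f x * Lw w (N - x))).card : ℝ) := by
    exact_mod_cast hcard
  have hb1 : ε' * ((2 * X : ℕ) : ℝ) ^ 2 / (θ / 2 * X) ≤ (1 / 2) * (1 / 2) ^ k * X := by
    rw [div_le_iff₀ (by positivity)]
    have h1 : ε' ≤ θ / 16 * (1 / 2) ^ k :=
      mul_le_mul_of_nonneg_right (min_le_left _ _) hhalf.le
    push_cast
    calc ε' * (2 * (X : ℝ)) ^ 2 ≤ θ / 16 * (1 / 2) ^ k * (2 * (X : ℝ)) ^ 2 :=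
          mul_le_mul_of_nonneg_right h1 (by positivity)
      _ = _ := by ring
  have hb2 : ε' * ((2 * X : ℕ) : ℝ) ^ 2 / (1 / 4 * X) ≤ (1 / 2) * (1 / 2) ^ k * X := by
    rw [div_le_iff₀ (by positivity)]
    have h1 : ε' ≤ 1 / 32 * (1 / 2) ^ k :=
      mul_le_mul_of_nonneg_right (min_le_right _ _) hhalf.le
    push_cast
    calc ε' * (2 * (X : ℝ)) ^ 2 ≤ 1 / 32 * (1 / 2) ^ k * (2 * (X : ℝ)) ^ 2 :=
          mul_le_mul_of_nonneg_right h1 (by positivity)
      _ = _ := by ring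
  calc _ ≤ _ := hcardR
    _ ≤ (1 / 2) * (1 / 2) ^ k * X + (1 / 2) * (1 / 2) ^ k * X + 2 * X * (1 / 2) ^ k :=
        add_le_add (add_le_add (hE1.trans hb1) (hE2.trans hb2)) hE3
    _ = 3 * (1 / 2 : ℝ) ^ k * X := by ring
    _ ≤ Real.exp (-Real.exp (c / η)) * X := mul_le_mul_of_nonneg_right hp3 hXR.le

end Pool.Agent.Lib.GT.Robust
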