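import Pool.Agent.Lib.MP_7b7e48_nt.GT.LocalAvg

/-!
# High moments of `∑ x, f x * Lw (N - x)` over `N` (robust Goldbach)
-/

open Finset Pool.Agent.Lib.GT Pool.Agent.Lib.GT.LA

namespace Pool.Agent.Lib.GT.Robust

/-- local factor: `0` if `N = x mod p`, else `(1 - 1/p)⁻¹` -/
noncomputable def el (p N x : ℕ) : ℝ := if N % p = x % p then 0 else (1 - 1 / (p : ℝ))⁻¹

/-- product of the local factors over the primes in `P` -/
noncomputable def ell (P : Finset ℕ) (N x : ℕ) : ℝ := ∏ p ∈ P, el p N x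

lemma one_sub_inv_pos {p : ℕ} (hp : 2 ≤ p) : 0 < 1 - 1 / (p : ℝ) := by
  have h2 : (2 : ℝ) ≤ p := by exact_mod_cast hp
  have : 1 / (p : ℝ) ≤ 1 / 2 := one_div_le_one_div_of_le (by norm_num) h2
  linarith

lemma el_nonneg {p : ℕ} (hp : 2 ≤ p) (N x : ℕ) : 0 ≤ el p N x := by
  unfold el
  split_ifs
  · exact le_rfl
  · exact inv_nonneg.mpr (one_sub_inv_pos hp).le

lemma ell_nonneg {P : Finset ℕ} (hP : ∀ p ∈ P, 2 ≤ p) (N x : ℕ) : 0 ≤ ell P N x :=
  Finset.prod_nonneg fun p hp => el_nonneg (hP p hp) N x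

lemma ell_mod {P : Finset ℕ} {W : ℕ} (hW : ∀ p ∈ P, p ∣ W) (N x : ℕ) :
    ell P (N + W) x = ell P N x := by
  unfold ell el
  refine Finset.prod_congr rfl fun p hp => ?_
  obtain ⟨c, rfl⟩ := hW p hp
  rw [Nat.add_mul_mod_self_left]

/-- the recursive moment bound: `T p` is a set of residues mod `p` -/
theorem psi_le {P : Finset ℕ} (hP : ∀ p ∈ P, p.Prime) {s : Finset ℕ} {f : ℕ → ℝ}
    (hf : ∀ x ∈ s, 0 ≤ f x) {Y : ℝ} {k : ℕ}
    (hY : ∀ T : ℕ → Finset ℕ, (∀ p ∈ P, T p ⊆ range p ∧ (T p).card ≤ k) →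
      ∑ x ∈ s, f x * ∏ p ∈ P, (if x % p ∈ T p then (1 - 1 / (p : ℝ))⁻¹ else 1) ≤ Y) (j : ℕ) :
    ∀ T : ℕ → Finset ℕ, (∀ p ∈ P, T p ⊆ range p ∧ (T p).card + j ≤ k) →
      ∑ N ∈ range (∏ p ∈ P, p), (∏ p ∈ P, (if N % p ∈ T p then (0 : ℝ) else 1)) *
        (∑ x ∈ s, f x * ell P N x) ^ j ≤ Y ^ j * ∏ p ∈ P, ((p : ℝ) - (T p).card) := by
  classical
  have hY0 : 0 ≤ Y := by
    refine le_trans ?_ (hY (fun _ => ∅) (fun p _ => ⟨by simp, by simp⟩))
    refine Finset.sum_nonneg fun x hx => mul_nonneg (hf x hx) ?_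
    refine Finset.prod_nonneg fun p hp => ?_
    simp
  induction j with
  | zero =>
    intro T hT
    simp only [pow_zero, mul_one, one_mul]
    have h := sum_prod_period P hP (fun p a => if a ∈ T p then (0 : ℝ) else 1)
    rw [h]
    apply le_of_eq
    refine Finset.prod_congr rfl fun p hp => ?_
    have h1 : ∀ a ∈ range p, (if a ∈ T p then (0 : ℝ) else 1) = 1 - (if a ∈ T p then 1 else 0) := by
      intro a _
      split_ifs <;> simp
    rw [Finset.sum_congr rfl h1, Finset.sum_sub_distrib, Finset.sum_const, card_range,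
      nsmul_eq_mul, mul_one]
    congr 1
    rw [Finset.sum_ite_mem, Finset.sum_const, nsmul_eq_mul, mul_one,
      Finset.inter_eq_right.mpr (hT p hp).1]
  | succ j ih =>
    intro T hT
    have hTcard : ∀ p ∈ P, (T p).card ≤ k := fun p hp => by have := (hT p hp).2; omega
    have hTp : ∀ p ∈ P, (T p).card ≤ p := fun p hp => by
      have := Finset.card_le_card (hT p hp).1
      rwa [card_range] at this
    -- expand one factor
    have h1 : ∑ N ∈ range (∏ p ∈ P, p), (∏ p ∈ P, (if N % p ∈ T p then (0 : ℝ) else 1)) *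
        (∑ x ∈ s, f x * ell P N x) ^ (j + 1) =
        ∑ x ∈ s, f x * ((∏ p ∈ P, (1 - 1 / (p : ℝ))⁻¹) * ∑ N ∈ range (∏ p ∈ P, p),
          (∏ p ∈ P, (if N % p ∈ insert (x % p) (T p) then (0 : ℝ) else 1)) *
            (∑ x ∈ s, f x * ell P N x) ^ j) := by
      have h2 : ∀ N, (∏ p ∈ P, (if N % p ∈ T p then (0 : ℝ) else 1)) *
          (∑ x ∈ s, f x * ell P N x) ^ (j + 1) =
          ∑ x ∈ s, f x * ((∏ p ∈ P, (1 - 1 / (p : ℝ))⁻¹) *
            ((∏ p ∈ P, (if N % p ∈ insert (x % p) (T p) then (0 : ℝ) else 1)) *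
            (∑ x ∈ s, f x * ell P N x) ^ j)) := by
        intro N
        rw [pow_succ', ← mul_assoc, Finset.mul_sum, Finset.sum_mul]
        refine Finset.sum_congr rfl fun x _ => ?_
        have h3 : (∏ p ∈ P, (if N % p ∈ T p then (0 : ℝ) else 1)) * ell P N x =
            (∏ p ∈ P, (1 - 1 / (p : ℝ))⁻¹) *
              ∏ p ∈ P, (if N % p ∈ insert (x % p) (T p) then (0 : ℝ) else 1) := by
          unfold ell
          rw [← Finset.prod_mul_distrib, ← Finset.prod_mul_distrib]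
          refine Finset.prod_congr rfl fun p _ => ?_
          unfold el
          simp only [Finset.mem_insert]
          by_cases h4 : N % p = x % p
          · simp [h4]
          · by_cases h5 : N % p ∈ T p
            · simp [h4, h5]
            · simp [h4, h5]
        calc _ = f x * (((∏ p ∈ P, (if N % p ∈ T p then (0 : ℝ) else 1)) * ell P N x) *
              (∑ x ∈ s, f x * ell P N x) ^ j) := by ring
          _ = _ := by rw [h3]; ring
      rw [Finset.sum_congr rfl (fun N _ => h2 N), Finset.sum_comm]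
      refine Finset.sum_congr rfl fun x _ => ?_
      rw [← Finset.mul_sum, ← Finset.mul_sum]
    rw [h1]
    -- bound each inner sum by the induction hypothesis
    have h2 : ∀ x ∈ s, (∏ p ∈ P, (1 - 1 / (p : ℝ))⁻¹) * ∑ N ∈ range (∏ p ∈ P, p),
          (∏ p ∈ P, (if N % p ∈ insert (x % p) (T p) then (0 : ℝ) else 1)) *
            (∑ x ∈ s, f x * ell P N x) ^ j ≤
        Y ^ j * (∏ p ∈ P, ((p : ℝ) - (T p).card)) *
          ∏ p ∈ P, (if x % p ∈ T p then (1 - 1 / (p : ℝ))⁻¹ else 1) := by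
      intro x _
      have h3 := ih (fun p => insert (x % p) (T p)) (by
        intro p hp
        refine ⟨?_, ?_⟩
        · intro a ha
          rw [Finset.mem_insert] at ha
          rcases ha with rfl | ha
          · exact mem_range.mpr (Nat.mod_lt _ (hP p hp).pos)
          · exact (hT p hp).1 ha
        · have h4 := Finset.card_insert_le (x % p) (T p)
          have h5 := (hT p hp).2
          show (insert (x % p) (T p)).card + j ≤ k
          omega)
      have hpp : 0 ≤ ∏ p ∈ P, (1 - 1 / (p : ℝ))⁻¹ :=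
        Finset.prod_nonneg fun p hp => inv_nonneg.mpr (one_sub_inv_pos (hP p hp).two_le).le
      refine (mul_le_mul_of_nonneg_left h3 hpp).trans ?_
      rw [mul_left_comm, mul_assoc, ← Finset.prod_mul_distrib, ← Finset.prod_mul_distrib]
      refine mul_le_mul_of_nonneg_left ?_ (pow_nonneg hY0 j)
      refine Finset.prod_le_prod ?_ ?_
      · intro p hp
        refine mul_nonneg (inv_nonneg.mpr (one_sub_inv_pos (hP p hp).two_le).le) ?_
        have h6 : (insert (x % p) (T p)).card ≤ p := by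
          have : insert (x % p) (T p) ⊆ range p := by
            intro a ha
            rw [Finset.mem_insert] at ha
            rcases ha with rfl | ha
            · exact mem_range.mpr (Nat.mod_lt _ (hP p hp).pos)
            · exact (hT p hp).1 ha
          have := Finset.card_le_card this
          rwa [card_range] at this
        have h7 : ((insert (x % p) (T p)).card : ℝ) ≤ p := by exact_mod_cast h6
        linarith
      · intro p hp
        have hp2 := (hP p hp).two_le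
        have hpos := one_sub_inv_pos hp2
        by_cases h5 : x % p ∈ T p
        · rw [if_pos h5, Finset.insert_eq_of_mem h5]
          exact le_of_eq (mul_comm _ _)
        · rw [if_neg h5, Finset.card_insert_of_notMem h5, mul_one]
          have hpR : (0 : ℝ) < p := by exact_mod_cast (hP p hp).pos
          have h8 : (p : ℝ) - ((T p).card + 1 : ℕ) ≤ (1 - 1 / (p : ℝ)) * ((p : ℝ) - (T p).card) := by
            have h9 : (1 - 1 / (p : ℝ)) * ((p : ℝ) - (T p).card) =
                (p : ℝ) - (T p).card - 1 + (T p).card / p := by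
              field_simp
              ring
            rw [h9]
            have h10 : (0 : ℝ) ≤ (T p).card / p := by positivity
            push_cast
            linarith
          calc (1 - 1 / (p : ℝ))⁻¹ * ((p : ℝ) - ((T p).card + 1 : ℕ))
              ≤ (1 - 1 / (p : ℝ))⁻¹ * ((1 - 1 / (p : ℝ)) * ((p : ℝ) - (T p).card)) :=
                mul_le_mul_of_nonneg_left h8 (inv_nonneg.mpr hpos.le)
            _ = (p : ℝ) - (T p).card := by
                rw [← mul_assoc, inv_mul_cancel₀ hpos.ne', one_mul]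
    calc ∑ x ∈ s, f x * ((∏ p ∈ P, (1 - 1 / (p : ℝ))⁻¹) * ∑ N ∈ range (∏ p ∈ P, p),
          (∏ p ∈ P, (if N % p ∈ insert (x % p) (T p) then (0 : ℝ) else 1)) *
            (∑ x ∈ s, f x * ell P N x) ^ j)
        ≤ ∑ x ∈ s, f x * (Y ^ j * (∏ p ∈ P, ((p : ℝ) - (T p).card)) *
          ∏ p ∈ P, (if x % p ∈ T p then (1 - 1 / (p : ℝ))⁻¹ else 1)) :=
          Finset.sum_le_sum fun x hx => mul_le_mul_of_nonneg_left (h2 x hx) (hf x hx)
      _ = (Y ^ j * ∏ p ∈ P, ((p : ℝ) - (T p).card)) *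
          ∑ x ∈ s, f x * ∏ p ∈ P, (if x % p ∈ T p then (1 - 1 / (p : ℝ))⁻¹ else 1) := by
          rw [Finset.mul_sum]
          refine Finset.sum_congr rfl fun x _ => by ring
      _ ≤ (Y ^ j * ∏ p ∈ P, ((p : ℝ) - (T p).card)) * Y := by
          refine mul_le_mul_of_nonneg_left (hY T (fun p hp => ⟨(hT p hp).1, hTcard p hp⟩)) ?_
          refine mul_nonneg (pow_nonneg hY0 j) (Finset.prod_nonneg fun p hp => ?_)
          have : ((T p).card : ℝ) ≤ p := by exact_mod_cast hTp p hp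
          linarith
      _ = Y ^ (j + 1) * ∏ p ∈ P, ((p : ℝ) - (T p).card) := by ring

/-- the `k`-th moment over a full period -/
theorem moment_period {P : Finset ℕ} (hP : ∀ p ∈ P, p.Prime) {s : Finset ℕ} {f : ℕ → ℝ}
    (hf : ∀ x ∈ s, 0 ≤ f x) {Y : ℝ} {k : ℕ}
    (hY : ∀ T : ℕ → Finset ℕ, (∀ p ∈ P, T p ⊆ range p ∧ (T p).card ≤ k) →
      ∑ x ∈ s, f x * ∏ p ∈ P, (if x % p ∈ T p then (1 - 1 / (p : ℝ))⁻¹ else 1) ≤ Y) :
    ∑ N ∈ range (∏ p ∈ P, p), (∑ x ∈ s, f x * ell P N x) ^ k ≤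
      Y ^ k * ((∏ p ∈ P, p : ℕ) : ℝ) := by
  have h := psi_le hP hf hY k (fun _ => ∅) (fun p _ => ⟨by simp, by simp⟩)
  simpa using h

/-- from residue classes to the quantity `Y` of the moment bound -/
theorem class_to_Y {P : Finset ℕ} (hP : ∀ p ∈ P, p.Prime) {s : Finset ℕ} {f : ℕ → ℝ}
    (hf : ∀ x ∈ s, 0 ≤ f x) {M : ℝ} (hM0 : 0 ≤ M) {k : ℕ}
    (hM : ∀ D ⊆ P, D.Nonempty → ∀ t : ℕ → ℕ,
      ∑ x ∈ s with ∀ p ∈ D, x % p = t p, f x ≤ M * ∏ p ∈ D, (1 / ((p : ℝ) - 1)))
    (T : ℕ → Finset ℕ) (hT : ∀ p ∈ P, T p ⊆ range p ∧ (T p).card ≤ k) :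
    ∑ x ∈ s, f x * ∏ p ∈ P, (if x % p ∈ T p then (1 - 1 / (p : ℝ))⁻¹ else 1) ≤
      ∑ x ∈ s, f x + M * (∏ p ∈ P, (1 + k / ((p : ℝ) - 1) ^ 2) - 1) := by
  classical
  have hp1 : ∀ p ∈ P, (0 : ℝ) < (p : ℝ) - 1 := by
    intro p hp
    have : (2 : ℝ) ≤ p := by exact_mod_cast (hP p hp).two_le
    linarith
  -- expand the product
  have h1 : ∀ x, ∏ p ∈ P, (if x % p ∈ T p then (1 - 1 / (p : ℝ))⁻¹ else 1) =
      ∑ D ∈ P.powerset, (if ∀ p ∈ D, x % p ∈ T p then ∏ p ∈ D, (1 / ((p : ℝ) - 1)) else 0) := by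
    intro x
    have h2 : ∀ p ∈ P, (if x % p ∈ T p then (1 - 1 / (p : ℝ))⁻¹ else 1) =
        1 + (if x % p ∈ T p then 1 / ((p : ℝ) - 1) else 0) := by
      intro p hp
      have h3 := hp1 p hp
      have h4 : (p : ℝ) ≠ 0 := by linarith
      split_ifs
      · field_simp
        ring
      · simp
    rw [Finset.prod_congr rfl h2, Finset.prod_one_add]
    refine Finset.sum_congr rfl fun D _ => ?_
    split_ifs with h5
    · exact Finset.prod_congr rfl fun p hp => by rw [if_pos (h5 p hp)]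
    · push Not at h5
      obtain ⟨p, hp, h6⟩ := h5
      exact Finset.prod_eq_zero hp (by rw [if_neg h6])
  have h2 : ∑ x ∈ s, f x * ∏ p ∈ P, (if x % p ∈ T p then (1 - 1 / (p : ℝ))⁻¹ else 1) =
      ∑ D ∈ P.powerset, (∏ p ∈ D, (1 / ((p : ℝ) - 1))) *
        ∑ x ∈ s with ∀ p ∈ D, x % p ∈ T p, f x := by
    rw [Finset.sum_congr rfl (fun x _ => by rw [h1 x, Finset.mul_sum]), Finset.sum_comm]
    refine Finset.sum_congr rfl fun D _ => ?_
    rw [Finset.mul_sum, Finset.sum_filter]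
    refine Finset.sum_congr rfl fun x _ => ?_
    split_ifs <;> ring
  have h3 : ∏ p ∈ P, (1 + k / ((p : ℝ) - 1) ^ 2) =
      ∑ D ∈ P.powerset, ∏ p ∈ D, (k / ((p : ℝ) - 1) ^ 2) := Finset.prod_one_add _
  rw [h2, h3]
  have hmem : (∅ : Finset ℕ) ∈ P.powerset := Finset.empty_mem_powerset _
  rw [← Finset.add_sum_erase _ _ hmem, ← Finset.add_sum_erase (P.powerset)
    (fun D => ∏ p ∈ D, (k / ((p : ℝ) - 1) ^ 2)) hmem]
  simp only [Finset.prod_empty, one_mul]
  have h4 : ∑ x ∈ s with ∀ p ∈ (∅ : Finset ℕ), x % p ∈ T p, f x = ∑ x ∈ s, f x := by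
    refine Finset.sum_congr ?_ fun _ _ => rfl
    ext x
    simp
  rw [h4]
  have h5 : (1 : ℝ) + ∑ D ∈ P.powerset.erase ∅, ∏ p ∈ D, (k / ((p : ℝ) - 1) ^ 2) - 1 =
      ∑ D ∈ P.powerset.erase ∅, ∏ p ∈ D, (k / ((p : ℝ) - 1) ^ 2) := by ring
  rw [h5, Finset.mul_sum]
  refine add_le_add le_rfl (Finset.sum_le_sum fun D hD => ?_)
  rw [Finset.mem_erase, Finset.mem_powerset] at hD
  obtain ⟨hD0, hDP⟩ := hD
  have hDne : D.Nonempty := Finset.nonempty_iff_ne_empty.mpr hD0
  have hprod0 : 0 ≤ ∏ p ∈ D, (1 / ((p : ℝ) - 1)) :=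
    Finset.prod_nonneg fun p hp => by have := hp1 p (hDP hp); positivity
  -- union bound over the classes
  have h6 : ∑ x ∈ s with ∀ p ∈ D, x % p ∈ T p, f x ≤
      ((D.pi T).card : ℝ) * (M * ∏ p ∈ D, (1 / ((p : ℝ) - 1))) := by
    have h7 := Finset.sum_fiberwise_of_maps_to
      (s := s.filter (fun x => ∀ p ∈ D, x % p ∈ T p)) (t := D.pi T)
      (g := fun x => (fun p _ => x % p : (p : ℕ) → p ∈ D → ℕ)) (by
        intro x hx
        rw [Finset.mem_filter] at hx
        rw [Finset.mem_pi]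
        exact fun p hp => hx.2 p hp) f
    rw [← h7]
    refine (Finset.sum_le_card_nsmul _ _ (M * ∏ p ∈ D, (1 / ((p : ℝ) - 1))) ?_).trans
      (by rw [nsmul_eq_mul])
    intro t _
    refine le_trans ?_ (hM D hDP hDne (fun p => if h : p ∈ D then t p h else 0))
    refine Finset.sum_le_sum_of_subset_of_nonneg ?_ ?_
    · intro x hx
      rw [Finset.mem_filter, Finset.mem_filter] at hx
      rw [Finset.mem_filter]
      refine ⟨hx.1.1, fun p hp => ?_⟩
      rw [dif_pos hp, ← hx.2]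
    · intro x hx _
      rw [Finset.mem_filter] at hx
      exact hf x hx.1
  have h7 : ((D.pi T).card : ℝ) ≤ ∏ _p ∈ D, (k : ℝ) := by
    rw [Finset.card_pi]
    push_cast
    refine Finset.prod_le_prod (fun _ _ => Nat.cast_nonneg _) fun p hp => ?_
    exact_mod_cast (hT p (hDP hp)).2
  calc (∏ p ∈ D, (1 / ((p : ℝ) - 1))) * ∑ x ∈ s with ∀ p ∈ D, x % p ∈ T p, f x
      ≤ (∏ p ∈ D, (1 / ((p : ℝ) - 1))) *
        ((∏ _p ∈ D, (k : ℝ)) * (M * ∏ p ∈ D, (1 / ((p : ℝ) - 1)))) := by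
        refine mul_le_mul_of_nonneg_left (h6.trans ?_) hprod0
        exact mul_le_mul_of_nonneg_right h7 (mul_nonneg hM0 hprod0)
    _ = M * ∏ p ∈ D, (k / ((p : ℝ) - 1) ^ 2) := by
        have h8 : ∏ p ∈ D, (k / ((p : ℝ) - 1) ^ 2) =
            (∏ p ∈ D, (1 / ((p : ℝ) - 1))) * (∏ _p ∈ D, (k : ℝ)) *
              ∏ p ∈ D, (1 / ((p : ℝ) - 1)) := by
          rw [← Finset.prod_mul_distrib, ← Finset.prod_mul_distrib]
          refine Finset.prod_congr rfl fun p hp => ?_
          have := hp1 p (hDP hp)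
          field_simp
        rw [h8]
        ring

end Pool.Agent.Lib.GT.Robust
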