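import Pool.Agent.Lib.MP_7b7e48_nt.GT.RobustConst
import Pool.Agent.Lib.MP_7b7e48_nt.GT.RobustFinal

/-!
# Robust Goldbach with the exact constant: upper bound
-/

open Finset Filter Topology Pool.Agent.Lib.GT Pool.Agent.Lib.GT.LA

namespace Pool.Agent.Lib.GT.Robust

open Classical in
/-- number of representations `2 n = p + q`, `p < q` primes, that meet `B` -/
noncomputable def hits (B : Set ℕ) (n : ℕ) : ℕ :=
  ((range n).filter (fun p => p.Prime ∧ (2 * n - p).Prime ∧ (p ∈ B ∨ 2 * n - p ∈ B))).card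

/-- `B` contains at most the proportion `η` of the primes up to `y`, for all `y ≥ Y` -/
def SparseFrom (B : Set ℕ) (η : ℝ) (Y : ℕ) : Prop :=
  open Classical in ∀ y : ℕ, Y ≤ y →
    (((Finset.Icc 1 y).filter (fun p => p.Prime ∧ p ∈ B)).card : ℝ) ≤ η * Nat.primeCounting y

/-- weighted lower bound for the pairs that meet `B` -/
lemma hits_weight {κ : ℝ} (hκ0 : 0 < κ) (hκ1 : κ < 1) {n X : ℕ} (B : Set ℕ) (hn : 1 ≤ n)
    (hnX : n ≤ X) :
    (hits B n : ℝ) * ((1 - κ) * Real.log (2 * n)) ^ 2 ≤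
      ∑ x ∈ range (2 * n + 1), fB B X x * lam (2 * n - x) +
        (2 * n : ℝ) ^ (1 - κ) * Real.log (2 * n) ^ 2 := by
  classical
  have hnR : (1 : ℝ) ≤ n := by exact_mod_cast hn
  have hlog : 0 < Real.log (2 * (n : ℝ)) := Real.log_pos (by linarith)
  set y : ℝ := (2 * n : ℝ) ^ (1 - κ) with hy
  have hy1 : 1 ≤ y := Real.one_le_rpow (by linarith) (by linarith)
  have hlogy : Real.log y = (1 - κ) * Real.log (2 * n) := by
    rw [hy, Real.log_rpow (by linarith)]
  set H : Finset ℕ := (range n).filter (fun p => p.Prime ∧ (2 * n - p).Prime ∧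
    (p ∈ B ∨ 2 * n - p ∈ B)) with hH
  have hhits : hits B n = H.card := rfl
  set T : Finset ℕ := H.filter (fun p : ℕ => (p : ℝ) ≤ y) with hT
  have hT' : ∀ p, p ∈ T ↔ p ∈ H ∧ (p : ℝ) ≤ y := fun p => by rw [hT, Finset.mem_filter]
  have hH' : ∀ p, p ∈ H ↔ p < n ∧ p.Prime ∧ (2 * n - p).Prime ∧ (p ∈ B ∨ 2 * n - p ∈ B) :=
    fun p => by rw [hH, Finset.mem_filter, Finset.mem_range]
  clear_value T H
  have h1 : (T.card : ℝ) ≤ y := by
    have h2 : T ⊆ Finset.Icc 1 ⌊y⌋₊ := by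
      intro p hp
      rw [hT', hH'] at hp
      rw [Finset.mem_Icc]
      exact ⟨hp.1.2.1.one_le, Nat.le_floor hp.2⟩
    have h3 := Finset.card_le_card h2
    rw [Nat.card_Icc] at h3
    have h4 : (T.card : ℝ) ≤ ⌊y⌋₊ := by exact_mod_cast (by omega : T.card ≤ _)
    exact h4.trans (Nat.floor_le (by linarith))
  set φ : ℕ → ℕ := fun p => if p ∈ B then p else 2 * n - p with hφ
  have hinj : Set.InjOn φ (H \ T : Finset ℕ) := by
    intro p hp p' hp' heq
    rw [Finset.mem_coe, Finset.mem_sdiff, hH'] at hp hp'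
    simp only [hφ] at heq
    have h5 := hp.1.1
    have h6 := hp'.1.1
    split_ifs at heq <;> omega
  have h2 : ∀ p ∈ H \ T, ((1 - κ) * Real.log (2 * n)) ^ 2 ≤ fB B X (φ p) * lam (2 * n - φ p) := by
    intro p hp
    rw [Finset.mem_sdiff, hT'] at hp
    obtain ⟨hpH, hpT⟩ := hp
    have hyp : y < p := by
      by_contra h4
      exact hpT ⟨hpH, not_lt.mp h4⟩
    rw [hH'] at hpH
    obtain ⟨hpn, hpp, hqq, hor⟩ := hpH
    have hyq : y < ((2 * n - p : ℕ) : ℝ) := by
      refine hyp.trans ?_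
      exact_mod_cast (by omega : p < 2 * n - p)
    have hlp : Real.log y ≤ Real.log p := Real.log_le_log (by linarith) hyp.le
    have hlq : Real.log y ≤ Real.log ((2 * n - p : ℕ) : ℝ) := Real.log_le_log (by linarith) hyq.le
    have hly0 : 0 ≤ Real.log y := Real.log_nonneg hy1
    rw [← hlogy, sq]
    simp only [hφ]
    by_cases hB : p ∈ B
    · rw [if_pos hB]
      have e1 : fB B X p = Real.log p := by
        unfold fB lam
        rw [if_pos ⟨hB, by omega⟩, if_pos hpp]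
      have e2 : lam (2 * n - p) = Real.log ((2 * n - p : ℕ) : ℝ) := by
        unfold lam
        rw [if_pos hqq]
      rw [e1, e2]
      exact mul_le_mul hlp hlq hly0 (hly0.trans hlp)
    · rw [if_neg hB]
      have hB' : 2 * n - p ∈ B := by tauto
      have e1 : fB B X (2 * n - p) = Real.log ((2 * n - p : ℕ) : ℝ) := by
        unfold fB lam
        rw [if_pos ⟨hB', by omega⟩, if_pos hqq]
      have e3 : 2 * n - (2 * n - p) = p := by omega
      have e2 : lam (2 * n - (2 * n - p)) = Real.log p := by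
        rw [e3]
        unfold lam
        rw [if_pos hpp]
      rw [e1, e2]
      exact mul_le_mul hlq hlp hly0 (hly0.trans hlq)
  have h3 : ((H \ T).card : ℝ) * ((1 - κ) * Real.log (2 * n)) ^ 2 ≤
      ∑ x ∈ range (2 * n + 1), fB B X x * lam (2 * n - x) := by
    rw [← nsmul_eq_mul]
    refine (Finset.card_nsmul_le_sum _ _ _ h2).trans ?_
    rw [← Finset.sum_image (f := fun x => fB B X x * lam (2 * n - x)) hinj]
    refine Finset.sum_le_sum_of_subset_of_nonneg ?_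
      fun x _ _ => mul_nonneg (fB_nonneg B X x) (lam_nonneg _)
    intro x hx
    rw [Finset.mem_image] at hx
    obtain ⟨p, hp, rfl⟩ := hx
    rw [Finset.mem_sdiff, hH'] at hp
    rw [Finset.mem_range]
    simp only [hφ]
    split_ifs <;> omega
  have h5 : H.card ≤ T.card + (H \ T).card := by
    rw [← Finset.card_sdiff_add_card_inter H T]
    have : (H ∩ T).card ≤ T.card := Finset.card_le_card Finset.inter_subset_right
    omega
  have h5R : (H.card : ℝ) ≤ T.card + (H \ T).card := by exact_mod_cast h5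
  have hL0 : 0 ≤ ((1 - κ) * Real.log (2 * (n : ℝ))) ^ 2 := sq_nonneg _
  have hL1 : ((1 - κ) * Real.log (2 * (n : ℝ))) ^ 2 ≤ Real.log (2 * n) ^ 2 := by
    apply pow_le_pow_left₀ (by have : 0 ≤ 1 - κ := by linarith
                               positivity)
    exact mul_le_of_le_one_left hlog.le (by linarith)
  rw [hhits]
  calc (H.card : ℝ) * ((1 - κ) * Real.log (2 * n)) ^ 2
      ≤ (T.card + (H \ T).card : ℝ) * ((1 - κ) * Real.log (2 * n)) ^ 2 :=
        mul_le_mul_of_nonneg_right h5R hL0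
    _ = (H \ T).card * ((1 - κ) * Real.log (2 * n)) ^ 2 +
        T.card * ((1 - κ) * Real.log (2 * n)) ^ 2 := by ring
    _ ≤ _ := by
        refine add_le_add h3 ?_
        exact mul_le_mul h1 hL1 hL0 (by linarith)

/-- many pairs meeting `B` force a large weighted sum -/
lemma conv_sharp {κ a : ℝ} (hκ0 : 0 < κ) (hκ1 : κ < 1) (ha : 0 < a) : ∃ N₀ : ℕ, ∀ n X : ℕ,
    N₀ ≤ n → n ≤ X → ∀ (t : ℝ) (B : Set ℕ), 0 < t → t ≤ 1 → t * reps n ≤ hits B n →
    (1 - κ) ^ 2 * (t / 2) * ∑ x ∈ range (2 * n + 1), lam x * lam (2 * n - x) - a * n ≤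
      ∑ x ∈ range (2 * n + 1), fB B X x * lam (2 * n - x) := by
  -- `(1 + (2 n)^(1-κ)) log^2 (2 n) ≤ a n` eventually
  have hlim : Tendsto (fun x : ℝ => (2 * x ^ (1 - κ) * Real.log x ^ 2) / x) atTop (𝓝 0) := by
    have h4 := (isLittleO_log_rpow_atTop (show (0 : ℝ) < κ / 2 by linarith)).tendsto_div_nhds_zero
    have h5 : Tendsto (fun x : ℝ => 2 * (Real.log x / x ^ (κ / 2)) ^ 2) atTop (𝓝 0) := by
      have := (h4.pow 2).const_mul 2
      simpa using this
    refine h5.congr' ?_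
    filter_upwards [eventually_gt_atTop 0] with x hx
    rw [div_pow, ← Real.rpow_natCast (x ^ (κ / 2)) 2, ← Real.rpow_mul hx.le]
    have h6 : κ / 2 * ((2 : ℕ) : ℝ) = κ := by push_cast; ring
    rw [h6, Real.rpow_sub hx, Real.rpow_one]
    field_simp
  obtain ⟨x₀, hx₀⟩ := Filter.eventually_atTop.mp (hlim.eventually_lt_const
    (show (0 : ℝ) < a / 2 by linarith))
  refine ⟨max ⌈x₀⌉₊ 1, fun n X hn hnX t B ht0 ht1 hth => ?_⟩
  have hn1 : 1 ≤ n := (le_max_right _ _).trans hn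
  have hnR : (1 : ℝ) ≤ n := by exact_mod_cast hn1
  have hx : x₀ ≤ 2 * (n : ℝ) := by
    have h1 : (⌈x₀⌉₊ : ℝ) ≤ n := by exact_mod_cast (le_max_left _ _).trans hn
    have h2 := Nat.le_ceil x₀
    linarith
  have h1 := hx₀ _ hx
  rw [div_lt_iff₀ (by linarith)] at h1
  have h2 := hits_weight hκ0 hκ1 B hn1 hnX
  have h3 := total_le hn1
  have hL : 0 < Real.log (2 * (n : ℝ)) := Real.log_pos (by linarith)
  have hy1 : 1 ≤ (2 * n : ℝ) ^ (1 - κ) := Real.one_le_rpow (by linarith) (by linarith)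
  set R := ∑ x ∈ range (2 * n + 1), lam x * lam (2 * n - x) with hR
  set F := ∑ x ∈ range (2 * n + 1), fB B X x * lam (2 * n - x) with hF
  set L := Real.log (2 * (n : ℝ)) with hLdef
  set y := (2 * n : ℝ) ^ (1 - κ) with hydef
  have h4 : (1 - κ) ^ 2 * (t / 2) * R ≤ (1 - κ) ^ 2 * (t / 2) * ((2 * reps n + 1) * L ^ 2) :=
    mul_le_mul_of_nonneg_left h3 (by positivity)
  have h5 : (1 - κ) ^ 2 * L ^ 2 * (t * reps n) ≤ (1 - κ) ^ 2 * L ^ 2 * hits B n :=
    mul_le_mul_of_nonneg_left hth (by positivity)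
  have h6 : (1 - κ) ^ 2 * (t / 2) * L ^ 2 ≤ L ^ 2 := by
    have h7 : (1 - κ) ^ 2 ≤ 1 := by
      rw [sq_le_one_iff₀ (by linarith)]; linarith
    have h8 : (1 - κ) ^ 2 * (t / 2) ≤ 1 := by nlinarith [sq_nonneg (1 - κ)]
    exact mul_le_of_le_one_left (by positivity) h8
  have h7 : L ^ 2 ≤ y * L ^ 2 := le_mul_of_one_le_left (by positivity) hy1
  have h8 : 2 * y * L ^ 2 < a / 2 * (2 * n) := h1
  have h9 : (hits B n : ℝ) * ((1 - κ) * L) ^ 2 = (1 - κ) ^ 2 * L ^ 2 * hits B n := by ring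
  rw [h9] at h2
  have h10 : (1 - κ) ^ 2 * (t / 2) * ((2 * reps n + 1) * L ^ 2) =
      (1 - κ) ^ 2 * L ^ 2 * (t * reps n) + (1 - κ) ^ 2 * (t / 2) * L ^ 2 := by ring
  rw [h10] at h4
  linarith

/-- parameters -/
lemma params_sharp {c₀ δ κ : ℝ} (hδ : 0 < δ) (hc : 4 * δ ≤ c₀) (hκ0 : 0 < κ) (hκ1 : κ < 1)
    (K₁ : ℕ) : ∃ η₀ : ℝ, 0 < η₀ ∧ ∀ η : ℝ, 0 < η → η ≤ η₀ → ∃ K k : ℕ, 2 ≤ K ∧ K₁ ≤ K ∧
      Real.log K ≤ (c₀ - 2 * δ) / η ∧ 2 * (Real.exp (2 * k / K) - 1) ≤ κ * η ∧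
      16 * (1 - κ) ^ k ≤ Real.exp (-Real.exp ((c₀ - 4 * δ) / η)) := by
  set α := c₀ - 2 * δ with hα
  have hα0 : 0 < α := by linarith
  set u₀ : ℝ := max (max (64 / (κ * δ ^ 2)) (8 / δ)) (max (4 / (κ * δ)) ((K₁ + 2) / α)) with hu₀
  have hu₀pos : 0 < u₀ := lt_of_lt_of_le (by positivity : 0 < 8 / δ)
    ((le_max_right _ _).trans (le_max_left _ _))
  refine ⟨1 / u₀, by positivity, fun η hη hη' => ?_⟩
  set u : ℝ := 1 / η with hu
  have huu : u₀ ≤ u := by
    rw [hu, le_div_iff₀ hη]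
    rw [le_div_iff₀ hu₀pos] at hη'
    linarith
  have hupos : 0 < u := by positivity
  have hu1 : 64 / (κ * δ ^ 2) ≤ u := ((le_max_left _ _).trans (le_max_left _ _)).trans huu
  have hu2 : 8 / δ ≤ u := ((le_max_right _ _).trans (le_max_left _ _)).trans huu
  have hu3 : 4 / (κ * δ) ≤ u := ((le_max_left _ _).trans (le_max_right _ _)).trans huu
  have hu4 : (K₁ + 2) / α ≤ u := ((le_max_right _ _).trans (le_max_right _ _)).trans huu
  rw [div_le_iff₀ (by positivity)] at hu1 hu2 hu3 hu4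
  set K : ℕ := ⌊Real.exp (α * u)⌋₊ with hK
  set k : ℕ := ⌈Real.exp ((c₀ - 3 * δ) * u)⌉₊ with hk
  have hKle : (K : ℝ) ≤ Real.exp (α * u) := Nat.floor_le (Real.exp_pos _).le
  have hKgt : Real.exp (α * u) < K + 1 := Nat.lt_floor_add_one _
  have hexpα : (K₁ : ℝ) + 3 ≤ Real.exp (α * u) := by
    have := Real.add_one_le_exp (α * u)
    linarith
  have hKK : (K₁ : ℝ) + 2 < K := by linarith
  have hK2 : (2 : ℝ) < K := by
    have : (0 : ℝ) ≤ K₁ := Nat.cast_nonneg _
    linarith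
  have hKpos : (0 : ℝ) < K := by linarith
  have hKhalf : Real.exp (α * u) / 2 ≤ K := by linarith
  have hkge : Real.exp ((c₀ - 3 * δ) * u) ≤ k := Nat.le_ceil _
  have hklt : (k : ℝ) < Real.exp ((c₀ - 3 * δ) * u) + 1 := Nat.ceil_lt_add_one (Real.exp_pos _).le
  have hexp1 : 1 ≤ Real.exp ((c₀ - 3 * δ) * u) := by
    apply Real.one_le_exp
    have : 0 ≤ c₀ - 3 * δ := by linarith
    positivity
  have hk2 : (k : ℝ) ≤ 2 * Real.exp ((c₀ - 3 * δ) * u) := by linarith
  have hdecomp : Real.exp (α * u) = Real.exp ((c₀ - 3 * δ) * u) * Real.exp (δ * u) := by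
    rw [← Real.exp_add]
    congr 1
    rw [hα]
    ring
  have hE : 0 < Real.exp (δ * u) := Real.exp_pos _
  have hE8 : 8 ≤ Real.exp (δ * u) := by
    have := Real.add_one_le_exp (δ * u)
    linarith
  have hEsq : (δ * u) ^ 2 / 2 ≤ Real.exp (δ * u) := by
    have := Real.quadratic_le_exp_of_nonneg (show 0 ≤ δ * u by positivity)
    nlinarith [show 0 ≤ δ * u by positivity]
  have hratio : 2 * (k : ℝ) / K ≤ 8 / Real.exp (δ * u) := by
    rw [div_le_div_iff₀ hKpos hE]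
    rw [hdecomp] at hKhalf
    nlinarith [Real.exp_pos ((c₀ - 3 * δ) * u)]
  refine ⟨K, k, by exact_mod_cast hK2.le, by exact_mod_cast (by linarith : (K₁ : ℝ) ≤ K), ?_, ?_, ?_⟩
  · rw [Real.log_le_iff_le_exp hKpos]
    refine hKle.trans (le_of_eq ?_)
    rw [hu]
    congr 1
    ring
  · have hr0 : 0 ≤ 2 * (k : ℝ) / K := by positivity
    have hr1 : 2 * (k : ℝ) / K ≤ 1 := hratio.trans (by rw [div_le_one hE]; exact hE8)
    have h1 := Real.abs_exp_sub_one_le (x := 2 * (k : ℝ) / K) (by rw [abs_of_nonneg hr0]; exact hr1)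
    rw [abs_of_nonneg hr0] at h1
    have h2 := (le_abs_self _).trans h1
    have h3 : 2 * (Real.exp (2 * k / K) - 1) ≤ 32 / Real.exp (δ * u) := by
      have h4 : 32 / Real.exp (δ * u) = 4 * (8 / Real.exp (δ * u)) := by ring
      rw [h4]
      linarith
    refine h3.trans ?_
    rw [div_le_iff₀ hE]
    have h5 : κ * η * ((δ * u) ^ 2 / 2) ≤ κ * η * Real.exp (δ * u) :=
      mul_le_mul_of_nonneg_left hEsq (by positivity)
    refine le_trans ?_ h5
    have h6 : κ * η * ((δ * u) ^ 2 / 2) = κ * δ ^ 2 * u / 2 := by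
      rw [hu]
      field_simp
    rw [h6]
    linarith
  · have hκk : (1 - κ) ^ k ≤ Real.exp (-(κ * k)) := by
      have h1 : 1 - κ ≤ Real.exp (-κ) := by
        have := Real.add_one_le_exp (-κ)
        linarith
      calc (1 - κ) ^ k ≤ (Real.exp (-κ)) ^ k := pow_le_pow_left₀ (by linarith) h1 k
        _ = Real.exp (-(κ * k)) := by
            rw [← Real.exp_nat_mul]
            congr 1
            ring
    have hlog16 : Real.log 16 ≤ 3 := by
      rw [show (16 : ℝ) = 2 ^ 4 by norm_num, Real.log_pow]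
      have := Real.log_two_lt_d9
      push_cast
      linarith
    have h16 : (16 : ℝ) ≤ Real.exp 3 := by
      rw [← Real.log_le_iff_le_exp (by norm_num)]
      exact hlog16
    have hβ : (c₀ - 4 * δ) / η = (c₀ - 4 * δ) * u := by rw [hu]; ring
    rw [hβ]
    have hβ0 : 1 ≤ Real.exp ((c₀ - 4 * δ) * u) := by
      apply Real.one_le_exp
      have : 0 ≤ c₀ - 4 * δ := by linarith
      positivity
    have hdec2 : Real.exp ((c₀ - 3 * δ) * u) =
        Real.exp ((c₀ - 4 * δ) * u) * Real.exp (δ * u) := by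
      rw [← Real.exp_add]
      congr 1
      ring
    have hκE : 4 ≤ κ * Real.exp (δ * u) := by
      have h1 := Real.add_one_le_exp (δ * u)
      have h2 : κ * (δ * u) ≤ κ * Real.exp (δ * u) :=
        mul_le_mul_of_nonneg_left (by linarith) hκ0.le
      linarith
    have h5 : Real.exp ((c₀ - 4 * δ) * u) + 3 ≤ κ * k := by
      have h6 : κ * Real.exp ((c₀ - 3 * δ) * u) ≤ κ * k := mul_le_mul_of_nonneg_left hkge hκ0.le
      rw [hdec2] at h6
      have h7 : 4 * Real.exp ((c₀ - 4 * δ) * u) ≤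
          κ * (Real.exp ((c₀ - 4 * δ) * u) * Real.exp (δ * u)) := by
        have := mul_le_mul_of_nonneg_right hκE (Real.exp_pos ((c₀ - 4 * δ) * u)).le
        linarith
      linarith
    calc 16 * (1 - κ) ^ k ≤ Real.exp 3 * Real.exp (-(κ * k)) :=
          mul_le_mul h16 hκk (pow_nonneg (by linarith) k) (Real.exp_pos _).le
      _ = Real.exp (3 - κ * k) := by rw [← Real.exp_add]; congr 1
      _ ≤ Real.exp (-Real.exp ((c₀ - 4 * δ) * u)) := by
          apply Real.exp_le_exp.mpr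
          linarith

end Pool.Agent.Lib.GT.Robust
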