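import Pool.Agent.Lib.MP_7b7e48_nt.GT.RoughMajor

/-!
# Exponential sums over rough numbers off the major arcs
-/

set_option autoImplicit false

open Finset

namespace Pool.Agent.Lib.GT.RE

theorem exists_half_pow_small (c : ℝ) (hc : 0 < c) : ∃ b₀ : ℕ, ∀ b : ℕ, b₀ ≤ b →
    ((b : ℝ) + 1) * (1 / 2) ^ b ≤ c := by
  have h1 := tendsto_self_mul_const_pow_of_lt_one (r := (1 / 2 : ℝ)) (by norm_num) (by norm_num)
  have h2 : ∀ᶠ n : ℕ in Filter.atTop, (n : ℝ) * (1 / 2 : ℝ) ^ n < c / 2 :=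
    h1.eventually_lt_const (by linarith)
  rw [Filter.eventually_atTop] at h2
  obtain ⟨N, hN⟩ := h2
  refine ⟨N, fun b hb => ?_⟩
  have h3 := hN (b + 1) (by omega)
  rw [pow_succ] at h3
  push_cast at h3
  linarith

/-- eventual inequalities used for the choice of parameters -/
theorem rough_large (ε δ : ℝ) (hε : 0 < ε) (hδ : 0 < δ) : ∃ M₀ : ℕ, ∀ M : ℕ, M₀ ≤ M →
    2 ≤ (M : ℝ) ^ (δ / 2) ∧ 2 ≤ (M : ℝ) ^ (1 / 8 : ℝ) ∧ 1 ≤ Real.log M ∧
    16 * (M : ℝ) ^ (15 / 16 : ℝ) ≤ ε / 8 * M / Real.log M ∧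
    4 * Real.log M * (M : ℝ) ^ (1 - δ) ≤ ε / 8 * M / Real.log M := by
  have hnat : Filter.Tendsto (fun n : ℕ => (n : ℝ)) Filter.atTop Filter.atTop :=
    tendsto_natCast_atTop_atTop
  have h1 : ∀ᶠ n : ℕ in Filter.atTop, 2 ≤ (n : ℝ) ^ (δ / 2) :=
    ((tendsto_rpow_atTop (by positivity : 0 < δ / 2)).comp hnat).eventually_ge_atTop 2
  have h2 : ∀ᶠ n : ℕ in Filter.atTop, 2 ≤ (n : ℝ) ^ (1 / 8 : ℝ) :=
    ((tendsto_rpow_atTop (by norm_num : (0 : ℝ) < 1 / 8)).comp hnat).eventually_ge_atTop 2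
  have h3 : ∀ᶠ n : ℕ in Filter.atTop, 1 ≤ Real.log (n : ℝ) :=
    (Real.tendsto_log_atTop.comp hnat).eventually_ge_atTop 1
  have h4 : ∀ᶠ n : ℕ in Filter.atTop, Real.log (n : ℝ) ≤ ε / 128 * (n : ℝ) ^ (1 / 16 : ℝ) := by
    have h5 := (isLittleO_log_rpow_atTop (by norm_num : (0 : ℝ) < 1 / 16)).bound
      (by positivity : 0 < ε / 128)
    filter_upwards [hnat.eventually h5, h3] with n hn hn3
    rw [Real.norm_eq_abs, Real.norm_eq_abs, abs_of_nonneg (by linarith),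
      abs_of_nonneg (by positivity)] at hn
    exact hn
  have h5 : ∀ᶠ n : ℕ in Filter.atTop, Real.log (n : ℝ) ≤ min 1 (ε / 32) * (n : ℝ) ^ (δ / 2) := by
    have h5 := (isLittleO_log_rpow_atTop (by positivity : 0 < δ / 2)).bound
      (by positivity : 0 < min 1 (ε / 32))
    filter_upwards [hnat.eventually h5, h3] with n hn hn3
    rw [Real.norm_eq_abs, Real.norm_eq_abs, abs_of_nonneg (by linarith),
      abs_of_nonneg (by positivity)] at hn
    exact hn
  have h6 := h1.and (h2.and (h3.and (h4.and h5)))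
  rw [Filter.eventually_atTop] at h6
  obtain ⟨N, hN⟩ := h6
  refine ⟨N + 1, fun M hM => ?_⟩
  obtain ⟨g1, g2, g3, g4, g5⟩ := hN M (by omega)
  have hM0 : (0 : ℝ) < M := by exact_mod_cast (by omega : 0 < M)
  have hl : 0 < Real.log M := by linarith
  refine ⟨g1, g2, g3, ?_, ?_⟩
  · rw [le_div_iff₀ hl]
    have e1 : (M : ℝ) ^ (15 / 16 : ℝ) * (M : ℝ) ^ (1 / 16 : ℝ) = M := by
      rw [← Real.rpow_add hM0]
      norm_num
    calc 16 * (M : ℝ) ^ (15 / 16 : ℝ) * Real.log M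
        ≤ 16 * (M : ℝ) ^ (15 / 16 : ℝ) * (ε / 128 * (M : ℝ) ^ (1 / 16 : ℝ)) := by
          apply mul_le_mul_of_nonneg_left g4 (by positivity)
      _ = ε / 8 * ((M : ℝ) ^ (15 / 16 : ℝ) * (M : ℝ) ^ (1 / 16 : ℝ)) := by ring
      _ = ε / 8 * M := by rw [e1]
  · rw [le_div_iff₀ hl]
    have e1 : (M : ℝ) ^ (1 - δ) * ((M : ℝ) ^ (δ / 2) * (M : ℝ) ^ (δ / 2)) = M := by
      rw [← Real.rpow_add hM0, ← Real.rpow_add hM0]
      norm_num
    have hmin : min 1 (ε / 32) * min 1 (ε / 32) ≤ ε / 32 := by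
      calc min 1 (ε / 32) * min 1 (ε / 32) ≤ 1 * (ε / 32) :=
            mul_le_mul (min_le_left _ _) (min_le_right _ _) (by positivity) (by norm_num)
        _ = ε / 32 := one_mul _
    have e2 : Real.log M * Real.log M ≤
        (min 1 (ε / 32) * (M : ℝ) ^ (δ / 2)) * (min 1 (ε / 32) * (M : ℝ) ^ (δ / 2)) :=
      mul_le_mul g5 g5 hl.le (by positivity)
    calc 4 * Real.log M * (M : ℝ) ^ (1 - δ) * Real.log M
        = 4 * (M : ℝ) ^ (1 - δ) * (Real.log M * Real.log M) := by ring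
      _ ≤ 4 * (M : ℝ) ^ (1 - δ) *
          ((min 1 (ε / 32) * (M : ℝ) ^ (δ / 2)) * (min 1 (ε / 32) * (M : ℝ) ^ (δ / 2))) := by
          apply mul_le_mul_of_nonneg_left e2 (by positivity)
      _ = 4 * (min 1 (ε / 32) * min 1 (ε / 32)) *
          ((M : ℝ) ^ (1 - δ) * ((M : ℝ) ^ (δ / 2) * (M : ℝ) ^ (δ / 2))) := by ring
      _ = 4 * (min 1 (ε / 32) * min 1 (ε / 32)) * M := by rw [e1]
      _ ≤ 4 * (ε / 32) * M := by
          apply mul_le_mul_of_nonneg_right _ hM0.le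
          linarith
      _ = ε / 8 * M := by ring

/-- the exponential sum over rough numbers, for one choice of the parameters -/
theorem rough_exp_aux (ε δ : ℝ) (hε : 0 < ε) (hδ : 0 < δ) (K1 K2 K b Q M : ℕ)
    (hK1 : K1 ≤ K) (hK2 : K2 ≤ K) (hKb : (K : ℝ) * b * δ ≤ 1 / 16)
    (hb : (K : ℝ) * (1 / 2) ^ b * (4 / δ) ≤ ε / 8)
    (hQ : 8 / (δ * ε) ≤ Q) (hQ2 : ∀ q : ℕ, Q < q → 32 / (δ * ε) ≤ q.totient)
    (hF : ∀ z : ℕ, 2 ≤ z → ∀ P : Finset ℕ, (∀ r ∈ P, r.Prime ∧ r ≤ z) → ∀ Ω : ℕ → Finset ℕ,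
      (∀ r ∈ P, (Ω r).card ≤ 2 ∧ (Ω r).card < r ∧ ∀ x ∈ Ω r, x < r) → ∀ A L : ℕ,
      |(((Finset.range L).filter (fun k => ∀ r ∈ P, (A + k) % r ∉ Ω r)).card : ℝ) -
        L * ∏ r ∈ P, (1 - ((Ω r).card : ℝ) / r)| ≤
      K1 * (1 / 2) ^ b * (L * ∏ r ∈ P, (1 - ((Ω r).card : ℝ) / r)) + (z : ℝ) ^ (K1 * b))
    (hB : ∀ z : ℕ, 2 ≤ z → ∃ D : Finset ℕ,
      (∀ d ∈ D, 1 ≤ d ∧ (d : ℝ) ≤ (z : ℝ) ^ (K2 * b)) ∧
      (∀ n : ℕ, 1 ≤ n → (if Rough z n then (1 : ℝ) else 0) ≤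
        ∑ d ∈ D with d ∣ n, (ArithmeticFunction.moebius d : ℝ)) ∧
      ∀ M : ℕ, ∑ n ∈ Finset.Icc 1 M, (∑ d ∈ D with d ∣ n, (ArithmeticFunction.moebius d : ℝ) -
        (if Rough z n then (1 : ℝ) else 0)) ≤ K2 * (1 / 2) ^ b * (M * V z) + (z : ℝ) ^ (K2 * b))
    (g1 : 2 ≤ (M : ℝ) ^ (δ / 2)) (g2 : 2 ≤ (M : ℝ) ^ (1 / 8 : ℝ)) (g3 : 1 ≤ Real.log M)
    (g4 : 16 * (M : ℝ) ^ (15 / 16 : ℝ) ≤ ε / 8 * M / Real.log M)
    (g5 : 4 * Real.log M * (M : ℝ) ^ (1 - δ) ≤ ε / 8 * M / Real.log M)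
    (hM : 1 ≤ M) (θ : ℝ) (hθ : ¬ Major Q M θ) :
    ‖∑ m ∈ (Finset.Icc 1 M).filter (Rough ⌊(M : ℝ) ^ δ⌋₊), e (θ * m)‖ ≤ ε * M / Real.log M := by
  have hM0 : (0 : ℝ) < M := by exact_mod_cast (by omega : 0 < M)
  have hM1 : (1 : ℝ) ≤ M := by exact_mod_cast hM
  have hl : 0 < Real.log M := by linarith
  set x : ℝ := (M : ℝ) with hx
  set z : ℕ := ⌊x ^ δ⌋₊ with hz
  set S : ℝ := x / Real.log x with hS
  have hS0 : 0 < S := by positivity
  have g4' : 16 * x ^ (15 / 16 : ℝ) ≤ ε / 8 * S := by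
    rw [hS]; calc _ ≤ _ := g4
      _ = _ := by ring
  have g5' : 4 * Real.log x * x ^ (1 - δ) ≤ ε / 8 * S := by
    rw [hS]; calc _ ≤ _ := g5
      _ = _ := by ring
  -- size of z
  have hxd : x ^ δ = x ^ (δ / 2) * x ^ (δ / 2) := by
    rw [← Real.rpow_add hM0]; congr 1; ring
  have hxd4 : 4 ≤ x ^ δ := by rw [hxd]; nlinarith
  have hzle : (z : ℝ) ≤ x ^ δ := Nat.floor_le (by positivity)
  have hzge : x ^ δ / 2 ≤ z := by
    have := Nat.lt_floor_add_one (x ^ δ)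
    rw [← hz] at this
    linarith
  have hz2 : 2 ≤ z := by
    have : (2 : ℝ) ≤ z := by linarith
    exact_mod_cast this
  have hzr : (0 : ℝ) < z := by exact_mod_cast (by omega : 0 < z)
  have hz1 : (1 : ℝ) ≤ z := by exact_mod_cast (by omega : 1 ≤ z)
  have hlogz : δ / 2 * Real.log x ≤ Real.log z := by
    rw [← Real.log_rpow hM0]
    apply Real.log_le_log (by positivity)
    refine le_trans ?_ hzge
    rw [hxd]
    nlinarith
  have hVz : V z ≤ 2 / (δ * Real.log x) := by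
    refine (V_le_inv_log z hz2).trans ?_
    rw [div_le_div_iff₀ (lt_of_lt_of_le (by positivity) hlogz) (by positivity)]
    nlinarith
  have hzKb : (z : ℝ) ^ (K * b) ≤ x ^ (1 / 16 : ℝ) := by
    calc (z : ℝ) ^ (K * b) ≤ (x ^ δ) ^ (K * b) := pow_le_pow_left₀ hzr.le hzle _
      _ = x ^ (δ * ((K * b : ℕ) : ℝ)) := by rw [Real.rpow_mul hM0.le, Real.rpow_natCast]
      _ ≤ x ^ (1 / 16 : ℝ) := by
          apply Real.rpow_le_rpow_of_exponent_le hM1
          push_cast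
          linarith
  have hzKb1 : (z : ℝ) ^ (K1 * b) ≤ x ^ (1 / 16 : ℝ) :=
    (pow_le_pow_right₀ hz1 (Nat.mul_le_mul_right b hK1)).trans hzKb
  have hzKb2 : (z : ℝ) ^ (K2 * b) ≤ x ^ (1 / 16 : ℝ) :=
    (pow_le_pow_right₀ hz1 (Nat.mul_le_mul_right b hK2)).trans hzKb
  have hmain : ∀ k : ℕ, k ≤ K → (k : ℝ) * (1 / 2) ^ b * ((x + 1) * V z) ≤ ε / 8 * S := by
    intro k hk
    have h1 : (k : ℝ) ≤ K := by exact_mod_cast hk
    have h2 : (x + 1) * V z ≤ (2 * x) * (2 / (δ * Real.log x)) :=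
      mul_le_mul (by linarith) hVz (V_pos z).le (by positivity)
    calc (k : ℝ) * (1 / 2) ^ b * ((x + 1) * V z)
        ≤ (K : ℝ) * (1 / 2) ^ b * ((2 * x) * (2 / (δ * Real.log x))) := by
          apply mul_le_mul _ h2 _ (by positivity)
          · exact mul_le_mul_of_nonneg_right h1 (by positivity)
          · exact mul_nonneg (by positivity) (V_pos z).le
      _ = (K : ℝ) * (1 / 2) ^ b * (4 / δ) * S := by
          rw [hS]
          field_simp
          ring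
      _ ≤ ε / 8 * S := mul_le_mul_of_nonneg_right hb hS0.le
  -- Dirichlet approximation
  set N : ℕ := ⌊x ^ (7 / 8 : ℝ)⌋₊ with hN
  have hx78 : 1 ≤ x ^ (7 / 8 : ℝ) := Real.one_le_rpow hM1 (by norm_num)
  have hNpos : 0 < N := Nat.floor_pos.mpr hx78
  obtain ⟨r, hr1, hr2⟩ := Real.exists_rat_abs_sub_le_and_den_le θ hNpos
  set q : ℕ := r.den with hq
  set a : ℤ := r.num with ha
  have hq0 : 0 < q := r.den_pos
  have hqr : (0 : ℝ) < q := by exact_mod_cast hq0
  have hq1 : (1 : ℝ) ≤ q := by exact_mod_cast hq0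
  have hrr : ((r : ℚ) : ℝ) = (a : ℝ) / q := by
    rw [ha, hq]
    exact_mod_cast (Rat.num_div_den r).symm
  set β : ℝ := θ - (a : ℝ) / q with hβ
  have hθe : θ = (a : ℝ) / q + β := by rw [hβ]; ring
  have hcop : IsCoprime a (q : ℤ) := by
    rw [Int.isCoprime_iff_gcd_eq_one, Int.gcd, Int.natAbs_natCast]
    exact r.reduced
  have hqx : (q : ℝ) ≤ x ^ (7 / 8 : ℝ) := by
    have h1 : (q : ℝ) ≤ N := by exact_mod_cast hr2
    exact h1.trans (Nat.floor_le (by positivity))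
  have hβle : |β| ≤ 1 / (x ^ (7 / 8 : ℝ) * q) := by
    rw [hβ, ← hrr]
    refine hr1.trans ?_
    apply one_div_le_one_div_of_le (by positivity)
    apply mul_le_mul_of_nonneg_right _ hqr.le
    exact (Nat.lt_floor_add_one _).le
  have e78 : x ^ (1 / 16 : ℝ) * x ^ (7 / 8 : ℝ) = x ^ (15 / 16 : ℝ) := by
    rw [← Real.rpow_add hM0]; norm_num
  have hpow : ∀ s : ℝ, s ≤ 15 / 16 → x ^ s ≤ x ^ (15 / 16 : ℝ) := fun s hs =>
    Real.rpow_le_rpow_of_exponent_le hM1 hs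
  have hp15 : 0 < x ^ (15 / 16 : ℝ) := by positivity
  rw [mul_div_assoc, ← hS]
  by_cases hcase : x ^ (1 / 8 : ℝ) < q
  · -- large denominator
    obtain ⟨D, hD1, hD2, hD3⟩ := hB z hz2
    have hdx : ∀ d ∈ D, (d : ℝ) ≤ x ^ (1 / 16 : ℝ) := fun d hd => (hD1 d hd).2.trans hzKb2
    have h1 : ∀ d ∈ D, d < q := by
      intro d hd
      have h2 : (d : ℝ) < q := by
        refine lt_of_le_of_lt (hdx d hd) (lt_of_le_of_lt ?_ hcase)
        exact Real.rpow_le_rpow_of_exponent_le hM1 (by norm_num)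
      exact_mod_cast h2
    have h2 : ∀ d ∈ D, (d : ℝ) * |β| ≤ 1 / (2 * q) := by
      intro d hd
      calc (d : ℝ) * |β| ≤ x ^ (1 / 16 : ℝ) * (1 / (x ^ (7 / 8 : ℝ) * q)) :=
            mul_le_mul (hdx d hd) hβle (abs_nonneg _) (by positivity)
        _ ≤ 1 / (2 * q) := by
            rw [mul_one_div, div_le_div_iff₀ (by positivity) (by positivity)]
            have h3 : x ^ (1 / 16 : ℝ) * 2 ≤ x ^ (7 / 8 : ℝ) := by
              calc x ^ (1 / 16 : ℝ) * 2 ≤ x ^ (1 / 16 : ℝ) * x ^ (1 / 8 : ℝ) :=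
                    mul_le_mul_of_nonneg_left g2 (by positivity)
                _ = x ^ (3 / 16 : ℝ) := by rw [← Real.rpow_add hM0]; norm_num
                _ ≤ x ^ (7 / 8 : ℝ) := Real.rpow_le_rpow_of_exponent_le hM1 (by norm_num)
            nlinarith
    have h3 := rough_minor K2 b z D hD1 hD2 hD3 M q hq0 a hcop β h1 h2
    rw [← hθe] at h3
    refine h3.trans ?_
    have h4 : (z : ℝ) ^ (K2 * b) * q ≤ x ^ (15 / 16 : ℝ) := by
      rw [← e78]
      exact mul_le_mul hzKb2 hqx hqr.le (by positivity)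
    have h5 : (K2 : ℝ) * (1 / 2) ^ b * (x * V z) ≤ ε / 8 * S := by
      refine le_trans ?_ (hmain K2 hK2)
      apply mul_le_mul_of_nonneg_left _ (by positivity)
      exact mul_le_mul_of_nonneg_right (by linarith) (V_pos z).le
    have h6 : (z : ℝ) ^ (K2 * b) ≤ x ^ (15 / 16 : ℝ) := hzKb2.trans (hpow _ (by norm_num))
    have h7 : 0 < ε * S := by positivity
    linarith
  · -- small denominator
    push Not at hcase
    set L : ℕ := ⌊x ^ (3 / 4 : ℝ) / q⌋₊ with hL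
    have hLle : (L : ℝ) ≤ x ^ (3 / 4 : ℝ) / q := Nat.floor_le (by positivity)
    have h58 : x ^ (5 / 8 : ℝ) ≤ x ^ (3 / 4 : ℝ) / q := by
      rw [le_div_iff₀ hqr]
      calc x ^ (5 / 8 : ℝ) * q ≤ x ^ (5 / 8 : ℝ) * x ^ (1 / 8 : ℝ) :=
            mul_le_mul_of_nonneg_left hcase (by positivity)
        _ = x ^ (3 / 4 : ℝ) := by rw [← Real.rpow_add hM0]; norm_num
    have h58b : 2 ≤ x ^ (5 / 8 : ℝ) :=
      g2.trans (Real.rpow_le_rpow_of_exponent_le hM1 (by norm_num))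
    have hLge : x ^ (5 / 8 : ℝ) / 2 ≤ L := by
      have := Nat.lt_floor_add_one (x ^ (3 / 4 : ℝ) / q)
      rw [← hL] at this
      linarith
    have hL0 : (0 : ℝ) < L := by linarith
    have hLn : 0 < L := by exact_mod_cast hL0
    have hqL : (q : ℝ) * L ≤ x ^ (3 / 4 : ℝ) := by
      rw [mul_comm]
      exact (le_div_iff₀ hqr).mp hLle
    set J : ℕ := (M + 1) / (L * q) with hJ
    have hLq : 0 < L * q := Nat.mul_pos hLn hq0
    have hJ1 : J * L * q ≤ M + 1 := by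
      rw [mul_assoc]
      exact Nat.div_mul_le_self _ _
    have hJ2 : M + 1 ≤ J * L * q + q * L := by
      have h1 := Nat.lt_div_mul_add (a := M + 1) hLq
      rw [← hJ] at h1
      rw [mul_assoc, mul_comm q L]
      exact h1.le
    have hJr : (J : ℝ) * L * q ≤ x + 1 := by
      rw [hx]
      exact_mod_cast hJ1
    have hβqL : |β| * (q * L) ≤ x ^ (-(1 / 8) : ℝ) := by
      calc |β| * (q * L) ≤ 1 / (x ^ (7 / 8 : ℝ) * q) * (q * L) :=
            mul_le_mul_of_nonneg_right hβle (by positivity)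
        _ = L / x ^ (7 / 8 : ℝ) := by field_simp
        _ ≤ x ^ (3 / 4 : ℝ) / x ^ (7 / 8 : ℝ) := by
            apply div_le_div_of_nonneg_right _ (by positivity)
            refine hLle.trans ?_
            exact div_le_self (by positivity) hq1
        _ = x ^ (-(1 / 8) : ℝ) := by rw [← Real.rpow_sub hM0]; norm_num
    -- the geometric sum
    have hgeo : ∃ G : ℝ, ‖∑ j ∈ Finset.range J, e (β * (q * L) * j)‖ ≤ G ∧
        L * Wq z q * G ≤ ε / 8 * S := by
      by_cases hqQ : Q < q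
      · refine ⟨J, ?_, ?_⟩
        · refine (norm_sum_le _ _).trans ?_
          rw [Finset.sum_congr rfl (fun j _ => norm_e _), Finset.sum_const, nsmul_eq_mul, mul_one,
            Finset.card_range]
        · have h1 := Wq_mul_totient_le z q hq0
          have h2 := hQ2 q hqQ
          have h3 : (0 : ℝ) < q.totient := by exact_mod_cast Nat.totient_pos.mpr hq0
          have h4 : Wq z q ≤ q * V z / q.totient := by
            rw [le_div_iff₀ h3]; exact h1
          calc L * Wq z q * J ≤ L * (q * V z / q.totient) * J := by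
                apply mul_le_mul_of_nonneg_right _ (Nat.cast_nonneg J)
                exact mul_le_mul_of_nonneg_left h4 hL0.le
            _ = (J * L * q) * V z / q.totient := by ring
            _ ≤ (2 * x) * (2 / (δ * Real.log x)) / (32 / (δ * ε)) := by
                apply div_le_div₀ (by positivity) _ (by positivity) h2
                exact mul_le_mul (by linarith) hVz (V_pos z).le (by positivity)
            _ = ε / 8 * S := by
                rw [hS]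
                field_simp
                ring
      · push Not at hqQ
        have h1 : (Q : ℝ) / x < |β| := by
          by_contra h2
          push Not at h2
          exact hθ ⟨q, hq0, hqQ, a, h2⟩
        have hQ0 : (0 : ℝ) < Q := lt_of_lt_of_le (by positivity) hQ
        have h2 : 0 < |β| := lt_trans (by positivity) h1
        refine ⟨1 / (2 * (|β| * (q * L))), ?_, ?_⟩
        · apply norm_geom_le _ _ (by positivity)
          intro n
          have h3 : |β * (q * L)| = |β| * (q * L) := by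
            rw [abs_mul, abs_of_pos (by positivity : (0 : ℝ) < q * L)]
          have h4 : |β| * (q * L) ≤ 1 / 2 := by
            refine hβqL.trans ?_
            rw [Real.rpow_neg hM0.le, ← one_div]
            exact one_div_le_one_div_of_le (by norm_num) g2
          by_cases hn : n = 0
          · rw [hn, Int.cast_zero, sub_zero, h3]
          · have h5 : (1 : ℝ) ≤ |(n : ℝ)| := by exact_mod_cast Int.one_le_abs hn
            have h6 : |(n : ℝ)| - |β * (q * L)| ≤ |β * (q * L) - n| := by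
              rw [abs_sub_comm]
              exact abs_sub_abs_le_abs_sub _ _
            rw [h3] at h6
            linarith
        · have h3 : Wq z q ≤ q * V z := Wq_le z q hq0
          have h4 : 0 < Real.log x := hl
          calc L * Wq z q * (1 / (2 * (|β| * (q * L))))
              = Wq z q / (2 * |β| * q) := by field_simp
            _ ≤ (q * V z) / (2 * |β| * q) := div_le_div_of_nonneg_right h3 (by positivity)
            _ = V z / (2 * |β|) := by field_simp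
            _ ≤ (2 / (δ * Real.log x)) / (2 * (Q / x)) := by
                apply div_le_div₀ (by positivity) hVz (by positivity)
                linarith
            _ ≤ (2 / (δ * Real.log x)) / (2 * ((8 / (δ * ε)) / x)) := by
                apply div_le_div_of_nonneg_left (by positivity) (by positivity)
                have := div_le_div_of_nonneg_right hQ hM0.le
                linarith
            _ = ε / 8 * S := by
                rw [hS]
                field_simp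
    obtain ⟨G, hG1, hG2⟩ := hgeo
    have h3 := rough_major K1 b z hz2 (hF z hz2) M q L J hq0 hJ1 hJ2 a hcop β G hG1
    rw [← hθe] at h3
    refine h3.trans ?_
    -- estimate the error terms
    have t1 : (q.primeFactors.card : ℝ) * (x / z) ≤ ε / 8 * S := by
      have h4 := two_pow_card_primeFactors_le q hq0
      have h5 : (2 : ℝ) ^ q.primeFactors.card ≤ x := by
        have h6 : (2 : ℝ) ^ q.primeFactors.card ≤ q := by exact_mod_cast h4
        refine h6.trans (hqx.trans ?_)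
        calc x ^ (7 / 8 : ℝ) ≤ x ^ (1 : ℝ) := Real.rpow_le_rpow_of_exponent_le hM1 (by norm_num)
          _ = x := Real.rpow_one x
      have h6 : (q.primeFactors.card : ℝ) * Real.log 2 ≤ Real.log x := by
        rw [← Real.log_pow]
        exact Real.log_le_log (by positivity) h5
      have h7 : (q.primeFactors.card : ℝ) ≤ 2 * Real.log x := by
        have h8 : (1 : ℝ) / 2 ≤ Real.log 2 := by
          have := Real.log_two_gt_d9
          linarith
        have h9 : (0 : ℝ) ≤ q.primeFactors.card := Nat.cast_nonneg _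
        nlinarith
      have h8 : x / z ≤ 2 * x ^ (1 - δ) := by
        rw [div_le_iff₀ hzr]
        have h9 : x ^ (1 - δ) * x ^ δ = x := by
          rw [← Real.rpow_add hM0]; norm_num
        calc x = x ^ (1 - δ) * x ^ δ := h9.symm
          _ = 2 * x ^ (1 - δ) * (x ^ δ / 2) := by ring
          _ ≤ 2 * x ^ (1 - δ) * z := mul_le_mul_of_nonneg_left hzge (by positivity)
      calc (q.primeFactors.card : ℝ) * (x / z) ≤ 2 * Real.log x * (2 * x ^ (1 - δ)) :=
            mul_le_mul h7 h8 (by positivity) (by positivity)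
        _ = 4 * Real.log x * x ^ (1 - δ) := by ring
        _ ≤ ε / 8 * S := g5'
    have t2 : (q : ℝ) * L ≤ x ^ (15 / 16 : ℝ) := hqL.trans (hpow _ (by norm_num))
    have t3 : (x + 1) * (2 * Real.pi * (|β| * (q * L))) ≤ 14 * x ^ (15 / 16 : ℝ) := by
      have hpi : Real.pi ≤ 3.5 := by
        have := Real.pi_lt_d2
        linarith
      calc (x + 1) * (2 * Real.pi * (|β| * (q * L)))
          ≤ (2 * x) * (2 * 3.5 * x ^ (-(1 / 8) : ℝ)) := by
            apply mul_le_mul (by linarith) _ (by positivity) (by positivity)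
            apply mul_le_mul _ hβqL (by positivity) (by norm_num)
            linarith
        _ = 14 * (x ^ (1 : ℝ) * x ^ (-(1 / 8) : ℝ)) := by rw [Real.rpow_one]; ring
        _ = 14 * x ^ (7 / 8 : ℝ) := by rw [← Real.rpow_add hM0]; norm_num
        _ ≤ _ := by
            apply mul_le_mul_of_nonneg_left (hpow _ (by norm_num)) (by norm_num)
    have t4 := hmain K1 hK1
    have t5 : (J : ℝ) * q * (z : ℝ) ^ (K1 * b) ≤ 4 * x ^ (15 / 16 : ℝ) := by
      have h4 : (J : ℝ) * q ≤ 4 * x ^ (3 / 8 : ℝ) := by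
        have h5 : (J : ℝ) * q * (x ^ (5 / 8 : ℝ) / 2) ≤ 2 * x := by
          calc (J : ℝ) * q * (x ^ (5 / 8 : ℝ) / 2) ≤ J * q * L :=
                mul_le_mul_of_nonneg_left hLge (by positivity)
            _ = J * L * q := by ring
            _ ≤ 2 * x := by linarith
        have h6 : 2 * x = 4 * x ^ (3 / 8 : ℝ) * (x ^ (5 / 8 : ℝ) / 2) := by
          have : x ^ (3 / 8 : ℝ) * x ^ (5 / 8 : ℝ) = x := by
            rw [← Real.rpow_add hM0]; norm_num
          calc 2 * x = 2 * (x ^ (3 / 8 : ℝ) * x ^ (5 / 8 : ℝ)) := by rw [this]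
            _ = _ := by ring
        rw [h6] at h5
        exact le_of_mul_le_mul_right h5 (by positivity)
      calc (J : ℝ) * q * (z : ℝ) ^ (K1 * b) ≤ 4 * x ^ (3 / 8 : ℝ) * x ^ (1 / 16 : ℝ) :=
            mul_le_mul h4 hzKb1 (by positivity) (by positivity)
        _ = 4 * x ^ (7 / 16 : ℝ) := by
            rw [mul_assoc, ← Real.rpow_add hM0]; norm_num
        _ ≤ _ := by
            apply mul_le_mul_of_nonneg_left (hpow _ (by norm_num)) (by norm_num)
    have h7 : 0 < ε * S := by positivity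
    linarith

/-- `rough_exp`, from the statements `fund_lemma` and `brun_weights` of the sieve module -/
theorem rough_exp_of (hfund : ∃ K : ℕ, 1 ≤ K ∧ ∀ b : ℕ, 1 ≤ b → ∀ z : ℕ, 2 ≤ z → ∀ P : Finset ℕ,
    (∀ r ∈ P, r.Prime ∧ r ≤ z) → ∀ Ω : ℕ → Finset ℕ,
    (∀ r ∈ P, (Ω r).card ≤ 2 ∧ (Ω r).card < r ∧ ∀ x ∈ Ω r, x < r) → ∀ A L : ℕ,
    |(((Finset.range L).filter (fun k => ∀ r ∈ P, (A + k) % r ∉ Ω r)).card : ℝ) -
        L * ∏ r ∈ P, (1 - ((Ω r).card : ℝ) / r)| ≤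
      K * (1 / 2) ^ b * (L * ∏ r ∈ P, (1 - ((Ω r).card : ℝ) / r)) + (z : ℝ) ^ (K * b))
    (hbrun : ∃ K : ℕ, 1 ≤ K ∧ ∀ b : ℕ, 1 ≤ b → ∀ z : ℕ, 2 ≤ z → ∃ D : Finset ℕ,
    (∀ d ∈ D, 1 ≤ d ∧ (d : ℝ) ≤ (z : ℝ) ^ (K * b)) ∧
    (∀ n : ℕ, 1 ≤ n → (if Rough z n then (1 : ℝ) else 0) ≤
      ∑ d ∈ D with d ∣ n, (ArithmeticFunction.moebius d : ℝ)) ∧
    ∀ M : ℕ, ∑ n ∈ Finset.Icc 1 M, (∑ d ∈ D with d ∣ n, (ArithmeticFunction.moebius d : ℝ) -
      (if Rough z n then (1 : ℝ) else 0)) ≤ K * (1 / 2) ^ b * (M * V z) + (z : ℝ) ^ (K * b)) :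
    ∀ ε : ℝ, 0 < ε → ∃ δ₀ : ℝ, 0 < δ₀ ∧ ∀ δ : ℝ, 0 < δ → δ ≤ δ₀ →
    ∃ Q M₀ : ℕ, ∀ M : ℕ, M₀ ≤ M → ∀ θ : ℝ, ¬ Major Q M θ →
      ‖∑ m ∈ (Finset.Icc 1 M).filter (Rough ⌊(M : ℝ) ^ δ⌋₊), e (θ * m)‖ ≤ ε * M / Real.log M := by
  intro ε hε
  obtain ⟨K1, hK1, hF⟩ := hfund
  obtain ⟨K2, hK2, hB⟩ := hbrun
  set K : ℕ := max K1 K2 with hK
  have hK1K : K1 ≤ K := le_max_left _ _
  have hK2K : K2 ≤ K := le_max_right _ _
  have hKpos : 0 < K := by omega
  have hKr : (0 : ℝ) < K := by exact_mod_cast hKpos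
  obtain ⟨b₀, hb₀⟩ := exists_half_pow_small (ε / (512 * K ^ 2)) (by positivity)
  refine ⟨1 / (16 * K * (b₀ + 1)), by positivity, fun δ hδ hδ0 => ?_⟩
  set b : ℕ := ⌊1 / (16 * K * δ)⌋₊ with hb
  have h1 : (b₀ : ℝ) + 1 ≤ 1 / (16 * K * δ) := by
    rw [le_div_iff₀ (by positivity)]
    rw [le_div_iff₀ (by positivity)] at hδ0
    nlinarith
  have h2 : b₀ + 1 ≤ b := by
    apply Nat.le_floor
    push_cast
    exact h1
  have h3 : (b : ℝ) ≤ 1 / (16 * K * δ) := Nat.floor_le (by positivity)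
  have h4 : 1 / (16 * K * δ) < b + 1 := Nat.lt_floor_add_one _
  have hKb : (K : ℝ) * b * δ ≤ 1 / 16 := by
    rw [le_div_iff₀ (by positivity)] at h3
    linarith
  have h5 : 1 / δ ≤ 16 * K * (b + 1) := by
    rw [div_lt_iff₀ (by positivity)] at h4
    rw [div_le_iff₀ hδ]
    nlinarith
  have hb2 : (K : ℝ) * (1 / 2) ^ b * (4 / δ) ≤ ε / 8 := by
    have h6 := hb₀ b (by omega)
    have h7 : 4 / δ ≤ 64 * K * (b + 1) := by
      calc 4 / δ = 4 * (1 / δ) := by ring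
        _ ≤ 4 * (16 * K * (b + 1)) := by linarith
        _ = _ := by ring
    calc (K : ℝ) * (1 / 2) ^ b * (4 / δ) ≤ (K : ℝ) * (1 / 2) ^ b * (64 * K * (b + 1)) :=
          mul_le_mul_of_nonneg_left h7 (by positivity)
      _ = 64 * K ^ 2 * (((b : ℝ) + 1) * (1 / 2) ^ b) := by ring
      _ ≤ 64 * K ^ 2 * (ε / (512 * K ^ 2)) := mul_le_mul_of_nonneg_left h6 (by positivity)
      _ = ε / 8 := by field_simp; norm_num
  obtain ⟨Q1, hQ1⟩ := exists_nat_ge (8 / (δ * ε))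
  obtain ⟨Q2, hQ2⟩ := exists_totient_ge (32 / (δ * ε))
  obtain ⟨M₀, hM₀⟩ := rough_large ε δ hε hδ
  refine ⟨max Q1 Q2, max M₀ 1, fun M hM θ hθ => ?_⟩
  obtain ⟨g1, g2, g3, g4, g5⟩ := hM₀ M ((le_max_left _ _).trans hM)
  have hbpos : 1 ≤ b := by omega
  refine rough_exp_aux ε δ hε hδ K1 K2 K b (max Q1 Q2) M hK1K hK2K hKb hb2 ?_ ?_
    (fun z hz => hF b hbpos z hz) (fun z hz => hB b hbpos z hz) g1 g2 g3 g4 g5
    ((le_max_right _ _).trans hM) θ hθ
  · refine hQ1.trans ?_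
    exact_mod_cast le_max_left _ _
  · intro q hq
    exact hQ2 q (lt_of_le_of_lt (le_max_right _ _) hq)

end Pool.Agent.Lib.GT.RE
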