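import Pool.Agent.Lib.MP_7b7e48_nt.GT.RoughMinor

/-!
# Rough exponential sums near a rational with a small denominator
-/

set_option autoImplicit false

open Finset

namespace Pool.Agent.Lib.GT.RE

theorem sum_range_mul_eq {α : Type*} [AddCommMonoid α] (n q : ℕ) (f : ℕ → α) :
    ∑ m ∈ Finset.range (n * q), f m = ∑ i ∈ Finset.range n, ∑ c ∈ Finset.range q, f (q * i + c) := by
  induction n with
  | zero => simp
  | succ n ih =>
    rw [Nat.succ_mul, Finset.sum_range_add, ih, Finset.sum_range_succ]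
    congr 1
    refine Finset.sum_congr rfl fun c _ => ?_
    rw [mul_comm n q]

/-- the count of rough numbers in a class coprime to `q` -/
theorem rough_class (K b z : ℕ)
    (hF : ∀ P : Finset ℕ, (∀ r ∈ P, r.Prime ∧ r ≤ z) → ∀ Ω : ℕ → Finset ℕ,
      (∀ r ∈ P, (Ω r).card ≤ 2 ∧ (Ω r).card < r ∧ ∀ x ∈ Ω r, x < r) → ∀ A L : ℕ,
      |(((Finset.range L).filter (fun k => ∀ r ∈ P, (A + k) % r ∉ Ω r)).card : ℝ) -
        L * ∏ r ∈ P, (1 - ((Ω r).card : ℝ) / r)| ≤
      K * (1 / 2) ^ b * (L * ∏ r ∈ P, (1 - ((Ω r).card : ℝ) / r)) + (z : ℝ) ^ (K * b))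
    (q c : ℕ) (hc : Nat.Coprime c q) (s L : ℕ) :
    |(((Finset.range L).filter (fun k => Rough z (q * (s + k) + c))).card : ℝ) - L * Wq z q| ≤
      K * (1 / 2) ^ b * (L * Wq z q) + (z : ℝ) ^ (K * b) := by
  set P : Finset ℕ := (pr z).filter (fun p => ¬ p ∣ q) with hP
  have hPp : ∀ r ∈ P, r.Prime ∧ r ≤ z := by
    intro r hr
    rw [hP, Finset.mem_filter, pr_mem] at hr
    exact ⟨hr.1.2, hr.1.1⟩
  have hx : ∀ r : ℕ, ∃ x : ℕ, r ∈ P → x < r ∧ r ∣ q * x + c := by
    intro r
    by_cases hr : r ∈ P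
    · have hrp := (hPp r hr).1
      have hrq : ¬ r ∣ q := (Finset.mem_filter.mp hr).2
      have hcop : Nat.Coprime q r := ((Nat.Prime.coprime_iff_not_dvd hrp).mpr hrq).symm
      -- inverse of q modulo r
      have : Fact r.Prime := ⟨hrp⟩
      have hq0 : (q : ZMod r) ≠ 0 := by
        intro h
        exact hrq ((ZMod.natCast_eq_zero_iff q r).mp h)
      refine ⟨((-(c : ZMod r)) * (q : ZMod r)⁻¹).val, fun _ => ⟨ZMod.val_lt _, ?_⟩⟩
      rw [← ZMod.natCast_eq_zero_iff]
      push_cast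
      rw [ZMod.natCast_zmod_val]
      field_simp
      ring
    · exact ⟨0, fun h => absurd h hr⟩
  choose x hx using hx
  have h1 := hF P hPp (fun r => {x r}) (fun r hr => by
    refine ⟨by simp, by simpa using (hPp r hr).1.one_lt, ?_⟩
    intro y hy
    rw [Finset.mem_singleton] at hy
    rw [hy]
    exact (hx r hr).1) s L
  have h2 : ∏ r ∈ P, (1 - ((({x r} : Finset ℕ)).card : ℝ) / r) = Wq z q := by
    unfold Wq
    refine Finset.prod_congr rfl fun r _ => ?_
    simp
  rw [h2] at h1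
  have h3 : (Finset.range L).filter (fun k => ∀ r ∈ P, (s + k) % r ∉ ({x r} : Finset ℕ)) =
      (Finset.range L).filter (fun k => Rough z (q * (s + k) + c)) := by
    apply Finset.filter_congr
    intro k _
    rw [rough_iff]
    have key : ∀ r ∈ P, ((s + k) % r = x r ↔ r ∣ q * (s + k) + c) := by
      intro r hr
      have hrp := (hPp r hr).1
      have hrq : ¬ r ∣ q := (Finset.mem_filter.mp hr).2
      have hcop : Nat.Coprime r q := (Nat.Prime.coprime_iff_not_dvd hrp).mpr hrq
      obtain ⟨h4, h5⟩ := hx r hr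
      constructor
      · intro h6
        have h7 : q * (s + k) + c ≡ q * x r + c [MOD r] := by
          apply Nat.ModEq.add_right
          apply Nat.ModEq.mul_left
          unfold Nat.ModEq
          rw [h6, Nat.mod_eq_of_lt h4]
        exact (Nat.ModEq.dvd_iff h7 dvd_rfl).mpr h5
      · intro h6
        have h7 : q * (s + k) + c ≡ q * x r + c [MOD r] := by
          rw [Nat.ModEq, Nat.mod_eq_zero_of_dvd h6, Nat.mod_eq_zero_of_dvd h5]
        have h8 : q * (s + k) ≡ q * x r [MOD r] := Nat.ModEq.add_right_cancel' c h7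
        have h9 : s + k ≡ x r [MOD r] := Nat.ModEq.cancel_left_of_coprime hcop h8
        rw [Nat.ModEq, Nat.mod_eq_of_lt h4] at h9
        exact h9
    constructor
    · intro h p hp hd
      by_cases hpq : p ∣ q
      · have h4 : p ∣ c := (Nat.dvd_add_right (Dvd.dvd.mul_right hpq (s + k))).mp hd
        have h5 : p ∣ Nat.gcd c q := Nat.dvd_gcd h4 hpq
        rw [hc] at h5
        exact (pr_mem.mp hp).2.one_lt.ne' (Nat.dvd_one.mp h5)
      · have hpP : p ∈ P := Finset.mem_filter.mpr ⟨hp, hpq⟩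
        exact h p hpP (Finset.mem_singleton.mpr ((key p hpP).mpr hd))
    · intro h r hr h4
      rw [Finset.mem_singleton] at h4
      exact h r (Finset.mem_filter.mp hr).1 ((key r hr).mp h4)
  rw [h3] at h1
  exact h1

theorem not_rough_zero (z : ℕ) (hz : 2 ≤ z) : ¬ Rough z 0 := by
  intro h
  have := h 2 Nat.prime_two (dvd_zero 2)
  omega

/-- rough numbers having a common factor with `q` are few -/
theorem card_rough_not_coprime_le (z M q : ℕ) (hz : 2 ≤ z) (hq : 0 < q) :
    (((Finset.range (M + 1)).filter (fun m => Rough z m ∧ ¬ Nat.Coprime m q)).card : ℝ) ≤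
      q.primeFactors.card * ((M : ℝ) / z) := by
  have h1 : (Finset.range (M + 1)).filter (fun m => Rough z m ∧ ¬ Nat.Coprime m q) ⊆
      q.primeFactors.biUnion (fun p => if z < p then (Finset.Ioc 0 M).filter (fun m => p ∣ m)
        else ∅) := by
    intro m hm
    rw [Finset.mem_filter, Finset.mem_range] at hm
    obtain ⟨hmM, hr, hnc⟩ := hm
    obtain ⟨p, hp, hpm, hpq⟩ := Nat.Prime.not_coprime_iff_dvd.mp hnc
    rw [Finset.mem_biUnion]
    refine ⟨p, Nat.mem_primeFactors.mpr ⟨hp, hpq, hq.ne'⟩, ?_⟩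
    rw [if_pos (hr p hp hpm), Finset.mem_filter, Finset.mem_Ioc]
    refine ⟨⟨?_, by omega⟩, hpm⟩
    rcases Nat.eq_zero_or_pos m with h | h
    · rw [h] at hr
      exact absurd hr (not_rough_zero z hz)
    · exact h
  have h2 := (Finset.card_le_card h1).trans Finset.card_biUnion_le
  have h3 : ∀ p ∈ q.primeFactors, (((if z < p then (Finset.Ioc 0 M).filter (fun m => p ∣ m)
        else ∅ : Finset ℕ)).card : ℝ) ≤ (M : ℝ) / z := by
    intro p _
    split_ifs with h
    · rw [Nat.Ioc_filter_dvd_card_eq_div]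
      refine Nat.cast_div_le.trans ?_
      apply div_le_div_of_nonneg_left (by positivity) (by exact_mod_cast (by omega : 0 < z))
      exact_mod_cast h.le
    · simp
      positivity
  calc (((Finset.range (M + 1)).filter (fun m => Rough z m ∧ ¬ Nat.Coprime m q)).card : ℝ)
      ≤ ((∑ p ∈ q.primeFactors, (if z < p then (Finset.Ioc 0 M).filter (fun m => p ∣ m)
        else ∅ : Finset ℕ).card : ℕ) : ℝ) := by exact_mod_cast h2
    _ = ∑ p ∈ q.primeFactors, (((if z < p then (Finset.Ioc 0 M).filter (fun m => p ∣ m)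
        else ∅ : Finset ℕ)).card : ℝ) := by push_cast; rfl
    _ ≤ ∑ _p ∈ q.primeFactors, (M : ℝ) / z := Finset.sum_le_sum h3
    _ = _ := by rw [Finset.sum_const, nsmul_eq_mul]

theorem coprime_class (q s c : ℕ) : Nat.Coprime (q * s + c) q ↔ Nat.Coprime c q := by
  unfold Nat.Coprime
  rw [Nat.gcd_comm, Nat.gcd_mul_left_add_right, Nat.gcd_comm]

/-- the sum over one block and one class -/
theorem rough_cell (K b z : ℕ)
    (hF : ∀ P : Finset ℕ, (∀ r ∈ P, r.Prime ∧ r ≤ z) → ∀ Ω : ℕ → Finset ℕ,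
      (∀ r ∈ P, (Ω r).card ≤ 2 ∧ (Ω r).card < r ∧ ∀ x ∈ Ω r, x < r) → ∀ A L : ℕ,
      |(((Finset.range L).filter (fun k => ∀ r ∈ P, (A + k) % r ∉ Ω r)).card : ℝ) -
        L * ∏ r ∈ P, (1 - ((Ω r).card : ℝ) / r)| ≤
      K * (1 / 2) ^ b * (L * ∏ r ∈ P, (1 - ((Ω r).card : ℝ) / r)) + (z : ℝ) ^ (K * b))
    (q c : ℕ) (hq : 0 < q) (hcq : c < q) (hc : Nat.Coprime c q) (L j : ℕ) (a : ℤ) (β : ℝ) :
    ‖∑ k ∈ Finset.range L, (if Rough z (q * (L * j + k) + c) then
        e (((a : ℝ) / q + β) * ((q * (L * j + k) + c : ℕ) : ℝ)) else 0) -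
      e ((a : ℝ) / q * c) * e (β * (q * L) * j) * (L * Wq z q : ℝ)‖ ≤
      (K * (1 / 2) ^ b * (L * Wq z q) + (z : ℝ) ^ (K * b)) +
        L * (2 * Real.pi * (|β| * (q * L))) := by
  have hqr : (0 : ℝ) < q := by exact_mod_cast hq
  set N : ℕ := ((Finset.range L).filter (fun k => Rough z (q * (L * j + k) + c))).card with hN
  have h1 := rough_class K b z hF q c hc (L * j) L
  set u : ℂ := e ((a : ℝ) / q * c) * e (β * (q * L) * j) with hu
  have hu1 : ‖u‖ = 1 := by rw [hu, norm_mul, norm_e, norm_e, one_mul]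
  have h2 : ∀ k : ℕ, e (((a : ℝ) / q + β) * ((q * (L * j + k) + c : ℕ) : ℝ)) =
      u * e (β * (q * k + c)) := by
    intro k
    have h3 : ((a : ℝ) / q + β) * ((q * (L * j + k) + c : ℕ) : ℝ) =
        ((a : ℝ) / q * c + β * (q * L) * j + β * (q * k + c)) + ((a * (L * j + k) : ℤ) : ℝ) := by
      push_cast
      field_simp
      ring
    rw [h3, e_add_int, e_add, e_add, hu]
  have h3 : ∑ k ∈ Finset.range L, (if Rough z (q * (L * j + k) + c) then
        e (((a : ℝ) / q + β) * ((q * (L * j + k) + c : ℕ) : ℝ)) else 0) =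
      u * N + ∑ k ∈ (Finset.range L).filter (fun k => Rough z (q * (L * j + k) + c)),
        u * (e (β * (q * k + c)) - 1) := by
    rw [← Finset.sum_filter, hN]
    rw [show u * ((((Finset.range L).filter (fun k => Rough z (q * (L * j + k) + c))).card : ℕ) : ℂ) =
      ∑ _k ∈ (Finset.range L).filter (fun k => Rough z (q * (L * j + k) + c)), u by
        rw [Finset.sum_const, nsmul_eq_mul, mul_comm]]
    rw [← Finset.sum_add_distrib]
    refine Finset.sum_congr rfl fun k _ => ?_
    rw [h2]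
    ring
  have h4 : ∀ k ∈ (Finset.range L).filter (fun k => Rough z (q * (L * j + k) + c)),
      ‖u * (e (β * (q * k + c)) - 1)‖ ≤ 2 * Real.pi * (|β| * (q * L)) := by
    intro k hk
    rw [Finset.mem_filter, Finset.mem_range] at hk
    rw [norm_mul, hu1, one_mul]
    refine (norm_e_sub_one_le _).trans ?_
    rw [abs_mul]
    have h5 : |((q : ℝ) * k + c)| ≤ q * L := by
      rw [abs_of_nonneg (by positivity)]
      have h6 : q * k + c ≤ q * L := by
        have h7 : k + 1 ≤ L := hk.1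
        calc q * k + c ≤ q * k + q := by omega
          _ = q * (k + 1) := by ring
          _ ≤ q * L := Nat.mul_le_mul_left q h7
      exact_mod_cast h6
    have h6 : 0 ≤ 2 * Real.pi := by positivity
    apply mul_le_mul_of_nonneg_left _ h6
    exact mul_le_mul_of_nonneg_left h5 (abs_nonneg _)
  have h5 : ‖∑ k ∈ (Finset.range L).filter (fun k => Rough z (q * (L * j + k) + c)),
        u * (e (β * (q * k + c)) - 1)‖ ≤ L * (2 * Real.pi * (|β| * (q * L))) := by
    refine (norm_sum_le _ _).trans ((Finset.sum_le_sum h4).trans ?_)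
    rw [Finset.sum_const, nsmul_eq_mul]
    apply mul_le_mul_of_nonneg_right
    · have := Finset.card_filter_le (Finset.range L) (fun k => Rough z (q * (L * j + k) + c))
      rw [Finset.card_range] at this
      exact_mod_cast this
    · positivity
  have h6 : ‖u * (N : ℂ) - u * ((L * Wq z q : ℝ) : ℂ)‖ ≤
      K * (1 / 2) ^ b * (L * Wq z q) + (z : ℝ) ^ (K * b) := by
    rw [← mul_sub, norm_mul, hu1, one_mul]
    have : ((N : ℂ) - ((L * Wq z q : ℝ) : ℂ)) = (((N : ℝ) - L * Wq z q : ℝ) : ℂ) := by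
      push_cast
      ring
    rw [this, Complex.norm_real, Real.norm_eq_abs]
    exact h1
  rw [h3]
  calc ‖u * (N : ℂ) + ∑ k ∈ (Finset.range L).filter (fun k => Rough z (q * (L * j + k) + c)),
        u * (e (β * (q * k + c)) - 1) - u * ((L * Wq z q : ℝ) : ℂ)‖
      = ‖(u * (N : ℂ) - u * ((L * Wq z q : ℝ) : ℂ)) +
        ∑ k ∈ (Finset.range L).filter (fun k => Rough z (q * (L * j + k) + c)),
        u * (e (β * (q * k + c)) - 1)‖ := by
        congr 1
        ring
    _ ≤ _ := (norm_add_le _ _).trans (add_le_add h6 h5)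

/-- the sum up to `M` near `a/q` -/
theorem rough_major (K b z : ℕ) (hz : 2 ≤ z)
    (hF : ∀ P : Finset ℕ, (∀ r ∈ P, r.Prime ∧ r ≤ z) → ∀ Ω : ℕ → Finset ℕ,
      (∀ r ∈ P, (Ω r).card ≤ 2 ∧ (Ω r).card < r ∧ ∀ x ∈ Ω r, x < r) → ∀ A L : ℕ,
      |(((Finset.range L).filter (fun k => ∀ r ∈ P, (A + k) % r ∉ Ω r)).card : ℝ) -
        L * ∏ r ∈ P, (1 - ((Ω r).card : ℝ) / r)| ≤
      K * (1 / 2) ^ b * (L * ∏ r ∈ P, (1 - ((Ω r).card : ℝ) / r)) + (z : ℝ) ^ (K * b))
    (M q L J : ℕ) (hq : 0 < q) (hJ : J * L * q ≤ M + 1) (hJ2 : M + 1 ≤ J * L * q + q * L)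
    (a : ℤ) (ha : IsCoprime a q) (β G : ℝ)
    (hG : ‖∑ j ∈ Finset.range J, e (β * (q * L) * j)‖ ≤ G) :
    ‖∑ m ∈ (Finset.Icc 1 M).filter (Rough z), e (((a : ℝ) / q + β) * m)‖ ≤
      q.primeFactors.card * ((M : ℝ) / z) + q * L + (M + 1) * (2 * Real.pi * (|β| * (q * L))) +
      K * (1 / 2) ^ b * ((M + 1) * V z) + J * q * (z : ℝ) ^ (K * b) + L * Wq z q * G := by
  have hqr : (0 : ℝ) < q := by exact_mod_cast hq
  set θ : ℝ := (a : ℝ) / q + β with hθ
  set f1 : ℕ → ℂ := fun m => if Rough z m ∧ Nat.Coprime m q then e (θ * m) else 0 with hf1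
  set f2 : ℕ → ℂ := fun m => if Rough z m ∧ ¬ Nat.Coprime m q then e (θ * m) else 0 with hf2
  have h1 : ∑ m ∈ (Finset.Icc 1 M).filter (Rough z), e (θ * m) =
      ∑ m ∈ Finset.range (M + 1), f1 m + ∑ m ∈ Finset.range (M + 1), f2 m := by
    rw [← Finset.sum_add_distrib]
    have h2 : (Finset.Icc 1 M).filter (Rough z) = (Finset.range (M + 1)).filter (Rough z) := by
      ext m
      rw [Finset.mem_filter, Finset.mem_filter, Finset.mem_Icc, Finset.mem_range]
      constructor
      · rintro ⟨⟨_, h3⟩, h4⟩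
        exact ⟨by omega, h4⟩
      · rintro ⟨h3, h4⟩
        refine ⟨⟨?_, by omega⟩, h4⟩
        rcases Nat.eq_zero_or_pos m with h | h
        · rw [h] at h4
          exact absurd h4 (not_rough_zero z hz)
        · exact h
    rw [h2, Finset.sum_filter]
    refine Finset.sum_congr rfl fun m _ => ?_
    rw [hf1, hf2]
    by_cases h3 : Rough z m
    · by_cases h4 : Nat.Coprime m q
      · simp [h3, h4]
      · simp [h3, h4]
    · simp [h3]
  -- the part with a common factor
  have h2 : ‖∑ m ∈ Finset.range (M + 1), f2 m‖ ≤ q.primeFactors.card * ((M : ℝ) / z) := by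
    refine le_trans ?_ (card_rough_not_coprime_le z M q hz hq)
    rw [hf2, ← Finset.sum_filter]
    refine (norm_sum_le _ _).trans ?_
    rw [Finset.sum_congr rfl (fun m _ => norm_e _), Finset.sum_const, nsmul_eq_mul, mul_one]
  -- split off the last incomplete block
  obtain ⟨R, hR⟩ : ∃ R, M + 1 = J * L * q + R := ⟨M + 1 - J * L * q, by omega⟩
  have hRle : R ≤ q * L := by omega
  have h3 : ∑ m ∈ Finset.range (M + 1), f1 m = ∑ m ∈ Finset.range (J * L * q), f1 m +
      ∑ m ∈ Finset.range R, f1 (J * L * q + m) := by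
    rw [hR, Finset.sum_range_add]
  have hf1n : ∀ m, ‖f1 m‖ ≤ 1 := by
    intro m
    rw [hf1]
    beta_reduce
    split_ifs
    · rw [norm_e]
    · rw [norm_zero]; norm_num
  have h4 : ‖∑ m ∈ Finset.range R, f1 (J * L * q + m)‖ ≤ q * L := by
    refine (norm_sum_le _ _).trans ((Finset.sum_le_sum fun m _ => hf1n _).trans ?_)
    rw [Finset.sum_const, nsmul_eq_mul, mul_one, Finset.card_range]
    exact_mod_cast hRle
  -- the cells
  set C : Finset ℕ := (Finset.range q).filter (fun c => Nat.Coprime c q) with hC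
  have h5 : ∑ m ∈ Finset.range (J * L * q), f1 m =
      ∑ j ∈ Finset.range J, ∑ c ∈ C, ∑ k ∈ Finset.range L,
        (if Rough z (q * (L * j + k) + c) then e (θ * ((q * (L * j + k) + c : ℕ) : ℝ)) else 0) := by
    rw [sum_range_mul_eq, sum_range_mul_eq]
    refine Finset.sum_congr rfl fun j _ => ?_
    rw [Finset.sum_comm, hC, Finset.sum_filter]
    refine Finset.sum_congr rfl fun c _ => ?_
    by_cases hc : Nat.Coprime c q
    · rw [if_pos hc]
      refine Finset.sum_congr rfl fun k _ => ?_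
      rw [hf1]
      exact if_congr ⟨fun h => h.1, fun h => ⟨h, (coprime_class q (L * j + k) c).mpr hc⟩⟩ rfl rfl
    · rw [if_neg hc]
      apply Finset.sum_eq_zero
      intro k _
      rw [hf1]
      beta_reduce
      rw [if_neg]
      rintro ⟨_, h⟩
      exact hc ((coprime_class q (L * j + k) c).mp h)
  set E : ℝ := (K * (1 / 2) ^ b * (L * Wq z q) + (z : ℝ) ^ (K * b)) +
        L * (2 * Real.pi * (|β| * (q * L))) with hE
  have hcell : ∀ j : ℕ, ∀ c ∈ C, ‖∑ k ∈ Finset.range L, (if Rough z (q * (L * j + k) + c) then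
        e (θ * ((q * (L * j + k) + c : ℕ) : ℝ)) else 0) -
      e ((a : ℝ) / q * c) * e (β * (q * L) * j) * (L * Wq z q : ℝ)‖ ≤ E := by
    intro j c hc
    rw [hC, Finset.mem_filter, Finset.mem_range] at hc
    exact rough_cell K b z hF q c hq hc.1 hc.2 L j a β
  have hmain : ∑ j ∈ Finset.range J, ∑ c ∈ C,
      e ((a : ℝ) / q * c) * e (β * (q * L) * j) * ((L * Wq z q : ℝ) : ℂ) =
      (∑ c ∈ C, e ((a : ℝ) / q * c)) * (∑ j ∈ Finset.range J, e (β * (q * L) * j)) *
        ((L * Wq z q : ℝ) : ℂ) := by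
    rw [Finset.sum_mul_sum, Finset.sum_comm, Finset.sum_mul]
    refine Finset.sum_congr rfl fun c _ => ?_
    rw [Finset.sum_mul]
  have h6 : ‖∑ m ∈ Finset.range (J * L * q), f1 m‖ ≤ J * (q.totient * E) + L * Wq z q * G := by
    have h7 : ∑ m ∈ Finset.range (J * L * q), f1 m =
        ∑ j ∈ Finset.range J, ∑ c ∈ C, (∑ k ∈ Finset.range L,
          (if Rough z (q * (L * j + k) + c) then e (θ * ((q * (L * j + k) + c : ℕ) : ℝ)) else 0) -
          e ((a : ℝ) / q * c) * e (β * (q * L) * j) * ((L * Wq z q : ℝ) : ℂ)) +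
        ∑ j ∈ Finset.range J, ∑ c ∈ C,
          e ((a : ℝ) / q * c) * e (β * (q * L) * j) * ((L * Wq z q : ℝ) : ℂ) := by
      rw [h5, ← Finset.sum_add_distrib]
      refine Finset.sum_congr rfl fun j _ => ?_
      rw [← Finset.sum_add_distrib]
      refine Finset.sum_congr rfl fun c _ => ?_
      ring
    rw [h7]
    refine (norm_add_le _ _).trans (add_le_add ?_ ?_)
    · refine (norm_sum_le _ _).trans ?_
      have h8 : ∀ j ∈ Finset.range J, ‖∑ c ∈ C, (∑ k ∈ Finset.range L,
          (if Rough z (q * (L * j + k) + c) then e (θ * ((q * (L * j + k) + c : ℕ) : ℝ)) else 0) -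
          e ((a : ℝ) / q * c) * e (β * (q * L) * j) * ((L * Wq z q : ℝ) : ℂ))‖ ≤ q.totient * E := by
        intro j _
        refine (norm_sum_le _ _).trans ((Finset.sum_le_sum (hcell j)).trans ?_)
        rw [Finset.sum_const, nsmul_eq_mul]
        have : C.card = q.totient := by
          rw [hC, Nat.totient_eq_card_coprime]
          congr 1
          apply Finset.filter_congr
          intro c _
          exact Nat.coprime_comm
        rw [this]
      refine (Finset.sum_le_sum h8).trans ?_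
      rw [Finset.sum_const, nsmul_eq_mul, Finset.card_range]
    · rw [hmain, norm_mul, norm_mul, Complex.norm_real, Real.norm_eq_abs,
        abs_of_nonneg (mul_nonneg (Nat.cast_nonneg L) (Wq_pos z q).le)]
      have h8 := norm_ramanujan_le q hq a ha
      have h9 : 0 ≤ (L : ℝ) * Wq z q := mul_nonneg (Nat.cast_nonneg L) (Wq_pos z q).le
      have h10 : ‖∑ c ∈ C, e ((a : ℝ) / q * c)‖ * ‖∑ j ∈ Finset.range J, e (β * (q * L) * j)‖ ≤
          1 * G := mul_le_mul h8 hG (norm_nonneg _) (by norm_num)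
      rw [one_mul] at h10
      calc _ ≤ G * (L * Wq z q) := mul_le_mul_of_nonneg_right h10 h9
        _ = _ := by ring
  -- the error terms
  have h7 : J * (q.totient * E) ≤ (M + 1) * (2 * Real.pi * (|β| * (q * L))) +
      K * (1 / 2) ^ b * ((M + 1) * V z) + J * q * (z : ℝ) ^ (K * b) := by
    have hW := Wq_mul_totient_le z q hq
    have htot : (q.totient : ℝ) ≤ q := by exact_mod_cast Nat.totient_le q
    have hJr : (J : ℝ) * L * q ≤ M + 1 := by exact_mod_cast hJ
    have hK : 0 ≤ (K : ℝ) * (1 / 2) ^ b := by positivity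
    have hVp := V_pos z
    have e1 : (J : ℝ) * (q.totient * (K * (1 / 2) ^ b * (L * Wq z q))) ≤
        K * (1 / 2) ^ b * ((M + 1) * V z) := by
      calc (J : ℝ) * (q.totient * (K * (1 / 2) ^ b * (L * Wq z q)))
          = K * (1 / 2) ^ b * ((J * L) * (Wq z q * q.totient)) := by ring
        _ ≤ K * (1 / 2) ^ b * ((J * L) * (q * V z)) := by
            apply mul_le_mul_of_nonneg_left _ hK
            exact mul_le_mul_of_nonneg_left hW (by positivity)
        _ = K * (1 / 2) ^ b * ((J * L * q) * V z) := by ring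
        _ ≤ K * (1 / 2) ^ b * ((M + 1) * V z) := by
            apply mul_le_mul_of_nonneg_left _ hK
            exact mul_le_mul_of_nonneg_right hJr hVp.le
    have e2 : (J : ℝ) * (q.totient * (z : ℝ) ^ (K * b)) ≤ J * q * (z : ℝ) ^ (K * b) := by
      rw [mul_assoc]
      apply mul_le_mul_of_nonneg_left _ (Nat.cast_nonneg J)
      exact mul_le_mul_of_nonneg_right htot (by positivity)
    have e3 : (J : ℝ) * (q.totient * (L * (2 * Real.pi * (|β| * (q * L))))) ≤
        (M + 1) * (2 * Real.pi * (|β| * (q * L))) := by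
      have h8 : 0 ≤ 2 * Real.pi * (|β| * (q * L)) := by positivity
      calc (J : ℝ) * (q.totient * (L * (2 * Real.pi * (|β| * (q * L)))))
          = (J * L * q.totient) * (2 * Real.pi * (|β| * (q * L))) := by ring
        _ ≤ (J * L * q) * (2 * Real.pi * (|β| * (q * L))) := by
            apply mul_le_mul_of_nonneg_right _ h8
            exact mul_le_mul_of_nonneg_left htot (by positivity)
        _ ≤ _ := mul_le_mul_of_nonneg_right hJr h8
    have e4 : J * (q.totient * E) = (J : ℝ) * (q.totient * (K * (1 / 2) ^ b * (L * Wq z q))) +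
        (J : ℝ) * (q.totient * (z : ℝ) ^ (K * b)) +
        (J : ℝ) * (q.totient * (L * (2 * Real.pi * (|β| * (q * L))))) := by
      rw [hE]
      ring
    rw [e4]
    linarith
  rw [h1, h3]
  calc ‖∑ m ∈ Finset.range (J * L * q), f1 m + ∑ m ∈ Finset.range R, f1 (J * L * q + m) +
        ∑ m ∈ Finset.range (M + 1), f2 m‖
      ≤ ‖∑ m ∈ Finset.range (J * L * q), f1 m‖ + ‖∑ m ∈ Finset.range R, f1 (J * L * q + m)‖ +
        ‖∑ m ∈ Finset.range (M + 1), f2 m‖ := norm_add₃_le
    _ ≤ _ := by linarith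

end Pool.Agent.Lib.GT.RE
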