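import Pool.Agent.Lib.MP_7b7e48_nt.GT.ExpTools
import Pool.Agent.Lib.MP_7b7e48_nt.GT.DensityTools

/-!
# Rough exponential sums at points with a large denominator
-/

set_option autoImplicit false

open Finset

namespace Pool.Agent.Lib.GT.RE

theorem dist_int_ge (q : ℕ) (hq : 0 < q) (a : ℤ) (ha : ¬ (q : ℤ) ∣ a) (n : ℤ) :
    1 / (q : ℝ) ≤ |(a : ℝ) / q - n| := by
  have h2 : a - n * q ≠ 0 := by
    intro h4
    exact ha ⟨n, by linarith⟩
  have h5 : (1 : ℝ) ≤ |((a - n * q : ℤ) : ℝ)| := by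
    exact_mod_cast Int.one_le_abs h2
  have h6 : (a : ℝ) / q - n = ((a - n * q : ℤ) : ℝ) / q := by
    push_cast
    field_simp
  rw [h6, abs_div, abs_of_pos (by positivity : (0 : ℝ) < q)]
  exact div_le_div_of_nonneg_right h5 (by positivity)

theorem sum_Icc_dvd (M d : ℕ) (hd : 0 < d) (f : ℕ → ℂ) :
    ∑ m ∈ Finset.Icc 1 M, (if d ∣ m then f m else 0) = ∑ k ∈ Finset.Icc 1 (M / d), f (d * k) := by
  rw [← Finset.sum_filter]
  symm
  apply Finset.sum_bij (fun j _ => d * j)
  · intro j hj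
    rw [Finset.mem_Icc] at hj
    rw [Finset.mem_filter, Finset.mem_Icc]
    refine ⟨⟨Nat.mul_pos hd (by omega), ?_⟩, dvd_mul_right _ _⟩
    have := (Nat.le_div_iff_mul_le hd).mp hj.2
    rw [mul_comm]
    exact this
  · intro i _ j _ hij
    exact Nat.eq_of_mul_eq_mul_left hd hij
  · intro c hc
    rw [Finset.mem_filter, Finset.mem_Icc] at hc
    obtain ⟨h6, j, hj⟩ := hc
    refine ⟨j, ?_, hj.symm⟩
    rw [Finset.mem_Icc]
    constructor
    · rcases Nat.eq_zero_or_pos j with h | h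
      · rw [h, mul_zero] at hj
        omega
      · exact h
    · rw [Nat.le_div_iff_mul_le hd, mul_comm, ← hj]
      exact h6.2
  · intro j _
    rfl

theorem rough_minor (K b z : ℕ) (D : Finset ℕ)
    (hD1 : ∀ d ∈ D, 1 ≤ d ∧ (d : ℝ) ≤ (z : ℝ) ^ (K * b))
    (hD2 : ∀ n : ℕ, 1 ≤ n → (if Rough z n then (1 : ℝ) else 0) ≤
      ∑ d ∈ D with d ∣ n, (ArithmeticFunction.moebius d : ℝ))
    (hD3 : ∀ M : ℕ, ∑ n ∈ Finset.Icc 1 M, (∑ d ∈ D with d ∣ n, (ArithmeticFunction.moebius d : ℝ) -
      (if Rough z n then (1 : ℝ) else 0)) ≤ K * (1 / 2) ^ b * (M * V z) + (z : ℝ) ^ (K * b))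
    (M q : ℕ) (hq : 0 < q) (a : ℤ) (ha : IsCoprime a q) (β : ℝ) (hdq : ∀ d ∈ D, d < q)
    (hβ : ∀ d ∈ D, (d : ℝ) * |β| ≤ 1 / (2 * q)) :
    ‖∑ m ∈ (Finset.Icc 1 M).filter (Rough z), e (((a : ℝ) / q + β) * m)‖ ≤
      (z : ℝ) ^ (K * b) * q + (K * (1 / 2) ^ b * (M * V z) + (z : ℝ) ^ (K * b)) := by
  set θ : ℝ := (a : ℝ) / q + β with hθ
  set g : ℕ → ℝ := fun n => ∑ d ∈ D with d ∣ n, (ArithmeticFunction.moebius d : ℝ) with hg
  have hqr : (0 : ℝ) < q := by exact_mod_cast hq
  have h1 : ∑ m ∈ (Finset.Icc 1 M).filter (Rough z), e (θ * m) =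
      ∑ m ∈ Finset.Icc 1 M, (g m : ℂ) * e (θ * m) -
      ∑ m ∈ Finset.Icc 1 M, ((g m - (if Rough z m then (1 : ℝ) else 0) : ℝ) : ℂ) * e (θ * m) := by
    rw [← Finset.sum_sub_distrib, Finset.sum_filter]
    refine Finset.sum_congr rfl fun m _ => ?_
    split_ifs
    · push_cast
      ring
    · push_cast
      ring
  rw [h1]
  refine (norm_sub_le _ _).trans ?_
  refine add_le_add ?_ ?_
  · -- main part
    have h2 : ∑ m ∈ Finset.Icc 1 M, (g m : ℂ) * e (θ * m) =
        ∑ d ∈ D, (ArithmeticFunction.moebius d : ℂ) *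
          ∑ k ∈ Finset.Icc 1 (M / d), e (θ * d * k) := by
      have h3 : ∀ m ∈ Finset.Icc 1 M, (g m : ℂ) * e (θ * m) =
          ∑ d ∈ D, (ArithmeticFunction.moebius d : ℂ) * (if d ∣ m then e (θ * m) else 0) := by
        intro m _
        rw [hg]
        push_cast
        rw [Finset.sum_mul, Finset.sum_filter]
        refine Finset.sum_congr rfl fun d _ => ?_
        split_ifs
        · rfl
        · rw [mul_zero]
      rw [Finset.sum_congr rfl h3, Finset.sum_comm]
      refine Finset.sum_congr rfl fun d hd => ?_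
      rw [← Finset.mul_sum, sum_Icc_dvd M d (by have := (hD1 d hd).1; omega)]
      congr 1
      refine Finset.sum_congr rfl fun k _ => ?_
      congr 1
      push_cast
      ring
    rw [h2]
    have h3 : ∀ d ∈ D, ‖(ArithmeticFunction.moebius d : ℂ) *
        ∑ k ∈ Finset.Icc 1 (M / d), e (θ * d * k)‖ ≤ q := by
      intro d hd
      rw [norm_mul]
      have h4 : ‖(ArithmeticFunction.moebius d : ℂ)‖ ≤ 1 := by
        rw [Complex.norm_intCast]
        exact_mod_cast ArithmeticFunction.abs_moebius_le_one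
      have h5 : ‖∑ k ∈ Finset.Icc 1 (M / d), e (θ * d * k)‖ ≤ q := by
        have h6 : ∀ n : ℤ, 1 / (2 * (q : ℝ)) ≤ |θ * d - n| := by
          intro n
          have hnd : ¬ (q : ℤ) ∣ a * d := by
            intro h7
            have h8 : (q : ℤ) ∣ (d : ℤ) := ha.symm.dvd_of_dvd_mul_left h7
            have h9 : q ∣ d := by exact_mod_cast h8
            have := Nat.le_of_dvd (by have := (hD1 d hd).1; omega) h9
            have := hdq d hd
            omega
          have h7 := dist_int_ge q hq (a * d) hnd n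
          have h8 := hβ d hd
          have h9 : θ * d - n = (((a * d : ℤ)) : ℝ) / q - n + d * β := by
            rw [hθ]
            push_cast
            ring
          have h10 : |(((a * d : ℤ)) : ℝ) / q - n| - |(d : ℝ) * β| ≤ |θ * d - n| := by
            rw [h9]
            have := abs_sub_abs_le_abs_sub ((((a * d : ℤ)) : ℝ) / q - n) (-((d : ℝ) * β))
            rw [abs_neg, sub_neg_eq_add] at this
            exact this
          rw [abs_mul, abs_of_nonneg (by positivity : (0 : ℝ) ≤ d)] at h10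
          have h11 : 1 / (q : ℝ) = 1 / (2 * q) + 1 / (2 * q) := by
            field_simp
            ring
          linarith
        have h7 := norm_geom_Icc_le (θ * d) (1 / (2 * (q : ℝ))) (by positivity) h6 (M / d)
        have h8 : 1 / (2 * (1 / (2 * (q : ℝ)))) = q := by
          field_simp
        rw [h8] at h7
        exact h7
      calc _ ≤ 1 * (q : ℝ) := mul_le_mul h4 h5 (norm_nonneg _) (by norm_num)
        _ = q := one_mul _
    refine (norm_sum_le _ _).trans ((Finset.sum_le_sum h3).trans ?_)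
    rw [Finset.sum_const, nsmul_eq_mul]
    refine mul_le_mul_of_nonneg_right ?_ hqr.le
    have h4 : D ⊆ Finset.Icc 1 (z ^ (K * b)) := by
      intro d hd
      rw [Finset.mem_Icc]
      refine ⟨(hD1 d hd).1, ?_⟩
      exact_mod_cast (hD1 d hd).2
    have h5 := Finset.card_le_card h4
    rw [Nat.card_Icc, Nat.add_sub_cancel] at h5
    exact_mod_cast h5
  · refine (norm_sum_le _ _).trans (le_trans ?_ (hD3 M))
    refine Finset.sum_le_sum fun m hm => ?_
    rw [norm_mul, norm_e, mul_one, Complex.norm_real, Real.norm_eq_abs, abs_of_nonneg]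
    have := hD2 m (Finset.mem_Icc.mp hm).1
    linarith

end Pool.Agent.Lib.GT.RE
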