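import Mathlib

/-!
# Weighted Turan bound by sampling (module FN2)

For a graph `G` without a copy of `H` and a probability vector `μ` on a finite set of vertices
with small maximal atom, the `μ × μ`-density of the edges is at most `turanDensity H + ε`.
-/

open Finset

namespace Pool.Agent.Lib.GT

open SimpleGraph

section Sampling

variable {V : Type*}

/-- probability of a tuple -/
lemma sum_tuple {N : ℕ} (S : Finset V) (μ : V → ℝ) (hμ1 : ∑ v ∈ S, μ v = 1) :
    ∑ x ∈ Fintype.piFinset (fun _ : Fin N => S), ∏ k, μ (x k) = 1 := by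
  rw [← Finset.prod_univ_sum (fun _ : Fin N => S) (fun _ v => μ v)]
  simp [hμ1]

open Classical in
/-- two-point marginals of the product measure -/
lemma sum_tuple_pair {N : ℕ} (S : Finset V) (μ : V → ℝ) (hμ1 : ∑ v ∈ S, μ v = 1)
    {i j : Fin N} (hij : i ≠ j) (f : V → V → ℝ) :
    ∑ x ∈ Fintype.piFinset (fun _ : Fin N => S), (∏ k, μ (x k)) * f (x i) (x j) =
      ∑ u ∈ S, ∑ v ∈ S, μ u * μ v * f u v := by
  have h1 : ∀ x ∈ Fintype.piFinset (fun _ : Fin N => S), (∏ k, μ (x k)) * f (x i) (x j) =
      ∑ u ∈ S, ∑ v ∈ S, f u v * ∏ k, (μ (x k) * ((if k = i then (if x k = u then 1 else 0) else 1) *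
        (if k = j then (if x k = v then 1 else 0) else 1))) := by
    intro x hx
    rw [Fintype.mem_piFinset] at hx
    have h2 : ∀ u v, ∏ k, (μ (x k) * ((if k = i then (if x k = u then (1:ℝ) else 0) else 1) *
        (if k = j then (if x k = v then 1 else 0) else 1))) =
        (∏ k, μ (x k)) * ((if x i = u then 1 else 0) * (if x j = v then 1 else 0)) := by
      intro u v
      rw [Finset.prod_mul_distrib, Finset.prod_mul_distrib]
      congr 1
      congr 1
      · rw [Finset.prod_ite_eq' Finset.univ i]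
        simp
      · rw [Finset.prod_ite_eq' Finset.univ j]
        simp
    simp only [h2]
    rw [Finset.sum_eq_single (x i), Finset.sum_eq_single (x j)]
    · simp only [if_true]
      ring
    · intro v _ hv
      rw [if_neg (show ¬ (x j = v) from fun h => hv h.symm)]
      ring
    · intro h
      exact absurd (hx j) h
    · intro u _ hu
      apply Finset.sum_eq_zero
      intro v _
      rw [if_neg (show ¬ (x i = u) from fun h => hu h.symm)]
      ring
    · intro h
      exact absurd (hx i) h
  rw [Finset.sum_congr rfl h1, Finset.sum_comm]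
  apply Finset.sum_congr rfl
  intro u hu
  rw [Finset.sum_comm]
  apply Finset.sum_congr rfl
  intro v hv
  rw [← Finset.mul_sum]
  have h3 := Finset.prod_univ_sum (fun _ : Fin N => S)
    (fun k w => μ w * ((if k = i then (if w = u then (1:ℝ) else 0) else 1) *
        (if k = j then (if w = v then 1 else 0) else 1)))
  rw [← h3]
  have h4 : ∀ k : Fin N, ∑ w ∈ S, μ w * ((if k = i then (if w = u then (1:ℝ) else 0) else 1) *
        (if k = j then (if w = v then 1 else 0) else 1)) =
        (if k = i then μ u else 1) * (if k = j then μ v else 1) := by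
    intro k
    by_cases hi : k = i
    · subst hi
      simp only [if_true, if_neg hij, mul_one]
      rw [Finset.sum_eq_single u]
      · simp
      · intro w _ hw
        rw [if_neg hw, mul_zero]
      · intro h; exact absurd hu h
    · by_cases hj : k = j
      · subst hj
        simp only [if_true, if_neg hi, one_mul]
        rw [Finset.sum_eq_single v]
        · simp
        · intro w _ hw
          rw [if_neg hw, mul_zero]
        · intro h; exact absurd hv h
      · simp only [if_neg hi, if_neg hj, mul_one]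
        exact hμ1
  rw [Finset.prod_congr rfl (fun k _ => h4 k), Finset.prod_mul_distrib,
    Finset.prod_ite_eq' Finset.univ i, Finset.prod_ite_eq' Finset.univ j]
  simp only [Finset.mem_univ, if_true]
  ring

/-- number of ordered adjacent pairs among the entries of a tuple -/
noncomputable def pairs {N : ℕ} (G : SimpleGraph V) (x : Fin N → V) : ℝ :=
  by
    classical
    exact ∑ i : Fin N, ∑ j ∈ Finset.univ.erase i, (if G.Adj (x i) (x j) then (1 : ℝ) else 0)

open Classical in
lemma pairs_le_triv {N : ℕ} (G : SimpleGraph V) (x : Fin N → V) :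
    pairs G x ≤ N * (N - 1) := by
  unfold pairs
  rcases Nat.eq_zero_or_pos N with h0 | h0
  · subst h0; simp
  calc ∑ i : Fin N, ∑ j ∈ Finset.univ.erase i, (if G.Adj (x i) (x j) then (1 : ℝ) else 0)
      ≤ ∑ i : Fin N, ∑ _j ∈ Finset.univ.erase i, (1 : ℝ) := by
        apply Finset.sum_le_sum
        intro i _
        apply Finset.sum_le_sum
        intro j _
        split_ifs <;> norm_num
    _ = N * (N - 1) := by
        simp only [Finset.sum_const, nsmul_eq_mul, mul_one, Finset.card_erase_of_mem
          (Finset.mem_univ _), Finset.card_univ, Fintype.card_fin]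
        rw [Nat.cast_sub h0]
        simp

open Classical in
lemma pairs_eq {N : ℕ} (G : SimpleGraph V) (x : Fin N → V) :
    pairs G x = 2 * ((G.comap x).edgeSet.ncard : ℝ) := by
  have h0 : (G.comap x).edgeSet.ncard = (G.comap x).edgeFinset.card := by
    rw [← SimpleGraph.coe_edgeFinset, Set.ncard_coe_finset]
  rw [h0]
  have h1 : (2 * (G.comap x).edgeFinset.card : ℕ) = ∑ i : Fin N, (G.comap x).degree i :=
    ((G.comap x).sum_degrees_eq_twice_card_edges).symm
  have h2 : (2 * ((G.comap x).edgeFinset.card : ℝ)) = ∑ i : Fin N, ((G.comap x).degree i : ℝ) := by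
    exact_mod_cast h1
  rw [h2]
  unfold pairs
  apply Finset.sum_congr rfl
  intro i _
  rw [← SimpleGraph.card_neighborFinset_eq_degree, Finset.sum_boole]
  congr 2
  ext j
  simp only [Finset.mem_filter, Finset.mem_erase, Finset.mem_univ, and_true,
    SimpleGraph.mem_neighborFinset, SimpleGraph.comap_adj]
  constructor
  · intro h; exact h.2
  · intro h
    refine ⟨?_, h⟩
    rintro rfl
    exact G.irrefl h

variable {W : Type*}

open Classical in
lemma pairs_le_inj {N : ℕ} {H : SimpleGraph W} {G : SimpleGraph V} (hG : H.Free G)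
    {x : Fin N → V} (hx : Function.Injective x) {τ : ℝ}
    (hN : ∀ G' : SimpleGraph (Fin N), H.Free G' → (G'.edgeSet.ncard : ℝ) ≤ τ * N.choose 2) :
    pairs G x ≤ τ * (N * (N - 1)) := by
  have hfree : H.Free (G.comap x) := by
    intro hc
    exact hG (hc.trans ⟨(SimpleGraph.Embedding.comap ⟨x, hx⟩ G).toCopy⟩)
  have h1 := hN _ hfree
  rw [pairs_eq]
  rw [Nat.cast_choose_two] at h1
  linarith

open Classical in
/-- mass of the tuples with a repeated entry -/
lemma sum_noninj {N : ℕ} (S : Finset V) (μ : V → ℝ) (hμ0 : ∀ v ∈ S, 0 ≤ μ v)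
    (hμ1 : ∑ v ∈ S, μ v = 1) {η : ℝ} (hη : ∀ v ∈ S, μ v ≤ η) :
    ∑ x ∈ (Fintype.piFinset (fun _ : Fin N => S)).filter (fun x => ¬ Function.Injective x),
      ∏ k, μ (x k) ≤ (N : ℝ) ^ 2 * η := by
  classical
  have hη0 : 0 ≤ η := by
    by_contra h
    have h2 : ∑ v ∈ S, μ v ≤ 0 := Finset.sum_nonpos fun v hv => by
      have := hη v hv
      linarith
    linarith
  have h1 : ∀ x ∈ Fintype.piFinset (fun _ : Fin N => S), 0 ≤ ∏ k, μ (x k) := by
    intro x hx
    rw [Fintype.mem_piFinset] at hx
    exact Finset.prod_nonneg fun k _ => hμ0 _ (hx k)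
  calc ∑ x ∈ (Fintype.piFinset (fun _ : Fin N => S)).filter (fun x => ¬ Function.Injective x),
      ∏ k, μ (x k)
      ≤ ∑ x ∈ Fintype.piFinset (fun _ : Fin N => S), ∑ i : Fin N,
          ∑ j ∈ Finset.univ.erase i, (∏ k, μ (x k)) * (if x i = x j then 1 else 0) := by
        rw [Finset.sum_filter]
        apply Finset.sum_le_sum
        intro x hx
        by_cases h : Function.Injective x
        swap
        · rw [if_pos h]
          have : ∃ i j, x i = x j ∧ i ≠ j := by
            unfold Function.Injective at h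
            push Not at h
            exact h
          obtain ⟨i, j, hij, hne⟩ := this
          have h3 : ∀ i j, 0 ≤ (∏ k, μ (x k)) * (if x i = x j then (1:ℝ) else 0) := by
            intro i j
            apply mul_nonneg (h1 x hx)
            split_ifs <;> norm_num
          calc ∏ k, μ (x k) = (∏ k, μ (x k)) * (if x i = x j then 1 else 0) := by
                rw [if_pos hij, mul_one]
            _ ≤ ∑ j ∈ Finset.univ.erase i, (∏ k, μ (x k)) * (if x i = x j then 1 else 0) :=
                Finset.single_le_sum (f := fun j => (∏ k, μ (x k)) * (if x i = x j then (1:ℝ) else 0))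
                  (fun j _ => h3 i j) (Finset.mem_erase.mpr ⟨hne.symm, Finset.mem_univ _⟩)
            _ ≤ ∑ i : Fin N, ∑ j ∈ Finset.univ.erase i,
                  (∏ k, μ (x k)) * (if x i = x j then 1 else 0) :=
                Finset.single_le_sum (f := fun i => ∑ j ∈ Finset.univ.erase i,
                  (∏ k, μ (x k)) * (if x i = x j then (1:ℝ) else 0))
                  (fun i _ => Finset.sum_nonneg fun j _ => h3 i j) (Finset.mem_univ i)
        · rw [if_neg (not_not.mpr h)]
          exact Finset.sum_nonneg fun i _ => Finset.sum_nonneg fun j _ => by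
            apply mul_nonneg (h1 x hx)
            split_ifs <;> norm_num
    _ = ∑ i : Fin N, ∑ j ∈ Finset.univ.erase i, ∑ u ∈ S, ∑ v ∈ S,
          μ u * μ v * (if u = v then 1 else 0) := by
        rw [Finset.sum_comm]
        apply Finset.sum_congr rfl
        intro i _
        rw [Finset.sum_comm]
        apply Finset.sum_congr rfl
        intro j hj
        exact sum_tuple_pair S μ hμ1 (Finset.ne_of_mem_erase hj).symm
          (fun u v => if u = v then 1 else 0)
    _ ≤ ∑ i : Fin N, ∑ _j ∈ Finset.univ.erase i, η := by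
        apply Finset.sum_le_sum
        intro i _
        apply Finset.sum_le_sum
        intro j _
        calc ∑ u ∈ S, ∑ v ∈ S, μ u * μ v * (if u = v then (1:ℝ) else 0)
            = ∑ u ∈ S, μ u * μ u := by
              apply Finset.sum_congr rfl
              intro u hu
              simp only [mul_ite, mul_one, mul_zero, Finset.sum_ite_eq, if_pos hu]
          _ ≤ ∑ u ∈ S, μ u * η := by
              apply Finset.sum_le_sum
              intro u hu
              exact mul_le_mul_of_nonneg_left (hη u hu) (hμ0 u hu)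
          _ = η := by rw [← Finset.sum_mul, hμ1, one_mul]
    _ ≤ (N : ℝ) ^ 2 * η := by
        simp only [Finset.sum_const, nsmul_eq_mul, Finset.card_erase_of_mem
          (Finset.mem_univ _), Finset.card_univ, Fintype.card_fin]
        have h5 : ((N - 1 : ℕ) : ℝ) ≤ N := by exact_mod_cast Nat.sub_le N 1
        have h6 : (0 : ℝ) ≤ N := Nat.cast_nonneg N
        nlinarith [mul_le_mul_of_nonneg_right h5 hη0, mul_nonneg h6 hη0]

open Classical in
/-- FN2, core: sampling `N` points -/
theorem sampling_core (H : SimpleGraph W) {ε : ℝ} (hε : 0 < ε) {N : ℕ} (hN2 : 2 ≤ N)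
    (hNE : ∀ G' : SimpleGraph (Fin N), H.Free G' →
      (G'.edgeSet.ncard : ℝ) ≤ (turanDensity H + ε) * N.choose 2)
    (G : SimpleGraph V) (hG : H.Free G) (S : Finset V) (μ : V → ℝ) {η : ℝ}
    (hμ0 : ∀ v ∈ S, 0 ≤ μ v) (hμ1 : ∑ v ∈ S, μ v = 1) (hη : ∀ v ∈ S, μ v ≤ η) :
    ∑ u ∈ S, ∑ v ∈ S, (if G.Adj u v then μ u * μ v else 0) ≤
      turanDensity H + ε + (N : ℝ) ^ 2 * η := by
  have hN2' : (2 : ℝ) ≤ N := by exact_mod_cast hN2
  set D := ∑ u ∈ S, ∑ v ∈ S, (if G.Adj u v then μ u * μ v else 0) with hD
  have hτ : 0 ≤ turanDensity H + ε := by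
    have : 0 ≤ turanDensity H :=
      ge_of_tendsto' (tendsto_turanDensity H) (fun n => by positivity)
    linarith
  have h1 : ∑ x ∈ Fintype.piFinset (fun _ : Fin N => S), (∏ k, μ (x k)) * pairs G x =
      (N * (N - 1)) * D := by
    unfold pairs
    simp only [Finset.mul_sum]
    rw [Finset.sum_comm]
    have h2 : ∀ i ∈ (Finset.univ : Finset (Fin N)),
        ∑ x ∈ Fintype.piFinset (fun _ : Fin N => S), ∑ j ∈ Finset.univ.erase i,
          (∏ k, μ (x k)) * (if G.Adj (x i) (x j) then (1 : ℝ) else 0) =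
        ∑ _j ∈ Finset.univ.erase i, D := by
      intro i _
      rw [Finset.sum_comm]
      apply Finset.sum_congr rfl
      intro j hj
      rw [sum_tuple_pair S μ hμ1 (Finset.ne_of_mem_erase hj).symm
          (fun u v => if G.Adj u v then (1 : ℝ) else 0), hD]
      apply Finset.sum_congr rfl
      intro u _
      apply Finset.sum_congr rfl
      intro v _
      split_ifs <;> ring
    rw [Finset.sum_congr rfl h2]
    simp only [Finset.sum_const, nsmul_eq_mul, Finset.card_erase_of_mem
          (Finset.mem_univ _), Finset.card_univ, Fintype.card_fin]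
    rw [Nat.cast_sub (by omega)]
    push_cast
    ring
  have h2 : ∑ x ∈ Fintype.piFinset (fun _ : Fin N => S), (∏ k, μ (x k)) * pairs G x ≤
      (turanDensity H + ε) * (N * (N - 1)) +
        (N : ℝ) ^ 2 * η * (N * (N - 1)) := by
    rw [← Finset.sum_filter_add_sum_filter_not _ (fun x => Function.Injective x)]
    have hpos : ∀ x ∈ Fintype.piFinset (fun _ : Fin N => S), 0 ≤ ∏ k, μ (x k) := by
      intro x hx
      rw [Fintype.mem_piFinset] at hx
      exact Finset.prod_nonneg fun k _ => hμ0 _ (hx k)
    have hNN : (0 : ℝ) ≤ N * (N - 1) := mul_nonneg (by linarith) (by linarith)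
    apply add_le_add
    · calc ∑ x ∈ (Fintype.piFinset (fun _ : Fin N => S)).filter (fun x => Function.Injective x),
            (∏ k, μ (x k)) * pairs G x
          ≤ ∑ x ∈ (Fintype.piFinset (fun _ : Fin N => S)).filter
              (fun x => Function.Injective x),
            (∏ k, μ (x k)) * ((turanDensity H + ε) * (N * (N - 1))) := by
            apply Finset.sum_le_sum
            intro x hx
            rw [Finset.mem_filter] at hx
            exact mul_le_mul_of_nonneg_left (pairs_le_inj hG hx.2 hNE) (hpos x hx.1)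
        _ ≤ ∑ x ∈ Fintype.piFinset (fun _ : Fin N => S),
            (∏ k, μ (x k)) * ((turanDensity H + ε) * (N * (N - 1))) := by
            apply Finset.sum_le_sum_of_subset_of_nonneg (Finset.filter_subset _ _)
            intro x hx _
            exact mul_nonneg (hpos x hx) (mul_nonneg hτ hNN)
        _ = _ := by rw [← Finset.sum_mul, sum_tuple S μ hμ1, one_mul]
    · calc ∑ x ∈ (Fintype.piFinset (fun _ : Fin N => S)).filter
              (fun x => ¬ Function.Injective x), (∏ k, μ (x k)) * pairs G x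
          ≤ ∑ x ∈ (Fintype.piFinset (fun _ : Fin N => S)).filter
              (fun x => ¬ Function.Injective x), (∏ k, μ (x k)) * (N * (N - 1)) := by
            apply Finset.sum_le_sum
            intro x hx
            rw [Finset.mem_filter] at hx
            exact mul_le_mul_of_nonneg_left (pairs_le_triv G x) (hpos x hx.1)
        _ ≤ _ := by
            rw [← Finset.sum_mul]
            exact mul_le_mul_of_nonneg_right (sum_noninj S μ hμ0 hμ1 hη) hNN
  rw [h1] at h2
  have h4 : (0 : ℝ) < N * (N - 1) := mul_pos (by linarith) (by linarith)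
  have h5 : (N * (N - 1)) * D ≤ (N * (N - 1)) * (turanDensity H + ε + (N : ℝ) ^ 2 * η) := by
    linarith
  exact le_of_mul_le_mul_left h5 h4

lemma exists_sample_size (H : SimpleGraph W) {ε : ℝ} (hε : 0 < ε) :
    ∃ N : ℕ, 2 ≤ N ∧ ∀ G' : SimpleGraph (Fin N), H.Free G' →
      (G'.edgeSet.ncard : ℝ) ≤ (turanDensity H + ε) * N.choose 2 := by
  classical
  obtain ⟨N₀, hN₀⟩ := Filter.eventually_atTop.mp
    (eventually_isContained_of_card_edgeFinset H hε)
  refine ⟨max N₀ 2, le_max_right _ _, ?_⟩
  intro G' hf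
  by_contra hc
  push Not at hc
  have h0 : G'.edgeSet.ncard = G'.edgeFinset.card := by
    rw [← SimpleGraph.coe_edgeFinset, Set.ncard_coe_finset]
  rw [h0] at hc
  exact hf (hN₀ (max N₀ 2) (le_max_left _ _) hc.le)

open Classical in
/-- FN2, main statement (probability vector form) -/
theorem sampling (H : SimpleGraph W) {ε : ℝ} (hε : 0 < ε) :
    ∃ η : ℝ, 0 < η ∧ ∀ (G : SimpleGraph V), H.Free G → ∀ (S : Finset V) (μ : V → ℝ),
      (∀ v ∈ S, 0 ≤ μ v) → ∑ v ∈ S, μ v = 1 → (∀ v ∈ S, μ v ≤ η) →
      ∑ u ∈ S, ∑ v ∈ S, (if G.Adj u v then μ u * μ v else 0) ≤ turanDensity H + ε := by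
  obtain ⟨N, hN2, hNE⟩ := exists_sample_size H (half_pos hε)
  have hN2' : (2 : ℝ) ≤ N := by exact_mod_cast hN2
  refine ⟨ε / (2 * N ^ 2), by positivity, ?_⟩
  intro G hG S μ hμ0 hμ1 hη
  have h := sampling_core H (half_pos hε) hN2 hNE G hG S μ hμ0 hμ1 hη
  have h3 : (N : ℝ) ^ 2 * (ε / (2 * N ^ 2)) = ε / 2 := by field_simp
  rw [h3] at h
  linarith

/-- FN2, form for the assembly: arbitrary nonnegative weights `f ≤ B` -/
theorem sampling_const {W : Type*} (H : SimpleGraph W) (ε : ℝ) (hε : 0 < ε) :
    ∃ C : ℝ, 0 < C ∧ ∀ {V : Type} [DecidableEq V] (G : SimpleGraph V) [DecidableRel G.Adj],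
      H.Free G → ∀ (S : Finset V) (f : V → ℝ), (∀ v ∈ S, 0 ≤ f v) → ∀ B : ℝ,
      (∀ v ∈ S, f v ≤ B) →
      ∑ p ∈ S, ∑ q ∈ S, (if G.Adj p q then f p * f q else 0) ≤
        (turanDensity H + ε) * (∑ p ∈ S, f p) ^ 2 + C * B * ∑ p ∈ S, f p := by
  obtain ⟨N, hN2, hNE⟩ := exists_sample_size H hε
  have hN2' : (2 : ℝ) ≤ N := by exact_mod_cast hN2
  refine ⟨(N : ℝ) ^ 2, by positivity, ?_⟩
  intro V _ G _ hG S f h0 B hB
  set M := ∑ p ∈ S, f p with hM
  have hM0 : 0 ≤ M := Finset.sum_nonneg h0
  rcases eq_or_lt_of_le hM0 with h | h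
  · have hz : ∀ v ∈ S, f v = 0 := (Finset.sum_eq_zero_iff_of_nonneg h0).mp (hM ▸ h.symm)
    have h1 : ∑ p ∈ S, ∑ q ∈ S, (if G.Adj p q then f p * f q else 0) = 0 := by
      apply Finset.sum_eq_zero
      intro p hp
      apply Finset.sum_eq_zero
      intro q _
      rw [hz p hp]
      simp
    rw [h1, ← h]
    simp
  · have h3 := sampling_core H hε hN2 hNE G hG S (fun v => f v / M) (η := B / M)
      (fun v hv => div_nonneg (h0 v hv) h.le)
      (by rw [← Finset.sum_div, ← hM, div_self h.ne'])
      (fun v hv => div_le_div_of_nonneg_right (hB v hv) h.le)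
    have h4 : ∑ u ∈ S, ∑ v ∈ S, (if G.Adj u v then f u * f v else 0) =
        (∑ u ∈ S, ∑ v ∈ S, (if G.Adj u v then (f u / M) * (f v / M) else 0)) * M ^ 2 := by
      rw [Finset.sum_mul]
      apply Finset.sum_congr rfl
      intro u _
      rw [Finset.sum_mul]
      apply Finset.sum_congr rfl
      intro v _
      split_ifs
      · field_simp
      · ring
    rw [h4]
    have h5 : (∑ u ∈ S, ∑ v ∈ S, (if G.Adj u v then (f u / M) * (f v / M) else 0)) ≤
        turanDensity H + ε + (N : ℝ) ^ 2 * (B / M) := by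
      convert h3 using 5
    calc _ ≤ (turanDensity H + ε + (N : ℝ) ^ 2 * (B / M)) * M ^ 2 :=
          mul_le_mul_of_nonneg_right h5 (sq_nonneg M)
      _ = _ := by field_simp

open Classical in
/-- FN2, scaled form: total mass `M`, atoms at most `η M` -/
theorem sampling_mass (H : SimpleGraph W) {ε : ℝ} (hε : 0 < ε) :
    ∃ η : ℝ, 0 < η ∧ ∀ (G : SimpleGraph V), H.Free G → ∀ (S : Finset V) (μ : V → ℝ) (M : ℝ),
      0 < M → (∀ v ∈ S, 0 ≤ μ v) → ∑ v ∈ S, μ v = M → (∀ v ∈ S, μ v ≤ η * M) →
      ∑ u ∈ S, ∑ v ∈ S, (if G.Adj u v then μ u * μ v else 0) ≤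
        (turanDensity H + ε) * M ^ 2 := by
  obtain ⟨η, hη, h⟩ := sampling (V := V) H hε
  refine ⟨η, hη, ?_⟩
  intro G hG S μ M hM h0 h1 h2
  have h3 := h G hG S (fun v => μ v / M) (fun v hv => div_nonneg (h0 v hv) hM.le)
    (by rw [← Finset.sum_div, h1, div_self hM.ne'])
    (fun v hv => by rw [div_le_iff₀ hM]; exact h2 v hv)
  have h4 : ∑ u ∈ S, ∑ v ∈ S, (if G.Adj u v then μ u * μ v else 0) =
      (∑ u ∈ S, ∑ v ∈ S, (if G.Adj u v then (μ u / M) * (μ v / M) else 0)) * M ^ 2 := by
    rw [Finset.sum_mul]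
    apply Finset.sum_congr rfl
    intro u _
    rw [Finset.sum_mul]
    apply Finset.sum_congr rfl
    intro v _
    split_ifs
    · field_simp
    · ring
  rw [h4]
  exact mul_le_mul_of_nonneg_right h3 (sq_nonneg M)

end Sampling

end Pool.Agent.Lib.GT
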