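import Mathlib

/-!
# Sharpness: Turan densities of complete graphs, and the bipartite graph modulo 4
-/

open Finset Filter Topology

namespace Pool.Agent.Lib.GT

/-- The Turan density of the complete graph on `k + 2` vertices is `1 - 1 / (k + 1)`. -/
theorem turanDensity_top (k : ℕ) :
    (⊤ : SimpleGraph (Fin (k + 2))).turanDensity = 1 - 1 / ((k : ℝ) + 1) := by
  have hlim := (⊤ : SimpleGraph (Fin (k + 2))).tendsto_turanDensity
  -- restrict to the multiples of `k + 1`
  have hsub : Tendsto (fun m : ℕ => (k + 1) * (m + 2)) atTop atTop := by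
    apply tendsto_atTop_mono (f := fun m => m) _ tendsto_id
    intro m
    nlinarith
  have h1 := hlim.comp hsub
  have hval : ∀ m : ℕ, ((SimpleGraph.extremalNumber ((k + 1) * (m + 2))
      (⊤ : SimpleGraph (Fin (k + 2))) : ℝ) / (((k + 1) * (m + 2)).choose 2 : ℕ)) =
      k * ((m : ℝ) + 2) / ((k + 1) * (m + 2) - 1) := by
    intro m
    have e1 : SimpleGraph.extremalNumber ((k + 1) * (m + 2)) (⊤ : SimpleGraph (Fin (k + 2))) =
        ((k + 1) * (m + 2)) ^ 2 * k / (2 * (k + 1)) := by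
      rw [SimpleGraph.extremalNumber_top, Fintype.card_fin]
      have : k + 2 - 1 = k + 1 := by omega
      rw [this, SimpleGraph.card_edgeFinset_turanGraph]
      rw [Nat.mul_mod_right]
      simp
    have e2 : ((((k + 1) * (m + 2)) ^ 2 * k / (2 * (k + 1)) : ℕ) : ℝ) =
        ((k + 1) * ((m : ℝ) + 2)) ^ 2 * k / (2 * (k + 1)) := by
      rw [Nat.cast_div]
      · push_cast
        ring
      · obtain ⟨c, hc⟩ := (Nat.even_mul_succ_self k).two_dvd
        refine ⟨c * (m + 2) ^ 2, ?_⟩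
        calc ((k + 1) * (m + 2)) ^ 2 * k = (k + 1) * (m + 2) ^ 2 * (k * (k + 1)) := by ring
          _ = (k + 1) * (m + 2) ^ 2 * (2 * c) := by rw [hc]
          _ = 2 * (k + 1) * (c * (m + 2) ^ 2) := by ring
      · positivity
    have e3 : ((((k + 1) * (m + 2)).choose 2 : ℕ) : ℝ) =
        ((k + 1) * ((m : ℝ) + 2)) * ((k + 1) * ((m : ℝ) + 2) - 1) / 2 := by
      rw [Nat.cast_choose_two]
      push_cast
      ring
    rw [e1, e2, e3]
    have h2 : ((k : ℝ) + 1) * (m + 2) - 1 ≠ 0 := by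
      have : (0 : ℝ) ≤ k := Nat.cast_nonneg k
      have : (0 : ℝ) ≤ m := Nat.cast_nonneg m
      nlinarith
    have h3 : (k : ℝ) + 1 ≠ 0 := by positivity
    have h4 : (m : ℝ) + 2 ≠ 0 := by positivity
    field_simp
  have h2 : Tendsto (fun m : ℕ => k * ((m : ℝ) + 2) / ((k + 1) * (m + 2) - 1)) atTop
      (𝓝 (1 - 1 / ((k : ℝ) + 1))) := by
    have h3 : ∀ m : ℕ, k * ((m : ℝ) + 2) / ((k + 1) * (m + 2) - 1) =
        k / ((k : ℝ) + 1 - 1 / (m + 2)) := by
      intro m
      have h4 : (m : ℝ) + 2 ≠ 0 := by positivity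
      have h2 : ((k : ℝ) + 1) * (m + 2) - 1 ≠ 0 := by
        have : (0 : ℝ) ≤ k := Nat.cast_nonneg k
        have : (0 : ℝ) ≤ m := Nat.cast_nonneg m
        nlinarith
      have h5 : (k : ℝ) + 1 - 1 / (m + 2) = ((k + 1) * (m + 2) - 1) / (m + 2) := by
        field_simp
      rw [h5]
      field_simp
    simp_rw [h3]
    have h4 : 1 - 1 / ((k : ℝ) + 1) = k / (k + 1 - 0) := by
      have : (k : ℝ) + 1 ≠ 0 := by positivity
      rw [sub_zero]
      field_simp
      ring
    rw [h4]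
    apply Tendsto.div tendsto_const_nhds
    · apply Tendsto.sub tendsto_const_nhds
      have h5 : Tendsto (fun m : ℕ => ((m : ℝ) + 2)) atTop atTop :=
        tendsto_atTop_add_const_right _ _ tendsto_natCast_atTop_atTop
      apply h5.inv_tendsto_atTop.congr
      intro m
      rw [Pi.inv_apply, one_div]
    · rw [sub_zero]
      positivity
  refine tendsto_nhds_unique h1 ?_
  apply h2.congr
  intro m
  rw [← hval m]
  rfl

/-- The primes `1` mod `4` are joined to the primes `3` mod `4`. -/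
def G0 : SimpleGraph Nat.Primes where
  Adj p q := (p : ℕ) % 4 = 1 ∧ (q : ℕ) % 4 = 3 ∨ (p : ℕ) % 4 = 3 ∧ (q : ℕ) % 4 = 1
  symm := ⟨by
    intro p q h
    rcases h with h | h
    · exact Or.inr ⟨h.2, h.1⟩
    · exact Or.inl ⟨h.2, h.1⟩⟩
  loopless := ⟨by
    intro p h
    rcases h with h | h <;> omega⟩

theorem G0_colorable : G0.Colorable 2 := by
  refine ⟨SimpleGraph.Coloring.mk (fun p => if (p : ℕ) % 4 = 1 then (0 : Fin 2) else 1) ?_⟩
  intro p q h
  rcases h with h | h
  · rw [if_pos h.1, if_neg (by omega)]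
    decide
  · rw [if_neg (by omega), if_pos h.2]
    decide

/-- `G0` contains no graph of chromatic number at least `3`. -/
theorem G0_free {W : Type*} {H : SimpleGraph W} (hH : ¬ H.Colorable 2) : H.Free G0 := by
  rintro ⟨f⟩
  exact hH (G0_colorable.of_hom f.toHom)

theorem G0_adj {n : ℕ} (hn : Even n) {p q : Nat.Primes} (hpq : p ≠ q)
    (h : (p : ℕ) + q = 2 * n) : G0.Adj p q := by
  obtain ⟨m, rfl⟩ := hn
  have hne : (p : ℕ) ≠ q := fun h' => hpq (Subtype.ext h')
  have hodd : ∀ r : Nat.Primes, (r : ℕ) = 2 ∨ (r : ℕ) % 2 = 1 := by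
    intro r
    rcases r.2.eq_two_or_odd with h' | h'
    · exact Or.inl h'
    · exact Or.inr h'
  have h1 := hodd p
  have h2 := hodd q
  show (p : ℕ) % 4 = 1 ∧ (q : ℕ) % 4 = 3 ∨ (p : ℕ) % 4 = 3 ∧ (q : ℕ) % 4 = 1
  omega

open Classical in
/-- Every second `n` has all its Goldbach pairs in `G0`. -/
theorem G0_card (X : ℕ) : X / 2 ≤ ((Finset.Icc 1 X).filter fun n =>
    ∀ p q : Nat.Primes, p ≠ q → (p : ℕ) + q = 2 * n → G0.Adj p q).card := by
  have h1 : ((Finset.Icc 1 (X / 2)).image fun m => m + m) ⊆ (Finset.Icc 1 X).filter fun n =>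
      ∀ p q : Nat.Primes, p ≠ q → (p : ℕ) + q = 2 * n → G0.Adj p q := by
    intro n hn
    rw [Finset.mem_image] at hn
    obtain ⟨m, hm, rfl⟩ := hn
    rw [Finset.mem_Icc] at hm
    rw [Finset.mem_filter, Finset.mem_Icc]
    exact ⟨by omega, fun p q hpq h => G0_adj ⟨m, rfl⟩ hpq h⟩
  have h2 := Finset.card_le_card h1
  rw [Finset.card_image_of_injective _ (fun a b (h : a + a = b + b) => by omega),
    Nat.card_Icc] at h2
  omega

end Pool.Agent.Lib.GT
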