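import Mathlib

/-!
# Two Cauchy-Schwarz lemmas on finite abelian groups (module TR of the Goldbach-Turan project)
-/

open Finset

namespace Pool.Agent.Lib.GT.Transfer

section group

variable {A : Type*} [AddCommGroup A] [Fintype A]

/-- correlation -/
def cor (f g : A → ℝ) (d : A) : ℝ := ∑ y, f y * g (y + d)

/-- `H(x) = ∑ g(x+y) h(y)` -/
def hh (g h : A → ℝ) (x : A) : ℝ := ∑ y, g (x + y) * h y

lemma hh_eq (g h : A → ℝ) (x : A) : hh g h x = ∑ t, g t * h (t - x) := by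
  unfold hh
  exact Fintype.sum_equiv (Equiv.addLeft x) _ _ (fun y => by simp)

/-- the weighted second moment of `H` is controlled by autocorrelations -/
theorem weighted_le (ν g h : A → ℝ) (T : Finset A) (hg : ∀ t, t ∉ T → g t = 0)
    (hg1 : ∀ t, |g t| ≤ 1) :
    |∑ x, ν x * (hh g h x) ^ 2| ≤
      T.card * Real.sqrt (∑ d, (cor h h d) ^ 2 * cor ν ν d) := by
  classical
  set P : A → A → ℝ := fun t t' => ∑ x, ν x * (h (t - x) * h (t' - x)) with hP
  have h1 : ∑ x, ν x * (hh g h x) ^ 2 = ∑ t ∈ T, ∑ t' ∈ T, (g t * g t') * P t t' := by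
    have h2 : ∀ x, hh g h x = ∑ t ∈ T, g t * h (t - x) := by
      intro x
      rw [hh_eq]
      symm
      apply Finset.sum_subset (Finset.subset_univ T)
      intro t _ ht
      rw [hg t ht, zero_mul]
    calc ∑ x, ν x * (hh g h x) ^ 2
        = ∑ x, ∑ t ∈ T, ∑ t' ∈ T, ν x * ((g t * h (t - x)) * (g t' * h (t' - x))) := by
          refine Finset.sum_congr rfl fun x _ => ?_
          rw [h2 x, pow_two, Finset.sum_mul_sum, Finset.mul_sum]
          refine Finset.sum_congr rfl fun t _ => ?_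
          rw [Finset.mul_sum]
      _ = ∑ t ∈ T, ∑ t' ∈ T, ∑ x, ν x * ((g t * h (t - x)) * (g t' * h (t' - x))) := by
          rw [Finset.sum_comm]
          refine Finset.sum_congr rfl fun t _ => ?_
          rw [Finset.sum_comm]
      _ = _ := by
          refine Finset.sum_congr rfl fun t _ => Finset.sum_congr rfl fun t' _ => ?_
          rw [hP, Finset.mul_sum]
          exact Finset.sum_congr rfl fun x _ => by ring
  -- the sum of squares of `P`
  have h3 : ∑ t, ∑ t', (P t t') ^ 2 = ∑ d, (cor h h d) ^ 2 * cor ν ν d := by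
    have e1 : ∀ t t', (P t t') ^ 2 = ∑ x, ∑ x', (ν x * ν x') *
        ((h (t - x) * h (t - x')) * (h (t' - x) * h (t' - x'))) := by
      intro t t'
      rw [hP, pow_two, Finset.sum_mul_sum]
      refine Finset.sum_congr rfl fun x _ => Finset.sum_congr rfl fun x' _ => ?_
      ring
    have e2 : ∀ x x' : A, ∑ t, h (t - x) * h (t - x') = cor h h (x - x') := by
      intro x x'
      unfold cor
      refine Fintype.sum_equiv (Equiv.subRight x) _ _ (fun t => ?_)
      simp only [Equiv.subRight_apply]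
      congr 2
      abel
    calc ∑ t, ∑ t', (P t t') ^ 2
        = ∑ t, ∑ t', ∑ x, ∑ x', (ν x * ν x') *
          ((h (t - x) * h (t - x')) * (h (t' - x) * h (t' - x'))) :=
          Finset.sum_congr rfl fun t _ => Finset.sum_congr rfl fun t' _ => e1 t t'
      _ = ∑ x, ∑ x', ∑ t, ∑ t', (ν x * ν x') *
          ((h (t - x) * h (t - x')) * (h (t' - x) * h (t' - x'))) := by
          rw [Finset.sum_congr rfl (fun t _ => Finset.sum_comm), Finset.sum_comm]
          refine Finset.sum_congr rfl fun x _ => ?_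
          rw [Finset.sum_congr rfl (fun t _ => Finset.sum_comm), Finset.sum_comm]
      _ = ∑ x, ∑ x', (ν x * ν x') * (cor h h (x - x')) ^ 2 := by
          refine Finset.sum_congr rfl fun x _ => Finset.sum_congr rfl fun x' _ => ?_
          rw [← e2, pow_two, Finset.sum_mul_sum, Finset.mul_sum]
          refine Finset.sum_congr rfl fun t _ => ?_
          rw [Finset.mul_sum]
      _ = ∑ x', ∑ x, (ν x * ν x') * (cor h h (x - x')) ^ 2 := Finset.sum_comm
      _ = ∑ x', ∑ d, (ν (x' + d) * ν x') * (cor h h d) ^ 2 := by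
          refine Finset.sum_congr rfl fun x' _ => ?_
          refine Fintype.sum_equiv (Equiv.subRight x') _ _ (fun x => ?_)
          simp only [Equiv.subRight_apply, add_sub_cancel]
      _ = ∑ d, ∑ x', (ν (x' + d) * ν x') * (cor h h d) ^ 2 := Finset.sum_comm
      _ = _ := by
          refine Finset.sum_congr rfl fun d _ => ?_
          rw [cor, cor, Finset.mul_sum]
          exact Finset.sum_congr rfl fun x' _ => by ring
  have h4 : ∑ t ∈ T, ∑ t' ∈ T, (P t t') ^ 2 ≤ ∑ t, ∑ t', (P t t') ^ 2 := by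
    calc ∑ t ∈ T, ∑ t' ∈ T, (P t t') ^ 2 ≤ ∑ t ∈ T, ∑ t', (P t t') ^ 2 :=
          Finset.sum_le_sum fun t _ => Finset.sum_le_sum_of_subset_of_nonneg
            (Finset.subset_univ T) (fun _ _ _ => sq_nonneg _)
      _ ≤ _ := Finset.sum_le_sum_of_subset_of_nonneg (Finset.subset_univ T)
            (fun _ _ _ => Finset.sum_nonneg fun _ _ => sq_nonneg _)
  have h5 : ∑ t ∈ T, ∑ t' ∈ T, (g t * g t') ^ 2 ≤ (T.card : ℝ) ^ 2 := by
    calc ∑ t ∈ T, ∑ t' ∈ T, (g t * g t') ^ 2 ≤ ∑ t ∈ T, ∑ t' ∈ T, (1 : ℝ) := by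
          refine Finset.sum_le_sum fun t _ => Finset.sum_le_sum fun t' _ => ?_
          rw [← sq_abs, abs_mul]
          have h6 : |g t| * |g t'| ≤ 1 := mul_le_one₀ (hg1 t) (abs_nonneg _) (hg1 t')
          have h7 : 0 ≤ |g t| * |g t'| := by positivity
          nlinarith
      _ = (T.card : ℝ) ^ 2 := by
          simp [pow_two]
  -- Cauchy-Schwarz
  have h6 : (∑ t ∈ T, ∑ t' ∈ T, (g t * g t') * P t t') ^ 2 ≤
      (∑ t ∈ T, ∑ t' ∈ T, (g t * g t') ^ 2) * (∑ t ∈ T, ∑ t' ∈ T, (P t t') ^ 2) := by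
    have := Finset.sum_mul_sq_le_sq_mul_sq (T ×ˢ T) (fun z : A × A => g z.1 * g z.2)
      (fun z => P z.1 z.2)
    simpa only [Finset.sum_product] using this
  rw [h1]
  apply abs_le_of_sq_le_sq _ (by positivity)
  rw [mul_pow, Real.sq_sqrt (by rw [← h3]; positivity), ← h3]
  calc (∑ t ∈ T, ∑ t' ∈ T, (g t * g t') * P t t') ^ 2
      ≤ (∑ t ∈ T, ∑ t' ∈ T, (g t * g t') ^ 2) * (∑ t ∈ T, ∑ t' ∈ T, (P t t') ^ 2) := h6
    _ ≤ (T.card : ℝ) ^ 2 * ∑ t, ∑ t', (P t t') ^ 2 := by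
        apply mul_le_mul h5 h4 (by positivity) (by positivity)

end group

section parseval

variable {N : ℕ} [NeZero N]

open Complex ZMod

/-- Fourier transform on `ZMod N` -/
noncomputable def ft (F : ZMod N → ℝ) (ξ : ZMod N) : ℂ := ∑ x, (F x : ℂ) * stdAddChar (ξ * x)

lemma norm_std (x : ZMod N) : ‖(stdAddChar x : ℂ)‖ = 1 := by
  rw [stdAddChar_apply]
  exact Circle.norm_coe _

lemma conj_std (x : ZMod N) : (starRingEnd ℂ) (stdAddChar x : ℂ) = stdAddChar (-x) := by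
  rw [AddChar.map_neg_eq_inv, ← Complex.inv_eq_conj (norm_std x)]

lemma parseval (F : ZMod N → ℝ) : ∑ ξ, ‖ft F ξ‖ ^ 2 = N * ∑ x, (F x) ^ 2 := by
  have h1 : ∀ ξ, ((‖ft F ξ‖ ^ 2 : ℝ) : ℂ) =
      ∑ x, ∑ y, ((F x * F y : ℝ) : ℂ) * stdAddChar (ξ * (x - y)) := by
    intro ξ
    rw [← Complex.normSq_eq_norm_sq, Complex.normSq_eq_conj_mul_self, mul_comm]
    unfold ft
    rw [map_sum, Finset.sum_mul_sum]
    refine Finset.sum_congr rfl fun x _ => Finset.sum_congr rfl fun y _ => ?_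
    rw [map_mul (starRingEnd ℂ), conj_std, Complex.conj_ofReal, mul_sub, sub_eq_add_neg,
      AddChar.map_add_eq_mul]
    push_cast
    ring
  have h2 : ((∑ ξ, ‖ft F ξ‖ ^ 2 : ℝ) : ℂ) = ((N * ∑ x, (F x) ^ 2 : ℝ) : ℂ) := by
    rw [Complex.ofReal_sum, Finset.sum_congr rfl (fun ξ _ => h1 ξ), Finset.sum_comm]
    have h3 : ∀ x : ZMod N, ∑ ξ : ZMod N, ∑ y : ZMod N,
        ((F x * F y : ℝ) : ℂ) * stdAddChar (ξ * (x - y)) = ((N * (F x) ^ 2 : ℝ) : ℂ) := by
      intro x
      rw [Finset.sum_comm]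
      rw [Finset.sum_eq_single x]
      · rw [← Finset.mul_sum]
        simp [pow_two]
        ring
      · intro y _ hy
        rw [← Finset.mul_sum, AddChar.sum_mulShift (x - y) (isPrimitive_stdAddChar N),
          if_neg (sub_ne_zero.mpr hy.symm)]
        simp
      · intro h; exact absurd (Finset.mem_univ _) h
    rw [Finset.sum_congr rfl (fun x _ => h3 x)]
    push_cast
    rw [Finset.mul_sum]
  exact_mod_cast h2

lemma ft_hh (g h : ZMod N → ℝ) (ξ : ZMod N) : ft (hh g h) ξ = ft g ξ * ft h (-ξ) := by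
  unfold ft
  have h1 : ∀ x, ((hh g h x : ℝ) : ℂ) * stdAddChar (ξ * x) =
      ∑ t, ((g t : ℂ) * (h (t - x) : ℂ)) * stdAddChar (ξ * x) := by
    intro x
    rw [hh_eq, Complex.ofReal_sum, Finset.sum_mul]
    refine Finset.sum_congr rfl fun t _ => ?_
    push_cast
    ring
  rw [Finset.sum_congr rfl (fun x _ => h1 x), Finset.sum_comm, Finset.sum_mul_sum]
  refine Finset.sum_congr rfl fun t _ => ?_
  refine Fintype.sum_equiv (Equiv.subLeft t) _ _ (fun x => ?_)
  simp only [Equiv.subLeft_apply]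
  have : ξ * x = ξ * t + -ξ * (t - x) := by ring
  rw [this, AddChar.map_add_eq_mul]
  ring

/-- If the Fourier transform of `h` is bounded by `B`, the second moment of `H` is at most
`B²` times that of `g`. -/
theorem sum_hh_sq_le (g h : ZMod N → ℝ) (B : ℝ) (hB : ∀ ξ, ‖ft h ξ‖ ≤ B) :
    ∑ x, (hh g h x) ^ 2 ≤ B ^ 2 * ∑ t, (g t) ^ 2 := by
  have hN : (0 : ℝ) < N := by exact_mod_cast NeZero.pos N
  have h1 := parseval (hh g h)
  have h2 := parseval g
  have h3 : ∑ ξ, ‖ft (hh g h) ξ‖ ^ 2 ≤ B ^ 2 * ∑ ξ, ‖ft g ξ‖ ^ 2 := by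
    rw [Finset.mul_sum]
    refine Finset.sum_le_sum fun ξ _ => ?_
    rw [ft_hh, norm_mul, mul_pow, mul_comm]
    exact mul_le_mul_of_nonneg_right (pow_le_pow_left₀ (norm_nonneg _) (hB (-ξ)) 2) (by positivity)
  rw [h1, h2] at h3
  have h4 : (N : ℝ) * ∑ x, (hh g h x) ^ 2 ≤ N * (B ^ 2 * ∑ t, (g t) ^ 2) := by
    calc (N : ℝ) * ∑ x, (hh g h x) ^ 2 ≤ B ^ 2 * (N * ∑ t, (g t) ^ 2) := h3
      _ = N * (B ^ 2 * ∑ t, (g t) ^ 2) := by ring
  exact le_of_mul_le_mul_left h4 hN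

end parseval

end Pool.Agent.Lib.GT.Transfer
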