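import Pool.Agent.Lib.MP_7b7e48_nt.GT.TransferNat
import Pool.Agent.Lib.MP_7b7e48_nt.GT.Corr
import Pool.Agent.Lib.MP_7b7e48_nt.GT.RoughCount
import Pool.Agent.Lib.Sieve.PairSieve
import Pool.Agent.Lib.Sieve.SingularAverage
import Pool.Agent.Lib.MP_092512_nt.MultAvg

/-!
# Moments of `Tw` and correlation bounds for the transference module
-/

open Finset

namespace Pool.Agent.Lib.GT.Transfer

open Corr (one_le_Tw one_le_inv)

lemma Tw_le (w D : ℕ) : Tw w D ≤ Tw 0 D := by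
  unfold Tw
  apply Finset.prod_le_prod_of_subset_of_one_le
  · intro p hp
    rw [Finset.mem_filter] at hp ⊢
    exact ⟨hp.1, by omega⟩
  · intro p hp
    rw [Finset.mem_filter, Nat.mem_primeFactors] at hp
    exact zero_le_one.trans (one_le_inv hp.1.1.two_le)
  · intro p hp _
    rw [Finset.mem_filter, Nat.mem_primeFactors] at hp
    exact one_le_inv hp.1.1.two_le

lemma sum_Tw_pow_le (k w X : ℕ) :
    ∑ n ∈ Icc 1 X, (Tw w n) ^ k ≤ X * Real.exp (4 * 2 ^ k / (w + 1)) :=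
  Pool.Agent.Lib.MP_092512_nt.sum_yf_pow_le k w X

lemma sum_T0_pow_le (k X : ℕ) (hk : k ≤ 6) :
    ∑ n ∈ Icc 1 X, (Tw 0 n) ^ k ≤ X * Real.exp 256 := by
  calc ∑ n ∈ Icc 1 X, (Tw 0 n) ^ k ≤ ∑ n ∈ Icc 1 X, (Tw 0 n) ^ 6 :=
        Finset.sum_le_sum fun n _ => pow_le_pow_right₀ (one_le_Tw 0 n) hk
    _ ≤ X * Real.exp (4 * 2 ^ 6 / ((0 : ℕ) + 1)) := sum_Tw_pow_le 6 0 X
    _ = X * Real.exp 256 := by norm_num

lemma sum_Tw_sub_one_sq (w X : ℕ) (hw : 1 ≤ w) :
    ∑ n ∈ Icc 1 X, (Tw w n - 1) ^ 2 ≤ X * (16 * Real.exp 16 / w) := by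
  have hw' : (1 : ℝ) ≤ w := by exact_mod_cast hw
  have h1 : ∑ n ∈ Icc 1 X, (Tw w n - 1) ^ 2 ≤ ∑ n ∈ Icc 1 X, ((Tw w n) ^ 2 - 1) := by
    apply Finset.sum_le_sum
    intro n _
    have := one_le_Tw w n
    nlinarith
  have h2 : ∑ n ∈ Icc 1 X, ((Tw w n) ^ 2 - 1) = ∑ n ∈ Icc 1 X, (Tw w n) ^ 2 - X := by
    rw [Finset.sum_sub_distrib]
    simp
  have h3 := sum_Tw_pow_le 2 w X
  set t : ℝ := 4 * 2 ^ 2 / (w + 1) with ht
  have ht0 : 0 ≤ t := by positivity
  have ht16 : t ≤ 16 := by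
    rw [ht, div_le_iff₀ (by positivity)]
    nlinarith
  have htw : t ≤ 16 / w := by
    rw [ht, div_le_div_iff₀ (by positivity) (by positivity)]
    nlinarith
  have h4 : Real.exp t - 1 ≤ t * Real.exp t := by
    have h5 := Real.add_one_le_exp (-t)
    have h6 : Real.exp (-t) * Real.exp t = 1 := by rw [← Real.exp_add]; simp
    have h7 : 0 < Real.exp t := Real.exp_pos t
    nlinarith
  have h5 : t * Real.exp t ≤ 16 * Real.exp 16 / w := by
    calc t * Real.exp t ≤ (16 / w) * Real.exp 16 :=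
          mul_le_mul htw (Real.exp_le_exp.mpr ht16) (Real.exp_pos _).le (by positivity)
      _ = 16 * Real.exp 16 / w := by ring
  have hX : (0 : ℝ) ≤ X := Nat.cast_nonneg X
  calc ∑ n ∈ Icc 1 X, (Tw w n - 1) ^ 2 ≤ ∑ n ∈ Icc 1 X, (Tw w n) ^ 2 - X := by rw [← h2]; exact h1
    _ ≤ X * Real.exp t - X := by linarith
    _ = X * (Real.exp t - 1) := by ring
    _ ≤ X * (16 * Real.exp 16 / w) := mul_le_mul_of_nonneg_left (h4.trans h5) hX

/-- Abstract form of the Cauchy-Schwarz step. -/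
lemma cs_step {w X E e₁ S₁ S₂ S₃ : ℝ} (hw : 1 ≤ w) (hX : 0 ≤ X) (hE : 0 ≤ E) (he : e₁ ≤ E)
    (_he0 : 0 ≤ e₁)
    (h1 : S₁ ^ 2 ≤ S₂ * S₃) (h2 : S₂ ≤ X * E) (h3 : S₃ ≤ X * (16 * e₁ / w)) (h3' : 0 ≤ S₃) :
    S₁ ≤ X * E * (4 / Real.sqrt w) := by
  have hw0 : 0 < w := by linarith
  have h7 : S₁ ^ 2 ≤ (X * E * (4 / Real.sqrt w)) ^ 2 := by
    calc S₁ ^ 2 ≤ S₂ * S₃ := h1
      _ ≤ (X * E) * (X * (16 * e₁ / w)) := mul_le_mul h2 h3 h3' (by positivity)
      _ ≤ (X * E) * (X * (16 * E / w)) := by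
          apply mul_le_mul_of_nonneg_left _ (by positivity)
          apply mul_le_mul_of_nonneg_left _ hX
          apply div_le_div_of_nonneg_right _ hw0.le
          linarith
      _ = (X * E * (4 / Real.sqrt w)) ^ 2 := by
          rw [mul_pow, div_pow, Real.sq_sqrt hw0.le]
          ring
  exact (abs_le_of_sq_le_sq' h7 (by positivity)).2

/-- The mixed moment occurring in the transference argument. -/
lemma mixed_moment (w X : ℕ) (hw : 1 ≤ w) (A B : ℝ) (hA : 0 ≤ A) (hB : 0 ≤ B) :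
    ∑ n ∈ Icc 1 X, (Tw 0 n) ^ 3 * (A * Tw w n + (Tw w n - 1) + B) ≤
      X * Real.exp 256 * (A + B + 4 / Real.sqrt w) := by
  have hw' : (1 : ℝ) ≤ w := by exact_mod_cast hw
  have hX : (0 : ℝ) ≤ X := Nat.cast_nonneg X
  have hE0 : 0 ≤ Real.exp 256 := (Real.exp_pos _).le
  have hE1 : Real.exp 16 ≤ Real.exp 256 := Real.exp_le_exp.mpr (by norm_num)
  have hT4 := sum_T0_pow_le 4 X (by norm_num)
  have hT3 := sum_T0_pow_le 3 X (by norm_num)
  have hT6 := sum_T0_pow_le 6 X le_rfl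
  have h6 := sum_Tw_sub_one_sq w X hw
  generalize Real.exp 256 = E at *
  have h1 : ∑ n ∈ Icc 1 X, (Tw 0 n) ^ 3 * (A * Tw w n + (Tw w n - 1) + B) =
      A * ∑ n ∈ Icc 1 X, (Tw 0 n) ^ 3 * Tw w n + ∑ n ∈ Icc 1 X, (Tw 0 n) ^ 3 * (Tw w n - 1) +
        B * ∑ n ∈ Icc 1 X, (Tw 0 n) ^ 3 := by
    rw [Finset.mul_sum, Finset.mul_sum, ← Finset.sum_add_distrib, ← Finset.sum_add_distrib]
    exact Finset.sum_congr rfl fun n _ => by ring
  have h2 : ∑ n ∈ Icc 1 X, (Tw 0 n) ^ 3 * Tw w n ≤ X * E := by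
    refine le_trans (Finset.sum_le_sum fun n _ => ?_) hT4
    have h3 := Tw_le w n
    have h4 := one_le_Tw 0 n
    calc (Tw 0 n) ^ 3 * Tw w n ≤ (Tw 0 n) ^ 3 * Tw 0 n :=
          mul_le_mul_of_nonneg_left h3 (by positivity)
      _ = (Tw 0 n) ^ 4 := by ring
  have h4 : ∑ n ∈ Icc 1 X, (Tw 0 n) ^ 3 * (Tw w n - 1) ≤ X * E * (4 / Real.sqrt w) := by
    have hCS := Finset.sum_mul_sq_le_sq_mul_sq (Icc 1 X) (fun n => (Tw 0 n) ^ 3)
      (fun n => Tw w n - 1)
    have h5 : ∑ n ∈ Icc 1 X, ((Tw 0 n) ^ 3) ^ 2 ≤ X * E := by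
      refine le_trans (le_of_eq (Finset.sum_congr rfl fun n _ => ?_)) hT6
      rw [← pow_mul]
    exact cs_step hw' hX hE0 hE1 (Real.exp_pos _).le hCS h5 h6
      (Finset.sum_nonneg fun _ _ => sq_nonneg _)
  rw [h1]
  have h5 := mul_le_mul_of_nonneg_left h2 hA
  have h6 := mul_le_mul_of_nonneg_left hT3 hB
  calc _ ≤ A * (X * E) + X * E * (4 / Real.sqrt w) + B * (X * E) := by linarith
    _ = _ := by ring

/-! ### correlations of the primes and of the majorant -/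

lemma sum_lam_le (X : ℕ) : ∑ n ∈ range (X + 1), lam n ≤ 2 * X := by
  have h1 : ∑ n ∈ range (X + 1), lam n = Chebyshev.theta (X : ℝ) := by
    unfold Chebyshev.theta lam
    rw [← Finset.sum_filter, Nat.floor_natCast]
    apply Finset.sum_congr _ (fun _ _ => rfl)
    ext n
    simp only [Finset.mem_filter, Finset.mem_range, Finset.mem_Ioc]
    constructor
    · rintro ⟨h2, h3⟩
      exact ⟨⟨h3.pos, by omega⟩, h3⟩
    · rintro ⟨⟨h2, h4⟩, h3⟩
      exact ⟨by omega, h3⟩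
  rw [h1]
  refine (Chebyshev.theta_le_log4_mul_x (Nat.cast_nonneg X)).trans ?_
  apply mul_le_mul_of_nonneg_right _ (Nat.cast_nonneg X)
  have h2 : Real.log 4 = 2 * Real.log 2 := by
    rw [show (4 : ℝ) = 2 ^ 2 by norm_num, Real.log_pow]; norm_num
  rw [h2]
  have := Real.log_two_lt_d9
  linarith

lemma Tw_zero_eq (D : ℕ) (hD : D ≠ 0) : Tw 0 D = (D : ℝ) / (Nat.totient D : ℝ) := by
  rw [Pool.Agent.Lib.Sieve.div_totient_eq_prod_inv D hD]
  unfold Tw
  apply Finset.prod_congr _ (fun _ _ => rfl)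
  apply Finset.filter_true_of_mem
  intro p hp
  exact (Nat.prime_of_mem_primeFactors hp).pos

lemma lamlam_le : ∃ C : ℝ, 0 < C ∧ ∀ X D : ℕ, 2 ≤ X → 1 ≤ D → D ≤ X →
    ∑ y ∈ range (X + 1 - D), lam y * lam (y + D) ≤ C * Tw 0 D * X := by
  obtain ⟨C, hC, h⟩ := Pool.Agent.Lib.Sieve.pair_sieve
  refine ⟨C, hC, fun X D hX hD hDX => ?_⟩
  have hXr : (2 : ℝ) ≤ X := by exact_mod_cast hX
  have hlog : 0 < Real.log X := Real.log_pos (by linarith)
  have h1 := h X D hX hD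
  rw [← Tw_zero_eq D (by omega)] at h1
  have h2 : ∑ y ∈ range (X + 1 - D), lam y * lam (y + D) ≤
      ∑ y ∈ range (X + 1 - D), (if y.Prime ∧ (y + D).Prime then (Real.log X) ^ 2 else 0) := by
    apply Finset.sum_le_sum
    intro y hy
    rw [Finset.mem_range] at hy
    unfold lam
    by_cases hy1 : y.Prime
    · by_cases hy2 : (y + D).Prime
      · rw [if_pos hy1, if_pos hy2, if_pos ⟨hy1, hy2⟩, pow_two]
        have h3 : Real.log y ≤ Real.log X :=
          Real.log_le_log (by exact_mod_cast hy1.pos) (by exact_mod_cast (by omega : y ≤ X))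
        have h4 : Real.log ((y + D : ℕ) : ℝ) ≤ Real.log X :=
          Real.log_le_log (by exact_mod_cast hy2.pos) (by exact_mod_cast (by omega : y + D ≤ X))
        exact mul_le_mul h3 h4 (Real.log_natCast_nonneg _) hlog.le
      · rw [if_neg hy2, mul_zero]
        split_ifs
        · exact sq_nonneg _
        · exact le_rfl
    · rw [if_neg hy1, zero_mul]
      split_ifs
      · exact sq_nonneg _
      · exact le_rfl
  have h3 : ∑ y ∈ range (X + 1 - D), (if y.Prime ∧ (y + D).Prime then (Real.log X) ^ 2 else 0) ≤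
      (((Finset.Icc 1 X).filter (fun p => p.Prime ∧ (p + D).Prime)).card : ℝ) *
        (Real.log X) ^ 2 := by
    rw [← Finset.sum_filter, Finset.sum_const, nsmul_eq_mul]
    apply mul_le_mul_of_nonneg_right _ (sq_nonneg _)
    have h4 : (range (X + 1 - D)).filter (fun p => p.Prime ∧ (p + D).Prime) ⊆
        (Finset.Icc 1 X).filter (fun p => p.Prime ∧ (p + D).Prime) := by
      intro p hp
      rw [Finset.mem_filter, Finset.mem_range] at hp
      rw [Finset.mem_filter, Finset.mem_Icc]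
      exact ⟨⟨hp.2.1.pos, by omega⟩, hp.2⟩
    exact_mod_cast Finset.card_le_card h4
  refine (h2.trans h3).trans ?_
  calc (((Finset.Icc 1 X).filter (fun p => p.Prime ∧ (p + D).Prime)).card : ℝ) * (Real.log X) ^ 2
      ≤ (C * Tw 0 D * X / (Real.log X) ^ 2) * (Real.log X) ^ 2 :=
        mul_le_mul_of_nonneg_right h1 (sq_nonneg _)
    _ = C * Tw 0 D * X := by
        rw [div_mul_cancel₀]
        positivity

lemma Lw_le (w n : ℕ) : Lw w n ≤ (V w)⁻¹ := by
  unfold Lw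
  split_ifs
  · exact le_rfl
  · exact inv_nonneg.mpr (V_pos w).le

lemma one_le_V_inv (w : ℕ) : 1 ≤ (V w)⁻¹ := (one_le_inv₀ (V_pos w)).mpr (V_le_one w)

lemma acor_h_le : ∃ C : ℝ, 1 ≤ C ∧ ∀ (X D w : ℕ) (h : ℕ → ℝ), 2 ≤ X → 1 ≤ D → D ≤ X →
    (∀ n, |h n| ≤ lam n + Lw w n) → |acor X h D| ≤ C * ((V w)⁻¹) ^ 2 * Tw 0 D * X := by
  obtain ⟨C, hC, hll⟩ := lamlam_le
  refine ⟨C + 5, by linarith, fun X D w h hX hD hDX hh => ?_⟩
  set W := (V w)⁻¹ with hW
  have hW1 : 1 ≤ W := one_le_V_inv w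
  have hT1 : 1 ≤ Tw 0 D := one_le_Tw 0 D
  have hX0 : (0 : ℝ) ≤ X := Nat.cast_nonneg X
  have hb : ∀ n, |h n| ≤ lam n + W := fun n => (hh n).trans (by linarith [Lw_le w n])
  have h1 : |acor X h D| ≤ ∑ y ∈ range (X + 1 - D), (lam y + W) * (lam (y + D) + W) := by
    unfold acor
    refine (Finset.abs_sum_le_sum_abs _ _).trans (Finset.sum_le_sum fun y _ => ?_)
    rw [abs_mul]
    exact mul_le_mul (hb y) (hb (y + D)) (abs_nonneg _) (by linarith [lam_nonneg y])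
  have h2 : ∑ y ∈ range (X + 1 - D), (lam y + W) * (lam (y + D) + W) =
      ∑ y ∈ range (X + 1 - D), lam y * lam (y + D) + W * ∑ y ∈ range (X + 1 - D), lam y +
      W * ∑ y ∈ range (X + 1 - D), lam (y + D) + W ^ 2 * (X + 1 - D : ℕ) := by
    have : W ^ 2 * ((X + 1 - D : ℕ) : ℝ) = ∑ y ∈ range (X + 1 - D), W ^ 2 := by
      rw [Finset.sum_const, Finset.card_range, nsmul_eq_mul, mul_comm]
    rw [this, Finset.mul_sum, Finset.mul_sum, ← Finset.sum_add_distrib, ← Finset.sum_add_distrib,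
      ← Finset.sum_add_distrib]
    exact Finset.sum_congr rfl fun y _ => by ring
  have h3 := hll X D hX hD hDX
  have h4 : ∑ y ∈ range (X + 1 - D), lam y ≤ 2 * X :=
    le_trans (Finset.sum_le_sum_of_subset_of_nonneg (Finset.range_subset_range.mpr (by omega))
      (fun _ _ _ => lam_nonneg _)) (sum_lam_le X)
  have h5 : ∑ y ∈ range (X + 1 - D), lam (y + D) ≤ 2 * X := by
    refine le_trans ?_ (sum_lam_le X)
    rw [← Finset.sum_image (f := lam) (g := fun y => y + D) (s := range (X + 1 - D))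
      (fun a _ b _ hab => by simpa using hab)]
    apply Finset.sum_le_sum_of_subset_of_nonneg
    · intro n hn
      rw [Finset.mem_image] at hn
      obtain ⟨y, hy, rfl⟩ := hn
      rw [Finset.mem_range] at hy ⊢
      omega
    · exact fun _ _ _ => lam_nonneg _
  have h6 : ((X + 1 - D : ℕ) : ℝ) ≤ X := by exact_mod_cast (by omega : X + 1 - D ≤ X)
  rw [h2] at h1
  have hW0 : 0 ≤ W := by linarith
  have hWT : 1 ≤ W ^ 2 * Tw 0 D := by
    have : 1 ≤ W ^ 2 := one_le_pow₀ hW1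
    nlinarith
  have e1 : C * Tw 0 D * X ≤ C * (W ^ 2 * Tw 0 D) * X := by
    have : Tw 0 D ≤ W ^ 2 * Tw 0 D := by
      have : 1 ≤ W ^ 2 := one_le_pow₀ hW1
      nlinarith
    apply mul_le_mul_of_nonneg_right _ hX0
    exact mul_le_mul_of_nonneg_left this hC.le
  have e2 : W * (2 * X) ≤ 2 * (W ^ 2 * Tw 0 D) * X := by
    have : W ≤ W ^ 2 * Tw 0 D := by
      calc W = W * 1 * 1 := by ring
        _ ≤ W * W * Tw 0 D := by
            apply mul_le_mul _ hT1 zero_le_one (by positivity)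
            exact mul_le_mul_of_nonneg_left hW1 hW0
        _ = W ^ 2 * Tw 0 D := by ring
    nlinarith
  have e3 : W ^ 2 * (X : ℝ) ≤ (W ^ 2 * Tw 0 D) * X := by
    apply mul_le_mul_of_nonneg_right _ hX0
    have : 0 ≤ W ^ 2 := by positivity
    nlinarith
  have f1 := mul_le_mul_of_nonneg_left h4 hW0
  have f2 := mul_le_mul_of_nonneg_left h5 hW0
  have f3 := mul_le_mul_of_nonneg_left h6 (sq_nonneg W)
  calc |acor X h D| ≤ C * Tw 0 D * X + W * (2 * X) + W * (2 * X) + W ^ 2 * X := by linarith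
    _ ≤ C * (W ^ 2 * Tw 0 D) * X + 2 * (W ^ 2 * Tw 0 D) * X + 2 * (W ^ 2 * Tw 0 D) * X +
        (W ^ 2 * Tw 0 D) * X := by linarith
    _ = (C + 5) * W ^ 2 * Tw 0 D * X := by ring

lemma acor_zero_le {X : ℕ} {a : ℕ → ℝ} {M : ℝ} (ha : ∀ n, n ≤ X → |a n| ≤ M) :
    |acor X a 0| ≤ (X + 1) * M ^ 2 := by
  unfold acor
  refine (Finset.abs_sum_le_sum_abs _ _).trans ?_
  calc ∑ y ∈ range (X + 1 - 0), |a y * a (y + 0)| ≤ ∑ y ∈ range (X + 1 - 0), M ^ 2 := by
        apply Finset.sum_le_sum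
        intro y hy
        rw [Finset.mem_range] at hy
        rw [add_zero, abs_mul, ← pow_two]
        exact pow_le_pow_left₀ (abs_nonneg _) (ha y (by omega)) 2
    _ = (X + 1) * M ^ 2 := by
        rw [Finset.sum_const, Finset.card_range, nsmul_eq_mul]
        push_cast
        ring

/-- correlations of the difference of majorants, truncated to `[1, X]` -/
lemma acor_nu_eq {X w z D : ℕ} (hw : 2 ≤ w) (hz : 2 ≤ z) (hD : 1 ≤ D) (hDX : D ≤ X) :
    acor X (fun n => if n ≤ X then Lw z n - Lw w n else 0) D =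
      ∑ x ∈ Finset.Icc 1 (X - D), (Lw z x - Lw w x) * (Lw z (x + D) - Lw w (x + D)) := by
  have hL0 : ∀ u : ℕ, 2 ≤ u → Lw u 0 = 0 := by
    intro u hu
    unfold Lw
    rw [if_neg]
    intro h
    have := h 2 Nat.prime_two (dvd_zero 2)
    omega
  unfold acor
  rw [show X + 1 - D = (X - D) + 1 by omega, Finset.range_eq_Ico, Finset.sum_eq_sum_Ico_succ_bot
    (by omega)]
  have h0 : (fun n => if n ≤ X then Lw z n - Lw w n else 0) 0 = (0 : ℝ) := by
    simp only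
    rw [if_pos (Nat.zero_le X), hL0 z hz, hL0 w hw, sub_zero]
  rw [h0, zero_mul, zero_add, zero_add]
  apply Finset.sum_congr
  · ext n
    simp only [Finset.mem_Ico, Finset.mem_Icc]
    omega
  · intro n hn
    rw [Finset.mem_Icc] at hn
    simp only
    rw [if_pos (by omega), if_pos (by omega)]

end Pool.Agent.Lib.GT.Transfer
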