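import Pool.Agent.Lib.MP_7b7e48_nt.GT.TransferAbs
import Pool.Agent.Lib.MP_7b7e48_nt.GT.Defs

/-!
# Transport of the two Cauchy-Schwarz lemmas to functions on the natural numbers
-/

open Finset

namespace Pool.Agent.Lib.GT.Transfer

/-- autocorrelation of a function on `[0, X]` -/
def acor (X : ℕ) (a : ℕ → ℝ) (D : ℕ) : ℝ := ∑ y ∈ range (X + 1 - D), a y * a (y + D)

section

variable {N : ℕ} [NeZero N]

lemma sum_val (φ : ℕ → ℝ) : ∑ a : ZMod N, φ a.val = ∑ n ∈ range N, φ n := by
  apply Finset.sum_nbij (fun a : ZMod N => a.val)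
  · intro a _
    exact Finset.mem_range.mpr (ZMod.val_lt a)
  · intro a _ b _ h
    exact ZMod.val_injective N h
  · intro n hn
    simp only [Finset.coe_range, Set.mem_Iio] at hn
    exact ⟨(n : ZMod N), by simp, ZMod.val_cast_of_lt hn⟩
  · intro a _
    rfl

/-- lift of a function on `ℕ` to `ZMod N` -/
def lift (a : ℕ → ℝ) (x : ZMod N) : ℝ := a x.val

lemma cor_neg (a : ZMod N → ℝ) (d : ZMod N) : cor a a (-d) = cor a a d := by
  unfold cor
  refine Fintype.sum_equiv (Equiv.subRight d) _ _ (fun y => ?_)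
  simp only [Equiv.subRight_apply, sub_add_cancel]
  rw [mul_comm, sub_eq_add_neg]

lemma cor_lift_of_le {X : ℕ} (hN : 2 * X < N) {a : ℕ → ℝ} (ha : ∀ n, X < n → a n = 0)
    {d : ZMod N} (hd : d.val ≤ X) : cor (lift a) (lift a) d = acor X a d.val := by
  unfold cor acor lift
  have h1 : ∀ y : ZMod N, a y.val * a (y + d).val =
      (fun n => if n < X + 1 - d.val then a n * a (n + d.val) else 0) y.val := by
    intro y
    simp only
    split_ifs with h
    · rw [ZMod.val_add_of_lt (by omega)]
    · by_cases hy : X < y.val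
      · rw [ha _ hy, zero_mul]
      · rw [ZMod.val_add_of_lt (by omega), ha (y.val + d.val) (by omega), mul_zero]
  rw [Finset.sum_congr rfl (fun y _ => h1 y),
    sum_val (fun n => if n < X + 1 - d.val then a n * a (n + d.val) else 0), ← Finset.sum_filter]
  apply Finset.sum_congr _ (fun _ _ => rfl)
  ext n
  simp only [Finset.mem_filter, Finset.mem_range]
  omega

lemma cor_lift_of_gt {X : ℕ} (_hN : 3 * X < N) {a : ℕ → ℝ} (ha : ∀ n, X < n → a n = 0)
    {d : ZMod N} (hd : X < d.val) (hd' : X < (-d).val) : cor (lift a) (lift a) d = 0 := by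
  unfold cor lift
  apply Finset.sum_eq_zero
  intro y _
  by_cases hy : X < y.val
  · rw [ha _ hy, zero_mul]
  · have hd0 : d ≠ 0 := by
      rintro rfl
      simp at hd
    have h1 : (-d).val = N - d.val := by
      have : NeZero d := ⟨hd0⟩
      exact ZMod.val_neg_of_ne_zero d
    have h2 := ZMod.val_lt d
    rw [h1] at hd'
    rw [ZMod.val_add_of_lt (by omega), ha (y.val + d.val) (by omega), mul_zero]

/-- the sum over `ZMod N` of `κ(d)² K(d)` -/
lemma sum_cor_le {X : ℕ} (hN : 3 * X < N) {a b : ℕ → ℝ} (ha : ∀ n, X < n → a n = 0)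
    (hb : ∀ n, X < n → b n = 0) :
    ∑ d : ZMod N, (cor (lift a) (lift a) d) ^ 2 * cor (lift b) (lift b) d ≤
      (acor X a 0) ^ 2 * |acor X b 0| +
        2 * ∑ D ∈ Icc 1 X, (acor X a D) ^ 2 * |acor X b D| := by
  set ψ : ℕ → ℝ := fun D => (acor X a D) ^ 2 * |acor X b D| with hψ
  have hψ0 : ∀ D, 0 ≤ ψ D := fun D => by positivity
  have h1 : ∀ d : ZMod N, (cor (lift a) (lift a) d) ^ 2 * cor (lift b) (lift b) d ≤
      (fun D => if D ≤ X then ψ D else 0) d.val +
        (fun D => if 1 ≤ D ∧ D ≤ X then ψ D else 0) (-d).val := by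
    intro d
    simp only
    have h0 : 0 ≤ (if 1 ≤ (-d).val ∧ (-d).val ≤ X then ψ (-d).val else 0) := by
      split_ifs
      · exact hψ0 _
      · exact le_rfl
    by_cases hd : d.val ≤ X
    · rw [if_pos hd, cor_lift_of_le (by omega) ha hd, cor_lift_of_le (by omega) hb hd]
      have := mul_le_mul_of_nonneg_left (le_abs_self (acor X b d.val)) (sq_nonneg (acor X a d.val))
      simp only [hψ] at h0 ⊢
      linarith
    · rw [if_neg hd]
      push Not at hd
      have hd0 : d ≠ 0 := by
        rintro rfl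
        simp at hd
      by_cases hd' : (-d).val ≤ X
      · have h2 : 1 ≤ (-d).val := by
          rw [Nat.one_le_iff_ne_zero, ne_eq, ZMod.val_eq_zero, neg_eq_zero]
          exact hd0
        rw [if_pos ⟨h2, hd'⟩, zero_add, ← cor_neg (lift a) d, ← cor_neg (lift b) d,
          cor_lift_of_le (by omega) ha hd', cor_lift_of_le (by omega) hb hd']
        exact mul_le_mul_of_nonneg_left (le_abs_self _) (sq_nonneg _)
      · push Not at hd'
        rw [cor_lift_of_gt hN ha hd hd']
        have : (0 : ℝ) ^ 2 * cor (lift b) (lift b) d = 0 := by ring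
        rw [this]
        linarith
  refine (Finset.sum_le_sum fun d _ => h1 d).trans ?_
  rw [Finset.sum_add_distrib, sum_val (fun D => if D ≤ X then ψ D else 0)]
  have h2 : ∑ d : ZMod N, (fun D => if 1 ≤ D ∧ D ≤ X then ψ D else 0) (-d).val =
      ∑ D ∈ range N, (if 1 ≤ D ∧ D ≤ X then ψ D else 0) := by
    rw [← sum_val (fun D => if 1 ≤ D ∧ D ≤ X then ψ D else 0)]
    exact Fintype.sum_equiv (Equiv.neg _) _ _ (fun d => rfl)
  rw [h2, ← Finset.sum_filter, ← Finset.sum_filter]
  have h3 : (range N).filter (fun D => D ≤ X) = insert 0 (Icc 1 X) := by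
    ext D
    simp only [Finset.mem_filter, Finset.mem_range, Finset.mem_insert, Finset.mem_Icc]
    omega
  have h4 : (range N).filter (fun D => 1 ≤ D ∧ D ≤ X) = Icc 1 X := by
    ext D
    simp only [Finset.mem_filter, Finset.mem_range, Finset.mem_Icc]
    omega
  rw [h3, h4, Finset.sum_insert (by simp)]
  linarith

lemma std_eq (ξ : ZMod N) (n : ℕ) :
    (ZMod.stdAddChar (ξ * (n : ZMod N)) : ℂ) = e (((ξ.val : ℝ) / N) * n) := by
  have h1 : ξ * (n : ZMod N) = (((ξ.val * n : ℕ) : ℤ) : ZMod N) := by
    push_cast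
    rw [ZMod.natCast_zmod_val]
  rw [h1, ZMod.stdAddChar_coe]
  unfold e
  congr 1
  push_cast
  ring

lemma ft_lift {X : ℕ} (hN : X < N) {h : ℕ → ℝ} (hh : ∀ n, X < n → h n = 0) (hh0 : h 0 = 0)
    (ξ : ZMod N) :
    ft (lift h) ξ = ∑ n ∈ Icc 1 X, (h n : ℂ) * e (((ξ.val : ℝ) / N) * n) := by
  unfold ft lift
  have h1 : ∀ x : ZMod N, ((h x.val : ℝ) : ℂ) * ZMod.stdAddChar (ξ * x) =
      (fun n : ℕ => (h n : ℂ) * e (((ξ.val : ℝ) / N) * n)) x.val := by
    intro x
    simp only
    rw [← std_eq, ZMod.natCast_zmod_val]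
  rw [Finset.sum_congr rfl (fun x _ => h1 x)]
  have h2 : ∑ x : ZMod N, (fun n : ℕ => (h n : ℂ) * e (((ξ.val : ℝ) / N) * n)) x.val =
      ∑ n ∈ range N, (h n : ℂ) * e (((ξ.val : ℝ) / N) * n) := by
    apply Finset.sum_nbij (fun a : ZMod N => a.val)
    · intro a _
      exact Finset.mem_range.mpr (ZMod.val_lt a)
    · intro a _ b _ h
      exact ZMod.val_injective N h
    · intro n hn
      simp only [Finset.coe_range, Set.mem_Iio] at hn
      exact ⟨(n : ZMod N), by simp, ZMod.val_cast_of_lt hn⟩
    · intro a _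
      rfl
  rw [h2]
  symm
  apply Finset.sum_subset
  · intro n hn
    rw [Finset.mem_Icc] at hn
    rw [Finset.mem_range]
    omega
  · intro n hn hn'
    rw [Finset.mem_Icc] at hn'
    by_cases h0 : n = 0
    · rw [h0, hh0]; simp
    · rw [hh n (by omega)]; simp

/-- rewriting the convolution sum as a sum over `ZMod N` -/
lemma conv_eq {X : ℕ} (hN : 2 * X < N) {f h g : ℕ → ℝ} (hf : ∀ n, X < n → f n = 0)
    (hh' : ∀ n, X < n → h n = 0) :
    ∑ n ∈ range (2 * X + 1), g n * ∑ x ∈ range (n + 1), f x * h (n - x) =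
      ∑ x : ZMod N, lift f x * hh (lift g) (lift h) x := by
  -- each inner sum over pairs
  have h1 : ∀ n ∈ range (2 * X + 1), g n * ∑ x ∈ range (n + 1), f x * h (n - x) =
      ∑ x ∈ range (X + 1), ∑ y ∈ range (X + 1), if x + y = n then g n * (f x * h y) else 0 := by
    intro n _
    rw [Finset.mul_sum]
    have h2 : ∀ x ∈ range (X + 1), (∑ y ∈ range (X + 1),
        if x + y = n then g n * (f x * h y) else 0) =
        if x ≤ n then g n * (f x * h (n - x)) else 0 := by
      intro x _
      by_cases hx : x ≤ n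
      · rw [if_pos hx]
        by_cases hy : n - x ≤ X
        · rw [Finset.sum_eq_single (n - x)]
          · rw [if_pos (by omega)]
          · intro y _ hy'
            rw [if_neg (by omega)]
          · intro h3
            exact absurd (Finset.mem_range.mpr (by omega)) h3
        · rw [hh' (n - x) (by omega), mul_zero, mul_zero]
          apply Finset.sum_eq_zero
          intro y hy'
          rw [Finset.mem_range] at hy'
          rw [if_neg (by omega)]
      · rw [if_neg hx]
        apply Finset.sum_eq_zero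
        intro y _
        rw [if_neg (by omega)]
    rw [Finset.sum_congr rfl h2, ← Finset.sum_filter]
    -- compare the two ranges
    symm
    apply Finset.sum_subset
    · intro x hx
      rw [Finset.mem_filter] at hx
      rw [Finset.mem_range]
      omega
    · intro x hx hx'
      rw [Finset.mem_filter, Finset.mem_range] at hx'
      rw [Finset.mem_range] at hx
      rw [hf x (by omega), zero_mul, mul_zero]
  rw [Finset.sum_congr rfl h1, Finset.sum_comm]
  have h3 : ∀ x ∈ range (X + 1), (∑ n ∈ range (2 * X + 1), ∑ y ∈ range (X + 1),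
      if x + y = n then g n * (f x * h y) else 0) = f x * ∑ y ∈ range (X + 1), g (x + y) * h y := by
    intro x hx
    rw [Finset.sum_comm, Finset.mul_sum]
    refine Finset.sum_congr rfl fun y hy => ?_
    rw [Finset.mem_range] at hx hy
    rw [Finset.sum_eq_single (x + y)]
    · rw [if_pos rfl]; ring
    · intro n _ hn
      rw [if_neg (fun h => hn h.symm)]
    · intro h3
      exact absurd (Finset.mem_range.mpr (by omega)) h3
  rw [Finset.sum_congr rfl h3]
  -- the right hand side
  have h4 : ∀ x : ZMod N, lift f x * hh (lift g) (lift h) x =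
      (fun n => if n < X + 1 then f n * ∑ y ∈ range (X + 1), g (n + y) * h y else 0) x.val := by
    intro x
    simp only
    by_cases hx : x.val < X + 1
    · rw [if_pos hx]
      unfold lift hh
      congr 1
      have h5 : ∀ y : ZMod N, g (x + y).val * h y.val =
          (fun m => if m < X + 1 then g (x.val + m) * h m else 0) y.val := by
        intro y
        simp only
        split_ifs with hy
        · rw [ZMod.val_add_of_lt (by omega)]
        · rw [hh' _ (by omega), mul_zero]
      rw [Finset.sum_congr rfl (fun y _ => h5 y),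
        sum_val (fun m => if m < X + 1 then g (x.val + m) * h m else 0), ← Finset.sum_filter]
      symm
      apply Finset.sum_congr _ (fun _ _ => rfl)
      ext m
      simp only [Finset.mem_filter, Finset.mem_range]
      omega
    · rw [if_neg hx]
      unfold lift
      rw [hf _ (by omega), zero_mul]
  rw [Finset.sum_congr rfl (fun x _ => h4 x),
    sum_val (fun n => if n < X + 1 then f n * ∑ y ∈ range (X + 1), g (n + y) * h y else 0),
    ← Finset.sum_filter]
  apply Finset.sum_congr _ (fun _ _ => rfl)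
  ext m
  simp only [Finset.mem_filter, Finset.mem_range]
  omega

end

/-- The basic inequality. -/
theorem main_ineq {X : ℕ} {f h ν₁ μ ρ : ℕ → ℝ} {c W B : ℝ} (hc : 0 ≤ c)
    (hf : ∀ n, X < n → f n = 0) (hh' : ∀ n, X < n → h n = 0) (hh0 : h 0 = 0)
    (hν : ∀ n, X < n → ν₁ n = 0) (hμ0 : ∀ n, 0 ≤ μ n) (hμ : ∀ n, μ n ≤ W) (hρ : ∀ n, 0 ≤ ρ n)
    (hmaj : ∀ n, n ≤ X → |f n| ≤ c * (μ n + ν₁ n) + ρ n)
    (hB : ∀ α : ℝ, ‖∑ n ∈ Icc 1 X, (h n : ℂ) * e (α * n)‖ ≤ B) :
    (∑ n ∈ range (2 * X + 1), |∑ x ∈ range (n + 1), f x * h (n - x)|) ^ 2 ≤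
      (∑ n ∈ range (X + 1), |f n|) * (c * (W * (B ^ 2 * (2 * X + 1)) + (2 * X + 1) *
        Real.sqrt ((acor X h 0) ^ 2 * |acor X ν₁ 0| +
          2 * ∑ D ∈ Icc 1 X, (acor X h D) ^ 2 * |acor X ν₁ D|)) +
        (∑ n ∈ range (X + 1), ρ n) * (∑ n ∈ range (X + 1), |h n|) ^ 2) := by
  classical
  set I : ℕ → ℝ := fun n => ∑ x ∈ range (n + 1), f x * h (n - x) with hI
  set g : ℕ → ℝ := fun n => if n < 2 * X + 1 then (if 0 ≤ I n then 1 else -1) else 0 with hg
  have hW : 0 ≤ W := (hμ0 0).trans (hμ 0)
  have hg1 : ∀ n, |g n| ≤ 1 := by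
    intro n
    simp only [hg]
    split_ifs <;> simp
  have hgI : ∀ n ∈ range (2 * X + 1), |I n| = g n * I n := by
    intro n hn
    rw [Finset.mem_range] at hn
    simp only [hg, if_pos hn]
    split_ifs with h0
    · rw [abs_of_nonneg h0, one_mul]
    · push Not at h0
      rw [abs_of_neg h0]; ring
  let N : ℕ := 4 * X + 1
  have : NeZero N := ⟨by omega⟩
  have hN : N = 4 * X + 1 := rfl
  rw [Finset.sum_congr rfl hgI]
  have hS : ∑ n ∈ range (2 * X + 1), g n * I n =
      ∑ x : ZMod N, lift f x * hh (lift g) (lift h) x :=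
    conv_eq (by omega) hf hh'
  rw [hS]
  -- sums of absolute values over `ZMod N`
  have hsumabs : ∀ a : ℕ → ℝ, (∀ n, X < n → a n = 0) →
      ∑ x : ZMod N, |lift a x| = ∑ n ∈ range (X + 1), |a n| := by
    intro a ha
    unfold lift
    rw [sum_val (fun n => |a n|)]
    symm
    apply Finset.sum_subset
    · intro n hn
      rw [Finset.mem_range] at hn ⊢
      omega
    · intro n _ hn
      rw [Finset.mem_range] at hn
      rw [ha n (by omega), abs_zero]
  -- first Cauchy-Schwarz
  have hCS : (∑ x : ZMod N, lift f x * hh (lift g) (lift h) x) ^ 2 ≤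
      (∑ x : ZMod N, |lift f x|) * ∑ x : ZMod N, |lift f x| * (hh (lift g) (lift h) x) ^ 2 := by
    have h1 := Finset.sum_mul_sq_le_sq_mul_sq (Finset.univ : Finset (ZMod N))
      (fun x => Real.sqrt |lift f x|) (fun x => Real.sqrt |lift f x| * |hh (lift g) (lift h) x|)
    have h2 : (∑ x : ZMod N, lift f x * hh (lift g) (lift h) x) ^ 2 ≤
        (∑ x : ZMod N, Real.sqrt |lift f x| *
          (Real.sqrt |lift f x| * |hh (lift g) (lift h) x|)) ^ 2 := by
      apply sq_le_sq'
      · rw [neg_le]
        rw [← Finset.sum_neg_distrib]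
        apply Finset.sum_le_sum
        intro x _
        rw [← mul_assoc, Real.mul_self_sqrt (abs_nonneg _), ← abs_mul]
        exact neg_le_abs _
      · apply Finset.sum_le_sum
        intro x _
        rw [← mul_assoc, Real.mul_self_sqrt (abs_nonneg _), ← abs_mul]
        exact le_abs_self _
    refine h2.trans (h1.trans (le_of_eq ?_))
    congr 1
    · exact Finset.sum_congr rfl fun x _ => Real.sq_sqrt (abs_nonneg _)
    · refine Finset.sum_congr rfl fun x _ => ?_
      rw [mul_pow, Real.sq_sqrt (abs_nonneg _), sq_abs]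
  -- the pointwise majorant
  set ρ' : ℕ → ℝ := fun n => if n ≤ X then ρ n else 0 with hρ'
  have hmaj' : ∀ x : ZMod N, |lift f x| ≤
      c * W + c * lift ν₁ x + lift ρ' x := by
    intro x
    unfold lift
    simp only [hρ']
    by_cases hx : x.val ≤ X
    · rw [if_pos hx]
      have h1 := hmaj x.val hx
      have h2 := mul_le_mul_of_nonneg_left (hμ x.val) hc
      linarith
    · rw [if_neg hx, hf _ (by omega), hν _ (by omega)]
      simp
      positivity
  have hHsup : ∀ x : ZMod N, (hh (lift g) (lift h) x) ^ 2 ≤ (∑ n ∈ range (X + 1), |h n|) ^ 2 := by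
    intro x
    rw [← sq_abs]
    apply pow_le_pow_left₀ (abs_nonneg _)
    rw [← hsumabs h hh']
    unfold hh
    refine (Finset.abs_sum_le_sum_abs _ _).trans ?_
    apply Finset.sum_le_sum
    intro y _
    rw [abs_mul]
    have h1 : |lift g (x + y)| ≤ 1 := hg1 _
    have h2 : 0 ≤ |lift h y| := abs_nonneg _
    nlinarith
  -- the three parts
  have hp1 : ∑ x : ZMod N, (hh (lift g) (lift h) x) ^ 2 ≤ B ^ 2 * (2 * X + 1) := by
    have hB0 : 0 ≤ B := (norm_nonneg _).trans (hB 0)
    have h1 := sum_hh_sq_le (lift g) (lift h) B (fun ξ => by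
      rw [ft_lift (N := N) (X := X) (show X < N by omega) hh' hh0 ξ]
      exact hB _)
    refine h1.trans (mul_le_mul_of_nonneg_left ?_ (sq_nonneg B))
    have h2 : ∑ t : ZMod N, (lift g t) ^ 2 = ∑ n ∈ range N, (g n) ^ 2 :=
      sum_val (fun n => (g n) ^ 2)
    rw [h2]
    calc ∑ n ∈ range N, (g n) ^ 2 ≤ ∑ n ∈ range N, (if n < 2 * X + 1 then (1 : ℝ) else 0) := by
          apply Finset.sum_le_sum
          intro n _
          by_cases hn : n < 2 * X + 1
          · rw [if_pos hn, ← sq_abs]
            have := hg1 n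
            have h0 := abs_nonneg (g n)
            nlinarith
          · rw [if_neg hn]
            have hgn : g n = 0 := by
              simp only [hg]
              rw [if_neg hn]
            rw [hgn]
            norm_num
      _ = ∑ n ∈ (range N).filter (fun n => n < 2 * X + 1), (1 : ℝ) := by
          rw [Finset.sum_filter]
      _ ≤ ∑ n ∈ range (2 * X + 1), (1 : ℝ) := by
          apply Finset.sum_le_sum_of_subset_of_nonneg
          · intro n hn
            rw [Finset.mem_filter] at hn
            exact Finset.mem_range.mpr hn.2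
          · intro _ _ _; norm_num
      _ = 2 * X + 1 := by simp
  have hp2 : ∑ x : ZMod N, lift ν₁ x * (hh (lift g) (lift h) x) ^ 2 ≤ (2 * X + 1) *
        Real.sqrt ((acor X h 0) ^ 2 * |acor X ν₁ 0| +
          2 * ∑ D ∈ Icc 1 X, (acor X h D) ^ 2 * |acor X ν₁ D|) := by
    set T : Finset (ZMod N) := Finset.univ.filter (fun x => x.val < 2 * X + 1) with hT
    have h1 := weighted_le (lift ν₁) (lift g) (lift h) T (fun t ht => by
      have : ¬ t.val < 2 * X + 1 := by simpa [hT] using ht
      simp only [lift, hg]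
      rw [if_neg this]) (fun t => hg1 _)
    have hTc : (T.card : ℝ) = 2 * X + 1 := by
      have h2 : (T.card : ℝ) = ∑ x : ZMod N, (fun n => if n < 2 * X + 1 then (1 : ℝ) else 0) x.val := by
        rw [hT, Finset.card_filter]
        push_cast
        rfl
      rw [h2, sum_val (fun n => if n < 2 * X + 1 then (1 : ℝ) else 0), ← Finset.sum_filter]
      have h3 : (range N).filter (fun n => n < 2 * X + 1) = range (2 * X + 1) := by
        ext n
        simp only [Finset.mem_filter, Finset.mem_range]
        omega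
      rw [h3]
      simp
    rw [hTc] at h1
    refine (le_abs_self _).trans (h1.trans ?_)
    apply mul_le_mul_of_nonneg_left _ (by positivity)
    apply Real.sqrt_le_sqrt
    exact sum_cor_le (by omega) hh' hν
  have hp3 : ∑ x : ZMod N, lift ρ' x * (hh (lift g) (lift h) x) ^ 2 ≤
      (∑ n ∈ range (X + 1), ρ n) * (∑ n ∈ range (X + 1), |h n|) ^ 2 := by
    have h1 : ∑ x : ZMod N, lift ρ' x = ∑ n ∈ range (X + 1), ρ n := by
      unfold lift
      rw [sum_val ρ', hρ', ← Finset.sum_filter]
      apply Finset.sum_congr _ (fun _ _ => rfl)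
      ext n
      simp only [Finset.mem_filter, Finset.mem_range]
      omega
    rw [← h1, Finset.sum_mul]
    apply Finset.sum_le_sum
    intro x _
    apply mul_le_mul_of_nonneg_left (hHsup x)
    unfold lift
    simp only [hρ']
    split_ifs
    · exact hρ _
    · exact le_rfl
  refine hCS.trans ?_
  rw [hsumabs f hf]
  apply mul_le_mul_of_nonneg_left _ (Finset.sum_nonneg fun _ _ => abs_nonneg _)
  calc ∑ x : ZMod N, |lift f x| * (hh (lift g) (lift h) x) ^ 2
      ≤ ∑ x : ZMod N, (c * W + c * lift ν₁ x + lift ρ' x) * (hh (lift g) (lift h) x) ^ 2 :=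
        Finset.sum_le_sum fun x _ => mul_le_mul_of_nonneg_right (hmaj' x) (sq_nonneg _)
    _ = c * W * ∑ x : ZMod N, (hh (lift g) (lift h) x) ^ 2 +
        c * ∑ x : ZMod N, lift ν₁ x * (hh (lift g) (lift h) x) ^ 2 +
        ∑ x : ZMod N, lift ρ' x * (hh (lift g) (lift h) x) ^ 2 := by
        rw [Finset.mul_sum, Finset.mul_sum, ← Finset.sum_add_distrib, ← Finset.sum_add_distrib]
        exact Finset.sum_congr rfl fun x _ => by ring
    _ ≤ _ := by
        have h1 := mul_le_mul_of_nonneg_left hp1 (mul_nonneg hc hW)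
        have h2 := mul_le_mul_of_nonneg_left hp2 hc
        rw [mul_add c]
        have h3 : c * W * (B ^ 2 * (2 * (X : ℝ) + 1)) = c * (W * (B ^ 2 * (2 * X + 1))) := by ring
        linarith

end Pool.Agent.Lib.GT.Transfer
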