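import Pool.Agent.Lib.MP_7b7e48_nt.GT.Defs

/-!
# Goldbach-Turan project: periodic functions, geometric sums, partial summation
-/

open Finset

namespace Pool.Agent.Lib.GT

theorem e_ne_zero (x : ℝ) : e x ≠ 0 := by
  have := norm_e x
  intro h
  rw [h, norm_zero] at this
  exact zero_ne_one this

theorem norm_e_sub_one (x : ℝ) : ‖e x - 1‖ = 2 * |Real.sin (Real.pi * x)| := by
  unfold e
  rw [show (2 * Real.pi * x * Complex.I : ℂ) = Complex.I * ((2 * Real.pi * x : ℝ) : ℂ) by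
    push_cast; ring, Complex.norm_exp_I_mul_ofReal_sub_one]
  rw [Real.norm_eq_abs, abs_mul, abs_two]
  congr 3
  ring

theorem norm_e_sub_one_le (x : ℝ) : ‖e x - 1‖ ≤ 2 * Real.pi * |x| := by
  rw [norm_e_sub_one]
  have h1 := Real.abs_sin_le_abs (x := Real.pi * x)
  rw [abs_mul, abs_of_pos Real.pi_pos] at h1
  linarith

theorem four_mul_le_norm_e_sub_one {x δ : ℝ} (h : ∀ a : ℤ, δ ≤ |x - a|) :
    4 * δ ≤ ‖e x - 1‖ := by
  set y : ℝ := x - round x with hy
  have hy2 : |y| ≤ 1 / 2 := abs_sub_round x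
  have he : e x = e y := by
    have : x = y + (round x : ℤ) := by rw [hy]; ring
    rw [this, e_add_int]
  rw [he, norm_e_sub_one]
  have hδ : δ ≤ |y| := h (round x)
  have hpi := Real.pi_pos
  have habs : |Real.sin (Real.pi * y)| = Real.sin (Real.pi * |y|) := by
    rcases abs_cases y with ⟨h1, h2⟩ | ⟨h1, h2⟩
    · rw [h1]
      refine abs_of_nonneg (Real.sin_nonneg_of_nonneg_of_le_pi (by positivity) ?_)
      rw [h1] at hy2
      nlinarith
    · rw [h1, mul_neg, Real.sin_neg]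
      refine abs_of_nonpos ?_
      have : 0 ≤ Real.sin (Real.pi * (-y)) :=
        Real.sin_nonneg_of_nonneg_of_le_pi (by nlinarith) (by rw [h1] at hy2; nlinarith)
      rw [mul_neg, Real.sin_neg] at this
      linarith
  rw [habs]
  have h3 := Real.mul_le_sin (x := Real.pi * |y|) (by positivity) (by nlinarith [abs_nonneg y])
  have h4 : 2 / Real.pi * (Real.pi * |y|) = 2 * |y| := by
    field_simp
  rw [h4] at h3
  linarith

theorem e_mul_nat (x : ℝ) (n : ℕ) : e (x * n) = e x ^ n := by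
  induction n with
  | zero => simp [e_zero]
  | succ k ih =>
    rw [pow_succ, ← ih, ← e_add]
    congr 1
    push_cast
    ring

theorem norm_geom_le {ω : ℂ} (h1 : ‖ω‖ = 1) (hω : ω ≠ 1) (k : ℕ) :
    ‖∑ j ∈ range k, ω ^ j‖ ≤ 2 / ‖ω - 1‖ := by
  rw [geom_sum_eq hω, norm_div]
  have h2 : ‖ω ^ k - 1‖ ≤ 2 := by
    refine (norm_sub_le _ _).trans ?_
    rw [norm_pow, h1, one_pow, norm_one]
    norm_num
  gcongr

theorem periodic_mul {G : ℕ → ℂ} {T : ℕ} (hG : ∀ n, G (n + T) = G n) (k n : ℕ) :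
    G (T * k + n) = G n := by
  induction k with
  | zero => simp
  | succ k ih =>
    rw [show T * (k + 1) + n = (T * k + n) + T by ring, hG, ih]

theorem sum_range_mul_block (f : ℕ → ℂ) (T k : ℕ) :
    ∑ n ∈ range (T * k), f n = ∑ j ∈ range k, ∑ c ∈ range T, f (T * j + c) := by
  induction k with
  | zero => simp
  | succ k ih =>
    rw [Finset.sum_range_succ, ← ih, show T * (k + 1) = T * k + T by ring, Finset.sum_range_add]

/-- exponential sum of a periodic function -/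
theorem norm_sum_periodic_e {T : ℕ} (hT : 0 < T) {G : ℕ → ℂ} (hG : ∀ n, G (n + T) = G n) {α : ℝ}
    (h : e (α * T) ≠ 1) (N : ℕ) :
    ‖∑ n ∈ range N, G n * e (α * n)‖ ≤
      (∑ c ∈ range T, ‖G c‖) * (2 / ‖e (α * T) - 1‖ + 1) := by
  have hN : N = T * (N / T) + N % T := (Nat.div_add_mod N T).symm
  set k := N / T with hk
  set r := N % T with hr
  have hrT : r < T := Nat.mod_lt _ hT
  rw [hN, Finset.sum_range_add, sum_range_mul_block]
  have hfac : ∀ j c : ℕ, G (T * j + c) * e (α * ((T * j + c : ℕ) : ℝ)) =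
      e (α * T) ^ j * (G c * e (α * c)) := by
    intro j c
    rw [periodic_mul hG, ← e_mul_nat]
    rw [show α * ((T * j + c : ℕ) : ℝ) = α * T * j + α * c by push_cast; ring, e_add]
    ring
  have hS0 : 0 ≤ ∑ c ∈ range T, ‖G c‖ := Finset.sum_nonneg fun _ _ => norm_nonneg _
  have h1 : ‖∑ j ∈ range k, ∑ c ∈ range T, G (T * j + c) * e (α * ((T * j + c : ℕ) : ℝ))‖ ≤
      (∑ c ∈ range T, ‖G c‖) * (2 / ‖e (α * T) - 1‖) := by
    have : ∑ j ∈ range k, ∑ c ∈ range T, G (T * j + c) * e (α * ((T * j + c : ℕ) : ℝ)) =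
        (∑ j ∈ range k, e (α * T) ^ j) * ∑ c ∈ range T, G c * e (α * c) := by
      rw [Finset.sum_mul]
      refine Finset.sum_congr rfl fun j _ => ?_
      rw [Finset.mul_sum]
      exact Finset.sum_congr rfl fun c _ => hfac j c
    rw [this, norm_mul, mul_comm]
    have h2 : ‖∑ c ∈ range T, G c * e (α * c)‖ ≤ ∑ c ∈ range T, ‖G c‖ := by
      refine (norm_sum_le _ _).trans (Finset.sum_le_sum fun c _ => ?_)
      rw [norm_mul, norm_e, mul_one]
    exact mul_le_mul h2 (norm_geom_le (norm_e _) h k) (norm_nonneg _) hS0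
  have h2 : ‖∑ x ∈ range r, G (T * k + x) * e (α * ((T * k + x : ℕ) : ℝ))‖ ≤
      ∑ c ∈ range T, ‖G c‖ := by
    refine (norm_sum_le _ _).trans ?_
    have : ∀ x ∈ range r, ‖G (T * k + x) * e (α * ((T * k + x : ℕ) : ℝ))‖ = ‖G x‖ := by
      intro x _
      rw [norm_mul, norm_e, mul_one, periodic_mul hG]
    rw [Finset.sum_congr rfl this]
    exact Finset.sum_le_sum_of_subset_of_nonneg
      (Finset.range_subset_range.mpr hrT.le) fun _ _ _ => norm_nonneg _
  calc _ ≤ _ := norm_add_le _ _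
    _ ≤ (∑ c ∈ range T, ‖G c‖) * (2 / ‖e (α * T) - 1‖) + ∑ c ∈ range T, ‖G c‖ := add_le_add h1 h2
    _ = _ := by ring

/-- mean value of a periodic function -/
theorem norm_sum_periodic_sub_le {T : ℕ} (hT : 0 < T) {G : ℕ → ℂ} (hG : ∀ n, G (n + T) = G n)
    (N : ℕ) :
    ‖∑ n ∈ range N, G n - (N : ℂ) * ((∑ c ∈ range T, G c) / T)‖ ≤ 2 * ∑ c ∈ range T, ‖G c‖ := by
  have hN : N = T * (N / T) + N % T := (Nat.div_add_mod N T).symm
  set k := N / T with hk
  set r := N % T with hr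
  have hrT : r < T := Nat.mod_lt _ hT
  set S := ∑ c ∈ range T, G c with hS
  have e1 : ∑ n ∈ range N, G n = k * S + ∑ x ∈ range r, G x := by
    rw [hN, Finset.sum_range_add, sum_range_mul_block]
    congr 1
    · rw [Finset.sum_congr rfl fun j _ => Finset.sum_congr rfl fun c _ => periodic_mul hG j c]
      rw [Finset.sum_const, Finset.card_range, nsmul_eq_mul]
    · exact Finset.sum_congr rfl fun c _ => periodic_mul hG k c
  have hTC : (T : ℂ) ≠ 0 := by exact_mod_cast hT.ne'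
  have e2 : (N : ℂ) * (S / T) = k * S + r / T * S := by
    have : (N : ℂ) = T * k + r := by exact_mod_cast congrArg (Nat.cast : ℕ → ℂ) hN
    rw [this]
    field_simp
  rw [e1, e2, add_sub_add_left_eq_sub]
  have hle : ‖S‖ ≤ ∑ c ∈ range T, ‖G c‖ := norm_sum_le _ _
  have h1 : ‖∑ x ∈ range r, G x‖ ≤ ∑ c ∈ range T, ‖G c‖ :=
    (norm_sum_le _ _).trans (Finset.sum_le_sum_of_subset_of_nonneg
      (Finset.range_subset_range.mpr hrT.le) fun _ _ _ => norm_nonneg _)
  have h2 : ‖(r : ℂ) / T * S‖ ≤ ∑ c ∈ range T, ‖G c‖ := by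
    rw [norm_mul, norm_div, Complex.norm_natCast, Complex.norm_natCast]
    have hq : (r : ℝ) / T ≤ 1 := by
      rw [div_le_one (by exact_mod_cast hT)]
      exact_mod_cast hrT.le
    calc (r : ℝ) / T * ‖S‖ ≤ 1 * ‖S‖ := by gcongr
      _ ≤ _ := by rw [one_mul]; exact hle
  calc _ ≤ _ := norm_sub_le _ _
    _ ≤ _ := by linarith

theorem sum_range_shift {T : ℕ} {G : ℕ → ℂ} (hG : ∀ n, G (n + T) = G n) (s : ℕ) :
    ∑ n ∈ range T, G (n + s) = ∑ n ∈ range T, G n := by
  induction s with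
  | zero => simp
  | succ s ih =>
    rw [← ih]
    have h1 : ∑ n ∈ range T, G (n + (s + 1)) + G (0 + s) =
        ∑ n ∈ range T, G (n + s) + G (T + s) := by
      rw [← Finset.sum_range_succ (fun n => G (n + s)), Finset.sum_range_succ']
      congr 1
      refine Finset.sum_congr rfl fun n _ => ?_
      congr 1
      ring
    have h2 : G (T + s) = G (0 + s) := by
      rw [zero_add, add_comm T s, hG]
    rw [h2] at h1
    exact add_right_cancel h1

theorem sum_eq_zero_of_shift {T : ℕ} {G : ℕ → ℂ} (hG : ∀ n, G (n + T) = G n) {s : ℕ} {ω : ℂ}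
    (hω : ω ≠ 1) (h : ∀ n, G (n + s) = ω * G n) : ∑ n ∈ range T, G n = 0 := by
  have h1 := sum_range_shift hG s
  rw [Finset.sum_congr rfl fun n _ => h n, ← Finset.mul_sum] at h1
  have h2 : (ω - 1) * ∑ n ∈ range T, G n = 0 := by
    rw [sub_mul, one_mul, h1, sub_self]
  rcases mul_eq_zero.mp h2 with h3 | h3
  · exact absurd (sub_eq_zero.mp h3) hω
  · exact h3

/-- partial summation -/
theorem norm_sum_mul_le {f g : ℕ → ℂ} {A δ : ℝ} (hA : 0 ≤ A) (hg : ∀ n, ‖g n‖ ≤ 1)
    (hd : ∀ n, ‖g n - g (n + 1)‖ ≤ δ) (N : ℕ)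
    (hf : ∀ n ≤ N, ‖∑ k ∈ range n, f k‖ ≤ A) :
    ‖∑ n ∈ range N, f n * g n‖ ≤ A * (1 + N * δ) := by
  have hδ : 0 ≤ δ := (norm_nonneg _).trans (hd 0)
  have key : ∀ M, ∑ n ∈ range M, f n * g n =
      (∑ k ∈ range M, f k) * g M + ∑ n ∈ range M, (∑ k ∈ range (n + 1), f k) * (g n - g (n + 1)) := by
    intro M
    induction M with
    | zero => simp
    | succ M ih =>
      rw [Finset.sum_range_succ, ih, Finset.sum_range_succ _ M]
      rw [Finset.sum_range_succ (fun n => (∑ k ∈ range (n + 1), f k) * (g n - g (n + 1))) M]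
      rw [Finset.sum_range_succ f M]
      ring
  rw [key]
  have h1 : ‖(∑ k ∈ range N, f k) * g N‖ ≤ A := by
    rw [norm_mul]
    calc _ ≤ A * 1 := mul_le_mul (hf N le_rfl) (hg N) (norm_nonneg _) hA
      _ = A := mul_one A
  have h2 : ‖∑ n ∈ range N, (∑ k ∈ range (n + 1), f k) * (g n - g (n + 1))‖ ≤ N * (A * δ) := by
    refine (norm_sum_le _ _).trans ?_
    calc _ ≤ ∑ _n ∈ range N, A * δ := by
          refine Finset.sum_le_sum fun n hn => ?_
          rw [norm_mul]
          exact mul_le_mul (hf (n + 1) (Finset.mem_range.mp hn)) (hd n) (norm_nonneg _) hA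
      _ = N * (A * δ) := by rw [Finset.sum_const, Finset.card_range, nsmul_eq_mul]
  calc _ ≤ _ := norm_add_le _ _
    _ ≤ A + N * (A * δ) := add_le_add h1 h2
    _ = _ := by ring

end Pool.Agent.Lib.GT
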