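import Pool.Agent.Lib.MP_7b7e48_nt.GT.UniformFinal
import Pool.Agent.Lib.MP_7b7e48_nt.GT.ClassUniform
import Pool.Agent.Lib.MP_7b7e48_nt.GT.ConvL2
import Pool.Agent.Lib.MP_7b7e48_nt.GT.Lower

/-!
# Goldbach-Turan: L¹ asymptotics for the number of representations in a window
-/

open Finset

namespace Pool.Agent.Lib.GT

/-- the statement of `transfer` -/
def TransferStmt : Prop := ∀ K₁ : ℝ, ∀ ε : ℝ, 0 < ε → ∃ w₀ : ℕ, ∀ w : ℕ, w₀ ≤ w → ∃ X₀ : ℕ,
    ∀ X : ℕ, X₀ ≤ X →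
    ∀ f h : ℕ → ℝ, (∀ n, |f n| ≤ lam n) → (∀ n, |h n| ≤ lam n + Lw w n) →
    (∀ n, X < n → f n = 0 ∧ h n = 0) →
    (∀ α : ℝ, ‖∑ n ∈ Finset.Icc 1 X, (h n : ℂ) * e (α * n)‖ ≤ K₁ * (w : ℝ) ^ (-(1 / 3) : ℝ) * X) →
    ∑ n ∈ Finset.range (2 * X + 1), |∑ x ∈ Finset.range (n + 1), f x * h (n - x)| ≤ ε * X ^ 2

theorem Lw_le (w n : ℕ) : Lw w n ≤ (V w)⁻¹ := by
  unfold Lw
  split_ifs
  · exact le_rfl
  · exact inv_nonneg.mpr (V_pos w).le

theorem win_of_gt {t h : ℕ} {f : ℕ → ℝ} {n Y : ℕ} (hY : t + h ≤ Y) (hn : Y < n) : win t h f n = 0 := by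
  unfold win
  rw [if_neg]
  omega

theorem win_zero {t h : ℕ} {f : ℕ → ℝ} : win t h f 0 = 0 := by
  unfold win
  rw [if_neg]
  omega

/-- `log w · w^(-1/3) → 0` -/
theorem tendsto_log_rpow : Filter.Tendsto (fun w : ℕ => Real.log w * (w : ℝ) ^ (-(1 / 3) : ℝ))
    Filter.atTop (nhds 0) := by
  have h1 : Filter.Tendsto (fun x : ℝ => Real.log x / x ^ (1 / 3 : ℝ)) Filter.atTop (nhds 0) :=
    (isLittleO_log_rpow_atTop (by norm_num)).tendsto_div_nhds_zero
  have h2 := h1.comp tendsto_natCast_atTop_atTop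
  refine h2.congr fun w => ?_
  simp only [Function.comp]
  rw [Real.rpow_neg (Nat.cast_nonneg w), div_eq_mul_inv]

theorem tendsto_rpow_third : Filter.Tendsto (fun w : ℕ => (w : ℝ) ^ (-(1 / 3) : ℝ))
    Filter.atTop (nhds 0) :=
  (tendsto_rpow_neg_atTop (by norm_num)).comp tendsto_natCast_atTop_atTop

/-- **L1 asymptotics in a window.** -/
theorem window_l1_of (transfer : TransferStmt) (om : ℕ → ℝ) (W0 : ℕ) (hW0 : 1 ≤ W0) (hper : ∀ n, om (n + W0) = om n)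
    (B0 : ℝ) (hB1 : 1 ≤ B0) (hB0 : ∀ n, |om n| ≤ B0) :
    ∀ ε : ℝ, 0 < ε → ∃ w₁ : ℕ, ∀ w : ℕ, w₁ ≤ w → ∃ Y₀ : ℕ, ∀ Y : ℕ, Y₀ ≤ Y → ∀ t h : ℕ, t + h ≤ Y →
      ∑ n ∈ range (2 * Y + 1), |∑ x ∈ range (n + 1),
        (win t h (fun n => om n * lam n) x * win t h (fun n => om n * lam n) (n - x) -
         win t h (fun n => om n * Lw w n) x * win t h (fun n => om n * Lw w n) (n - x))| ≤ ε * Y ^ 2 ∧
      |∑ n ∈ Ioc t (t + h), om n * (lam n - Lw w n)| ≤ ε * Y := by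
  intro ε hε
  obtain ⟨C, hC, hun⟩ := uniform
  obtain ⟨CV, hCV, hV⟩ := V_inv_le
  have hW0r : (1 : ℝ) ≤ W0 := by exact_mod_cast hW0
  -- constants
  set K₁ : ℝ := 2 * W0 * (C + 1) with hK₁
  obtain ⟨w₀, htr⟩ := transfer K₁ (ε / (2 * B0 ^ 2)) (by positivity)
  -- w large
  have hlim1 : ∀ᶠ w : ℕ in Filter.atTop, Real.log w * (w : ℝ) ^ (-(1 / 3) : ℝ) <
      ε / (8 * (2 * B0 ^ 2 * W0 * (C + 1)) * CV) :=
    tendsto_log_rpow.eventually (gt_mem_nhds (by positivity))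
  have hlim2 : ∀ᶠ w : ℕ in Filter.atTop, (w : ℝ) ^ (-(1 / 3) : ℝ) < ε / (2 * B0 * W0 * (C + 1)) :=
    tendsto_rpow_third.eventually (gt_mem_nhds (by positivity))
  obtain ⟨w₂, hw₂⟩ := (hlim1.and hlim2).exists_forall_of_atTop
  refine ⟨max (max w₀ w₂) 2, ?_⟩
  intro w hw
  have hw0 : w₀ ≤ w := le_trans (le_trans (le_max_left _ _) (le_max_left _ _)) hw
  have hw2 : w₂ ≤ w := le_trans (le_trans (le_max_right _ _) (le_max_left _ _)) hw
  have hwtwo : 2 ≤ w := le_trans (le_max_right _ _) hw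
  obtain ⟨hl1, hl2⟩ := hw₂ w hw2
  have hwpos : (0 : ℝ) < (w : ℝ) ^ (-(1 / 3) : ℝ) := by
    have : (0 : ℝ) < w := by exact_mod_cast (by omega : 0 < w)
    positivity
  obtain ⟨X₁, hX₁⟩ := hun w hwtwo ((w : ℝ) ^ (-(1 / 3) : ℝ)) hwpos
  obtain ⟨X₂, hX₂⟩ := htr w hw0
  refine ⟨max (max X₁ X₂) 1, ?_⟩
  intro Y hY t h hth
  have hYX1 : X₁ ≤ Y := le_trans (le_trans (le_max_left _ _) (le_max_left _ _)) hY
  have hYX2 : X₂ ≤ Y := le_trans (le_trans (le_max_right _ _) (le_max_left _ _)) hY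
  have hY1 : 1 ≤ Y := le_trans (le_max_right _ _) hY
  have hYr : (1 : ℝ) ≤ Y := by exact_mod_cast hY1
  -- sup bound
  set S : ℝ := (C + 1) * (w : ℝ) ^ (-(1 / 3) : ℝ) * Y with hS
  have hSup : ∀ Y' : ℕ, Y' ≤ Y → ∀ α : ℝ,
      ‖∑ n ∈ Finset.Icc 1 Y', ((lam n - Lw w n : ℝ) : ℂ) * e (α * n)‖ ≤ S := by
    intro Y' hY' α
    refine (hX₁ Y hYX1 Y' hY' α).trans (le_of_eq ?_)
    rw [hS]; ring
  have hcl : ∀ s t : ℕ, s ≤ t → t ≤ Y → ∀ α : ℝ,
      ‖∑ n ∈ Finset.Ioc s t, ((om n * (lam n - Lw w n) : ℝ) : ℂ) * e (α * n)‖ ≤ 2 * B0 * W0 * S :=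
    fun s t hst htY α => class_uniform hW0 hSup hper hB0 hst htY α
  set f : ℕ → ℝ := win t h (fun n => om n * lam n) with hf
  set F : ℕ → ℝ := win t h (fun n => om n * Lw w n) with hF
  set g : ℕ → ℝ := win t h (fun n => om n * (lam n - Lw w n)) with hg
  have hfg : ∀ n, f n = F n + g n := by
    intro n
    rw [hf, hF, hg]
    unfold win
    split_ifs <;> ring
  -- exponential sums of g
  have hgsum : ∀ α : ℝ, ∑ n ∈ Finset.Icc 1 Y, (g n : ℂ) * e (α * n) =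
      ∑ n ∈ Finset.Ioc t (t + h), ((om n * (lam n - Lw w n) : ℝ) : ℂ) * e (α * n) := by
    intro α
    have hsub : Finset.Ioc t (t + h) ⊆ Finset.Icc 1 Y := by
      intro n hn
      rw [mem_Ioc] at hn
      rw [mem_Icc]
      omega
    rw [← Finset.sum_subset hsub]
    · refine Finset.sum_congr rfl fun n hn => ?_
      rw [mem_Ioc] at hn
      rw [hg]
      unfold win
      rw [if_pos hn]
    · intro n _ hn
      rw [mem_Ioc] at hn
      rw [hg]
      unfold win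
      rw [if_neg hn]
      simp
  have hgsup : ∀ α : ℝ, ‖∑ n ∈ Finset.Icc 1 Y, (g n : ℂ) * e (α * n)‖ ≤ 2 * B0 * W0 * S := by
    intro α
    rw [hgsum α]
    exact hcl t (t + h) (by omega) hth α
  have hgsup' : ∀ α : ℝ, ‖∑ n ∈ Finset.range (Y + 1), (g n : ℂ) * e (α * n)‖ ≤ 2 * B0 * W0 * S := by
    intro α
    have e1 : ∑ n ∈ Finset.range (Y + 1), (g n : ℂ) * e (α * n) =
        ∑ n ∈ Finset.Icc 1 Y, (g n : ℂ) * e (α * n) := by
      have hsub : Finset.Icc 1 Y ⊆ Finset.range (Y + 1) := by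
        intro n hn
        rw [mem_Icc] at hn
        rw [mem_range]
        omega
      rw [← Finset.sum_subset hsub]
      intro n hn hn2
      rw [mem_range] at hn
      rw [mem_Icc] at hn2
      have : n = 0 := by omega
      rw [this, hg, win_zero]
      simp
    rw [e1]
    exact hgsup α
  have hB0pos : 0 < B0 := by linarith
  have hlam0 : ∀ n, 0 ≤ lam n := lam_nonneg
  -- transfer for f * g
  have hT := hX₂ Y hYX2 (fun n => f n / B0) (fun n => g n / B0) (by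
      intro n
      rw [abs_div, abs_of_pos hB0pos, div_le_iff₀ hB0pos, hf]
      unfold win
      split_ifs
      · rw [abs_mul, abs_of_nonneg (lam_nonneg n), mul_comm]
        exact mul_le_mul_of_nonneg_left (hB0 n) (lam_nonneg n)
      · rw [abs_zero]
        exact mul_nonneg (lam_nonneg n) hB0pos.le) (by
      intro n
      rw [abs_div, abs_of_pos hB0pos, div_le_iff₀ hB0pos, hg]
      unfold win
      have h1 : |lam n - Lw w n| ≤ lam n + Lw w n := by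
        rw [abs_le]
        have := lam_nonneg n
        have := Lw_nonneg w n
        constructor <;> linarith
      split_ifs
      · rw [abs_mul, mul_comm]
        exact mul_le_mul h1 (hB0 n) (abs_nonneg _) (by
          have := lam_nonneg n
          have := Lw_nonneg w n
          linarith)
      · rw [abs_zero]
        have := lam_nonneg n
        have := Lw_nonneg w n
        positivity) (by
      intro n hn
      refine ⟨?_, ?_⟩
      · rw [hf, win_of_gt hth hn, zero_div]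
      · rw [hg, win_of_gt hth hn, zero_div]) (by
      intro α
      have e1 : ∑ n ∈ Finset.Icc 1 Y, (((g n / B0 : ℝ)) : ℂ) * e (α * n) =
          (1 / (B0 : ℂ)) * ∑ n ∈ Finset.Icc 1 Y, (g n : ℂ) * e (α * n) := by
        rw [Finset.mul_sum]
        refine Finset.sum_congr rfl fun n _ => ?_
        push_cast
        ring
      rw [e1, norm_mul]
      have e2 : ‖(1 / (B0 : ℂ))‖ = 1 / B0 := by
        rw [norm_div, norm_one, Complex.norm_real, Real.norm_of_nonneg hB0pos.le]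
      rw [e2, hK₁, div_mul_eq_mul_div, one_mul, div_le_iff₀ hB0pos]
      refine (hgsup α).trans (le_of_eq ?_)
      rw [hS]; ring)
  have hT' : ∑ n ∈ range (2 * Y + 1), |∑ x ∈ range (n + 1), f x * g (n - x)| ≤ (ε / 2) * Y ^ 2 := by
    have e1 : ∑ n ∈ range (2 * Y + 1), |∑ x ∈ range (n + 1), f x / B0 * (g (n - x) / B0)| =
        (1 / B0 ^ 2) * ∑ n ∈ range (2 * Y + 1), |∑ x ∈ range (n + 1), f x * g (n - x)| := by
      rw [Finset.mul_sum]
      refine Finset.sum_congr rfl fun n _ => ?_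
      have e3 : ∑ x ∈ range (n + 1), f x / B0 * (g (n - x) / B0) =
          (1 / B0 ^ 2) * ∑ x ∈ range (n + 1), f x * g (n - x) := by
        rw [Finset.mul_sum]
        refine Finset.sum_congr rfl fun x _ => ?_
        field_simp
      rw [e3, abs_mul, abs_of_pos (show (0 : ℝ) < 1 / B0 ^ 2 by positivity)]
    rw [e1] at hT
    have h2 := mul_le_mul_of_nonneg_left hT (show (0 : ℝ) ≤ B0 ^ 2 by positivity)
    calc ∑ n ∈ range (2 * Y + 1), |∑ x ∈ range (n + 1), f x * g (n - x)|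
        = B0 ^ 2 * ((1 / B0 ^ 2) * ∑ n ∈ range (2 * Y + 1), |∑ x ∈ range (n + 1), f x * g (n - x)|) := by
          field_simp
      _ ≤ B0 ^ 2 * (ε / (2 * B0 ^ 2) * Y ^ 2) := h2
      _ = (ε / 2) * Y ^ 2 := by field_simp
  -- g * F by Parseval
  have hP := Transfer.conv_l2 (X := Y) (u := g) (v := F) (fun n hn => by rw [hg, win_of_gt hth hn])
    (fun n hn => by rw [hF, win_of_gt hth hn]) (S := 2 * B0 * W0 * S) hgsup'
  have hVw := hV w hwtwo
  have hVinv : 0 ≤ (V w)⁻¹ := inv_nonneg.mpr (V_pos w).le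
  have hFsq : ∑ n ∈ range (Y + 1), F n ^ 2 ≤ (2 * Y) * (B0 * (V w)⁻¹) ^ 2 := by
    have h1 : ∀ n ∈ range (Y + 1), F n ^ 2 ≤ (B0 * (V w)⁻¹) ^ 2 := by
      intro n _
      rw [hF]
      unfold win
      split_ifs
      · rw [← sq_abs, abs_mul, abs_of_nonneg (Lw_nonneg w n)]
        exact pow_le_pow_left₀ (by have := Lw_nonneg w n; positivity)
          (mul_le_mul (hB0 n) (Lw_le w n) (Lw_nonneg w n) hB0pos.le) 2
      · rw [zero_pow two_ne_zero]
        positivity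
    refine (Finset.sum_le_sum h1).trans ?_
    rw [Finset.sum_const, card_range, nsmul_eq_mul]
    refine mul_le_mul_of_nonneg_right ?_ (by positivity)
    push_cast
    linarith
  have hGF : ∑ n ∈ range (2 * Y + 1), |∑ x ∈ range (n + 1), g x * F (n - x)| ≤ (ε / 2) * Y ^ 2 := by
    -- Cauchy-Schwarz
    have h1 : (∑ n ∈ range (2 * Y + 1), |∑ x ∈ range (n + 1), g x * F (n - x)|) ^ 2 ≤
        (2 * Y + 1) * ∑ n ∈ range (2 * Y + 1), (∑ x ∈ range (n + 1), g x * F (n - x)) ^ 2 := by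
      have h3 := Finset.sum_mul_sq_le_sq_mul_sq (range (2 * Y + 1)) (fun _ => (1 : ℝ))
        (fun n => |∑ x ∈ range (n + 1), g x * F (n - x)|)
      simp only [one_mul, one_pow, Finset.sum_const, card_range, nsmul_eq_mul, mul_one, sq_abs] at h3
      push_cast at h3
      exact h3
    have h4 : (∑ n ∈ range (2 * Y + 1), |∑ x ∈ range (n + 1), g x * F (n - x)|) ^ 2 ≤
        ((ε / 2) * Y ^ 2) ^ 2 := by
      refine h1.trans ?_
      have h5 : (2 * (Y : ℝ) + 1) ≤ 4 * Y := by linarith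
      have h6 : (2 * (Y : ℝ) + 1) * ∑ n ∈ range (2 * Y + 1), (∑ x ∈ range (n + 1), g x * F (n - x)) ^ 2 ≤
          (4 * Y) * ((2 * B0 * W0 * S) ^ 2 * ((2 * Y) * (B0 * (V w)⁻¹) ^ 2)) := by
        refine mul_le_mul h5 (hP.trans ?_) (Finset.sum_nonneg fun n _ => sq_nonneg _) (by positivity)
        exact mul_le_mul_of_nonneg_left hFsq (sq_nonneg _)
      refine h6.trans ?_
      -- (2 B0 W0 S)(B0 V⁻¹) √8 Y ≤ (ε/2) Y²
      have h7 : (4 * (Y : ℝ)) * ((2 * B0 * W0 * S) ^ 2 * ((2 * Y) * (B0 * (V w)⁻¹) ^ 2)) =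
          8 * ((2 * B0 * W0 * S) * (B0 * (V w)⁻¹) * Y) ^ 2 := by ring
      rw [h7]
      have h8 : (2 * B0 * W0 * S) * (B0 * (V w)⁻¹) * Y ≤ (ε / 8) * Y ^ 2 := by
        have h9 : (V w)⁻¹ * (w : ℝ) ^ (-(1 / 3) : ℝ) ≤ ε / (8 * (2 * B0 ^ 2 * W0 * (C + 1))) := by
          calc (V w)⁻¹ * (w : ℝ) ^ (-(1 / 3) : ℝ) ≤ (CV * Real.log w) * (w : ℝ) ^ (-(1 / 3) : ℝ) :=
                mul_le_mul_of_nonneg_right hVw hwpos.le
            _ = CV * (Real.log w * (w : ℝ) ^ (-(1 / 3) : ℝ)) := by ring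
            _ ≤ CV * (ε / (8 * (2 * B0 ^ 2 * W0 * (C + 1)) * CV)) := mul_le_mul_of_nonneg_left hl1.le hCV.le
            _ = ε / (8 * (2 * B0 ^ 2 * W0 * (C + 1))) := by field_simp
        calc (2 * B0 * W0 * S) * (B0 * (V w)⁻¹) * Y =
            (2 * B0 ^ 2 * W0 * (C + 1)) * ((V w)⁻¹ * (w : ℝ) ^ (-(1 / 3) : ℝ)) * Y ^ 2 := by
              rw [hS]; ring
          _ ≤ (2 * B0 ^ 2 * W0 * (C + 1)) * (ε / (8 * (2 * B0 ^ 2 * W0 * (C + 1)))) * Y ^ 2 := by
              gcongr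
          _ = (ε / 8) * Y ^ 2 := by field_simp
      have h10 : 0 ≤ (2 * B0 * W0 * S) * (B0 * (V w)⁻¹) * Y := by positivity
      have h11 := pow_le_pow_left₀ h10 h8 2
      calc 8 * ((2 * B0 * W0 * S) * (B0 * (V w)⁻¹) * Y) ^ 2 ≤ 8 * ((ε / 8) * Y ^ 2) ^ 2 := by linarith
        _ ≤ ((ε / 2) * Y ^ 2) ^ 2 := by nlinarith [sq_nonneg (ε * (Y : ℝ) ^ 2)]
    exact (abs_le_of_sq_le_sq' h4 (by positivity)).2
  constructor
  · have h1 : ∀ n, ∑ x ∈ range (n + 1), (f x * f (n - x) - F x * F (n - x)) =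
        ∑ x ∈ range (n + 1), f x * g (n - x) + ∑ x ∈ range (n + 1), g x * F (n - x) := by
      intro n
      rw [← Finset.sum_add_distrib]
      refine Finset.sum_congr rfl fun x _ => ?_
      rw [hfg (n - x), hfg x]
      ring
    calc ∑ n ∈ range (2 * Y + 1), |∑ x ∈ range (n + 1), (f x * f (n - x) - F x * F (n - x))|
        ≤ ∑ n ∈ range (2 * Y + 1), (|∑ x ∈ range (n + 1), f x * g (n - x)| +
            |∑ x ∈ range (n + 1), g x * F (n - x)|) := by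
          refine Finset.sum_le_sum fun n _ => ?_
          rw [h1]
          exact abs_add_le _ _
      _ ≤ (ε / 2) * Y ^ 2 + (ε / 2) * Y ^ 2 := by
          rw [Finset.sum_add_distrib]
          exact add_le_add hT' hGF
      _ = ε * Y ^ 2 := by ring
  · have h1 := hcl t (t + h) (by omega) hth 0
    have h2 : ∑ n ∈ Finset.Ioc t (t + h), ((om n * (lam n - Lw w n) : ℝ) : ℂ) * e (0 * n) =
        ((∑ n ∈ Finset.Ioc t (t + h), om n * (lam n - Lw w n) : ℝ) : ℂ) := by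
      push_cast
      refine Finset.sum_congr rfl fun n _ => ?_
      rw [zero_mul, e_zero, mul_one]
    rw [h2, Complex.norm_real, Real.norm_eq_abs] at h1
    refine h1.trans ?_
    rw [hS]
    calc 2 * B0 * W0 * ((C + 1) * (w : ℝ) ^ (-(1 / 3) : ℝ) * Y) =
        (2 * B0 * W0 * (C + 1)) * (w : ℝ) ^ (-(1 / 3) : ℝ) * Y := by ring
      _ ≤ (2 * B0 * W0 * (C + 1)) * (ε / (2 * B0 * W0 * (C + 1))) * Y := by gcongr
      _ = ε * Y := by field_simp

end Pool.Agent.Lib.GT
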